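import Pool.Agent.Lib.MP_49df17_al.FBase

-- part Pool.Agent.Lib.MP_49df17_al.EBase
section

/-!
The double complex of a group acting on a simplicial complex.
-/

namespace Pool.Agent.Lib.MP_49df17_al

open Finsupp
open scoped Pointwise

variable {Γ V : Type}

/-- Chains on pairs of a list of group elements and a list of vertices. -/
abbrev PT (Γ V : Type) : Type := List Γ × List V →₀ ℚ

/-- Pair a chain of group lists with a list of vertices. -/
noncomputable def atL (l : List V) : (List Γ →₀ ℚ) →ₗ[ℚ] PT Γ V :=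
  Finsupp.lmapDomain ℚ ℚ fun γ => (γ, l)

/-- Pair a list of group elements with a chain of vertex lists. -/
noncomputable def atG (γ : List Γ) : (List V →₀ ℚ) →ₗ[ℚ] PT Γ V :=
  Finsupp.lmapDomain ℚ ℚ fun l => (γ, l)

@[simp] theorem atL_single (l : List V) (γ : List Γ) (r : ℚ) :
    atL l (single γ r) = single (γ, l) r := by simp [atL]

@[simp] theorem atG_single (γ : List Γ) (l : List V) (r : ℚ) :
    atG γ (single l r) = single (γ, l) r := by simp [atG]

/-- The vertical differential. -/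
noncomputable def dvP : PT Γ V →ₗ[ℚ] PT Γ V :=
  Finsupp.linearCombination ℚ fun x => atL x.2 (dE (single x.1 1))

/-- The horizontal differential. -/
noncomputable def dhP : PT Γ V →ₗ[ℚ] PT Γ V :=
  Finsupp.linearCombination ℚ fun x => atG x.1 (bd (single x.2 1))

theorem single_eq_smul {α : Type} (a : α) (r : ℚ) : single a r = r • single a (1 : ℚ) := by simp

theorem dvP_atL (l : List V) (c : List Γ →₀ ℚ) : dvP (atL l c) = atL l (dE c) := by
  induction c using Finsupp.induction_linear with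
  | zero => simp
  | add x y hx hy => simp only [map_add, hx, hy]
  | single γ r =>
    rw [atL_single, dvP, Finsupp.linearCombination_single, single_eq_smul γ r, map_smul, map_smul]

theorem dhP_atG (γ : List Γ) (c : List V →₀ ℚ) : dhP (atG γ c) = atG γ (bd c) := by
  induction c using Finsupp.induction_linear with
  | zero => simp
  | add x y hx hy => simp only [map_add, hx, hy]
  | single l r =>
    rw [atG_single, dhP, Finsupp.linearCombination_single, single_eq_smul l r, map_smul, map_smul]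

theorem dhP_atL (l : List V) (c : List Γ →₀ ℚ) : dhP (atL l c) =
    ∑ i ∈ Finset.range l.length, ((-1 : ℚ) ^ i) • atL (l.eraseIdx i) c := by
  induction c using Finsupp.induction_linear with
  | zero => simp
  | add x y hx hy => simp only [map_add, hx, hy, smul_add, Finset.sum_add_distrib]
  | single γ r =>
    rw [atL_single, ← atG_single, dhP_atG, bd_single, map_sum]
    simp only [map_smul, atG_single, atL_single]

theorem PT_ext {N : Type} [AddCommGroup N] [Module ℚ N] {f g : PT Γ V →ₗ[ℚ] N}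
    (h : ∀ γ l, f (single (γ, l) 1) = g (single (γ, l) 1)) (x : PT Γ V) : f x = g x := by
  induction x using Finsupp.induction_linear with
  | zero => simp
  | add x y hx hy => simp only [map_add, hx, hy]
  | single a r => rw [single_eq_smul a r, map_smul, map_smul, h a.1 a.2]

theorem dhP_dhP (x : PT Γ V) : dhP (dhP x) = 0 :=
  PT_ext (f := dhP.comp dhP) (g := 0) (fun γ l => by
    rw [← atG_single, LinearMap.comp_apply, dhP_atG, dhP_atG, bd_bd]; simp) x

theorem dvP_dvP (x : PT Γ V) : dvP (dvP x) = 0 :=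
  PT_ext (f := dvP.comp dvP) (g := 0) (fun γ l => by
    rw [← atL_single, LinearMap.comp_apply, dvP_atL, dvP_atL, dE_dE]; simp) x

theorem dvP_dhP (x : PT Γ V) : dvP (dhP x) = dhP (dvP x) :=
  PT_ext (f := dvP.comp dhP) (g := dhP.comp dvP) (fun γ l => by
    rw [← atL_single, LinearMap.comp_apply, LinearMap.comp_apply, dvP_atL, dhP_atL, dhP_atL,
      map_sum]
    simp only [map_smul, dvP_atL]) x

/-- Chains of bidegree `(p, s)`: group lists of length `p + 1`, vertex lists of length `s`. -/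
def PD (Γ : Type) (X : Cx V) (p s : ℕ) : Submodule ℚ (PT Γ V) :=
  Finsupp.supported ℚ ℚ {x | x.1.length = p + 1 ∧ x.2.length = s ∧ X (vs x.2)}

theorem PD_induction {X : Cx V} {p s : ℕ} {N : Type} [AddCommGroup N] [Module ℚ N]
    (f : PT Γ V →ₗ[ℚ] N) (U : Submodule ℚ N)
    (h : ∀ (γ : List Γ) (l : List V), γ.length = p + 1 → l.length = s → X (vs l) →
      f (single (γ, l) 1) ∈ U) {x : PT Γ V} (hx : x ∈ PD Γ X p s) : f x ∈ U := by
  have : PD Γ X p s ≤ U.comap f := by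
    unfold PD
    rw [Finsupp.supported_eq_span_single, Submodule.span_le]
    rintro _ ⟨a, ha, rfl⟩
    exact h a.1 a.2 ha.1 ha.2.1 ha.2.2
  exact this hx

theorem atL_mem_PD {X : Cx V} {p s : ℕ} {l : List V} (h1 : l.length = s) (h2 : X (vs l))
    {c : List Γ →₀ ℚ} (hc : c ∈ Cn Γ (p + 1)) : atL l c ∈ PD Γ X p s :=
  Ch_induction (atL l) _ (fun γ hγ _ => by
    rw [atL_single]; exact Finsupp.single_mem_supported ℚ _ ⟨hγ, h1, h2⟩) hc

theorem atG_mem_PD {X : Cx V} {p s : ℕ} {γ : List Γ} (h1 : γ.length = p + 1)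
    {c : List V →₀ ℚ} (hc : c ∈ Ch X s) : atG γ c ∈ PD Γ X p s :=
  Ch_induction (atG γ) _ (fun l hl h2 => by
    rw [atG_single]; exact Finsupp.single_mem_supported ℚ _ ⟨h1, hl, h2⟩) hc

variable [Group Γ] [MulAction Γ V]

theorem perm_atL (g : Γ) (l : List V) (c : List Γ →₀ ℚ) :
    perm Γ (List Γ × List V) g (atL l c) = atL (g • l) (perm Γ (List Γ) g c) := by
  induction c using Finsupp.induction_linear with
  | zero => simp
  | add x y hx hy => simp only [map_add, hx, hy]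
  | single γ r => simp

theorem perm_atG (g : Γ) (γ : List Γ) (c : List V →₀ ℚ) :
    perm Γ (List Γ × List V) g (atG γ c) = atG (g • γ) (perm Γ (List V) g c) := by
  induction c using Finsupp.induction_linear with
  | zero => simp
  | add x y hx hy => simp only [map_add, hx, hy]
  | single γ r => simp

theorem dvP_perm (g : Γ) (x : PT Γ V) :
    dvP (perm Γ (List Γ × List V) g x) = perm Γ (List Γ × List V) g (dvP x) :=
  PT_ext (f := dvP.comp (perm Γ (List Γ × List V) g)) (g := (perm Γ (List Γ × List V) g).comp dvP)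
    (fun γ l => by
      rw [← atL_single, LinearMap.comp_apply, LinearMap.comp_apply, perm_atL, dvP_atL, dvP_atL,
        perm_atL, perm_list, perm_list, dE_mapL]) x

theorem dhP_perm (g : Γ) (x : PT Γ V) :
    dhP (perm Γ (List Γ × List V) g x) = perm Γ (List Γ × List V) g (dhP x) :=
  PT_ext (f := dhP.comp (perm Γ (List Γ × List V) g)) (g := (perm Γ (List Γ × List V) g).comp dhP)
    (fun γ l => by
      rw [← atG_single, LinearMap.comp_apply, LinearMap.comp_apply, perm_atG, dhP_atG, dhP_atG,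
        perm_atG, perm_list, perm_list, bd_mapL]) x

/-- An equivariant map preserves `IS J`. -/
theorem IS_le_comap {J : Subgroup Γ} {α : Type} [MulAction Γ α] (f : (α →₀ ℚ) →ₗ[ℚ] (α →₀ ℚ))
    (h : ∀ j ∈ J, ∀ x, ∃ j' ∈ J, f (perm Γ α j x) = perm Γ α j' (f x)) :
    IS J α ≤ (IS J α).comap f := fun _ hc =>
  IS_induction f _ (fun j hj a => by
    obtain ⟨j', hj', e⟩ := h j hj (single a 1)
    rw [← perm_single, e]
    exact perm_sub_mem_IS hj' _) hc

/-- The coinvariants of the pair chains. -/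
abbrev TQ (J : Subgroup Γ) (V : Type) [MulAction Γ V] : Type := PT Γ V ⧸ IS J (List Γ × List V)

/-- The quotient map to the coinvariants. -/
noncomputable abbrev mkT (J : Subgroup Γ) : PT Γ V →ₗ[ℚ] TQ J V := (IS J (List Γ × List V)).mkQ

/-- The double complex of the action of `J` on `X`. -/
noncomputable def eqDC (J : Subgroup Γ) (X : Cx V) (hX : Down X) : DC (TQ J V) where
  D p s := (PD Γ X p s).map (mkT J)
  dv := Submodule.mapQ _ _ dvP (IS_le_comap _ fun j hj x => ⟨j, hj, dvP_perm j x⟩)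
  dh := Submodule.mapQ _ _ dhP (IS_le_comap _ fun j hj x => ⟨j, hj, dhP_perm j x⟩)
  dv_mem p s := by
    rintro _ ⟨x, hx, rfl⟩
    refine ⟨dvP x, PD_induction dvP _ (fun γ l h1 h2 h3 => ?_) hx, rfl⟩
    have h := single_mem_Ch (X := fun _ => True) h1 trivial 1
    rw [← atL_single, dvP_atL, dE_eq_bd h]
    exact atL_mem_PD h2 h3 (bd_mem_Ch (fun _ _ _ _ => trivial) h)
  dv_zero s := by
    rintro _ ⟨x, hx, rfl⟩
    have : dvP x ∈ (⊥ : Submodule ℚ (PT Γ V)) := PD_induction dvP _ (fun γ l h1 _ _ => by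
      rw [← atL_single, dvP_atL, dE_eq_zero (single_mem_Ch (X := fun _ => True) h1 trivial 1)]
      simp) hx
    change mkT J (dvP x) = 0
    rw [(Submodule.mem_bot ℚ).1 this, map_zero]
  dh_mem p s := by
    rintro _ ⟨x, hx, rfl⟩
    refine ⟨dhP x, PD_induction dhP _ (fun γ l h1 h2 h3 => ?_) hx, rfl⟩
    rw [← atG_single, dhP_atG]
    exact atG_mem_PD h1 (bd_mem_Ch hX (single_mem_Ch h2 h3 1))
  dh_zero p := by
    rintro _ ⟨x, hx, rfl⟩
    have : dhP x ∈ (⊥ : Submodule ℚ (PT Γ V)) := PD_induction dhP _ (fun γ l _ h2 _ => by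
      rw [← atG_single, dhP_atG, List.length_eq_zero_iff.1 h2]; simp) hx
    change mkT J (dhP x) = 0
    rw [(Submodule.mem_bot ℚ).1 this, map_zero]
  dh_dh x := by
    induction x using Submodule.Quotient.induction_on with
    | H x => change mkT J (dhP (dhP x)) = 0; rw [dhP_dhP, map_zero]
  dv_dv x := by
    induction x using Submodule.Quotient.induction_on with
    | H x => change mkT J (dvP (dvP x)) = 0; rw [dvP_dvP, map_zero]
  comm x := by
    induction x using Submodule.Quotient.induction_on with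
    | H x => change mkT J (dvP (dhP x)) = mkT J (dhP (dvP x)); rw [dvP_dhP]

theorem eqDC_D {J : Subgroup Γ} {X : Cx V} {hX : Down X} {p s : ℕ} {x : TQ J V} :
    x ∈ (eqDC J X hX).D p s ↔ ∃ y ∈ PD Γ X p s, mkT J y = x := Iff.rfl

theorem eqDC_dv {J : Subgroup Γ} {X : Cx V} {hX : Down X} (x : PT Γ V) :
    (eqDC J X hX).dv (mkT J x) = mkT J (dvP x) := rfl

theorem eqDC_dh {J : Subgroup Γ} {X : Cx V} {hX : Down X} (x : PT Γ V) :
    (eqDC J X hX).dh (mkT J x) = mkT J (dhP x) := rfl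

/-- The operator of an element that normalises `J`. -/
noncomputable def opT (J : Subgroup Γ) (V : Type) [MulAction Γ V] (g : Γ)
    (hg : ∀ j ∈ J, g * j * g⁻¹ ∈ J) : Module.End ℚ (TQ J V) :=
  Submodule.mapQ _ _ (perm Γ (List Γ × List V) g) (IS_le_comap _ fun j hj x =>
    ⟨g * j * g⁻¹, hg j hj, by
      rw [← Module.End.mul_apply, ← Module.End.mul_apply, ← map_mul, ← map_mul]; simp⟩)

theorem opT_mk {J : Subgroup Γ} (g : Γ) (hg : ∀ j ∈ J, g * j * g⁻¹ ∈ J) (x : PT Γ V) :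
    opT J V g hg (mkT J x) = mkT J (perm Γ (List Γ × List V) g x) := rfl

theorem mkT_perm {J : Subgroup Γ} {j : Γ} (hj : j ∈ J) (x : PT Γ V) :
    mkT J (perm Γ (List Γ × List V) j x) = mkT J x :=
  (Submodule.Quotient.eq _).2 (perm_sub_mem_IS hj x)

theorem mkT_atL_IS {J : Subgroup Γ} (l : List V) {c : List Γ →₀ ℚ}
    (hc : c ∈ IS (J ⊓ MulAction.stabilizer Γ l) (List Γ)) : mkT J (atL l c) = 0 :=
  (Submodule.mem_bot ℚ).1 (IS_induction ((mkT J).comp (atL l)) ⊥ (fun j hj γ => by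
    have e : j • l = l := hj.2
    rw [LinearMap.comp_apply, LinearMap.comp_apply, ← perm_single, ← mkT_perm hj.1 (atL l (single γ 1)),
      perm_atL, e, sub_self]
    exact Submodule.zero_mem _) hc)

/-- A cycle of the stabiliser of a list gives a vertical cycle. -/
theorem eqDC_dv_atL {J : Subgroup Γ} {X : Cx V} {hX : Down X} (l : List V) {q : ℕ}
    {c : List Γ →₀ ℚ} (hc : c ∈ Zs (J ⊓ MulAction.stabilizer Γ l) q) :
    (eqDC J X hX).dv (mkT J (atL l c)) = 0 := by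
  rw [eqDC_dv, dvP_atL]; exact mkT_atL_IS l hc.2

/-- A boundary of the stabiliser of a list gives a vertical boundary. -/
theorem eqDC_atL_Bs {J : Subgroup Γ} {X : Cx V} {hX : Down X} {l : List V} (hl : X (vs l)) {q : ℕ}
    {c : List Γ →₀ ℚ} (hc : c ∈ Bs (J ⊓ MulAction.stabilizer Γ l) q) :
    ∃ y ∈ (eqDC J X hX).D (q + 1) l.length, (eqDC J X hX).dv y = mkT J (atL l c) := by
  obtain ⟨_, ⟨b, hb, rfl⟩, y, hy, rfl⟩ := Submodule.mem_sup.1 hc
  refine ⟨mkT J (atL l b), ⟨_, atL_mem_PD rfl hl hb, rfl⟩, ?_⟩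
  rw [eqDC_dv, dvP_atL, map_add, map_add, mkT_atL_IS l hy, add_zero]

end Pool.Agent.Lib.MP_49df17_al
end

-- part Pool.Agent.Lib.MP_49df17_al.Stmts
section

/-!
The intermediate statements of the proof, as propositions. Each one is proved in its own module
from earlier ones.
-/

namespace Pool.Agent.Lib.MP_49df17_al

open Matrix
open scoped Pointwise

/-! ## Homological tools -/

/-- Decomposition of relative chains by labels. -/
def S_E : Prop := ∀ (V Λ : Type) (X X' : Cx V) (lab : Set V → Λ) (XL : Λ → Cx V),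
  Down X → Down X' → (∀ L, Down (XL L)) → (∀ S, X' S → X S) → (∀ L S, XL L S → X S) →
  (∀ S, S.Finite → X S → ¬ X' S → XL (lab S) S) →
  (∀ L S, S.Finite → XL L S → X' S ∨ lab S = L) → ∀ j,
  ((∀ L, ExactAt (fun S => XL L S ∧ X' S) j) → Zc X' j ⊓ Bc X j ≤ Bc X' j) ∧
  ((∀ L, ExactAt (XL L) j) → (∀ L i, i + 1 = j → ExactAt (fun S => XL L S ∧ X' S) i) →
    Zc X j ≤ Zc X' j ⊔ Bc X j)

/-- The good link of a bad simplex. -/
def GLk {V : Type} (X : Cx V) (b : Set V → Set V) (σ : Set V) : Cx V := fun τ =>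
  Disjoint τ σ ∧ X (σ ∪ τ) ∧ b (σ ∪ τ) = σ

/-- The bad simplex argument. -/
def S_bad : Prop := ∀ (V : Type) (X : Cx V) (b : Set V → Set V), Down X →
  (∀ S, S.Finite → X S → b S ⊆ S) → (∀ S T, S.Finite → X S → T ⊆ S → b T ⊆ b S) →
  (∀ S T, S.Finite → X S → b S ⊆ T → T ⊆ S → b T = b S) → ∀ j,
  ((∀ σ, σ.Finite → σ.Nonempty → X σ → b σ = σ → σ.ncard ≤ j + 1 →
      ExactAt (GLk X b σ) (j + 1 - σ.ncard)) →
    Zc (fun S => X S ∧ b S = ∅) j ⊓ Bc X j ≤ Bc (fun S => X S ∧ b S = ∅) j) ∧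
  ((∀ σ, σ.Finite → σ.Nonempty → X σ → b σ = σ → σ.ncard ≤ j →
      ExactAt (GLk X b σ) (j - σ.ncard)) →
    Zc X j ≤ Zc (fun S => X S ∧ b S = ∅) j ⊔ Bc X j)

/-- The part of the link of `σ` on the vertices outside `Bad`. -/
def FLk {V : Type} (X : Cx V) (Bad : Set V) (σ : Set V) : Cx V := fun τ =>
  (∀ v ∈ τ, v ∉ Bad) ∧ X (σ ∪ τ)

/-- The bad simplex argument for the full subcomplex `FLk X Bad ∅` on the good vertices. -/
def S_full : Prop := ∀ (V : Type) (X : Cx V) (Bad : Set V), Down X → ∀ j,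
  ((∀ σ, σ.Finite → σ.Nonempty → σ ⊆ Bad → X σ → σ.ncard ≤ j + 1 →
      ExactAt (FLk X Bad σ) (j + 1 - σ.ncard)) →
    Zc (FLk X Bad ∅) j ⊓ Bc X j ≤ Bc (FLk X Bad ∅) j) ∧
  ((∀ σ, σ.Finite → σ.Nonempty → σ ⊆ Bad → X σ → σ.ncard ≤ j →
      ExactAt (FLk X Bad σ) (j - σ.ncard)) →
    Zc X j ≤ Zc (FLk X Bad ∅) j ⊔ Bc X j)

/-- A relation between simplices that is closed under passing to faces. -/
def Down2 {V W : Type} (R : Set V → Set W → Prop) : Prop :=
  ∀ σ σ' τ τ', R σ τ → σ' ⊆ σ → τ' ⊆ τ → R σ' τ'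

/-- Cycles are sums of cycles subordinate to one helper vertex (with coefficients). -/
def S_genC : Prop := ∀ (V W M : Type) [AddCommGroup M] [Module ℚ M]
  (𝒜 : Set V → Submodule ℚ M) (R' R : Set V → Set W → Prop) (j : ℕ),
  (∀ S S', S ⊆ S' → 𝒜 S' ≤ 𝒜 S) → Down2 R' → Down2 R →
  (∀ σ τ, σ.Finite → τ.Finite → R' σ τ → R σ τ) →
  (∀ σ, σ.Finite → σ.ncard ≤ j → R' σ ∅ → Acyc (R' σ) j) →
  (∀ τ, τ.Finite → τ.Nonempty → τ.ncard ≤ j + 1 → R ∅ τ →
    ∀ n < j, ExactC 𝒜 (fun σ => R σ τ) n) →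
  ∀ z ∈ ChC 𝒜 (fun σ => R' σ ∅) j, bd z = 0 →
    z ∈ ⨆ w : W, ChC 𝒜 (fun σ => R σ {w}) j ⊓ LinearMap.ker bd

/-- Cycles are sums of cycles subordinate to one helper vertex. -/
def S_gen : Prop := ∀ (V W : Type) (R' R : Set V → Set W → Prop) (j : ℕ),
  Down2 R' → Down2 R → (∀ σ τ, σ.Finite → τ.Finite → R' σ τ → R σ τ) →
  (∀ σ, σ.Finite → σ.ncard ≤ j → R' σ ∅ → Acyc (R' σ) j) →
  (∀ τ, τ.Finite → τ.Nonempty → τ.ncard ≤ j + 1 → R ∅ τ →
    ∀ n < j, ExactAt (fun σ => R σ τ) n) →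
  Zc (fun σ => R' σ ∅) j ≤ ⨆ w : W, Zc (fun σ => R σ {w}) j

/-! ## Group homology -/

/-- Exactness of the rows of the equivariant double complex. -/
def S_rows : Prop := ∀ (Γ V : Type) [Group Γ] [MulAction Γ V] (J : Subgroup Γ) (X : Cx V)
  (hX : Down X), (∀ j ∈ J, ∀ S, X S → X (j • S)) → ∀ p s, ExactAt X s →
  ∀ x ∈ (eqDC J X hX).D p s, (eqDC J X hX).dh x = 0 →
    ∃ y ∈ (eqDC J X hX).D p (s + 1), (eqDC J X hX).dh y = x

/-- Vertical cycles are sums of cycles of stabilisers. -/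
def S_cols : Prop := ∀ (Γ V : Type) [Group Γ] [MulAction Γ V] (J : Subgroup Γ) (X : Cx V)
  (hX : Down X) (p s : ℕ), ∀ x ∈ (eqDC J X hX).D p s, (eqDC J X hX).dv x = 0 →
    ∃ (Ls : Finset (List V)) (c : List V → List Γ →₀ ℚ),
      (∀ l ∈ Ls, l.length = s ∧ X (vs l) ∧ c l ∈ Zs (J ⊓ MulAction.stabilizer Γ l) p) ∧
      (∀ l ∈ Ls, ∀ l' ∈ Ls, ∀ j ∈ J, j • l = l' → l = l') ∧
      x = ∑ l ∈ Ls, mkT J (atL l (c l))

/-- A chain that becomes a vertical boundary is a boundary for the stabiliser. -/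
def S_colinj : Prop := ∀ (Γ V : Type) [Group Γ] [MulAction Γ V] (J : Subgroup Γ) (X : Cx V)
  (hX : Down X) (p s : ℕ) (l : List V) (c : List Γ →₀ ℚ),
  ∀ y ∈ (eqDC J X hX).D (p + 1) s, (eqDC J X hX).dv y = mkT J (atL l c) →
    c ∈ Bs (J ⊓ MulAction.stabilizer Γ l) p

/-- Maps that are equivariant along the same map of subgroups agree on homology. -/
def S_Heq : Prop := ∀ (Γ Γ' : Type) [Group Γ] [Group Γ'] (J : Subgroup Γ) (J' : Subgroup Γ')
  (f f' : Γ → Γ') (hf : ∀ j ∈ J, ∃ j' ∈ J', ∀ x, f (j * x) = j' * f x)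
  (hf' : ∀ j ∈ J, ∃ j' ∈ J', ∀ x, f' (j * x) = j' * f' x),
  (∀ j ∈ J, ∃ j' ∈ J', (∀ x, f (j * x) = j' * f x) ∧ ∀ x, f' (j * x) = j' * f' x) →
  ∀ q, Hlift f hf q = Hlift f' hf' q

/-- An injective homomorphism identifies the homology of a subgroup with that of its image. -/
def S_Hbij : Prop := ∀ (Γ Γ' : Type) [Group Γ] [Group Γ'] (J : Subgroup Γ) (J' : Subgroup Γ')
  (f : Γ →* Γ') (h : ∀ j ∈ J, f j ∈ J'), Function.Injective f → J.map f = J' →
  ∀ q, Function.Bijective (Hmap f h q)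

/-- An element that centralises `J` acts trivially. -/
def S_center : Prop := ∀ (Γ : Type) [Group Γ] (J : Subgroup Γ) (g : Γ),
  (∀ j ∈ J, g * j = j * g) → ∀ k, Tors J {g} k

/-- The prime ideal argument. -/
def S_PI : Prop := ∀ (Γ : Type) [Group Γ] (G J : Subgroup Γ) (g0 : Γ) (k : ℕ), J ≤ G →
  (∀ g ∈ G, ∀ g' ∈ G, g * g' * g⁻¹ * g'⁻¹ ∈ J) → g0 ∈ G →
  (∀ L : Subgroup Γ, J ≤ L → L ≤ G → g0 ∉ L → Tors J ((G : Set Γ) \ L) k) → Tors J {g0} k

/-- Torsion passes from the stabilisers of an action to the group. -/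
def S_TA : Prop := ∀ (Γ V : Type) [Group Γ] [MulAction Γ V] (G J : Subgroup Γ) (Good : Set Γ)
  (X : Cx V) (k : ℕ), Down X → X ∅ → J ≤ G → (∀ g ∈ G, ∀ g' ∈ G, g * g' * g⁻¹ * g'⁻¹ ∈ J) →
  (∀ g ∈ Good, g ∈ G) → (∀ g ∈ G, ∀ S, X S → X (g • S)) → Acyc X k →
  (∀ l : List V, l ≠ [] → l.length ≤ k + 1 → X (vs l) →
    Tors (J ⊓ MulAction.stabilizer Γ l) (Good ∩ MulAction.stabilizer Γ l) (k + 1 - l.length)) →
  Tors J Good k

/-- In a Heisenberg triple the centre is unipotent on a vector when the other two are. -/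
def S_alg : Prop := ∀ (Q M : Type) [Group Q] [AddCommGroup M] [Module ℚ M]
  (ρ : Representation ℚ Q M) (x y z : Q), ρ (z * x * z⁻¹) = ρ (x * y) → ρ (y * x) = ρ (x * y) →
  ρ (y * z) = ρ (z * y) → ∀ m, LU (ρ x) m → LU (ρ z) m → LU (ρ y) m

/-- Torsion with a single element means local unipotence in the homology of a larger group. -/
def S_TorsLU : Prop := ∀ (Γ : Type) [Group Γ] (J J' : Subgroup Γ) [J'.Normal] (h : J ≤ J') (g : Γ)
  (q : ℕ), Tors J {g} q → ∀ x : Hq J q, LU (Hrep J' q g) (Hinc h q x)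

/-- Cohomology is dual to homology. -/
def S_coh : Prop := ∀ (ι : Type) [Fintype ι] [DecidableEq ι] (q : ℕ),
  ∃ e : HIA ι q ≃ₗ[ℚ] Module.Dual ℚ (Hq (IA ι) q),
    ∀ (φ : Au ι) (c : HIA ι q), e (actH q φ c) = (e c).comp (Hrep (IA ι) q φ⁻¹)

/-! ## Spheres -/

/-- The surgery flow. -/
def S_flow : Prop := ∀ (ι : Type) [Fintype ι] [DecidableEq ι] (β : Au ι) (V : Type) (X : Cx V)
  (supp : V → Set (Orb ι)), Down X → (∀ S, S.Finite → X S → Sys (⋃ v ∈ S, supp v)) →
  (∀ (P : Set (Fr ι)) (g : Fr ι) (k : ι × Bool), IsSph P → g ∉ P → ¬ Nest P (g • hl β k) →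
    IsSph (P ∩ g • hl β k) → IsSph (P ∩ (g • hl β k)ᶜ) →
    ∀ v, X {v} → orb P ∈ supp v → ∃ v',
      supp v' ⊆ (supp v \ {orb P}) ∪ {orb (P ∩ g • hl β k), orb (P ∩ (g • hl β k)ᶜ)} ∧
      ∀ S, S.Finite → X S → v ∈ S →
        (∀ Q ∈ orb (P ∩ g • hl β k), Nest Q (P ∩ (g • hl β k)ᶜ)) →
        (∀ u ∈ S, ∀ o ∈ supp u, ∀ Q ∈ o,
          Nest Q (P ∩ g • hl β k) ∧ Nest Q (P ∩ (g • hl β k)ᶜ)) → X (insert v' S)) →
  (∀ v, X {v} → ∃ v', X {v'} ∧ ∀ o ∈ supp v', ∀ Q ∈ o, Compat β Q) ∧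
  ∀ c, (∀ S, S.Finite → X S → (∀ u ∈ S, ∀ o ∈ supp u, ∀ Q ∈ o, Compat β Q) → X (insert c S)) →
    ∀ n, ExactAt X n

/-- Adapted bases exist. -/
def S_adapt : Prop := ∀ (ι : Type) [Fintype ι] [DecidableEq ι] (c : Cfg ι), Valid c →
  ∃ β : Au ι, Adapted β c

/-- An element dual to a sphere extends every partial basis disjoint from the sphere. -/
def S_dual : Prop := ∀ (ι : Type) [Fintype ι] [DecidableEq ι] (A X : Set (Fr ι)) (d k : Fr ι),
  PB A → IsSph X → (∀ a ∈ A, sep X a = ∅) → sep X d = {k} → PB (insert d A) ∧ d ∉ A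

open Classical in
/-- The slide of a tethered side along a fixed element. -/
def S_slide : Prop := ∀ (ι : Type) [Fintype ι] [DecidableEq ι] (c : Cfg ι) (y : Fr ι)
  (t : Set (Fr ι)), Valid c → y ∈ c.A → Adj c.ρ t → (∀ t' ∈ c.T, ¬ Tr t t') →
  ∃ τ ∈ Stab c, HasCl (abv y) (cls t) τ ∧ cls t ⬝ᵥ abv y = 0 ∧ τ • t = y • t ∧
    (∀ g, sep t g ⊆ {1, g⁻¹} →
      τ g = (if g ∈ t then y else 1) * g * (if g⁻¹ ∈ t then y⁻¹ else 1)) ∧
    ∀ γ : Au ι, γ y = y → γ • t = t → γ * τ = τ * γ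

/-- Systems of spheres with classes outside a small subspace form an acyclic complex. -/
def S_Nf : Prop := ∀ (ι : Type) [Fintype ι] [DecidableEq ι] (p : ℕ) [Fact p.Prime]
  (W : Submodule (ZMod p) (ι → ZMod p)) (c : Cfg ι), Valid c →
  c.A.ncard + Module.finrank (ZMod p) (W ⊔ spn p c.ρ : Submodule (ZMod p) (ι → ZMod p)) <
    Fintype.card ι → ∀ n, ExactAt (Nf p W c) n

/-- Independent systems of spheres. -/
def S_Y : Prop := ∀ j, ∃ N, ∀ (ι : Type) [Fintype ι] [DecidableEq ι] (p : ℕ) [Fact p.Prime]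
  (W : Submodule (ZMod p) (ι → ZMod p)) (c : Cfg ι), Valid c →
  c.A.ncard + Module.finrank (ZMod p) (W ⊔ spn p c.ρ : Submodule (ZMod p) (ι → ZMod p)) + N ≤
    Fintype.card ι → Acyc (Yx p W c) j

/-- Partial bases, possibly with a nonvanishing condition modulo a prime. -/
def S_B : Prop := ∀ j, ∃ N, ∀ (ι : Type) [Fintype ι] [DecidableEq ι] (p : ℕ) [Fact p.Prime]
  (ψ : ι → ZMod p) (c : Cfg ι), Valid c → (ψ = 0 ∨ ψ ∉ Ann p c.D) →
  c.A.ncard + N ≤ rkD c.D → Acyc (Bx (Gp p ψ) c) j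

/-- Partial bases in the kernel of a covector. -/
def S_B0 : Prop := ∀ j, ∃ N, ∀ (ι : Type) [Fintype ι] [DecidableEq ι] (ψ : ι → ℤ) (c : Cfg ι),
  Valid c → c.A.ncard + N ≤ rkD c.D → Acyc (Bx (G0 ψ) c) j

/-- Basic facts on complexes of tethers. -/
def S_Atb : Prop := ∀ (ι : Type) [Fintype ι] [DecidableEq ι] (c : Cfg ι) (X0 : Set (Fr ι)),
  Down (At c X0) ∧ (∀ y, Down (AtY c X0 y)) ∧ (∀ X1, Tr X1 X0 → At c X1 = At c X0) ∧
  (Valid c →
    (∀ U t0, (∀ t ∈ U, Adj c.ρ t ∧ Tr t X0) → t0 ∈ U → Disjoint c.A (dif t0 U) →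
      PB (c.A ∪ dif t0 U) → At c X0 U) ∧
    (∀ U t0, At c X0 U → t0 ∈ U → U.Finite ∧ (dif t0 U).ncard + 1 = U.ncard ∧
      ((∀ t ∈ c.T, ¬ Tr X0 t) → Valid (c.ext t0 U) ∧
        ∀ S, Valid ((c.ext t0 U).add S) ↔ Valid (c.add S) ∧ At (c.add S) X0 U)) ∧
    (∀ U y, y ∈ c.A → At c X0 U → Set.InjOn (yo y) U ∧
      ∀ n : Set (Fr ι) → ℤ, At c X0 ((fun t => y ^ n t • t) '' U)) ∧
    (∀ γ ∈ Stab c, Tr (γ • X0) X0 → ∀ U, At c X0 U → At c X0 (γ • U)))

/-- Complexes of tethers are acyclic in a range. -/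
def S_At : Prop := ∀ j, ∃ N, ∀ (ι : Type) [Fintype ι] [DecidableEq ι] (c : Cfg ι)
  (X0 : Set (Fr ι)), Valid c → Adj c.ρ X0 → (∀ t ∈ c.T, ¬ Tr X0 t) → c.A.ncard + N ≤ rkD c.D →
  Acyc (At c X0) j ∧ ∀ y ∈ c.A, Acyc (AtY c X0 y) j

/-- A live configuration without good adjacent side has a good free letter. -/
def S_good : Prop := ∀ (ι : Type) [Fintype ι] [DecidableEq ι] (K : AddSubgroup (ι → ℤ))
  (c : Cfg ι) (β : Au ι), Valid c → Adapted β c →
  (∀ s, Free β c.ρ (s, true) → letter β s ∉ c.A → cls (hl β (s, true)) ∉ K →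
    Adm K c (orb (hl β (s, true)))) ∧
  (¬ L1 K c → (∃ o, Adm K c o) →
    ∃ s, Free β c.ρ (s, true) ∧ letter β s ∉ c.A ∧ cls (hl β (s, true)) ∉ K)

/-- Adding elements in the kernel of a good class keeps the configuration live. -/
def S_live : Prop := ∀ (ι : Type) [Fintype ι] [DecidableEq ι] (K : AddSubgroup (ι → ℤ))
  (c : Cfg ι) (o : Orb ι) (P B : Set (Fr ι)), Valid c → ¬ L1 K c → Adm K c o → P ∈ o →
  Bx (G0 (cls P)) c B → ∃ o', Adm K (c.addA B) o'

/-- Systems of admissible spheres form an acyclic complex. -/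
def S_NK : Prop := ∀ (ι : Type) [Fintype ι] [DecidableEq ι] (K : AddSubgroup (ι → ℤ))
  (c : Cfg ι), Valid c → ¬ L1 K c → (∃ o, Adm K c o) → ∀ n, ExactAt (NK K c) n

/-- Systems of good dual spheres form an acyclic complex. -/
def S_Dc : Prop := ∀ (ι : Type) [Fintype ι] [DecidableEq ι] (K : AddSubgroup (ι → ℤ))
  (c : Cfg ι) (d : Fr ι), Valid c → d ∈ c.A → ¬ Live K c → (∃ o, Dc K c d {o}) →
  ∀ n, ExactAt (Dc K c d) n

/-- Systems of admissible spheres that leave large rank. -/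
def S_NKr : Prop := ∀ j r, ∃ N, ∀ (ι : Type) [Fintype ι] [DecidableEq ι]
  (K : AddSubgroup (ι → ℤ)) (c : Cfg ι), Valid c → ¬ L1 K c → (∃ o, Adm K c o) →
  c.A.ncard + N ≤ rkD c.D → Acyc (NKr K c r) j

/-- Tethered independent spheres. -/
def S_XT (ε : ℕ) : Prop := ∀ j, ∃ N, ∀ (ι : Type) [Fintype ι] [DecidableEq ι] (c : Cfg ι),
  Valid c → Indep 2 ⊥ c.ρ → c.A.ncard + c.ρ.ncard + N ≤ Fintype.card ι → Acyc (XT ε c) j

/-- The complex of handles is acyclic in a range. -/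
def S_HX : Prop := ∀ j, ∃ N, ∀ (ι : Type) [Fintype ι] [DecidableEq ι], N ≤ Fintype.card ι →
  Acyc (HX ι) j

/-- The complex of filling systems. -/
def S_Kx : Prop := ∀ (ι : Type) [Fintype ι] [DecidableEq ι],
  Down (Kx ι) ∧ Kx ι ∅ ∧ (∀ (γ : Au ι) S, Kx ι S → Kx ι (γ • S)) ∧ (∀ n, ExactAt (Kx ι) n) ∧
  (∀ s, ∃ Ls : Finset (List (Set (Orb ι))), ∀ l, l.length = s → Kx ι (vs l) →
    ∃ γ : Au ι, γ • l ∈ Ls) ∧
  ∀ l : List (Set (Orb ι)), l ≠ [] → Kx ι (vs l) → Finite (MulAction.stabilizer (Au ι) l)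

/-! ## Torsion and unipotence -/

/-- The torsion statement for live configurations, in degree `k` with margin `N`. -/
def StarAt (k N : ℕ) : Prop := ∀ (ι : Type) [Fintype ι] [DecidableEq ι]
  (K : AddSubgroup (ι → ℤ)) (c : Cfg ι) (y : Fr ι), Valid c → y ∈ c.A → Live K c →
  c.A.ncard + N ≤ rkD c.D → Tors (IA ι ⊓ Stab c) (GoodS y K c) k

/-- The torsion statement for configurations with a good adjacent side. -/
def StarL1 (k N : ℕ) : Prop := ∀ (ι : Type) [Fintype ι] [DecidableEq ι]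
  (K : AddSubgroup (ι → ℤ)) (c : Cfg ι) (y : Fr ι), Valid c → y ∈ c.A → L1 K c →
  c.A.ncard + N ≤ rkD c.D → Tors (IA ι ⊓ Stab c) (GoodS y K c) k

/-- One of the spheres dual to the tethers of a good side is good. -/
def S_x0 : Prop := ∀ (ι : Type) [Fintype ι] [DecidableEq ι] (K : AddSubgroup (ι → ℤ))
  (c : Cfg ι) (X0 : Set (Fr ι)) (U : Orb ι), Valid c → At c X0 U → (∀ t ∈ c.T, ¬ Tr X0 t) →
  cls X0 ∉ K → 2 ≤ U.ncard →
  ∃ t0 ∈ U, ∃ d ∈ dif t0 U, ∃ o, Dc K (c.ext t0 U) d {o}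

/-- Torsion from the complex of dual spheres. -/
def S_DcT : Prop := ∀ (ι : Type) [Fintype ι] [DecidableEq ι] (K : AddSubgroup (ι → ℤ))
  (c : Cfg ι) (y d : Fr ι), Valid c → y ∈ c.A → d ∈ c.A → d ≠ y → ¬ Live K c →
  (∃ o, Dc K c d {o}) → ∀ k,
  Tors (IA ι ⊓ Stab c) {γ | γ ∈ GoodS y K (c.del d) ∧ ∃ i : ℤ, γ d = y ^ i * d} k

/-- The step for configurations with a good adjacent side. -/
def S_G2a : Prop := ∀ k, (∀ k' < k, ∃ N, StarAt k' N) → ∃ N, StarL1 k N

/-- The step for the other live configurations. -/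
def S_G2b : Prop := ∀ k, (∃ N, StarL1 k N) → ∃ N, StarAt k N

/-- The torsion statement. -/
def S_star : Prop := ∀ k, ∃ N, StarAt k N

/-- Every element of `Gh y` is locally unipotent for the stabiliser of `y`. -/
def S_ii : Prop := ∀ k, ∃ N, ∀ (ι : Type) [Fintype ι] [DecidableEq ι], N ≤ Fintype.card ι →
  ∀ (y : Fr ι) (γ : Au ι), PB {y} → γ ∈ Gh y → Tors (IA ι ⊓ Stab ⟨{y}, ∅, ∅⟩) {γ} k

/-- The dual statement for the stabiliser of a half tree. -/
def S_iis : Prop := ∀ k, ∃ N, ∀ (ι : Type) [Fintype ι] [DecidableEq ι], N ≤ Fintype.card ι →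
  ∀ (β : Au ι) (s : ι) (v : ι → ℤ), cls (hl β (s, true)) ⬝ᵥ v = 0 →
  ∃ γ : Au ι, HasCl v (cls (hl β (s, true))) γ ∧
    Tors (IA ι ⊓ MulAction.stabilizer (Au ι) (hl β (s, false))) {γ} k

/-- Transvections orthogonal to a handle are unipotent on the classes of its stabiliser. -/
def S_uni : Prop := ∀ q, ∃ N, ∀ (ι : Type) [Fintype ι] [DecidableEq ι], N ≤ Fintype.card ι →
  ∀ (β : Au ι) (s : ι) (γ : Au ι) (v φ : ι → ℤ), HasCl v φ γ → φ ⬝ᵥ v = 0 →
  φ ⬝ᵥ abv (letter β s) = 0 → cls (hl β (s, true)) ⬝ᵥ v = 0 →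
  ∀ x : Hq (IA ι ⊓ MulAction.stabilizer (Au ι) [hv β s]) q,
    LU (Hrep (IA ι) q γ) (Hinc inf_le_left q x)

/-! ## Lattices -/

/-- Elementary matrices and one sign matrix generate. -/
def S_Zgen : Prop := ∀ (ι : Type) [Fintype ι] [DecidableEq ι] (c : ι),
  Subgroup.closure ({g | ∃ a b, g = elem a b} ∪ {sgn c}) = ⊤

/-- Isomorphisms of lattices lift to free groups. -/
def S_Zlift : Prop := (∀ (ι : Type) [Fintype ι] [DecidableEq ι], Function.Surjective (abGL ι)) ∧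
  ∀ (X Y : Ob) (m : Mor X Y), m.i * m.r = 1 → ∃ Φ : Fr X.ι ≃* Fr Y.ι, abMat Φ = m.i

/-- A morphism extends to an isomorphism. -/
def S_Zext : Prop := ∀ (X Y : Ob) (m : Mor X Y), ∃ (T : Ob) (g : Mor (X.sum T) Y),
  g.i * g.r = 1 ∧ X.card + T.card = Y.card ∧ m = g.comp (Mor.inl X T)

/-- Morphisms that avoid finitely many vectors and covectors. -/
def S_Z1 : Prop := ∀ (X : Ob) (A Ψ : Set (X.ι → ℤ)) (k : ℕ), A.Finite → Ψ.Finite →
  A.ncard + Ψ.ncard + k ≤ X.card →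
  ∃ m : Mor (Ob.std k) X, (∀ a ∈ A, m.r *ᵥ a = 0) ∧ ∀ ψ ∈ Ψ, ψ ᵥ* m.i = 0

/-- A morphism onto the full complement of a set of handles. -/
def Mor.Full {Y X : Ob} (m : Mor Y X) (S : Set (Hz X.ι)) : Prop :=
  m.Avoids S ∧ ∀ v, (∀ p ∈ S, p.2 ⬝ᵥ v = 0) → m.i *ᵥ (m.r *ᵥ v) = v

/-- The handle of a coordinate of an isomorphism. -/
def Mor.hz {Y X : Ob} (g : Mor Y X) (t : Y.ι) : Hz X.ι := (fun a => g.i a t, fun a => g.r t a)

/-- Complements of simplices of handles. -/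
def S_Zfull : Prop := ∀ (X : Ob) (S : Set (Hz X.ι)), S.Finite → WZ X.ι S →
  (∃ (Y T : Ob) (g : Mor (Y.sum T) X), g.i * g.r = 1 ∧ T.card = S.ncard ∧
    Y.card + T.card = X.card ∧ S = Set.range fun t => g.hz (Sum.inr t)) ∧
  (∀ (Y T : Ob) (g : Mor (Y.sum T) X), g.i * g.r = 1 →
    (S = Set.range fun t => g.hz (Sum.inr t)) → (g.comp (Mor.inl Y T)).Full S) ∧
  (∀ (Y : Ob) (m : Mor Y X), m.Full S → Y.card + S.ncard = X.card ∧
    (∀ (Y' : Ob) (m' : Mor Y' X), m'.Avoids S → ∃ f : Mor Y' Y, m' = m.comp f) ∧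
    ∀ A : VIC, A.sub X S = LinearMap.range (A.map m))

/-- Generation degrees can be raised, and shifts stay generated in bounded rank. -/
def S_Gen0 : Prop := ∀ (A : VIC) (n0 : ℕ), GenIn A n0 →
  (∀ n1, n0 ≤ n1 → GenIn A n1) ∧ ∀ T : Ob, GenIn (A.shift T) (2 * n0)

/-! ## The functor of homology groups -/

/-- The morphism given by an isomorphism of free groups. -/
def isoMor {X Y : Ob} (Φ : Fr X.ι ≃* Fr Y.ι) : Mor X Y :=
  ⟨abMat Φ, abMat Φ.symm, abMat_symm_mul Φ⟩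

/-- The morphism given by a splitting of a free group. -/
def morOf {X Y T : Ob} (Φ : Fr (Y.sum T).ι ≃* Fr X.ι) : Mor Y X := (isoMor Φ).comp (Mor.inl Y T)

/-- The functor `A` is the homology of the IA-groups in degree `q`. -/
def IsW (q : ℕ) (A : VIC) (e : ∀ X : Ob, A.obj X ≃ₗ[ℚ] Hq (IA X.ι) q) : Prop :=
  (∀ (X Y T : Ob) (Φ : Fr (Y.ι ⊕ T.ι) ≃* Fr X.ι) (x : A.obj Y),
    e X (A.map (morOf (T := T) Φ) x) = Hmap (stabHom Φ) (stabHom_IA Φ) q (e Y x)) ∧
  ∀ (X : Ob) (φ : Au X.ι) (x : A.obj X), e X (A.rep X (abGL X.ι φ) x) = Hrep (IA X.ι) q φ (e X x)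

/-- The homology groups form a functor. -/
def S_W : Prop := ∀ q, ∃ A e, IsW q A e

/-- Orbits of lists of handles. -/
def S_O : Prop := ∀ (ι : Type) [Fintype ι] [DecidableEq ι],
  Down (HX ι) ∧ (∀ (γ : Au ι) S, HX ι S → HX ι (γ • S)) ∧ (∀ S, HX ι S → WZ ι (cz '' S)) ∧
  (∀ S, HX ι S → Set.InjOn cz S) ∧
  (∀ j ∈ IA ι, ∀ l, HX ι (vs l) → (j • l).map cz = l.map cz) ∧
  (∀ l l', HX ι (vs l) → HX ι (vs l') → l.map cz = l'.map cz → ∃ j ∈ IA ι, j • l = l') ∧
  ∀ l : List (Hz ι), WZ ι (vs l) → ∃ l', HX ι (vs l') ∧ l'.map cz = l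

/-- Stabilisers of lists of handles. -/
def S_O3 : Prop := ∀ (X : Ob) (l : List (Fr X.ι × Set (Fr X.ι))), HX X.ι (vs l) →
  ∃ (Y T : Ob) (Φ : Fr (Y.ι ⊕ T.ι) ≃* Fr X.ι),
    (morOf (T := T) Φ).Full (cz '' vs l) ∧ Function.Injective (stabHom Φ) ∧
    (IA Y.ι).map (stabHom Φ) = IA X.ι ⊓ MulAction.stabilizer (Au X.ι) l

/-- The homology of the stabiliser of a list of handles. -/
def S_bridge : Prop := ∀ q A e, IsW q A e → ∀ (X : Ob) (l : List (Fr X.ι × Set (Fr X.ι))),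
  HX X.ι (vs l) →
  (A.sub X (cz '' vs l)).map (e X : A.obj X →ₗ[ℚ] Hq (IA X.ι) q) =
    LinearMap.range (Hinc (J := IA X.ι ⊓ MulAction.stabilizer (Au X.ι) l) inf_le_left q) ∧
  ((∀ (Y : Ob) (m : Mor Y X), X.card ≤ Y.card + l.length → Function.Injective (A.map m)) →
    Function.Injective (Hinc (J := IA X.ι ⊓ MulAction.stabilizer (Au X.ι) l) inf_le_left q))

/-- Central stability. -/
def S_V1 : Prop := ∀ A : VIC, Alg A → ∀ j, ∃ N, ∀ X : Ob, N ≤ X.card →
  ∀ n ≤ j, ExactC (A.sub X) (WZ X.ι) n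

/-- Generation in bounded rank. -/
def S_Gen : Prop := ∀ (q : ℕ) (A : ℕ → VIC) (e : ∀ i X, (A i).obj X ≃ₗ[ℚ] Hq (IA X.ι) i),
  (∀ i, IsW i (A i) (e i)) → (∀ i < q, Alg (A i)) → ∃ n0, GenIn (A q) n0

/-- Unipotence in large rank. -/
def S_Unip : Prop := ∀ q A e, IsW q A e → ∀ n0, GenIn A n0 →
  ∃ N, ∀ X : Ob, N ≤ X.card → Unip (A.rep X)

/-- Finite generation as a module. -/
def S_fin : Prop := ∀ (ι : Type) [Fintype ι] [DecidableEq ι] (q : ℕ),
  (∀ i < q, FiniteDimensional ℚ (Hq (IA ι) i)) → ∃ s : Finset (Hq (IA ι) q),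
    Submodule.span ℚ {x | ∃ γ : Au ι, ∃ y ∈ s, x = Hrep (IA ι) q γ y} = ⊤

/-! ## Representations -/

/-- Logarithms of locally unipotent operators. -/
def S_log : Prop := ∀ (M : Type) [AddCommGroup M] [Module ℚ M],
  (∀ (E : Module.End ℚ M), (∀ v, LU E v) →
    (∀ v, ∃ m : ℕ, (ulog E ^ m) v = 0) ∧ (∀ v, E v = v ↔ ulog E v = 0) ∧
    (∀ U : Submodule ℚ M, (∀ v ∈ U, E v ∈ U) ↔ ∀ v ∈ U, ulog E v ∈ U) ∧
    (∀ (M' : Type) [AddCommGroup M'] [Module ℚ M'] (E' : Module.End ℚ M') (f : M →ₗ[ℚ] M'),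
      (∀ v, LU E' v) → (f.comp E = E'.comp f ↔ f.comp (ulog E) = (ulog E').comp f)) ∧
    (∀ F : Module.End ℚ M, (∀ v, LU F v) → E * F = F * E →
      (∀ v, LU (E * F) v) ∧ ulog (E * F) = ulog E + ulog F) ∧
    ∀ F : Module.End ℚ M, E * F = 1 → F * E = 1 → (∀ v, LU F v) ∧ ulog F = -ulog E) ∧
  ∀ (E D : Module.End ℚ M), (∀ v, ∃ m : ℕ, (D ^ m) v = 0 ∧
      E v = ∑ k ∈ Finset.range m, ((k.factorial : ℚ)⁻¹) • (D ^ k) v) →
    (∀ v, LU E v) ∧ ulog E = D

/-- The root operators satisfy the relations of `sl`, and their conjugates are explicit. -/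
def S_isSl : Prop := ∀ (ι M : Type) [Fintype ι] [DecidableEq ι] [AddCommGroup M] [Module ℚ M]
  (ρ : Representation ℚ (GL ι ℤ) M), Unip ρ →
  IsSl (Xop ρ) ∧
  (∀ a b c, ρ (sgn c) * Xop ρ a b =
    (if (a = c ↔ b = c) then (1 : ℚ) else -1) • (Xop ρ a b * ρ (sgn c))) ∧
  (∀ a b c, a ≠ b → b ≠ c → a ≠ c →
    ρ (elem a b) * Xop ρ b c = (Xop ρ b c + Xop ρ a c) * ρ (elem a b) ∧
    ρ (elem a b) * Xop ρ c a = (Xop ρ c a - Xop ρ c b) * ρ (elem a b)) ∧
  ∀ a b c d, b ≠ c → a ≠ d → ρ (elem a b) * Xop ρ c d = Xop ρ c d * ρ (elem a b)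

/-- Reordering of monomials. -/
def S_pbw : Prop := ∀ (M : Type) [AddCommGroup M] [Module ℚ M]
  (𝔤 : Submodule ℚ (Module.End ℚ M)) (a b k : Set (Module.End ℚ M)) (W : Submodule ℚ M),
  (∀ x ∈ 𝔤, ∀ y ∈ 𝔤, x * y - y * x ∈ 𝔤) → (∀ x ∈ a ∪ b ∪ k, x ∈ 𝔤) →
  𝔤 ≤ Submodule.span ℚ (a ∪ b ∪ k) → (∀ x ∈ k, ∀ v ∈ W, x v ∈ W) →
  genBy 𝔤 W ≤ genBy a (genBy b W)

/-- A Lie algebra spanned by finitely many operators nilpotent on `v` generates a
finite-dimensional space. -/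
def S_pbwF : Prop := ∀ (M : Type) [AddCommGroup M] [Module ℚ M]
  (s : Finset (Module.End ℚ M)) (v : M),
  (∀ x ∈ s, ∀ y ∈ s, x * y - y * x ∈ Submodule.span ℚ (s : Set (Module.End ℚ M))) →
  (∀ x ∈ s, ∃ m : ℕ, (x ^ m) v = 0) →
  FiniteDimensional ℚ (genBy (s : Set (Module.End ℚ M)) (Submodule.span ℚ {v}))

/-- The span of the root and coroot operators. -/
def slg {ι M : Type} [AddCommGroup M] [Module ℚ M] (X : ι → ι → Module.End ℚ M) :
    Submodule ℚ (Module.End ℚ M) :=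
  Submodule.span ℚ (allX X ∪ {x | ∃ a b, x = Hop X a b})

/-- The relations of `sl`. -/
def S_slg : Prop := ∀ (ι M : Type) [Fintype ι] [DecidableEq ι] [AddCommGroup M] [Module ℚ M]
  (X : ι → ι → Module.End ℚ M), IsSl X → 3 ≤ Fintype.card ι →
  (∀ x ∈ slg X, ∀ y ∈ slg X, x * y - y * x ∈ slg X) ∧
  (∀ a b c, Hop X a b + Hop X b c = Hop X a c) ∧
  (∀ a b c d, Hop X a b * Hop X c d = Hop X c d * Hop X a b) ∧
  (∀ a b c d, Hop X a b * X c d - X c d * Hop X a b =
    (((Pi.single c 1 - Pi.single d 1 : ι → ℤ) a - (Pi.single c 1 - Pi.single d 1 : ι → ℤ) b : ℤ) :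
      ℚ) • X c d) ∧
  (∀ μ c d, ∀ v ∈ Wt X μ, X c d v ∈ Wt X (μ + Pi.single c 1 - Pi.single d 1)) ∧
  (∀ W, genBy (slg X) W = genBy (allX X) W) ∧
  ∀ μ, Disjoint (Wt X μ) (⨆ (ν : ι → ℤ) (_ : ∃ a b, ν a - ν b ≠ μ a - μ b), Wt X ν)

/-- Unipotent representations are locally finite. -/
def S_locfin : Prop := ∀ (ι M : Type) [Fintype ι] [DecidableEq ι] [AddCommGroup M] [Module ℚ M]
  (ρ : Representation ℚ (GL ι ℤ) M), Unip ρ → 3 ≤ Fintype.card ι →
  ∀ v, FiniteDimensional ℚ (Submodule.span ℚ (Set.range fun g => ρ g v))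

/-- Highest weight theory. -/
def S_hw : Prop := ∀ (ι M : Type) [Fintype ι] [DecidableEq ι] [AddCommGroup M] [Module ℚ M]
  [FiniteDimensional ℚ M] (X : ι → ι → Module.End ℚ M) (ord : ι → ℕ), IsSl X →
  3 ≤ Fintype.card ι → Function.Injective ord →
  (∀ U : Submodule ℚ M, (∀ a b, ∀ v ∈ U, Hop X a b v ∈ U) → U = ⨆ μ, U ⊓ Wt X μ) ∧
  Sing X ord ⊓ Low X ord = ⊥ ∧ Sing X ord ⊔ Low X ord = ⊤ ∧
  genBy (lowX X ord) (Sing X ord) = ⊤ ∧
  (∀ a b, ∀ v ∈ Sing X ord, Hop X a b v ∈ Sing X ord) ∧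
  (∀ a b, ∀ v ∈ Low X ord, Hop X a b v ∈ Low X ord) ∧
  (∀ μ v, v ≠ 0 → v ∈ Sing X ord → v ∈ Wt X μ → ∀ a b, ord a < ord b → μ b ≤ μ a) ∧
  ∀ U, Stable X U → U ⊓ Sing X ord = ⊥ → U = ⊥

/-- A finite-dimensional module is determined by its singular vectors. -/
def S_struct : Prop := ∀ (ι : Type) [Fintype ι] [DecidableEq ι] (ord : ι → ℕ),
  3 ≤ Fintype.card ι → Function.Injective ord →
  (∀ (M : Type) [AddCommGroup M] [Module ℚ M] [FiniteDimensional ℚ M]
    (X : ι → ι → Module.End ℚ M) (μ : ι → ℤ) (u : M), IsSl X → u ∈ Sing X ord → u ∈ Wt X μ →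
    genBy (allX X) (Submodule.span ℚ {u}) = ⊤ → Sing X ord = Submodule.span ℚ {u}) ∧
  ∀ (M : Type) [AddCommGroup M] [Module ℚ M] [FiniteDimensional ℚ M]
    (X : ι → ι → Module.End ℚ M) (k : ℕ) (μ : Fin k → ι → ℤ) (v : Fin k → M)
    (V : Fin k → ModuleCat.{0} ℚ) (Y : ∀ j, ι → ι → Module.End ℚ (V j)) (u : ∀ j, V j),
    IsSl X → (∀ j, v j ∈ Wt X (μ j)) → LinearIndependent ℚ v →
    Submodule.span ℚ (Set.range v) = Sing X ord →
    (∀ j, FiniteDimensional ℚ (V j) ∧ IsSl (Y j) ∧ u j ≠ 0 ∧ u j ∈ Sing (Y j) ord ∧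
      u j ∈ Wt (Y j) (μ j) ∧ genBy (allX (Y j)) (Submodule.span ℚ {u j}) = ⊤) →
    ∃ e : M ≃ₗ[ℚ] (∀ j, V j), (∀ a b x j, e (X a b x) j = Y j a b (e x j)) ∧
      ∀ j, e (v j) = Pi.single j (u j)

/-- The irreducible rational representation of a dominant weight. -/
def S_model : Prop := ∀ (n : ℕ) (μ : Fin n → ℤ), 3 ≤ n → Antitone μ →
  ∃ (V : ModuleCat.{0} ℚ) (ρ : Representation ℚ (GL (Fin n) ℚ) V) (u : V),
    IsIrrepOfWeight ρ μ ∧ Unip (ι := Fin n) (ρ.comp (toQ n)) ∧ u ≠ 0 ∧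
    u ∈ Sing (Xop (ι := Fin n) (ρ.comp (toQ n))) Fin.val ∧
    u ∈ Wt (Xop (ι := Fin n) (ρ.comp (toQ n))) μ ∧
    genBy (allX (Xop (ι := Fin n) (ρ.comp (toQ n)))) (Submodule.span ℚ {u}) = ⊤ ∧
    ∀ c, μ c = 0 → ρ (toQ n (sgn c)) u = u

/-- Coordinate embeddings and root operators. -/
def S_emb : Prop := ∀ (A : VIC) (X Y : Ob) (e : Y.ι ↪ X.ι), Unip (A.rep X) →
  (∀ a b, a ∉ Set.range e → b ∉ Set.range e →
    (Xop (A.rep X) a b).comp (A.map (Mor.emb e)) = 0) ∧
  (∀ c, c ∉ Set.range e → (A.rep X (sgn c)).comp (A.map (Mor.emb e)) = A.map (Mor.emb e)) ∧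
  (Unip (A.rep Y) → ∀ a b, (Xop (A.rep X) (e a) (e b)).comp (A.map (Mor.emb e)) =
    (A.map (Mor.emb e)).comp (Xop (A.rep Y) a b)) ∧
  (∀ a b, ∀ v ∈ LinearMap.range (A.map (Mor.emb e)),
    Xop (A.rep X) (e a) (e b) v ∈ LinearMap.range (A.map (Mor.emb e))) ∧
  ∀ (Z : Ob) (e' : Z.ι ↪ Y.ι), (Mor.emb e).comp (Mor.emb e') = Mor.emb (e'.trans e)

/-- Lowering operators generate everything from the outer coordinates. -/
def S_Q : Prop := ∀ (A : VIC) (n0 : ℕ) (X Y : Ob) (ord : X.ι → ℕ) (e : Y.ι ↪ X.ι), GenIn A n0 →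
  Unip (A.rep X) → 3 ≤ X.card → 2 * n0 ≤ X.card → Function.Injective ord →
  (∀ a, ¬ Mid n0 ord a → a ∈ Set.range e) →
  genBy (lowX (Xop (A.rep X)) ord) (LinearMap.range (A.map (Mor.emb e))) = ⊤

/-- Algebraic functors have a degree. -/
def S_Deg : Prop := ∀ A : VIC, Alg A → ∃ d, Deg A d

/-- The derived functor has smaller degree. -/
def S_delta : Prop := ∀ (A : VIC) (d : ℕ), Alg A → Deg A (d + 1) →
  Alg (A.delta (Ob.of Unit)) ∧ Deg (A.delta (Ob.of Unit)) d

/-- Stabilisation of the covectors that vanish on the lowered vectors. -/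
def S_stab : Prop := ∀ A : VIC, Alg A → ∃ n0 N, 2 * n0 + 3 ≤ N ∧ GenIn A n0 ∧
  (∀ X : Ob, n0 ≤ X.card → FiniteDimensional ℚ (A.obj X) ∧ Unip (A.rep X)) ∧
  ∀ n, N ≤ n → ∀ i : Fin (n + 1), i.val = n0 → ∀ φ : Module.Dual ℚ (A.obj (Ob.std n)),
    (∀ v ∈ Low (Xop (A.rep (Ob.std n))) (ordF true n), φ v = 0) →
    ∃! φ' : Module.Dual ℚ (A.obj (Ob.std (n + 1))),
      (∀ v ∈ Low (Xop (A.rep (Ob.std (n + 1)))) (ordF true (n + 1)), φ' v = 0) ∧
      φ'.comp (A.map (Mor.emb (X := Ob.std n) (Y := Ob.std (n + 1)) i.succAboveEmb)) = φ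

/-- The maps of an algebraic functor are injective in large rank. -/
def S_Rinj : Prop := ∀ A : VIC, Alg A → ∃ N, ∀ (X Y : Ob) (m : Mor X Y), N ≤ X.card →
  Function.Injective (A.map m)

/-- The stable decomposition of the duals. -/
def S_SFdual : Prop := ∀ A : VIC, Alg A → SFdual A

/-! ## Finiteness -/

/-- Two out of three for modules of type `FP`. -/
def S_FP23 : Prop := ∀ (R : Type) [Ring R],
  (∀ (A B : Type) [AddCommGroup A] [Module R A] [AddCommGroup B] [Module R B] (m : ℕ),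
    (A ≃ₗ[R] B) → FP R m A → FP R m B) ∧
  (∀ (A : Type) [AddCommGroup A] [Module R A] (m m' : ℕ), m' ≤ m → FP R m A → FP R m' A) ∧
  (∀ (A : Type) [AddCommGroup A] [Module R A] [Module.Finite R A] [Module.Projective R A] (m : ℕ),
    FP R m A) ∧
  (∀ (k : ℕ) (A : Fin k → Type) [∀ i, AddCommGroup (A i)] [∀ i, Module R (A i)] (m : ℕ),
    (∀ i, FP R m (A i)) → FP R m (∀ i, A i)) ∧
  ∀ (A B C : Type) [AddCommGroup A] [Module R A] [AddCommGroup B] [Module R B] [AddCommGroup C]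
    [Module R C] (f : A →ₗ[R] B) (g : B →ₗ[R] C), Function.Injective f → Function.Surjective g →
    Function.Exact f g → ∀ m,
    (FP R m A → FP R m C → FP R m B) ∧ (FP R m B → FP R (m + 1) C → FP R m A) ∧
    (FP R m A → FP R (m + 1) B → FP R (m + 1) C)

/-- Permutation modules, finite-dimensional modules, and closure properties of `FP` groups. -/
def S_FPg : Prop :=
  (∀ (G α : Type) [Group G] [MulAction G α] (m : ℕ),
    (∃ s : Finset α, ∀ a : α, ∃ g : G, g • a ∈ s) →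
    (∀ a : α, FPg (MulAction.stabilizer G a) m) → FPr (perm G α) m) ∧
  (∀ (G V : Type) [Group G] [AddCommGroup V] [Module ℚ V] [FiniteDimensional ℚ V]
    (ρ : Representation ℚ G V) (m : ℕ), FPg G m → FPr ρ m) ∧
  (∀ (G Q : Type) [Group G] [Group Q] (f : G →* Q) (m : ℕ), Function.Surjective f →
    FPg f.ker m → FPg Q m → FPg G m) ∧
  (∀ (G G' : Type) [Group G] [Group G'] (m : ℕ), (G ≃* G') → FPg G m → FPg G' m) ∧
  (∀ (G : Type) [Group G] [Finite G] (m : ℕ), FPg G m) ∧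
  ∀ (G : Type) [Group G] (m : ℕ), Group.FG G → (∀ a b : G, a * b = b * a) → FPg G m

/-- Brown's criterion. -/
def S_Brown : Prop := ∀ (G V : Type) [Group G] [MulAction G V] (X : Cx V) (m : ℕ), Down X →
  X ∅ → (∀ (g : G) S, X S → X (g • S)) → Acyc X m →
  (∀ s, ∃ Ls : Finset (List V), ∀ l, l.length = s → X (vs l) → ∃ g : G, g • l ∈ Ls) →
  (∀ l : List V, l ≠ [] → X (vs l) → FPg (MulAction.stabilizer G l) m) → FPg G m

/-- The value of a rational quadratic form on an integral vector. -/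
def qf {ι : Type} [Fintype ι] (Q : Matrix ι ι ℚ) (v : ι → ℤ) : ℚ :=
  (fun a => (v a : ℚ)) ⬝ᵥ Q *ᵥ fun a => (v a : ℚ)

/-- Nonnegative forms that are proper on the lattice. -/
def PDf {ι : Type} [Fintype ι] (Q : Matrix ι ι ℚ) : Prop :=
  (∀ v : ι → ℚ, 0 ≤ v ⬝ᵥ Q *ᵥ v) ∧ ∀ M : ℚ, {u : ι → ℤ | qf Q u ≤ M}.Finite

/-- Sets of vectors that are nearly minimal for one form. -/
def Nv (ι : Type) [Fintype ι] : Cx (ι → ℤ) := fun S =>
  ∃ Q : Matrix ι ι ℚ, PDf Q ∧ ∀ v ∈ S, v ≠ 0 ∧ ∀ u : ι → ℤ, u ≠ 0 → qf Q v < 2 * qf Q u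

/-- The complex of nearly minimal vectors is acyclic. -/
def S_Nv1 : Prop := ∀ (ι : Type) [Fintype ι] [DecidableEq ι] [Nonempty ι],
  Down (Nv ι) ∧ Nv ι ∅ ∧ (∀ (g : GL ι ℤ) S, Nv ι S → Nv ι (g • S)) ∧ ∀ n, ExactAt (Nv ι) n

/-- It has finitely many orbits of lists of each length. -/
def S_Nv2 : Prop := ∀ (ι : Type) [Fintype ι] [DecidableEq ι] (s : ℕ),
  ∃ Ls : Finset (List (ι → ℤ)), ∀ l, l.length = s → Nv ι (vs l) → ∃ g : GL ι ℤ, g • l ∈ Ls

/-- The general linear group over the integers is of type `FP` in all degrees. -/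
def S_FPGL : Prop := ∀ (ι : Type) [Fintype ι] [DecidableEq ι] (m : ℕ), FPg (GL ι ℤ) m

/-- Finite generation of the first homology group not known to be finite-dimensional. -/
def S_FIN : Prop := ∀ (Γ V : Type) [Group Γ] [MulAction Γ V] (J : Subgroup Γ) [J.Normal]
  (X : Cx V) (q : ℕ), Down X → X ∅ → (∀ (g : Γ) S, X S → X (g • S)) → (∀ n, ExactAt X n) →
  (∀ s, ∃ Ls : Finset (List V), ∀ l, l.length = s → X (vs l) → ∃ g : Γ, g • l ∈ Ls) →
  (∀ l : List V, l ≠ [] → X (vs l) → Finite (MulAction.stabilizer Γ l)) →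
  (∀ m, FPg (Γ ⧸ J) m) → (∀ i < q, FiniteDimensional ℚ (Hq J i)) →
  ∃ s : Finset (Hq J q), Submodule.span ℚ {x | ∃ g : Γ, ∃ y ∈ s, x = Hrep J q g y} = ⊤

end Pool.Agent.Lib.MP_49df17_al
end

-- part Pool.Agent.Lib.MP_49df17_al.Coh
section

/-!
Group cohomology with trivial rational coefficients is the dual of the homology computed from
lists of group elements, equivariantly for conjugation.
-/

namespace Pool.Agent.Lib.MP_49df17_al

open Finsupp CategoryTheory

namespace JCoh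

variable {G H : Type} [Group G] [Group H]

/-- The successive quotients of the entries of a list. -/
def df (n : ℕ) (l : List G) : Fin n → G := fun i => (l.getD i 1)⁻¹ * l.getD (i + 1) 1

/-- The invariant function on lists attached to an inhomogeneous cochain. -/
def hf (n : ℕ) (c : (Fin n → G) → ℚ) (l : List G) : ℚ :=
  if l.length = n + 1 then c (df n l) else 0

/-- The functional on chains attached to an inhomogeneous cochain. -/
noncomputable def ev (n : ℕ) : ((Fin n → G) → ℚ) →ₗ[ℚ] Module.Dual ℚ (List G →₀ ℚ) where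
  toFun c := Finsupp.linearCombination ℚ (hf n c)
  map_add' c c' := by
    ext l
    by_cases h : l.length = n + 1 <;> simp [hf, h]
  map_smul' r c := by
    ext l
    by_cases h : l.length = n + 1 <;> simp [hf, h]

theorem ev_single (n : ℕ) (c : (Fin n → G) → ℚ) (l : List G) (h : l.length = n + 1) :
    ev n c (single l 1) = c (df n l) := by
  simp [ev, hf, h]

theorem ev_single_ne (n : ℕ) (c : (Fin n → G) → ℚ) (l : List G) (h : l.length ≠ n + 1) :
    ev n c (single l 1) = 0 := by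
  simp [ev, hf, h]

theorem getD_map' (f : G → H) (l : List G) (i : ℕ) (h : i < l.length) :
    (l.map f).getD i 1 = f (l.getD i 1) := by
  simp [List.getD_eq_getElem?_getD, List.getElem?_eq_getElem h]

theorem df_smul (n : ℕ) (j : G) (l : List G) (h : l.length = n + 1) : df n (j • l) = df n l := by
  funext i
  have hi := i.2
  simp only [df, smul_list]
  rw [getD_map' _ _ _ (by omega), getD_map' _ _ _ (by omega)]
  simp only [smul_eq_mul]
  group

theorem df_map (n : ℕ) (f : G →* H) (l : List G) (h : l.length = n + 1) :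
    df n (l.map f) = f ∘ df n l := by
  funext i
  have hi := i.2
  simp only [df, Function.comp]
  rw [getD_map' _ _ _ (by omega), getD_map' _ _ _ (by omega)]
  simp

theorem ev_IS (n : ℕ) (c : (Fin n → G) → ℚ) {x : List G →₀ ℚ}
    (hx : x ∈ IS (⊤ : Subgroup G) (List G)) : ev n c x = 0 := by
  refine (Submodule.mem_bot ℚ).1 (IS_induction (ev n c) ⊥ (fun j _ l => ?_) hx)
  by_cases h : l.length = n + 1
  · rw [ev_single n c l h, ev_single n c _ (by simp [smul_list, h]), df_smul n j l h]; simp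
  · rw [ev_single_ne n c l h, ev_single_ne n c _ (by simpa [smul_list] using h)]; simp

theorem ev_mapL (n : ℕ) (f : G →* H) (c : (Fin n → H) → ℚ) (x : List G →₀ ℚ) :
    ev n c (mapL f x) = ev n (fun g => c (f ∘ g)) x := by
  induction x using Finsupp.induction_linear with
  | zero => simp
  | add a b ha hb => simp only [map_add, ha, hb]
  | single l r =>
    have e1 : (single l r : List G →₀ ℚ) = r • single l 1 := by simp
    rw [e1, map_smul, map_smul, map_smul, mapL_single]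
    congr 1
    by_cases h : l.length = n + 1
    · rw [ev_single n _ l h, ev_single n _ _ (by simp [h]), df_map n f l h]
    · rw [ev_single_ne n _ l h, ev_single_ne n _ _ (by simpa using h)]

theorem getD_eraseIdx (l : List G) (i k : ℕ) :
    (l.eraseIdx i).getD k 1 = if k < i then l.getD k 1 else l.getD (k + 1) 1 := by
  simp only [List.getD_eq_getElem?_getD, List.getElem?_eraseIdx]
  split_ifs <;> rfl

theorem df_erase_zero (n : ℕ) (l : List G) :
    df n (l.eraseIdx 0) = fun i : Fin n => df (n + 1) l i.succ := by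
  funext i
  simp only [df, getD_eraseIdx, Nat.not_lt_zero, if_false, Fin.val_succ]

theorem df_erase_succ (n : ℕ) (l : List G) (j : Fin (n + 1)) :
    df n (l.eraseIdx (j + 1)) = Fin.contractNth j (· * ·) (df (n + 1) l) := by
  funext k
  simp only [df, getD_eraseIdx, Fin.contractNth, Fin.val_succ, Fin.val_castSucc]
  rcases lt_trichotomy (k : ℕ) j with h | h | h
  · rw [if_pos (by omega), if_pos (by omega), if_pos h]
  · rw [if_pos (by omega), if_neg (by omega), if_neg (by omega), if_pos h]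
    group
  · rw [if_neg (by omega), if_neg (by omega), if_neg (by omega), if_neg (by omega)]

/-- The differential on cochains with trivial coefficients. -/
noncomputable abbrev dd (G : Type) [Group G] (n : ℕ) :
    ((Fin n → G) → ℚ) →ₗ[ℚ] ((Fin (n + 1) → G) → ℚ) :=
  (inhomogeneousCochains.d (Rep.trivial ℚ G ℚ) n).hom

theorem dd_apply (n : ℕ) (c : (Fin n → G) → ℚ) (g : Fin (n + 1) → G) :
    dd G n c g = c (fun i => g i.succ) +
      ∑ j : Fin (n + 1), (-1 : ℚ) ^ ((j : ℕ) + 1) • c (Fin.contractNth j (· * ·) g) := rfl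

theorem ev_dd (n : ℕ) (c : (Fin n → G) → ℚ) {x : List G →₀ ℚ} (hx : x ∈ Cn G (n + 2)) :
    ev (n + 1) (dd G n c) x = ev n c (dE x) := by
  rw [dE_eq_bd hx]
  have := Ch_induction (X := fun _ : Set G => True) (n := n + 2)
    (ev (n + 1) (dd G n c) - (ev n c).comp bd) ⊥ (fun l h1 _ => by
      rw [Submodule.mem_bot, LinearMap.sub_apply, sub_eq_zero, LinearMap.comp_apply,
        ev_single _ _ l h1, dd_apply, bd_single, map_sum, h1, Finset.sum_range_succ', add_comm,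
        Finset.sum_range]
      congr 1
      · refine Finset.sum_congr rfl fun j _ => ?_
        have hj := j.2
        rw [map_smul, ev_single n c _ (by rw [List.length_eraseIdx_of_lt (by omega)]; omega),
          df_erase_succ]
      · rw [map_smul, ev_single n c _ (by rw [List.length_eraseIdx_of_lt (by omega)]; omega),
          df_erase_zero]
        simp) hx
  simpa [sub_eq_zero] using this

/-- The list of initial products. -/
def pp {n : ℕ} (g : Fin n → G) : List G := List.ofFn (Fin.partialProd g)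

theorem length_pp {n : ℕ} (g : Fin n → G) : (pp g).length = n + 1 := by simp [pp]

theorem getD_pp {n : ℕ} (g : Fin n → G) (i : Fin (n + 1)) :
    (pp g).getD i 1 = Fin.partialProd g i := by
  have hi := i.2
  rw [List.getD_eq_getElem?_getD, List.getElem?_eq_getElem (by rw [length_pp]; exact hi)]
  simp only [pp, List.getElem_ofFn, Option.getD_some]

theorem df_pp {n : ℕ} (g : Fin n → G) : df n (pp g) = g := by
  funext i
  have h1 := getD_pp g i.castSucc
  have h2 := getD_pp g i.succ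
  simp only [Fin.val_castSucc, Fin.val_succ] at h1 h2
  simp only [df]
  rw [h1, h2, Fin.partialProd_right_inv]

theorem exists_smul_of_df {n : ℕ} {l l' : List G} (h : l.length = n + 1) (h' : l'.length = n + 1)
    (e : df n l = df n l') : ∃ j : G, l = j • l' := by
  refine ⟨l.getD 0 1 * (l'.getD 0 1)⁻¹, ?_⟩
  have key : ∀ i ≤ n, l.getD i 1 = l.getD 0 1 * (l'.getD 0 1)⁻¹ * l'.getD i 1 := by
    intro i
    induction i with
    | zero => intro _; group
    | succ i ih =>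
      intro hi
      have e1 := congrFun e ⟨i, by omega⟩
      simp only [df] at e1
      have e2 : l.getD (i + 1) 1 = l.getD i 1 * ((l'.getD i 1)⁻¹ * l'.getD (i + 1) 1) := by
        rw [← e1]; group
      rw [e2, ih (by omega)]
      group
  refine List.ext_getElem (by simp [smul_list, h, h']) fun i h1 h2 => ?_
  have k := key i (by omega)
  have h3 : i < l'.length := by omega
  rw [List.getD_eq_getElem?_getD (i := i), List.getD_eq_getElem?_getD (i := i),
    List.getElem?_eq_getElem h1, List.getElem?_eq_getElem h3] at k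
  simp only [Option.getD_some] at k
  simp only [smul_list, List.getElem_map, smul_eq_mul]
  exact k

theorem ev_inj (n : ℕ) (c : (Fin n → G) → ℚ) (h : ∀ x ∈ Cn G (n + 1), ev n c x = 0) : c = 0 := by
  funext g
  have := h (single (pp g) 1) (single_mem_Ch (length_pp g) trivial _)
  rwa [ev_single n c _ (length_pp g), df_pp] at this

theorem ev_surj (n : ℕ) (μ : Module.Dual ℚ (List G →₀ ℚ))
    (h : ∀ x ∈ IS (⊤ : Subgroup G) (List G), μ x = 0) :
    ∃ c : (Fin n → G) → ℚ, ∀ x ∈ Cn G (n + 1), ev n c x = μ x := by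
  refine ⟨fun g => μ (single (pp g) 1), fun x hx => ?_⟩
  have := Ch_induction (X := fun _ : Set G => True) (n := n + 1)
    (ev n (fun g => μ (single (pp g) 1)) - μ) ⊥ (fun l h1 _ => by
      rw [Submodule.mem_bot, LinearMap.sub_apply, sub_eq_zero, ev_single _ _ l h1]
      obtain ⟨j, e⟩ := exists_smul_of_df h1 (length_pp (df n l)) (df_pp _).symm
      have h2 := h (single (j • pp (df n l)) 1 - single (pp (df n l)) 1)
        (Submodule.subset_span ⟨j, trivial, _, rfl⟩)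
      rw [← e, map_sub, sub_eq_zero] at h2
      exact h2.symm) hx
  simpa [sub_eq_zero] using this

omit [Group G] in
theorem dE_mem (n : ℕ) {x : List G →₀ ℚ} (hx : x ∈ Cn G (n + 2)) : dE x ∈ Cn G (n + 1) := by
  rw [dE_eq_bd hx]
  exact bd_mem_Ch (fun _ _ _ _ => trivial) hx

theorem exists_factor {A B : Type} [AddCommGroup A] [Module ℚ A] [AddCommGroup B] [Module ℚ B]
    (f : A →ₗ[ℚ] B) (g : Module.Dual ℚ A) (h : ∀ a, f a = 0 → g a = 0) :
    ∃ μ : Module.Dual ℚ B, ∀ a, μ (f a) = g a := by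
  have : g ∈ LinearMap.range f.dualMap := by
    rw [LinearMap.range_dualMap_eq_dualAnnihilator_ker, Submodule.mem_dualAnnihilator]
    exact h
  obtain ⟨μ, e⟩ := this
  exact ⟨μ, fun a => by rw [← e]; rfl⟩

theorem ev_Bs (n : ℕ) (c : (Fin n → G) → ℚ) (hc : dd G n c = 0) {x : List G →₀ ℚ}
    (hx : x ∈ Bs (⊤ : Subgroup G) n) : ev n c x = 0 := by
  obtain ⟨_, ⟨b, hb, rfl⟩, y, hy, rfl⟩ := Submodule.mem_sup.1 hx
  rw [map_add, ev_IS n c hy, ← ev_dd n c hb, hc]
  simp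

/-- The functional on homology attached to a cocycle. -/
noncomputable def phi (G : Type) [Group G] (n : ℕ) :
    LinearMap.ker (dd G n) →ₗ[ℚ] Module.Dual ℚ (Hq (⊤ : Subgroup G) n) where
  toFun c := Submodule.liftQ _ ((ev n c.1).comp (Zs ⊤ n).subtype) fun _ hx => ev_Bs n c.1 c.2 hx
  map_add' c c' := by
    ext x
    change ev n (c.1 + c'.1) x.1 = ev n c.1 x.1 + ev n c'.1 x.1
    rw [map_add, LinearMap.add_apply]
  map_smul' r c := by
    ext x
    change ev n (r • c.1) x.1 = r • ev n c.1 x.1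
    rw [map_smul, LinearMap.smul_apply]

theorem phi_mk (n : ℕ) (c : LinearMap.ker (dd G n)) (z : Zs (⊤ : Subgroup G) n) :
    phi G n c (Submodule.Quotient.mk z) = ev n c.1 z.1 := rfl

theorem phi_surj (n : ℕ) : Function.Surjective (phi G n) := by
  intro μ
  obtain ⟨ν, hν⟩ := exists_factor ((Bs (⊤ : Subgroup G) n).mkQ.comp (Zs ⊤ n).subtype)
    (μ.comp (Submodule.mkQ _)) (fun a ha => by
      have : a.1 ∈ Bs (⊤ : Subgroup G) n := by simpa using ha
      have h2 : (Submodule.Quotient.mk a : Hq (⊤ : Subgroup G) n) = 0 :=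
        (Submodule.Quotient.mk_eq_zero _).2 this
      change μ (Submodule.Quotient.mk a) = 0
      rw [h2, map_zero])
  have h0 : ∀ x ∈ Bs (⊤ : Subgroup G) n, ν ((Bs (⊤ : Subgroup G) n).mkQ x) = 0 := by
    intro x hx
    rw [Submodule.mkQ_apply, (Submodule.Quotient.mk_eq_zero _).2 hx, map_zero]
  obtain ⟨c, hc⟩ := ev_surj n (ν.comp (Bs (⊤ : Subgroup G) n).mkQ)
    fun x hx => h0 x (Submodule.mem_sup_right hx)
  have hd : dd G n c = 0 := ev_inj (n + 1) _ fun x hx => by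
    rw [ev_dd n c hx, hc _ (dE_mem n hx)]
    exact h0 _ (Submodule.mem_sup_left ⟨x, hx, rfl⟩)
  refine ⟨⟨c, hd⟩, LinearMap.ext fun y => ?_⟩
  induction y using Submodule.Quotient.induction_on with
  | H z =>
    rw [phi_mk, hc _ z.2.1]
    exact hν z

theorem phi_zero_eq_zero (c : LinearMap.ker (dd G 0)) (h : phi G 0 c = 0) : c.1 = 0 := by
  refine ev_inj 0 _ fun x hx => ?_
  have hz : x ∈ Zs (⊤ : Subgroup G) 0 := ⟨hx, by
    change dE x ∈ IS (⊤ : Subgroup G) (List G)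
    rw [dE_eq_zero hx]; exact Submodule.zero_mem _⟩
  have := phi_mk 0 c ⟨x, hz⟩
  rw [h] at this
  exact this.symm

theorem phi_succ_eq_zero (n : ℕ) (c : LinearMap.ker (dd G (n + 1))) :
    phi G (n + 1) c = 0 ↔ ∃ c', dd G n c' = c.1 := by
  constructor
  · intro h
    obtain ⟨ν, hν⟩ := exists_factor
      ((IS (⊤ : Subgroup G) (List G)).mkQ.comp (dE.comp (Cn G (n + 2)).subtype))
      ((ev (n + 1) c.1).comp (Cn G (n + 2)).subtype) (fun a ha => by
        have h1 : dE a.1 ∈ IS (⊤ : Subgroup G) (List G) := by simpa using ha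
        have := phi_mk (n + 1) c ⟨a.1, a.2, h1⟩
        rw [h] at this
        exact this.symm)
    obtain ⟨c', hc'⟩ := ev_surj n (ν.comp (IS (⊤ : Subgroup G) (List G)).mkQ) fun x hx => by
      rw [LinearMap.comp_apply, Submodule.mkQ_apply, (Submodule.Quotient.mk_eq_zero _).2 hx,
        map_zero]
    refine ⟨c', sub_eq_zero.1 (ev_inj (n + 1) _ fun x hx => ?_)⟩
    rw [map_sub, LinearMap.sub_apply, ev_dd n c' hx, hc' _ (dE_mem n hx), sub_eq_zero]
    exact hν ⟨x, hx⟩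
  · rintro ⟨c', e⟩
    refine LinearMap.ext fun y => ?_
    induction y using Submodule.Quotient.induction_on with
    | H z =>
      rw [phi_mk, ← e, ev_dd n c' z.2.1]
      exact ev_IS n c' z.2.2

/-- The trivial representation. -/
noncomputable abbrev tr (G : Type) [Group G] : Rep ℚ G := Rep.trivial ℚ G ℚ

/-- The cochain underlying a cocycle. -/
noncomputable def ic (G : Type) [Group G] (n : ℕ) :
    groupCohomology.cocycles (tr G) n →ₗ[ℚ] ((Fin n → G) → ℚ) :=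
  (groupCohomology.iCocycles (tr G) n).hom

theorem ic_inj (n : ℕ) : Function.Injective (ic G n) :=
  (ModuleCat.mono_iff_injective (groupCohomology.iCocycles (tr G) n)).1 inferInstance

theorem dd_ic (n : ℕ) (x : groupCohomology.cocycles (tr G) n) : dd G n (ic G n x) = 0 := by
  have h := (groupCohomology.inhomogeneousCochains (tr G)).iCycles_d n (n + 1)
  rw [groupCohomology.inhomogeneousCochains.d_def] at h
  have h2 := congrArg (fun f => ModuleCat.Hom.hom f x) h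
  exact h2

theorem ic_surj (n : ℕ) (c : (Fin n → G) → ℚ) (h : dd G n c = 0) : ∃ x, ic G n x = c :=
  ⟨groupCohomology.cocyclesMk (A := tr G) c h, groupCohomology.iCocycles_mk (A := tr G) c h⟩

theorem pi_eq_zero_iff (i n : ℕ) (hi : (ComplexShape.up ℕ).prev n = i)
    (x : groupCohomology.cocycles (tr G) n) :
    (groupCohomology.π (tr G) n).hom x = 0 ↔
      ∃ y, ((groupCohomology.inhomogeneousCochains (tr G)).d i n).hom y = ic G n x := by
  set K := groupCohomology.inhomogeneousCochains (tr G) with hK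
  have hex := (ShortComplex.moduleCat_exact_iff _).1 (ShortComplex.exact_of_g_is_cokernel
    (ShortComplex.mk (K.toCycles i n) (K.homologyπ n) (K.toCycles_comp_homologyπ i n))
    (K.homologyIsCokernel i n hi))
  have hi' : ∀ y, ic G n ((K.toCycles i n).hom y) = (K.d i n).hom y := fun y =>
    congrArg (fun f => ModuleCat.Hom.hom f y) (K.toCycles_i i n)
  constructor
  · intro h
    obtain ⟨y, e⟩ := hex x h
    exact ⟨y, by rw [← hi' y]; exact congrArg _ e⟩
  · rintro ⟨y, e⟩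
    have : x = (K.toCycles i n).hom y := ic_inj n (by rw [hi', e])
    rw [this]
    exact congrArg (fun f => ModuleCat.Hom.hom f y) (K.toCycles_comp_homologyπ i n)

/-- The functional on homology attached to a cocycle. -/
noncomputable def psi (G : Type) [Group G] (n : ℕ) :
    groupCohomology.cocycles (tr G) n →ₗ[ℚ] Module.Dual ℚ (Hq (⊤ : Subgroup G) n) :=
  (phi G n).comp ((ic G n).codRestrict _ fun x => dd_ic n x)

theorem psi_mk (n : ℕ) (x : groupCohomology.cocycles (tr G) n) (z : Zs (⊤ : Subgroup G) n) :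
    psi G n x (Submodule.Quotient.mk z) = ev n (ic G n x) z.1 := rfl

theorem psi_surj (n : ℕ) : Function.Surjective (psi G n) := by
  intro μ
  obtain ⟨c, rfl⟩ := phi_surj n μ
  obtain ⟨x, e⟩ := ic_surj n c.1 c.2
  exact ⟨x, congrArg (phi G n) (Subtype.ext e)⟩

theorem psi_eq_zero_iff (n : ℕ) (x : groupCohomology.cocycles (tr G) n) :
    (groupCohomology.π (tr G) n).hom x = 0 ↔ psi G n x = 0 := by
  cases n with
  | zero =>
    rw [pi_eq_zero_iff 0 0 (by simp) x,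
      (groupCohomology.inhomogeneousCochains (tr G)).shape 0 0 (by simp)]
    constructor
    · rintro ⟨y, e⟩
      have : x = 0 := ic_inj 0 (by rw [← e, map_zero]; rfl)
      rw [this, map_zero]
    · intro h
      exact ⟨0, by rw [map_zero]; exact (phi_zero_eq_zero _ h).symm⟩
  | succ n =>
    rw [pi_eq_zero_iff n (n + 1) (by simp) x, groupCohomology.inhomogeneousCochains.d_def]
    exact (phi_succ_eq_zero n ⟨ic G (n + 1) x, dd_ic _ x⟩).symm

theorem exists_equiv {X Y Z : Type} [AddCommGroup X] [Module ℚ X] [AddCommGroup Y] [Module ℚ Y]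
    [AddCommGroup Z] [Module ℚ Z] (p : X →ₗ[ℚ] Y) (f : X →ₗ[ℚ] Z) (hp : Function.Surjective p)
    (hf : Function.Surjective f) (h : ∀ x, p x = 0 ↔ f x = 0) :
    ∃ e : Y ≃ₗ[ℚ] Z, ∀ x, e (p x) = f x := by
  have hk : LinearMap.ker p = LinearMap.ker f := by ext x; exact h x
  refine ⟨(p.quotKerEquivOfSurjective hp).symm.trans
    ((Submodule.quotEquivOfEq _ _ hk).trans (f.quotKerEquivOfSurjective hf)), fun x => ?_⟩
  have : (p.quotKerEquivOfSurjective hp).symm (p x) = Submodule.Quotient.mk x := by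
    rw [LinearEquiv.symm_apply_eq]; rfl
  rw [LinearEquiv.trans_apply, this]
  rfl

theorem pi_surj (n : ℕ) : Function.Surjective (groupCohomology.π (tr G) n).hom := fun c =>
  groupCohomology_induction_on (C := fun c => ∃ x, (groupCohomology.π (tr G) n).hom x = c) c
    fun x => ⟨x, rfl⟩

theorem exists_dual (G : Type) [Group G] (n : ℕ) :
    ∃ e : groupCohomology (tr G) n ≃ₗ[ℚ] Module.Dual ℚ (Hq (⊤ : Subgroup G) n),
      ∀ (f : G →* G) (c : groupCohomology (tr G) n),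
        e ((groupCohomology.map (A := tr G) (B := tr G) f
          (Rep.ofHom ⟨LinearMap.id, fun _ => rfl⟩) n).hom c) =
        (e c).comp (Hmap f (fun _ _ => Subgroup.mem_top _) n) := by
  obtain ⟨e, he⟩ := exists_equiv (groupCohomology.π (tr G) n).hom (psi G n)
    (pi_surj n) (psi_surj n) (psi_eq_zero_iff n)
  refine ⟨e, fun f c => ?_⟩
  obtain ⟨x, rfl⟩ := pi_surj n c
  have h1 := congrArg (fun g => ModuleCat.Hom.hom g x) (groupCohomology.π_map (A := tr G)
    (B := tr G) f (Rep.ofHom ⟨LinearMap.id, fun _ => rfl⟩) n)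
  have h2 := congrArg (fun g => ModuleCat.Hom.hom g x) (HomologicalComplex.cyclesMap_i
    (groupCohomology.cochainsMap (A := tr G) (B := tr G) f
      (Rep.ofHom ⟨LinearMap.id, fun _ => rfl⟩)) n)
  have h3 : ic G n ((groupCohomology.cocyclesMap (A := tr G) (B := tr G) f
      (Rep.ofHom ⟨LinearMap.id, fun _ => rfl⟩) n).hom x) = fun g => ic G n x (f ∘ g) := h2
  have h4 : (groupCohomology.map (A := tr G) (B := tr G) f
      (Rep.ofHom ⟨LinearMap.id, fun _ => rfl⟩) n).hom ((groupCohomology.π (tr G) n).hom x) =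
      (groupCohomology.π (tr G) n).hom ((groupCohomology.cocyclesMap (A := tr G) (B := tr G) f
        (Rep.ofHom ⟨LinearMap.id, fun _ => rfl⟩) n).hom x) := h1
  change e ((groupCohomology.map (A := tr G) (B := tr G) f
      (Rep.ofHom ⟨LinearMap.id, fun _ => rfl⟩) n).hom ((groupCohomology.π (tr G) n).hom x)) =
    (e ((groupCohomology.π (tr G) n).hom x)).comp _
  rw [h4, he, he]
  refine LinearMap.ext fun y => ?_
  induction y using Submodule.Quotient.induction_on with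
  | H z =>
    rw [psi_mk, h3, ← ev_mapL]
    rfl

end JCoh

theorem p_coh (h1 : S_Heq) (h2 : S_Hbij) : S_coh := by
  intro ι _ _ q
  obtain ⟨e, he⟩ := JCoh.exists_dual (IA ι) q
  have hb := h2 (IA ι) (Au ι) ⊤ (IA ι) (IA ι).subtype (fun j _ => j.2) (IA ι).subtype_injective
    (by rw [← MonoidHom.range_eq_map, Subgroup.range_subtype]) q
  let B : Hq (⊤ : Subgroup (IA ι)) q ≃ₗ[ℚ] Hq (IA ι) q := LinearEquiv.ofBijective _ hb
  have hB : ∀ (φ : Au ι) (y : Hq (⊤ : Subgroup (IA ι)) q),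
      Hrep (IA ι) q φ⁻¹ (B y) = B (Hmap (conjIA φ) (fun _ _ => Subgroup.mem_top _) q y) := by
    intro φ y
    have hc : ∀ x : IA ι, ((conjIA φ x : IA ι) : Au ι) = φ⁻¹ * x * φ := by
      intro x; simp [conjIA, conjN]
    have a1 : ∀ j ∈ (⊤ : Subgroup (IA ι)), ∃ j' ∈ IA ι,
        (∀ x : IA ι, ((φ⁻¹ * ·) ∘ (IA ι).subtype) (j * x) = j' * ((φ⁻¹ * ·) ∘ (IA ι).subtype) x) ∧
        ∀ x : IA ι, ((IA ι).subtype ∘ conjIA φ) (j * x) = j' * ((IA ι).subtype ∘ conjIA φ) x := by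
      intro j _
      refine ⟨conjIA φ j, (conjIA φ j).2, fun x => ?_, fun x => ?_⟩
      · simp only [Function.comp, Subgroup.coe_subtype, hc, Subgroup.coe_mul]; group
      · simp only [Function.comp, Subgroup.coe_subtype, hc, Subgroup.coe_mul]; group
    have a2 := h1 (IA ι) (Au ι) ⊤ (IA ι) ((φ⁻¹ * ·) ∘ (IA ι).subtype) ((IA ι).subtype ∘ conjIA φ)
      (fun j hj => let ⟨j', k1, k2⟩ := a1 j hj; ⟨j', k1, k2.1⟩)
      (fun j hj => let ⟨j', k1, k2⟩ := a1 j hj; ⟨j', k1, k2.2⟩) a1 q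
    have a3 := congrArg (fun F => F y) a2
    induction y using Submodule.Quotient.induction_on with
    | H z =>
      have b1 := mapL_mapL (IA ι).subtype (φ⁻¹ * ·) z.1
      have b2 := mapL_mapL (conjIA φ) (IA ι).subtype z.1
      exact ((congrArg Submodule.Quotient.mk (Subtype.ext b1)).trans a3).trans
        (congrArg Submodule.Quotient.mk (Subtype.ext b2.symm))
  refine ⟨e.trans B.symm.dualMap, fun φ c => ?_⟩
  refine LinearMap.ext fun x => ?_
  obtain ⟨y, rfl⟩ := B.surjective x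
  have := he (conjIA φ) c
  change e (actH q φ c) (B.symm (B y)) = e c (B.symm (Hrep (IA ι) q φ⁻¹ (B y)))
  rw [hB, B.symm_apply_apply, B.symm_apply_apply]
  exact congrArg (fun F => F y) this

end Pool.Agent.Lib.MP_49df17_al
end

-- part Pool.Agent.Lib.MP_49df17_al.Core
section

/-!
The main induction.
-/

namespace Pool.Agent.Lib.MP_49df17_al

theorem alg_all (hGen : S_Gen) (hUnip : S_Unip) (hfin : S_fin) (hloc : S_locfin) (h0 : S_Gen0)
    (A : ℕ → VIC) (e : ∀ i X, (A i).obj X ≃ₗ[ℚ] Hq (IA X.ι) i) (hW : ∀ i, IsW i (A i) (e i))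
    (k : ℕ) : Alg (A k) := by
  induction k using Nat.strong_induction_on with
  | _ k ih =>
    obtain ⟨n0, hn0⟩ := hGen k A e hW ih
    obtain ⟨N1, hN1⟩ := hUnip k (A k) (e k) (hW k) n0 hn0
    have hlow : ∃ N2, ∀ i < k, ∀ X : Ob, N2 ≤ X.card → FiniteDimensional ℚ ((A i).obj X) := by
      choose! n hn using ih
      refine ⟨(Finset.range k).sup n, fun i hi X hX => ((hn i hi).2 X ?_).1⟩
      exact (Finset.le_sup (f := n) (Finset.mem_range.2 hi)).trans hX
    obtain ⟨N2, hN2⟩ := hlow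
    refine ⟨n0 + N1 + N2 + 3, (h0 _ _ hn0).1 _ (by omega), fun X hX => ⟨?_, hN1 X (by omega)⟩⟩
    obtain ⟨s, hs⟩ := hfin X.ι k fun i hi => by
      have := hN2 i hi X (by omega)
      exact LinearEquiv.finiteDimensional (e i X)
    have hX3 : 3 ≤ Fintype.card X.ι := by unfold Ob.card at hX; omega
    let U : Hq (IA X.ι) k → Submodule ℚ ((A k).obj X) := fun y =>
      Submodule.span ℚ (Set.range fun g => (A k).rep X g ((e k X).symm y))
    have : ∀ y, FiniteDimensional ℚ (U y) := fun y =>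
      hloc X.ι _ ((A k).rep X) (hN1 X (by omega)) hX3 _
    have htop : (⨆ y ∈ s, U y) = ⊤ := by
      rw [eq_top_iff]
      intro v _
      have hv : e k X v ∈ (⨆ y ∈ s, U y).map (e k X : (A k).obj X →ₗ[ℚ] Hq (IA X.ι) k) := by
        have h1 : e k X v ∈ Submodule.span ℚ
            {x | ∃ γ : Au X.ι, ∃ y ∈ s, x = Hrep (IA X.ι) k γ y} := by rw [hs]; trivial
        refine Submodule.span_le.2 ?_ h1
        rintro _ ⟨γ, y, hy, rfl⟩
        refine ⟨(A k).rep X (abGL X.ι γ) ((e k X).symm y), ?_, ?_⟩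
        · exact Submodule.mem_iSup_of_mem y (Submodule.mem_iSup_of_mem hy
            (Submodule.subset_span ⟨_, rfl⟩))
        · have := (hW k).2 X γ ((e k X).symm y)
          simpa using this
      obtain ⟨w, hw, ew⟩ := hv
      obtain rfl : w = v := (e k X).injective ew
      exact hw
    have : FiniteDimensional ℚ (⨆ y ∈ s, U y : Submodule ℚ ((A k).obj X)) := by
      rw [← Finset.sup_eq_iSup]; infer_instance
    rw [htop] at this
    exact Module.finite_def.2 ((Submodule.fg_top _).1 (Module.finite_def.1 this))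

theorem main_of (hW : S_W) (hGen : S_Gen) (hUnip : S_Unip) (hfin : S_fin) (hloc : S_locfin)
    (h0 : S_Gen0) (hSF : S_SFdual) (hcoh : S_coh) (i : ℕ) : SF i := by
  choose A e hA using hW
  obtain ⟨r, k, l, hl, h⟩ := hSF (A i) (alg_all hGen hUnip hfin hloc h0 A e hA i)
  refine ⟨r, k, l, hl, fun n hn => ?_⟩
  obtain ⟨V, ρ, hρ, e', he'⟩ := h n hn
  obtain ⟨c, hc⟩ := hcoh (Fin n) i
  refine ⟨V, ρ, hρ, c.trans ((e i (Ob.std n)).dualMap.trans e'), fun φ x j => ?_⟩
  rw [LinearEquiv.trans_apply, LinearEquiv.trans_apply, LinearEquiv.trans_apply,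
    LinearEquiv.trans_apply, hc, ← he']
  refine congrArg (fun t => e' t j) (LinearMap.ext fun v => ?_)
  have := (hA i).2 (Ob.std n) φ⁻¹ v
  rw [map_inv] at this
  simp only [LinearEquiv.dualMap_apply, LinearMap.comp_apply]
  exact congrArg _ this.symm

end Pool.Agent.Lib.MP_49df17_al
end
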