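import Pool.Agent.Lib.MP_49df17_al.Deg
import Pool.Agent.Lib.MP_49df17_al.Core

-- part Pool.Agent.Lib.MP_49df17_al.FTreeC
section

/-!
Consequences of adaptedness, Nielsen moves and validity of surgery.
-/

set_option linter.unusedSectionVars false

namespace Pool.Agent.Lib.MP_49df17_al

open Matrix
open scoped Pointwise

variable {ι : Type} [Fintype ι] [DecidableEq ι] {β : Au ι} {c : Cfg ι}

namespace JTreeC

/-- An edge with both ends different from `g` does not cross a half tree at `g`. -/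
theorem edge_aux {P : Set (Fr ι)} {g : Fr ι} {k k' : ι × Bool} (hg : g ∉ P) {a : Fr ι}
    (h1 : a ∈ P) (h2 : a * sl β k' ∈ P) : a ∈ g • hl β k ↔ a * sl β k' ∈ g • hl β k := by
  by_contra h
  have h3 : a ∈ sep (g • hl β k) (sl β k') := h
  rw [sep_smul, mem_smul_fr, hl, mem_sep_ideal] at h3
  rcases h3 with ⟨e, -⟩ | ⟨e, -⟩
  · exact hg (inv_mul_eq_one.1 e ▸ h1)
  · have e' : a * sl β k' = g := by rw [inv_mul_eq_iff_eq_mul.1 e]; group
    exact hg (e' ▸ h2)

theorem not_nest {P Q E : Set (Fr ι)} (hx : ¬ Nest P Q) (hE : E = Q ∨ E = Qᶜ) : ¬ Nest P E := by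
  rcases hE with rfl | rfl
  · exact hx
  · exact fun e => hx (by simpa using e.compl_right)

theorem mem_orb_of {Q E : Set (Fr ι)} {g : Fr ι} (hE : E = g • Q ∨ E = (g • Q)ᶜ) : E ∈ orb Q :=
  ⟨g, by rwa [smul_compl_fr]⟩

theorem nest_of_compat {Q E : Set (Fr ι)} {k : ι × Bool} (h : Compat β Q)
    (hE : E ∈ orb (hl β k)) : Nest Q E := by
  obtain ⟨g, rfl | rfl⟩ := hE
  · exact h g k
  · rw [smul_compl_fr]; exact (h g k).compl_right

end JTreeC

theorem Adapted.mono {c' : Cfg ι} (h : Adapted β c) (hA : c'.A ⊆ c.A) (hρ : c'.ρ = c.ρ)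
    (hT : c'.T ⊆ c.T) : Adapted β c' :=
  ⟨hA.trans h.letters, hρ ▸ h.ideals, fun t ht => h.tethers t (hT ht), hρ ▸ h.max⟩

theorem Adapted.compat (h : Adapted β c) (hs : Sys c.ρ) {X : Set (Fr ι)} (hX : X ∈ sides c.ρ) :
    Compat β X := by
  obtain ⟨o, ho, hXo⟩ := mem_sides.1 hX
  obtain ⟨D, hD⟩ := h.ideals o ho
  exact compat_of_mem_orb_ideal β (hs.eq_orb ho hD ▸ hXo)

theorem Adapted.nest_orb_hl (h : Adapted β c) (hs : Sys c.ρ) {X : Set (Fr ι)} (hX : X ∈ sides c.ρ)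
    (g : Fr ι) (k : ι × Bool) : Nest X (g • hl β k) := h.compat hs hX g k

theorem Adapted.free_opp (h : Adapted β c) (hs : Sys c.ρ) (s : ι) (b b' : Bool) :
    Free β c.ρ (s, b) ↔ Free β c.ρ (s, b') := by
  have key : ∀ b b' : Bool, Free β c.ρ (s, b) → Free β c.ρ (s, b') := by
    intro b b' hb D hD hb'
    have h0 : (s, b) ∉ D := hb D hD
    have h1 : hl β (s, true) ∈ sides c.ρ := h.max D hD s (by cases b <;> cases b' <;> tauto)
    have h2 : hl β (s, b) ∈ sides c.ρ :=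
      mem_sides.2 ⟨_, hs.orb_mem h1, hl_mem_orb β s b true⟩
    exact hb {(s, b)} h2 rfl
  exact ⟨key b b', key b' b⟩

theorem Adapted.sl_mem_D (h : Adapted β c) (hs : Sys c.ρ) (k : ι × Bool) :
    sl β k ∈ c.D ↔ Free β c.ρ k := by
  constructor
  · intro hk D hD hkD
    have h1 := (mem_Dg.1 hk) _ hD 1
    rw [one_mul] at h1
    exact one_notMem_ideal β D (h1.2 ((sl_mem_ideal β).2 hkD))
  · intro hk P hP
    obtain ⟨o, ho, hPo⟩ := mem_sides.1 hP
    obtain ⟨D, hD⟩ := h.ideals o ho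
    have hDs : ideal β D ∈ sides c.ρ := mem_sides.2 ⟨o, ho, hD⟩
    have hk' : Free β c.ρ (k.1, !k.2) := (h.free_opp hs k.1 k.2 (!k.2)).1 hk
    have h1 : sl β k ∈ Dg (orb (ideal β D)) := by
      rw [mem_Dg_orb, Set.eq_empty_iff_forall_notMem]
      intro a ha
      rcases (mem_sep_ideal β).1 ha with ⟨_, h2⟩ | ⟨_, h2⟩
      · exact hk D hDs h2
      · exact hk' D hDs h2
    exact h1 P (hs.eq_orb ho hD ▸ hPo)

theorem Adapted.letter_mem_D (h : Adapted β c) (hs : Sys c.ρ) (s : ι) :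
    letter β s ∈ c.D ↔ Free β c.ρ (s, true) := by
  rw [← sl_true]; exact h.sl_mem_D hs _

theorem Adapted.D_eq (h : Adapted β c) (hs : Sys c.ρ) :
    c.D = Subgroup.closure (letter β '' {s | Free β c.ρ (s, true)}) := by
  apply le_antisymm
  · intro g
    refine hl_induction β (C := fun g => g ∈ c.D →
      g ∈ Subgroup.closure (letter β '' {s | Free β c.ρ (s, true)})) (fun _ => one_mem _) ?_ g
    intro k g hg ih hm
    have h1 : sl β k * g ∈ hl β k := (sl_mul_mem_hl β).2 hg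
    have hk : Free β c.ρ k := by
      intro D hD hkD
      have h2 := (mem_Dg.1 hm) _ hD 1
      rw [one_mul] at h2
      exact one_notMem_ideal β D (h2.2 ((mem_ideal_of_hl β h1).2 hkD))
    have h2 : sl β k ∈ c.D := (h.sl_mem_D hs k).2 hk
    have h3 : g ∈ c.D := (mul_mem_cancel_left h2).1 hm
    have h4 : letter β k.1 ∈ Subgroup.closure (letter β '' {s | Free β c.ρ (s, true)}) :=
      Subgroup.subset_closure ⟨k.1, (h.free_opp hs k.1 k.2 true).1 hk, rfl⟩
    refine mul_mem ?_ (ih h3)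
    obtain ⟨s, b⟩ := k
    cases b
    · rw [sl_false]; exact inv_mem h4
    · rw [sl_true]; exact h4
  · rw [Subgroup.closure_le]
    rintro _ ⟨s, hs', rfl⟩
    exact (h.letter_mem_D hs s).2 hs'

theorem Adapted.rkD_eq (h : Adapted β c) (hs : Sys c.ρ) :
    rkD c.D = {s | Free β c.ρ (s, true)}.ncard := by
  rw [h.D_eq hs, rkD_closure]

theorem Adapted.finrank_Ann (h : Adapted β c) (hs : Sys c.ρ) (p : ℕ) [Fact p.Prime] :
    Module.finrank (ZMod p) (Ann p c.D) + rkD c.D = Fintype.card ι := by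
  rw [h.rkD_eq hs, h.D_eq hs]; exact finrank_Ann_closure β p _

theorem Adapted.ncard_le_rkD (h : Adapted β c) (hv : Valid c) : c.A.ncard ≤ rkD c.D := by
  rw [h.rkD_eq hv.sys, ← Set.ncard_image_of_injective _ (letter_injective β)]
  refine Set.ncard_le_ncard ?_ (Set.toFinite _)
  intro a ha
  obtain ⟨s, rfl⟩ := h.letters ha
  exact ⟨s, (h.letter_mem_D hv.sys s).1 (hv.dg _ ha), rfl⟩

/-- The free letters form a partial basis that generates the base group. -/
theorem Adapted.exists_basis (h : Adapted β c) (hv : Valid c) :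
    ∃ A', c.A ⊆ A' ∧ Valid ⟨A', c.ρ, c.T⟩ ∧ c.D = Subgroup.closure A' ∧ A'.ncard = rkD c.D := by
  refine ⟨letter β '' {s | Free β c.ρ (s, true)}, ?_, ⟨⟨β, Set.image_subset_range _ _⟩, hv.sys, ?_,
    hv.fin, hv.adj, hv.ntr⟩, h.D_eq hv.sys, ?_⟩
  · intro a ha
    obtain ⟨s, rfl⟩ := h.letters ha
    exact ⟨s, (h.letter_mem_D hv.sys s).1 (hv.dg _ ha), rfl⟩
  · rintro _ ⟨s, hs', rfl⟩
    exact (h.letter_mem_D hv.sys s).2 hs'
  · rw [h.rkD_eq hv.sys, Set.ncard_image_of_injective _ (letter_injective β)]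

/-- A side that misses `1` and contains a nonempty ideal set is ideal. -/
theorem Adapted.ideal_of_superset (h : Adapted β c) (hs : Sys c.ρ) {D : Set (ι × Bool)}
    (hD : D.Nonempty) {Z : Set (Fr ι)} (hZ : Z ∈ sides c.ρ) (h1 : 1 ∉ Z) (hsub : ideal β D ⊆ Z) :
    ∃ D', Z = ideal β D' := by
  refine (h.compat hs hZ).eq_ideal β h1 fun k hk => ?_
  obtain ⟨k', hk'⟩ := hD
  have h2 : D ⊆ {k} := (ideal_subset_iff β).1 (hsub.trans hk.subset)
  have h3 : k' = k := h2 hk'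
  exact hk.not_subset (((hl_subset_ideal β).2 (h3 ▸ hk')).trans hsub)

/-- A set in the base region, or its complement, can be moved to an ideal set by the base
group. -/
theorem Adapted.descent (h : Adapted β c) (hs : Sys c.ρ) {X : Set (Fr ι)} (hX : Compat β X)
    (hne : X.Nonempty) (h1 : 1 ∉ X) (hb : ∀ Z ∈ sides c.ρ, 1 ∉ Z → ¬ X ⊂ Z) :
    ∃ g ∈ c.D, ∃ D, g • X = ideal β D ∨ (g • Xᶜ = ideal β D ∧ ∃ k ∈ D, Free β c.ρ k) := by
  have hfin : ∀ X : Set (Fr ι), X.Nonempty →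
      {x : Fr ι × (ι × Bool) | 1 ∉ x.1 • hl β x.2 ∧ X ⊂ x.1 • hl β x.2}.Finite := by
    rintro X ⟨a, ha⟩
    exact (finite_hl_mem β a).subset fun x hx => ⟨hx.1, hx.2.subset ha⟩
  induction hn : {x : Fr ι × (ι × Bool) | 1 ∉ x.1 • hl β x.2 ∧ X ⊂ x.1 • hl β x.2}.ncard
    using Nat.strong_induction_on generalizing X with
  | _ n ih =>
  by_cases hk : ∀ k, ¬ X ⊂ hl β k
  · obtain ⟨D, hD⟩ := hX.eq_ideal β h1 hk
    exact ⟨1, one_mem _, D, Or.inl (by rw [one_smul, hD])⟩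
  push Not at hk
  obtain ⟨k, hk⟩ := hk
  have hfree : Free β c.ρ k := fun D hD hkD =>
    hb _ hD (one_notMem_ideal β D) (hk.trans_subset ((hl_subset_ideal β).2 hkD))
  have hxD : sl β k ∈ c.D := (h.sl_mem_D hs k).2 hfree
  have hopp : (sl β k)⁻¹ • hl β k = (hl β (k.1, !k.2))ᶜ := by
    rw [inv_smul_eq_iff]; exact hl_opp β k
  by_cases hx : sl β k ∈ X
  · have hY1 : 1 ∉ (sl β k)⁻¹ • Xᶜ := by
      rw [mem_smul_fr]; simpa using hx
    have hY2 : hl β (k.1, !k.2) ⊆ (sl β k)⁻¹ • Xᶜ := by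
      rw [smul_compl_fr, Set.subset_compl_comm, ← hopp]
      exact Set.smul_set_mono hk.subset
    have hYc : Compat β ((sl β k)⁻¹ • Xᶜ) := hX.of_mem_orb β ⟨_, Or.inr rfl⟩
    obtain ⟨D, hD⟩ := hYc.eq_ideal β hY1 fun k' hk' => by
      have e : (k.1, !k.2) = k' :=
        mem_hl_unique β (sl_mem_hl β _) (hk'.subset (hY2 (sl_mem_hl β _)))
      exact hk'.not_subset (e ▸ hY2)
    exact ⟨_, inv_mem hxD, D, Or.inr ⟨hD, (k.1, !k.2), (hl_subset_ideal β).1 (hD ▸ hY2),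
      (h.free_opp hs k.1 k.2 _).1 hfree⟩⟩
  · have hY1 : 1 ∉ (sl β k)⁻¹ • X := by
      rw [mem_smul_fr]; simpa using hx
    have hYne : ((sl β k)⁻¹ • X).Nonempty := hne.smul_set
    have hYs : (sl β k)⁻¹ • X ⊆ (hl β (k.1, !k.2))ᶜ := by
      rw [← hopp]; exact Set.smul_set_mono hk.subset
    have hss : ∀ Z : Set (Fr ι), (sl β k)⁻¹ • X ⊂ Z → X ⊂ sl β k • Z := by
      intro Z hZ
      refine ⟨?_, fun e => hZ.not_subset (Set.smul_set_subset_iff_subset_inv_smul_set.1 e)⟩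
      have := Set.smul_set_mono (a := sl β k) hZ.subset
      rwa [smul_inv_smul] at this
    have hYb : ∀ Z ∈ sides c.ρ, 1 ∉ Z → ¬ (sl β k)⁻¹ • X ⊂ Z := by
      intro Z hZ hZ1 hsub
      refine hb _ ((hs.smul_mem _).2 hZ) ?_ (hss Z hsub)
      rw [mem_smul_fr, mul_one]
      have h2 := (mem_Dg.1 (inv_mem hxD)) Z hZ 1
      rw [one_mul] at h2
      exact fun h3 => hZ1 (h2.2 h3)
    have hlt : {x : Fr ι × (ι × Bool) | 1 ∉ x.1 • hl β x.2 ∧
        (sl β k)⁻¹ • X ⊂ x.1 • hl β x.2}.ncard < n := by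
      rw [← hn]
      have hinj : Function.Injective fun x : Fr ι × (ι × Bool) => (sl β k * x.1, x.2) := by
        intro x y e
        simp only [Prod.mk.injEq, mul_right_inj] at e
        exact Prod.ext e.1 e.2
      rw [← Set.ncard_image_of_injective _ hinj]
      refine Set.ncard_lt_ncard ?_ (hfin X hne)
      refine ⟨?_, fun hsub => ?_⟩
      · rintro _ ⟨⟨g, k'⟩, ⟨h2, h3⟩, rfl⟩
        refine ⟨?_, by simpa only [mul_smul] using hss _ h3⟩
        simp only at h2 h3 ⊢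
        rw [mul_smul, mem_smul_fr, mul_one]
        intro h4
        have h5 : ∃ k'', g • hl β k' ⊆ hl β k'' := by
          rcases mem_orb_ideal β (D := {k'}) (Q := g • hl β k') ⟨g, Or.inl rfl⟩ h2 with e | e
          · exact ⟨k', e.subset⟩
          · exact e
        obtain ⟨k'', h5⟩ := h5
        have e : (k.1, !k.2) = k'' :=
          mem_hl_unique β (sl_mem_hl β _) (h5 (by rw [sl_opp]; exact h4))
        obtain ⟨a, ha⟩ := hYne
        exact hYs ha (e ▸ h5 (h3.subset ha))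
      · obtain ⟨⟨g, k'⟩, ⟨h2, -⟩, e⟩ := hsub (a := (1, k))
          ⟨by simpa using one_notMem_hl β k, by simpa using hk⟩
        simp only [Prod.mk.injEq] at e h2
        obtain ⟨e1, rfl⟩ := e
        rw [← inv_eq_of_mul_eq_one_right e1, hopp] at h2
        exact h2 (one_notMem_hl β _)
    obtain ⟨g, hg, D, hD⟩ := ih _ hlt (hX.of_mem_orb β ⟨_, Or.inl rfl⟩) hYne hY1 hYb rfl
    refine ⟨g * (sl β k)⁻¹, mul_mem hg (inv_mem hxD), D, ?_⟩
    rwa [mul_smul, mul_smul, smul_compl_fr (sl β k)⁻¹]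

theorem inB_smul (hs : Sys c.ρ) {X : Set (Fr ι)} {g : Fr ι} (hg : g ∈ c.D)
    (hb : ∀ Z ∈ sides c.ρ, 1 ∉ Z → ¬ X ⊆ Z) :
    ∀ Z ∈ sides c.ρ, 1 ∉ Z → ¬ g • X ⊆ Z := by
  intro Z hZ hZ1 hsub
  refine hb (g⁻¹ • Z) ((hs.smul_mem _).2 hZ) ?_ (Set.smul_set_subset_iff_subset_inv_smul_set.1 hsub)
  rw [mem_smul_fr, inv_inv, mul_one]
  have h2 := (mem_Dg.1 hg) Z hZ 1
  rw [one_mul] at h2
  exact fun h3 => hZ1 (h2.2 h3)

/-- A compatible sphere of the base region has an ideal side in the base region. -/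
theorem Adapted.inB_ideal (h : Adapted β c) (hs : Sys c.ρ) {P : Set (Fr ι)} (hP : IsSph P)
    (hc : Compat β P) (hb : InB c.ρ (orb P)) : ∃ D, D.Nonempty ∧ ideal β D ∈ orb P ∧
      ∀ Z ∈ sides c.ρ, 1 ∉ Z → ¬ ideal β D ⊆ Z := by
  obtain ⟨X, hX, h1, hb⟩ := hb
  have hXs := hP.of_mem_orb hX
  obtain ⟨g, hg, D, hD | ⟨hD, k, hk, hf⟩⟩ := h.descent hs (hc.of_mem_orb β hX) hXs.1 h1
    fun Z hZ hZ1 hsub => hb Z hZ hZ1 hsub.subset
  · exact ⟨D, (ideal_nonempty_iff β).1 (hD ▸ hXs.1.smul_set), hD ▸ smul_mem_orb g hX,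
      hD ▸ inB_smul hs hg hb⟩
  · refine ⟨D, ⟨k, hk⟩, hD ▸ smul_mem_orb g (compl_mem_orb hX), fun Z hZ hZ1 hsub => ?_⟩
    obtain ⟨D', rfl⟩ := h.ideal_of_superset hs ⟨k, hk⟩ hZ hZ1 hsub
    exact hf D' hZ ((ideal_subset_iff β).1 hsub hk)

theorem Adapted.adj_ideal (h : Adapted β c) (hs : Sys c.ρ) {X : Set (Fr ι)} (hX : Adj c.ρ X) :
    ∃ g ∈ c.D, ∃ D, g • X = ideal β D := by
  obtain ⟨h0, h1, hb⟩ := hs.adj_iff.1 hX
  obtain ⟨g, hg, D, hD | ⟨hD, k, hk, hf⟩⟩ := h.descent hs (h.compat hs h0) (hs.isSph h0).1 h1 hb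
  · exact ⟨g, hg, D, hD⟩
  · exact absurd hk (hf D (hD ▸ (hs.smul_mem g).2 (hs.compl_mem.2 h0)))

/-- When all spheres are basis spheres, their half trees are adjacent. -/
theorem adj_hl_of_basis {ρ : Set (Orb ι)} (hρ : ∀ o ∈ ρ, ∃ s, o = orb (hl β (s, true)))
    {k : ι × Bool} (hk : hl β k ∈ sides ρ) : Adj ρ (hl β k) := by
  refine ⟨hk, one_notMem_hl β k, fun X hX => ?_⟩
  obtain ⟨o, ho, hXo⟩ := mem_sides.1 hX
  obtain ⟨s, rfl⟩ := hρ o ho
  exact resp_orb_hl β (s, true) {k} X hXo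

theorem Adapted.inB_hl (h : Adapted β c) (hs : Sys c.ρ) {k : ι × Bool} (hk : Free β c.ρ k) :
    InB c.ρ (orb (hl β k)) := by
  refine ⟨hl β k, mem_orb_self _, one_notMem_hl β k, fun Z hZ hZ1 hsub => ?_⟩
  obtain ⟨D', rfl⟩ := h.ideal_of_superset hs (Set.singleton_nonempty k) hZ hZ1 hsub
  exact hk D' hZ ((hl_subset_ideal β).1 hsub)

/-- Adding an ideal sphere. -/
theorem Adapted.valid_add_ideal (h : Adapted β c) (hv : Valid c) {D : Set (ι × Bool)}
    (hD : D.Nonempty)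
    (h1 : ∀ D', ideal β D' ∈ sides c.ρ → Disjoint D D' ∨ D ⊆ D' ∨ D' ⊆ D)
    (h2 : ∀ s, letter β s ∈ c.A → (s, true) ∉ D ∧ (s, false) ∉ D)
    (h3 : ∀ D', ideal β D' ∈ c.T → D ⊆ D' ∨ Disjoint D D') :
    Valid (c.add {orb (ideal β D)}) := by
  refine hv.add_iff.2 ⟨?_, fun a ha => ?_, fun t ht => ?_⟩
  · rw [Set.union_singleton]
    refine hv.sys.insert_orb (isSph_ideal β hD) fun Q hQ => ?_
    obtain ⟨o, ho, hQo⟩ := mem_sides.1 hQ
    obtain ⟨D', hD'⟩ := h.ideals o ho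
    exact (nest_orb_ideal β (h1 D' (mem_sides.2 ⟨o, ho, hD'⟩)) _ (mem_orb_self _) Q
      (hv.sys.eq_orb ho hD' ▸ hQo)).symm
  · obtain ⟨s, rfl⟩ := h.letters ha
    rw [sides_singleton, mem_Dg_orb, sep_ideal_eq_empty]
    exact h2 s ha
  · obtain ⟨D', rfl⟩ := h.tethers t ht
    rw [sides_singleton]
    exact resp_orb_ideal β (h3 D' ht)

/-- Adding a basis sphere to a system of compatible spheres. -/
theorem Adapted.valid_insert_hl (h : Adapted β c) (hv : Valid c) {S : Set (Orb ι)}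
    (hS : Valid (c.add S)) (hc : ∀ o ∈ S, ∀ P ∈ o, Compat β P) {s : ι} (hs : letter β s ∉ c.A) :
    Valid (c.add (insert (orb (hl β (s, true))) S)) := by
  obtain ⟨h1, h2, h3⟩ := hv.add_iff.1 hS
  refine hv.add_iff.2 ⟨?_, fun a ha => ?_, fun t ht => ?_⟩
  · rw [Set.union_insert]
    refine h1.insert_orb (isSph_hl β _) fun Q hQ => ?_
    have hQc : Compat β Q := by
      rw [sides_union] at hQ
      rcases hQ with hQ | hQ
      · exact h.compat hv.sys hQ
      · obtain ⟨o, ho, hQo⟩ := mem_sides.1 hQ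
        exact hc o ho Q hQo
    simpa only [one_smul] using hQc 1 (s, true)
  · rw [sides_insert, Dg_union]
    refine ⟨?_, h2 a ha⟩
    obtain ⟨s', rfl⟩ := h.letters ha
    exact mem_Dg_orb.2 (sep_hl_ne β fun e => hs (by cases e; exact ha))
  · rw [sides_insert, resp_union]
    refine ⟨?_, h3 t ht⟩
    obtain ⟨D', rfl⟩ := h.tethers t ht
    exact resp_orb_hl β _ D'

/-- The class of an ideal sphere of the base region that contains no ideal side of bad class. -/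
theorem Adapted.cls_ideal_mem (h : Adapted β c) (hs : Sys c.ρ) (K : AddSubgroup (ι → ℤ))
    {D : Set (ι × Bool)} (hn : ∀ Z ∈ sides c.ρ, Nest Z (ideal β D))
    (hb : ∀ Z ∈ sides c.ρ, 1 ∉ Z → ¬ ideal β D ⊆ Z)
    (h1 : ∀ Z, Adj c.ρ Z → Z ⊆ ideal β D → cls Z ∈ K)
    (h2 : ∀ k ∈ D, Free β c.ρ k → cls (hl β (k.1, true)) ∈ K) : cls (ideal β D) ∈ K := by
  have key : ∀ (n : ℕ) (D₀ : Set (ι × Bool)), D₀.ncard = n →
      (∀ k ∈ D₀, (Free β c.ρ k ∧ cls (hl β k) ∈ K) ∨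
        ∃ D', k ∈ D' ∧ D' ⊆ D₀ ∧ Adj c.ρ (ideal β D') ∧ cls (ideal β D') ∈ K) →
      cls (ideal β D₀) ∈ K := by
    intro n
    induction n using Nat.strong_induction_on with
    | _ n ih =>
    intro D₀ hn H
    rcases D₀.eq_empty_or_nonempty with rfl | ⟨k, hk⟩
    · rw [ideal_empty, cls_empty]; exact zero_mem _
    have h3 : ∃ D', k ∈ D' ∧ D' ⊆ D₀ ∧ cls (ideal β D') ∈ K ∧
        ∀ k' ∈ D₀ \ D', ∀ D'', k' ∈ D'' → Adj c.ρ (ideal β D'') → Disjoint D'' D' := by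
      rcases H k hk with ⟨hf, hK⟩ | ⟨D', h4, h5, h6, h7⟩
      · exact ⟨{k}, rfl, Set.singleton_subset_iff.2 hk, hK, fun k' _ D'' _ ha =>
          Set.disjoint_singleton_right.2 (hf D'' ha.1)⟩
      · refine ⟨D', h4, h5, h7, fun k' hk' D'' h8 ha => ?_⟩
        rcases ha.eq_or_disjoint h6 with e | e
        · exact absurd (ideal_injective β e ▸ h8) hk'.2
        · exact (ideal_disjoint_iff β).1 e
    obtain ⟨D', h4, h5, h6, h7⟩ := h3
    have h8 : cls (ideal β (D₀ \ D')) ∈ K := by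
      refine ih _ ?_ _ rfl fun k' hk' => ?_
      · rw [← hn]
        exact Set.ncard_lt_ncard ⟨Set.sdiff_subset, fun hsub => (hsub hk).2 h4⟩ (Set.toFinite _)
      · rcases H k' hk'.1 with h9 | ⟨D'', a1, a2, a3, a4⟩
        · exact Or.inl h9
        · exact Or.inr ⟨D'', a1, Set.subset_sdiff.2 ⟨a2, h7 k' hk' D'' a1 a3⟩, a3, a4⟩
    rw [← Set.union_sdiff_cancel h5, ideal_union, cls_union (ai_ideal β _) (ai_ideal β _)
      ((ideal_disjoint_iff β).2 Set.disjoint_sdiff_right)]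
    exact add_mem h6 h8
  refine key _ D rfl fun k hk => ?_
  by_cases hf : Free β c.ρ k
  · refine Or.inl ⟨hf, ?_⟩
    have h3 := h2 k hk hf
    obtain ⟨s, b⟩ := k
    cases b
    · rw [cls_hl_false]; exact neg_mem h3
    · exact h3
  · simp only [Free, not_forall, not_not] at hf
    obtain ⟨D₁, h3, h4⟩ := hf
    obtain ⟨Z, hZ, h5⟩ := hs.exists_adj h3 (one_notMem_ideal β _)
    obtain ⟨D', rfl⟩ := h.ideal_of_superset hs ⟨k, h4⟩ hZ.1 hZ.2.1 h5
    have h6 : k ∈ D' := (ideal_subset_iff β).1 h5 h4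
    rcases (hn _ hZ.1).of_notMem hZ.2.1 (one_notMem_ideal β _) with e | e | e
    · exact absurd hk (Set.disjoint_left.1 ((ideal_disjoint_iff β).1 e) h6)
    · exact Or.inr ⟨D', h6, (ideal_subset_iff β).1 e, hZ, h1 _ hZ e⟩
    · exact absurd e (hb _ hZ.1 hZ.2.1)

/-- A corner cut off by a half tree does not cross a letter that the set does not cross. -/
theorem sep_corner_letter {P : Set (Fr ι)} {g : Fr ι} {k : ι × Bool} (hg : g ∉ P) {s : ι}
    (hs : sep P (letter β s) = ∅) {E : Set (Fr ι)} (hE : E = g • hl β k ∨ E = (g • hl β k)ᶜ) :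
    sep (P ∩ E) (letter β s) = ∅ := by
  rw [Set.eq_empty_iff_forall_notMem] at hs ⊢
  intro a ha
  have h1 : a ∈ P ↔ a * letter β s ∈ P := not_not.1 (hs a)
  have h2 := fun h h' => JTreeC.edge_aux (β := β) (k := k) (k' := (s, true)) (a := a) hg h h'
  rw [sl_true] at h2
  apply ha
  rcases hE with rfl | rfl <;> simp only [Set.mem_inter_iff, Set.mem_compl_iff] <;> tauto

/-- If the set crosses one edge of a letter, then one corner crosses it and the other does not. -/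
theorem sep_corner_dual {P : Set (Fr ι)} {g : Fr ι} {k k' : ι × Bool} (hg : g ∉ P) {a : Fr ι}
    (hs : sep P (sl β k') = {a}) :
    (sep (P ∩ g • hl β k) (sl β k') = {a} ∧ sep (P ∩ (g • hl β k)ᶜ) (sl β k') = ∅) ∨
    (sep (P ∩ g • hl β k) (sl β k') = ∅ ∧ sep (P ∩ (g • hl β k)ᶜ) (sl β k') = {a}) := by
  have h1 : ∀ b, b ≠ a → (b ∈ P ↔ b * sl β k' ∈ P) := fun b hb => by
    by_contra h
    exact hb (hs.subset (show b ∈ sep P (sl β k') from h))
  have h2 : ¬ (a ∈ P ↔ a * sl β k' ∈ P) := hs.symm.subset (Set.mem_singleton a)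
  have h3 : ∀ b, b ≠ a → b ∉ sep (P ∩ g • hl β k) (sl β k') ∧
      b ∉ sep (P ∩ (g • hl β k)ᶜ) (sl β k') := fun b hb => by
    have h4 := h1 b hb
    have h5 := fun h h' => JTreeC.edge_aux (β := β) (k := k) (k' := k') (a := b) hg h h'
    simp only [sep, Set.mem_ofPred_eq, Set.mem_inter_iff, Set.mem_compl_iff]
    tauto
  have h4 : a ∈ sep (P ∩ g • hl β k) (sl β k') ↔ a ∉ sep (P ∩ (g • hl β k)ᶜ) (sl β k') := by
    simp only [sep, Set.mem_ofPred_eq, Set.mem_inter_iff, Set.mem_compl_iff]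
    tauto
  have h5 : ∀ U : Set (Fr ι), (∀ b, b ≠ a → b ∉ U) → a ∉ U → U = ∅ := fun U hU ha =>
    Set.eq_empty_iff_forall_notMem.2 fun b hb => hU b (fun e => ha (e ▸ hb)) hb
  have h6 : ∀ U : Set (Fr ι), (∀ b, b ≠ a → b ∉ U) → a ∈ U → U = {a} := fun U hU ha =>
    Set.eq_singleton_iff_unique_mem.2 ⟨ha, fun b hb => by_contra fun e => hU b e hb⟩
  by_cases h7 : a ∈ sep (P ∩ g • hl β k) (sl β k')
  · exact Or.inl ⟨h6 _ (fun b hb => (h3 b hb).1) h7, h5 _ (fun b hb => (h3 b hb).2) (h4.1 h7)⟩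
  · exact Or.inr ⟨h5 _ (fun b hb => (h3 b hb).1) h7,
      h6 _ (fun b hb => (h3 b hb).2) (by_contra fun e => h7 (h4.2 e))⟩

/-- Surgery keeps a configuration valid. -/
theorem Adapted.valid_surgery (h : Adapted β c) (hv : Valid c) {S : Set (Orb ι)}
    (hS : Valid (c.add S)) {P : Set (Fr ι)} (hP : orb P ∈ S) {g : Fr ι} {k : ι × Bool}
    (hg : g ∉ P) (hx : ¬ Nest P (g • hl β k)) {E : Set (Fr ι)}
    (hE : E = g • hl β k ∨ E = (g • hl β k)ᶜ) (hC : IsSph (P ∩ E))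
    (hn : ∀ o ∈ S, ∀ Q ∈ o, Nest Q (P ∩ E)) : Valid (c.add (insert (orb (P ∩ E)) S)) := by
  obtain ⟨h1, h2, h3⟩ := hv.add_iff.1 hS
  have hPS : orb P ⊆ sides S := fun X hX => mem_sides.2 ⟨_, hP, hX⟩
  have hxE : ¬ Nest P E := JTreeC.not_nest hx hE
  have hEo : E ∈ orb (hl β k) := JTreeC.mem_orb_of hE
  refine hv.add_iff.2 ⟨?_, fun a ha => ?_, fun t ht => ?_⟩
  · rw [Set.union_insert]
    refine h1.insert_orb hC fun Q hQ => ?_
    have hQ' := hQ
    rw [sides_union] at hQ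
    rcases hQ with hQ | hQ
    · exact Nest.corner (h1.2.2 Q hQ' P (sides_mono Set.subset_union_right (hPS (mem_orb_self P))))
        (JTreeC.nest_of_compat (h.compat hv.sys hQ) hEo) hxE
    · obtain ⟨o, ho, hQo⟩ := mem_sides.1 hQ
      exact hn o ho Q hQo
  · rw [sides_insert, Dg_union]
    refine ⟨?_, h2 a ha⟩
    obtain ⟨s, rfl⟩ := h.letters ha
    exact mem_Dg_orb.2 (sep_corner_letter hg (mem_Dg_orb.1 (Dg_anti hPS (h2 _ ha))) hE)
  · rw [sides_insert, resp_union]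
    refine ⟨Resp.corner ((h3 t ht).mono hPS) ?_ hxE, h3 t ht⟩
    obtain ⟨D', rfl⟩ := h.tethers t ht
    rw [orb_eq_of_mem hEo]
    exact resp_orb_hl β k D'

/-- A corner of a sphere of the base region lies in the base region or is an adjacent side
that is not tethered. -/
theorem Adapted.inB_surgery (h : Adapted β c) (hv : Valid c) {P : Set (Fr ι)}
    (hP : Valid (c.add {orb P})) (hb : InB c.ρ (orb P)) {g : Fr ι} {k : ι × Bool}
    (hx : ¬ Nest P (g • hl β k)) {E : Set (Fr ι)} (hE : E = g • hl β k ∨ E = (g • hl β k)ᶜ) :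
    InB c.ρ (orb (P ∩ E)) ∨
      ∃ X ∈ orb (P ∩ E), Adj c.ρ X ∧ ∀ t ∈ c.T, ¬ Tr X t := by
  obtain ⟨h1, -, h3⟩ := hv.add_iff.1 hP
  rw [sides_singleton] at h3
  obtain ⟨X, hX, hX1, hb⟩ := hb
  obtain ⟨a, ha⟩ := id hX
  have hEo : a • E ∈ orb (hl β k) := smul_mem_orb a (JTreeC.mem_orb_of hE)
  have hxE : ¬ Nest (a • P) (a • E) := fun e => JTreeC.not_nest hx hE ((nest_smul a).1 e)
  have hCo : a • P ∩ a • E ∈ orb (P ∩ E) := ⟨a, Or.inl (Set.smul_set_inter).symm⟩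
  have hPo : orb (a • P) = orb P := orb_eq_of_mem ⟨a, Or.inl rfl⟩
  rw [smul_compl_fr] at ha
  generalize a • P = P' at ha hxE hCo hPo
  generalize a • E = E' at hEo hxE hCo
  obtain ⟨⟨c1, hc1⟩, ⟨c2, hc2⟩, ⟨c3, hc3⟩, ⟨c4, hc4⟩⟩ := not_nest_iff.1 hxE
  by_cases hC1 : 1 ∈ P' ∩ E'
  · refine Or.inl ⟨(P' ∩ E')ᶜ, compl_mem_orb hCo, fun e => e hC1, fun Z hZ hZ1 hsub => ?_⟩
    refine hb Z hZ hZ1 (Set.Subset.trans ?_ hsub)
    rcases ha with rfl | rfl
    · exact absurd hC1.1 hX1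
    · exact Set.compl_subset_compl.2 Set.inter_subset_left
  have hw : ∀ Z ∈ sides c.ρ, 1 ∉ Z → ¬ P' ∩ E' ⊂ Z := by
    intro Z hZ hZ1 hsub
    have hZX : Nest Z X := h1.2.2 Z (sides_mono Set.subset_union_left hZ) X
      (mem_sides.2 ⟨orb P, Or.inr rfl, hX⟩)
    have hZP : Z ⊆ P' := by
      rcases hZX.of_notMem hZ1 hX1 with e | e | e
      · rcases ha with rfl | rfl
        · exact absurd hc1.1 (Set.disjoint_left.1 e (hsub.subset hc1))
        · exact Set.disjoint_compl_right_iff_subset.1 e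
      · rcases ha with rfl | rfl
        · exact e
        · exact absurd hc1.1 (e (hsub.subset hc1))
      · exact absurd e (hb Z hZ hZ1)
    obtain ⟨z, hz, hz'⟩ := Set.exists_of_ssubset hsub
    refine not_nest_iff.2 ⟨⟨c1, hsub.subset hc1, hc1.2⟩, ⟨z, hz, fun e => hz' ⟨hZP hz, e⟩⟩,
      ⟨c3, fun e => hc3.1 (hZP e), hc3.2⟩, ⟨c4, fun e => hc4.1 (hZP e), hc4.2⟩⟩
      (JTreeC.nest_of_compat (h.compat hv.sys hZ) hEo)
  by_cases hCs : P' ∩ E' ∈ sides c.ρ
  · refine Or.inr ⟨_, hCo, hv.sys.adj_iff.2 ⟨hCs, hC1, hw⟩, fun t ht => ?_⟩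
    refine Resp.corner_not_tr (hPo ▸ h3 t ht) ?_ hxE (hv.adj t ht).2.1
    obtain ⟨D', rfl⟩ := h.tethers t ht
    rw [orb_eq_of_mem hEo]
    exact resp_orb_hl β k D'
  · exact Or.inl ⟨_, hCo, hC1, fun Z hZ hZ1 hsub =>
      hw Z hZ hZ1 (hsub.ssubset_of_ne fun e => hCs (e ▸ hZ))⟩

/-- The Nielsen moves are realised by an automorphism that fixes the other letters. -/
theorem exists_aut_nielsen (β : Au ι) (I : Set ι) (f : ι → Fr ι)
    (hf : ∀ s, s ∉ I → ∃ u ∈ Subgroup.closure (letter β '' I),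
      ∃ w ∈ Subgroup.closure (letter β '' I), ∃ b, f s = u * sl β (s, b) * w) :
    ∃ γ : Au ι, (∀ s ∈ I, γ (letter β s) = letter β s) ∧ ∀ s, s ∉ I → γ (letter β s) = f s := by
  classical
  choose! u hu w hw b hb using hf
  have hfix : ∀ φ : Fr ι →* Fr ι, (∀ s ∈ I, φ (letter β s) = letter β s) →
      ∀ g ∈ Subgroup.closure (letter β '' I), φ g = g := by
    intro φ hφ g hg
    have : Subgroup.closure (letter β '' I) ≤ φ.eqLocus (MonoidHom.id _) := by
      rw [Subgroup.closure_le]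
      rintro _ ⟨s, hs, rfl⟩
      exact hφ s hs
    exact this hg
  have hlift : ∀ F : ι → Fr ι, ∃ φ : Fr ι →* Fr ι, ∀ s, φ (letter β s) = F s := fun F =>
    ⟨(FreeGroup.lift F).comp (β.symm : Fr ι ≃* Fr ι).toMonoidHom, fun s => by simp [letter]⟩
  have hext : ∀ φ : Fr ι →* Fr ι, (∀ s, φ (letter β s) = letter β s) → φ = MonoidHom.id _ := by
    intro φ hφ
    refine MonoidHom.eq_of_eqOn_dense (closure_letter β) ?_
    rintro _ ⟨s, rfl⟩
    exact hφ s
  obtain ⟨φ, hφ⟩ := hlift fun s => if s ∈ I then letter β s else f s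
  obtain ⟨ψ, hψ⟩ := hlift fun s => if s ∈ I then letter β s else
    if b s then (u s)⁻¹ * letter β s * (w s)⁻¹ else w s * (letter β s)⁻¹ * u s
  have h1 : ∀ s ∈ I, φ (letter β s) = letter β s := fun s hs => by rw [hφ, if_pos hs]
  have h2 : ∀ s ∈ I, ψ (letter β s) = letter β s := fun s hs => by rw [hψ, if_pos hs]
  have h3 : ψ.comp φ = MonoidHom.id _ := by
    refine hext _ fun s => ?_
    by_cases hs : s ∈ I
    · rw [MonoidHom.comp_apply, h1 s hs, h2 s hs]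
    · rw [MonoidHom.comp_apply, hφ, if_neg hs, hb s hs, map_mul, map_mul,
        hfix ψ h2 _ (hu s hs), hfix ψ h2 _ (hw s hs)]
      cases e : b s
      · rw [sl_false, map_inv, hψ, if_neg hs, e]; simp only [Bool.false_eq_true, if_false]; group
      · rw [sl_true, hψ, if_neg hs, e]; simp only [if_true]; group
  have h4 : φ.comp ψ = MonoidHom.id _ := by
    refine hext _ fun s => ?_
    by_cases hs : s ∈ I
    · rw [MonoidHom.comp_apply, h2 s hs, h1 s hs]
    · have e1 := hfix φ h1 _ (hu s hs)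
      have e2 := hfix φ h1 _ (hw s hs)
      have e3 : φ (letter β s) = u s * sl β (s, b s) * w s := by rw [hφ, if_neg hs, hb s hs]
      rw [MonoidHom.comp_apply, hψ, if_neg hs]
      cases e : b s
      · rw [e, sl_false] at e3
        simp only [Bool.false_eq_true, if_false, map_mul, map_inv, e1, e2, e3]; group
      · rw [e, sl_true] at e3
        simp only [if_true, map_mul, map_inv, e1, e2, e3]; group
  exact ⟨MonoidHom.toMulEquiv φ ψ h3 h4, h1, fun s hs => (hφ s).trans (if_neg hs)⟩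

/-- Simultaneous Nielsen moves relative to `A`. -/
theorem PB.nielsen {A B : Set (Fr ι)} (h : PB (A ∪ B)) (hd : Disjoint A B) (f : Fr ι → Fr ι)
    (hf : ∀ b ∈ B, ∃ u ∈ Subgroup.closure A, ∃ w ∈ Subgroup.closure A,
      f b = u * b * w ∨ f b = u * b⁻¹ * w) :
    PB (A ∪ f '' B) ∧ Disjoint A (f '' B) ∧ Set.InjOn f B := by
  classical
  obtain ⟨β, hβ⟩ := h
  have hA : letter β '' {s | letter β s ∈ A} = A :=
    Set.image_preimage_eq_of_subset (Set.subset_union_left.trans hβ)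
  obtain ⟨γ, h1, h2⟩ := exists_aut_nielsen β {s | letter β s ∈ A}
    (fun s => if letter β s ∈ B then f (letter β s) else letter β s) fun s _ => by
      rw [hA]
      by_cases hs : letter β s ∈ B
      · obtain ⟨u, hu, w, hw, e | e⟩ := hf _ hs
        · exact ⟨u, hu, w, hw, true, by rw [if_pos hs, e, sl_true]⟩
        · exact ⟨u, hu, w, hw, false, by rw [if_pos hs, e, sl_false]⟩
      · exact ⟨1, one_mem _, 1, one_mem _, true, by rw [if_neg hs, sl_true, one_mul, mul_one]⟩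
  have h3 : ∀ a ∈ A, γ a = a := fun a ha => by
    obtain ⟨s, rfl⟩ := hβ (Or.inl ha)
    exact h1 s ha
  have h4 : ∀ b ∈ B, γ b = f b := fun b hb => by
    obtain ⟨s, rfl⟩ := hβ (Or.inr hb)
    rw [h2 s fun e => Set.disjoint_left.1 hd e hb, if_pos hb]
  refine ⟨⟨γ * β, ?_⟩, ?_, fun b hb b' hb' e => γ.injective ?_⟩
  · rintro x (hx | ⟨b, hb, rfl⟩)
    · obtain ⟨s, rfl⟩ := hβ (Or.inl hx)
      exact ⟨s, by rw [letter_mul, h3 _ hx]⟩
    · obtain ⟨s, rfl⟩ := hβ (Or.inr hb)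
      exact ⟨s, by rw [letter_mul, h4 _ hb]⟩
  · rw [Set.disjoint_left]
    rintro _ ha ⟨b, hb, rfl⟩
    have e : f b = b := γ.injective (by rw [h3 _ ha, h4 _ hb])
    exact Set.disjoint_left.1 hd (e ▸ ha) hb
  · rw [h4 _ hb, h4 _ hb', e]

theorem PB.notMem_closure {A : Set (Fr ι)} {b : Fr ι} (h : PB (insert b A)) (hb : b ∉ A) :
    b ∉ Subgroup.closure A := by
  obtain ⟨β, hβ⟩ := h
  have hA : letter β '' {s | letter β s ∈ A} = A :=
    Set.image_preimage_eq_of_subset ((Set.subset_insert _ _).trans hβ)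
  obtain ⟨s, rfl⟩ := hβ (Set.mem_insert _ _)
  rw [← hA, letter_mem_closure]
  exact hb

theorem PB.abv_ne_zero {A : Set (Fr ι)} (h : PB A) {a : Fr ι} (ha : a ∈ A) : abv a ≠ 0 := by
  obtain ⟨β, hβ⟩ := h
  obtain ⟨s, rfl⟩ := hβ ha
  exact (linearIndependent_abv β).ne_zero s

theorem PB.rkD_closure {A : Set (Fr ι)} (h : PB A) : rkD (Subgroup.closure A) = A.ncard := by
  obtain ⟨β, hβ⟩ := h
  have hA : letter β '' {s | letter β s ∈ A} = A := Set.image_preimage_eq_of_subset hβ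
  rw [← hA, MP_49df17_al.rkD_closure, Set.ncard_image_of_injective _ (letter_injective β)]

theorem PB.ncard_le_rkD {A : Set (Fr ι)} (h : PB A) {D : Subgroup (Fr ι)} (hD : ∀ a ∈ A, a ∈ D) :
    A.ncard ≤ rkD D := by
  rw [← h.rkD_closure]
  exact rkD_mono ((Subgroup.closure_le _).2 hD)

/-- Spheres that are independent modulo the base group of `ρ` are basis spheres of free letters. -/
theorem Adapted.indep {p : ℕ} [Fact p.Prime] {ρ S : Set (Orb ι)} (h : Adapted β c) (hs : Sys c.ρ)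
    (e : c.ρ = ρ ∪ S) (hi : Indep p (Ann p (Dg (sides ρ))) S) :
    Adapted β ⟨c.A, ρ, ∅⟩ ∧ (∀ o ∈ S, ∃ s, o = orb (hl β (s, true)) ∧ Free β ρ (s, true)) ∧
      (∀ s, Free β c.ρ (s, true) ↔ Free β ρ (s, true) ∧ orb (hl β (s, true)) ∉ S) ∧
      rkD c.D + S.ncard = rkD (Dg (sides ρ)) ∧
      Ann p c.D = Ann p (Dg (sides ρ)) ⊔ spn p S := by
  have hρ : ρ ⊆ c.ρ := e ▸ Set.subset_union_left
  have hS : S ⊆ c.ρ := e ▸ Set.subset_union_right
  have hs' : Sys ρ := hs.mono hρ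
  have hW : spn p ρ ≤ Ann p (Dg (sides ρ)) := spn_le_Ann p hs'
  have hvo : ∀ {T : Set (Orb ι)} {P : Set (Fr ι)}, orb P ∈ T → clp p P ∈ spn p T :=
    fun hT => vo_orb_mem.1 (Submodule.subset_span ⟨_, hT, rfl⟩)
  have hmem : ∀ (o : Orb ι) (s : ι), hl β (s, true) ∈ sides c.ρ → orb (hl β (s, true)) ≠ o →
      clp p (hl β (s, true)) ∈ Ann p (Dg (sides ρ)) ⊔ spn p (S \ {o}) := by
    intro o s h1 h2
    have h3 := hs.orb_mem h1
    rw [e] at h3
    rcases h3 with h3 | h3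
    · exact Submodule.mem_sup_left (hW (hvo h3))
    · exact Submodule.mem_sup_right (hvo ⟨h3, h2⟩)
  have hbas : ∀ o ∈ S, ∃ s, o = orb (hl β (s, true)) := by
    intro o ho
    by_contra hne
    push Not at hne
    obtain ⟨D, hD⟩ := h.ideals o (hS ho)
    have h1 := clp_ideal_mem β p (Ann p (Dg (sides ρ)) ⊔ spn p (S \ {o})) (D := D) fun s h2 =>
      hmem o s (h.max D (mem_sides.2 ⟨o, hS ho, hD⟩) s h2) (hne s).symm
    exact hi o ho (hs.eq_orb (hS ho) hD ▸ vo_orb_mem.2 (hs.eq_orb (hS ho) hD ▸ h1))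
  have had : Adapted β ⟨c.A, ρ, ∅⟩ := by
    refine ⟨h.letters, fun o ho => h.ideals o (hρ ho), fun t ht => ht.elim, ?_⟩
    intro D hD s h1
    have hD' : ideal β D ∈ sides c.ρ := sides_mono hρ hD
    have h2 := hs.orb_mem (h.max D hD' s h1)
    rw [e] at h2
    rcases h2 with h2 | h2
    · exact mem_sides.2 ⟨_, h2, mem_orb_self _⟩
    exfalso
    obtain ⟨b, hb, hb'⟩ : ∃ b, (s, b) ∈ D ∧ (s, !b) ∉ D := by
      by_cases h3 : (s, true) ∈ D
      · exact ⟨true, h3, by simpa [h3] using h1⟩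
      · exact ⟨false, by simpa [h3] using h1, h3⟩
    have h3 : clp p (ideal β (D \ {(s, b)})) ∈
        Ann p (Dg (sides ρ)) ⊔ spn p (S \ {orb (hl β (s, true))}) := by
      refine clp_ideal_mem β p _ fun s' h4 => ?_
      have h5 : s' ≠ s := by
        rintro rfl
        cases b <;> simp_all
      refine hmem _ s' (h.max D hD' s' ?_) fun e' => h5 (orb_hl_injective β e')
      simpa [h5] using h4
    have h4 : clp p (ideal β D) ∈
        Ann p (Dg (sides ρ)) ⊔ spn p (S \ {orb (hl β (s, true))}) :=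
      Submodule.mem_sup_left (hW (hvo (hs'.orb_mem hD)))
    have h5 : cls (ideal β D) = cls (hl β (s, b)) + cls (ideal β (D \ {(s, b)})) := by
      rw [hl, ← cls_union (ai_ideal β _) (ai_ideal β _)
        ((ideal_disjoint_iff β).2 Set.disjoint_sdiff_right), ← ideal_union,
        Set.union_sdiff_cancel (Set.singleton_subset_iff.2 hb)]
    have h6 : clp p (hl β (s, b)) = clp p (ideal β D) - clp p (ideal β (D \ {(s, b)})) := by
      ext i; simp [clp, h5]
    refine hi _ h2 ?_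
    have h7 := vo_orb_mem.2 (h6 ▸ sub_mem h4 h3)
    rwa [orb_hl β s b] at h7
  have hD' : Dg (sides ρ) = Subgroup.closure (letter β '' {s | Free β ρ (s, true)}) :=
    had.D_eq hs'
  have hfr : ∀ s, orb (hl β (s, true)) ∈ S → Free β ρ (s, true) := by
    intro s h1
    by_contra h2
    refine hi _ h1 (Submodule.mem_sup_left (vo_orb_mem.2 ?_))
    rw [hD', Ann_closure]
    exact Submodule.subset_span ⟨s, h2, rfl⟩
  have hiff : ∀ s, Free β c.ρ (s, true) ↔ Free β ρ (s, true) ∧ orb (hl β (s, true)) ∉ S := by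
    intro s
    constructor
    · exact fun h1 => ⟨fun D hD => h1 D (sides_mono hρ hD), fun h2 =>
        h1 {(s, true)} (mem_sides.2 ⟨_, hS h2, mem_orb_self _⟩) rfl⟩
    · rintro ⟨h1, h2⟩ D hD h3
      rw [e, sides_union] at hD
      rcases hD with hD | hD
      · exact h1 D hD h3
      · obtain ⟨o, ho, hDo⟩ := mem_sides.1 hD
        obtain ⟨s', rfl⟩ := hbas o ho
        rcases ideal_mem_orb_hl β hDo with rfl | rfl
        · cases h3; exact h2 ho
        · cases h3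
  have hSe : S = (fun s => orb (hl β (s, true))) '' {s | orb (hl β (s, true)) ∈ S} := by
    refine (Set.image_preimage_eq_of_subset fun o ho => ?_).symm
    obtain ⟨s, rfl⟩ := hbas o ho
    exact ⟨s, rfl⟩
  refine ⟨had, fun o ho => ?_, hiff, ?_, ?_⟩
  · obtain ⟨s, rfl⟩ := hbas o ho
    exact ⟨s, rfl, hfr s ho⟩
  · have h1 : S.ncard = {s | orb (hl β (s, true)) ∈ S}.ncard := by
      conv_lhs => rw [hSe]
      exact Set.ncard_image_of_injective _ (orb_hl_injective β)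
    rw [h.rkD_eq hs, hD', rkD_closure, h1, ← Set.ncard_union_eq]
    · congr 1
      ext s
      have := hiff s
      have := hfr s
      simp only [Set.mem_union, Set.mem_ofPred_eq]
      tauto
    · exact Set.disjoint_left.2 fun s h2 h3 => ((hiff s).1 h2).2 h3
  · have h1 : {s | Free β c.ρ (s, true)}ᶜ =
        {s | Free β ρ (s, true)}ᶜ ∪ {s | orb (hl β (s, true)) ∈ S} := by
      ext s
      have := hiff s
      simp only [Set.mem_union, Set.mem_compl_iff, Set.mem_ofPred_eq]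
      tauto
    rw [h.D_eq hs, hD', Ann_closure, Ann_closure, h1, Set.image_union, Submodule.span_union]
    congr 1
    apply le_antisymm
    · rw [Submodule.span_le]
      rintro _ ⟨s, h2, rfl⟩
      exact hvo h2
    · rw [spn, Submodule.span_le]
      rintro _ ⟨o, ho, rfl⟩
      obtain ⟨s, rfl⟩ := hbas o ho
      exact vo_orb_mem.2 (Submodule.subset_span ⟨s, ho, rfl⟩)

end Pool.Agent.Lib.MP_49df17_al
end

-- part Pool.Agent.Lib.MP_49df17_al.Adapt
section

/-!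
Existence of adapted bases by Whitehead-type swaps, and extension of a basis by a dual element.
-/

set_option linter.unusedSectionVars false

namespace Pool.Agent.Lib.MP_49df17_al

open Matrix
open scoped Pointwise

namespace JAdapt

variable {ι : Type} [Fintype ι] [DecidableEq ι]

/-- The basis sphere of a letter. -/
def bs (β : Au ι) (s : ι) : Orb ι := orb (hl β (s, true))

theorem smul_hl_mem_bs (β : Au ι) (g : Fr ι) (h : ι × Bool) : g • hl β h ∈ bs β h.1 :=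
  (mem_orb_hl β).2 ⟨g, h.2, rfl⟩

theorem orb_smul_hl (β : Au ι) (g : Fr ι) (h : ι × Bool) : orb (g • hl β h) = bs β h.1 :=
  orb_eq_of_mem (smul_hl_mem_bs β g h)

theorem sl_mem_of_letter (β : Au ι) (k : ι × Bool) {H : Subgroup (Fr ι)}
    (h : letter β k.1 ∈ H) : sl β k ∈ H := by
  obtain ⟨s, b⟩ := k
  cases b
  · rw [sl_false]; exact H.inv_mem h
  · rw [sl_true]; exact h

/-- The swap of the basis sphere of `k` with an ideal sphere that splits `k`. -/
theorem swap (β : Au ι) {D : Set (ι × Bool)} {k : ι × Bool} (hk : k ∈ D)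
    (hk' : (k.1, !k.2) ∉ D) :
    ∃ β' : Au ι, hl β' k = ideal β D ∧ (∀ s, s ≠ k.1 → bs β' s = bs β s) ∧
      letter β' k.1 = letter β k.1 ∧
      ∀ s, (s, true) ∉ D → (s, false) ∉ D → letter β' s = letter β s := by
  classical
  obtain ⟨x, hx⟩ : ∃ x, x = sl β k := ⟨_, rfl⟩
  obtain ⟨u, hu⟩ : ∃ u : ι → Fr ι, u = fun s => if (s, true) ∈ D then x⁻¹ else 1 := ⟨_, rfl⟩
  obtain ⟨w, hw⟩ : ∃ w : ι → Fr ι, w = fun s => if (s, false) ∈ D then x else 1 := ⟨_, rfl⟩
  have huH : ∀ (H : Subgroup (Fr ι)), letter β k.1 ∈ H → ∀ s, u s ∈ H ∧ w s ∈ H := by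
    intro H hH s
    have := sl_mem_of_letter β k hH
    rw [← hx] at this
    constructor
    · rw [hu]; dsimp only; split_ifs
      · exact H.inv_mem this
      · exact H.one_mem
    · rw [hw]; dsimp only; split_ifs
      · exact this
      · exact H.one_mem
  obtain ⟨γ, h1, h2⟩ := exists_aut_nielsen β {k.1} (fun s => u s * letter β s * w s) (by
    intro s _
    have := huH (Subgroup.closure (letter β '' {k.1}))
      (Subgroup.subset_closure ⟨k.1, rfl, rfl⟩) s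
    exact ⟨u s, this.1, w s, this.2, true, by rw [sl_true]⟩)
  have e1 : letter (γ * β) k.1 = letter β k.1 := by rw [letter_mul, h1 _ rfl]
  have e2 : ∀ s, s ≠ k.1 → letter (γ * β) s = u s * letter β s * w s := fun s hs => by
    rw [letter_mul, h2 s hs]
  have e3 : sl (γ * β) k = x := by
    obtain ⟨s, b⟩ := k
    cases b
    · rw [sl_false, hx, sl_false, e1]
    · rw [sl_true, hx, sl_true, e1]
  refine ⟨γ * β, ?_, ?_, e1, ?_⟩
  · have f1 : ∀ a, a ∈ sep (ideal β D) x ↔ a = 1 := fun a => by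
      rw [hx, mem_sep_ideal]; simp [hk, hk']
    refine (eq_hl_of_sep (γ * β) (one_notMem_ideal β D) ?_ ?_).symm
    · rw [e3]; ext a; exact f1 a
    · intro s hs
      rw [e2 s hs, Set.eq_empty_iff_forall_notMem]
      intro a
      have f2 : a ∈ sep (ideal β D) (u s) ↔ a * u s = 1 ∧ (s, true) ∈ D := by
        rw [hu]; dsimp only; split_ifs with h
        · rw [mem_sep_inv, f1]; simp [h]
        · rw [sep_one]; simp [h]
      have f3 : a * (u s * letter β s) ∈ sep (ideal β D) (w s) ↔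
          a * u s = (letter β s)⁻¹ ∧ (s, false) ∈ D := by
        rw [hw]; dsimp only; split_ifs with h
        · rw [f1, ← mul_assoc, mul_eq_one_iff_eq_inv]; simp [h]
        · rw [sep_one]; simp [h]
      have f4 : ¬ (a * u s = 1 ∧ a * u s = (letter β s)⁻¹) := by
        rintro ⟨p, q⟩
        rw [p, ← sl_false] at q
        exact sl_ne_one β _ q.symm
      rw [mem_sep_mul, mem_sep_mul, f2, f3, mem_sep_ideal_letter]
      tauto
  · intro s hs
    have hQ : letter β k.1 ∈ Dg (orb (hl β (s, true))) :=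
      mem_Dg_orb.2 (sep_hl_ne β (Ne.symm hs))
    have hu' := huH _ hQ
    have e : u s • hl β (s, true) = hl (γ * β) (s, true) := by
      refine eq_hl_of_sep (γ * β) ?_ ?_ ?_
      · rw [mem_smul_fr, mul_one]
        intro h
        have := mem_Dg.1 (Subgroup.inv_mem _ (hu' s).1) _ (mem_orb_self _) 1
        rw [one_mul] at this
        exact one_notMem_hl β _ (this.2 h)
      · rw [sl_true, e2 s hs, sep_smul, sep_mul_right (mem_Dg_orb.1 (hu' s).2)]
        ext a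
        rw [mem_smul_fr, sep_mul_left (mem_Dg_orb.1 (hu' s).1), ← sl_true, sep_hl_self]
        simp only [Set.mem_singleton_iff]
        constructor
        · intro h
          have : a = u s * ((u s)⁻¹ * a * u s) * (u s)⁻¹ := by group
          rw [this, h]; simp
        · rintro rfl; simp
      · intro s' hs'
        have : letter (γ * β) s' ∈ Dg (orb (hl β (s, true))) := by
          by_cases h : s' = k.1
          · rw [h, e1]; exact hQ
          · rw [e2 s' h]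
            exact Subgroup.mul_mem _ (Subgroup.mul_mem _ (hu' s').1
              (mem_Dg_orb.2 (sep_hl_ne β hs'))) (hu' s').2
        rw [sep_smul, mem_Dg_orb.1 this, Set.smul_set_empty]
    unfold bs
    rw [← e]
    exact orb_eq_of_mem (smul_mem_orb _ (mem_orb_self _))
  · intro s p q
    by_cases h : s = k.1
    · rw [h, e1]
    · rw [e2 s h, hu, hw]; simp [p, q]

/-- A possible swap: an ideal sphere `orb C` that splits `s` and crosses no other letter of `A`. -/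
def Sw (β : Au ι) (A : Set (Fr ι)) (s : ι) (C : Set (Fr ι)) : Prop :=
  (∃ D, ideal β D ∈ orb C ∧ ¬ ((s, true) ∈ D ↔ (s, false) ∈ D)) ∧
    ∀ s', s' ≠ s → letter β s' ∈ A → sep C (letter β s') = ∅

theorem Sw.swap {β : Au ι} {A : Set (Fr ι)} {s : ι} {C : Set (Fr ι)} (h : Sw β A s C)
    (hA : A ⊆ Set.range (letter β)) :
    ∃ β' : Au ι, A ⊆ Set.range (letter β') ∧ bs β' s = orb C ∧
      ∀ s', s' ≠ s → bs β' s' = bs β s' := by
  obtain ⟨⟨D, hD, hs⟩, h2⟩ := h
  obtain ⟨b, hb, hb'⟩ : ∃ b : Bool, (s, b) ∈ D ∧ (s, !b) ∉ D := by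
    by_cases p : (s, true) ∈ D
    · exact ⟨true, p, fun q => hs ⟨fun _ => q, fun _ => p⟩⟩
    · exact ⟨false, by tauto, p⟩
  obtain ⟨β', e1, e2, e3, e4⟩ := JAdapt.swap β (k := (s, b)) hb hb'
  refine ⟨β', ?_, ?_, e2⟩
  · intro a ha
    obtain ⟨s', rfl⟩ := hA ha
    by_cases p : s' = s
    · exact ⟨s, by rw [p]; exact e3⟩
    · have q : sep (ideal β D) (letter β s') = ∅ := by
        have := mem_Dg_orb.2 (h2 s' p ha)
        exact mem_Dg_sep.1 this _ hD
      rw [sep_ideal_eq_empty] at q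
      exact ⟨s', e4 s' q.1 q.2⟩
  · unfold bs
    rw [← orb_hl β' s b, e1]
    exact orb_eq_of_mem hD

/-- Descent along swaps. -/
theorem descend (A : Set (Fr ι)) (w : Orb ι → ℕ) (I : Orb ι → Prop) (G : Au ι → Prop)
    (step : ∀ β : Au ι, A ⊆ Set.range (letter β) → (∀ s, I (bs β s)) → ¬ G β →
      ∃ s C, Sw β A s C ∧ I (orb C) ∧ w (orb C) < w (bs β s))
    (β : Au ι) (hA : A ⊆ Set.range (letter β)) (hI : ∀ s, I (bs β s)) :
    ∃ β' : Au ι, A ⊆ Set.range (letter β') ∧ (∀ s, I (bs β' s)) ∧ G β' := by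
  induction' hn : ∑ s, w (bs β s) using Nat.strong_induction_on with n ih generalizing β
  by_cases hG : G β
  · exact ⟨β, hA, hI, hG⟩
  obtain ⟨s, C, h1, h2, h3⟩ := step β hA hI hG
  obtain ⟨β', e1, e2, e3⟩ := h1.swap hA
  refine ih _ ?_ β' e1 ?_ rfl
  · rw [← hn]
    refine Finset.sum_lt_sum (fun s' _ => ?_) ⟨s, Finset.mem_univ _, by rw [e2]; exact h3⟩
    by_cases p : s' = s
    · rw [p, e2]; exact h3.le
    · rw [e3 s' p]
  · intro s'
    by_cases p : s' = s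
    · rw [p, e2]; exact h2
    · rw [e3 s' p]; exact hI s'

theorem ideal_of_split (β : Au ι) {Y : Set (Fr ι)} {k : ι × Bool}
    (h : ∀ h, hl β h ⊆ Y ∨ Disjoint (hl β h) Y) (h1 : hl β k ⊆ Y)
    (h2 : Disjoint (hl β (k.1, !k.2)) Y) :
    ∃ D, ideal β D ∈ orb Y ∧ ¬ ((k.1, true) ∈ D ↔ (k.1, false) ∈ D) := by
  have key : ∀ D : Set (ι × Bool), ¬ (k ∈ D ↔ (k.1, !k.2) ∈ D) →
      ¬ ((k.1, true) ∈ D ↔ (k.1, false) ∈ D) := by
    obtain ⟨s, b⟩ := k
    cases b
    · intro D p q; exact p q.symm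
    · intro D p q; exact p q
  have p1 : sl β k ∈ Y := h1 (sl_mem_hl β k)
  have p2 : sl β (k.1, !k.2) ∉ Y := Set.disjoint_left.1 h2 (sl_mem_hl β _)
  by_cases h0 : (1 : Fr ι) ∈ Y
  · obtain ⟨D, hD⟩ := exists_eq_ideal β (t := Yᶜ) (fun p => p h0) (fun k' => by
      rcases h k' with p | p
      · exact Or.inr (Set.disjoint_compl_right_iff_subset.2 p)
      · exact Or.inl (Set.subset_compl_iff_disjoint_right.2 p))
    refine ⟨D, hD ▸ compl_mem_orb (mem_orb_self Y), key D ?_⟩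
    rw [← sl_mem_ideal β, ← sl_mem_ideal β, ← hD]
    simp [p1, p2]
  · obtain ⟨D, hD⟩ := exists_eq_ideal β h0 h
    refine ⟨D, hD ▸ mem_orb_self Y, key D ?_⟩
    rw [← sl_mem_ideal β, ← sl_mem_ideal β, ← hD]
    simp [p1, p2]

theorem inner_ssubset (β : Au ι) (g : Fr ι) {k h : ι × Bool} (hne : h ≠ (k.1, !k.2)) :
    (g * sl β k) • hl β h ⊂ g • hl β k := by
  rw [mul_smul]
  have := smul_hl_subset β hne
  exact ⟨Set.smul_set_mono this.1, fun p => this.2 (Set.smul_set_subset_smul_set_iff.1 p)⟩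

/-- One of the two corners inside an innermost basis side is an ideal sphere that splits the
letter of the side. -/
theorem corner_ideal (β : Au ι) {P : Set (Fr ι)} (g : Fr ι) (k : ι × Bool)
    (h : ∀ h, h ≠ (k.1, !k.2) →
      (g * sl β k) • hl β h ⊆ P ∨ Disjoint ((g * sl β k) • hl β h) P) :
    ∃ P', (P' = P ∨ P' = Pᶜ) ∧
      ∃ D, ideal β D ∈ orb (P' ∩ g • hl β k) ∧ ¬ ((k.1, true) ∈ D ↔ (k.1, false) ∈ D) := by
  obtain ⟨v, hv⟩ : ∃ v, v = g * sl β k := ⟨_, rfl⟩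
  have hne : k ≠ (k.1, !k.2) := by
    obtain ⟨s, b⟩ := k
    cases b <;> simp
  have hE : g • hl β k = v • (hl β (k.1, !k.2))ᶜ := by rw [hv, mul_smul, ← hl_opp]
  have main : ∀ P' : Set (Fr ι), (∀ h, h ≠ (k.1, !k.2) →
      v • hl β h ⊆ P' ∨ Disjoint (v • hl β h) P') → v • hl β k ⊆ P' →
      ∃ D, ideal β D ∈ orb (P' ∩ g • hl β k) ∧ ¬ ((k.1, true) ∈ D ↔ (k.1, false) ∈ D) := by
    intro P' q1 q2
    have r1 : ∀ h, h ≠ (k.1, !k.2) → v • hl β h ⊆ P' → hl β h ⊆ v⁻¹ • (P' ∩ g • hl β k) := by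
      intro h p q
      rw [← Set.smul_set_subset_iff_subset_inv_smul_set]
      exact Set.subset_inter q (by rw [hv]; exact (inner_ssubset β g p).1)
    have r2 : Disjoint (hl β (k.1, !k.2)) (v⁻¹ • (P' ∩ g • hl β k)) := by
      rw [Set.disjoint_left]
      intro a p q
      rw [mem_smul_fr, inv_inv, hE] at q
      have := q.2
      rw [mem_smul_fr, inv_mul_cancel_left] at this
      exact this p
    obtain ⟨D, d1, d2⟩ := ideal_of_split β (Y := v⁻¹ • (P' ∩ g • hl β k)) (k := k) (fun h => by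
      by_cases p : h = (k.1, !k.2)
      · rw [p]; exact Or.inr r2
      · rcases q1 h p with q | q
        · exact Or.inl (r1 h p q)
        · refine Or.inr (Set.disjoint_left.2 fun a p' q' => ?_)
          rw [mem_smul_fr, inv_inv] at q'
          exact Set.disjoint_left.1 q (Set.smul_mem_smul_set p') q'.1) (r1 k hne q2) r2
    exact ⟨D, by rwa [orb_eq_of_mem (smul_mem_orb _ (mem_orb_self _))] at d1, d2⟩
  rw [← hv] at h
  rcases h k hne with p | p
  · exact ⟨P, Or.inl rfl, main P h p⟩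
  · refine ⟨Pᶜ, Or.inr rfl, main Pᶜ (fun h' q => ?_) (Set.subset_compl_iff_disjoint_right.2 p)⟩
    rcases h h' q with r | r
    · exact Or.inr (Set.disjoint_compl_right_iff_subset.2 r)
    · exact Or.inl (Set.subset_compl_iff_disjoint_right.2 r)

theorem sw_corner (β : Au ι) {ρ : Set (Orb ι)} {A : Set (Fr ι)}
    (hA : ∀ a ∈ A, a ∈ Dg (sides ρ)) {P : Set (Fr ι)} (hP : P ∈ sides ρ) {g : Fr ι}
    {k : ι × Bool}
    (h : ∃ D, ideal β D ∈ orb (P ∩ g • hl β k) ∧ ¬ ((k.1, true) ∈ D ↔ (k.1, false) ∈ D)) :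
    Sw β A k.1 (P ∩ g • hl β k) := by
  refine ⟨h, fun s hs ha => Set.subset_eq_empty (sep_inter_subset _ _ _) ?_⟩
  rw [mem_Dg_sep.1 (hA _ ha) P hP, sep_smul, sep_hl_ne β hs, Set.smul_set_empty, Set.union_empty]

/-! First minimisation: crossings -/

/-- The number of sides that cross a set. -/
noncomputable def crs (ρ : Set (Orb ι)) (X : Set (Fr ι)) : ℕ :=
  {Q | Q ∈ sides ρ ∧ ¬ Nest Q X}.ncard

theorem nest_compl_right {P Q : Set (Fr ι)} : Nest P Qᶜ ↔ Nest P Q :=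
  ⟨fun h => by simpa using h.compl_right, Nest.compl_right⟩

theorem nest_compl_left {P Q : Set (Fr ι)} : Nest Pᶜ Q ↔ Nest P Q :=
  ⟨fun h => by simpa using h.compl_left, Nest.compl_left⟩

theorem crs_smul {ρ : Set (Orb ι)} (hs : Sys ρ) (a : Fr ι) (X : Set (Fr ι)) :
    crs ρ (a • X) = crs ρ X := by
  unfold crs
  rw [← Set.ncard_image_of_injective {Q | Q ∈ sides ρ ∧ ¬ Nest Q X}
    (MulAction.injective (β := Set (Fr ι)) a)]
  congr 1
  ext Q
  constructor
  · rintro ⟨p, q⟩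
    refine ⟨a⁻¹ • Q, ⟨(hs.smul_mem _).2 p, fun r => q ?_⟩, smul_inv_smul a Q⟩
    rwa [← nest_smul a, smul_inv_smul] at r
  · rintro ⟨Q, ⟨p, q⟩, rfl⟩
    exact ⟨(hs.smul_mem _).2 p, fun r => q ((nest_smul a).1 r)⟩

theorem crs_orb {ρ : Set (Orb ι)} (hs : Sys ρ) {X Y : Set (Fr ι)} (h : X ∈ orb Y) :
    crs ρ X = crs ρ Y := by
  obtain ⟨g, rfl | rfl⟩ := h
  · exact crs_smul hs g Y
  · rw [crs_smul hs]; unfold crs; simp only [nest_compl_right]

theorem crs_rep {ρ : Set (Orb ι)} (hs : Sys ρ) (X : Set (Fr ι)) :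
    crs ρ (rep (orb X)) = crs ρ X :=
  crs_orb hs (rep_mem ⟨X, mem_orb_self X⟩)

theorem finite_crs (β : Au ι) {ρ : Set (Orb ι)} (hs : Sys ρ) (g : Fr ι) (k : ι × Bool) :
    {Q | Q ∈ sides ρ ∧ ¬ Nest Q (g • hl β k)}.Finite := by
  have : {Q | Q ∈ sides ρ ∧ ¬ Nest Q (g • hl β k)} ⊆
      ⋃ o ∈ ρ, {Q | Q ∈ o ∧ ¬ Nest Q (g • hl β k)} := by
    rintro Q ⟨p, q⟩
    obtain ⟨o, ho, hQ⟩ := mem_sides.1 p
    exact Set.mem_biUnion ho ⟨hQ, q⟩
  refine Set.Finite.subset (Set.Finite.biUnion hs.1 fun o ho => ?_) this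
  obtain ⟨P, hP, rfl⟩ := hs.2.1 o ho
  have hf := AI.finite_cross β hP.2.2.1
  refine Set.Finite.subset ((hf.image fun x => (g * x.1⁻¹) • P).union
    (hf.image fun x => (g * x.1⁻¹) • Pᶜ)) ?_
  rintro Q ⟨⟨a, rfl | rfl⟩, q⟩
  · refine Or.inl ⟨(a⁻¹ * g, k), fun r => q ?_, by simp⟩
    rw [← nest_smul a, smul_smul] at r
    simpa using r
  · refine Or.inr ⟨(a⁻¹ * g, k), fun r => q ?_, by simp⟩
    rw [← nest_compl_left, ← nest_smul a, smul_smul] at r
    simpa using r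

/-- All sides of the system are nested with all members of the orbit. -/
def I2 (ρ : Set (Orb ι)) (o : Orb ι) : Prop := ∀ P ∈ sides ρ, ∀ X ∈ o, Nest P X

theorem step1 {ρ : Set (Orb ι)} (hs : Sys ρ) {A : Set (Fr ι)} (hA : ∀ a ∈ A, a ∈ Dg (sides ρ))
    (β : Au ι) (h : ¬ ∀ s, I2 ρ (bs β s)) :
    ∃ s C, Sw β A s C ∧ crs ρ (rep (orb C)) < crs ρ (rep (bs β s)) := by
  obtain ⟨s, P, hP, X, hX, hx⟩ : ∃ s, ∃ P ∈ sides ρ, ∃ X ∈ bs β s, ¬ Nest P X := by
    by_contra q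
    exact h fun s P hP X hX => by_contra fun r => q ⟨s, P, hP, X, hX, r⟩
  obtain ⟨g0, b0, rfl⟩ := (mem_orb_hl β).1 hX
  have hf := (AI.finite_cross β (hs.isSph hP).2.2.1).image fun x => x.1 • hl β x.2
  obtain ⟨E, ⟨⟨g, k⟩, hE, rfl⟩, hmin⟩ := hf.exists_minimal ⟨_, (g0, (s, b0)), hx, rfl⟩
  replace hE : ¬ Nest P (g • hl β k) := hE
  obtain ⟨P', hP', hD⟩ := corner_ideal β (P := P) g k (fun h' hne => by
    have sub := inner_ssubset β g hne
    have hn : Nest P ((g * sl β k) • hl β h') := by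
      by_contra q
      exact sub.2 (hmin ⟨(g * sl β k, h'), q, rfl⟩ sub.1)
    rcases hn with q | q | q | q
    · exact Or.inr q.symm
    · exact absurd (Or.inr (Or.inl (q.trans sub.1))) hE
    · exact Or.inl q
    · refine absurd (Or.inr (Or.inr (Or.inr ?_))) hE
      exact Set.eq_univ_of_univ_subset (q ▸ Set.union_subset_union_right _ sub.1))
  have hP'' : P' ∈ sides ρ := by
    rcases hP' with rfl | rfl
    · exact hP
    · exact hs.compl_mem.2 hP
  have hx' : ¬ Nest P' (g • hl β k) := by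
    rcases hP' with rfl | rfl
    · exact hE
    · rwa [nest_compl_left]
  refine ⟨k.1, _, sw_corner β hA hP'' hD, ?_⟩
  rw [← orb_smul_hl β g k, crs_rep hs, crs_rep hs]
  refine Set.ncard_lt_ncard ⟨?_, fun q => ?_⟩ (finite_crs β hs g k)
  · rintro Q ⟨p, q⟩
    exact ⟨p, fun r => q ((hs.2.2 Q p P' hP'').corner r hx')⟩
  · exact (q ⟨hP'', hx'⟩).2 (Or.inr (Or.inr (Or.inl Set.inter_subset_left)))

/-! Second minimisation: sides around tethers -/

/-- The pairs of a tether and a member of the orbit that misses `1` and contains it properly. -/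
def ar (T o : Orb ι) : Set (Set (Fr ι) × Set (Fr ι)) :=
  {p | p.1 ∈ T ∧ p.2 ∈ o ∧ 1 ∉ p.2 ∧ p.1 ⊂ p.2}

theorem finite_around (β : Au ι) {t : Set (Fr ι)} (ht : t.Nonempty) :
    {X | (∃ (g : Fr ι) (h : ι × Bool), X = g • hl β h) ∧ 1 ∉ X ∧ t ⊂ X}.Finite := by
  obtain ⟨a, ha⟩ := ht
  refine ((finite_hl_mem β a).image fun x => x.1 • hl β x.2).subset ?_
  rintro X ⟨⟨g, h, rfl⟩, p, q⟩
  exact ⟨(g, h), ⟨p, q.1 ha⟩, rfl⟩

theorem finite_ar (β : Au ι) {T : Orb ι} (hT : T.Finite) (hn : ∀ t ∈ T, t.Nonempty) (s : ι) :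
    (ar T (bs β s)).Finite := by
  refine (hT.biUnion fun t ht => (finite_around β (hn t ht)).image fun X => (t, X)).subset ?_
  rintro ⟨t, X⟩ ⟨p1, p2, p3, p4⟩
  obtain ⟨g, b, e⟩ := (mem_orb_hl β).1 p2
  exact Set.mem_biUnion p1 ⟨X, ⟨⟨g, _, e⟩, p3, p4⟩, rfl⟩

theorem exists_transfer {E : Set (Fr ι)} (hE : IsSph E) (C : Set (Fr ι)) :
    ∃ ψ : Set (Fr ι) → Set (Fr ι), ∀ a : Fr ι, ψ (a • E) = a • C ∧ ψ (a • Eᶜ) = a • Cᶜ := by
  classical
  refine ⟨fun X => if h : ∃ a : Fr ι, X = a • E then h.choose • C else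
    if h : ∃ a : Fr ι, X = a • Eᶜ then h.choose • Cᶜ else ∅, fun a => ⟨?_, ?_⟩⟩
  · have h : ∃ a' : Fr ι, a • E = a' • E := ⟨a, rfl⟩
    dsimp only
    rw [dif_pos h, ← hE.smul_inj h.choose_spec]
  · have h : ∃ a' : Fr ι, a • Eᶜ = a' • Eᶜ := ⟨a, rfl⟩
    have h' : ¬ ∃ a' : Fr ι, a • Eᶜ = a' • E := by
      rintro ⟨a', e⟩
      exact hE.not_tr_compl (g := a⁻¹ * a') (by rw [mul_smul, ← e, inv_smul_smul])
    dsimp only
    rw [dif_neg h', dif_pos h,
      ← (hE.of_mem_orb (compl_mem_orb (mem_orb_self E))).smul_inj h.choose_spec]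

theorem ar_side {c : Cfg ι} (hv : Valid c) {o : Orb ι} (ho : o ⊆ sides c.ρ) : ar c.T o = ∅ := by
  rw [Set.eq_empty_iff_forall_notMem]
  rintro ⟨t, X⟩ ⟨p1, p2, p3, p4⟩
  exact (hv.sys.adj_iff.1 (hv.adj t p1)).2.2 X (ho p2) p3 p4

theorem orb_subset_sides {ρ : Set (Orb ι)} (hs : Sys ρ) {X : Set (Fr ι)} (hX : X ∈ sides ρ) :
    orb X ⊆ sides ρ := fun _ h => mem_sides.2 ⟨_, hs.orb_mem hX, h⟩

theorem i2_side {ρ : Set (Orb ι)} (hs : Sys ρ) {X : Set (Fr ι)} (hX : X ∈ sides ρ) :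
    I2 ρ (orb X) := fun P hP Y hY => hs.2.2 P hP Y (orb_subset_sides hs hX hY)

theorem i2_of_nest {ρ : Set (Orb ι)} (hs : Sys ρ) {X : Set (Fr ι)}
    (h : ∀ Q ∈ sides ρ, Nest Q X) : I2 ρ (orb X) := fun P hP Y hY =>
  nest_orb (fun Q hQ => h Q (orb_subset_sides hs hP hQ)) P (mem_orb_self P) Y hY

/-- The complement of a tether in a side around it. -/
theorem diff_step {c : Cfg ι} (hv : Valid c) {t E : Set (Fr ι)} (ht : t ∈ c.T) (hE : IsSph E)
    (h1 : 1 ∉ E) (hs : t ⊂ E) (hI : I2 c.ρ (orb E)) (hf : (ar c.T (orb E)).Finite) :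
    I2 c.ρ (orb (tᶜ ∩ E)) ∧ (ar c.T (orb (tᶜ ∩ E))).ncard < (ar c.T (orb E)).ncard := by
  have hne : ∀ t' ∈ c.T, t'.Nonempty := fun t' h => (hv.sys.isSph (hv.adj t' h).1).1
  have ha := hv.adj t ht
  constructor
  · refine i2_of_nest hv.sys ?_
    have key : ∀ Q ∈ sides c.ρ, 1 ∉ Q → Nest Q (tᶜ ∩ E) := by
      intro Q hQ q1
      rcases ha.2.2 Q hQ q1 with p | p
      · exact Or.inl (Set.disjoint_left.2 fun a p' q' => q'.1 (p p'))
      · rcases (hI Q hQ E (mem_orb_self E)).of_notMem q1 h1 with r | r | r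
        · exact Or.inl (r.mono_right Set.inter_subset_right)
        · exact Or.inr (Or.inl (Set.subset_inter (Set.subset_compl_iff_disjoint_right.2 p) r))
        · obtain ⟨a, ha'⟩ := hne t ht
          exact absurd ha' (Set.disjoint_left.1 p (r (hs.1 ha')))
    intro Q hQ
    by_cases q : (1 : Fr ι) ∈ Q
    · exact nest_compl_left.1 (key Qᶜ (hv.sys.compl_mem.2 hQ) fun r => r q)
    · exact key Q hQ q
  · obtain ⟨ψ, hψ⟩ := exists_transfer hE (tᶜ ∩ E)
    have h0 : (t, E) ∈ ar c.T (orb E) := ⟨ht, mem_orb_self E, h1, hs⟩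
    have sub : ar c.T (orb (tᶜ ∩ E)) ⊆
        (fun p => (p.1, ψ p.2)) '' (ar c.T (orb E) \ {(t, E)}) := by
      rintro ⟨t', X⟩ ⟨p1, ⟨a, e | e⟩, p3, p4⟩
      · dsimp only at p1 e p3 p4
        subst e
        have hat : a • t ∈ sides c.ρ := (hv.sys.smul_mem a).2 ha.1
        have q0 : a • (tᶜ ∩ E) = (a • t)ᶜ ∩ a • E := by
          rw [Set.smul_set_inter, smul_compl_fr]
        obtain ⟨x, hx⟩ := hne t' p1
        refine ⟨(t', a • E), ⟨⟨p1, smul_mem_orb a (mem_orb_self E), fun q => ?_, ?_⟩, ?_⟩,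
          Prod.ext rfl (hψ a).1⟩
        · rw [q0] at p3 p4
          have q1 : (1 : Fr ι) ∉ (a • t)ᶜ := fun r => p3 ⟨r, q⟩
          rcases (hv.adj t' p1).2.2 _ (hv.sys.compl_mem.2 hat) q1 with r | r
          · exact p4.2 (Set.inter_subset_left.trans r)
          · exact Set.disjoint_left.1 r (p4.1 hx).1 hx
        · exact p4.trans_subset (Set.smul_set_mono Set.inter_subset_right)
        · intro q
          obtain ⟨rfl, q2⟩ := Prod.mk.inj q
          rw [hE.eq_one q2, one_smul] at p4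
          exact (p4.1 hx).1 hx
      · dsimp only at p1 e p3 p4
        subst e
        have hat : a • t ∈ sides c.ρ := (hv.sys.smul_mem a).2 ha.1
        have q0 : a • (tᶜ ∩ E)ᶜ = a • t ∪ a • Eᶜ := by
          rw [Set.compl_inter, compl_compl, Set.smul_set_union]
        rw [q0] at p3 p4
        have q1 : (1 : Fr ι) ∉ a • t := fun r => p3 (Or.inl r)
        have q2 : (1 : Fr ι) ∉ a • Eᶜ := fun r => p3 (Or.inr r)
        have hm : a • Eᶜ ∈ orb E := smul_mem_orb a (compl_mem_orb (mem_orb_self E))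
        have ha' := hv.adj t' p1
        refine ⟨(t', a • Eᶜ), ⟨⟨p1, hm, q2, ?_⟩, ?_⟩, Prod.ext rfl (hψ a).2⟩
        · rcases ha'.2.2 _ hat q1 with r | r
          · exfalso
            rcases (hI t' ha'.1 _ hm).of_notMem ha'.2.1 q2 with r' | r' | r'
            · have e : t' = a • t := Set.Subset.antisymm
                (fun x hx => (p4.1 hx).resolve_right (Set.disjoint_left.1 r' hx)) r
              have e' : t' = t := hv.ntr t' p1 t ht ⟨a, e⟩
              rw [e'] at e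
              rw [(hv.sys.isSph ha.1).eq_one e.symm, one_smul] at q2
              exact q2 h1
            · obtain ⟨x, hx⟩ := hne t ht
              have := r' (r (Set.smul_mem_smul_set (a := a) hx))
              rw [Set.smul_mem_smul_set_iff] at this
              exact this (hs.1 hx)
            · exact p4.2 (Set.union_subset r r')
          · refine ⟨fun x hx => (p4.1 hx).resolve_left fun r' => Set.disjoint_left.1 r r' hx,
              fun r' => ?_⟩
            have e : a • Eᶜ = t' := Set.Subset.antisymm r'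
              (fun x hx => (p4.1 hx).resolve_left fun r' => Set.disjoint_left.1 r r' hx)
            have : E ∈ sides c.ρ :=
              hv.sys.compl_mem.1 ((hv.sys.smul_mem a).1 (e ▸ ha'.1))
            exact (hv.sys.adj_iff.1 ha).2.2 E this h1 hs
        · intro q
          have q3 := (Prod.mk.inj q).2
          exact hE.not_tr_compl (g := a⁻¹) (by rw [inv_smul_eq_iff, q3])
    calc _ ≤ _ := Set.ncard_le_ncard sub ((hf.subset Set.sdiff_subset).image _)
      _ ≤ _ := Set.ncard_image_le (hf.subset Set.sdiff_subset)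
      _ < _ := Set.ncard_sdiff_singleton_lt_of_mem h0 hf

theorem step2 {c : Cfg ι} (hv : Valid c) (β : Au ι) (hI : ∀ s, I2 c.ρ (bs β s))
    (h : ¬ ∀ s, ar c.T (bs β s) = ∅) :
    ∃ s C, Sw β c.A s C ∧ I2 c.ρ (orb C) ∧
      (ar c.T (orb C)).ncard < (ar c.T (bs β s)).ncard := by
  have hne : ∀ t' ∈ c.T, t'.Nonempty := fun t' h => (hv.sys.isSph (hv.adj t' h).1).1
  obtain ⟨s, hs⟩ := not_forall.1 h
  obtain ⟨⟨t, X⟩, ht, p2, p3, p4⟩ := Set.nonempty_iff_ne_empty.2 hs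
  obtain ⟨g0, b0, e⟩ := (mem_orb_hl β).1 p2
  have ha := hv.adj t ht
  obtain ⟨E, ⟨⟨g, k, rfl⟩, h1, h2⟩, hmin⟩ :=
    (finite_around β (hne t ht)).exists_minimal ⟨X, ⟨g0, _, e⟩, p3, p4⟩
  obtain ⟨P', hP', hD⟩ := corner_ideal β (P := t) g k (fun h' hne' => by
    have sub := inner_ssubset β g hne'
    have q1 : (1 : Fr ι) ∉ (g * sl β k) • hl β h' := fun q => h1 (sub.1 q)
    rcases (hI h'.1 t ha.1 _ (smul_hl_mem_bs β (g * sl β k) h')).of_notMem ha.2.1 q1 with
      q | q | q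
    · exact Or.inr q.symm
    · refine Or.inl ?_
      by_contra r
      exact sub.2 (hmin ⟨⟨_, _, rfl⟩, q1, q, r⟩ sub.1)
    · exact Or.inl q)
  have hf : (ar c.T (orb (g • hl β k))).Finite := by
    rw [orb_smul_hl]; exact finite_ar β hv.fin hne _
  rcases hP' with rfl | rfl
  · refine ⟨k.1, _, sw_corner β hv.dg ha.1 hD, ?_, ?_⟩
    · rw [Set.inter_eq_left.2 h2.1]; exact i2_side hv.sys ha.1
    · rw [Set.inter_eq_left.2 h2.1, ar_side hv (orb_subset_sides hv.sys ha.1), Set.ncard_empty,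
        ← orb_smul_hl β g k, Set.ncard_pos hf]
      exact ⟨(P', g • hl β k), ht, mem_orb_self _, h1, h2⟩
  · have := diff_step hv ht ((isSph_hl β k).of_mem_orb (smul_mem_orb g (mem_orb_self _))) h1 h2
      (by rw [orb_smul_hl]; exact hI _) hf
    rw [orb_smul_hl β g k] at this
    exact ⟨k.1, _, sw_corner β hv.dg (hv.sys.compl_mem.2 ha.1) hD, this.1, this.2⟩

theorem adapt {c : Cfg ι} (hv : Valid c) : ∃ β : Au ι, Adapted β c := by
  classical
  obtain ⟨β0, h0⟩ := hv.pb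
  obtain ⟨β1, h1, -, g1⟩ := descend c.A (fun o => crs c.ρ (rep o)) (fun _ => True)
    (fun β => ∀ s, I2 c.ρ (bs β s)) (fun β _ _ h => by
      obtain ⟨s, C, p, q⟩ := step1 hv.sys hv.dg β h
      exact ⟨s, C, p, trivial, q⟩) β0 h0 (fun _ => trivial)
  obtain ⟨β2, h2, g2, g2'⟩ := descend c.A (fun o => (ar c.T o).ncard) (I2 c.ρ)
    (fun β => ∀ s, ar c.T (bs β s) = ∅) (fun β _ hI h => step2 hv β hI h) β1 h1 g1
  obtain ⟨β, h3, g3, g3'⟩ := descend c.A (fun o => if o ⊆ sides c.ρ then 0 else 1)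
    (fun o => I2 c.ρ o ∧ ar c.T o = ∅)
    (fun β => ∀ D, ideal β D ∈ sides c.ρ → ∀ s, ¬ ((s, true) ∈ D ↔ (s, false) ∈ D) →
      hl β (s, true) ∈ sides c.ρ) (fun β _ _ h => by
      obtain ⟨D, p1, s, p2, p3⟩ : ∃ D, ideal β D ∈ sides c.ρ ∧ ∃ s,
          ¬ ((s, true) ∈ D ↔ (s, false) ∈ D) ∧ hl β (s, true) ∉ sides c.ρ := by
        by_contra q
        exact h fun D p1 s p2 => by_contra fun r => q ⟨D, p1, s, p2, r⟩
      have sub := orb_subset_sides hv.sys p1
      refine ⟨s, ideal β D, ⟨⟨D, mem_orb_self _, p2⟩, fun s' _ ha => ?_⟩,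
        ⟨i2_side hv.sys p1, ar_side hv sub⟩, ?_⟩
      · exact mem_Dg_sep.1 (hv.dg _ ha) _ p1
      · rw [if_pos sub, if_neg fun q => p3 (q (mem_orb_self _))]
        exact Nat.zero_lt_one) β2 h2 (fun s => ⟨g2 s, g2' s⟩)
  have hc : ∀ P ∈ sides c.ρ, Compat β P := fun P hP g h =>
    (g3 h.1).1 P hP _ (smul_hl_mem_bs β g h)
  refine ⟨β, h3, fun o ho => ?_, fun t ht => ?_, g3'⟩
  · obtain ⟨P, hP, rfl⟩ := hv.sys.2.1 o ho
    obtain ⟨D, -, hD⟩ := (hc P (mem_sides.2 ⟨_, ho, mem_orb_self P⟩)).exists_ideal β hP.1 hP.2.1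
    exact ⟨D, hD⟩
  · have ha := hv.adj t ht
    refine (hc t ha.1).eq_ideal β ha.2.1 fun h q => ?_
    have : (t, hl β h) ∈ ar c.T (bs β h.1) :=
      ⟨ht, hl_mem_orb β h.1 h.2 true, one_notMem_hl β h, q⟩
    rw [(g3 h.1).2] at this
    exact this

end JAdapt

theorem p_adapt : S_adapt := fun _ _ _ _ hv => JAdapt.adapt hv

theorem p_dual : S_dual := by
  intro ι _ _ A X d k hA hX ha hd
  have hv : Valid (⟨A, {orb X}, ∅⟩ : Cfg ι) := by
    refine ⟨hA, ⟨Set.finite_singleton _, ?_, ?_⟩, fun a h => ?_, Set.finite_empty,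
      fun _ h => h.elim, fun _ h => h.elim⟩
    · rintro o rfl
      exact ⟨X, hX, rfl⟩
    · rw [sides_singleton]; exact hX.2.2.2
    · show a ∈ Dg (sides {orb X})
      rw [sides_singleton, mem_Dg_orb]; exact ha a h
  obtain ⟨β, hβ⟩ := JAdapt.adapt hv
  obtain ⟨D, hD⟩ := hβ.ideals (orb X) rfl
  have hp : pair X d ≠ 0 := by
    by_cases q : k ∈ X
    · rw [pair_of_sep_out hd q]; decide
    · rw [pair_of_sep_in hd q]; decide
  obtain ⟨s, hs⟩ : ∃ s, ¬ ((s, true) ∈ D ↔ (s, false) ∈ D) := by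
    by_contra q
    have e : cls (ideal β D) = 0 :=
      AddSubgroup.mem_bot.1 (cls_ideal_mem β ⊥ fun s r => absurd ⟨s, r⟩ q)
    have e' : cls X = 0 := by
      rcases cls_of_mem_orb hD with r | r
      · rw [← r, e]
      · rw [e] at r; exact neg_eq_zero.1 r.symm
    exact hp (by rw [← cls_dot hX.2.2.1, e', zero_dotProduct])
  have hh : hl β (s, true) ∈ orb X := by
    have := hβ.max D (by show _ ∈ sides {orb X}; rw [sides_singleton]; exact hD) s hs
    rwa [show (⟨A, {orb X}, ∅⟩ : Cfg ι).ρ = {orb X} from rfl, sides_singleton] at this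
  obtain ⟨g, hg⟩ : ∃ g : Fr ι, ∀ z, sep (hl β (s, true)) z = g • sep X z := by
    obtain ⟨g, e | e⟩ := hh
    · exact ⟨g, fun z => by rw [e, sep_smul]⟩
    · exact ⟨g, fun z => by rw [e, sep_smul, sep_compl]⟩
  obtain ⟨u, hu, w, hw, b, e⟩ := exists_of_sep_hl β (s := s) (d := d) (k := g • k)
    (by rw [hg, hd, Set.smul_set_singleton])
  obtain ⟨γ, h1, h2⟩ := exists_aut_nielsen β {s}ᶜ (fun _ => d) (fun s' hs' => by
    obtain rfl : s' = s := by simpa using hs'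
    exact ⟨u, hu, w, hw, b, e⟩)
  refine ⟨⟨γ * β, ?_⟩, fun q => ?_⟩
  · rintro a (rfl | h)
    · exact ⟨s, by rw [letter_mul, h2 s (by simp)]⟩
    · obtain ⟨s', rfl⟩ := hβ.letters h
      refine ⟨s', (letter_mul γ β s').trans (h1 s' ?_)⟩
      rintro rfl
      have := hg (letter β s')
      rw [ha _ h, Set.smul_set_empty, ← sl_true, sep_hl_self] at this
      exact Set.singleton_ne_empty _ this
  · rw [ha d q] at hd
    exact Set.singleton_ne_empty _ hd.symm

end Pool.Agent.Lib.MP_49df17_al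
end
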