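import Pool.Agent.Lib.MP_49df17_al.FTreeA
import Pool.Agent.Lib.MP_49df17_al.Core

-- part Pool.Agent.Lib.MP_49df17_al.FTreeB
section

/-!
Half trees and ideal sets of a basis.
-/

set_option linter.unusedSectionVars false

namespace Pool.Agent.Lib.MP_49df17_al

open Matrix
open scoped Pointwise

variable {ι κ : Type} [DecidableEq κ] (β : Fr κ ≃* Fr ι)

theorem sl_true (s : κ) : sl β (s, true) = letter β s := rfl
theorem sl_false (s : κ) : sl β (s, false) = (letter β s)⁻¹ := by
  rw [letter, ← map_inv]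
  rfl
theorem sl_opp (h : κ × Bool) : sl β (h.1, !h.2) = (sl β h)⁻¹ := by
  obtain ⟨s, _ | _⟩ := h
  · rw [sl_false, inv_inv]
    rfl
  · exact sl_false β s
theorem FTreeB.mem_hl {g : Fr ι} {h : κ × Bool} :
    g ∈ hl β h ↔ (β.symm g).toWord.head? = some h := by simp [hl, ideal]

open FTreeB

theorem FTreeB.toWord_sl (h : κ × Bool) : (β.symm (sl β h)).toWord = [h] := by
  rw [sl, MulEquiv.symm_apply_apply, FreeGroup.toWord_mk, FreeGroup.reduce_singleton]
theorem sl_ne_one (h : κ × Bool) : sl β h ≠ 1 := fun e => by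
  simpa [e] using toWord_sl β h
theorem sl_injective : Function.Injective (sl β) := fun h h' e => by
  have := toWord_sl β h
  rw [e, toWord_sl] at this
  simpa using this.symm
theorem one_notMem_ideal (D : Set (κ × Bool)) : 1 ∉ ideal β D := by
  simp [ideal]
theorem one_notMem_hl (h : κ × Bool) : 1 ∉ hl β h := one_notMem_ideal β _
theorem mem_ideal_iff {D : Set (κ × Bool)} {g : Fr ι} :
    g ∈ ideal β D ↔ ∃ h ∈ D, g ∈ hl β h := by
  simp only [mem_hl]
  rfl
theorem exists_mem_hl {g : Fr ι} (hg : g ≠ 1) : ∃ h, g ∈ hl β h := by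
  have h : (β.symm g).toWord ≠ [] := by simpa using hg
  exact ⟨_, (mem_hl β).2 (List.head?_eq_some_head h)⟩
theorem mem_hl_unique {g : Fr ι} {h h' : κ × Bool} (h1 : g ∈ hl β h) (h2 : g ∈ hl β h') :
    h = h' := by
  rw [mem_hl] at h1 h2
  exact Option.some_injective _ (h1.symm.trans h2)
theorem mem_ideal_of_hl {D : Set (κ × Bool)} {g : Fr ι} {h : κ × Bool} (hg : g ∈ hl β h) :
    g ∈ ideal β D ↔ h ∈ D := by
  rw [mem_ideal_iff]
  exact ⟨fun ⟨h', a, b⟩ => mem_hl_unique β b hg ▸ a, fun a => ⟨h, a, hg⟩⟩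
theorem sl_mem_ideal {D : Set (κ × Bool)} {h : κ × Bool} : sl β h ∈ ideal β D ↔ h ∈ D :=
  mem_ideal_of_hl β ((mem_hl β).2 (by rw [toWord_sl]; rfl))
theorem sl_mem_hl (h : κ × Bool) : sl β h ∈ hl β h := (sl_mem_ideal β).2 rfl
theorem ideal_empty : ideal β ∅ = ∅ := by
  simp [ideal]
theorem ideal_union (D D' : Set (κ × Bool)) : ideal β (D ∪ D') = ideal β D ∪ ideal β D' := by
  ext g
  simp only [mem_ideal_iff, Set.mem_union, or_and_right, exists_or]
theorem ideal_subset_iff {D D' : Set (κ × Bool)} : ideal β D ⊆ ideal β D' ↔ D ⊆ D' :=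
  ⟨fun h _ a => (sl_mem_ideal β).1 (h ((sl_mem_ideal β).2 a)),
    fun h _ ⟨x, a, b⟩ => ⟨x, h a, b⟩⟩
theorem ideal_disjoint_iff {D D' : Set (κ × Bool)} :
    Disjoint (ideal β D) (ideal β D') ↔ Disjoint D D' := by
  simp only [Set.disjoint_left]
  refine ⟨fun h x a b => h ((sl_mem_ideal β).2 a) ((sl_mem_ideal β).2 b), fun h g a b => ?_⟩
  obtain ⟨x, a, c⟩ := (mem_ideal_iff β).1 a
  exact h a ((mem_ideal_of_hl β c).1 b)
theorem ideal_injective : Function.Injective (ideal β) := fun _ _ e =>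
  ((ideal_subset_iff β).1 e.le).antisymm ((ideal_subset_iff β).1 e.ge)
theorem ideal_nonempty_iff {D : Set (κ × Bool)} : (ideal β D).Nonempty ↔ D.Nonempty :=
  ⟨fun ⟨_, x, a, _⟩ => ⟨x, a⟩, fun ⟨_, a⟩ => ⟨_, (sl_mem_ideal β).2 a⟩⟩
theorem hl_subset_ideal {D : Set (κ × Bool)} {h : κ × Bool} : hl β h ⊆ ideal β D ↔ h ∈ D := by
  rw [hl, ideal_subset_iff, Set.singleton_subset_iff]
theorem compl_ideal (D : Set (κ × Bool)) : (ideal β D)ᶜ = insert 1 (ideal β Dᶜ) := by
  ext g
  by_cases hg : g = 1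
  · simp [hg, one_notMem_ideal]
  · obtain ⟨h, e⟩ := exists_mem_hl β hg
    simp [hg, mem_ideal_of_hl β e]
theorem ideal_aut (γ : Au ι) (D : Set (κ × Bool)) : γ • ideal β D = ideal (β.trans γ) D := by
  ext g
  rw [mem_smul_au]
  rfl
theorem hl_aut (γ : Au ι) (h : κ × Bool) : γ • hl β h = hl (β.trans γ) h := ideal_aut β γ _
theorem hv_aut (γ : Au ι) (s : κ) : γ • hv β s = hv (β.trans γ) s :=
  Prod.ext (letter_trans β γ s).symm (hl_aut β γ _)

namespace FTreeB

theorem opp_opp (h : κ × Bool) : ((h.1, !h.2).1, !(h.1, !h.2).2) = h := by simp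

theorem toWord_sl_mul {h : κ × Bool} {g : Fr ι} (hg : g ∉ hl β (h.1, !h.2)) :
    (β.symm (sl β h * g)).toWord = h :: (β.symm g).toWord := by
  rw [map_mul, FreeGroup.toWord_mul, toWord_sl]
  refine FreeGroup.IsReduced.reduce_eq ?_
  have hr := FreeGroup.isReduced_toWord (x := β.symm g)
  rw [mem_hl] at hg
  generalize (β.symm g).toWord = l at hg hr
  rcases l with _ | ⟨a, l⟩
  · exact FreeGroup.IsReduced.singleton
  · refine FreeGroup.isReduced_cons_cons.2 ⟨fun e => ?_, hr⟩
    by_contra e'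
    exact hg (congrArg some (Prod.ext e.symm (Bool.eq_not_iff.2 (Ne.symm e'))))

theorem tail_of_toWord {h : κ × Bool} {l : List (κ × Bool)} {g : Fr ι}
    (e : (β.symm g).toWord = h :: l) : ∃ g', g = sl β h * g' ∧ g' ∉ hl β (h.1, !h.2) ∧
      (β.symm g').toWord = l := by
  have hr := FreeGroup.isReduced_toWord (x := β.symm g)
  rw [e] at hr
  have h1 : (β.symm (β (FreeGroup.mk l))).toWord = l := by
    rw [MulEquiv.symm_apply_apply, FreeGroup.toWord_mk]
    exact FreeGroup.IsReduced.reduce_eq (List.IsChain.tail hr)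
  refine ⟨β (FreeGroup.mk l), ?_, ?_, h1⟩
  · rw [sl, ← map_mul, FreeGroup.mul_mk, List.singleton_append, ← e, FreeGroup.mk_toWord,
      MulEquiv.apply_symm_apply]
  · rw [mem_hl, h1]
    rcases l with _ | ⟨a, l⟩
    · simp
    · intro e'
      have h2 := (FreeGroup.isReduced_cons_cons.1 hr).1
      obtain rfl : a = (h.1, !h.2) := Option.some_injective _ e'
      simp at h2

end FTreeB

/-- Removing the first letter shortens a word, and the rest does not start with its inverse. -/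
theorem hl_induction {C : Fr ι → Prop} (h1 : C 1)
    (h2 : ∀ h g, g ∉ hl β (h.1, !h.2) → C g → C (sl β h * g)) (g : Fr ι) : C g := by
  generalize e : (β.symm g).toWord = l
  induction l generalizing g with
  | nil =>
    obtain rfl : g = 1 := by simpa using e
    exact h1
  | cons h l ih =>
    obtain ⟨g', rfl, a, b⟩ := tail_of_toWord β e
    exact h2 h g' a (ih g' b)
theorem sl_mul_mem_hl {h : κ × Bool} {g : Fr ι} :
    sl β h * g ∈ hl β h ↔ g ∉ hl β (h.1, !h.2) := by
  refine ⟨fun a b => ?_, fun a => (mem_hl β).2 (by rw [toWord_sl_mul β a]; rfl)⟩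
  obtain ⟨l, e⟩ := List.head?_eq_some_iff.1 ((mem_hl β).1 b)
  obtain ⟨g', rfl, c, -⟩ := tail_of_toWord β e
  rw [sl_opp, mul_inv_cancel_left] at a
  exact c (by rwa [opp_opp])
theorem FTreeB.mul_sl_mem_hl {h h' : κ × Bool} {k : Fr ι} (hk : k ∈ hl β h) (h1 : k * sl β h' ≠ 1) :
    k * sl β h' ∈ hl β h := by
  induction k using hl_induction β generalizing h with
  | h1 => exact absurd hk (one_notMem_hl β h)
  | h2 a g hg ih =>
    obtain rfl := mem_hl_unique β hk ((sl_mul_mem_hl β).2 hg)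
    rw [mul_assoc, sl_mul_mem_hl]
    intro e
    by_cases g1 : g = 1
    · rw [g1, one_mul] at e
      rw [g1, mul_one, mem_hl_unique β (sl_mem_hl β h') e, sl_opp, mul_inv_cancel] at h1
      exact h1 rfl
    · obtain ⟨b, hb⟩ := exists_mem_hl β g1
      have := ih hb fun e' => one_notMem_hl β _ (e' ▸ e)
      exact hg (mem_hl_unique β this e ▸ hb)

/-- The crossing edges of an ideal set start or end at `1`. -/
theorem mem_sep_ideal {D : Set (κ × Bool)} {h : κ × Bool} {k : Fr ι} :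
    k ∈ sep (ideal β D) (sl β h) ↔
      (k = 1 ∧ h ∈ D) ∨ (k = (sl β h)⁻¹ ∧ (h.1, !h.2) ∈ D) := by
  have h0 : (sl β h)⁻¹ ≠ 1 := inv_ne_one.2 (sl_ne_one β h)
  by_cases k1 : k = 1
  · simp [k1, sep, one_notMem_ideal, sl_mem_ideal, h0.symm]
  by_cases k2 : k = (sl β h)⁻¹
  · have : k ∈ ideal β D ↔ (h.1, !h.2) ∈ D := by rw [k2, ← sl_opp, sl_mem_ideal]
    simp only [sep, Set.mem_ofPred_eq, this, k1, false_and, false_or]
    simp [k2, one_notMem_ideal]
  · obtain ⟨a, ha⟩ := exists_mem_hl β k1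
    have hb := mul_sl_mem_hl β ha (h' := h) fun e => k2 (eq_inv_of_mul_eq_one_left e)
    simp [sep, k1, k2, mem_ideal_of_hl β ha, mem_ideal_of_hl β hb]
theorem mem_sep_ideal_letter {D : Set (κ × Bool)} {s : κ} {k : Fr ι} :
    k ∈ sep (ideal β D) (letter β s) ↔
      (k = 1 ∧ (s, true) ∈ D) ∨ (k = (letter β s)⁻¹ ∧ (s, false) ∈ D) := mem_sep_ideal β (h := (s, true))
theorem sep_ideal_eq_empty {D : Set (κ × Bool)} {s : κ} :
    sep (ideal β D) (letter β s) = ∅ ↔ (s, true) ∉ D ∧ (s, false) ∉ D := by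
  simp only [Set.eq_empty_iff_forall_notMem, mem_sep_ideal_letter]
  exact ⟨fun h => ⟨fun a => h _ (Or.inl ⟨rfl, a⟩), fun a => h _ (Or.inr ⟨rfl, a⟩)⟩,
    fun h _ a => a.elim (fun a => h.1 a.2) fun a => h.2 a.2⟩
theorem sep_hl_self (h : κ × Bool) : sep (hl β h) (sl β h) = {1} := by
  ext k
  rw [hl, mem_sep_ideal]
  simp [Prod.ext_iff]
theorem sep_hl_ne {h : κ × Bool} {s : κ} (hs : s ≠ h.1) : sep (hl β h) (letter β s) = ∅ :=
  (sep_ideal_eq_empty β).2 ⟨fun e => hs (congrArg Prod.fst e), fun e => hs (congrArg Prod.fst e)⟩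
/-- An ideal set is determined by its crossing edges. -/
theorem eq_ideal_of_sep {P : Set (Fr ι)} {D : Set (κ × Bool)} (h1 : 1 ∉ P)
    (h : ∀ s k, k ∈ sep P (letter β s) ↔
      (k = 1 ∧ (s, true) ∈ D) ∨ (k = (letter β s)⁻¹ ∧ (s, false) ∈ D)) : P = ideal β D :=
  eq_of_sep β (iff_of_false h1 (one_notMem_ideal β D)) fun s =>
    Set.ext fun k => (h s k).trans (mem_sep_ideal_letter β).symm
theorem eq_hl_of_sep {P : Set (Fr ι)} {h : κ × Bool} (h1 : 1 ∉ P) (h2 : sep P (sl β h) = {1})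
    (h3 : ∀ s, s ≠ h.1 → sep P (letter β s) = ∅) : P = hl β h := by
  refine eq_of_sep β (iff_of_false h1 (one_notMem_hl β h)) fun s => ?_
  by_cases hs : s = h.1
  · rw [← sep_hl_self β h] at h2
    obtain ⟨s', _ | _⟩ := h
    · obtain rfl : s = s' := hs
      ext k
      rw [← inv_inv (letter β s), ← sl_false, mem_sep_inv, mem_sep_inv, h2]
    · obtain rfl : s = s' := hs
      exact h2
  · rw [h3 s hs, sep_hl_ne β hs]
theorem hl_opp (h : κ × Bool) : hl β h = sl β h • (hl β (h.1, !h.2))ᶜ := by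
  ext g
  rw [mem_smul_fr, Set.mem_compl_iff, ← sl_mul_mem_hl, mul_inv_cancel_left]
theorem hl_mem_orb (s : κ) (b b' : Bool) : hl β (s, b) ∈ orb (hl β (s, b')) := by
  by_cases e : b = b'
  · exact e ▸ mem_orb_self _
  · obtain rfl : b' = !b := Bool.eq_not_iff.2 (Ne.symm e)
    exact ⟨_, Or.inr (hl_opp β (s, b))⟩
theorem orb_hl (s : κ) (b : Bool) : orb (hl β (s, b)) = orb (hl β (s, true)) := orb_eq_of_mem (hl_mem_orb β s b true)
/-- Every side of a basis sphere is a translate of a half tree. -/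
theorem mem_orb_hl {s : κ} {X : Set (Fr ι)} :
    X ∈ orb (hl β (s, true)) ↔ ∃ (g : Fr ι) (b : Bool), X = g • hl β (s, b) := by
  refine ⟨?_, fun ⟨g, b, e⟩ => e ▸ smul_mem_orb g (hl_mem_orb β s b true)⟩
  rintro ⟨g, e | e⟩
  · exact ⟨g, true, e⟩
  · refine ⟨g * (sl β (s, false))⁻¹, false, ?_⟩
    rw [e, hl_opp β (s, false), mul_smul, inv_smul_smul]
    rfl
/-- The half trees at the far end of an edge lie in the half tree of the edge. -/
theorem smul_hl_subset {h h' : κ × Bool} (hne : h' ≠ (h.1, !h.2)) :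
    sl β h • hl β h' ⊂ hl β h := by
  refine ⟨fun g hg => ?_, fun e => ?_⟩
  · rw [mem_smul_fr] at hg
    rw [← mul_inv_cancel_left (sl β h) g, sl_mul_mem_hl]
    exact fun e => hne (mem_hl_unique β hg e)
  · have := e (sl_mem_hl β h)
    rw [mem_smul_fr, inv_mul_cancel] at this
    exact one_notMem_hl β _ this
theorem hl_eq_insert (h : κ × Bool) :
    hl β h = sl β h • insert 1 (ideal β {h' | h' ≠ (h.1, !h.2)}) := by
  rw [hl_opp β h, hl, compl_ideal]
  rfl
theorem FTreeB.inv_mul_mem_hl {g a : Fr ι} {h h' : κ × Bool} (hg : g ∈ hl β h) (ha : a ∉ hl β h)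
    (h1 : g⁻¹ ∈ hl β h') : g⁻¹ * a ∈ hl β h' := by
  induction g using hl_induction β generalizing a h h' with
  | h1 => exact absurd hg (one_notMem_hl β h)
  | h2 b g hb ih =>
    obtain rfl := mem_hl_unique β hg ((sl_mul_mem_hl β).2 hb)
    have h2 : sl β (h.1, !h.2) * a ∈ hl β (h.1, !h.2) :=
      (sl_mul_mem_hl β).2 (by rwa [opp_opp])
    have h3 := sl_mem_hl β (h.1, !h.2)
    rw [_root_.mul_inv_rev, ← sl_opp] at h1 ⊢
    rw [mul_assoc]
    by_cases g1 : g = 1
    · rw [g1, inv_one, one_mul] at h1 ⊢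
      exact mem_hl_unique β h3 h1 ▸ h2
    · obtain ⟨c, hc⟩ := exists_mem_hl β g1
      obtain ⟨d, hd⟩ := exists_mem_hl β (inv_ne_one.2 g1)
      have h4 := ih hc (fun e => hb (mem_hl_unique β e h3 ▸ hc)) hd
      exact mem_hl_unique β h4 h1 ▸ ih hc (fun e => hb (mem_hl_unique β e h2 ▸ hc)) hd
/-- A translate of an ideal set or of its complement that misses `1` lies in a half tree. -/
theorem smul_ideal_subset {D : Set (κ × Bool)} {g : Fr ι} {h : κ × Bool} (hg : g ∈ hl β h)
    {Q : Set (Fr ι)} (hQ : Q = g • ideal β D ∨ Q = g • (ideal β D)ᶜ) (h1 : 1 ∉ Q) :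
    Q ⊆ hl β h := by
  intro a ha
  by_contra hn
  obtain ⟨d, hd⟩ := exists_mem_hl β (g := g⁻¹)
    (inv_ne_one.2 fun e => one_notMem_hl β h (e ▸ hg))
  have e : g⁻¹ * a ∈ ideal β D ↔ g⁻¹ * 1 ∈ ideal β D := by
    rw [mul_one, mem_ideal_of_hl β hd, mem_ideal_of_hl β (inv_mul_mem_hl β hg hn hd)]
  rcases hQ with rfl | rfl
  · exact h1 (mem_smul_fr.2 (e.1 (mem_smul_fr.1 ha)))
  · exact h1 (mem_smul_fr.2 fun x => mem_smul_fr.1 ha (e.2 x))
theorem mem_orb_ideal {D : Set (κ × Bool)} {Q : Set (Fr ι)} (hQ : Q ∈ orb (ideal β D))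
    (h1 : 1 ∉ Q) : Q = ideal β D ∨ ∃ h, Q ⊆ hl β h := by
  obtain ⟨g, hQ⟩ := hQ
  by_cases g1 : g = 1
  · rw [g1, one_smul, one_smul] at hQ
    exact Or.inl (hQ.resolve_right fun e => h1 (e ▸ one_notMem_ideal β D))
  · obtain ⟨h, hg⟩ := exists_mem_hl β g1
    exact Or.inr ⟨h, smul_ideal_subset β hg hQ h1⟩
theorem FTreeB.hl_subset_or_disjoint (h : κ × Bool) (D : Set (κ × Bool)) :
    hl β h ⊆ ideal β D ∨ Disjoint (hl β h) (ideal β D) := by
  by_cases e : h ∈ D
  · exact Or.inl ((hl_subset_ideal β).2 e)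
  · exact Or.inr ((ideal_disjoint_iff β).2 (Set.disjoint_singleton_left.2 e))
theorem nest_orb_ideal {D D' : Set (κ × Bool)} (h : Disjoint D D' ∨ D ⊆ D' ∨ D' ⊆ D) :
    ∀ X ∈ orb (ideal β D), ∀ Y ∈ orb (ideal β D'), Nest X Y := by
  have key : ∀ X ∈ orb (ideal β D), 1 ∉ X → Nest X (ideal β D') := fun X hX h1 => by
    rcases mem_orb_ideal β hX h1 with rfl | ⟨a, ha⟩
    · exact h.imp (ideal_disjoint_iff β).2
        (Or.imp (ideal_subset_iff β).2 fun e => Or.inl ((ideal_subset_iff β).2 e))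
    · rcases hl_subset_or_disjoint β a D' with e | e
      · exact Or.inr (Or.inl (ha.trans e))
      · exact Or.inl (e.mono_left ha)
  refine nest_orb fun X hX => ?_
  by_cases h1 : 1 ∈ X
  · exact compl_compl X ▸ (key Xᶜ (compl_mem_orb hX) (not_not.2 h1)).compl_left
  · exact key X hX h1
theorem nest_ideal_iff {D D' : Set (κ × Bool)} :
    Nest (ideal β D) (ideal β D') ↔ Disjoint D D' ∨ D ⊆ D' ∨ D' ⊆ D := by
  refine ⟨fun h => ?_, fun h => nest_orb_ideal β h _ (mem_orb_self _) _ (mem_orb_self _)⟩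
  simpa only [ideal_disjoint_iff, ideal_subset_iff] using
    h.of_notMem (one_notMem_ideal β D) (one_notMem_ideal β D')
theorem ai_ideal (D : Set (κ × Bool)) : AI (ideal β D) :=
  AI.of_letters β fun s => (Set.toFinite {1, (letter β s)⁻¹}).subset fun _ hk =>
    ((mem_sep_ideal_letter β).1 hk).imp And.left And.left
theorem isSph_ideal {D : Set (κ × Bool)} (h : D.Nonempty) : IsSph (ideal β D) :=
  ⟨(ideal_nonempty_iff β).2 h, ⟨1, one_notMem_ideal β D⟩, ai_ideal β D,
    nest_orb_ideal β (Or.inr (Or.inl subset_rfl))⟩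
theorem isSph_hl (h : κ × Bool) : IsSph (hl β h) := isSph_ideal β (Set.singleton_nonempty h)
theorem compat_of_mem_orb_ideal {D : Set (κ × Bool)} {Q : Set (Fr ι)} (hQ : Q ∈ orb (ideal β D)) :
    Compat β Q := by
  intro g h
  refine nest_orb_ideal β (D' := {h}) ?_ Q hQ _ (smul_mem_orb g (mem_orb_self _))
  by_cases e : h ∈ D
  · exact Or.inr (Or.inr (Set.singleton_subset_iff.2 e))
  · exact Or.inl (Set.disjoint_singleton_right.2 e)
theorem Compat.of_mem_orb {P Q : Set (Fr ι)} (h : Compat β P) (hQ : Q ∈ orb P) : Compat β Q := by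
  intro g a
  obtain ⟨c, e⟩ := hQ
  have := h (c⁻¹ * g) a
  rcases e with rfl | rfl
  · rwa [← nest_smul c, smul_smul, mul_inv_cancel_left] at this
  · have := this.compl_left
    rwa [← nest_smul c, smul_smul, mul_inv_cancel_left] at this
theorem Compat.nest_orb_hl {P : Set (Fr ι)} (h : Compat β P) (s : κ) :
    ∀ X ∈ orb (hl β (s, true)), Nest X P := fun X hX => by
  obtain ⟨g, b, rfl⟩ := (mem_orb_hl β).1 hX
  exact (h g _).symm
/-- A set is ideal when it misses `1` and splits no half tree. -/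
theorem exists_eq_ideal {t : Set (Fr ι)} (h1 : 1 ∉ t)
    (h : ∀ h, hl β h ⊆ t ∨ Disjoint (hl β h) t) : ∃ D, t = ideal β D := by
  refine ⟨{a | hl β a ⊆ t}, Set.ext fun g => ⟨fun hg => ?_, fun hg => ?_⟩⟩
  · obtain ⟨a, ha⟩ := exists_mem_hl β (g := g) fun e => h1 (e ▸ hg)
    exact (mem_ideal_of_hl β ha).2 ((h a).resolve_right fun e => Set.disjoint_left.1 e ha hg)
  · obtain ⟨a, ha, hb⟩ := (mem_ideal_iff β).1 hg
    exact ha hb
theorem Compat.eq_ideal {X : Set (Fr ι)} (h : Compat β X) (h1 : 1 ∉ X)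
    (h2 : ∀ h, ¬ X ⊂ hl β h) : ∃ D, X = ideal β D := by
  refine exists_eq_ideal β h1 fun a => ?_
  have := h 1 a
  rw [one_smul] at this
  rcases this.of_notMem h1 (one_notMem_hl β a) with e | e | e
  · exact Or.inr e.symm
  · exact Or.inl (not_not.1 fun e' => h2 a ⟨e, e'⟩)
  · exact Or.inl e
/-- A proper set nested with all basis spheres is a side of an ideal sphere. -/
theorem Compat.exists_ideal {P : Set (Fr ι)} (h : Compat β P) (h1 : P.Nonempty)
    (h2 : Pᶜ.Nonempty) : ∃ D, D.Nonempty ∧ ideal β D ∈ orb P := by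
  obtain ⟨s, k, hk⟩ : ∃ s k, k ∈ sep P (letter β s) := by
    by_contra hn
    have hn : ∀ s, sep P (letter β s) = ∅ := fun s =>
      Set.eq_empty_iff_forall_notMem.2 fun k hk => hn ⟨s, k, hk⟩
    by_cases e : 1 ∈ P
    · exact h2.ne_empty (eq_of_sep β (by simpa using e) fun s => by
        rw [sep_compl, hn]; simp [sep])
    · exact h1.ne_empty (eq_of_sep β (by simpa using e) fun s => by rw [hn]; simp [sep])
  obtain ⟨Q, hQ, q1, q2⟩ : ∃ Q ∈ orb P, 1 ∉ Q ∧ sl β (s, true) ∈ Q := by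
    by_cases e : k ∈ P
    · refine ⟨k⁻¹ • Pᶜ, ⟨_, Or.inr rfl⟩, ?_, ?_⟩ <;> rw [mem_smul_fr, inv_inv]
      · simpa using e
      · exact fun e' => hk (iff_of_true e e')
    · refine ⟨k⁻¹ • P, ⟨_, Or.inl rfl⟩, ?_, ?_⟩ <;> rw [mem_smul_fr, inv_inv]
      · simpa using e
      · exact not_not.1 fun e' => hk (iff_of_false e e')
  have fin : ∀ X ∈ orb P, 1 ∉ X → X.Nonempty → (∀ a, ¬ X ⊂ hl β a) →
      ∃ D, D.Nonempty ∧ ideal β D ∈ orb P := fun X hX x1 x2 x3 => by
    obtain ⟨D, rfl⟩ := Compat.eq_ideal β (h.of_mem_orb β hX) x1 x3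
    exact ⟨D, (ideal_nonempty_iff β).1 x2, hX⟩
  by_cases e : ∀ a, ¬ Q ⊂ hl β a
  · exact fin Q hQ q1 ⟨_, q2⟩ e
  obtain ⟨a, ha⟩ := not_forall_not.1 e
  obtain rfl := mem_hl_unique β (ha.1 q2) (sl_mem_hl β _)
  have hs : hl β (s, false) ⊆ sl β (s, false) • Qᶜ := by
    rw [hl_opp β (s, false)]
    exact Set.smul_set_mono (Set.compl_subset_compl.2 ha.1)
  refine fin _ (smul_mem_orb (sl β (s, false)) (compl_mem_orb hQ)) ?_
    ⟨_, hs (sl_mem_hl β _)⟩ fun a ha' => ?_
  · rw [mem_smul_fr, sl_false, inv_inv, mul_one]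
    exact not_not.2 q2
  · obtain rfl := mem_hl_unique β (ha'.1 (hs (sl_mem_hl β _))) (sl_mem_hl β _)
    exact ha'.2 hs
theorem eq_one_of_smul_ideal {D D' : Set (κ × Bool)} (hD : D.Nonempty) {g : Fr ι}
    (e : g • ideal β D = ideal β D') : g = 1 := by
  by_contra g1
  obtain ⟨a, ha⟩ := exists_mem_hl β (inv_ne_one.2 g1)
  obtain ⟨b, hb⟩ := hD
  have h1 : ideal β D ⊆ hl β a := smul_ideal_subset β ha (D := D')
    (Or.inl (by rw [← e, inv_smul_smul])) (one_notMem_ideal β D)
  obtain rfl := mem_hl_unique β (h1 ((sl_mem_ideal β).2 hb)) (sl_mem_hl β b)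
  refine one_notMem_ideal β D' (e ▸ mem_smul_fr.2 ?_)
  rw [mul_one]
  exact (mem_ideal_of_hl β ha).2 hb
theorem ideal_mem_orb_hl {D : Set (κ × Bool)} {s : κ} (h : ideal β D ∈ orb (hl β (s, true))) :
    D = {(s, true)} ∨ D = {(s, false)} := by
  obtain ⟨g, b, e⟩ := (mem_orb_hl β).1 h
  obtain rfl := eq_one_of_smul_ideal β (Set.singleton_nonempty _) e.symm
  rw [one_smul] at e
  have := ideal_injective β e
  cases b
  exacts [Or.inr this, Or.inl this]
theorem orb_hl_injective : Function.Injective fun s : κ => orb (hl β (s, true)) := fun s s' e => by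
  have h : ideal β {(s, true)} ∈ orb (hl β (s', true)) := by
    have := mem_orb_self (hl β (s, true))
    simp only at e
    rwa [e] at this
  rcases ideal_mem_orb_hl β h with e | e <;>
    exact congrArg Prod.fst (Set.singleton_injective e)
theorem not_tr_hl (s : κ) : ¬ Tr (hl β (s, true)) (hl β (s, false)) := by
  rintro ⟨g, e⟩
  obtain rfl := eq_one_of_smul_ideal β (Set.singleton_nonempty _) e.symm
  rw [one_smul] at e
  simpa using ideal_injective β e
theorem resp_orb_ideal {D D' : Set (κ × Bool)} (h : D ⊆ D' ∨ Disjoint D D') :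
    Resp (orb (ideal β D)) (ideal β D') := fun X hX h1 => by
  rcases mem_orb_ideal β hX h1 with rfl | ⟨a, ha⟩
  · exact h.imp (ideal_subset_iff β).2 (ideal_disjoint_iff β).2
  · exact (hl_subset_or_disjoint β a D').imp ha.trans fun e => e.mono_left ha
theorem resp_orb_hl (h : κ × Bool) (D' : Set (κ × Bool)) : Resp (orb (hl β h)) (ideal β D') :=
  resp_orb_ideal β (by by_cases e : h ∈ D' <;> simp [e])
theorem FTreeB.sep_hl_sl {h h' : κ × Bool} (hs : h'.1 ≠ h.1) : sep (hl β h) (sl β h') = ∅ := by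
  have := mem_Dg_orb.2 (sep_hl_ne β hs)
  rw [← mem_Dg_orb]
  obtain ⟨s, _ | _⟩ := h'
  · exact sl_false β s ▸ inv_mem this
  · exact this
theorem FTreeB.sl_mem_closure {I : Set κ} {h : κ × Bool} (hs : h.1 ∈ I) :
    sl β h ∈ Subgroup.closure (letter β '' I) := by
  have : letter β h.1 ∈ Subgroup.closure (letter β '' I) := Subgroup.subset_closure ⟨_, hs, rfl⟩
  obtain ⟨s, _ | _⟩ := h
  · exact sl_false β s ▸ inv_mem this
  · exact this
/-- An element that crosses no basis sphere of a letter outside `I` is a word in `I`. -/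
theorem mem_closure_of_sep {I : Set κ} {g : Fr ι} (h : ∀ s, s ∉ I → sep (hl β (s, true)) g = ∅) :
    g ∈ Subgroup.closure (letter β '' I) := by
  induction g using hl_induction β with
  | h1 => exact one_mem _
  | h2 a g ha ih =>
    have hI : a.1 ∈ I := by
      by_contra hn
      have := mem_Dg.1 (mem_Dg_orb.2 (h _ hn)) _ (hl_mem_orb β a.1 a.2 true) 1
      rw [one_mul] at this
      exact one_notMem_hl β a (this.2 ((sl_mul_mem_hl β).2 ha))
    refine mul_mem (sl_mem_closure β hI) (ih fun s hs => ?_)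
    have h1 := mem_Dg_orb.2 (sep_hl_sl β (h := (s, true)) (h' := a) fun e : a.1 = s => hs (e ▸ hI))
    exact mem_Dg_orb.1 ((mul_mem_cancel_left h1).1 (mem_Dg_orb.2 (h s hs)))
theorem sep_hl_of_mem_closure {I : Set κ} {g : Fr ι} (hg : g ∈ Subgroup.closure (letter β '' I))
    {h : κ × Bool} (hs : h.1 ∉ I) : sep (hl β h) g = ∅ := by
  refine mem_Dg_orb.1 ((Subgroup.closure_le _).2 ?_ hg)
  rintro _ ⟨s, hI, rfl⟩
  exact mem_Dg_orb.2 (sep_hl_ne β fun e => hs (e ▸ hI))
/-- An element that crosses a basis sphere once contains its letter once. -/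
theorem exists_of_sep_hl {s : κ} {d k : Fr ι} (h : sep (hl β (s, true)) d = {k}) :
    ∃ u ∈ Subgroup.closure (letter β '' {s}ᶜ), ∃ w ∈ Subgroup.closure (letter β '' {s}ᶜ),
      ∃ b, d = u * sl β (s, b) * w := by
  induction d using hl_induction β generalizing k with
  | h1 => exact absurd (sep_one _ ▸ h) (Set.empty_ne_singleton k)
  | h2 a g ha ih =>
    by_cases hs : a.1 = s
    · obtain ⟨s', b⟩ := a
      obtain rfl : s' = s := hs
      refine ⟨1, one_mem _, g, mem_closure_of_sep β fun t ht => ?_, b, by rw [one_mul]⟩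
      obtain rfl : t = s' := not_not.1 ht
      have h0 : sl β (t, b) * g ∈ hl β (t, b) := (sl_mul_mem_hl β).2 ha
      obtain ⟨k', hk'⟩ : ∃ k', sep (hl β (t, b)) (sl β (t, b) * g) = {k'} := by
        obtain ⟨c, e | e⟩ := hl_mem_orb β t b true
        · exact ⟨c • k, by rw [e, sep_smul, h, Set.smul_set_singleton]⟩
        · exact ⟨c • k, by rw [e, sep_smul, sep_compl, h, Set.smul_set_singleton]⟩
      have h1 : 1 ∈ sep (hl β (t, b)) (sl β (t, b) * g) := fun e =>
        one_notMem_hl β _ (e.2 (by rwa [one_mul]))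
      rw [hk'] at h1
      obtain rfl : 1 = k' := h1
      rw [← mem_Dg_orb, ← orb_hl β t b, mem_Dg_orb, Set.eq_empty_iff_forall_notMem]
      intro x hx
      have h2 := mem_sep_mul (P := hl β (t, b)) (a := sl β (t, b)) (b := g)
        (h := x * (sl β (t, b))⁻¹)
      rw [hk', sep_hl_self, inv_mul_cancel_right] at h2
      have h3 : x * (sl β (t, b))⁻¹ = 1 := by
        by_contra e
        exact e (h2.2 fun e' => e (e'.2 hx))
      obtain rfl := mul_inv_eq_one.1 h3
      exact hx (iff_of_true (sl_mem_hl β _) h0)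
    · have h1 := sep_hl_sl β (h := (s, true)) hs
      obtain ⟨u, hu, w, hw, b, e⟩ := ih (k := k * sl β a) (Set.ext fun x => by
        rw [← inv_mul_cancel_right x (sl β a), ← sep_mul_left h1, h]
        simp [mul_inv_eq_iff_eq_mul])
      exact ⟨sl β a * u, mul_mem (sl_mem_closure β hs) hu, w, hw, b, by
        rw [e, mul_assoc, mul_assoc, mul_assoc]⟩
/-- Only finitely many basis sides that miss `1` contain a given point. -/
theorem finite_hl_mem (a : Fr ι) :
    {x : Fr ι × (κ × Bool) | 1 ∉ x.1 • hl β x.2 ∧ a ∈ x.1 • hl β x.2}.Finite := by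
  induction a using hl_induction β with
  | h1 => simp
  | h2 b a _ ih =>
    refine ((Set.toFinite {(1, b), (sl β b, (b.1, !b.2))}).union
      (ih.image fun x => (sl β b * x.1, x.2))).subset ?_
    rintro ⟨g, h⟩ ⟨h1, h2⟩
    simp only [mem_smul_fr, mul_one] at h1 h2
    by_cases e : g⁻¹ * sl β b ∈ hl β h
    · have : g⁻¹ ∈ sep (ideal β {h}) (sl β b) := fun e' => h1 (e'.2 e)
      rcases (mem_sep_ideal β).1 this with ⟨e1, e2⟩ | ⟨e1, e2⟩
      · exact Or.inl (Or.inl (Prod.ext (inv_eq_one.1 e1) e2.symm))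
      · exact Or.inl (Or.inr (Prod.ext (inv_injective e1) e2.symm))
    · refine Or.inr ⟨((sl β b)⁻¹ * g, h), ⟨?_, ?_⟩, by simp⟩ <;>
        simpa [mem_smul_fr, mul_assoc]
theorem smul_hl_inj {g g' : Fr ι} {h h' : κ × Bool} (e : g • hl β h = g' • hl β h') :
    g = g' ∧ h = h' := by
  have h1 : (g'⁻¹ * g) • hl β h = hl β h' := by rw [mul_smul, e, inv_smul_smul]
  have h2 := eq_one_of_smul_ideal β (Set.singleton_nonempty _) h1
  rw [h2, one_smul] at h1
  exact ⟨(inv_mul_eq_one.1 h2).symm, Set.singleton_injective (ideal_injective β h1)⟩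
/-- Half trees are connected. -/
theorem FTreeB.hl_conn {Q : Set (Fr ι)} {h : κ × Bool}
    (hQ : ∀ k ∈ hl β h, ∀ a, k * sl β a ∈ hl β h → (k ∈ Q ↔ k * sl β a ∈ Q)) {g : Fr ι}
    (hg : g ∈ hl β h) : g ∈ Q ↔ sl β h ∈ Q := by
  induction g using hl_induction β generalizing h Q with
  | h1 => exact absurd hg (one_notMem_hl β h)
  | h2 b g hb ih =>
    obtain rfl := mem_hl_unique β hg ((sl_mul_mem_hl β).2 hb)
    by_cases g1 : g = 1
    · rw [g1, mul_one]
    obtain ⟨c, hc⟩ := exists_mem_hl β g1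
    have h1 : ∀ k ∈ hl β c, sl β h * k ∈ hl β h := fun k hk =>
      (sl_mul_mem_hl β).2 fun e => hb (mem_hl_unique β hk e ▸ hc)
    refine (ih (Q := {k | sl β h * k ∈ Q}) (fun k hk a ha => ?_) hc).trans
      (hQ _ (sl_mem_hl β h) c (h1 _ (sl_mem_hl β c))).symm
    have := hQ _ (h1 k hk) a (by rw [mul_assoc]; exact h1 _ ha)
    rwa [mul_assoc] at this
/-- An almost invariant set crosses finitely many translates of half trees. -/
theorem AI.finite_cross [Finite κ] {P : Set (Fr ι)} (h : AI P) :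
    {x : Fr ι × (κ × Bool) | ¬ Nest P (x.1 • hl β x.2)}.Finite := by
  have hS : (⋃ a, sep P (sl β a)).Finite := Set.finite_iUnion fun a => h _
  have key : ∀ (g : Fr ι) a, (P ∩ g • hl β a).Nonempty → (Pᶜ ∩ g • hl β a).Nonempty →
      ∃ x ∈ ⋃ a, sep P (sl β a), x ∈ g • hl β a := fun g a ⟨x, x1, x2⟩ ⟨y, y1, y2⟩ => by
    by_contra hn
    have hc : ∀ z ∈ g • hl β a, (z ∈ P ↔ g * sl β a ∈ P) := fun z hz => by
      have := hl_conn β (Q := {k | g * k ∈ P}) (h := a) (fun k hk b _ => by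
        by_contra e
        refine hn ⟨g * k, Set.mem_iUnion.2 ⟨b, ?_⟩, by simpa [mem_smul_fr] using hk⟩
        simpa only [sep, Set.mem_ofPred_eq, mul_assoc] using e) (mem_smul_fr.1 hz)
      simpa using this
    exact y1 ((hc y y2).2 ((hc x x2).1 x1))
  refine (hS.biUnion fun x _ => hS.biUnion fun y _ =>
    (finite_hl_mem β (y⁻¹ * x)).image fun z => (y * z.1, z.2)).subset ?_
  rintro ⟨g, a⟩ hx
  obtain ⟨h1, h2, h3, h4⟩ := not_nest_iff.1 hx
  obtain ⟨x, x1, x2⟩ := key g a h1 h3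
  have e : (g • hl β a)ᶜ = (g * sl β a) • hl β (a.1, !a.2) := by
    rw [hl_opp β a, smul_smul, smul_compl_fr, compl_compl]
  rw [e] at h2 h4
  obtain ⟨y, y1, y2⟩ := key _ _ h2 h4
  rw [← e] at y2
  refine Set.mem_biUnion x1 (Set.mem_biUnion y1 ⟨(y⁻¹ * g, a), ⟨?_, ?_⟩, by simp⟩)
  · simpa [mem_smul_fr] using y2
  · simpa [mem_smul_fr, mul_assoc] using x2
theorem sys_basis [Finite κ] : Sys (Set.range fun s : κ => orb (hl β (s, true))) := by
  refine ⟨Set.finite_range _, ?_, fun X hX Y hY => ?_⟩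
  · rintro _ ⟨s, rfl⟩
    exact ⟨_, isSph_hl β _, rfl⟩
  · obtain ⟨_, ⟨s, rfl⟩, hX⟩ := mem_sides.1 hX
    obtain ⟨_, ⟨s', rfl⟩, hY⟩ := mem_sides.1 hY
    refine nest_orb_ideal β ?_ X hX Y hY
    by_cases e : s = s' <;> simp [e]
/-- The system of the basis spheres fills. -/
theorem fill_basis [Finite κ] : Fill (Set.range fun s : κ => orb (hl β (s, true))) := by
  have hs := sys_basis β
  set σ := Set.range fun s : κ => orb (hl β (s, true))
  have hf : ∀ g, {X ∈ sides σ | 1 ∉ X ∧ g ∈ X}.Finite := fun g =>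
    (hs.finite_sep 1 g).subset fun X hX => ⟨hX.1, fun e => hX.2.1 (e.2 hX.2.2)⟩
  have key : ∀ g, (β.symm g).toWord.length ≤ {X ∈ sides σ | 1 ∉ X ∧ g ∈ X}.ncard := fun g => by
    induction g using hl_induction β with
    | h1 => simp
    | h2 a g ha ih =>
      have hn : hl β a ∉ (sl β a • ·) '' {X ∈ sides σ | 1 ∉ X ∧ g ∈ X} := by
        rintro ⟨X, hX, e⟩
        have := sl_mem_hl β a
        rw [← e, mem_smul_fr, inv_mul_cancel] at this
        exact hX.2.1 this
      rw [toWord_sl_mul β ha, List.length_cons]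
      refine (Nat.succ_le_succ ih).trans ?_
      rw [← Set.ncard_image_of_injective _ (MulAction.injective (sl β a)), Nat.succ_eq_add_one,
        ← Set.ncard_insert_of_notMem hn ((hf g).image _)]
      refine Set.ncard_le_ncard ?_ (hf _)
      rintro _ (rfl | ⟨X, ⟨x1, x2, x3⟩, rfl⟩)
      · exact ⟨mem_sides.2 ⟨_, ⟨a.1, rfl⟩, hl_mem_orb β a.1 a.2 true⟩, one_notMem_hl β a,
          (sl_mul_mem_hl β).2 ha⟩
      · refine ⟨(hs.smul_mem _).2 x1, ?_, by simpa [mem_smul_fr] using x3⟩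
        obtain ⟨_, ⟨s, rfl⟩, hX⟩ := mem_sides.1 x1
        obtain ⟨b, hb⟩ : ∃ b, X ⊆ hl β b :=
          (mem_orb_ideal β hX x2).elim (fun e => ⟨_, e.le⟩) id
        rw [mem_smul_fr, mul_one, ← sl_opp]
        exact fun e => ha (mem_hl_unique β (hb e) (sl_mem_hl β _) ▸ hb x3)
  intro m
  exact ((List.finite_length_le (κ × Bool) m).preimage
    (FreeGroup.toWord_injective.comp β.symm.injective).injOn).subset fun g hg => (key g).trans hg

open Classical in
theorem pair_ideal_letter (D : Set (κ × Bool)) (s : κ) : pair (ideal β D) (letter β s) =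
    (if (s, true) ∈ D then 1 else 0) - (if (s, false) ∈ D then 1 else 0) := by
  have h0 : (1 : Fr ι) ≠ (letter β s)⁻¹ := (inv_ne_one.2 (sl_ne_one β (s, true))).symm
  have h1 : letter β s ∈ ideal β D ↔ (s, true) ∈ D := sl_mem_ideal β (h := (s, true))
  have h2 : (letter β s)⁻¹ ∈ ideal β D ↔ (s, false) ∈ D := by rw [← sl_false, sl_mem_ideal]
  rw [pair, finsum_eq_sum_of_support_subset (s := {1, (letter β s)⁻¹}), Finset.sum_pair h0]
  · simp [h1, h2, one_notMem_ideal, sub_eq_add_neg]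
  · intro k hk
    have : k ∈ sep (ideal β D) (letter β s) := fun e => hk (by simp [e])
    rcases (mem_sep_ideal_letter β).1 this with e | e <;> simp [e.1]
theorem pair_hl_letter (s s' : κ) :
    pair (hl β (s, true)) (letter β s') = if s = s' then 1 else 0 := by
  rw [hl, pair_ideal_letter]
  simp [eq_comm]
theorem pair_hl (s : κ) (g : Fr ι) : pair (hl β (s, true)) g = abv (β.symm g) s := by
  obtain ⟨w, rfl⟩ := β.surjective g
  rw [MulEquiv.symm_apply_apply]
  induction w using FreeGroup.induction_on with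
  | C1 => simp [pair_one, abv_one]
  | of t => rw [abv_of, Pi.single_apply]; exact pair_hl_letter β s t
  | inv_of t ih => rw [map_inv, pair_inv (isSph_hl β _).2.2.1, abv_inv, Pi.neg_apply, ih]
  | mul a b iha ihb =>
    rw [map_mul, pair_mul (isSph_hl β _).2.2.1, abv_mul, Pi.add_apply, iha, ihb]
theorem cls_hl_false (s : κ) : cls (hl β (s, false)) = -cls (hl β (s, true)) := by
  rw [hl_opp β (s, false), cls_smul, cls_compl]
  rfl

section Fin

variable [Fintype ι] [DecidableEq ι] [Fintype κ]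

theorem FTreeB.cls_hl_dot (s s' : κ) :
    cls (hl β (s, true)) ⬝ᵥ abv (letter β s') = if s = s' then 1 else 0 := by
  rw [cls_dot (isSph_hl β _).2.2.1, pair_hl_letter]
theorem FTreeB.clp_hl_dot (p : ℕ) (s s' : κ) :
    clp p (hl β (s, true)) ⬝ᵥ abp p (letter β s') = if s = s' then 1 else 0 := by
  rw [clp_dot p (isSph_hl β _).2.2.1, pair_hl_letter]
  split_ifs <;> simp
theorem cls_hl_eq_row (s : κ) : cls (hl β (s, true)) = fun i => abMat β.symm s i :=
  funext fun i => pair_hl β s (FreeGroup.of i)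
theorem abv_letter_eq_col (s : κ) : abv (letter β s) = fun i => abMat β i s := rfl
/-- Expansion of a covector in the classes of the basis spheres. -/
theorem covector_eq_sum (φ : ι → ℤ) :
    φ = ∑ s, (φ ⬝ᵥ abv (letter β s)) • cls (hl β (s, true)) :=
  eq_of_dot_letter β fun t => by simp [sum_dotProduct, cls_hl_dot, -zsmul_eq_mul]
theorem covector_eq_sum_p (p : ℕ) (φ : ι → ZMod p) :
    φ = ∑ s, (φ ⬝ᵥ abp p (letter β s)) • clp p (hl β (s, true)) :=
  eq_of_dot_letter_p p β fun t => by simp [sum_dotProduct, clp_hl_dot]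
theorem vector_eq_sum (v : ι → ℤ) :
    v = ∑ s, (cls (hl β (s, true)) ⬝ᵥ v) • abv (letter β s) := by
  have h : abMat β *ᵥ (abMat β.symm *ᵥ v) = v := by
    rw [Matrix.mulVec_mulVec, abMat_mul_symm, Matrix.one_mulVec]
  funext i
  conv_lhs => rw [← h]
  simp only [cls_hl_eq_row, abv_letter_eq_col, Finset.sum_apply, Pi.smul_apply, smul_eq_mul]
  exact Finset.sum_congr rfl fun s _ => mul_comm _ _
theorem cls_ideal_eq_sum (D : Set (κ × Bool)) :
    cls (ideal β D) = ∑ s, pair (ideal β D) (letter β s) • cls (hl β (s, true)) := by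
  simpa only [cls_dot (ai_ideal β D)] using covector_eq_sum β (cls (ideal β D))
omit [Fintype ι] [DecidableEq ι] [Fintype κ] in
theorem FTreeB.pair_ideal_eq_zero {D : Set (κ × Bool)} {s : κ} (h : (s, true) ∈ D ↔ (s, false) ∈ D) :
    pair (ideal β D) (letter β s) = 0 := by
  rw [pair_ideal_letter]
  by_cases e : (s, false) ∈ D <;> simp [e, h]
/-- The class of an ideal set lies in any subgroup containing the classes of its split letters. -/
theorem cls_ideal_mem (K : AddSubgroup (ι → ℤ)) {D : Set (κ × Bool)}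
    (h : ∀ s, ¬ ((s, true) ∈ D ↔ (s, false) ∈ D) → cls (hl β (s, true)) ∈ K) :
    cls (ideal β D) ∈ K := by
  rw [cls_ideal_eq_sum]
  refine sum_mem fun s _ => ?_
  by_cases e : (s, true) ∈ D ↔ (s, false) ∈ D
  · rw [pair_ideal_eq_zero β e, zero_smul]
    exact zero_mem _
  · exact zsmul_mem (h s e) _
theorem clp_ideal_mem (p : ℕ) (W : Submodule (ZMod p) (ι → ZMod p)) {D : Set (κ × Bool)}
    (h : ∀ s, ¬ ((s, true) ∈ D ↔ (s, false) ∈ D) → clp p (hl β (s, true)) ∈ W) :
    clp p (ideal β D) ∈ W := by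
  rw [covector_eq_sum_p β p (clp p (ideal β D))]
  refine sum_mem fun s _ => ?_
  by_cases e : (s, true) ∈ D ↔ (s, false) ∈ D
  · rw [clp_dot p (ai_ideal β D), pair_ideal_eq_zero β e, Int.cast_zero, zero_smul]
    exact zero_mem _
  · exact W.smul_mem _ (h s e)
theorem linearIndependent_clp (p : ℕ) :
    LinearIndependent (ZMod p) fun s : κ => clp p (hl β (s, true)) :=
  Fintype.linearIndependent_iff.2 fun c h t => by
    simpa [sum_dotProduct, clp_hl_dot] using congrArg (· ⬝ᵥ abp p (letter β t)) h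
theorem linearIndependent_abv : LinearIndependent ℤ fun s : κ => abv (letter β s) :=
  Fintype.linearIndependent_iff.2 fun c h t => by
    simpa [dotProduct_sum, cls_hl_dot, -zsmul_eq_mul] using congrArg (cls (hl β (t, true)) ⬝ᵥ ·) h
include β in
theorem card_eq_of_basis : Fintype.card κ = Fintype.card ι := by
  have h := Matrix.trace_mul_comm (abMat β.symm) (abMat β)
  rw [abMat_symm_mul, abMat_mul_symm, Matrix.trace_one, Matrix.trace_one] at h
  exact_mod_cast h
theorem ncard_clp_mem_le (p : ℕ) [Fact p.Prime] (W : Submodule (ZMod p) (ι → ZMod p)) :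
    {s : κ | clp p (hl β (s, true)) ∈ W}.ncard ≤ Module.finrank (ZMod p) W := by
  classical
  have h : LinearIndependent (ZMod p) fun s : {s : κ | clp p (hl β (s, true)) ∈ W} =>
      (⟨clp p (hl β (s.1, true)), s.2⟩ : W) :=
    LinearIndependent.of_comp W.subtype
      ((linearIndependent_clp β p).comp Subtype.val Subtype.val_injective)
  rw [← Nat.card_coe_set_eq, Nat.card_eq_fintype_card]
  exact h.fintype_card_le_finrank
theorem rkD_closure (I : Set κ) : rkD (Subgroup.closure (letter β '' I)) = I.ncard := by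
  classical
  have e : Submodule.span ℤ (abv '' (Subgroup.closure (letter β '' I) : Set (Fr ι))) =
      Submodule.span ℤ (Set.range fun s : I => abv (letter β s.1)) := by
    refine le_antisymm (Submodule.span_le.2 ?_) (Submodule.span_mono ?_)
    · rintro _ ⟨g, hg, rfl⟩
      induction hg using Subgroup.closure_induction with
      | mem x hx =>
        obtain ⟨s, hs, rfl⟩ := hx
        exact Submodule.subset_span ⟨⟨s, hs⟩, rfl⟩
      | one => exact abv_one (ι := ι) ▸ zero_mem _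
      | mul x y _ _ hx hy => exact abv_mul x y ▸ add_mem hx hy
      | inv x _ hx => exact abv_inv x ▸ neg_mem hx
    · rintro _ ⟨s, rfl⟩
      exact ⟨_, Subgroup.subset_closure ⟨s.1, s.2, rfl⟩, rfl⟩
  rw [rkD, e, ← Nat.card_coe_set_eq, Nat.card_eq_fintype_card]
  exact finrank_span_eq_card ((linearIndependent_abv β).comp Subtype.val Subtype.val_injective)
theorem Ann_closure (p : ℕ) (I : Set κ) : Ann p (Subgroup.closure (letter β '' I)) =
    Submodule.span (ZMod p) ((fun s : κ => clp p (hl β (s, true))) '' Iᶜ) := by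
  refine le_antisymm (fun φ hφ => ?_) (Submodule.span_le.2 ?_)
  · rw [covector_eq_sum_p β p φ]
    refine sum_mem fun s _ => ?_
    by_cases e : s ∈ I
    · rw [hφ _ (Subgroup.subset_closure ⟨s, e, rfl⟩), zero_smul]
      exact zero_mem _
    · exact Submodule.smul_mem _ _ (Submodule.subset_span ⟨s, e, rfl⟩)
  · rintro _ ⟨s, hs, rfl⟩ g hg
    rw [clp_dot p (isSph_hl β _).2.2.1,
      pair_of_sep_empty (sep_hl_of_mem_closure β hg (h := (s, true)) hs), Int.cast_zero]
theorem finrank_Ann_closure (p : ℕ) [Fact p.Prime] (I : Set κ) :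
    Module.finrank (ZMod p) (Ann p (Subgroup.closure (letter β '' I))) + I.ncard =
      Fintype.card ι := by
  classical
  have h : LinearIndependent (ZMod p) fun s : (Iᶜ : Set κ) => clp p (hl β (s.1, true)) :=
    (linearIndependent_clp β p).comp Subtype.val Subtype.val_injective
  rw [Ann_closure, Set.image_eq_range, finrank_span_eq_card h, ← Nat.card_eq_fintype_card, Nat.card_coe_set_eq, add_comm, Set.ncard_add_ncard_compl,
    Nat.card_eq_fintype_card, card_eq_of_basis β]
theorem letter_mem_closure {I : Set κ} {s : κ} :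
    letter β s ∈ Subgroup.closure (letter β '' I) ↔ s ∈ I := by
  refine ⟨fun h => not_not.1 fun hs => ?_, fun h => Subgroup.subset_closure ⟨s, h, rfl⟩⟩
  exact Set.singleton_ne_empty _
    ((sep_hl_self β (s, true)).symm.trans (sep_hl_of_mem_closure β h hs))

end Fin

theorem rkD_top [Fintype ι] [DecidableEq ι] : rkD (⊤ : Subgroup (Fr ι)) = Fintype.card ι := by
  rw [← closure_letter (MulEquiv.refl (Fr ι)), ← Set.image_univ, rkD_closure, Set.ncard_univ,
    Nat.card_eq_fintype_card]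

end Pool.Agent.Lib.MP_49df17_al
end

-- part Pool.Agent.Lib.MP_49df17_al.Deg
section

/-!
Algebraic functors have a degree, and the derived functor has smaller degree.
-/

namespace Pool.Agent.Lib.MP_49df17_al

namespace JDeg

section General

variable {ι M : Type} [Fintype ι] [DecidableEq ι] [AddCommGroup M] [Module ℚ M]

omit [Fintype ι] [DecidableEq ι] in
theorem Wt_congr {X : ι → ι → Module.End ℚ M} {μ ν : ι → ℤ}
    (h : ∀ a b, ν a - ν b = μ a - μ b) : Wt X ν = Wt X μ := by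
  ext v
  simp only [Wt, h]

/-- The sum of the weight spaces of the other weights. -/
def Oth (X : ι → ι → Module.End ℚ M) (μ : ι → ℤ) : Submodule ℚ M :=
  ⨆ (ν : ι → ℤ) (_ : ∃ a b, ν a - ν b ≠ μ a - μ b), Wt X ν

omit [Fintype ι] [DecidableEq ι] in
theorem mem_Sp {X : ι → ι → Module.End ℚ M} {μ ν : ι → ℤ} {T : Submodule ℚ M} {x : M}
    (hx : x ∈ Wt X ν) (h : (∀ a b, ν a - ν b = μ a - μ b) → x ∈ T) :
    x ∈ (T ⊓ Wt X μ) ⊔ Oth X μ := by
  by_cases h1 : ∀ a b, ν a - ν b = μ a - μ b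
  · exact Submodule.mem_sup_left ⟨h h1, by rw [← Wt_congr h1]; exact hx⟩
  · push Not at h1
    exact Submodule.mem_sup_right (Submodule.mem_iSup_of_mem ν (Submodule.mem_iSup_of_mem h1 hx))

omit [Fintype ι] [DecidableEq ι] in
theorem le_of_Sp {X : ι → ι → Module.End ℚ M} {μ : ι → ℤ} {T : Submodule ℚ M}
    (hd : Disjoint (Wt X μ) (Oth X μ)) (h : ⊤ ≤ (T ⊓ Wt X μ) ⊔ Oth X μ) : Wt X μ ≤ T := by
  intro v hv
  obtain ⟨x, hx, y, hy, e⟩ := Submodule.mem_sup.1 (h (Submodule.mem_top (x := v)))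
  have hy' : y ∈ Wt X μ := by
    have : y = v - x := by rw [← e]; abel
    rw [this]; exact Submodule.sub_mem _ hv hx.2
  have h0 : y = 0 := (Submodule.disjoint_def.1 hd) y hy' hy
  rw [← e, h0, add_zero]; exact hx.1

omit [DecidableEq ι] in
theorem exists_ord (key : ι → ℤ) :
    ∃ ord : ι → ℕ, Function.Injective ord ∧ ∀ a b, key a < key b → ord b < ord a := by
  let r := Fintype.equivFin ι
  let C : ℤ := ∑ a, |key a|
  have hC : ∀ a, key a ≤ C := fun a => (le_abs_self _).trans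
    (Finset.single_le_sum (f := fun a => |key a|) (fun _ _ => abs_nonneg _) (Finset.mem_univ a))
  refine ⟨fun a => (C - key a).toNat * Fintype.card ι + r a, fun a b h => ?_, fun a b h => ?_⟩
  · have h1 := congrArg (· % Fintype.card ι) h
    simp only [Nat.mul_add_mod_self_right, Nat.mod_eq_of_lt (r a).2,
      Nat.mod_eq_of_lt (r b).2] at h1
    exact r.injective (Fin.ext h1)
  · have h1 : (C - key b).toNat + 1 ≤ (C - key a).toNat := by
      have := hC b
      omega
    have h2 := Nat.mul_le_mul_right (Fintype.card ι) h1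
    have h3 := (r b).2
    rw [add_mul, one_mul] at h2
    change _ * _ + _ < _ * _ + _
    omega

omit [DecidableEq ι] in
theorem ncard_low {α : Type} [LinearOrder α] {f : ι → α} (hf : Function.Injective f) (n0 : ℕ) :
    {a | {b | f b < f a}.ncard < n0}.ncard ≤ n0 := by
  have key : ∀ a a', f a < f a' → {b | f b < f a}.ncard < {b | f b < f a'}.ncard := by
    intro a a' h
    refine Set.ncard_lt_ncard ⟨fun b hb => lt_trans hb h, fun h1 => ?_⟩ (Set.toFinite _)
    exact lt_irrefl _ (h1 (a := a) h)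
  have h1 := Set.ncard_le_ncard_of_injOn (s := {a | {b | f b < f a}.ncard < n0})
    (t := Set.Iio n0) (fun a => {b | f b < f a}.ncard) (fun a ha => ha)
    (fun a _ a' _ h => by
      rcases lt_trichotomy (f a) (f a') with h2 | h2 | h2
      · exact absurd h (key _ _ h2).ne
      · exact hf h2
      · exact absurd h (key _ _ h2).ne') (Set.finite_Iio n0)
  simpa using h1

omit [DecidableEq ι] in
theorem ncard_outer {ord : ι → ℕ} (hord : Function.Injective ord) (n0 : ℕ) :
    {a | ¬ Mid n0 ord a}.ncard ≤ 2 * n0 := by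
  have h1 := ncard_low hord n0
  have h2 := ncard_low (α := ℕᵒᵈ) (f := fun a => OrderDual.toDual (ord a))
    (fun a b h => hord h) n0
  have h3 : {a | ¬ Mid n0 ord a} ⊆ {a | {b | ord b < ord a}.ncard < n0} ∪
      {a | {b | OrderDual.toDual (ord b) < OrderDual.toDual (ord a)}.ncard < n0} := by
    intro a ha
    simp only [Mid, Set.mem_ofPred_eq, not_and_or, not_le] at ha
    exact ha
  have h4 := (Set.ncard_le_ncard h3 (Set.toFinite _)).trans (Set.ncard_union_le _ _)
  omega

theorem exists_bound {N : Type} [AddCommGroup N] [Module ℚ N] [FiniteDimensional ℚ N]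
    (f : Module.End ℚ N) : ∃ B : ℕ, ∀ (M : Type) [AddCommGroup M] [Module ℚ M]
      (g : Module.End ℚ M) (φ : N →ₗ[ℚ] M), (∀ y, g (φ y) = φ (f y)) → ∀ (y : N) (c : ℤ),
      φ y ≠ 0 → g (φ y) = (c : ℚ) • φ y → c.natAbs ≤ B := by
  have hp : f.charpoly ≠ 0 := f.charpoly_monic.ne_zero
  have hfin : {c : ℤ | f.charpoly.IsRoot (c : ℚ)}.Finite :=
    (Polynomial.finite_setOfPred_isRoot hp).preimage (f := fun c : ℤ => (c : ℚ))
      Int.cast_injective.injOn
  obtain ⟨B, hB⟩ := (hfin.image Int.natAbs).bddAbove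
  refine ⟨B, fun M _ _ g φ h y c h0 hc => hB ⟨c, ?_, rfl⟩⟩
  have h1 : ∀ k : ℕ, φ ((f ^ k) y) = (c : ℚ) ^ k • φ y := by
    intro k
    induction k with
    | zero => simp
    | succ k ih =>
      rw [pow_succ', Module.End.mul_apply, ← h, ih, map_smul, hc, smul_smul, pow_succ]
  have h2 : ∀ p : Polynomial ℚ, φ (Polynomial.aeval f p y) = p.eval (c : ℚ) • φ y := by
    intro p
    induction p using Polynomial.induction_on' with
    | add p q hp hq => simp [hp, hq, add_smul]
    | monomial k a =>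
      rw [Polynomial.aeval_monomial, Polynomial.eval_monomial, Module.End.mul_apply,
        Module.algebraMap_end_apply, map_smul, h1, smul_smul]
  have h3 := h2 f.charpoly
  rw [LinearMap.aeval_self_charpoly, LinearMap.zero_apply, map_zero] at h3
  exact (smul_eq_zero.1 h3.symm).resolve_right h0

omit [Fintype ι] [DecidableEq ι] in
theorem genBy_mono {𝔞 : Set (Module.End ℚ M)} {W W' : Submodule ℚ M} (h : W ≤ W') :
    genBy 𝔞 W ≤ genBy 𝔞 W' :=
  genBy_le (h.trans (le_genBy _ _)) fun _ hx _ hv => genBy_stable hx hv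

omit [DecidableEq ι] in
theorem nrm_cast (μ : ι → ℤ) : (nrm μ : ℤ) = ∑ a, |μ a| := by
  simp [nrm]

omit [DecidableEq ι] in
theorem ncard_supp_le (μ : ι → ℤ) : {a | μ a ≠ 0}.ncard ≤ nrm μ := by
  classical
  have h1 : {a | μ a ≠ 0} = ↑(Finset.univ.filter fun a => μ a ≠ 0) := by simp
  rw [h1, Set.ncard_coe_finset, Finset.card_filter, nrm]
  refine Finset.sum_le_sum fun a _ => ?_
  split_ifs with h
  · omega
  · omega

omit [DecidableEq ι] in
theorem eq_of_small {μ ν : ι → ℤ} (h : ∀ a b, ν a - ν b = μ a - μ b)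
    (hs : nrm μ + nrm ν < Fintype.card ι) : ν = μ := by
  by_contra hne
  obtain ⟨a0, h0⟩ := Function.ne_iff.1 hne
  have h1 : (Set.univ : Set ι) ⊆ {a | μ a ≠ 0} ∪ {a | ν a ≠ 0} := by
    intro a _
    by_contra h2
    simp only [Set.mem_union, Set.mem_ofPred_eq, not_or, not_not] at h2
    have := h a a0
    omega
  have h2 := (Set.ncard_le_ncard h1 (Set.toFinite _)).trans (Set.ncard_union_le _ _)
  have h3 := ncard_supp_le μ
  have h4 := ncard_supp_le ν
  rw [Set.ncard_univ, Nat.card_eq_fintype_card] at h2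
  omega

theorem sum_shift (φ : ℤ → ℤ) (μ : ι → ℤ) {a b : ι} (hab : a ≠ b) :
    ∑ x, φ ((μ - Pi.single a 1 + Pi.single b 1 : ι → ℤ) x) =
      ∑ x, φ (μ x) + (φ (μ a - 1) - φ (μ a)) + (φ (μ b + 1) - φ (μ b)) := by
  have h1 : ∀ x, φ ((μ - Pi.single a 1 + Pi.single b 1 : ι → ℤ) x) = φ (μ x) +
      (if x = a then φ (μ a - 1) - φ (μ a) else 0) +
      (if x = b then φ (μ b + 1) - φ (μ b) else 0) := by
    intro x
    by_cases ha : x = a
    · subst ha; simp [hab]
    · by_cases hb : x = b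
      · subst hb; simp [ha]
      · simp [ha, hb]
  simp only [h1, Finset.sum_add_distrib, Finset.sum_ite_eq', Finset.mem_univ, if_true]

omit [DecidableEq ι] in
theorem sq_le_nrm (μ : ι → ℤ) : ∑ a, μ a ^ 2 ≤ (nrm μ : ℤ) ^ 2 := by
  rw [nrm_cast]
  have := Finset.sum_sq_le_sq_sum_of_nonneg (s := Finset.univ) (f := fun a => |μ a|)
    fun _ _ => abs_nonneg _
  simpa using this

end General

theorem exists_U (hQ : S_Q) (hslg : S_slg) (hsl : S_isSl) (hemb : S_emb) (A : VIC) (n0 : ℕ)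
    (X Y : Ob) (ord : X.ι → ℕ) (e : Y.ι ↪ X.ι) (hG : GenIn A n0) (hU : Unip (A.rep X))
    (h3 : 3 ≤ X.card) (h2 : 2 * n0 ≤ X.card) (hord : Function.Injective ord)
    (he : ∀ a, ¬ Mid n0 ord a → a ∈ Set.range e) (i0 : Y.ι) (hm : Mid n0 ord (e i0)) :
    ∃ U : Submodule ℚ (A.obj X), genBy (lowX (Xop (A.rep X)) ord) U = ⊤ ∧
      (∀ a b, ∀ v ∈ U, Hop (Xop (A.rep X)) a b v ∈ U) ∧
      U ≤ LinearMap.range (A.map (Mor.emb e)) ∧
      ∀ a b, Mid n0 ord a → Mid n0 ord b → ∀ v ∈ U, Hop (Xop (A.rep X)) a b v = 0 := by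
  classical
  have hS := (hsl _ _ _ hU).1
  obtain ⟨-, hadd, hcomm, -⟩ := hslg _ _ _ hS h3
  let K : Submodule ℚ (A.obj X) := ⨅ (a) (b) (_ : Mid n0 ord a) (_ : Mid n0 ord b),
    LinearMap.ker (Hop (Xop (A.rep X)) a b)
  have hK : ∀ v, v ∈ K ↔ ∀ a b, Mid n0 ord a → Mid n0 ord b →
      Hop (Xop (A.rep X)) a b v = 0 := by
    intro v; simp [K]
  let Z : Ob := Ob.of {i : Y.ι // ¬ Mid n0 ord (e i)}
  let e' : Z.ι ↪ Y.ι := Function.Embedding.subtype _
  have hr : ∀ a, a ∈ Set.range (e'.trans e) ↔ ¬ Mid n0 ord a := by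
    intro a
    constructor
    · rintro ⟨i, rfl⟩; exact i.2
    · intro h
      obtain ⟨i, rfl⟩ := he a h
      exact ⟨⟨i, h⟩, rfl⟩
  have hgen := hQ A n0 X Z ord (e'.trans e) hG hU h3 h2 hord fun a h => (hr a).2 h
  refine ⟨LinearMap.range (A.map (Mor.emb e)) ⊓ K, ?_, ?_, inf_le_left,
    fun a b ha hb v hv => (hK v).1 hv.2 a b ha hb⟩
  · refine top_le_iff.1 (hgen.symm.le.trans (genBy_mono (le_inf ?_ ?_)))
    · rw [← (hemb A X Y e hU).2.2.2.2 Z e', A.map_comp]
      exact LinearMap.range_comp_le_range _ _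
    · rintro _ ⟨y, rfl⟩
      refine (hK _).2 fun a b ha hb => ?_
      have h1 := (hemb A X Z (e'.trans e) hU).1
      have e1 := LinearMap.congr_fun (h1 a b (by rw [hr]; exact not_not.2 ha)
        (by rw [hr]; exact not_not.2 hb)) y
      have e2 := LinearMap.congr_fun (h1 b a (by rw [hr]; exact not_not.2 hb)
        (by rw [hr]; exact not_not.2 ha)) y
      rw [LinearMap.comp_apply, LinearMap.zero_apply] at e1 e2
      rw [Hop, LinearMap.sub_apply, Module.End.mul_apply, Module.End.mul_apply, e1, e2]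
      simp
  · intro a b v hv
    refine ⟨?_, (hK _).2 fun c d hc hd => ?_⟩
    · have h0 : ∀ a, ∃ i, Hop (Xop (A.rep X)) a (e i) v = 0 ∧
          Hop (Xop (A.rep X)) (e i) a v = 0 := by
        intro a
        by_cases h : Mid n0 ord a
        · exact ⟨i0, (hK v).1 hv.2 _ _ h hm, (hK v).1 hv.2 _ _ hm h⟩
        · obtain ⟨i, rfl⟩ := he a h
          refine ⟨i, ?_, ?_⟩ <;> simp [Hop]
      obtain ⟨i, hi, -⟩ := h0 a
      obtain ⟨j, -, hj⟩ := h0 b
      have e1 : Hop (Xop (A.rep X)) a b v = Hop (Xop (A.rep X)) (e i) (e j) v := by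
        rw [← hadd a (e i) b, ← hadd (e i) (e j) b]
        simp only [LinearMap.add_apply, hi, hj, zero_add, add_zero]
      have h4 := (hemb A X Y e hU).2.2.2.1
      rw [e1, Hop, SetLike.mem_coe, LinearMap.sub_apply, Module.End.mul_apply,
        Module.End.mul_apply]
      exact Submodule.sub_mem _ (h4 _ _ _ (h4 _ _ _ hv.1)) (h4 _ _ _ (h4 _ _ _ hv.1))
    · rw [← Module.End.mul_apply, hcomm, Module.End.mul_apply, (hK v).1 hv.2 c d hc hd, map_zero]

theorem exists_emb {ι : Type} [Fintype ι] (S : Set ι) (K : ℕ) (h1 : S.ncard ≤ K)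
    (h2 : K ≤ Fintype.card ι) : ∃ e : Fin K ↪ ι, S ⊆ Set.range e := by
  classical
  obtain ⟨T, hT1, hT2⟩ := Finset.exists_superset_card_eq (s := S.toFinset) (n := K)
    (by rw [← Set.ncard_eq_toFinset_card']; exact h1) h2
  refine ⟨(T.equivFinOfCardEq hT2).symm.toEmbedding.trans (Function.Embedding.subtype _),
    fun a ha => ⟨T.equivFinOfCardEq hT2 ⟨a, hT1 (Set.mem_toFinset.2 ha)⟩, by simp⟩⟩

theorem exists_mid {ι : Type} [Fintype ι] {ord : ι → ℕ} (hord : Function.Injective ord) (n0 : ℕ)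
    (s : ι) (h : 2 * n0 + 1 < Fintype.card ι) : ∃ a, a ≠ s ∧ Mid n0 ord a := by
  by_contra hc
  push Not at hc
  have h1 : (Set.univ : Set ι) ⊆ insert s {a | ¬ Mid n0 ord a} := by
    intro a _
    by_cases ha : a = s
    · exact Or.inl ha
    · exact Or.inr (hc a ha)
  have h2 := (Set.ncard_le_ncard h1 (Set.toFinite _)).trans (Set.ncard_insert_le _ _)
  have h3 := ncard_outer hord n0
  rw [Set.ncard_univ, Nat.card_eq_fintype_card] at h2
  omega

theorem exists_ord_mid {ι : Type} [Fintype ι] (μ : ι → ℤ) (s : ι) (hs : μ s = 0) (n0 : ℕ)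
    (h : nrm μ + 2 * n0 + 1 ≤ Fintype.card ι) :
    ∃ ord : ι → ℕ, Function.Injective ord ∧ (∀ a b, μ a < μ b → ord b < ord a) ∧
      Mid n0 ord s := by
  classical
  let Z : Set ι := {a | μ a = 0 ∧ a ≠ s}
  have hZ : 2 * n0 ≤ Z.ncard := by
    have h1 : (Set.univ : Set ι) ⊆ insert s ({a | μ a ≠ 0} ∪ Z) := by
      intro a _
      by_cases ha : a = s
      · exact Or.inl ha
      · by_cases h0 : μ a = 0
        · exact Or.inr (Or.inr ⟨h0, ha⟩)
        · exact Or.inr (Or.inl h0)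
    have h2 := (Set.ncard_le_ncard h1 (Set.toFinite _)).trans (Set.ncard_insert_le _ _)
    have h3 := Set.ncard_union_le {a | μ a ≠ 0} Z
    have h4 := ncard_supp_le μ
    rw [Set.ncard_univ, Nat.card_eq_fintype_card] at h2
    omega
  obtain ⟨P, hP1, hP2⟩ := Set.exists_subset_card_eq (s := Z) (n := n0) (by omega)
  obtain ⟨ord, hord, hsort⟩ := exists_ord fun a =>
    3 * μ a + (if a ∈ P then 1 else if a = s then 0 else -1)
  have hsP : s ∉ P := fun h1 => (hP1 h1).2 rfl
  refine ⟨ord, hord, fun a b hab => hsort a b ?_, ?_, ?_⟩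
  · split_ifs <;> omega
  · rw [← hP2]
    refine Set.ncard_le_ncard (fun b hb => hsort s b ?_) (Set.toFinite _)
    have := (hP1 hb).1
    simp [hsP, hb, hs, this]
  · have h1 : (Z \ P).ncard = Z.ncard - P.ncard := Set.ncard_sdiff hP1 (Set.toFinite _)
    refine le_trans (by omega : n0 ≤ (Z \ P).ncard)
      (Set.ncard_le_ncard (fun b hb => hsort b s ?_) (Set.toFinite _))
    simp [hsP, hb.2, hs, hb.1.1, hb.1.2]

theorem ofGL_elem_sum (X T : Ob) (a b : X.ι) :
    (Mor.ofGL (elem a b)).sum (Mor.id T) =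
      Mor.ofGL (X := X.sum T) (elem (Sum.inl a) (Sum.inl b)) := by
  by_cases h : a = b
  · subst h
    have h1 : (elem a a : GL X.ι ℤ) = 1 := by simp [elem]
    have h2 : (elem (Sum.inl a) (Sum.inl a) : GL (X.ι ⊕ T.ι) ℤ) = 1 := by simp [elem]
    rw [h1, h2]
    apply Mor.ext <;> simp [Mor.sum, Mor.id, Mor.ofGL]
  · have h' : (Sum.inl a : X.ι ⊕ T.ι) ≠ Sum.inl b := fun e => h (Sum.inl_injective e)
    apply Mor.ext
    · ext (i | i) (j | j) <;>
        simp [Mor.sum, Mor.id, Mor.ofGL, elem, h, Matrix.one_apply, Matrix.single_apply]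
    · ext (i | i) (j | j) <;>
        simp [Mor.sum, Mor.id, Mor.ofGL, elem, h, Matrix.one_apply, Matrix.single_apply]

/-- The quotient map onto the derived functor. -/
noncomputable def qd (A : VIC) (T X : Ob) : A.obj (X.sum T) →ₗ[ℚ] (A.delta T).obj X :=
  (LinearMap.range (A.map (Mor.inl X T))).mkQ

theorem qd_surj (A : VIC) (T X : Ob) : Function.Surjective (qd A T X) :=
  Submodule.mkQ_surjective _

theorem qd_map (A : VIC) (T : Ob) {X Y : Ob} (f : Mor X Y) (x : A.obj (X.sum T)) :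
    (A.delta T).map f (qd A T X x) = qd A T Y (A.map (f.sum (Mor.id T)) x) := rfl

theorem qd_eq_zero (A : VIC) (T X : Ob) {x : A.obj (X.sum T)}
    (h : x ∈ LinearMap.range (A.map (Mor.inl X T))) : qd A T X x = 0 :=
  (Submodule.Quotient.mk_eq_zero _).2 h

theorem qd_rep (A : VIC) (T X : Ob) (a b : X.ι) (x : A.obj (X.sum T)) :
    (A.delta T).rep X (elem a b) (qd A T X x) =
      qd A T X (A.rep (X.sum T) (elem (Sum.inl a) (Sum.inl b)) x) := by
  change (A.delta T).map (Mor.ofGL (elem a b)) _ = qd A T X (A.map (Mor.ofGL _) x)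
  rw [qd_map, ofGL_elem_sum]

theorem unip_delta (A : VIC) (T X : Ob) (h : Unip (A.rep (X.sum T))) :
    Unip ((A.delta T).rep X) := by
  intro a b v
  obtain ⟨x, rfl⟩ := qd_surj A T X v
  obtain ⟨m, hm⟩ := h (Sum.inl a) (Sum.inl b) x
  have key : ∀ (k : ℕ) (y : A.obj (X.sum T)),
      (((A.delta T).rep X (elem a b) - 1) ^ k) (qd A T X y) =
      qd A T X (((A.rep (X.sum T) (elem (Sum.inl a) (Sum.inl b)) - 1) ^ k) y) := by
    intro k
    induction k with
    | zero => intro y; rfl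
    | succ k ih =>
      intro y
      rw [pow_succ, pow_succ, Module.End.mul_apply, Module.End.mul_apply, ← ih,
        LinearMap.sub_apply, LinearMap.sub_apply, qd_rep, map_sub (qd A T X)]
      rfl
  exact ⟨m, by rw [key, hm, map_zero]⟩

theorem top_in_range (hQ : S_Q) (hw : S_hw) (hslg : S_slg) (hsl : S_isSl) (hemb : S_emb)
    (A : VIC) (n0 d : ℕ) (X : Ob) (hG : GenIn A n0)
    [FiniteDimensional ℚ (A.obj (X.sum (Ob.of Unit)))] (hU : Unip (A.rep (X.sum (Ob.of Unit))))
    (hX : 2 * d + 2 * n0 + 3 ≤ X.card)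
    (hD : ⨆ (μ : X.ι ⊕ Unit → ℤ) (_ : nrm μ < d + 1),
      Wt (Xop (A.rep (X.sum (Ob.of Unit)))) μ = ⊤) (k : ℕ) :
    ∀ μ : X.ι ⊕ Unit → ℤ, μ (Sum.inr ()) = 0 → nrm μ = d → (d : ℤ) ^ 2 < ∑ a, μ a ^ 2 + k →
      Wt (Xop (A.rep (X.sum (Ob.of Unit)))) μ ≤
        LinearMap.range (A.map (Mor.inl X (Ob.of Unit))) := by
  classical
  have hc : Fintype.card (X.ι ⊕ Unit) = X.card + 1 := by simp [Ob.card]
  have hS := (hsl _ _ _ hU).1
  have h3 : 3 ≤ Fintype.card (X.ι ⊕ Unit) := by omega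
  obtain ⟨-, -, -, -, hshift, -, hdis⟩ := hslg _ _ _ hS h3
  have hbig : ∀ μ : X.ι ⊕ Unit → ℤ, nrm μ = d + 2 →
      Wt (Xop (A.rep (X.sum (Ob.of Unit)))) μ ≤ ⊥ := by
    intro μ hμ
    refine le_of_Sp (hdis μ) (hD.symm.le.trans (iSup₂_le fun ν hν v hv => mem_Sp hv fun h => ?_))
    have := eq_of_small (ι := X.ι ⊕ Unit) h (by omega)
    rw [this] at hν
    omega
  induction k with
  | zero =>
    intro μ _ h1 h2
    have := sq_le_nrm μ
    rw [h1] at this
    simp only [Nat.cast_zero, add_zero] at h2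
    omega
  | succ k ih =>
    intro μ h0 h1 h2
    obtain ⟨ord, hord, hsort, hmid⟩ := exists_ord_mid μ (Sum.inr ()) h0 n0 (by omega)
    obtain ⟨m0, hm1, hm0⟩ := exists_mid hord n0 (Sum.inr ()) (by omega)
    let e : X.ι ↪ (X.sum (Ob.of Unit)).ι := ⟨Sum.inl, Sum.inl_injective⟩
    have hre : ∀ a : X.ι ⊕ Unit, a ≠ Sum.inr () → a ∈ Set.range e := by
      rintro (a | a) h
      · exact ⟨a, rfl⟩
      · exact absurd rfl h
    obtain ⟨i0, rfl⟩ := hre m0 hm1
    obtain ⟨U, hU1, hU2, hU3, -⟩ := exists_U hQ hslg hsl hemb A n0 (X.sum (Ob.of Unit)) X ord e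
      hG hU h3 (by change _ ≤ Fintype.card (X.ι ⊕ Unit); omega) hord
      (fun a h => hre a fun h' => h (h' ▸ hmid)) i0 hm0
    have hdec := (hw _ _ _ ord hS h3 hord).1 U hU2
    have htop := (hw _ _ _ ord hS h3 hord).1 ⊤ fun _ _ _ _ => Submodule.mem_top
    refine le_of_Sp (hdis μ) (hU1.symm.le.trans (genBy_le ?_ ?_))
    · rw [hdec]
      exact iSup_le fun ν v hv => mem_Sp hv.2 fun _ => hU3 hv.1
    · rintro _ ⟨a, b, hab, rfl⟩ v -
      have hne : a ≠ b := fun h => by rw [h] at hab; exact lt_irrefl _ hab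
      have hle : μ a ≤ μ b := not_lt.1 fun h => lt_asymm hab (hsort _ _ h)
      have : ⊤ ≤ ((LinearMap.range (A.map (Mor.inl X (Ob.of Unit))) ⊓
          Wt (Xop (A.rep (X.sum (Ob.of Unit)))) μ) ⊔
          Oth (Xop (A.rep (X.sum (Ob.of Unit)))) μ).comap
            (Xop (A.rep (X.sum (Ob.of Unit))) a b) := by
        refine htop.le.trans (iSup_le fun ν x hx => mem_Sp (hshift ν a b x hx.2) fun h => ?_)
        have hx' : x ∈ Wt (Xop (A.rep (X.sum (Ob.of Unit))))
            (μ - Pi.single a 1 + Pi.single b 1) := by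
          rw [Wt_congr (μ := ν) fun i j => ?_]
          · exact hx.2
          · have := h i j
            simp only [Pi.add_apply, Pi.sub_apply] at this ⊢
            omega
        have hn := sum_shift (fun z => |z|) μ hne
        have hq := sum_shift (fun z => z ^ 2) μ hne
        rw [← nrm_cast, ← nrm_cast, h1] at hn
        by_cases hz : μ a ≤ 0 ∧ 0 ≤ μ b
        · rw [abs_of_nonpos (by omega : μ a - 1 ≤ 0), abs_of_nonpos hz.1,
            abs_of_nonneg (by omega : 0 ≤ μ b + 1), abs_of_nonneg hz.2] at hn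
          rw [(Submodule.mem_bot ℚ).1 (hbig _ (by omega) hx'), map_zero]
          exact Submodule.zero_mem _
        · have ha0 : μ a ≠ 0 := by omega
          have hb0 : μ b ≠ 0 := by omega
          have ha : a ≠ Sum.inr () := fun h' => ha0 (h' ▸ h0)
          have hb : b ≠ Sum.inr () := fun h' => hb0 (h' ▸ h0)
          have hn' : nrm (μ - Pi.single a 1 + Pi.single b 1) = d := by
            rcases not_and_or.1 hz with h4 | h4
            · rw [abs_of_nonneg (by omega : 0 ≤ μ a - 1), abs_of_nonneg (by omega : 0 ≤ μ a),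
                abs_of_nonneg (by omega : 0 ≤ μ b + 1),
                abs_of_nonneg (by omega : 0 ≤ μ b)] at hn
              omega
            · rw [abs_of_nonpos (by omega : μ a - 1 ≤ 0), abs_of_nonpos (by omega : μ a ≤ 0),
                abs_of_nonpos (by omega : μ b + 1 ≤ 0),
                abs_of_nonpos (by omega : μ b ≤ 0)] at hn
              omega
          have hxR := ih _ (by simp [h0, ha.symm, hb.symm]) hn' (by
            rw [hq]; push_cast at h2; nlinarith) hx'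
          obtain ⟨a', rfl⟩ := hre a ha
          obtain ⟨b', rfl⟩ := hre b hb
          exact (hemb A (X.sum (Ob.of Unit)) X e hU).2.2.2.1 a' b' x hxR
      exact this Submodule.mem_top

end JDeg

open JDeg in
theorem p_Deg (hQ : S_Q) (hw : S_hw) (hslg : S_slg) (hsl : S_isSl) (hemb : S_emb) : S_Deg := by
  classical
  rintro A ⟨n0, hG, hA⟩
  let Y : Ob := Ob.std (2 * n0 + 3)
  obtain ⟨hYf, hYU⟩ := hA Y (by rw [Ob.card_std]; omega)
  choose B hB using fun p : Y.ι × Y.ι => exists_bound (Hop (Xop (A.rep Y)) p.1 p.2)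
  let B0 : ℕ := ∑ p, B p
  have hB0 : ∀ p, B p ≤ B0 := fun p =>
    Finset.single_le_sum (f := B) (fun _ _ => Nat.zero_le _) (Finset.mem_univ p)
  let D : ℕ := 2 * n0 * B0
  refine ⟨3 * D + 1, 2 * n0 + 3, fun X hX => ?_⟩
  obtain ⟨hXf, hU⟩ := hA X (by omega)
  have hS := (hsl _ _ _ hU).1
  have h3 : 3 ≤ Fintype.card X.ι := le_trans (by omega) hX
  obtain ⟨-, -, -, -, hshift, -, hdis⟩ := hslg _ _ _ hS h3
  have key : ∀ μ0, Wt (Xop (A.rep X)) μ0 ≤
      ⨆ (μ : X.ι → ℤ) (_ : nrm μ < 3 * D + 1), Wt (Xop (A.rep X)) μ := by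
    intro μ0
    obtain ⟨ord, hord, hsort⟩ := exists_ord μ0
    obtain ⟨s⟩ : Nonempty X.ι := Fintype.card_pos_iff.1 (by omega)
    obtain ⟨m0, -, hm0⟩ := exists_mid hord n0 s (lt_of_lt_of_le (by omega) hX)
    obtain ⟨e, he⟩ := exists_emb (insert m0 {a | ¬ Mid n0 ord a}) (2 * n0 + 3)
      ((Set.ncard_insert_le _ _).trans (by have := ncard_outer hord n0; omega)) hX
    obtain ⟨i0, rfl⟩ := he (Set.mem_insert _ _)
    have he' : ∀ a, ¬ Mid n0 ord a → a ∈ Set.range e := fun a h => he (Or.inr h)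
    obtain ⟨U, hU1, hU2, hU3, hU4⟩ := exists_U hQ hslg hsl hemb A n0 X Y ord e hG hU h3
      (by omega) hord he' i0 hm0
    have hdec := (hw _ _ _ ord hS h3 hord).1 U hU2
    let P : (X.ι → ℤ) → Prop := fun ν => ∃ c : ℤ, -(D : ℤ) ≤ ∑ a, (ν a - c) ∧
      ∀ t, ∑ a, (if t < μ0 a then ν a - c else 0) ≤ D
    let G : Submodule ℚ (A.obj X) := ⨆ (ν) (_ : P ν), Wt (Xop (A.rep X)) ν
    have hUG : U ≤ G := by
      rw [hdec]
      refine iSup_le fun ν v hv => ?_
      by_cases h0 : v = 0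
      · rw [h0]; exact Submodule.zero_mem _
      refine Submodule.mem_iSup_of_mem ν (Submodule.mem_iSup_of_mem ?_ hv.2)
      have hv2 := mem_Wt.1 hv.2
      have hb : ∀ a, |ν a - ν (e i0)| ≤ if Mid n0 ord a then 0 else (B0 : ℤ) := by
        intro a
        split_ifs with h
        · have h1 := hv2 a (e i0)
          rw [hU4 _ _ h hm0 v hv.1] at h1
          have h2 := (smul_eq_zero.1 h1.symm).resolve_right h0
          have h4 : ν a - ν (e i0) = 0 := by exact_mod_cast h2
          simp [h4]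
        · obtain ⟨i, rfl⟩ := he' a h
          obtain ⟨y, rfl⟩ := hU3 hv.1
          have h1 := (hemb A X Y e hU).2.2.1 hYU
          have h2 := hB (i, i0) _ (Hop (Xop (A.rep X)) (e i) (e i0)) (A.map (Mor.emb e))
            (fun y => by
              have f1 := fun a b z => LinearMap.congr_fun (h1 a b) z
              simp only [LinearMap.comp_apply] at f1
              simp only [Hop, LinearMap.sub_apply, Module.End.mul_apply, map_sub, f1])
            y _ h0 (hv2 _ _)
          have h4 := hB0 (i, i0)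
          rw [Int.abs_eq_natAbs]
          exact_mod_cast h2.trans h4
      have hsum : ∑ a, |ν a - ν (e i0)| ≤ D := by
        refine (Finset.sum_le_sum fun a _ => hb a).trans ?_
        rw [Finset.sum_ite, Finset.sum_const_zero, zero_add, Finset.sum_const, nsmul_eq_mul]
        have h1 := ncard_outer hord n0
        have h2 : {a | ¬ Mid n0 ord a} = ↑(Finset.univ.filter fun a => ¬ Mid n0 ord a) := by simp
        rw [h2, Set.ncard_coe_finset] at h1
        have h4 := Nat.mul_le_mul_right B0 h1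
        exact_mod_cast h4
      refine ⟨ν (e i0), ?_, fun t => le_trans (Finset.sum_le_sum fun a _ => ?_) hsum⟩
      · have h1 : ∑ a, -|ν a - ν (e i0)| ≤ ∑ a, (ν a - ν (e i0)) :=
          Finset.sum_le_sum fun a _ => neg_abs_le _
        rw [Finset.sum_neg_distrib] at h1
        omega
      · split_ifs
        · exact le_abs_self _
        · exact abs_nonneg _
    have hlow : ∀ x ∈ lowX (Xop (A.rep X)) ord, ∀ v ∈ G, x v ∈ G := by
      rintro _ ⟨a, b, hab, rfl⟩
      have : G ≤ G.comap (Xop (A.rep X) a b) := by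
        refine iSup₂_le fun ν hν v hv => ?_
        refine Submodule.mem_iSup_of_mem (ν + Pi.single a 1 - Pi.single b 1)
          (Submodule.mem_iSup_of_mem ?_ (hshift ν a b v hv))
        obtain ⟨c, hc1, hc2⟩ := hν
        refine ⟨c, ?_, fun t => le_trans ?_ (hc2 t)⟩
        · refine hc1.trans (le_of_eq ?_)
          simp [Finset.sum_add_distrib, Finset.sum_sub_distrib]
        · have h1 : ∀ x, (if t < μ0 x then (ν + Pi.single a 1 - Pi.single b 1 : X.ι → ℤ) x - c
              else 0) = (if t < μ0 x then ν x - c else 0) +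
              (if x = a then (if t < μ0 a then 1 else 0) else 0) -
              (if x = b then (if t < μ0 b then 1 else 0) else 0) := by
            intro x
            have hne : a ≠ b := fun h => by rw [h] at hab; exact lt_irrefl _ hab
            by_cases ha : x = a
            · subst ha
              by_cases h : t < μ0 x <;> simp [h, hne]
              ring
            · by_cases hb : x = b
              · subst hb
                by_cases h : t < μ0 x <;> simp [h, ha]
                ring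
              · simp [ha, hb]
          simp only [h1, Finset.sum_add_distrib, Finset.sum_sub_distrib, Finset.sum_ite_eq',
            Finset.mem_univ, if_true]
          have h2 : μ0 a ≤ μ0 b := not_lt.1 fun h => lt_asymm hab (hsort _ _ h)
          split_ifs <;> omega
      exact fun v hv => this hv
    have hG' : ⊤ ≤ G := hU1.symm.le.trans (genBy_le hUG hlow)
    refine le_of_Sp (hdis μ0) (hG'.trans (iSup₂_le fun ν hν v hv => mem_Sp hv fun h => ?_))
    obtain ⟨c, hc1, hc2⟩ := hν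
    refine Submodule.mem_iSup_of_mem (fun a => ν a - c) (Submodule.mem_iSup_of_mem ?_ ?_)
    · have h1 := hc2 (μ0 s - (ν s - c))
      have h2 : ∀ a, |ν a - c| =
          2 * (if μ0 s - (ν s - c) < μ0 a then ν a - c else 0) - (ν a - c) := by
        intro a
        have := h a s
        split_ifs with h4
        · rw [abs_of_nonneg (by omega)]; ring
        · rw [abs_of_nonpos (by omega)]; ring
      have h4 := nrm_cast fun a => ν a - c
      simp only [h2] at h4
      rw [Finset.sum_sub_distrib, ← Finset.mul_sum] at h4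
      omega
    · rw [Wt_congr (μ := ν) fun a b => by ring]; exact hv
  obtain ⟨ord, hord, -⟩ := exists_ord (fun _ : X.ι => 0)
  have htop := (hw _ _ _ ord hS h3 hord).1 ⊤ fun _ _ _ _ => Submodule.mem_top
  exact top_le_iff.1 (htop.le.trans (iSup_le fun μ => inf_le_right.trans (key μ)))

open JDeg in
theorem p_delta (hQ : S_Q) (hw : S_hw) (hslg : S_slg) (hsl : S_isSl) (hemb : S_emb)
    (hG0 : S_Gen0) (hlog : S_log) : S_delta := by
  classical
  rintro A d ⟨n0, hG, hA⟩ ⟨N, hN⟩
  have hc : ∀ X : Ob, (X.sum (Ob.of Unit)).card = X.card + 1 := fun X => by simp [Ob.card]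
  refine ⟨⟨2 * n0, fun X hX => ?_, fun X hX => ?_⟩, N + 2 * d + 2 * n0 + 3, fun X hX => ?_⟩
  · have h1 := (hG0 A n0 hG).2 (Ob.of Unit) X hX
    refine top_le_iff.1 fun v _ => ?_
    obtain ⟨x, rfl⟩ := qd_surj A _ X v
    have h2 : ⊤ ≤ (⨆ f : Mor (Ob.std (2 * n0)) X,
        LinearMap.range ((A.delta (Ob.of Unit)).map f)).comap (qd A (Ob.of Unit) X) := by
      refine h1.symm.le.trans (iSup_le fun f => ?_)
      rintro _ ⟨y, rfl⟩
      exact Submodule.mem_iSup_of_mem f ⟨qd A _ _ y, rfl⟩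
    exact h2 Submodule.mem_top
  · obtain ⟨h1, h2⟩ := hA (X.sum (Ob.of Unit)) (by rw [hc]; omega)
    exact ⟨Module.Finite.of_surjective _ (qd_surj A _ X), unip_delta A _ X h2⟩
  · obtain ⟨h1, hU⟩ := hA (X.sum (Ob.of Unit)) (by rw [hc]; omega)
    have hD := hN (X.sum (Ob.of Unit)) (by rw [hc]; omega)
    have hU' := unip_delta A _ X hU
    have hX' : ∀ a b x, Xop ((A.delta (Ob.of Unit)).rep X) a b (qd A _ X x) =
        qd A _ X (Xop (A.rep (X.sum (Ob.of Unit))) (Sum.inl a) (Sum.inl b) x) := by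
      intro a b x
      have h2 := ((hlog _).1 _ (hU (Sum.inl a) (Sum.inl b))).2.2.2.1 _ _ (qd A (Ob.of Unit) X)
        (hU' a b)
      exact (LinearMap.congr_fun (h2.1 (LinearMap.ext fun y => (qd_rep A _ X a b y).symm)) x).symm
    refine top_le_iff.1 fun v _ => ?_
    obtain ⟨x, rfl⟩ := qd_surj A _ X v
    have h2 : ⊤ ≤ (⨆ (μ : X.ι → ℤ) (_ : nrm μ < d),
        Wt (Xop ((A.delta (Ob.of Unit)).rep X)) μ).comap (qd A (Ob.of Unit) X) := by
      refine hD.symm.le.trans (iSup₂_le fun μ hμ y hy => ?_)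
      rw [Submodule.mem_comap]
      by_cases h : nrm (fun a => μ (Sum.inl a)) < d
      · refine Submodule.mem_iSup_of_mem _ (Submodule.mem_iSup_of_mem h (mem_Wt.2 fun a b => ?_))
        have h3 := mem_Wt.1 hy (Sum.inl a) (Sum.inl b)
        rw [← map_smul, ← h3]
        simp only [Hop, LinearMap.sub_apply, Module.End.mul_apply, map_sub, hX']
      · have h3 : nrm μ = nrm (fun a => μ (Sum.inl a)) + (μ (Sum.inr ())).natAbs := by
          simp [nrm, Fintype.sum_sum_type]
        have h4 := top_in_range hQ hw hslg hsl hemb A n0 d X hG hU (by omega) hD (d ^ 2 + 1) μ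
          (by omega) (by omega) (by
            push_cast
            exact lt_add_of_nonneg_of_lt (Finset.sum_nonneg fun _ _ => sq_nonneg _)
              (lt_add_one _)) hy
        rw [qd_eq_zero A _ X h4]
        exact Submodule.zero_mem _
    exact h2 Submodule.mem_top

end Pool.Agent.Lib.MP_49df17_al
end
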