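import Mathlib

/-!
Definitions used in the statement: the IA-automorphism group, the conjugation action on its
rational cohomology, bipartitions and irreducible rational representations of the general
linear group.
-/

namespace Pool.Agent.Lib.MP_49df17_al

variable {ι : Type} [Fintype ι] [DecidableEq ι]

/-- The abelianisation map from the free group on `ι` onto `ℤ^ι`. -/
def abHom (ι : Type) [DecidableEq ι] : FreeGroup ι →* Multiplicative (ι → ℤ) :=
  FreeGroup.lift fun s => Multiplicative.ofAdd (Pi.single s 1)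

/-- The class in `ℤ^ι` of an element of the free group. -/
def abv (g : FreeGroup ι) : ι → ℤ := (abHom ι g).toAdd

omit [Fintype ι] in
theorem abv_mul (g h : FreeGroup ι) : abv (g * h) = abv g + abv h := by
  simp [abv]

omit [Fintype ι] in
theorem abv_one : abv (1 : FreeGroup ι) = 0 := by
  simp [abv]

omit [Fintype ι] in
theorem abv_inv (g : FreeGroup ι) : abv g⁻¹ = -abv g := by
  simp [abv]

omit [Fintype ι] in
theorem abv_of (s : ι) : abv (FreeGroup.of s) = Pi.single s 1 := by
  simp [abv, abHom]

/-- The matrix of the action of an automorphism on the abelianisation: column `j` is the class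
of the image of the generator `j`. -/
def abM (φ : MulAut (FreeGroup ι)) : Matrix ι ι ℤ :=
  Matrix.of fun i j => abv (φ (FreeGroup.of j)) i

theorem abM_mulVec (φ : MulAut (FreeGroup ι)) (g : FreeGroup ι) :
    (abM φ).mulVec (abv g) = abv (φ g) := by
  induction g using FreeGroup.induction_on with
  | C1 => simp [abv_one]
  | of s => ext i; simp [abv_of, abM]
  | inv_of s ih => rw [abv_inv, map_inv, abv_inv, Matrix.mulVec_neg, ih]
  | mul a b iha ihb => rw [abv_mul, map_mul, abv_mul, Matrix.mulVec_add, iha, ihb]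

/-- The matrix of an automorphism, as a monoid homomorphism. -/
def abMHom (ι : Type) [Fintype ι] [DecidableEq ι] : MulAut (FreeGroup ι) →* Matrix ι ι ℤ where
  toFun := abM
  map_one' := by
    ext i j
    simp [abM, abv_of, Matrix.one_apply, Pi.single_apply]
  map_mul' φ ψ := by
    ext i j
    have h := congrFun (abM_mulVec φ (ψ (FreeGroup.of j))) i
    simp only [Matrix.mulVec, dotProduct] at h
    simp only [Matrix.mul_apply]
    simpa [abM] using h.symm

/-- The homomorphism from `Aut(F)` to `GL(ι, ℤ)` given by the action on the abelianisation. -/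
def abGL (ι : Type) [Fintype ι] [DecidableEq ι] : MulAut (FreeGroup ι) →* GL ι ℤ :=
  (abMHom ι).toHomUnits

/-- The IA-automorphism group. -/
def IA (ι : Type) [Fintype ι] [DecidableEq ι] : Subgroup (MulAut (FreeGroup ι)) := (abGL ι).ker

instance : (IA ι).Normal := MonoidHom.normal_ker _

/-- Conjugation `g ↦ φ⁻¹ g φ` of a normal subgroup. -/
def conjN {G : Type} [Group G] (N : Subgroup G) [N.Normal] (φ : G) : N →* N :=
  (MulAut.conjNormal (H := N) φ⁻¹).toMonoidHom

/-- Conjugation `g ↦ φ⁻¹ g φ` of the IA-automorphism group. -/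
def conjIA (φ : MulAut (FreeGroup ι)) : IA ι →* IA ι := conjN (IA ι) φ

/-- The trivial one-dimensional rational representation of a group. -/
noncomputable def trivQ (G : Type) [Group G] : Rep ℚ G := Rep.trivial ℚ G ℚ

/-- The identity of `ℚ` intertwines the trivial representation pulled back along `f` and the
trivial representation. -/
def idQ {G : Type} [Group G] (f : G →* G) :
    Representation.IntertwiningMap ((Representation.trivial ℚ G ℚ).comp f)
      (Representation.trivial ℚ G ℚ) :=
  ⟨LinearMap.id, fun _ => rfl⟩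

/-- The identity of `ℚ`, as a morphism of representations. -/
noncomputable def resQ {G : Type} [Group G] (f : G →* G) : Rep.res f (trivQ G) ⟶ trivQ G :=
  Rep.ofHom (idQ f)

/-- The map induced by an endomorphism `f` of a group on its rational cohomology: a cochain `c`
goes to `(g₁, …, gᵢ) ↦ c (f g₁, …, f gᵢ)`. -/
noncomputable def pull {G : Type} [Group G] (f : G →* G) (i : ℕ) :
    groupCohomology (trivQ G) i ⟶ groupCohomology (trivQ G) i :=
  groupCohomology.map f (resQ f) i

/-- The rational cohomology of the IA-automorphism group. -/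
noncomputable abbrev HIA (ι : Type) [Fintype ι] [DecidableEq ι] (i : ℕ) : ModuleCat ℚ :=
  groupCohomology (trivQ (IA ι)) i

/-- The action of an automorphism `φ` on the cohomology, induced by conjugation: a cochain `c`
goes to `(g₁, …, gᵢ) ↦ c (φ⁻¹ g₁ φ, …, φ⁻¹ gᵢ φ)`. -/
noncomputable def actH (i : ℕ) (φ : MulAut (FreeGroup ι)) : HIA ι i →ₗ[ℚ] HIA ι i :=
  (pull (conjIA φ) i).hom

/-- A bipartition: two weakly decreasing lists of positive integers. -/
structure Bipartition where
  pos : List ℕ
  neg : List ℕ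
  pos_sorted : pos.Pairwise (· ≥ ·)
  neg_sorted : neg.Pairwise (· ≥ ·)
  pos_pos : ∀ a ∈ pos, 0 < a
  neg_pos : ∀ a ∈ neg, 0 < a

/-- The weight `(λ⁺₁, …, λ⁺ₐ, 0, …, 0, -λ⁻_b, …, -λ⁻₁)` of a bipartition, for `n ≥ a + b`. -/
def Bipartition.wt (l : Bipartition) (n : ℕ) (i : Fin n) : ℤ :=
  (l.pos.getD i 0 : ℤ) - (l.neg.getD (n - 1 - i) 0 : ℤ)

/-- A rational representation of `GL(n, ℚ)`: finite-dimensional, with matrix coefficients that
are polynomials in the entries of `g` and in the inverse of the determinant. -/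
def IsRational {n : ℕ} {V : Type} [AddCommGroup V] [Module ℚ V]
    (ρ : Representation ℚ (GL (Fin n) ℚ) V) : Prop :=
  FiniteDimensional ℚ V ∧ ∀ (v : V) (f : Module.Dual ℚ V),
    ∃ (P : MvPolynomial (Fin n × Fin n) ℚ) (m : ℕ), ∀ g : GL (Fin n) ℚ,
      f (ρ g v) = MvPolynomial.eval (fun p => g.val p.1 p.2) P / g.val.det ^ m

/-- `ρ` has a highest weight vector of weight `μ`: a nonzero vector on which each invertible upper
triangular matrix `g` acts by the scalar `∏ gᵢᵢ ^ μᵢ`. -/
def HasHighestWeight {n : ℕ} {V : Type} [AddCommGroup V] [Module ℚ V]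
    (ρ : Representation ℚ (GL (Fin n) ℚ) V) (μ : Fin n → ℤ) : Prop :=
  ∃ v : V, v ≠ 0 ∧ ∀ g : GL (Fin n) ℚ, (∀ i j, j < i → g.val i j = 0) →
    ρ g v = (∏ i, g.val i i ^ μ i) • v

/-- `ρ` is the irreducible rational representation of `GL(n, ℚ)` with highest weight `μ`. -/
def IsIrrepOfWeight {n : ℕ} {V : Type} [AddCommGroup V] [Module ℚ V]
    (ρ : Representation ℚ (GL (Fin n) ℚ) V) (μ : Fin n → ℤ) : Prop :=
  IsRational ρ ∧ ρ.IsIrreducible ∧ HasHighestWeight ρ μ

/-- The image in `GL(n, ℚ)` of an integral invertible matrix. -/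
def toQ (n : ℕ) : GL (Fin n) ℤ →* GL (Fin n) ℚ :=
  Matrix.GeneralLinearGroup.map (Int.castRingHom ℚ)

/-- The property `(SF_i)`: for all large `n` the cohomology of `IA_n` in degree `i` is isomorphic,
equivariantly for the action of `Aut(F_n)` through `GL(n, ℤ)`, to the direct sum of the irreducible
rational representations attached to a fixed finite list of bipartitions. -/
def SF (i : ℕ) : Prop :=
  ∃ (r k : ℕ) (l : Fin k → Bipartition),
    (∀ j, (l j).pos.length + (l j).neg.length ≤ r) ∧
    ∀ n, r ≤ n → ∃ (V : Fin k → ModuleCat.{0} ℚ)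
      (ρ : ∀ j, Representation ℚ (GL (Fin n) ℚ) (V j)),
      (∀ j, IsIrrepOfWeight (ρ j) ((l j).wt n)) ∧
      ∃ e : HIA (Fin n) i ≃ₗ[ℚ] (∀ j, V j), ∀ (φ : MulAut (FreeGroup (Fin n))) (c : HIA (Fin n) i)
        (j : Fin k), e (actH i φ c) j = ρ j (toQ n (abGL (Fin n) φ)) (e c j)

end Pool.Agent.Lib.MP_49df17_al
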