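import Mathlib
import Pool.Agent.Lib.MP_49df17_al.Stat

-- part Pool.Agent.Lib.MP_49df17_al.HBase
section

/-!
Chains on lists, simplicial complexes as predicates on sets, zigzags in double complexes and the
homology of a subgroup computed from lists of group elements.
-/

namespace Pool.Agent.Lib.MP_49df17_al

open Finsupp
open scoped Pointwise

section Chains

variable {V W : Type} {M : Type} [AddCommGroup M] [Module ℚ M]

/-- The set of entries of a list. -/
def vs (l : List V) : Set V := {v | v ∈ l}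

@[simp] theorem mem_vs {l : List V} {v : V} : v ∈ vs l ↔ v ∈ l := Iff.rfl
@[simp] theorem vs_nil : vs ([] : List V) = ∅ := by ext; simp
@[simp] theorem vs_cons (a : V) (l : List V) : vs (a :: l) = insert a (vs l) := by ext; simp
theorem vs_append (l l' : List V) : vs (l ++ l') = vs l ∪ vs l' := by ext; simp
theorem vs_map (f : V → W) (l : List V) : vs (l.map f) = f '' vs l := by ext; simp
theorem vs_finite (l : List V) : (vs l).Finite := List.finite_toSet l
theorem vs_eraseIdx (l : List V) (i : ℕ) : vs (l.eraseIdx i) ⊆ vs l :=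
  fun _ h => List.mem_of_mem_eraseIdx h

theorem vs_ncard_le (l : List V) : (vs l).ncard ≤ l.length := by
  induction l with
  | nil => simp
  | cons a l ih =>
    rw [vs_cons, List.length_cons]
    exact (Set.ncard_insert_le _ _).trans (by omega)

theorem exists_vs_eq {S : Set V} (h : S.Finite) : ∃ l : List V, vs l = S ∧ l.length = S.ncard := by
  refine ⟨h.toFinset.toList, ?_, ?_⟩
  · ext; simp
  · simp [Set.ncard_eq_toFinset_card S h]

/-- The boundary operator: alternating sum of the deletions. The empty list sits in the bottom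
degree, so this is the augmented complex. -/
noncomputable def bd : (List V →₀ M) →ₗ[ℚ] (List V →₀ M) :=
  Finsupp.lsum ℚ fun l => ∑ i ∈ Finset.range l.length,
    ((-1 : ℚ) ^ i) • (Finsupp.lsingle (l.eraseIdx i) : M →ₗ[ℚ] (List V →₀ M))

theorem bd_single (l : List V) (m : M) :
    bd (single l m) = ∑ i ∈ Finset.range l.length, ((-1 : ℚ) ^ i) • single (l.eraseIdx i) m := by
  simp [bd]

/-- Put a vertex in front of every list. -/
noncomputable def consL (v : V) : (List V →₀ M) →ₗ[ℚ] (List V →₀ M) :=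
  Finsupp.lmapDomain M ℚ (List.cons v)

/-- Apply a vertex map to every list. -/
noncomputable def mapL (f : V → W) : (List V →₀ M) →ₗ[ℚ] (List W →₀ M) :=
  Finsupp.lmapDomain M ℚ (List.map f)

@[simp] theorem consL_single (v : V) (l : List V) (m : M) :
    consL v (single l m) = single (v :: l) m := by simp [consL]

@[simp] theorem mapL_single (f : V → W) (l : List V) (m : M) :
    mapL f (single l m) = single (l.map f) m := by simp [mapL]

@[simp] theorem bd_single_nil (m : M) : bd (single ([] : List V) m) = 0 := by simp [bd_single]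

theorem bd_single_cons (v : V) (l : List V) (m : M) :
    bd (single (v :: l) m) = single l m - consL v (bd (single l m)) := by
  rw [bd_single, bd_single, List.length_cons, Finset.sum_range_succ', map_sum]
  simp only [List.eraseIdx_cons_succ, List.eraseIdx_cons_zero, pow_zero, one_smul, map_smul,
    consL_single, pow_succ, mul_neg, mul_one, neg_smul, Finset.sum_neg_distrib]
  abel

theorem bd_consL (v : V) (c : List V →₀ M) : bd (consL v c) = c - consL v (bd c) := by
  induction c using Finsupp.induction_linear with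
  | zero => simp
  | add a b ha hb => simp only [map_add, ha, hb]; abel
  | single l m => rw [consL_single, bd_single_cons]

theorem bd_bd (c : List V →₀ M) : bd (bd c) = 0 := by
  induction c using Finsupp.induction_linear with
  | zero => simp
  | add a b ha hb => simp [ha, hb]
  | single l m =>
    induction l with
    | nil => simp
    | cons v l ih => rw [bd_single_cons, map_sub, bd_consL, ih]; simp

theorem bd_mapL (f : V → W) (c : List V →₀ M) : bd (mapL f c) = mapL f (bd c) := by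
  induction c using Finsupp.induction_linear with
  | zero => simp
  | add a b ha hb => simp [ha, hb]
  | single l m => simp [bd_single, List.eraseIdx_map]

theorem mapL_mapL {U : Type} (f : V → W) (g : W → U) (c : List V →₀ M) :
    mapL g (mapL f c) = mapL (g ∘ f) c := by
  induction c using Finsupp.induction_linear with
  | zero => simp
  | add a b ha hb => simp [ha, hb]
  | single l m => simp

/-- A simplicial complex is given by a predicate on sets of vertices (only finite sets matter). -/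
abbrev Cx (V : Type) : Type := Set V → Prop

/-- Closed under passing to subsets. -/
def Down (X : Cx V) : Prop := ∀ S T, X S → T ⊆ S → X T

/-- Chains on lists of length `n` whose vertex set is a simplex. -/
def Ch (X : Cx V) (n : ℕ) : Submodule ℚ (List V →₀ ℚ) :=
  Finsupp.supported ℚ ℚ {l | l.length = n ∧ X (vs l)}

/-- Cycles on lists of length `n`. -/
noncomputable def Zc (X : Cx V) (n : ℕ) : Submodule ℚ (List V →₀ ℚ) :=
  Ch X n ⊓ LinearMap.ker bd

/-- Boundaries on lists of length `n`. -/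
noncomputable def Bc (X : Cx V) (n : ℕ) : Submodule ℚ (List V →₀ ℚ) := (Ch X (n + 1)).map bd

/-- The augmented chain complex is exact at lists of length `n` (degree `n - 1`). -/
def ExactAt (X : Cx V) (n : ℕ) : Prop := Zc X n ≤ Bc X n

/-- Exact at all lengths up to `j`. -/
def Acyc (X : Cx V) (j : ℕ) : Prop := ∀ n ≤ j, ExactAt X n

theorem mem_Ch {X : Cx V} {n : ℕ} {c : List V →₀ ℚ} :
    c ∈ Ch X n ↔ ∀ l ∈ c.support, l.length = n ∧ X (vs l) := Iff.rfl

theorem mem_Zc {X : Cx V} {n : ℕ} {c : List V →₀ ℚ} : c ∈ Zc X n ↔ c ∈ Ch X n ∧ bd c = 0 :=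
  Iff.rfl

theorem mem_Bc {X : Cx V} {n : ℕ} {c : List V →₀ ℚ} :
    c ∈ Bc X n ↔ ∃ b ∈ Ch X (n + 1), bd b = c := Iff.rfl

theorem single_mem_Ch {X : Cx V} {n : ℕ} {l : List V} (h1 : l.length = n) (h2 : X (vs l))
    (a : ℚ) : single l a ∈ Ch X n :=
  Finsupp.single_mem_supported ℚ a ⟨h1, h2⟩

/-- To show that a linear map sends chains into a submodule, check it on single lists. -/
theorem Ch_induction {X : Cx V} {n : ℕ} {N : Type} [AddCommGroup N] [Module ℚ N]
    (f : (List V →₀ ℚ) →ₗ[ℚ] N) (U : Submodule ℚ N)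
    (h : ∀ l : List V, l.length = n → X (vs l) → f (single l 1) ∈ U) {c : List V →₀ ℚ}
    (hc : c ∈ Ch X n) : f c ∈ U := by
  have : Ch X n ≤ U.comap f := by
    unfold Ch
    rw [Finsupp.supported_eq_span_single, Submodule.span_le]
    rintro _ ⟨l, hl, rfl⟩
    exact h l hl.1 hl.2
  exact this hc

theorem Ch_mono {X Y : Cx V} {n : ℕ} (h : ∀ l : List V, l.length = n → X (vs l) → Y (vs l)) :
    Ch X n ≤ Ch Y n :=
  Finsupp.supported_mono fun l hl => ⟨hl.1, h l hl.1 hl.2⟩

theorem Zc_mono {X Y : Cx V} {n : ℕ} (h : ∀ l : List V, X (vs l) → Y (vs l)) : Zc X n ≤ Zc Y n :=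
  inf_le_inf_right _ (Ch_mono fun l _ => h l)

theorem Bc_mono {X Y : Cx V} {n : ℕ} (h : ∀ l : List V, X (vs l) → Y (vs l)) : Bc X n ≤ Bc Y n :=
  Submodule.map_mono (Ch_mono fun l _ => h l)

theorem ExactAt.congr {X Y : Cx V} {n : ℕ} (h : ∀ S : Set V, S.Finite → (X S ↔ Y S))
    (hX : ExactAt X n) : ExactAt Y n :=
  (Zc_mono fun l => (h _ (vs_finite l)).2).trans (hX.trans (Bc_mono fun l => (h _ (vs_finite l)).1))

theorem Acyc.congr {X Y : Cx V} {n : ℕ} (h : ∀ S : Set V, S.Finite → (X S ↔ Y S))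
    (hX : Acyc X n) : Acyc Y n := fun m hm => (hX m hm).congr h

theorem Acyc.mono {X : Cx V} {j j' : ℕ} (h : Acyc X j) (hj : j' ≤ j) : Acyc X j' :=
  fun n hn => h n (hn.trans hj)

theorem bd_mem_Ch {X : Cx V} (hX : Down X) {n : ℕ} {c : List V →₀ ℚ} (hc : c ∈ Ch X (n + 1)) :
    bd c ∈ Ch X n := by
  refine Ch_induction bd _ (fun l h1 h2 => ?_) hc
  rw [bd_single]
  refine Submodule.sum_mem _ fun i hi => Submodule.smul_mem _ _ (single_mem_Ch ?_ ?_ _)
  · rw [List.length_eraseIdx_of_lt (Finset.mem_range.1 hi)]; omega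
  · exact hX _ _ h2 (vs_eraseIdx l i)

theorem bd_eq_zero_of_mem_Ch_zero {X : Cx V} {c : List V →₀ ℚ} (hc : c ∈ Ch X 0) : bd c = 0 := by
  refine (Submodule.mem_bot ℚ).1 (Ch_induction bd ⊥ (fun l h1 _ => ?_) hc)
  rw [List.length_eq_zero_iff.1 h1]; simp

theorem Bc_le_Zc {X : Cx V} (hX : Down X) (n : ℕ) : Bc X n ≤ Zc X n := by
  rintro _ ⟨b, hb, rfl⟩
  exact ⟨bd_mem_Ch hX hb, bd_bd b⟩

theorem consL_mem_Ch {X Y : Cx V} {v : V} {n : ℕ}
    (h : ∀ l : List V, X (vs l) → Y (insert v (vs l))) {c : List V →₀ ℚ} (hc : c ∈ Ch X n) :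
    consL v c ∈ Ch Y (n + 1) :=
  Ch_induction (consL v) _ (fun l h1 h2 => by
    rw [consL_single]; exact single_mem_Ch (by simp [h1]) (by simpa using h l h2) _) hc

theorem mapL_mem_Ch {X : Cx V} {Y : Cx W} {f : V → W} {n : ℕ}
    (h : ∀ l : List V, X (vs l) → Y (f '' vs l)) {c : List V →₀ ℚ} (hc : c ∈ Ch X n) :
    mapL f c ∈ Ch Y n :=
  Ch_induction (mapL f) _ (fun l h1 h2 => by
    rw [mapL_single]; exact single_mem_Ch (by simp [h1]) (by rw [vs_map]; exact h l h2) _) hc

/-- Cone lemma: cycles of `X` bound in `Y` if `Y` contains the cone over `X`. -/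
theorem Zc_le_Bc_of_cone {X Y : Cx V} (v : V) (h : ∀ S, S.Finite → X S → Y (insert v S)) (n : ℕ) :
    Zc X n ≤ Bc Y n := fun z hz =>
  ⟨consL v z, consL_mem_Ch (fun l => h _ (vs_finite l)) hz.1, by
    rw [bd_consL, (mem_Zc.1 hz).2]; simp⟩

theorem exactAt_of_cone {X : Cx V} (v : V) (h : ∀ S, S.Finite → X S → X (insert v S)) (n : ℕ) :
    ExactAt X n := Zc_le_Bc_of_cone v h n

/-- A retract of an exact complex is exact. -/
theorem ExactAt.retract {X : Cx V} {Y : Cx W} (f : V → W) (g : W → V)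
    (hf : ∀ S, S.Finite → X S → Y (f '' S)) (hg : ∀ S, S.Finite → Y S → X (g '' S))
    (hfg : ∀ S, Y S → ∀ w ∈ S, f (g w) = w) {n : ℕ} (h : ExactAt X n) : ExactAt Y n := by
  intro z hz
  have h1 : mapL g z ∈ Zc X n :=
    ⟨mapL_mem_Ch (fun l => hg _ (vs_finite l)) hz.1, by
      rw [SetLike.mem_coe, LinearMap.mem_ker, bd_mapL, (mem_Zc.1 hz).2, map_zero]⟩
  obtain ⟨b, hb, e⟩ := h h1
  refine ⟨mapL f b, mapL_mem_Ch (fun l => hf _ (vs_finite l)) hb, ?_⟩
  rw [bd_mapL, e, mapL_mapL]
  have := Ch_induction (X := Y) (n := n) (mapL (f ∘ g) - LinearMap.id) ⊥ (fun l _ h2 => by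
    have : l.map (f ∘ g) = l := by
      conv_rhs => rw [← List.map_id l]
      exact List.map_congr_left fun w hw => hfg _ h2 w hw
    simp [this]) hz.1
  simpa [sub_eq_zero] using this

/-- The prism operator between two vertex maps. -/
noncomputable def prism (f g : V → W) : List V → (List W →₀ ℚ)
  | [] => 0
  | a :: l => single (f a :: g a :: l.map g) 1 - consL (f a) (prism f g l)

/-- The prism operator on chains. -/
noncomputable def prismL (f g : V → W) : (List V →₀ ℚ) →ₗ[ℚ] (List W →₀ ℚ) :=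
  Finsupp.linearCombination ℚ (prism f g)

theorem prismL_single (f g : V → W) (l : List V) : prismL f g (single l 1) = prism f g l := by
  simp [prismL]

theorem prismL_consL (f g : V → W) (a : V) (c : List V →₀ ℚ) :
    prismL f g (consL a c) = consL (f a) (consL (g a) (mapL g c)) - consL (f a) (prismL f g c) := by
  induction c using Finsupp.induction_linear with
  | zero => simp
  | add x y hx hy => simp only [map_add, hx, hy]; abel
  | single l m => simp [prismL, prism, smul_sub]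

theorem bd_prismL (f g : V → W) (c : List V →₀ ℚ) :
    bd (prismL f g c) + prismL f g (bd c) = mapL g c - mapL f c := by
  induction c using Finsupp.induction_linear with
  | zero => simp
  | add x y hx hy =>
    simp only [map_add]
    rw [add_add_add_comm, hx, hy]; abel
  | single l m =>
    have key : ∀ l : List V, bd (prismL f g (single l 1)) + prismL f g (bd (single l 1)) =
        mapL g (single l (1 : ℚ)) - mapL f (single l 1) := by
      intro l
      induction l with
      | nil => simp [prismL, prism]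
      | cons a l ih =>
        have e1 : (single (a :: l) 1 : List V →₀ ℚ) = consL a (single l 1) := by simp
        have e2 : ∀ h : V → W, mapL h (consL a (single l (1 : ℚ))) =
            consL (h a) (mapL h (single l 1)) := by intro h; simp
        have ih' : bd (prismL f g (single l 1)) =
            mapL g (single l (1 : ℚ)) - mapL f (single l 1) - prismL f g (bd (single l 1)) :=
          eq_sub_of_add_eq ih
        rw [e1, prismL_consL, bd_consL, map_sub, map_sub, prismL_consL, bd_consL, bd_consL,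
          bd_consL, ih', e2, e2, bd_mapL]
        simp only [map_sub]
        abel
    have : (single l m : List V →₀ ℚ) = m • single l 1 := by simp
    rw [this]
    simp only [map_smul, ← smul_add, key, smul_sub]

theorem prism_support (f g : V → W) (l : List V) : prism f g l ∈
    Finsupp.supported ℚ ℚ {l' | l'.length = l.length + 1 ∧ vs l' ⊆ f '' vs l ∪ g '' vs l} := by
  induction l with
  | nil => simp [prism]
  | cons a l ih =>
    refine Submodule.sub_mem _ (Finsupp.single_mem_supported ℚ _ ⟨by simp, ?_⟩) ?_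
    · intro w hw
      simp only [mem_vs, List.mem_cons, List.mem_map] at hw
      rcases hw with rfl | rfl | ⟨x, hx, rfl⟩
      · exact Or.inl ⟨a, by simp, rfl⟩
      · exact Or.inr ⟨a, by simp, rfl⟩
      · exact Or.inr ⟨x, by simp [hx], rfl⟩
    · have h := consL_mem_Ch (X := fun S => S ⊆ f '' vs l ∪ g '' vs l)
        (Y := fun S => S ⊆ f '' vs (a :: l) ∪ g '' vs (a :: l)) (v := f a) (n := l.length + 1)
        (fun l' hl' => by
          intro w hw
          rcases hw with rfl | hw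
          · exact Or.inl ⟨a, by simp, rfl⟩
          · rcases hl' hw with ⟨x, hx, rfl⟩ | ⟨x, hx, rfl⟩
            · exact Or.inl ⟨x, by simp [mem_vs.1 hx], rfl⟩
            · exact Or.inr ⟨x, by simp [mem_vs.1 hx], rfl⟩) ih
      exact h

/-- Contiguous vertex maps give homologous cycles. -/
theorem mapL_sub_mapL_mem_Bc {Y : Cx W} (hY : Down Y) (f g : V → W) {n : ℕ} {z : List V →₀ ℚ}
    (hz : ∀ l ∈ z.support, l.length = n ∧ Y (f '' vs l ∪ g '' vs l)) (h0 : bd z = 0) :
    mapL g z - mapL f z ∈ Bc Y n := by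
  refine ⟨prismL f g z, ?_, by simpa [h0] using bd_prismL f g z⟩
  refine Ch_induction (X := fun S => Y (f '' S ∪ g '' S)) (n := n) (prismL f g) _
    (fun l h1 h2 => ?_) hz
  rw [prismL_single]
  intro l' hl'
  have h3 := prism_support f g l hl'
  exact ⟨by rw [h3.1, h1], hY _ _ h2 h3.2⟩

/-- Chains with values in a coefficient system `𝒜` of submodules. -/
def ChC (𝒜 : Set V → Submodule ℚ M) (X : Cx V) (n : ℕ) : Submodule ℚ (List V →₀ M) where
  carrier := {c | ∀ l, c l ∈ 𝒜 (vs l) ∧ (c l ≠ 0 → l.length = n ∧ X (vs l))}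
  add_mem' := by
    intro a b ha hb l
    refine ⟨Submodule.add_mem _ (ha l).1 (hb l).1, fun h => ?_⟩
    by_cases h1 : a l = 0
    · exact (hb l).2 (by simpa [h1] using h)
    · exact (ha l).2 h1
  zero_mem' := fun l => ⟨Submodule.zero_mem _, fun h => absurd rfl h⟩
  smul_mem' := by
    intro r a ha l
    refine ⟨Submodule.smul_mem _ _ (ha l).1, fun h => (ha l).2 fun h1 => h ?_⟩
    simp [h1]

/-- Exactness with coefficients at lists of length `n`. -/
def ExactC (𝒜 : Set V → Submodule ℚ M) (X : Cx V) (n : ℕ) : Prop :=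
  ∀ c ∈ ChC 𝒜 X n, bd c = 0 → ∃ b ∈ ChC 𝒜 X (n + 1), bd b = c

end Chains

section Zigzag

variable {T : Type} [AddCommGroup T] [Module ℚ T]

/-- A double complex inside one vector space, with commuting differentials. -/
structure DC (T : Type) [AddCommGroup T] [Module ℚ T] where
  D : ℕ → ℕ → Submodule ℚ T
  dv : T →ₗ[ℚ] T
  dh : T →ₗ[ℚ] T
  dv_mem : ∀ p s, ∀ x ∈ D (p + 1) s, dv x ∈ D p s
  dv_zero : ∀ s, ∀ x ∈ D 0 s, dv x = 0
  dh_mem : ∀ p s, ∀ x ∈ D p (s + 1), dh x ∈ D p s
  dh_zero : ∀ p, ∀ x ∈ D p 0, dh x = 0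
  dh_dh : ∀ x, dh (dh x) = 0
  dv_dv : ∀ x, dv (dv x) = 0
  comm : ∀ x, dv (dh x) = dh (dv x)

/-- A zigzag of length `m` starting from `z` in position `(j, 0)`. -/
def DC.Zig (K : DC T) (j : ℕ) (z : T) (c : ℕ → T) (m : ℕ) : Prop :=
  (∀ i ≤ m, c i ∈ K.D (j - i) (i + 1)) ∧ K.dh (c 0) = z ∧ ∀ i < m, K.dh (c (i + 1)) = K.dv (c i)

/-- Zigzags exist when the rows are exact in the relevant places. -/
theorem DC.exists_zig (K : DC T) {j m : ℕ} (hm : m ≤ j) {z : T} (hz : z ∈ K.D j 0)
    (h0 : K.dv z = 0)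
    (hrow : ∀ i ≤ m, ∀ x ∈ K.D (j - i) i, K.dh x = 0 → ∃ y ∈ K.D (j - i) (i + 1), K.dh y = x) :
    ∃ c, K.Zig j z c m := by
  induction m with
  | zero =>
    obtain ⟨y, hy, e⟩ := hrow 0 le_rfl z hz (K.dh_zero _ _ hz)
    exact ⟨fun _ => y, fun i hi => by obtain rfl : i = 0 := by omega
                                      exact hy, e, fun i hi => by omega⟩
  | succ m ih =>
    obtain ⟨c, h1, h2, h3⟩ := ih (by omega) fun i hi => hrow i (by omega)
    have hc := h1 m le_rfl
    have e : j - m = j - (m + 1) + 1 := by omega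
    rw [e] at hc
    have hcyc : K.dh (K.dv (c m)) = 0 := by
      rw [← K.comm]
      cases m with
      | zero => rw [h2, h0]
      | succ m => rw [h3 m (by omega), K.dv_dv]
    obtain ⟨y, hy, ey⟩ := hrow (m + 1) le_rfl _ (K.dv_mem _ _ _ hc) hcyc
    refine ⟨fun i => if i ≤ m then c i else y, fun i hi => ?_, by simpa using h2, fun i hi => ?_⟩
    · by_cases h : i ≤ m
      · simpa [h] using h1 i h
      · obtain rfl : i = m + 1 := by omega
        simpa using hy
    · by_cases h : i + 1 ≤ m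
      · have h' : i ≤ m := by omega
        simpa [h, h'] using h3 i (by omega)
      · obtain rfl : i = m := by omega
        simpa using ey

/-- Shortening a zigzag whose last term is a vertical cycle. `Ops` is a monoid of operators on the
double complex; the hypothesis is a vanishing statement for the second page, up to `Ops`. -/
theorem DC.shorten (K : DC T) (Ops : Submonoid (Module.End ℚ T))
    (hD : ∀ o ∈ Ops, ∀ p s, ∀ x ∈ K.D p s, o x ∈ K.D p s)
    (hv : ∀ o ∈ Ops, ∀ x, K.dv (o x) = o (K.dv x)) (hh : ∀ o ∈ Ops, ∀ x, K.dh (o x) = o (K.dh x))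
    {j m : ℕ} (hm : m ≤ j) {z : T} {c : ℕ → T} (hc : K.Zig j z c m) (hlast : K.dv (c m) = 0)
    (hcol : ∀ i, 1 ≤ i → i ≤ m → ∀ x ∈ K.D (j - i) (i + 1), K.dv x = 0 →
      (∃ y ∈ K.D (j - i + 1) i, K.dh x = K.dv y) →
      ∃ o ∈ Ops, ∃ b ∈ K.D (j - i) (i + 2), ∃ b' ∈ K.D (j - i + 1) (i + 1),
        K.dv b = 0 ∧ o x = K.dh b + K.dv b') :
    ∃ o ∈ Ops, ∃ y ∈ K.D j 1, K.dv y = 0 ∧ K.dh y = o z := by
  induction m generalizing z c with
  | zero => exact ⟨1, Ops.one_mem, c 0, hc.1 0 le_rfl, hlast, hc.2.1⟩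
  | succ m ih =>
    obtain ⟨h1, h2, h3⟩ := hc
    have e : j - m = j - (m + 1) + 1 := by omega
    obtain ⟨o, ho, b, -, b', hb', hb0, eo⟩ := hcol (m + 1) (by omega) le_rfl _ (h1 _ le_rfl) hlast
      ⟨c m, by rw [← e]; exact h1 m (by omega), h3 m (by omega)⟩
    have hz : K.Zig j (o z) (fun i => if i = m then o (c m) - K.dh b' else o (c i)) m := by
      refine ⟨fun i hi => ?_, ?_, fun i hi => ?_⟩
      · by_cases h : i = m
        · subst h
          simp only [if_true]
          exact Submodule.sub_mem _ (hD o ho _ _ _ (h1 i (by omega)))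
            (by rw [e]; exact K.dh_mem _ _ _ hb')
        · simp only [h, if_false]; exact hD o ho _ _ _ (h1 i (by omega))
      · by_cases h : 0 = m
        · subst h; simp [hh o ho, K.dh_dh, h2]
        · simp [h, hh o ho, h2]
      · have h' : i ≠ m := by omega
        by_cases h : i + 1 = m
        · subst h; simp [hh o ho, hv o ho, K.dh_dh, h3 i (by omega)]
        · simp [h, h', hh o ho, hv o ho, h3 i (by omega)]
    have hl : K.dv ((fun i => if i = m then o (c m) - K.dh b' else o (c i)) m) = 0 := by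
      simp only [if_true, map_sub]
      rw [hv o ho, ← h3 m (by omega), ← hh o ho, eo, map_add, K.dh_dh, K.comm]
      simp
    obtain ⟨o', ho', y, hy, hy0, ey⟩ := ih (by omega) hz hl fun i hi1 hi2 => hcol i hi1 (by omega)
    exact ⟨o' * o, Ops.mul_mem ho' ho, y, hy, hy0, ey⟩

end Zigzag

section Groups

variable {Γ Γ' : Type} [Group Γ] [Group Γ']

/-- A group acts on lists entry by entry. -/
instance listAction {V : Type} [MulAction Γ V] : MulAction Γ (List V) where
  smul g l := l.map (g • ·)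
  one_smul l := by change l.map _ = l; simp
  mul_smul g h l := by change l.map _ = (l.map _).map _; simp [mul_smul]

theorem smul_list {V : Type} [MulAction Γ V] (g : Γ) (l : List V) : g • l = l.map (g • ·) := rfl

theorem vs_smul {V : Type} [MulAction Γ V] (g : Γ) (l : List V) : vs (g • l) = g • vs l := by
  rw [smul_list, vs_map]; rfl

/-- The permutation representation on finitely supported functions. -/
noncomputable def perm (Γ : Type) [Group Γ] (α : Type) [MulAction Γ α] :
    Representation ℚ Γ (α →₀ ℚ) where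
  toFun g := Finsupp.lmapDomain ℚ ℚ (g • ·)
  map_one' := by ext; simp
  map_mul' g h := by ext; simp [mul_smul]

@[simp] theorem perm_single {α : Type} [MulAction Γ α] (g : Γ) (a : α) (r : ℚ) :
    perm Γ α g (single a r) = single (g • a) r := by simp [perm]

/-- The kernel of the map to the coinvariants under `J`. -/
noncomputable def IS (J : Subgroup Γ) (α : Type) [MulAction Γ α] : Submodule ℚ (α →₀ ℚ) :=
  Submodule.span ℚ {x | ∃ j ∈ J, ∃ a : α, x = single (j • a) 1 - single a 1}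

theorem IS_mono {J J' : Subgroup Γ} (h : J ≤ J') (α : Type) [MulAction Γ α] : IS J α ≤ IS J' α :=
  Submodule.span_mono fun _ ⟨j, hj, a, e⟩ => ⟨j, h hj, a, e⟩

theorem perm_sub_mem_IS {J : Subgroup Γ} {α : Type} [MulAction Γ α] {j : Γ} (hj : j ∈ J)
    (c : α →₀ ℚ) : perm Γ α j c - c ∈ IS J α := by
  induction c using Finsupp.induction_linear with
  | zero => simp
  | add x y hx hy =>
    have := Submodule.add_mem _ hx hy
    simp only [map_add]; convert this using 1; abel
  | single a r =>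
    have := Submodule.smul_mem (IS J α) r (Submodule.subset_span ⟨j, hj, a, rfl⟩)
    simpa [smul_sub] using this

/-- To show that a linear map sends `IS J` into a submodule, check the generators. -/
theorem IS_induction {J : Subgroup Γ} {α : Type} [MulAction Γ α] {N : Type} [AddCommGroup N]
    [Module ℚ N] (f : (α →₀ ℚ) →ₗ[ℚ] N) (U : Submodule ℚ N)
    (h : ∀ j ∈ J, ∀ a : α, f (single (j • a) 1) - f (single a 1) ∈ U) {c : α →₀ ℚ}
    (hc : c ∈ IS J α) : f c ∈ U := by
  have : IS J α ≤ U.comap f := by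
    rw [IS, Submodule.span_le]
    rintro _ ⟨j, hj, a, rfl⟩
    simpa using h j hj a
  exact this hc

/-- Remove the component on the empty list. -/
noncomputable def killNil {V : Type} : (List V →₀ ℚ) →ₗ[ℚ] (List V →₀ ℚ) :=
  LinearMap.id - (Finsupp.lsingle []).comp (Finsupp.lapply [])

theorem killNil_single {V : Type} (l : List V) (r : ℚ) :
    killNil (single l r) = if l = [] then 0 else single l r := by
  by_cases h : l = []
  · simp [killNil, h]
  · simp [killNil, h]

/-- The boundary operator of the non-augmented complex. -/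
noncomputable def dE {V : Type} : (List V →₀ ℚ) →ₗ[ℚ] (List V →₀ ℚ) := killNil.comp bd

theorem dE_mapL {V W : Type} (f : V → W) (c : List V →₀ ℚ) : dE (mapL f c) = mapL f (dE c) := by
  have : ∀ c : List V →₀ ℚ, killNil (mapL f c) = mapL f (killNil c) := by
    intro c
    induction c using Finsupp.induction_linear with
    | zero => simp
    | add x y hx hy => simp [hx, hy]
    | single l r =>
      rw [mapL_single, killNil_single, killNil_single]
      by_cases h : l = [] <;> simp [h]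
  simp [dE, bd_mapL, this]

theorem dE_dE {V : Type} (c : List V →₀ ℚ) : dE (dE c) = 0 := by
  simp [dE, killNil, bd_bd]

/-- All chains on lists of length `n`. -/
abbrev Cn (V : Type) (n : ℕ) : Submodule ℚ (List V →₀ ℚ) := Ch (fun _ : Set V => True) n

theorem killNil_of_mem {V : Type} {X : Cx V} {n : ℕ} {c : List V →₀ ℚ} (hc : c ∈ Ch X (n + 1)) :
    killNil c = c := by
  have := Ch_induction (X := X) (n := n + 1) (killNil - LinearMap.id) ⊥ (fun l h1 _ => by
    have : l ≠ [] := by rintro rfl; simp at h1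
    simp [killNil_single, this]) hc
  simpa [sub_eq_zero] using this

theorem dE_eq_bd {V : Type} {n : ℕ} {c : List V →₀ ℚ} (hc : c ∈ Cn V (n + 2)) : dE c = bd c :=
  killNil_of_mem (bd_mem_Ch (fun _ _ _ _ => trivial) hc)

theorem dE_eq_zero {V : Type} {c : List V →₀ ℚ} (hc : c ∈ Cn V 1) : dE c = 0 := by
  refine (Submodule.mem_bot ℚ).1 (Ch_induction dE ⊥ (fun l h1 _ => ?_) hc)
  obtain ⟨a, rfl⟩ := List.length_eq_one_iff.1 h1
  simp [dE, bd_single, killNil_single]

theorem perm_list {V : Type} [MulAction Γ V] (g : Γ) (c : List V →₀ ℚ) :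
    perm Γ (List V) g c = mapL (g • ·) c := rfl

/-- Cycles of degree `q` modulo `J`. -/
noncomputable def Zs (J : Subgroup Γ) (q : ℕ) : Submodule ℚ (List Γ →₀ ℚ) :=
  Cn Γ (q + 1) ⊓ (IS J (List Γ)).comap dE

/-- Boundaries of degree `q` modulo `J`. -/
noncomputable def Bs (J : Subgroup Γ) (q : ℕ) : Submodule ℚ (List Γ →₀ ℚ) :=
  (Cn Γ (q + 2)).map dE ⊔ IS J (List Γ)

/-- The rational homology of the subgroup `J` in degree `q`, computed from lists of elements of
the ambient group. -/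
abbrev Hq (J : Subgroup Γ) (q : ℕ) : Type := Zs J q ⧸ (Bs J q).comap (Zs J q).subtype

/-- The map on homology induced by a map `f` of ambient groups that is equivariant along a map
from `J` to `J'`. -/
noncomputable def Hlift {J : Subgroup Γ} {J' : Subgroup Γ'} (f : Γ → Γ')
    (hf : ∀ j ∈ J, ∃ j' ∈ J', ∀ x, f (j * x) = j' * f x) (q : ℕ) : Hq J q →ₗ[ℚ] Hq J' q :=
  have hI : ∀ c ∈ IS J (List Γ), mapL f c ∈ IS J' (List Γ') := fun c hc =>
    IS_induction (mapL f) _ (fun j hj l => by
      obtain ⟨j', hj', e⟩ := hf j hj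
      refine Submodule.subset_span ⟨j', hj', l.map f, ?_⟩
      simp [smul_list, Function.comp_def, e]) hc
  Submodule.mapQ _ _
    ((mapL f).restrict fun c hc =>
      ⟨mapL_mem_Ch (fun _ _ => trivial) hc.1, by
        have := hI _ hc.2
        rwa [← dE_mapL] at this⟩)
    (by
      rintro ⟨c, hc⟩ h
      obtain ⟨_, ⟨b, hb, rfl⟩, y, hy, e⟩ := Submodule.mem_sup.1 h
      refine Submodule.mem_sup.2 ⟨_, ⟨mapL f b, mapL_mem_Ch (fun _ _ => trivial) hb, rfl⟩,
        mapL f y, hI y hy, ?_⟩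
      change _ = mapL f c
      rw [dE_mapL, ← map_add, e]; rfl)

theorem Hlift_mk {J : Subgroup Γ} {J' : Subgroup Γ'} (f : Γ → Γ')
    (hf : ∀ j ∈ J, ∃ j' ∈ J', ∀ x, f (j * x) = j' * f x) (q : ℕ) (c : Zs J q) :
    ∃ h, Hlift f hf q (Submodule.Quotient.mk c) = Submodule.Quotient.mk ⟨mapL f c.1, h⟩ :=
  ⟨_, rfl⟩

theorem Hq_mk_eq {J : Subgroup Γ} {q : ℕ} (c c' : Zs J q) :
    (Submodule.Quotient.mk c : Hq J q) = Submodule.Quotient.mk c' ↔ c.1 - c'.1 ∈ Bs J q :=
  Submodule.Quotient.eq _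

theorem Hlift_comp {Γ'' : Type} [Group Γ''] {J : Subgroup Γ} {J' : Subgroup Γ'}
    {J'' : Subgroup Γ''} (f : Γ → Γ') (g : Γ' → Γ'') (hf hg hgf) (q : ℕ) (x : Hq J q) :
    Hlift (J := J') (J' := J'') g hg q (Hlift f hf q x) = Hlift (g ∘ f) hgf q x := by
  induction x using Submodule.Quotient.induction_on with
  | H c => exact congrArg _ (Subtype.ext (mapL_mapL f g c.1))

theorem Hlift_id {J : Subgroup Γ} (h) (q : ℕ) (x : Hq J q) : Hlift (J' := J) id h q x = x := by
  induction x using Submodule.Quotient.induction_on with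
  | H c => exact congrArg _ (Subtype.ext (by change mapL id c.1 = c.1; simp [mapL]))

/-- The map on homology induced by a group homomorphism. -/
noncomputable def Hmap {J : Subgroup Γ} {J' : Subgroup Γ'} (f : Γ →* Γ') (h : ∀ j ∈ J, f j ∈ J')
    (q : ℕ) : Hq J q →ₗ[ℚ] Hq J' q :=
  Hlift f (fun j hj => ⟨f j, h j hj, fun x => map_mul f j x⟩) q

/-- The map on homology induced by an inclusion of subgroups. -/
noncomputable def Hinc {J J' : Subgroup Γ} (h : J ≤ J') (q : ℕ) : Hq J q →ₗ[ℚ] Hq J' q :=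
  Hlift id (fun j hj => ⟨j, h hj, fun _ => rfl⟩) q

/-- The action of the ambient group on the homology of a normal subgroup. -/
noncomputable def Hrep (J : Subgroup Γ) [hJ : J.Normal] (q : ℕ) : Representation ℚ Γ (Hq J q) where
  toFun g := Hlift (g * ·) (fun j hj => ⟨g * j * g⁻¹, hJ.conj_mem j hj g, fun x => by group⟩) q
  map_one' := LinearMap.ext fun x => by
    have : (fun y : Γ => 1 * y) = id := by ext; simp
    simp only [this]
    exact Hlift_id _ q x
  map_mul' g h := LinearMap.ext fun x => by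
    induction x using Submodule.Quotient.induction_on with
    | H c =>
      have : (fun y : Γ => g * h * y) = (g * ·) ∘ (h * ·) := by ext; simp [mul_assoc]
      refine congrArg _ (Subtype.ext ?_)
      change mapL (fun y : Γ => g * h * y) c.1 = mapL (g * ·) (mapL (h * ·) c.1)
      rw [mapL_mapL, this]

theorem Hrep_mk (J : Subgroup Γ) [J.Normal] (q : ℕ) (g : Γ) (c : Zs J q) :
    ∃ h, Hrep J q g (Submodule.Quotient.mk c) =
      Submodule.Quotient.mk ⟨perm Γ (List Γ) g c.1, h⟩ := ⟨_, rfl⟩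

theorem Hrep_of_mem (J : Subgroup Γ) [J.Normal] (q : ℕ) {j : Γ} (hj : j ∈ J) (x : Hq J q) :
    Hrep J q j x = x := by
  induction x using Submodule.Quotient.induction_on with
  | H c =>
    obtain ⟨h, e⟩ := Hrep_mk J q j c
    rw [e, Hq_mk_eq]
    exact Submodule.mem_sup_right (perm_sub_mem_IS hj _)

/-- The product of the operators `g - 1` over a list. -/
noncomputable def opL (α : Type) [MulAction Γ α] (L : List Γ) : Module.End ℚ (α →₀ ℚ) :=
  (L.map fun g => perm Γ α g - 1).prod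

/-- Every homology class of `J` of degree at most `k` is killed by a product of operators `g - 1`
with `g` in `Good`. -/
def Tors (J : Subgroup Γ) (Good : Set Γ) (k : ℕ) : Prop :=
  ∀ q ≤ k, ∀ c ∈ Zs J q, ∃ L : List Γ, (∀ g ∈ L, g ∈ Good) ∧ opL (List Γ) L c ∈ Bs J q

theorem Tors.mono {J : Subgroup Γ} {Good Good' : Set Γ} {k k' : ℕ} (h : Tors J Good k)
    (hG : Good ⊆ Good') (hk : k' ≤ k) : Tors J Good' k' := fun q hq c hc =>
  let ⟨L, h1, h2⟩ := h q (hq.trans hk) c hc
  ⟨L, fun g hg => hG (h1 g hg), h2⟩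

/-- An operator acts locally unipotently on a vector. -/
def LU {M : Type} [AddCommGroup M] [Module ℚ M] (E : Module.End ℚ M) (v : M) : Prop :=
  ∃ m : ℕ, ((E - 1) ^ m) v = 0

end Groups

section FP

/-- Modules of type `FP_m`. -/
def FP (R : Type) [Ring R] : ℕ → (M : Type) → [AddCommGroup M] → [Module R M] → Prop
  | 0, M, _, _ => Module.Finite R M
  | m + 1, M, _, _ => ∃ (a : ℕ) (f : (Fin a → R) →ₗ[R] M), Function.Surjective f ∧
      FP R m (LinearMap.ker f)

/-- Representations of type `FP_m`. -/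
def FPr {G V : Type} [Group G] [AddCommGroup V] [Module ℚ V] (ρ : Representation ℚ G V) (m : ℕ) :
    Prop := FP (MonoidAlgebra ℚ G) m ρ.asModule

/-- Groups of type `FP_m` over the rationals. -/
def FPg (G : Type) [Group G] (m : ℕ) : Prop := FPr (Representation.trivial ℚ G ℚ) m

end FP

end Pool.Agent.Lib.MP_49df17_al
end

-- part Pool.Agent.Lib.MP_49df17_al.RBase
section

/-!
Functors on split injections of free abelian groups, root operators of representations of
`GL(ι, ℤ)`, weights, and the complex of handles of `ℤ^ι`.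
-/

namespace Pool.Agent.Lib.MP_49df17_al

open Matrix

/-- A finite index type. -/
structure Ob : Type 1 where
  ι : Type
  [fin : Fintype ι]
  [dec : DecidableEq ι]

instance (X : Ob) : Fintype X.ι := X.fin
instance (X : Ob) : DecidableEq X.ι := X.dec

/-- The number of indices. -/
def Ob.card (X : Ob) : ℕ := Fintype.card X.ι

/-- The object on a finite type. -/
abbrev Ob.of (ι : Type) [Fintype ι] [DecidableEq ι] : Ob := ⟨ι⟩

/-- The standard object of rank `n`. -/
abbrev Ob.std (n : ℕ) : Ob := Ob.of (Fin n)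

/-- The sum of two objects. -/
abbrev Ob.sum (X Y : Ob) : Ob := Ob.of (X.ι ⊕ Y.ι)

@[simp] theorem Ob.card_std (n : ℕ) : (Ob.std n).card = n := Fintype.card_fin n
@[simp] theorem Ob.card_sum (X Y : Ob) : (X.sum Y).card = X.card + Y.card := Fintype.card_sum

/-- A split injection `i` together with a retraction `r`. -/
@[ext] structure Mor (X Y : Ob) where
  i : Matrix Y.ι X.ι ℤ
  r : Matrix X.ι Y.ι ℤ
  ri : r * i = 1

/-- The identity morphism. -/
def Mor.id (X : Ob) : Mor X X := ⟨1, 1, by simp⟩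

/-- Composition of morphisms. -/
def Mor.comp {X Y Z : Ob} (g : Mor Y Z) (f : Mor X Y) : Mor X Z :=
  ⟨g.i * f.i, f.r * g.r, by
    rw [Matrix.mul_assoc, ← Matrix.mul_assoc g.r, g.ri, Matrix.one_mul, f.ri]⟩

/-- The automorphism given by an invertible matrix. -/
def Mor.ofGL {X : Ob} (g : GL X.ι ℤ) : Mor X X := ⟨g.val, (g⁻¹).val, by simp⟩

/-- The sum of two morphisms. -/
def Mor.sum {X Y X' Y' : Ob} (f : Mor X Y) (g : Mor X' Y') : Mor (X.sum X') (Y.sum Y') :=
  ⟨fromBlocks f.i 0 0 g.i, fromBlocks f.r 0 0 g.r, by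
    simp [fromBlocks_multiply, f.ri, g.ri]⟩

/-- The coordinate embedding attached to an injection of index types. -/
def Mor.emb {X Y : Ob} (e : X.ι ↪ Y.ι) : Mor X Y :=
  ⟨Matrix.of fun y x => if e x = y then 1 else 0, Matrix.of fun x y => if e x = y then 1 else 0, by
    ext a b
    simp [Matrix.mul_apply, Matrix.one_apply, eq_comm]⟩

/-- The inclusion of the first summand. -/
def Mor.inl (X T : Ob) : Mor X (X.sum T) := Mor.emb ⟨Sum.inl, Sum.inl_injective⟩

/-- A functor from split injections to rational vector spaces. -/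
structure VIC : Type 1 where
  obj : Ob → ModuleCat.{0} ℚ
  map : ∀ {X Y : Ob}, Mor X Y → (obj X →ₗ[ℚ] obj Y)
  map_id : ∀ X, map (Mor.id X) = LinearMap.id
  map_comp : ∀ {X Y Z : Ob} (g : Mor Y Z) (f : Mor X Y), map (g.comp f) = (map g).comp (map f)

/-- The representation of `GL(ι, ℤ)` on a value of the functor. -/
def VIC.rep (A : VIC) (X : Ob) : Representation ℚ (GL X.ι ℤ) (A.obj X) where
  toFun g := A.map (Mor.ofGL g)
  map_one' := by
    have : Mor.ofGL (1 : GL X.ι ℤ) = Mor.id X := by ext <;> simp [Mor.ofGL, Mor.id]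
    rw [this, A.map_id]; rfl
  map_mul' g h := by
    have : Mor.ofGL (g * h) = (Mor.ofGL g).comp (Mor.ofGL h) := by
      ext <;> simp [Mor.ofGL, Mor.comp]
    rw [this, A.map_comp]; rfl

theorem Mor.id_sum_id (X T : Ob) : (Mor.id X).sum (Mor.id T) = Mor.id (X.sum T) := by
  ext <;> simp [Mor.sum, Mor.id]

theorem Mor.comp_sum_id {X Y Z : Ob} (T : Ob) (g : Mor Y Z) (f : Mor X Y) :
    (g.comp f).sum (Mor.id T) = (g.sum (Mor.id T)).comp (f.sum (Mor.id T)) := by
  apply Mor.ext <;> simp [Mor.sum, Mor.id, Mor.comp, fromBlocks_multiply]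

theorem Mor.sum_comp_inl {X Y T T' : Ob} (f : Mor X Y) (g : Mor T T') :
    (f.sum g).comp (Mor.inl X T) = (Mor.inl Y T').comp f := by
  apply Mor.ext
  · ext (a | a) b <;>
      simp [Mor.sum, Mor.comp, Mor.inl, Mor.emb, Matrix.mul_apply, Fintype.sum_sum_type]
  · ext a (b | b) <;>
      simp [Mor.sum, Mor.comp, Mor.inl, Mor.emb, Matrix.mul_apply, Fintype.sum_sum_type]

/-- The shift of a functor. -/
def VIC.shift (A : VIC) (T : Ob) : VIC where
  obj X := A.obj (X.sum T)
  map f := A.map (f.sum (Mor.id T))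
  map_id X := by rw [Mor.id_sum_id, A.map_id]
  map_comp g f := by rw [Mor.comp_sum_id, A.map_comp]

/-- The cokernel of the map from a functor to its shift by `T`. -/
noncomputable def VIC.delta (A : VIC) (T : Ob) : VIC where
  obj X := ModuleCat.of ℚ (A.obj (X.sum T) ⧸ LinearMap.range (A.map (Mor.inl X T)))
  map {X Y} f := Submodule.mapQ _ _ (A.map (f.sum (Mor.id T))) (by
    rintro _ ⟨x, rfl⟩
    refine ⟨A.map f x, ?_⟩
    rw [← LinearMap.comp_apply, ← A.map_comp, ← Mor.sum_comp_inl f (Mor.id T), A.map_comp]; rfl)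
  map_id X := by
    apply Submodule.linearMap_qext
    ext x
    simp [Mor.id_sum_id, A.map_id]
  map_comp g f := by
    apply Submodule.linearMap_qext
    ext x
    simp [Mor.comp_sum_id, A.map_comp]

section Sl

variable {ι : Type} [Fintype ι] [DecidableEq ι] {M : Type} [AddCommGroup M] [Module ℚ M]

/-- The elementary matrix `1 + e_{ab}` (the identity when `a = b`). -/
def elem (a b : ι) : GL ι ℤ :=
  if h : a = b then 1 else
    ⟨1 + single a b 1, 1 - single a b 1, by
      rw [add_mul, mul_sub, mul_sub, single_mul_single_of_ne _ _ _ _ (Ne.symm h)]; simp, by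
      rw [sub_mul, mul_add, mul_add, single_mul_single_of_ne _ _ _ _ (Ne.symm h)]; simp⟩

/-- The diagonal matrix with `-1` in place `c` and `1` elsewhere. -/
def sgn (c : ι) : GL ι ℤ :=
  ⟨diagonal fun a => if a = c then -1 else 1, diagonal fun a => if a = c then -1 else 1, by
    rw [diagonal_mul_diagonal, ← diagonal_one]; congr 1; ext a; split_ifs <;> simp, by
    rw [diagonal_mul_diagonal, ← diagonal_one]; congr 1; ext a; split_ifs <;> simp⟩

/-- All elementary matrices act locally unipotently. -/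
def Unip (ρ : Representation ℚ (GL ι ℤ) M) : Prop := ∀ a b v, LU (ρ (elem a b)) v

open Classical in
/-- The logarithm of a locally unipotent operator (zero for other operators). -/
noncomputable def ulog (E : Module.End ℚ M) : Module.End ℚ M :=
  if h : ∀ v, LU E v then
    { toFun := fun v => ∑ᶠ k : ℕ, ((-1 : ℚ) ^ k / (k + 1)) • ((E - 1) ^ (k + 1)) v
      map_add' := fun v w => by
        have key : ∀ u, (Function.support fun k : ℕ =>
            ((-1 : ℚ) ^ k / (k + 1)) • ((E - 1) ^ (k + 1)) u).Finite := by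
          intro u
          obtain ⟨m, hm⟩ := h u
          refine (Set.finite_lt_nat m).subset fun k hk => ?_
          by_contra hk'
          obtain ⟨d, hd⟩ : ∃ d, k + 1 = d + m := ⟨k + 1 - m, by simp at hk'; omega⟩
          exact hk (by simp only [hd, pow_add, Module.End.mul_apply, hm, map_zero, smul_zero])
        rw [← finsum_add_distrib (key v) (key w)]
        simp
      map_smul' := fun r v => by
        have key : (Function.support fun k : ℕ =>
            ((-1 : ℚ) ^ k / (k + 1)) • ((E - 1) ^ (k + 1)) v).Finite := by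
          obtain ⟨m, hm⟩ := h v
          refine (Set.finite_lt_nat m).subset fun k hk => ?_
          by_contra hk'
          obtain ⟨d, hd⟩ : ∃ d, k + 1 = d + m := ⟨k + 1 - m, by simp at hk'; omega⟩
          exact hk (by simp only [hd, pow_add, Module.End.mul_apply, hm, map_zero, smul_zero])
        rw [RingHom.id_apply, smul_finsum' r key]
        simp only [map_smul]
        exact finsum_congr fun k => smul_comm _ _ _ }
  else 0

/-- The root operators of a representation of `GL(ι, ℤ)`. -/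
noncomputable def Xop (ρ : Representation ℚ (GL ι ℤ) M) (a b : ι) : Module.End ℚ M :=
  ulog (ρ (elem a b))

/-- The coroot operators. -/
def Hop (X : ι → ι → Module.End ℚ M) (a b : ι) : Module.End ℚ M :=
  X a b * X b a - X b a * X a b

/-- A family of locally nilpotent operators with the relations of the root vectors of `sl`. -/
structure IsSl (X : ι → ι → Module.End ℚ M) : Prop where
  diag : ∀ a, X a a = 0
  rel : ∀ a b c, a ≠ b → b ≠ c → a ≠ c → X a b * X b c - X b c * X a b = X a c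
  comm : ∀ a b c d, b ≠ c → a ≠ d → X a b * X c d = X c d * X a b
  nil : ∀ a b v, ∃ m : ℕ, (X a b ^ m) v = 0

/-- The weight space of an integral weight (it depends on `μ` up to constants). -/
def Wt (X : ι → ι → Module.End ℚ M) (μ : ι → ℤ) : Submodule ℚ M :=
  ⨅ (a) (b), LinearMap.ker (Hop X a b - ((μ a - μ b : ℤ) : ℚ) • (1 : Module.End ℚ M))

theorem mem_Wt {X : ι → ι → Module.End ℚ M} {μ : ι → ℤ} {v : M} :
    v ∈ Wt X μ ↔ ∀ a b, Hop X a b v = ((μ a - μ b : ℤ) : ℚ) • v := by
  simp [Wt, sub_eq_zero]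

/-- Vectors killed by the raising operators for the order given by `ord`. -/
def Sing (X : ι → ι → Module.End ℚ M) (ord : ι → ℕ) : Submodule ℚ M :=
  ⨅ (a) (b) (_ : ord a < ord b), LinearMap.ker (X a b)

theorem mem_Sing {X : ι → ι → Module.End ℚ M} {ord : ι → ℕ} {v : M} :
    v ∈ Sing X ord ↔ ∀ a b, ord a < ord b → X a b v = 0 := by
  simp [Sing]

/-- The sum of the images of the lowering operators. -/
def Low (X : ι → ι → Module.End ℚ M) (ord : ι → ℕ) : Submodule ℚ M :=
  ⨆ (a) (b) (_ : ord b < ord a), LinearMap.range (X a b)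

/-- The smallest subspace that contains `W` and is stable under the operators in `𝔞`. -/
def genBy (𝔞 : Set (Module.End ℚ M)) (W : Submodule ℚ M) : Submodule ℚ M :=
  sInf {U | W ≤ U ∧ ∀ x ∈ 𝔞, ∀ v ∈ U, x v ∈ U}

theorem le_genBy (𝔞 : Set (Module.End ℚ M)) (W : Submodule ℚ M) : W ≤ genBy 𝔞 W :=
  le_sInf fun _ h => h.1

theorem genBy_stable {𝔞 : Set (Module.End ℚ M)} {W : Submodule ℚ M} {x : Module.End ℚ M}
    (hx : x ∈ 𝔞) {v : M} (hv : v ∈ genBy 𝔞 W) : x v ∈ genBy 𝔞 W :=
  Submodule.mem_sInf.2 fun U hU => hU.2 x hx v (Submodule.mem_sInf.1 hv U hU)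

theorem genBy_le {𝔞 : Set (Module.End ℚ M)} {W U : Submodule ℚ M} (h1 : W ≤ U)
    (h2 : ∀ x ∈ 𝔞, ∀ v ∈ U, x v ∈ U) : genBy 𝔞 W ≤ U := sInf_le ⟨h1, h2⟩

/-- All root operators. -/
def allX (X : ι → ι → Module.End ℚ M) : Set (Module.End ℚ M) := {x | ∃ a b, x = X a b}

/-- The lowering operators. -/
def lowX (X : ι → ι → Module.End ℚ M) (ord : ι → ℕ) : Set (Module.End ℚ M) :=
  {x | ∃ a b, ord b < ord a ∧ x = X a b}

/-- A subspace stable under all root operators. -/
def Stable (X : ι → ι → Module.End ℚ M) (U : Submodule ℚ M) : Prop := ∀ a b, ∀ v ∈ U, X a b v ∈ U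

/-- The sum of the absolute values of the coordinates. -/
def nrm (μ : ι → ℤ) : ℕ := ∑ a, (μ a).natAbs

/-- An index with at least `n0` indices before it and at least `n0` after it. -/
def Mid (n0 : ℕ) (ord : ι → ℕ) (a : ι) : Prop :=
  n0 ≤ {b | ord b < ord a}.ncard ∧ n0 ≤ {b | ord a < ord b}.ncard

end Sl

/-- Generated by the value at rank `n0`. -/
def GenIn (A : VIC) (n0 : ℕ) : Prop :=
  ∀ X : Ob, n0 ≤ X.card → ⨆ f : Mor (Ob.std n0) X, LinearMap.range (A.map f) = ⊤

/-- Finite-dimensional and unipotent in large rank, and generated in bounded rank. -/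
def Alg (A : VIC) : Prop :=
  ∃ n0, GenIn A n0 ∧ ∀ X : Ob, n0 ≤ X.card → FiniteDimensional ℚ (A.obj X) ∧ Unip (A.rep X)

/-- In large rank the values are spanned by weight vectors of norm less than `d`. -/
def Deg (A : VIC) (d : ℕ) : Prop :=
  ∃ N, ∀ X : Ob, N ≤ X.card → ⨆ (μ : X.ι → ℤ) (_ : nrm μ < d), Wt (Xop (A.rep X)) μ = ⊤

/-- The usual order of `Fin n` or the reversed one. -/
def ordF (rev : Bool) (n : ℕ) (i : Fin n) : ℕ := if rev then n - i else i

/-- The conclusion about the duals of the values of a functor. -/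
def SFdual (A : VIC) : Prop :=
  ∃ (r k : ℕ) (l : Fin k → Bipartition),
    (∀ j, (l j).pos.length + (l j).neg.length ≤ r) ∧
    ∀ n, r ≤ n → ∃ (V : Fin k → ModuleCat.{0} ℚ)
      (ρ : ∀ j, Representation ℚ (GL (Fin n) ℚ) (V j)),
      (∀ j, IsIrrepOfWeight (ρ j) ((l j).wt n)) ∧
      ∃ e : Module.Dual ℚ (A.obj (Ob.std n)) ≃ₗ[ℚ] (∀ j, V j),
        ∀ (g : GL (Fin n) ℤ) (φ : Module.Dual ℚ (A.obj (Ob.std n))) (j : Fin k),
          e (φ.comp (A.rep (Ob.std n) g⁻¹)) j = ρ j (toQ n g) (e φ j)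

/-- A handle of `ℤ^ι` is a pair of a vector and a covector. -/
abbrev Hz (ι : Type) : Type := (ι → ℤ) × (ι → ℤ)

/-- The complex of handles: the vectors and covectors form dual systems. -/
def WZ (ι : Type) [Fintype ι] : Cx (Hz ι) := fun S =>
  ∀ p ∈ S, ∀ q ∈ S, (p = q → p.2 ⬝ᵥ q.1 = 1) ∧ (p ≠ q → p.2 ⬝ᵥ q.1 = 0)

/-- A morphism avoids a set of handles. -/
def Mor.Avoids {Y X : Ob} (m : Mor Y X) (S : Set (Hz X.ι)) : Prop :=
  ∀ p ∈ S, m.r *ᵥ p.1 = 0 ∧ p.2 ᵥ* m.i = 0

/-- The part of `A X` that comes from the complement of a set of handles. -/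
noncomputable def VIC.sub (A : VIC) (X : Ob) (S : Set (Hz X.ι)) : Submodule ℚ (A.obj X) :=
  ⨆ (Y : Ob) (m : Mor Y X) (_ : m.Avoids S), LinearMap.range (A.map m)

end Pool.Agent.Lib.MP_49df17_al
end

-- part Pool.Agent.Lib.MP_49df17_al.FBase
section

/-!
Spheres of a free group as almost invariant nested subsets, configurations, and the complexes
on which the groups act.
-/

set_option linter.unusedSectionVars false

namespace Pool.Agent.Lib.MP_49df17_al

open Matrix
open scoped Pointwise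

/-- The free group. -/
abbrev Fr (ι : Type) : Type := FreeGroup ι

/-- Its automorphism group. -/
abbrev Au (ι : Type) : Type := MulAut (FreeGroup ι)

/-- Sets of subsets of the free group. -/
abbrev Orb (ι : Type) : Type := Set (Set (FreeGroup ι))

section Basic

variable {ι κ : Type}

/-- A letter of the basis `β`. -/
def letter (β : Fr κ ≃* Fr ι) (s : κ) : Fr ι := β (FreeGroup.of s)

/-- A letter or the inverse of a letter. -/
def sl (β : Fr κ ≃* Fr ι) (h : κ × Bool) : Fr ι := β (FreeGroup.mk [h])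

/-- The elements whose reduced word in the basis `β` starts with a signed letter in `D`. -/
def ideal [DecidableEq κ] (β : Fr κ ≃* Fr ι) (D : Set (κ × Bool)) : Set (Fr ι) :=
  {g | ∃ h ∈ D, (β.symm g).toWord.head? = some h}

/-- The half tree of a signed letter. -/
def hl [DecidableEq κ] (β : Fr κ ≃* Fr ι) (h : κ × Bool) : Set (Fr ι) := ideal β {h}

/-- The starting points of the edges labelled `g` that cross `P`. -/
def sep (P : Set (Fr ι)) (g : Fr ι) : Set (Fr ι) := {h | ¬ (h ∈ P ↔ h * g ∈ P)}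

/-- Almost invariant sets. -/
def AI (P : Set (Fr ι)) : Prop := ∀ g, (sep P g).Finite

/-- Two sets are nested. -/
def Nest (P Q : Set (Fr ι)) : Prop := Disjoint P Q ∨ P ⊆ Q ∨ Q ⊆ P ∨ P ∪ Q = Set.univ

/-- The translates of a set and of its complement. -/
def orb (P : Set (Fr ι)) : Orb ι := {Q | ∃ g : Fr ι, Q = g • P ∨ Q = g • Pᶜ}

/-- A family of pairwise nested sets. -/
def Nested (𝓢 : Orb ι) : Prop := ∀ P ∈ 𝓢, ∀ Q ∈ 𝓢, Nest P Q

/-- A side of a sphere. -/
def IsSph (P : Set (Fr ι)) : Prop := P.Nonempty ∧ Pᶜ.Nonempty ∧ AI P ∧ Nested (orb P)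

/-- All sides of all spheres of a family. -/
def sides (ρ : Set (Orb ι)) : Orb ι := ⋃₀ ρ

/-- A finite system of pairwise nested spheres. -/
def Sys (ρ : Set (Orb ι)) : Prop :=
  ρ.Finite ∧ (∀ o ∈ ρ, ∃ P, IsSph P ∧ o = orb P) ∧ Nested (sides ρ)

open Classical in
/-- The algebraic intersection number of a set with an element. -/
noncomputable def pair (P : Set (Fr ι)) (g : Fr ι) : ℤ :=
  ∑ᶠ h : Fr ι, ((if h * g ∈ P then 1 else 0) - (if h ∈ P then 1 else 0) : ℤ)

/-- The class of a set, a covector. -/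
noncomputable def cls (P : Set (Fr ι)) : ι → ℤ := fun s => pair P (FreeGroup.of s)

/-- The elements that cross no member of the family. -/
def Dg (𝓢 : Orb ι) : Subgroup (Fr ι) where
  carrier := {g | ∀ P ∈ 𝓢, ∀ h, h ∈ P ↔ h * g ∈ P}
  one_mem' := fun _ _ _ => by simp
  mul_mem' := fun {a b} ha hb P hP h => by rw [← mul_assoc, ← hb P hP, ← ha P hP]
  inv_mem' := fun {a} ha P hP h => by rw [ha P hP (h * a⁻¹)]; simp

theorem mem_Dg {𝓢 : Orb ι} {g : Fr ι} : g ∈ Dg 𝓢 ↔ ∀ P ∈ 𝓢, ∀ h, h ∈ P ↔ h * g ∈ P := Iff.rfl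

theorem mem_Dg_sep {𝓢 : Orb ι} {g : Fr ι} : g ∈ Dg 𝓢 ↔ ∀ P ∈ 𝓢, sep P g = ∅ := by
  simp [mem_Dg, sep, Set.eq_empty_iff_forall_notMem]

/-- Every member of the family that misses `1` lies in `t` or is disjoint from it. -/
def Resp (𝓢 : Orb ι) (t : Set (Fr ι)) : Prop := ∀ X ∈ 𝓢, 1 ∉ X → X ⊆ t ∨ Disjoint X t

/-- A side adjacent to the base point. -/
def Adj (ρ : Set (Orb ι)) (X : Set (Fr ι)) : Prop := X ∈ sides ρ ∧ 1 ∉ X ∧ Resp (sides ρ) X

/-- `X` is a translate of `Y`. -/
def Tr (X Y : Set (Fr ι)) : Prop := ∃ g : Fr ι, X = g • Y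

/-- Partial bases. -/
def PB (A : Set (Fr ι)) : Prop := ∃ β : Au ι, A ⊆ Set.range (letter β)

/-- `P` is nested with all basis spheres of `β`. -/
def Compat [DecidableEq κ] (β : Fr κ ≃* Fr ι) (P : Set (Fr ι)) : Prop :=
  ∀ (g : Fr ι) (h : κ × Bool), Nest P (g • hl β h)

/-- A configuration: fixed elements, spheres, and tethered sides. -/
structure Cfg (ι : Type) where
  A : Set (Fr ι)
  ρ : Set (Orb ι)
  T : Orb ι

/-- The group of the base region. -/
def Cfg.D (c : Cfg ι) : Subgroup (Fr ι) := Dg (sides c.ρ)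

/-- Add spheres. -/
def Cfg.add (c : Cfg ι) (S : Set (Orb ι)) : Cfg ι := ⟨c.A, c.ρ ∪ S, c.T⟩

/-- Add fixed elements. -/
def Cfg.addA (c : Cfg ι) (B : Set (Fr ι)) : Cfg ι := ⟨c.A ∪ B, c.ρ, c.T⟩

/-- Remove a fixed element. -/
def Cfg.del (c : Cfg ι) (d : Fr ι) : Cfg ι := ⟨c.A \ {d}, c.ρ, c.T⟩

/-- Valid configurations. -/
structure Valid (c : Cfg ι) : Prop where
  pb : PB c.A
  sys : Sys c.ρ
  dg : ∀ a ∈ c.A, a ∈ c.D
  fin : c.T.Finite
  adj : ∀ t ∈ c.T, Adj c.ρ t
  ntr : ∀ t ∈ c.T, ∀ t' ∈ c.T, Tr t t' → t = t'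

/-- A basis adapted to a configuration. -/
structure Adapted [DecidableEq ι] (β : Au ι) (c : Cfg ι) : Prop where
  letters : c.A ⊆ Set.range (letter β)
  ideals : ∀ o ∈ c.ρ, ∃ D, ideal β D ∈ o
  tethers : ∀ t ∈ c.T, ∃ D, t = ideal β D
  max : ∀ D, ideal β D ∈ sides c.ρ → ∀ s, ¬ ((s, true) ∈ D ↔ (s, false) ∈ D) →
    hl β (s, true) ∈ sides c.ρ

/-- A signed letter that lies in no ideal side. -/
def Free [DecidableEq ι] (β : Au ι) (ρ : Set (Orb ι)) (h : ι × Bool) : Prop :=
  ∀ D, ideal β D ∈ sides ρ → h ∉ D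

/-- A chosen side. -/
noncomputable def rep (o : Orb ι) : Set (Fr ι) := Classical.epsilon (· ∈ o)

theorem rep_mem {o : Orb ι} (h : o.Nonempty) : rep o ∈ o := Classical.epsilon_spec h

/-- The class modulo `p` of a set. -/
noncomputable def clp (p : ℕ) (P : Set (Fr ι)) : ι → ZMod p := fun s => (cls P s : ZMod p)

/-- The class modulo `p` of a sphere, for the chosen side. -/
noncomputable def vo (p : ℕ) (o : Orb ι) : ι → ZMod p := clp p (rep o)

/-- The span of the classes of a family of spheres. -/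
noncomputable def spn (p : ℕ) (S : Set (Orb ι)) : Submodule (ZMod p) (ι → ZMod p) :=
  Submodule.span (ZMod p) (vo p '' S)

/-- The classes are independent modulo `W`. -/
def Indep (p : ℕ) (W : Submodule (ZMod p) (ι → ZMod p)) (S : Set (Orb ι)) : Prop :=
  ∀ o ∈ S, vo p o ∉ W ⊔ spn p (S \ {o})

/-- The complex of independent systems of spheres. -/
def Yx (p : ℕ) (W : Submodule (ZMod p) (ι → ZMod p)) (c : Cfg ι) : Cx (Orb ι) := fun S =>
  Valid (c.add S) ∧ Indep p (W ⊔ spn p c.ρ) S

/-- The complex of systems of spheres whose classes are not in a given subspace. -/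
def Nf (p : ℕ) (W : Submodule (ZMod p) (ι → ZMod p)) (c : Cfg ι) : Cx (Orb ι) := fun S =>
  Valid (c.add S) ∧ ∀ o ∈ S, vo p o ∉ W ⊔ spn p c.ρ

/-- The differences of a set of translates with respect to a base member. -/
def dif (t0 : Set (Fr ι)) (U : Orb ι) : Set (Fr ι) := {g | g ≠ 1 ∧ g • t0 ∈ U}

/-- The complex of tethers of the side `X0`. -/
def At (c : Cfg ι) (X0 : Set (Fr ι)) : Cx (Set (Fr ι)) := fun U =>
  (∀ t ∈ U, Adj c.ρ t ∧ Tr t X0) ∧
    ∀ t0 ∈ U, Disjoint c.A (dif t0 U) ∧ PB (c.A ∪ dif t0 U)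

/-- The configuration that fixes all tethers in `U`. -/
def Cfg.ext (c : Cfg ι) (t0 : Set (Fr ι)) (U : Orb ι) : Cfg ι :=
  ⟨c.A ∪ dif t0 U, c.ρ, insert t0 c.T⟩

/-- The orbit of a set under the powers of `y`. -/
def yo (y : Fr ι) (t : Set (Fr ι)) : Orb ι := {Q | ∃ i : ℤ, Q = y ^ i • t}

/-- The complex of tethers up to powers of `y`. -/
def AtY (c : Cfg ι) (X0 : Set (Fr ι)) (y : Fr ι) : Cx (Orb ι) := fun S =>
  ∃ U, At c X0 U ∧ S = yo y '' U

/-- The sphere lies in the base region and is not one of the spheres of `ρ`. -/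
def InB (ρ : Set (Orb ι)) (o : Orb ι) : Prop :=
  ∃ X ∈ o, 1 ∉ X ∧ ∀ Z ∈ sides ρ, 1 ∉ Z → ¬ X ⊆ Z

/-- Admissible good spheres. -/
def Adm (K : AddSubgroup (ι → ℤ)) (c : Cfg ι) (o : Orb ι) : Prop :=
  Valid (c.add {o}) ∧ (∀ P ∈ o, cls P ∉ K) ∧ InB c.ρ o

/-- There is a good side adjacent to the base point that is not tethered. -/
def L1 (K : AddSubgroup (ι → ℤ)) (c : Cfg ι) : Prop :=
  ∃ X, Adj c.ρ X ∧ cls X ∉ K ∧ ∀ t ∈ c.T, ¬ Tr X t

/-- Live configurations. -/
def Live (K : AddSubgroup (ι → ℤ)) (c : Cfg ι) : Prop := L1 K c ∨ ∃ o, Adm K c o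

/-- The complex of systems of admissible spheres. -/
def NK (K : AddSubgroup (ι → ℤ)) (c : Cfg ι) : Cx (Orb ι) := fun S =>
  Valid (c.add S) ∧ ∀ o ∈ S, Adm K c o

/-- The complex of good spheres dual to `d`. -/
def Dc (K : AddSubgroup (ι → ℤ)) (c : Cfg ι) (d : Fr ι) : Cx (Orb ι) := fun S =>
  Valid ((c.del d).add S) ∧
    ∀ o ∈ S, (∀ P ∈ o, cls P ∉ K) ∧ ∃ X ∈ o, 1 ∉ X ∧ sep X d = {1}

/-- Add spheres with their tethers. -/
def Cfg.addT (c : Cfg ι) (S : Set (Orb ι × List (Set (Fr ι)))) : Cfg ι :=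
  ⟨c.A, c.ρ ∪ Prod.fst '' S, c.T ∪ ⋃ v ∈ S, vs v.2⟩

/-- The complex of independent spheres with `ε` tethers each. -/
def XT (ε : ℕ) (c : Cfg ι) : Cx (Orb ι × List (Set (Fr ι))) := fun S =>
  (∀ v ∈ S, v.2.length = ε ∧ v.2.Nodup ∧ ∀ t ∈ v.2, t ∈ v.1) ∧ Set.InjOn Prod.fst S ∧
    Valid (c.addT S) ∧ Indep 2 (spn 2 c.ρ) (Prod.fst '' S)

/-- The handle of a letter: the letter and its half tree. -/
def hv [DecidableEq κ] (β : Fr κ ≃* Fr ι) (s : κ) : Fr ι × Set (Fr ι) :=
  (letter β s, hl β (s, true))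

/-- The complex of handles of the free group. -/
def HX (ι : Type) [DecidableEq ι] : Cx (Fr ι × Set (Fr ι)) := fun S =>
  ∃ β : Au ι, S ⊆ Set.range (hv β)

/-- The automorphisms that fix a configuration. -/
def Stab (c : Cfg ι) : Subgroup (Au ι) where
  carrier := {γ | (∀ a ∈ c.A, γ a = a) ∧ (∀ o ∈ c.ρ, γ • o = o) ∧ ∀ t ∈ c.T, γ • t = t}
  one_mem' := by simp
  mul_mem' := fun {a b} ha hb =>
    ⟨fun x hx => by rw [MulAut.mul_apply, hb.1 x hx, ha.1 x hx],
      fun o ho => by rw [mul_smul, hb.2.1 o ho, ha.2.1 o ho],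
      fun t ht => by rw [mul_smul, hb.2.2 t ht, ha.2.2 t ht]⟩
  inv_mem' := fun {a} ha =>
    ⟨fun x hx => by rw [MulAut.inv_apply, MulEquiv.symm_apply_eq, ha.1 x hx],
      fun o ho => by rw [inv_smul_eq_iff, ha.2.1 o ho],
      fun t ht => by rw [inv_smul_eq_iff, ha.2.2 t ht]⟩

theorem mem_Stab {c : Cfg ι} {γ : Au ι} : γ ∈ Stab c ↔
    (∀ a ∈ c.A, γ a = a) ∧ (∀ o ∈ c.ρ, γ • o = o) ∧ ∀ t ∈ c.T, γ • t = t := Iff.rfl

/-- A system fills when the number of sides between `1` and `g` is a proper function of `g`. -/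
def Fill (σ : Set (Orb ι)) : Prop :=
  ∀ m : ℕ, {g : Fr ι | {X ∈ sides σ | 1 ∉ X ∧ g ∈ X}.ncard ≤ m}.Finite

/-- The complex of filling systems. -/
def Kx (ι : Type) : Cx (Set (Orb ι)) := fun S => Sys (⋃₀ S) ∧ ∀ σ ∈ S, Fill σ

/-- Extension of an endomorphism by the identity on new letters. -/
def extE (T : Type) (φ : Fr κ →* Fr κ) : Fr (κ ⊕ T) →* Fr (κ ⊕ T) :=
  FreeGroup.lift (Sum.elim (fun a => FreeGroup.map Sum.inl (φ (FreeGroup.of a)))
    fun t => FreeGroup.of (Sum.inr t))

@[simp] theorem extE_inr (T : Type) (φ : Fr κ →* Fr κ) (t : T) :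
    extE T φ (FreeGroup.of (Sum.inr t)) = FreeGroup.of (Sum.inr t) := by simp [extE]

theorem extE_map (T : Type) (φ : Fr κ →* Fr κ) (g : Fr κ) :
    extE T φ (FreeGroup.map Sum.inl g) = FreeGroup.map Sum.inl (φ g) := by
  have : (extE T φ).comp (FreeGroup.map Sum.inl) = (FreeGroup.map Sum.inl).comp φ := by
    ext a; simp [extE]
  exact DFunLike.congr_fun this g

theorem extE_comp (T : Type) (φ ψ : Fr κ →* Fr κ) :
    extE T (φ.comp ψ) = (extE T φ).comp (extE T ψ) := by
  ext (a | t)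
  · have h := extE_map T ψ (FreeGroup.of a)
    have h' := extE_map T (φ.comp ψ) (FreeGroup.of a)
    simp only [FreeGroup.map.of] at h h'
    simp [h, h', extE_map]
  · simp

theorem extE_id (T : Type) : extE T (MonoidHom.id (Fr κ)) = MonoidHom.id _ := by
  ext (a | t) <;> simp [extE]

/-- Extension of an automorphism by the identity on new letters. -/
def extA (T : Type) : Au κ →* Au (κ ⊕ T) where
  toFun φ := MonoidHom.toMulEquiv (extE T φ.toMonoidHom) (extE T φ.symm.toMonoidHom)
    (by rw [← extE_comp, ← extE_id]; congr 1; ext; simp)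
    (by rw [← extE_comp, ← extE_id]; congr 1; ext; simp)
  map_one' := MulEquiv.ext fun g => DFunLike.congr_fun (extE_id T) g
  map_mul' φ ψ := MulEquiv.ext fun g =>
    DFunLike.congr_fun (extE_comp T φ.toMonoidHom ψ.toMonoidHom) g

theorem extA_inr (T : Type) (φ : Au κ) (t : T) :
    extA T φ (FreeGroup.of (Sum.inr t)) = FreeGroup.of (Sum.inr t) :=
  extE_inr T φ.toMonoidHom t

theorem extA_map (T : Type) (φ : Au κ) (g : Fr κ) :
    extA T φ (FreeGroup.map Sum.inl g) = FreeGroup.map Sum.inl (φ g) := extE_map T _ g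

/-- The embedding of automorphism groups given by a splitting. -/
def stabHom {T : Type} (Φ : Fr (κ ⊕ T) ≃* Fr ι) : Au κ →* Au ι :=
  (MulAut.congr Φ).toMonoidHom.comp (extA T)

theorem stabHom_apply {T : Type} (Φ : Fr (κ ⊕ T) ≃* Fr ι) (φ : Au κ) (g : Fr ι) :
    stabHom Φ φ g = Φ (extA T φ (Φ.symm g)) := rfl

end Basic

section Ab

variable {ι κ : Type} [Fintype ι] [DecidableEq ι] [Fintype κ] [DecidableEq κ]

/-- The rank of the image of a subgroup in the abelianisation. -/
noncomputable def rkD (D : Subgroup (Fr ι)) : ℕ :=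
  Module.finrank ℤ (Submodule.span ℤ (abv '' (D : Set (Fr ι))))

/-- The class modulo `p` of an element. -/
def abp (p : ℕ) (g : Fr ι) : ι → ZMod p := fun s => (abv g s : ZMod p)

/-- The covectors modulo `p` that vanish on a subgroup. -/
def Ann (p : ℕ) (D : Subgroup (Fr ι)) : Submodule (ZMod p) (ι → ZMod p) where
  carrier := {φ | ∀ g ∈ D, φ ⬝ᵥ abp p g = 0}
  add_mem' := fun {a b} ha hb g hg => by rw [add_dotProduct, ha g hg, hb g hg, add_zero]
  zero_mem' := fun g _ => zero_dotProduct _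
  smul_mem' := fun r a ha g hg => by rw [smul_dotProduct, ha g hg, smul_zero]

theorem mem_Ann {p : ℕ} {D : Subgroup (Fr ι)} {φ : ι → ZMod p} :
    φ ∈ Ann p D ↔ ∀ g ∈ D, φ ⬝ᵥ abp p g = 0 := Iff.rfl

/-- Partial bases of the base group relative to the fixed elements, all members in `Gd`. -/
def Bx (Gd : Set (Fr ι)) (c : Cfg ι) : Cx (Fr ι) := fun S =>
  (∀ b ∈ S, b ∈ c.D ∧ b ∈ Gd) ∧ Disjoint c.A S ∧ PB (c.A ∪ S)

/-- The elements on which `ψ` does not vanish; all elements when `ψ = 0`. -/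
def Gp (p : ℕ) (ψ : ι → ZMod p) : Set (Fr ι) := {b | ψ = 0 ∨ ψ ⬝ᵥ abp p b ≠ 0}

/-- The elements on which `ψ` vanishes. -/
def G0 (ψ : ι → ℤ) : Set (Fr ι) := {b | ψ ⬝ᵥ abv b = 0}

/-- Systems of admissible spheres that leave free rank at least `r` in the base region. -/
def NKr (K : AddSubgroup (ι → ℤ)) (c : Cfg ι) (r : ℕ) : Cx (Orb ι) := fun S =>
  NK K c S ∧ c.A.ncard + r ≤ rkD (c.add S).D

/-- The image of a handle in the abelianisation. -/
noncomputable def cz (v : Fr ι × Set (Fr ι)) : (ι → ℤ) × (ι → ℤ) := (abv v.1, cls v.2)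

/-- The automorphism acts on the abelianisation as `1 + v ⊗ α`. -/
def HasCl (v α : ι → ℤ) (γ : Au ι) : Prop := abM γ = 1 + vecMulVec v α

theorem abM_mul (γ δ : Au ι) : abM (γ * δ) = abM γ * abM δ := map_mul (abMHom ι) γ δ

theorem abM_one : abM (1 : Au ι) = 1 := map_one (abMHom ι)

theorem mem_IA {γ : Au ι} : γ ∈ IA ι ↔ abM γ = 1 := by
  rw [IA, MonoidHom.mem_ker, ← Units.val_eq_one]; rfl

theorem HasCl.mul {v α w α' : ι → ℤ} {γ δ : Au ι} (h : HasCl v α γ) (h' : HasCl w α' δ)
    (h0 : α ⬝ᵥ w = 0) : abM (γ * δ) = 1 + vecMulVec v α + vecMulVec w α' := by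
  rw [abM_mul, h, h', add_mul, mul_add, mul_add, vecMulVec_mul_vecMulVec, h0]
  simp only [Matrix.one_mul, Matrix.mul_one, zero_smul, vecMulVec_zero, add_zero]
  abel

theorem HasCl.inv {v α : ι → ℤ} {γ : Au ι} (h : HasCl v α γ) (h0 : α ⬝ᵥ v = 0) :
    abM γ⁻¹ = 1 - vecMulVec v α := by
  have h1 : abM γ * (1 - vecMulVec v α) = 1 := by
    rw [h, add_mul, mul_sub, mul_sub, vecMulVec_mul_vecMulVec, h0]; simp
  have h2 : abM γ⁻¹ * abM γ = 1 := by rw [← abM_mul, inv_mul_cancel, abM_one]
  calc abM γ⁻¹ = abM γ⁻¹ * (abM γ * (1 - vecMulVec v α)) := by rw [h1, mul_one]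
    _ = 1 - vecMulVec v α := by rw [← mul_assoc, h2, one_mul]

/-- The automorphisms that fix `y` and act trivially on the abelianisation modulo `y`. -/
def Gh (y : Fr ι) : Subgroup (Au ι) where
  carrier := {γ | γ y = y ∧ ∃ α, α ⬝ᵥ abv y = 0 ∧ HasCl (abv y) α γ}
  one_mem' := ⟨rfl, 0, by simp, by simp [HasCl, abM_one]⟩
  mul_mem' := fun {a b} ⟨ha, α, h1, h2⟩ ⟨hb, α', h1', h2'⟩ =>
    ⟨by rw [MulAut.mul_apply, hb, ha], α + α', by rw [add_dotProduct, h1, h1', add_zero], by
      rw [HasCl, h2.mul h2' h1, vecMulVec_add, add_assoc]⟩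
  inv_mem' := fun {a} ⟨ha, α, h1, h2⟩ =>
    ⟨by rw [MulAut.inv_apply, MulEquiv.symm_apply_eq, ha], -α, by rw [neg_dotProduct, h1, neg_zero],
      by rw [HasCl, h2.inv h1, vecMulVec_neg, sub_eq_add_neg]⟩

theorem mem_Gh {y : Fr ι} {γ : Au ι} :
    γ ∈ Gh y ↔ γ y = y ∧ ∃ α, α ⬝ᵥ abv y = 0 ∧ HasCl (abv y) α γ := Iff.rfl

/-- The good automorphisms of a configuration. -/
def GoodS (y : Fr ι) (K : AddSubgroup (ι → ℤ)) (c : Cfg ι) : Set (Au ι) :=
  {γ | γ ∈ Stab c ∧ ∃ α, α ∉ K ∧ α ⬝ᵥ abv y = 0 ∧ HasCl (abv y) α γ}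

/-- The matrix of an isomorphism of free groups on the abelianisations. -/
def abMat (Φ : Fr κ ≃* Fr ι) : Matrix ι κ ℤ := Matrix.of fun i j => abv (Φ (FreeGroup.of j)) i

theorem abMat_mulVec (Φ : Fr κ ≃* Fr ι) (g : Fr κ) : abMat Φ *ᵥ abv g = abv (Φ g) := by
  induction g using FreeGroup.induction_on with
  | C1 => simp [abv_one]
  | of s => ext i; simp [abv_of, abMat]
  | inv_of s ih => rw [abv_inv, map_inv, abv_inv, Matrix.mulVec_neg, ih]
  | mul a b iha ihb => rw [abv_mul, map_mul, abv_mul, Matrix.mulVec_add, iha, ihb]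

theorem abMat_eq_abM (φ : Au ι) : abMat φ = abM φ := rfl

theorem abMat_trans {μ : Type} [Fintype μ] [DecidableEq μ] (Φ : Fr κ ≃* Fr ι) (Ψ : Fr ι ≃* Fr μ) :
    abMat (Φ.trans Ψ) = abMat Ψ * abMat Φ := by
  ext i j
  have h := congrFun (abMat_mulVec Ψ (Φ (FreeGroup.of j))) i
  simp only [Matrix.mulVec, dotProduct] at h
  simp only [Matrix.mul_apply]
  simpa [abMat] using h.symm

theorem abMat_symm_mul (Φ : Fr κ ≃* Fr ι) : abMat Φ.symm * abMat Φ = 1 := by
  rw [← abMat_trans, MulEquiv.self_trans_symm]; exact abM_one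

theorem abMat_mul_symm (Φ : Fr κ ≃* Fr ι) : abMat Φ * abMat Φ.symm = 1 := by
  rw [← abMat_trans, MulEquiv.symm_trans_self]; exact abM_one

omit [Fintype ι] [Fintype κ] in
theorem abv_map_inl (g : Fr κ) : abv (FreeGroup.map (Sum.inl : κ → κ ⊕ ι) g) =
    Sum.elim (abv g) 0 := by
  induction g using FreeGroup.induction_on with
  | C1 => ext (a | a) <;> simp [abv_one]
  | of s => ext (a | a) <;> simp [abv_of, Pi.single_apply]
  | inv_of s ih => rw [map_inv, abv_inv, ih, abv_inv]; ext (a | a) <;> simp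
  | mul a b iha ihb => rw [map_mul, abv_mul, iha, ihb, abv_mul]; ext (a | a) <;> simp

theorem abM_extA (φ : Au κ) : abM (extA ι φ) = fromBlocks (abM φ) 0 0 1 := by
  ext a (b | b)
  · have h := extA_map ι φ (FreeGroup.of b)
    rw [FreeGroup.map.of] at h
    rcases a with a | a <;> simp [abM, h, abv_map_inl]
  · rcases a with a | a <;> simp [abM, extA_inr, abv_of, Pi.single_apply, Matrix.one_apply]

theorem abM_stabHom {T : Type} [Fintype T] [DecidableEq T] (Φ : Fr (κ ⊕ T) ≃* Fr ι) (φ : Au κ) :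
    abM (stabHom Φ φ) = abMat Φ * fromBlocks (abM φ) 0 0 (1 : Matrix T T ℤ) * abMat Φ.symm := by
  rw [← abM_extA, ← abMat_eq_abM, ← abMat_eq_abM, ← abMat_trans, ← abMat_trans]; rfl

theorem stabHom_IA {T : Type} [Fintype T] [DecidableEq T] (Φ : Fr (κ ⊕ T) ≃* Fr ι) :
    ∀ j ∈ IA κ, stabHom Φ j ∈ IA ι := fun j hj => by
  rw [mem_IA, abM_stabHom, mem_IA.1 hj, fromBlocks_one, Matrix.mul_one, abMat_mul_symm]

end Ab

end Pool.Agent.Lib.MP_49df17_al
end
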