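import Pool.Agent.Lib.MP_49df17_al.Core

-- part Pool.Agent.Lib.MP_49df17_al.E1
section

/-!
Rows and columns of the double complex of a group action, and the torsion transfer.
-/

set_option autoImplicit false

namespace Pool.Agent.Lib.MP_49df17_al

open Finsupp
open scoped Pointwise

namespace JE1

theorem ext_supp {α N : Type} [AddCommGroup N] [Module ℚ N] {f g : (α →₀ ℚ) →ₗ[ℚ] N}
    {y : α →₀ ℚ} (h : ∀ a ∈ y.support, f (single a 1) = g (single a 1)) : f y = g y := by
  rw [← Finsupp.sum_single y, map_finsuppSum, map_finsuppSum]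
  refine Finset.sum_congr rfl fun a ha => ?_
  beta_reduce
  rw [single_eq_smul a (y a), map_smul, map_smul, h a ha]

section Fibre

variable {Γ V : Type}

open Classical in
/-- The part of a chain over a fixed list of group elements. -/
noncomputable def fibG (γ : List Γ) : PT Γ V →ₗ[ℚ] (List V →₀ ℚ) :=
  Finsupp.linearCombination ℚ fun x => if x.1 = γ then single x.2 1 else 0

open Classical in
theorem fibG_atG (γ γ' : List Γ) (c : List V →₀ ℚ) :
    fibG γ (atG γ' c) = if γ' = γ then c else 0 := by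
  induction c using Finsupp.induction_linear with
  | zero => simp
  | add x y hx hy => rw [map_add, map_add, hx, hy]; split_ifs <;> simp
  | single l r =>
    rw [atG_single, fibG, Finsupp.linearCombination_single]
    split_ifs <;> simp

theorem fibG_dhP (γ : List Γ) (y : PT Γ V) : fibG γ (dhP y) = bd (fibG γ y) :=
  PT_ext (f := (fibG γ).comp dhP) (g := bd.comp (fibG γ)) (fun γ' l => by
    rw [← atG_single, LinearMap.comp_apply, LinearMap.comp_apply, dhP_atG, fibG_atG, fibG_atG]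
    split_ifs <;> simp) y

theorem fibG_mem {X : Cx V} {p s : ℕ} (γ : List Γ) {y : PT Γ V} (hy : y ∈ PD Γ X p s) :
    fibG γ y ∈ Ch X s :=
  PD_induction (fibG γ) _ (fun γ' l _ h2 h3 => by
    rw [← atG_single, fibG_atG]
    split_ifs
    exacts [single_mem_Ch h2 h3 1, Submodule.zero_mem _]) hy

theorem exact_PD {X : Cx V} {p s : ℕ} (hX : ExactAt X s) {y : PT Γ V} (hy : y ∈ PD Γ X p s)
    (h0 : dhP y = 0) : ∃ w ∈ PD Γ X p (s + 1), dhP w = y := by
  classical
  have h1 : ∀ γ : List Γ, ∃ b ∈ Ch X (s + 1), bd b = fibG γ y := fun γ =>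
    hX ⟨fibG_mem γ hy, by
      rw [SetLike.mem_coe, LinearMap.mem_ker, ← fibG_dhP, h0, map_zero]⟩
  choose b hb eb using h1
  refine ⟨∑ γ ∈ y.support.image Prod.fst, atG γ (b γ), Submodule.sum_mem _ fun γ hγ => ?_, ?_⟩
  · obtain ⟨a, ha, rfl⟩ := Finset.mem_image.1 hγ
    exact atG_mem_PD (hy ha).1 (hb _)
  · rw [map_sum]
    simp only [dhP_atG, eb]
    have := ext_supp (y := y) (f := ∑ γ ∈ y.support.image Prod.fst, (atG γ).comp (fibG γ))
      (g := LinearMap.id) fun a ha => by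
        obtain ⟨γ, l⟩ := a
        rw [LinearMap.sum_apply, Finset.sum_eq_single γ]
        · rw [LinearMap.comp_apply, ← atG_single, fibG_atG, if_pos rfl]; rfl
        · intro γ' _ hne
          rw [LinearMap.comp_apply, ← atG_single, fibG_atG, if_neg (Ne.symm hne), map_zero]
        · intro h
          exact absurd (Finset.mem_image_of_mem Prod.fst ha) h
    simpa using this

end Fibre

variable {Γ V : Type} [Group Γ] [MulAction Γ V]

theorem perm_mem_PD {X : Cx V} {p s : ℕ} {g : Γ} (hg : ∀ S, X S → X (g • S)) {y : PT Γ V}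
    (hy : y ∈ PD Γ X p s) : perm Γ (List Γ × List V) g y ∈ PD Γ X p s :=
  PD_induction (perm Γ (List Γ × List V) g) _ (fun γ l h1 h2 h3 => by
    rw [perm_single]
    refine Finsupp.single_mem_supported ℚ _ ⟨?_, ?_, ?_⟩
    · simpa [smul_list] using h1
    · simpa [smul_list] using h2
    · change X (vs (g • l))
      rw [vs_smul]
      exact hg _ h3) hy

theorem perm_perm {α : Type} [MulAction Γ α] (g h : Γ) (c : α →₀ ℚ) :
    perm Γ α g (perm Γ α h c) = perm Γ α (g * h) c := by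
  rw [map_mul]; rfl

theorem perm_one {α : Type} [MulAction Γ α] (c : α →₀ ℚ) : perm Γ α 1 c = c := by
  rw [map_one]; rfl

/-! ### Rows -/

theorem exists_nu (J : Subgroup Γ) :
    ∃ ν : Γ → Γ, (∀ g, ν g ∈ J) ∧ ∀ j ∈ J, ∀ g, ν (j * g) = j * ν g := by
  refine ⟨fun g => g * (Quotient.out (Quotient.mk (QuotientGroup.rightRel J) g))⁻¹,
    fun g => ?_, fun j hj g => ?_⟩
  · exact QuotientGroup.rightRel_apply.1 (Quotient.mk_out (s := QuotientGroup.rightRel J) g)
  · have : Quotient.mk (QuotientGroup.rightRel J) (j * g) =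
        Quotient.mk (QuotientGroup.rightRel J) g :=
      (Quotient.sound (QuotientGroup.rightRel_apply.2 (by simpa using hj))).symm
    simp only [this, mul_assoc]

/-- Normalisation of a pair by the first group element. -/
noncomputable def nrm (ν : Γ → Γ) : List Γ × List V → PT Γ V
  | ([], _) => 0
  | (g :: γ, l) => single ((ν g)⁻¹ • (g :: γ, l)) 1

noncomputable def Nm (ν : Γ → Γ) : PT Γ V →ₗ[ℚ] PT Γ V := Finsupp.linearCombination ℚ (nrm ν)

theorem Nm_nil (ν : Γ → Γ) (c : List V →₀ ℚ) : Nm ν (atG ([] : List Γ) c) = 0 := by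
  induction c using Finsupp.induction_linear with
  | zero => simp
  | add x y hx hy => rw [map_add, map_add, hx, hy, add_zero]
  | single l r => rw [atG_single, Nm, Finsupp.linearCombination_single, nrm, smul_zero]

theorem Nm_cons (ν : Γ → Γ) (g : Γ) (γ : List Γ) (c : List V →₀ ℚ) :
    Nm ν (atG (g :: γ) c) = perm Γ (List Γ × List V) (ν g)⁻¹ (atG (g :: γ) c) := by
  induction c using Finsupp.induction_linear with
  | zero => simp
  | add x y hx hy => simp only [map_add, hx, hy]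
  | single l r => rw [atG_single, Nm, Finsupp.linearCombination_single, nrm, perm_single]; simp

theorem Nm_dhP (ν : Γ → Γ) (y : PT Γ V) : Nm ν (dhP y) = dhP (Nm ν y) :=
  PT_ext (f := (Nm ν).comp dhP) (g := dhP.comp (Nm ν)) (fun γ l => by
    rw [← atG_single, LinearMap.comp_apply, LinearMap.comp_apply, dhP_atG]
    rcases γ with _ | ⟨g, γ⟩
    · rw [Nm_nil, Nm_nil, map_zero]
    · rw [Nm_cons, Nm_cons, dhP_perm, dhP_atG]) y

theorem Nm_IS {J : Subgroup Γ} {ν : Γ → Γ} (h : ∀ j ∈ J, ∀ g, ν (j * g) = j * ν g)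
    {y : PT Γ V} (hy : y ∈ IS J (List Γ × List V)) : Nm ν y = 0 :=
  (Submodule.mem_bot ℚ).1 (IS_induction (Nm ν) ⊥ (fun j hj a => by
    obtain ⟨γ, l⟩ := a
    rw [Submodule.mem_bot, sub_eq_zero, ← perm_single, ← atG_single, perm_atG]
    rcases γ with _ | ⟨g, γ⟩
    · exact (Nm_nil ν _).trans (Nm_nil ν _).symm
    · have e : j • (g :: γ) = (j * g) :: j • γ := rfl
      rw [Nm_cons, e, Nm_cons, ← e, ← perm_atG, perm_perm, h j hj]
      simp) hy)

/-! ### Columns -/

open Classical in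
/-- The part of a chain over the orbit of a fixed list of vertices, moved to that list. -/
noncomputable def piL (J : Subgroup Γ) (l : List V) : PT Γ V →ₗ[ℚ] (List Γ →₀ ℚ) :=
  Finsupp.linearCombination ℚ fun x =>
    if h : ∃ j ∈ J, j • l = x.2 then single (h.choose⁻¹ • x.1) 1 else 0

theorem piL_pos {J : Subgroup Γ} {l l' : List V} (h : ∃ j ∈ J, j • l = l') (c : List Γ →₀ ℚ) :
    piL J l (atL l' c) = perm Γ (List Γ) h.choose⁻¹ c := by
  induction c using Finsupp.induction_linear with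
  | zero => simp
  | add x y hx hy => simp only [map_add, hx, hy]
  | single γ r =>
    rw [atL_single, piL, Finsupp.linearCombination_single, dif_pos h, perm_single]; simp

theorem piL_neg {J : Subgroup Γ} {l l' : List V} (h : ¬ ∃ j ∈ J, j • l = l') (c : List Γ →₀ ℚ) :
    piL J l (atL l' c) = 0 := by
  induction c using Finsupp.induction_linear with
  | zero => simp
  | add x y hx hy => rw [map_add, map_add, hx, hy, add_zero]
  | single γ r => rw [atL_single, piL, Finsupp.linearCombination_single, dif_neg h, smul_zero]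

theorem piL_sub {J : Subgroup Γ} {l l' : List V} {j : Γ} (hj : j ∈ J) (e : j • l = l')
    (c : List Γ →₀ ℚ) : piL J l (atL l' c) - perm Γ (List Γ) j⁻¹ c ∈
      IS (J ⊓ MulAction.stabilizer Γ l) (List Γ) := by
  have h : ∃ j ∈ J, j • l = l' := ⟨j, hj, e⟩
  have h1 : h.choose⁻¹ * j ∈ J ⊓ MulAction.stabilizer Γ l := by
    refine ⟨J.mul_mem (J.inv_mem h.choose_spec.1) hj, ?_⟩
    change (h.choose⁻¹ * j) • l = l
    rw [mul_smul, e, inv_smul_eq_iff, h.choose_spec.2]
  have := perm_sub_mem_IS h1 (perm Γ (List Γ) j⁻¹ c)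
  rw [perm_perm, mul_inv_cancel_right] at this
  rwa [piL_pos h]

theorem piL_dvP (J : Subgroup Γ) (l : List V) (y : PT Γ V) : piL J l (dvP y) = dE (piL J l y) :=
  PT_ext (f := (piL J l).comp dvP) (g := dE.comp (piL J l)) (fun γ l' => by
    rw [← atL_single, LinearMap.comp_apply, LinearMap.comp_apply, dvP_atL]
    by_cases h : ∃ j ∈ J, j • l = l'
    · rw [piL_pos h, piL_pos h, perm_list, perm_list, dE_mapL]
    · rw [piL_neg h, piL_neg h, map_zero]) y

theorem piL_IS {J : Subgroup Γ} (l : List V) {y : PT Γ V} (hy : y ∈ IS J (List Γ × List V)) :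
    piL J l y ∈ IS (J ⊓ MulAction.stabilizer Γ l) (List Γ) :=
  IS_induction (piL J l) _ (fun j' hj' a => by
    obtain ⟨γ, l'⟩ := a
    rw [← perm_single, ← atL_single, perm_atL]
    by_cases h : ∃ j ∈ J, j • l = l'
    · obtain ⟨j, hj, e⟩ := h
      have k1 := piL_sub (J.mul_mem hj' hj) (l := l) (l' := j' • l') (by rw [mul_smul, e])
        (perm Γ (List Γ) j' (single γ 1))
      have k2 := piL_sub hj e (single γ 1)
      rw [perm_perm, mul_inv_rev, inv_mul_cancel_right] at k1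
      simpa using Submodule.sub_mem _ k1 k2
    · have h' : ¬ ∃ j ∈ J, j • l = j' • l' := by
        rintro ⟨j, hj, e⟩
        exact h ⟨j'⁻¹ * j, J.mul_mem (J.inv_mem hj') hj, by rw [mul_smul, e, inv_smul_smul]⟩
      rw [piL_neg h, piL_neg h', sub_self]
      exact Submodule.zero_mem _) hy

theorem piL_mem {J : Subgroup Γ} (l : List V) {X : Cx V} {p s : ℕ} {y : PT Γ V}
    (hy : y ∈ PD Γ X p s) : piL J l y ∈ Cn Γ (p + 1) :=
  PD_induction (piL J l) _ (fun γ l' h1 _ _ => by
    rw [← atL_single]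
    by_cases h : ∃ j ∈ J, j • l = l'
    · rw [piL_pos h, perm_single]
      exact single_mem_Ch (by simpa [smul_list] using h1) trivial 1
    · rw [piL_neg h]
      exact Submodule.zero_mem _) hy

end JE1

open JE1

theorem p_rows : S_rows := by
  rintro Γ V _ _ J X hX hJ p s hs _ ⟨y, hy, rfl⟩ h0
  obtain ⟨ν, h1, h2⟩ := exists_nu J
  have h3 : Nm ν y ∈ PD Γ X p s := PD_induction (Nm ν) _ (fun γ l k1 k2 k3 => by
    rcases γ with _ | ⟨g, γ⟩
    · simp at k1
    · rw [← atG_single, Nm_cons]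
      exact perm_mem_PD (hJ _ (J.inv_mem (h1 g))) (atG_mem_PD k1 (single_mem_Ch k2 k3 1))) hy
  have h4 : mkT J (Nm ν y) = mkT J y := by
    have := PD_induction ((mkT J).comp (Nm ν) - mkT J) ⊥ (fun γ l k1 _ _ => by
      rcases γ with _ | ⟨g, γ⟩
      · simp at k1
      · rw [Submodule.mem_bot, LinearMap.sub_apply, LinearMap.comp_apply, ← atG_single, Nm_cons,
          mkT_perm (J.inv_mem (h1 g)), sub_self]) hy
    simpa [sub_eq_zero] using this
  have h5 : dhP (Nm ν y) = 0 := by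
    rw [← Nm_dhP]
    exact Nm_IS h2 ((Submodule.Quotient.mk_eq_zero _).1 h0)
  obtain ⟨w, hw, e⟩ := exact_PD hs h3 h5
  exact ⟨mkT J w, ⟨w, hw, rfl⟩, by rw [eqDC_dh, e, h4]⟩

theorem p_colinj : S_colinj := by
  rintro Γ V _ _ J X hX p s l c _ ⟨w, hw, rfl⟩ h
  have h1 : dvP w - atL l c ∈ IS J (List Γ × List V) := (Submodule.Quotient.eq _).1 h
  have h2 := piL_IS l h1
  have h3 := piL_sub J.one_mem (one_smul Γ l) c
  rw [map_sub, piL_dvP] at h2
  rw [inv_one, perm_one] at h3
  refine Submodule.mem_sup.2 ⟨_, ⟨piL J l w, piL_mem l hw, rfl⟩, _,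
    Submodule.neg_mem _ (Submodule.add_mem _ h2 h3), ?_⟩
  abel

theorem p_cols : S_cols := by
  classical
  rintro Γ V _ _ J X hX p s _ ⟨y, hy, rfl⟩ h0
  have h1 : dvP y ∈ IS J (List Γ × List V) := (Submodule.Quotient.mk_eq_zero _).1 h0
  let S : Finset (List V) := y.support.image Prod.snd
  let r : List V → List V := fun l' => Classical.epsilon fun l => l ∈ S ∧ ∃ j ∈ J, j • l = l'
  have hr : ∀ l' ∈ S, r l' ∈ S ∧ ∃ j ∈ J, j • r l' = l' := fun l' h =>
    Classical.epsilon_spec (p := fun l => l ∈ S ∧ ∃ j ∈ J, j • l = l')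
      ⟨l', h, 1, J.one_mem, one_smul _ _⟩
  have hr2 : ∀ a b : List V, ∀ j ∈ J, j • a = b → r a = r b := fun a b j hj e => by
    have : (fun l => l ∈ S ∧ ∃ j ∈ J, j • l = a) = fun l => l ∈ S ∧ ∃ j ∈ J, j • l = b := by
      funext l
      refine propext (and_congr_right fun _ => ⟨?_, ?_⟩)
      · rintro ⟨i, hi, e'⟩
        exact ⟨j * i, J.mul_mem hj hi, by rw [mul_smul, e', e]⟩
      · rintro ⟨i, hi, e'⟩
        exact ⟨j⁻¹ * i, J.mul_mem (J.inv_mem hj) hi, by rw [mul_smul, e', ← e, inv_smul_smul]⟩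
    simp only [r, this]
  have hr3 : ∀ a ∈ S, r (r a) = r a := fun a ha => by
    obtain ⟨-, j, hj, e⟩ := hr a ha
    exact hr2 _ _ j hj e
  refine ⟨S.image r, fun l => piL J l y, fun l hl => ?_, fun l hl l' hl' j hj e => ?_, ?_⟩
  · obtain ⟨a, ha, rfl⟩ := Finset.mem_image.1 hl
    obtain ⟨b, hb, e⟩ := Finset.mem_image.1 (hr a ha).1
    refine ⟨e ▸ (hy hb).2.1, e ▸ (hy hb).2.2, piL_mem _ hy, ?_⟩
    rw [SetLike.mem_coe, Submodule.mem_comap, ← piL_dvP]
    exact piL_IS _ h1
  · obtain ⟨a, ha, rfl⟩ := Finset.mem_image.1 hl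
    obtain ⟨b, hb, rfl⟩ := Finset.mem_image.1 hl'
    rw [← hr3 a ha, ← hr3 b hb]
    exact hr2 _ _ j hj e
  · have := ext_supp (y := y) (f := mkT J)
      (g := ∑ l ∈ S.image r, ((mkT J).comp (atL l)).comp (piL J l)) fun a ha => by
        obtain ⟨γ, l'⟩ := a
        have hl' : l' ∈ S := Finset.mem_image_of_mem Prod.snd ha
        rw [LinearMap.sum_apply, Finset.sum_eq_single (r l')]
        · have h := (hr l' hl').2
          rw [LinearMap.comp_apply, LinearMap.comp_apply, ← atL_single, piL_pos h,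
            ← mkT_perm h.choose_spec.1 (atL (r l') _), perm_atL, h.choose_spec.2, perm_perm,
            mul_inv_cancel, perm_one]
        · intro l hl hne
          obtain ⟨a, ha, rfl⟩ := Finset.mem_image.1 hl
          rw [LinearMap.comp_apply, ← atL_single, piL_neg, map_zero]
          rintro ⟨j, hj, e⟩
          exact hne ((hr3 a ha).symm.trans (hr2 _ _ j hj e))
        · intro h
          exact absurd (Finset.mem_image_of_mem r hl') h
    simpa using this

namespace JE1

variable {Γ V : Type} [Group Γ] [MulAction Γ V]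

theorem opL_nil {α : Type} [MulAction Γ α] (c : α →₀ ℚ) : opL α ([] : List Γ) c = c := rfl

theorem opL_cons {α : Type} [MulAction Γ α] (g : Γ) (L : List Γ) (c : α →₀ ℚ) :
    opL α (g :: L) c = perm Γ α g (opL α L c) - opL α L c := by
  simp [opL]

theorem opL_atL {L : List Γ} {l : List V} (h : ∀ g ∈ L, g • l = l) (c : List Γ →₀ ℚ) :
    opL (List Γ × List V) L (atL l c) = atL l (opL (List Γ) L c) := by
  induction L with
  | nil => rfl
  | cons g L ih =>
    rw [opL_cons, opL_cons, ih fun x hx => h x (List.mem_cons_of_mem _ hx), perm_atL,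
      h g List.mem_cons_self, map_sub]

open Classical in
/-- The operator of a group element on the coinvariants. -/
noncomputable def tq (J : Subgroup Γ) (V : Type) [MulAction Γ V] (g : Γ) :
    Module.End ℚ (TQ J V) :=
  if h : ∀ j ∈ J, g * j * g⁻¹ ∈ J then opT J V g h else 1

/-- The product of the operators `g - 1` on the coinvariants. -/
noncomputable def oL (J : Subgroup Γ) (V : Type) [MulAction Γ V] (L : List Γ) :
    Module.End ℚ (TQ J V) := (L.map fun g => tq J V g - 1).prod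

/-- The products over lists in `Good`. -/
def ops (J : Subgroup Γ) (V : Type) [MulAction Γ V] (Good : Set Γ) :
    Submonoid (Module.End ℚ (TQ J V)) where
  carrier := {o | ∃ L : List Γ, (∀ g ∈ L, g ∈ Good) ∧ o = oL J V L}
  one_mem' := ⟨[], by simp, rfl⟩
  mul_mem' := by
    rintro _ _ ⟨L, h, rfl⟩ ⟨L', h', rfl⟩
    refine ⟨L ++ L', fun g hg => ?_, by simp [oL]⟩
    rcases List.mem_append.1 hg with k | k
    exacts [h g k, h' g k]

variable {G J : Subgroup Γ} (hJ : J ≤ G) (hc : ∀ g ∈ G, ∀ g' ∈ G, g * g' * g⁻¹ * g'⁻¹ ∈ J)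

include hJ hc

theorem tq_mk {g : Γ} (hg : g ∈ G) (x : PT Γ V) :
    tq J V g (mkT J x) = mkT J (perm Γ (List Γ × List V) g x) := by
  have h : ∀ j ∈ J, g * j * g⁻¹ ∈ J := fun j hj => by
    simpa using J.mul_mem (hc g hg j (hJ hj)) hj
  rw [tq, dif_pos h, opT_mk]

theorem oL_mk {L : List Γ} (hL : ∀ g ∈ L, g ∈ G) (x : PT Γ V) :
    oL J V L (mkT J x) = mkT J (opL (List Γ × List V) L x) := by
  induction L with
  | nil => rfl
  | cons g L ih =>
    rw [opL_cons, map_sub, ← tq_mk hJ hc (hL g List.mem_cons_self),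
      ← ih fun x hx => hL x (List.mem_cons_of_mem _ hx)]
    simp [oL]

theorem tq_comm {g g' : Γ} (hg : g ∈ G) (hg' : g' ∈ G) : Commute (tq J V g) (tq J V g') := by
  refine LinearMap.ext fun x => ?_
  obtain ⟨x, rfl⟩ := Submodule.mkQ_surjective _ x
  rw [Module.End.mul_apply, Module.End.mul_apply, tq_mk hJ hc hg', tq_mk hJ hc hg, tq_mk hJ hc hg,
    tq_mk hJ hc hg', perm_perm, perm_perm, ← mkT_perm (hc g hg g' hg') (perm Γ _ (g' * g) x),
    perm_perm]
  congr 3
  group

theorem oL_comm {L L' : List Γ} (hL : ∀ g ∈ L, g ∈ G) (hL' : ∀ g ∈ L', g ∈ G) :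
    Commute (oL J V L) (oL J V L') := by
  refine Commute.list_prod_left _ _ fun a ha => Commute.list_prod_right _ _ fun b hb => ?_
  obtain ⟨g, hg, rfl⟩ := List.mem_map.1 ha
  obtain ⟨g', hg', rfl⟩ := List.mem_map.1 hb
  exact ((tq_comm hJ hc (hL g hg) (hL' g' hg')).sub_left (Commute.one_left _)).sub_right
    (Commute.one_right _)

omit hJ hc in
theorem opL_comm (f : PT Γ V →ₗ[ℚ] PT Γ V)
    (hf : ∀ g x, f (perm Γ (List Γ × List V) g x) = perm Γ (List Γ × List V) g (f x))
    (L : List Γ) (x : PT Γ V) :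
    f (opL (List Γ × List V) L x) = opL (List Γ × List V) L (f x) := by
  induction L with
  | nil => rfl
  | cons g L ih => rw [opL_cons, opL_cons, map_sub, hf, ih]

omit hJ hc in
theorem opL_mem_PD {X : Cx V} {p s : ℕ} {L : List Γ} (hL : ∀ g ∈ L, ∀ S, X S → X (g • S))
    {y : PT Γ V} (hy : y ∈ PD Γ X p s) : opL (List Γ × List V) L y ∈ PD Γ X p s := by
  induction L with
  | nil => exact hy
  | cons g L ih =>
    have := ih fun x hx => hL x (List.mem_cons_of_mem _ hx)
    rw [opL_cons]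
    exact Submodule.sub_mem _ (perm_mem_PD (hL g List.mem_cons_self) this) this

end JE1

theorem p_TA : S_TA := by
  intro Γ V _ _ G J Good X k hX h0 hJ hc hG hinv hac hst q hq c hcz
  have hD : ∀ o ∈ ops J V Good, ∀ p s, ∀ x ∈ (eqDC J X hX).D p s, o x ∈ (eqDC J X hX).D p s := by
    rintro _ ⟨L, hL, rfl⟩ p s _ ⟨y, hy, rfl⟩
    rw [oL_mk hJ hc fun g hg => hG g (hL g hg)]
    exact ⟨_, opL_mem_PD (fun g hg => hinv g (hG g (hL g hg))) hy, rfl⟩
  have hv : ∀ o ∈ ops J V Good, ∀ x, (eqDC J X hX).dv (o x) = o ((eqDC J X hX).dv x) := by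
    rintro _ ⟨L, hL, rfl⟩ x
    obtain ⟨y, rfl⟩ := Submodule.mkQ_surjective _ x
    rw [oL_mk hJ hc fun g hg => hG g (hL g hg), eqDC_dv, eqDC_dv,
      oL_mk hJ hc fun g hg => hG g (hL g hg), opL_comm dvP dvP_perm]
  have hh : ∀ o ∈ ops J V Good, ∀ x, (eqDC J X hX).dh (o x) = o ((eqDC J X hX).dh x) := by
    rintro _ ⟨L, hL, rfl⟩ x
    obtain ⟨y, rfl⟩ := Submodule.mkQ_surjective _ x
    rw [oL_mk hJ hc fun g hg => hG g (hL g hg), eqDC_dh, eqDC_dh,
      oL_mk hJ hc fun g hg => hG g (hL g hg), opL_comm dhP dhP_perm]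
  have hcm : ∀ o ∈ ops J V Good, ∀ o' ∈ ops J V Good, Commute o o' := by
    rintro _ ⟨L, hL, rfl⟩ _ ⟨L', hL', rfl⟩
    exact oL_comm hJ hc (fun g hg => hG g (hL g hg)) fun g hg => hG g (hL' g hg)
  have key : ∀ p s, 1 ≤ s → p + s ≤ k + 1 → ∀ x ∈ (eqDC J X hX).D p s, (eqDC J X hX).dv x = 0 →
      ∃ o ∈ ops J V Good, ∃ b ∈ (eqDC J X hX).D (p + 1) s, (eqDC J X hX).dv b = o x := by
    intro p s h1 h2 x hx hx0
    obtain ⟨Ls, d, k1, -, rfl⟩ := p_cols Γ V J X hX p s x hx hx0
    refine Finset.sum_induction _ (fun x => ∃ o ∈ ops J V Good,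
      ∃ b ∈ (eqDC J X hX).D (p + 1) s, (eqDC J X hX).dv b = o x) ?_
      ⟨1, Submonoid.one_mem _, 0, Submodule.zero_mem _, by simp⟩ fun l hl => ?_
    · rintro x x' ⟨o, ho, b, hb, e⟩ ⟨o', ho', b', hb', e'⟩
      refine ⟨o * o', Submonoid.mul_mem _ ho ho', o' b + o b',
        Submodule.add_mem _ (hD _ ho' _ _ _ hb) (hD _ ho _ _ _ hb'), ?_⟩
      rw [map_add, map_add, hv _ ho', hv _ ho, e, e', ← Module.End.mul_apply,
        ← (hcm _ ho _ ho').eq]
      rfl
    · obtain ⟨a1, a2, a3⟩ := k1 l hl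
      obtain ⟨L, hL, hB⟩ := hst l (by rintro rfl; simp at a1; omega) (by omega) a2 p (by omega) _ a3
      obtain ⟨b, hb, e⟩ := eqDC_atL_Bs (hX := hX) a2 hB
      refine ⟨_, ⟨L, fun g hg => (hL g hg).1, rfl⟩, b, a1 ▸ hb, ?_⟩
      rw [e, oL_mk hJ hc fun g hg => hG g (hL g hg).1, opL_atL fun g hg => (hL g hg).2]
  have hst0 : J ⊓ MulAction.stabilizer Γ ([] : List V) = J :=
    inf_eq_left.2 fun g _ => (rfl : g • ([] : List V) = [])
  have hz : mkT J (atL ([] : List V) c) ∈ (eqDC J X hX).D q 0 :=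
    ⟨_, atL_mem_PD rfl (by simpa using h0) hcz.1, rfl⟩
  have hz0 : (eqDC J X hX).dv (mkT J (atL ([] : List V) c)) = 0 :=
    eqDC_dv_atL (q := q) [] (by rwa [hst0])
  obtain ⟨zz, hzz⟩ := (eqDC J X hX).exists_zig (le_refl q) hz hz0 fun i hi =>
    p_rows Γ V J X hX (fun j hj => hinv j (hJ hj)) _ i (hac i (hi.trans hq))
  have hlast : (eqDC J X hX).dv (zz q) = 0 := by
    have := hzz.1 q le_rfl
    rw [Nat.sub_self] at this
    exact (eqDC J X hX).dv_zero _ _ this
  obtain ⟨o, ho, y, hy, hy0, ey⟩ := (eqDC J X hX).shorten (ops J V Good) hD hv hh (le_refl q) hzz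
    hlast fun i h1 h2 x hx hx0 _ => by
      obtain ⟨o, ho, b, hb, e⟩ := key (q - i) (i + 1) (by omega) (by omega) x hx hx0
      exact ⟨o, ho, 0, Submodule.zero_mem _, b, hb, by simp, by simp [e]⟩
  obtain ⟨o', ho', b, hb, eb⟩ := key q 1 le_rfl (by omega) y hy hy0
  obtain ⟨L, hL, eL⟩ := Submonoid.mul_mem _ ho' ho
  refine ⟨L, hL, ?_⟩
  rw [← hst0]
  refine p_colinj Γ V J X hX q 0 [] _ _ ((eqDC J X hX).dh_mem _ _ _ hb) ?_
  rw [(eqDC J X hX).comm, eb, hh _ ho', ey, ← Module.End.mul_apply, eL,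
    oL_mk hJ hc fun g hg => hG g (hL g hg), opL_atL fun g _ => rfl]

end Pool.Agent.Lib.MP_49df17_al
end

-- part Pool.Agent.Lib.MP_49df17_al.FIN
section

/-!
Finite generation of the first homology group that is not known to be finite-dimensional.
-/

namespace Pool.Agent.Lib.MP_49df17_al

open Finsupp
open scoped Pointwise

namespace JFin

set_option linter.unusedSectionVars false

section Abs

/-- A double complex of modules with exact rows whose columns of positive index are exact in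
positive degree. -/
structure RDC (R T : Type) [Ring R] [AddCommGroup T] [Module R T] where
  D : ℕ → ℕ → Submodule R T
  dv : T →ₗ[R] T
  dh : T →ₗ[R] T
  dv_mem : ∀ p s, ∀ x ∈ D (p + 1) s, dv x ∈ D p s
  dv_zero : ∀ s, ∀ x ∈ D 0 s, dv x = 0
  dh_mem : ∀ p s, ∀ x ∈ D p (s + 1), dh x ∈ D p s
  dh_dh : ∀ x, dh (dh x) = 0
  dv_dv : ∀ x, dv (dv x) = 0
  comm : ∀ x, dv (dh x) = dh (dv x)
  rows : ∀ p s, ∀ x ∈ D p s, dh x = 0 → ∃ y ∈ D p (s + 1), dh y = x
  cols : ∀ p s, ∀ x ∈ D (p + 1) (s + 1), dv x = 0 → ∃ y ∈ D (p + 2) (s + 1), dv y = x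

variable {R T : Type} [Ring R] [AddCommGroup T] [Module R T] (K : RDC R T)

/-- Elements killed by both differentials. -/
def RDC.ZW (p s : ℕ) : Submodule R T := K.D p s ⊓ LinearMap.ker K.dh ⊓ LinearMap.ker K.dv

/-- Vertical boundaries of horizontal cycles. -/
def RDC.BW (p s : ℕ) : Submodule R T := (K.D (p + 1) s ⊓ LinearMap.ker K.dh).map K.dv

theorem RDC.mem_ZW {p s : ℕ} {x : T} : x ∈ K.ZW p s ↔ x ∈ K.D p s ∧ K.dh x = 0 ∧ K.dv x = 0 :=
  ⟨fun h => ⟨h.1.1, h.1.2, h.2⟩, fun h => ⟨⟨h.1, h.2.1⟩, h.2.2⟩⟩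

theorem RDC.mem_BW {p s : ℕ} {x : T} :
    x ∈ K.BW p s ↔ ∃ y ∈ K.D (p + 1) s, K.dh y = 0 ∧ K.dv y = x :=
  ⟨fun ⟨y, h, e⟩ => ⟨y, h.1, h.2, e⟩, fun ⟨y, h1, h2, e⟩ => ⟨y, ⟨h1, h2⟩, e⟩⟩

/-- Vertical homology of the horizontal cycles. -/
abbrev RDC.HW (p s : ℕ) : Type := K.ZW p s ⧸ (K.BW p s).comap (K.ZW p s).subtype

/-- Vertical homology in degree zero. -/
abbrev RDC.CC (s : ℕ) : Type := K.D 0 s ⧸ ((K.D 1 s).map K.dv).comap (K.D 0 s).subtype

/-- The domain of the correspondence defining the connecting map. -/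
def RDC.EE (p s : ℕ) : Submodule R T := K.D (p + 1) (s + 1) ⊓ LinearMap.ker (K.dv.comp K.dh)

/-- The first leg of the correspondence. -/
def RDC.la (p s : ℕ) : K.EE p s →ₗ[R] K.HW (p + 1) s :=
  (Submodule.mkQ _).comp (LinearMap.codRestrict (K.ZW (p + 1) s) (K.dh.comp (K.EE p s).subtype)
    fun y => K.mem_ZW.2 ⟨K.dh_mem _ _ _ y.2.1, K.dh_dh _, y.2.2⟩)

/-- The second leg of the correspondence. -/
def RDC.lb (p s : ℕ) : K.EE p s →ₗ[R] K.HW p (s + 1) :=
  (Submodule.mkQ _).comp (LinearMap.codRestrict (K.ZW p (s + 1)) (K.dv.comp (K.EE p s).subtype)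
    fun y => K.mem_ZW.2 ⟨K.dv_mem _ _ _ y.2.1, by
      have h : K.dv (K.dh y.1) = 0 := y.2.2
      rw [K.comm] at h; exact h, K.dv_dv _⟩)

theorem RDC.la_eq_zero {p s : ℕ} (y : K.EE p s) : K.la p s y = 0 ↔ K.dh y.1 ∈ K.BW (p + 1) s :=
  Submodule.Quotient.mk_eq_zero _

theorem RDC.lb_eq_zero {p s : ℕ} (y : K.EE p s) : K.lb p s y = 0 ↔ K.dv y.1 ∈ K.BW p (s + 1) :=
  Submodule.Quotient.mk_eq_zero _

theorem RDC.la_surj (p s : ℕ) : Function.Surjective (K.la p s) := by
  intro x
  induction x using Submodule.Quotient.induction_on with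
  | H x =>
    obtain ⟨h1, h2, h3⟩ := K.mem_ZW.1 x.2
    obtain ⟨y, hy, e⟩ := K.rows _ _ _ h1 h2
    refine ⟨⟨y, hy, ?_⟩, congrArg Submodule.Quotient.mk (Subtype.ext e)⟩
    change K.dv (K.dh y) = 0
    rw [e, h3]

theorem RDC.ker_la (p s : ℕ) : LinearMap.ker (K.la p s) = LinearMap.ker (K.lb p s) := by
  ext y
  rw [LinearMap.mem_ker, LinearMap.mem_ker, K.la_eq_zero, K.lb_eq_zero, K.mem_BW, K.mem_BW]
  constructor
  · rintro ⟨w, hw, h0, e⟩
    obtain ⟨w', hw', e'⟩ := K.rows _ _ _ hw h0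
    refine ⟨y.1 - K.dv w', Submodule.sub_mem _ y.2.1 (K.dv_mem _ _ _ hw'), ?_, ?_⟩
    · rw [map_sub, ← K.comm, e', e, sub_self]
    · rw [map_sub, K.dv_dv, sub_zero]
  · rintro ⟨y', hy', h0, e⟩
    obtain ⟨w, hw, e'⟩ := K.cols _ _ (y.1 - y') (Submodule.sub_mem _ y.2.1 hy')
      (by rw [map_sub, e, sub_self])
    refine ⟨K.dh w, K.dh_mem _ _ _ hw, K.dh_dh _, ?_⟩
    rw [K.comm, e', map_sub, h0, sub_zero]

/-- The connecting isomorphism onto its image. -/
noncomputable def RDC.conn (p s : ℕ) : K.HW (p + 1) s ≃ₗ[R] LinearMap.range (K.lb p s) :=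
  ((K.la p s).quotKerEquivOfSurjective (K.la_surj p s)).symm.trans
    ((Submodule.quotEquivOfEq _ _ (K.ker_la p s)).trans (K.lb p s).quotKerEquivRange)

theorem RDC.lb_surj (p s : ℕ) : LinearMap.range (K.lb (p + 1) s) = ⊤ := by
  rw [LinearMap.range_eq_top]
  intro x
  induction x using Submodule.Quotient.induction_on with
  | H x =>
    obtain ⟨h1, h2, h3⟩ := K.mem_ZW.1 x.2
    obtain ⟨y, hy, e⟩ := K.cols _ _ _ h1 h3
    refine ⟨⟨y, hy, ?_⟩, congrArg Submodule.Quotient.mk (Subtype.ext e)⟩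
    change K.dv (K.dh y) = 0
    rw [K.comm, e, h2]

theorem RDC.shift (p s : ℕ) : Nonempty (K.HW (p + 1) s ≃ₗ[R] K.HW 1 (s + p)) := by
  induction p generalizing s with
  | zero => exact ⟨LinearEquiv.refl _ _⟩
  | succ p ih =>
    obtain ⟨e⟩ := ih (s + 1)
    have h : s + 1 + p = s + (p + 1) := by omega
    rw [h] at e
    exact ⟨(K.conn (p + 1) s).trans ((LinearEquiv.ofTop _ (K.lb_surj p s)).trans e)⟩

/-- The map to the vertical homology in degree zero. -/
def RDC.io (s : ℕ) : K.HW 0 s →ₗ[R] K.CC s :=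
  Submodule.mapQ _ _ (Submodule.inclusion fun _ h => (K.mem_ZW.1 h).1) (by
    rintro ⟨x, hx⟩ h
    obtain ⟨y, hy, -, e⟩ := K.mem_BW.1 h
    exact ⟨y, hy, e⟩)

/-- The map induced by the horizontal differential. -/
def RDC.pr (s : ℕ) : K.CC (s + 1) →ₗ[R] K.HW 0 s :=
  Submodule.mapQ _ _ (LinearMap.codRestrict (K.ZW 0 s) (K.dh.comp (K.D 0 (s + 1)).subtype)
    fun y => K.mem_ZW.2 ⟨K.dh_mem _ _ _ y.2, K.dh_dh _, K.dv_zero _ _ (K.dh_mem _ _ _ y.2)⟩) (by
    rintro ⟨x, hx⟩ ⟨y, hy, e⟩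
    refine K.mem_BW.2 ⟨K.dh y, K.dh_mem _ _ _ hy, K.dh_dh _, ?_⟩
    change K.dv (K.dh y) = K.dh x
    rw [K.comm]
    exact congrArg _ e)

theorem RDC.pr_surj (s : ℕ) : Function.Surjective (K.pr s) := by
  intro x
  induction x using Submodule.Quotient.induction_on with
  | H x =>
    obtain ⟨h1, h2, -⟩ := K.mem_ZW.1 x.2
    obtain ⟨y, hy, e⟩ := K.rows _ _ _ h1 h2
    exact ⟨Submodule.Quotient.mk ⟨y, hy⟩, congrArg _ (Subtype.ext e)⟩

theorem RDC.range_io (s : ℕ) : LinearMap.range (K.io (s + 1)) = LinearMap.ker (K.pr s) := by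
  ext x
  induction x using Submodule.Quotient.induction_on with
  | H x =>
    constructor
    · rintro ⟨z, e⟩
      rw [← e]
      induction z using Submodule.Quotient.induction_on with
      | H z =>
        refine (Submodule.Quotient.mk_eq_zero _).2 ?_
        change K.dh z.1 ∈ K.BW 0 s
        rw [(K.mem_ZW.1 z.2).2.1]
        exact Submodule.zero_mem _
    · intro h
      have h' : K.dh x.1 ∈ K.BW 0 s :=
        (Submodule.Quotient.mk_eq_zero ((K.BW 0 s).comap (K.ZW 0 s).subtype)).1 h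
      obtain ⟨w, hw, h0, e⟩ := K.mem_BW.1 h'
      obtain ⟨w', hw', e'⟩ := K.rows _ _ _ hw h0
      have hm : x.1 - K.dv w' ∈ K.D 0 (s + 1) := Submodule.sub_mem _ x.2 (K.dv_mem _ _ _ hw')
      refine ⟨Submodule.Quotient.mk ⟨x.1 - K.dv w', K.mem_ZW.2 ⟨hm, ?_, K.dv_zero _ _ hm⟩⟩, ?_⟩
      · rw [map_sub, ← K.comm, e', e, sub_self]
      · refine (Submodule.Quotient.eq _).2 ⟨-w', Submodule.neg_mem _ hw', ?_⟩
        change K.dv (-w') = x.1 - K.dv w' - x.1
        rw [map_neg]; abel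

theorem RDC.range_lb (s : ℕ) : LinearMap.range (K.lb 0 s) = LinearMap.ker (K.io (s + 1)) := by
  ext x
  induction x using Submodule.Quotient.induction_on with
  | H x =>
    constructor
    · rintro ⟨y, e⟩
      rw [← e]
      exact (Submodule.Quotient.mk_eq_zero _).2 ⟨y.1, y.2.1, rfl⟩
    · intro h
      obtain ⟨y, hy, e⟩ : x.1 ∈ (K.D 1 (s + 1)).map K.dv := (Submodule.Quotient.mk_eq_zero
        (((K.D 1 (s + 1)).map K.dv).comap (K.D 0 (s + 1)).subtype)).1 h
      refine ⟨⟨y, hy, ?_⟩, congrArg Submodule.Quotient.mk (Subtype.ext e)⟩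
      change K.dv (K.dh y) = 0
      rw [K.comm, e, (K.mem_ZW.1 x.2).2.1]

theorem RDC.top (s : ℕ) : Nonempty (K.HW (s + 1) 0 ≃ₗ[R] LinearMap.ker (K.io (s + 1))) := by
  obtain ⟨e⟩ := K.shift s 0
  rw [Nat.zero_add] at e
  exact ⟨e.trans ((K.conn 0 s).trans (LinearEquiv.ofEq _ _ (K.range_lb s)))⟩

theorem RDC.fp_range (h23 : S_FP23) (hC : ∀ s m, FP R m (K.CC (s + 1))) (s m : ℕ)
    (h : FP R (m + 1) (K.HW 0 s)) : FP R m (LinearMap.range (K.io (s + 1))) := by
  obtain ⟨-, -, -, -, h5⟩ := h23 R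
  refine (h5 _ _ _ (LinearMap.range (K.io (s + 1))).subtype (K.pr s) Subtype.val_injective
    (K.pr_surj s) ?_ m).2.1 (hC s m) h
  rw [LinearMap.exact_iff, Submodule.range_subtype, K.range_io]

theorem RDC.exact_io (s : ℕ) : Function.Exact (LinearMap.ker (K.io s)).subtype
    (K.io s).rangeRestrict := by
  rw [LinearMap.exact_iff, Submodule.range_subtype, LinearMap.ker_rangeRestrict]

theorem RDC.fin (h23 : S_FP23) (hC : ∀ s m, FP R m (K.CC (s + 1))) (q : ℕ)
    (hH : ∀ i < q, ∀ m, FP R m (K.HW i 0)) : Module.Finite R (K.HW q 0) := by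
  obtain ⟨h1, -, -, -, h5⟩ := h23 R
  have key : ∀ s < q, ∀ m, FP R m (K.HW 0 s) := by
    intro s
    induction s with
    | zero => exact fun h => hH 0 h
    | succ s ih =>
      intro hs m
      obtain ⟨e⟩ := K.top s
      exact (h5 _ _ _ _ _ Subtype.val_injective (K.io (s + 1)).surjective_rangeRestrict
        (K.exact_io (s + 1)) m).1 (h1 _ _ m e (hH _ hs m))
        (K.fp_range h23 hC s m (ih (by omega) _))
  have fin0 : ∀ s, Module.Finite R (K.HW 0 s) := fun s =>
    have : Module.Finite R (K.CC (s + 1)) := hC s 0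
    Module.Finite.of_surjective (K.pr s) (K.pr_surj s)
  cases q with
  | zero => exact fin0 0
  | succ s =>
    obtain ⟨e⟩ := K.top s
    exact h1 _ _ 0 e.symm ((h5 _ _ _ _ _ Subtype.val_injective
      (K.io (s + 1)).surjective_rangeRestrict (K.exact_io (s + 1)) 0).2.1 (fin0 _)
      (K.fp_range h23 hC s 1 (key s (by omega) _)))

end Abs

section Rep

variable {Q : Type} [Group Q]

/-- A subspace that is stable under a representation, as a submodule. -/
def subR {T : Type} [AddCommGroup T] [Module ℚ T] (ρ : Representation ℚ Q T) (U : Submodule ℚ T)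
    (h : ∀ g, ∀ x ∈ U, ρ g x ∈ U) : Submodule (MonoidAlgebra ℚ Q) ρ.asModule where
  carrier := {x | ρ.asModuleEquiv x ∈ U}
  add_mem' := fun ha hb => U.add_mem ha hb
  zero_mem' := U.zero_mem
  smul_mem' := by
    intro r x hx
    change ρ.asAlgebraHom r (ρ.asModuleEquiv x) ∈ U
    induction r using MonoidAlgebra.induction_on with
    | of g => rw [Representation.asAlgebraHom_of]; exact h g _ hx
    | add a b ha hb => rw [map_add, LinearMap.add_apply]; exact U.add_mem ha hb
    | smul r a ha => rw [map_smul, LinearMap.smul_apply]; exact U.smul_mem r ha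

/-- An equivariant linear map, as a map of modules. -/
def mapR {T T' : Type} [AddCommGroup T] [Module ℚ T] [AddCommGroup T'] [Module ℚ T']
    (ρ : Representation ℚ Q T) (ρ' : Representation ℚ Q T') (f : T →ₗ[ℚ] T')
    (h : ∀ g x, f (ρ g x) = ρ' g (f x)) : ρ.asModule →ₗ[MonoidAlgebra ℚ Q] ρ'.asModule where
  toFun x := ρ'.asModuleEquiv.symm (f (ρ.asModuleEquiv x))
  map_add' x y := by simp
  map_smul' r x := by
    change f (ρ.asAlgebraHom r (ρ.asModuleEquiv x)) = ρ'.asAlgebraHom r (f (ρ.asModuleEquiv x))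
    induction r using MonoidAlgebra.induction_on with
    | of g => rw [Representation.asAlgebraHom_of, Representation.asAlgebraHom_of, h]
    | add a b ha hb => simp only [map_add, LinearMap.add_apply, ha, hb]
    | smul r a ha => simp only [map_smul, LinearMap.smul_apply, ha]

theorem fp_of_fd (h23 : S_FP23) (hg : S_FPg) (M : Type) [AddCommGroup M] [Module ℚ M]
    [Module (MonoidAlgebra ℚ Q) M] [IsScalarTower ℚ (MonoidAlgebra ℚ Q) M]
    [FiniteDimensional ℚ M] (m : ℕ) (h : FPg Q m) : FP (MonoidAlgebra ℚ Q) m M := by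
  have h1 := hg.2.1 Q M (Representation.ofModule' M) m h
  refine (h23 _).1 _ _ m ?_ h1
  exact { (Representation.ofModule' (k := ℚ) (G := Q) M).asModuleEquiv.toAddEquiv with
    map_smul' := fun r x => by
      change (Representation.ofModule' (k := ℚ) (G := Q) M).asAlgebraHom r x = _
      rw [Representation.asAlgebraHom_def, Representation.ofModule', Equiv.apply_symm_apply]
      rfl }

end Rep

section Finite

variable {Γ : Type} [Group Γ]

theorem Zs_le_Bs (F : Subgroup Γ) [Finite F] (p : ℕ) : Zs F (p + 1) ≤ Bs F (p + 1) := by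
  intro c hc
  have := Fintype.ofFinite F
  set N : (List Γ →₀ ℚ) →ₗ[ℚ] (List Γ →₀ ℚ) :=
    (Fintype.card F : ℚ)⁻¹ • ∑ f : F, perm Γ (List Γ) f with hN
  have hc0 : (Fintype.card F : ℚ) ≠ 0 := by exact_mod_cast Fintype.card_ne_zero
  have N_apply : ∀ x, N x = (Fintype.card F : ℚ)⁻¹ • ∑ f : F, perm Γ (List Γ) f x := by
    intro x; simp [hN, LinearMap.sum_apply]
  have h1 : ∀ x, N x - x ∈ IS F (List Γ) := by
    intro x
    have : N x - x = (Fintype.card F : ℚ)⁻¹ • ∑ f : F, (perm Γ (List Γ) f x - x) := by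
      rw [N_apply, Finset.sum_sub_distrib, smul_sub, Finset.sum_const, Finset.card_univ,
        ← Nat.cast_smul_eq_nsmul ℚ, smul_smul, inv_mul_cancel₀ hc0, one_smul]
    rw [this]
    exact Submodule.smul_mem _ _ (Submodule.sum_mem _ fun f _ => perm_sub_mem_IS f.2 x)
  have h2 : ∀ x ∈ IS F (List Γ), N x = 0 := fun x hx =>
    (Submodule.mem_bot ℚ).1 (IS_induction N ⊥ (fun j hj a => by
      rw [N_apply, N_apply, Submodule.mem_bot, sub_eq_zero]
      congr 1
      refine Fintype.sum_equiv (Equiv.mulRight (⟨j, hj⟩ : F)) _ _ fun f => ?_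
      simp) hx)
  have h3 : dE (N c) = N (dE c) := by
    rw [N_apply, N_apply, map_smul, map_sum]
    simp only [perm_list, dE_mapL]
  have h4 : N c ∈ Cn Γ (p + 2) := by
    rw [N_apply]
    exact Submodule.smul_mem _ _ (Submodule.sum_mem _ fun f _ =>
      mapL_mem_Ch (fun _ _ => trivial) hc.1)
  have h5 : bd (N c) = 0 := by rw [← dE_eq_bd h4, h3, h2 _ hc.2]
  have h6 : consL 1 (N c) ∈ Cn Γ (p + 1 + 2) := consL_mem_Ch (fun _ _ => trivial) h4
  have h7 : dE (consL 1 (N c)) = N c := by rw [dE_eq_bd h6, bd_consL, h5, map_zero, sub_zero]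
  have : c = N c - (N c - c) := by abel
  rw [this]
  exact Submodule.sub_mem _ (Submodule.mem_sup_left ⟨_, h6, h7⟩) (Submodule.mem_sup_right (h1 c))

end Finite

section Main

variable {Γ V : Type} [Group Γ] [MulAction Γ V] (J : Subgroup Γ) [hJ : J.Normal]

/-- The action of the ambient group on the coinvariants. -/
noncomputable def repT0 (V : Type) [MulAction Γ V] : Representation ℚ Γ (TQ J V) where
  toFun g := opT J V g fun j hj => hJ.conj_mem j hj g
  map_one' := LinearMap.ext fun x => by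
    induction x using Submodule.Quotient.induction_on with
    | H x => change mkT J (perm Γ _ 1 x) = mkT J x; rw [map_one]; rfl
  map_mul' g h := LinearMap.ext fun x => by
    induction x using Submodule.Quotient.induction_on with
    | H x => change mkT J (perm Γ _ (g * h) x) = mkT J (perm Γ _ g (perm Γ _ h x)); rw [map_mul]; rfl

/-- The action of the quotient group on the coinvariants. -/
noncomputable def repT (V : Type) [MulAction Γ V] : Representation ℚ (Γ ⧸ J) (TQ J V) :=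
  QuotientGroup.lift J (repT0 J V) fun j hj => LinearMap.ext fun x => by
    induction x using Submodule.Quotient.induction_on with
    | H x => exact mkT_perm hj x

theorem repT_mk (g : Γ) (x : PT Γ V) :
    repT J V (g : Γ ⧸ J) (mkT J x) = mkT J (perm Γ (List Γ × List V) g x) := rfl

variable {X : Cx V} (hX : Down X) (hinv : ∀ (g : Γ) S, X S → X (g • S))

include hinv in
theorem perm_mem_PD (g : Γ) {p s : ℕ} {x : PT Γ V} (hx : x ∈ PD Γ X p s) :
    perm Γ (List Γ × List V) g x ∈ PD Γ X p s :=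
  PD_induction (perm Γ (List Γ × List V) g) _ (fun γ l h1 h2 h3 => by
    rw [perm_single]
    refine Finsupp.single_mem_supported ℚ _ ⟨?_, ?_, ?_⟩
    · simpa [smul_list] using h1
    · simpa [smul_list] using h2
    · change X (vs (g • l)); rw [vs_smul]; exact hinv g _ h3) hx

theorem stab_nil : J ⊓ MulAction.stabilizer Γ ([] : List V) = J :=
  inf_eq_left.2 fun _ _ => rfl

/-- The equivariant double complex over the group ring of the quotient. -/
noncomputable def mkK (hrows : S_rows) (hcols : S_cols) (hex : ∀ n, ExactAt X n)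
    (hfin : ∀ l : List V, l ≠ [] → X (vs l) → Finite (MulAction.stabilizer Γ l)) :
    RDC (MonoidAlgebra ℚ (Γ ⧸ J)) (repT J V).asModule where
  D p s := subR (repT J V) ((eqDC J X hX).D p s) (by
    rintro g _ ⟨x, hx, rfl⟩
    induction g using QuotientGroup.induction_on with
    | H g => exact ⟨_, perm_mem_PD hinv g hx, rfl⟩)
  dv := mapR _ _ (eqDC J X hX).dv (by
    intro g x
    induction g using QuotientGroup.induction_on with
    | H g =>
      induction x using Submodule.Quotient.induction_on with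
      | H x => exact congrArg (mkT J) (dvP_perm g x))
  dh := mapR _ _ (eqDC J X hX).dh (by
    intro g x
    induction g using QuotientGroup.induction_on with
    | H g =>
      induction x using Submodule.Quotient.induction_on with
      | H x => exact congrArg (mkT J) (dhP_perm g x))
  dv_mem := (eqDC J X hX).dv_mem
  dv_zero := (eqDC J X hX).dv_zero
  dh_mem := (eqDC J X hX).dh_mem
  dh_dh := (eqDC J X hX).dh_dh
  dv_dv := (eqDC J X hX).dv_dv
  comm := (eqDC J X hX).comm
  rows p s := hrows Γ V J X hX (fun j _ => hinv j) p s (hex s)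
  cols p s x hx h0 := by
    obtain ⟨Ls, c, h1, -, e⟩ := hcols Γ V J X hX (p + 1) (s + 1) x hx h0
    have : x ∈ ((eqDC J X hX).D (p + 2) (s + 1)).map (eqDC J X hX).dv := by
      rw [e]
      refine Submodule.sum_mem _ fun l hl => ?_
      obtain ⟨h2, h3, h4⟩ := h1 l hl
      have hne : l ≠ [] := by rintro rfl; simp at h2
      have := hfin l hne h3
      have : Finite (J ⊓ MulAction.stabilizer Γ l : Subgroup Γ) :=
        Finite.of_injective _ (Subgroup.inclusion_injective inf_le_right)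
      have h5 := eqDC_atL_Bs (hX := hX) h3 (Zs_le_Bs _ p h4)
      rw [h2] at h5
      exact h5
    exact this

/-- Orbits of lists of length `s` in the complex. -/
def Om (_ : ∀ (g : Γ) S, X S → X (g • S)) (s : ℕ) : Type :=
  Quotient (⟨fun a b => ∃ j ∈ J, j • a.1 = b.1,
    ⟨fun a => ⟨1, J.one_mem, one_smul _ _⟩,
     fun ⟨j, hj, e⟩ => ⟨j⁻¹, J.inv_mem hj, by rw [← e, inv_smul_smul]⟩,
     fun ⟨j, hj, e⟩ ⟨j', hj', e'⟩ => ⟨j' * j, J.mul_mem hj' hj, by rw [mul_smul, e, e']⟩⟩⟩ :
    Setoid {l : List V // l.length = s ∧ X (vs l)})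

/-- The orbit of a list. -/
def omk {s : ℕ} (l : List V) (h : l.length = s ∧ X (vs l)) : Om J hinv s := Quotient.mk _ ⟨l, h⟩

theorem omk_eq {s : ℕ} {l l' : List V} {h h'} :
    omk J hinv (s := s) l h = omk J hinv l' h' ↔ ∃ j ∈ J, j • l = l' := Quotient.eq

theorem omk_surj {s : ℕ} (ω : Om J hinv s) : ∃ l h, omk J hinv l h = ω := by
  induction ω using Quotient.inductionOn with
  | h a => exact ⟨a.1, a.2, rfl⟩

include hinv in
theorem good_smul {s : ℕ} (g : Γ) {l : List V} (h : l.length = s ∧ X (vs l)) :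
    (g • l).length = s ∧ X (vs (g • l)) :=
  ⟨by simpa [smul_list] using h.1, by rw [vs_smul]; exact hinv g _ h.2⟩

instance omAct0 (s : ℕ) : MulAction Γ (Om J hinv s) where
  smul g := Quotient.map (fun a => ⟨g • a.1, good_smul hinv g a.2⟩) (by
    rintro a b ⟨j, hj, e⟩
    exact ⟨g * j * g⁻¹, hJ.conj_mem j hj g, by simp [← e, mul_smul]⟩)
  one_smul ω := by
    obtain ⟨l, h, rfl⟩ := omk_surj J hinv ω
    exact (omk_eq J hinv).2 ⟨1, J.one_mem, by simp⟩
  mul_smul g g' ω := by
    obtain ⟨l, h, rfl⟩ := omk_surj J hinv ω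
    exact (omk_eq J hinv).2 ⟨1, J.one_mem, by simp [mul_smul]⟩

noncomputable instance omAct (s : ℕ) : MulAction (Γ ⧸ J) (Om J hinv s) :=
  MulAction.compHom _ (QuotientGroup.lift J (MulAction.toPermHom Γ (Om J hinv s)) fun j hj =>
    Equiv.ext fun ω => by
      obtain ⟨l, h, rfl⟩ := omk_surj J hinv ω
      exact (omk_eq J hinv).2 ⟨j⁻¹, J.inv_mem hj, by simp⟩)

theorem smul_omk {s : ℕ} (g : Γ) (l : List V) (h : l.length = s ∧ X (vs l)) :
    (g : Γ ⧸ J) • omk J hinv l h = omk J hinv (g • l) (good_smul hinv g h) := rfl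

theorem fp_Om (hg : S_FPg)
    (horb : ∀ s, ∃ Ls : Finset (List V), ∀ l, l.length = s → X (vs l) → ∃ g : Γ, g • l ∈ Ls)
    (hfin : ∀ l : List V, l ≠ [] → X (vs l) → Finite (MulAction.stabilizer Γ l)) (s m : ℕ) :
    FPr (perm (Γ ⧸ J) (Om J hinv (s + 1))) m := by
  classical
  refine hg.1 _ _ m ?_ fun ω => ?_
  · obtain ⟨Ls, hL⟩ := horb (s + 1)
    refine ⟨(Ls.subtype fun l => l.length = s + 1 ∧ X (vs l)).image fun a => omk J hinv a.1 a.2,
      fun ω => ?_⟩
    obtain ⟨l, h, rfl⟩ := omk_surj J hinv ω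
    obtain ⟨g, hgl⟩ := hL l h.1 h.2
    exact ⟨g, Finset.mem_image.2 ⟨⟨g • l, good_smul hinv g h⟩, Finset.mem_subtype.2 hgl, rfl⟩⟩
  · obtain ⟨l, h, rfl⟩ := omk_surj J hinv ω
    have hne : l ≠ [] := by rintro rfl; simp at h
    have := hfin l hne h.2
    have : Finite (MulAction.stabilizer (Γ ⧸ J) (omk J hinv l h)) := by
      refine Finite.of_surjective (fun g : MulAction.stabilizer Γ l =>
        (⟨(g.1 : Γ ⧸ J), (omk_eq J hinv).2 ⟨1, J.one_mem, by rw [one_smul]; exact g.2⟩⟩ :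
          MulAction.stabilizer (Γ ⧸ J) (omk J hinv l h))) ?_
      rintro ⟨g, hgs⟩
      induction g using QuotientGroup.induction_on with
      | H g =>
        obtain ⟨j, hj, e⟩ := (omk_eq J hinv).1 hgs
        refine ⟨⟨j * g, by rw [MulAction.mem_stabilizer_iff, mul_smul]; exact e⟩, Subtype.ext ?_⟩
        change ((j * g : Γ) : Γ ⧸ J) = g
        rw [QuotientGroup.mk_mul, (QuotientGroup.eq_one_iff j).2 hj, one_mul]
    exact hg.2.2.2.2.1 _ m

open Classical in
/-- The augmentation on pair chains. -/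
noncomputable def eps0 (s : ℕ) : PT Γ V →ₗ[ℚ] (Om J hinv s →₀ ℚ) :=
  Finsupp.linearCombination ℚ fun x =>
    if h : x.2.length = s ∧ X (vs x.2) then single (omk J hinv x.2 h) 1 else 0

theorem eps0_pos {s : ℕ} (γ : List Γ) {l : List V} (h : l.length = s ∧ X (vs l)) :
    eps0 J hinv s (single (γ, l) 1) = single (omk J hinv l h) 1 := by
  simp [eps0, h]

theorem eps0_neg {s : ℕ} (γ : List Γ) {l : List V} (h : ¬ (l.length = s ∧ X (vs l))) :
    eps0 J hinv s (single (γ, l) 1) = 0 := by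
  rw [eps0, Finsupp.linearCombination_single, dif_neg h, smul_zero]

theorem eps0_perm (s : ℕ) (g : Γ) (x : PT Γ V) :
    eps0 J hinv s (perm Γ (List Γ × List V) g x) =
      perm (Γ ⧸ J) (Om J hinv s) g (eps0 J hinv s x) :=
  PT_ext (f := (eps0 J hinv s).comp (perm Γ (List Γ × List V) g))
    (g := (perm (Γ ⧸ J) (Om J hinv s) g).comp (eps0 J hinv s)) (fun γ l => by
      rw [LinearMap.comp_apply, LinearMap.comp_apply, perm_single, Prod.smul_mk]
      by_cases h : l.length = s ∧ X (vs l)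
      · rw [eps0_pos J hinv _ h, eps0_pos J hinv _ (good_smul hinv g h), perm_single, smul_omk]
      · rw [eps0_neg J hinv _ h, eps0_neg J hinv, map_zero]
        intro h'
        have := good_smul hinv g⁻¹ h'
        rw [inv_smul_smul] at this
        exact h this) x

/-- The augmentation on the coinvariants. -/
noncomputable def eps (s : ℕ) : TQ J V →ₗ[ℚ] (Om J hinv s →₀ ℚ) :=
  Submodule.liftQ _ (eps0 J hinv s) fun _ hc =>
    (Submodule.mem_bot ℚ).1 (IS_induction (eps0 J hinv s) ⊥ (fun j hj a => by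
      rw [← perm_single, eps0_perm, (QuotientGroup.eq_one_iff j).2 hj, map_one]
      simp) hc)

theorem eps_mk (s : ℕ) (x : PT Γ V) : eps J hinv s (mkT J x) = eps0 J hinv s x := rfl

/-- A section of the augmentation. -/
noncomputable def sec (s : ℕ) : (Om J hinv s →₀ ℚ) →ₗ[ℚ] TQ J V :=
  Finsupp.linearCombination ℚ fun ω => mkT J (single ([1], (omk_surj J hinv ω).choose) 1)

theorem eps_sec (s : ℕ) (y : Om J hinv s →₀ ℚ) : eps J hinv s (sec J hinv s y) = y := by
  induction y using Finsupp.induction_linear with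
  | zero => simp
  | add a b ha hb => simp only [map_add, ha, hb]
  | single ω r =>
    obtain ⟨h, e⟩ := (omk_surj J hinv ω).choose_spec
    rw [sec, Finsupp.linearCombination_single, map_smul, eps_mk, eps0_pos J hinv _ h, e]
    simp

theorem sec_mem (s : ℕ) (y : Om J hinv s →₀ ℚ) : sec J hinv s y ∈ (eqDC J X hX).D 0 s := by
  induction y using Finsupp.induction_linear with
  | zero => simp
  | add a b ha hb => rw [map_add]; exact Submodule.add_mem _ ha hb
  | single ω r =>
    obtain ⟨h, -⟩ := (omk_surj J hinv ω).choose_spec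
    rw [sec, Finsupp.linearCombination_single]
    exact Submodule.smul_mem _ _ ⟨_, Finsupp.single_mem_supported ℚ _ ⟨rfl, h⟩, rfl⟩

omit [Group Γ] [MulAction Γ V] in
theorem dvP_two (a b : Γ) (l : List V) :
    dvP (single ([a, b], l) 1) = single ([b], l) 1 - single ([a], l) 1 := by
  rw [← atL_single, dvP_atL, dE_eq_bd (n := 0) (single_mem_Ch (l := [a, b]) rfl trivial 1), bd_single]
  simp [Finset.sum_range_succ, sub_eq_add_neg]

theorem sub_sec_eps {s : ℕ} {x : TQ J V} (hx : x ∈ (eqDC J X hX).D 0 s) :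
    x - sec J hinv s (eps J hinv s x) ∈ ((eqDC J X hX).D 1 s).map (eqDC J X hX).dv := by
  obtain ⟨x, hx, rfl⟩ := hx
  refine PD_induction (mkT J - (sec J hinv s).comp (eps0 J hinv s)) _ (fun γ l h1 h2 h3 => ?_) hx
  obtain ⟨g, rfl⟩ := List.length_eq_one_iff.1 h1
  rw [LinearMap.sub_apply, LinearMap.comp_apply, eps0_pos J hinv _ ⟨h2, h3⟩, sec,
    Finsupp.linearCombination_single, one_smul]
  obtain ⟨h, e⟩ := (omk_surj J hinv (omk J hinv l ⟨h2, h3⟩)).choose_spec
  obtain ⟨j, hj, e'⟩ := (omk_eq J hinv).1 e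
  refine ⟨mkT J (single ([j, g], l) 1), ⟨_, Finsupp.single_mem_supported ℚ _ ⟨rfl, h2, h3⟩, rfl⟩,
    ?_⟩
  rw [eqDC_dv, dvP_two, map_sub, ← mkT_perm hj (single ([1], _) 1), perm_single, Prod.smul_mk, e']
  simp [smul_list]

theorem eps_dv {s : ℕ} {y : TQ J V} (hy : y ∈ (eqDC J X hX).D 1 s) :
    eps J hinv s ((eqDC J X hX).dv y) = 0 := by
  obtain ⟨y, hy, rfl⟩ := hy
  refine (Submodule.mem_bot ℚ).1
    (PD_induction ((eps0 J hinv s).comp dvP) ⊥ (fun γ l h1 h2 h3 => ?_) hy)
  obtain ⟨a, b, rfl⟩ := List.length_eq_two.1 h1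
  rw [LinearMap.comp_apply, dvP_two, map_sub, eps0_pos J hinv _ ⟨h2, h3⟩,
    eps0_pos J hinv _ ⟨h2, h3⟩, sub_self]
  exact Submodule.zero_mem _

variable (hrows : S_rows) (hcols : S_cols) (hex : ∀ n, ExactAt X n)
  (hfin : ∀ l : List V, l ≠ [] → X (vs l) → Finite (MulAction.stabilizer Γ l))

theorem fp_CC (h23 : S_FP23) (hg : S_FPg)
    (horb : ∀ s, ∃ Ls : Finset (List V), ∀ l, l.length = s → X (vs l) → ∃ g : Γ, g • l ∈ Ls)
    (s m : ℕ) :
    FP (MonoidAlgebra ℚ (Γ ⧸ J)) m ((mkK J hX hinv hrows hcols hex hfin).CC (s + 1)) := by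
  set K := mkK J hX hinv hrows hcols hex hfin with hK
  let e : K.D 0 (s + 1) →ₗ[MonoidAlgebra ℚ (Γ ⧸ J)]
      (perm (Γ ⧸ J) (Om J hinv (s + 1))).asModule :=
    (mapR (repT J V) _ (eps J hinv (s + 1)) (by
      intro g x
      induction g using QuotientGroup.induction_on with
      | H g =>
        induction x using Submodule.Quotient.induction_on with
        | H x => exact eps0_perm J hinv _ g x)).comp (K.D 0 (s + 1)).subtype
  have hs : Function.Surjective e := fun y =>
    ⟨⟨sec J hinv (s + 1) y, sec_mem J hX hinv _ y⟩, eps_sec J hinv _ y⟩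
  have hk : LinearMap.ker e = ((K.D 1 (s + 1)).map K.dv).comap (K.D 0 (s + 1)).subtype := by
    ext x
    constructor
    · intro h
      have h0 : eps J hinv (s + 1) x.1 = 0 := h
      have := sub_sec_eps J hX hinv x.2
      rw [h0, map_zero, sub_zero] at this
      exact this
    · rintro ⟨y, hy, e'⟩
      change eps J hinv (s + 1) x.1 = 0
      have e'' : (eqDC J X hX).dv y = x.1 := e'
      rw [← e'']
      exact eps_dv J hX hinv hy
  exact (h23 _).1 _ _ m ((e.quotKerEquivOfSurjective hs).symm.trans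
    (Submodule.quotEquivOfEq _ _ hk)) (fp_Om J hinv hg horb hfin s m)

variable (h0 : X ∅)

include h0 in
theorem atL_mem_ZW {i : ℕ} (c : Zs J i) :
    (repT J V).asModuleEquiv.symm (mkT J (atL ([] : List V) c.1)) ∈
      (mkK J hX hinv hrows hcols hex hfin).ZW i 0 := by
  have h1 : mkT J (atL ([] : List V) c.1) ∈ (eqDC J X hX).D i 0 :=
    ⟨_, atL_mem_PD rfl (by simpa using h0) c.2.1, rfl⟩
  refine (RDC.mem_ZW _).2 ⟨h1, (eqDC J X hX).dh_zero _ _ h1, ?_⟩
  exact eqDC_dv_atL (hX := hX) (q := i) [] (by rw [stab_nil]; exact c.2)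

/-- The comparison map on cycles. -/
noncomputable def phi0 (i : ℕ) : Zs J i →ₗ[ℚ] (mkK J hX hinv hrows hcols hex hfin).HW i 0 where
  toFun c := Submodule.Quotient.mk ⟨_, atL_mem_ZW J hX hinv hrows hcols hex hfin h0 c⟩
  map_add' a b := by
    rw [← Submodule.Quotient.mk_add]
    exact congrArg Submodule.Quotient.mk (Subtype.ext (by simp))
  map_smul' r a := by
    rw [← Submodule.Quotient.mk_smul]
    exact congrArg Submodule.Quotient.mk (Subtype.ext (by simp))

theorem phi0_surj (i : ℕ) : Function.Surjective (phi0 J hX hinv hrows hcols hex hfin h0 i) := by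
  intro x
  induction x using Submodule.Quotient.induction_on with
  | H x =>
    obtain ⟨h1, -, h3⟩ := (RDC.mem_ZW _).1 x.2
    obtain ⟨Ls, c, h4, -, e⟩ := hcols Γ V J X hX i 0 x.1 h1 h3
    have h5 : ∀ l ∈ Ls, l = [] := fun l hl => List.length_eq_zero_iff.1 (h4 l hl).1
    refine ⟨⟨∑ l ∈ Ls, c l, Submodule.sum_mem _ fun l hl => ?_⟩,
      congrArg Submodule.Quotient.mk (Subtype.ext ?_)⟩
    · have := (h4 l hl).2.2
      rw [h5 l hl, stab_nil] at this
      rw [h5 l hl]
      exact this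
    · change mkT J (atL ([] : List V) (∑ l ∈ Ls, c l)) = x.1
      rw [map_sum, map_sum]
      exact (Finset.sum_congr rfl fun l hl => by rw [h5 l hl]).trans e.symm

theorem phi0_eq_zero (hci : S_colinj) {i : ℕ} (c : Zs J i) :
    phi0 J hX hinv hrows hcols hex hfin h0 i c = 0 ↔ c.1 ∈ Bs J i := by
  refine (Submodule.Quotient.mk_eq_zero _).trans ⟨fun h => ?_, fun h => ?_⟩
  · obtain ⟨y, hy, -, e⟩ := (RDC.mem_BW _).1 h
    have := hci Γ V J X hX i 0 [] c.1 y hy e
    rwa [stab_nil] at this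
  · obtain ⟨y, hy, e⟩ := eqDC_atL_Bs (hX := hX) (l := []) (by simpa using h0)
      (show c.1 ∈ Bs (J ⊓ MulAction.stabilizer Γ ([] : List V)) i by rw [stab_nil]; exact h)
    exact (RDC.mem_BW _).2 ⟨y, hy, (eqDC J X hX).dh_zero _ _ hy, e⟩

/-- The comparison isomorphism. -/
noncomputable def phi (hci : S_colinj) (i : ℕ) :
    Hq J i ≃ₗ[ℚ] (mkK J hX hinv hrows hcols hex hfin).HW i 0 :=
  (Submodule.quotEquivOfEq _ _ (by
    ext c
    exact (phi0_eq_zero J hX hinv hrows hcols hex hfin h0 hci c).symm)).trans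
    ((phi0 J hX hinv hrows hcols hex hfin h0 i).quotKerEquivOfSurjective
      (phi0_surj J hX hinv hrows hcols hex hfin h0 i))

theorem phi_mk (hci : S_colinj) {i : ℕ} (c : Zs J i) :
    phi J hX hinv hrows hcols hex hfin h0 hci i (Submodule.Quotient.mk c) =
      phi0 J hX hinv hrows hcols hex hfin h0 i c := rfl

theorem phi_rep (hci : S_colinj) {i : ℕ} (g : Γ) (x : Hq J i) :
    phi J hX hinv hrows hcols hex hfin h0 hci i (Hrep J i g x) =
      MonoidAlgebra.of ℚ (Γ ⧸ J) g • phi J hX hinv hrows hcols hex hfin h0 hci i x := by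
  induction x using Submodule.Quotient.induction_on with
  | H c =>
    obtain ⟨h, e⟩ := Hrep_mk J i g c
    rw [e, phi_mk, phi_mk]
    change Submodule.Quotient.mk _ = _ • Submodule.Quotient.mk _
    rw [← Submodule.Quotient.mk_smul]
    refine congrArg Submodule.Quotient.mk (Subtype.ext ?_)
    change mkT J (atL [] (perm Γ (List Γ) g c.1)) =
      (repT J V).asAlgebraHom (MonoidAlgebra.of ℚ (Γ ⧸ J) g) (mkT J (atL [] c.1))
    rw [Representation.asAlgebraHom_of, repT_mk, perm_atL]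
    rfl

end Main

end JFin

open JFin in
theorem p_FIN (h23 : S_FP23) (hg : S_FPg) (hrows : S_rows) (hcols : S_cols) (hci : S_colinj) :
    S_FIN := by
  classical
  intro Γ V _ _ J _ X q hX h0 hinv hex horb hfin hQ hfd
  have hf := (mkK J hX hinv hrows hcols hex hfin).fin h23
    (fp_CC J hX hinv hrows hcols hex hfin h23 hg horb) q fun i hi m => by
      have := hfd i hi
      have := (phi J hX hinv hrows hcols hex hfin h0 hci i).finiteDimensional
      exact fp_of_fd h23 hg _ m (hQ m)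
  set Φ := phi J hX hinv hrows hcols hex hfin h0 hci q with hΦ
  obtain ⟨S, hS⟩ := hf.fg_top
  refine ⟨S.image Φ.symm, ?_⟩
  set U := Submodule.span ℚ {x | ∃ g : Γ, ∃ y ∈ S.image Φ.symm, x = Hrep J q g y} with hU
  have hst : ∀ g : Γ, ∀ x ∈ U, Hrep J q g x ∈ U := by
    intro g
    have : U ≤ U.comap (Hrep J q g) := by
      refine Submodule.span_le.2 ?_
      rintro _ ⟨g', y, hy, rfl⟩
      exact Submodule.subset_span ⟨g * g', y, hy, by rw [map_mul]; rfl⟩
    exact this
  let U' : Submodule (MonoidAlgebra ℚ (Γ ⧸ J)) ((mkK J hX hinv hrows hcols hex hfin).HW q 0) :=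
    { carrier := {z | Φ.symm z ∈ U}
      add_mem' := fun {a b} ha hb => by
        change Φ.symm (a + b) ∈ U
        rw [map_add]; exact U.add_mem ha hb
      zero_mem' := by
        change Φ.symm 0 ∈ U
        rw [map_zero]; exact U.zero_mem
      smul_mem' := fun r z hz => by
        change Φ.symm (r • z) ∈ U
        induction r using MonoidAlgebra.induction_on with
        | of g =>
          induction g using QuotientGroup.induction_on with
          | H g =>
            have := phi_rep J hX hinv hrows hcols hex hfin h0 hci g (Φ.symm z)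
            rw [← hΦ, Φ.apply_symm_apply] at this
            rw [← this, Φ.symm_apply_apply]
            exact hst g _ hz
        | add a b ha hb => rw [add_smul, map_add]; exact U.add_mem ha hb
        | smul r a ha => rw [smul_assoc, map_smul]; exact U.smul_mem r ha }
  have hle : (⊤ : Submodule (MonoidAlgebra ℚ (Γ ⧸ J)) _) ≤ U' := by
    rw [← hS, Submodule.span_le]
    intro z hz
    exact Submodule.subset_span ⟨1, Φ.symm z, Finset.mem_image_of_mem _ hz, by simp⟩
  rw [eq_top_iff]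
  intro x _
  have : Φ.symm (Φ x) ∈ U := hle (Submodule.mem_top (x := Φ x))
  rwa [Φ.symm_apply_apply] at this

end Pool.Agent.Lib.MP_49df17_al
end
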