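import Pool.Agent.Lib.MP_49df17_al.Core

-- part Pool.Agent.Lib.MP_49df17_al.FP1
section

/-!
Two out of three for modules of type `FP`, and Brown's criterion.
-/

namespace Pool.Agent.Lib.MP_49df17_al

open Finsupp
open scoped Pointwise

namespace JFP1

section Modules

variable {R : Type} [Ring R]

theorem fp_zero {M : Type} [AddCommGroup M] [Module R M] : FP R 0 M ↔ Module.Finite R M :=
  Iff.rfl

theorem fp_succ {M : Type} [AddCommGroup M] [Module R M] {m : ℕ} :
    FP R (m + 1) M ↔ ∃ (a : ℕ) (f : (Fin a → R) →ₗ[R] M), Function.Surjective f ∧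
      FP R m (LinearMap.ker f) := Iff.rfl

theorem fp_equiv (m : ℕ) : ∀ (A B : Type) [AddCommGroup A] [Module R A] [AddCommGroup B]
    [Module R B], (A ≃ₗ[R] B) → FP R m A → FP R m B := by
  induction m with
  | zero =>
    intro A B _ _ _ _ e h
    have : Module.Finite R A := h
    exact Module.Finite.equiv e
  | succ m ih =>
    intro A B _ _ _ _ e h
    obtain ⟨a, f, hf, hk⟩ := fp_succ.1 h
    refine fp_succ.2 ⟨a, e.toLinearMap.comp f, e.surjective.comp hf, ?_⟩
    refine ih _ _ (LinearEquiv.ofEq _ _ ?_) hk
    ext x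
    simp

theorem fp_pred (m : ℕ) : ∀ (A : Type) [AddCommGroup A] [Module R A],
    FP R (m + 1) A → FP R m A := by
  induction m with
  | zero =>
    intro A _ _ h
    obtain ⟨a, f, hf, -⟩ := fp_succ.1 h
    exact Module.Finite.of_surjective f hf
  | succ m ih =>
    intro A _ _ h
    obtain ⟨a, f, hf, hk⟩ := fp_succ.1 h
    exact fp_succ.2 ⟨a, f, hf, ih _ hk⟩

theorem fp_mono (A : Type) [AddCommGroup A] [Module R A] {m m' : ℕ} (hm : m' ≤ m)
    (h : FP R m A) : FP R m' A := by
  induction hm with
  | refl => exact h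
  | step _ ih => exact ih (fp_pred _ A h)

theorem fp_proj (m : ℕ) : ∀ (A : Type) [AddCommGroup A] [Module R A] [Module.Finite R A]
    [Module.Projective R A], FP R m A := by
  induction m with
  | zero => intro A _ _ h _; exact h
  | succ m ih =>
    intro A _ _ _ _
    obtain ⟨a, f, hf⟩ := Module.Finite.exists_fin' R A
    obtain ⟨s, hs⟩ := Module.projective_lifting_property f LinearMap.id hf
    have hs' : ∀ x, f (s x) = x := fun x => LinearMap.congr_fun hs x
    let p : (Fin a → R) →ₗ[R] LinearMap.ker f :=
      (LinearMap.id - s.comp f).codRestrict _ (fun x => by simp [hs'])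
    have hp : p.comp (LinearMap.ker f).subtype = LinearMap.id := by
      ext1 x
      apply Subtype.ext
      have : f x.1 = 0 := x.2
      simp [p, this]
    have hps : Function.Surjective p := fun x => ⟨x.1, LinearMap.congr_fun hp x⟩
    have : Module.Finite R (LinearMap.ker f) := Module.Finite.of_surjective p hps
    have : Module.Projective R (LinearMap.ker f) := Module.Projective.of_split _ p hp
    exact fp_succ.2 ⟨a, f, hf, ih _⟩

/-- The extension statement in degree `m`. -/
def Ext3 (R : Type) [Ring R] (m : ℕ) : Prop :=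
  ∀ (A B C : Type) [AddCommGroup A] [Module R A] [AddCommGroup B] [Module R B] [AddCommGroup C]
    [Module R C] (f : A →ₗ[R] B) (g : B →ₗ[R] C), Function.Injective f → Function.Surjective g →
    Function.Exact f g → FP R m A → FP R m C → FP R m B

theorem quot_of_ext {m : ℕ} (hE : Ext3 R m) (A B C : Type) [AddCommGroup A] [Module R A]
    [AddCommGroup B] [Module R B] [AddCommGroup C] [Module R C] (f : A →ₗ[R] B) (g : B →ₗ[R] C)
    (hf : Function.Injective f) (hg : Function.Surjective g) (hfg : Function.Exact f g)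
    (hA : FP R m A) (hB : FP R (m + 1) B) : FP R (m + 1) C := by
  obtain ⟨a, p, hp, hk⟩ := fp_succ.1 hB
  refine fp_succ.2 ⟨a, g.comp p, hg.comp hp, ?_⟩
  have hle : LinearMap.ker p ≤ LinearMap.ker (g.comp p) := LinearMap.ker_le_ker_comp _ _
  let q : LinearMap.ker (g.comp p) →ₗ[R] LinearMap.range f :=
    (p.comp (LinearMap.ker (g.comp p)).subtype).codRestrict _ (fun x => (hfg _).1 x.2)
  refine hE _ _ (LinearMap.range f) (Submodule.inclusion hle) q (Submodule.inclusion_injective hle)
    ?_ ?_ hk (fp_equiv m _ _ (LinearEquiv.ofInjective f hf) hA)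
  · rintro ⟨b, hb⟩
    obtain ⟨x, rfl⟩ := hp b
    exact ⟨⟨x, (hfg _).2 hb⟩, rfl⟩
  · intro x
    constructor
    · intro h
      exact ⟨⟨x.1, congrArg Subtype.val h⟩, rfl⟩
    · rintro ⟨y, rfl⟩
      exact Subtype.ext y.2

theorem ext3 (m : ℕ) : Ext3 R m := by
  induction m with
  | zero =>
    intro A B C _ _ _ _ _ _ f g _ hg hfg hA hC
    have : Module.Finite R A := hA
    have : Module.Finite R C := hC
    refine ⟨Submodule.fg_of_fg_map_of_fg_inf_ker g ?_ ?_⟩
    · rw [Submodule.map_top, LinearMap.range_eq_top.2 hg]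
      exact Module.Finite.fg_top
    · rw [top_inf_eq, hfg.linearMap_ker_eq, ← Submodule.map_top]
      exact Module.Finite.fg_top.map f
  | succ m ih =>
    intro A B C _ _ _ _ _ _ f g hf hg hfg hA hC
    obtain ⟨a, p, hp, hkp⟩ := fp_succ.1 hA
    obtain ⟨c, q, hq, hkq⟩ := fp_succ.1 hC
    obtain ⟨q', hq'⟩ := Module.projective_lifting_property g q hg
    have hq'' : ∀ y, g (q' y) = q y := fun y => LinearMap.congr_fun hq' y
    have hgf : ∀ x, g (f x) = 0 := fun x => (hfg _).2 ⟨x, rfl⟩
    let r : ((Fin a → R) × (Fin c → R)) →ₗ[R] B := (f.comp p).coprod q'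
    have hr : ∀ x y, r (x, y) = f (p x) + q' y := fun _ _ => rfl
    have hrs : Function.Surjective r := by
      intro b
      obtain ⟨y, hy⟩ := hq (g b)
      obtain ⟨x, hx⟩ := (hfg (b - q' y)).1 (by rw [map_sub, hq'', hy, sub_self])
      obtain ⟨x, rfl⟩ := hp x
      exact ⟨(x, y), by rw [hr, hx, sub_add_cancel]⟩
    let i : LinearMap.ker p →ₗ[R] LinearMap.ker r :=
      ((LinearMap.inl R _ _).comp (LinearMap.ker p).subtype).codRestrict _ (fun x => by
        have : p x.1 = 0 := x.2
        change r (x.1, 0) = 0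
        rw [hr, this, map_zero, map_zero, add_zero])
    let j : LinearMap.ker r →ₗ[R] LinearMap.ker q :=
      ((LinearMap.snd R _ _).comp (LinearMap.ker r).subtype).codRestrict _ (fun x => by
        have h1 : r (x.1.1, x.1.2) = 0 := x.2
        have h2 := congrArg g h1
        rw [hr, map_add, hgf, zero_add, hq'', map_zero] at h2
        exact h2)
    have hK : FP R m (LinearMap.ker r) := by
      refine ih _ _ _ i j ?_ ?_ ?_ hkp hkq
      · intro x y h
        exact Subtype.ext (congrArg (fun z : LinearMap.ker r => z.1.1) h)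
      · rintro ⟨y, hy⟩
        have hy' : q y = 0 := hy
        obtain ⟨x, hx⟩ := (hfg (-q' y)).1 (by rw [map_neg, hq'', hy', neg_zero])
        obtain ⟨x, rfl⟩ := hp x
        refine ⟨⟨(x, y), ?_⟩, rfl⟩
        change r (x, y) = 0
        rw [hr, hx, neg_add_cancel]
      · rintro ⟨⟨x, y⟩, hxy⟩
        constructor
        · intro h
          have hy : y = 0 := congrArg Subtype.val h
          subst hy
          have h1 : r (x, 0) = 0 := hxy
          rw [hr, map_zero, add_zero] at h1
          exact ⟨⟨x, hf (by rw [h1, map_zero])⟩, rfl⟩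
        · rintro ⟨z, hz⟩
          rw [← hz]
          rfl
    exact quot_of_ext ih _ _ _ (LinearMap.ker r).subtype r Subtype.val_injective hrs
      (LinearMap.exact_subtype_ker_map r) hK (fp_proj _ _)

theorem quot3 (m : ℕ) (A B C : Type) [AddCommGroup A] [Module R A]
    [AddCommGroup B] [Module R B] [AddCommGroup C] [Module R C] (f : A →ₗ[R] B) (g : B →ₗ[R] C)
    (hf : Function.Injective f) (hg : Function.Surjective g) (hfg : Function.Exact f g)
    (hA : FP R m A) (hB : FP R (m + 1) B) : FP R (m + 1) C :=
  quot_of_ext (ext3 m) A B C f g hf hg hfg hA hB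

/-- A quotient by a finitely generated projective submodule. -/
theorem quot_proj (m : ℕ) (A B C : Type) [AddCommGroup A] [Module R A] [Module.Finite R A]
    [Module.Projective R A] [AddCommGroup B] [Module R B] [AddCommGroup C] [Module R C]
    (f : A →ₗ[R] B) (g : B →ₗ[R] C)
    (hf : Function.Injective f) (hg : Function.Surjective g) (hfg : Function.Exact f g)
    (hB : FP R m B) : FP R m C := by
  cases m with
  | zero =>
    have : Module.Finite R B := hB
    exact Module.Finite.of_surjective g hg
  | succ m => exact quot3 m A B C f g hf hg hfg (fp_proj _ _) hB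

theorem sub3 (m : ℕ) (A B C : Type) [AddCommGroup A] [Module R A]
    [AddCommGroup B] [Module R B] [AddCommGroup C] [Module R C] (f : A →ₗ[R] B) (g : B →ₗ[R] C)
    (hf : Function.Injective f) (hg : Function.Surjective g) (hfg : Function.Exact f g)
    (hB : FP R m B) (hC : FP R (m + 1) C) : FP R m A := by
  obtain ⟨a, p, hp, hk⟩ := fp_succ.1 hC
  obtain ⟨p', hp'⟩ := Module.projective_lifting_property g p hg
  have hp'' : ∀ y, g (p' y) = p y := fun y => LinearMap.congr_fun hp' y
  have hgf : ∀ x, g (f x) = 0 := fun x => (hfg _).2 ⟨x, rfl⟩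
  let r : (A × (Fin a → R)) →ₗ[R] B := f.coprod p'
  have hr : ∀ x y, r (x, y) = f x + p' y := fun _ _ => rfl
  have hrs : Function.Surjective r := by
    intro b
    obtain ⟨y, hy⟩ := hp (g b)
    obtain ⟨x, hx⟩ := (hfg (b - p' y)).1 (by rw [map_sub, hp'', hy, sub_self])
    exact ⟨(x, y), by rw [hr, hx, sub_add_cancel]⟩
  let j : LinearMap.ker r →ₗ[R] LinearMap.ker p :=
    ((LinearMap.snd R _ _).comp (LinearMap.ker r).subtype).codRestrict _ (fun x => by
      have h1 : r (x.1.1, x.1.2) = 0 := x.2
      have h2 := congrArg g h1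
      rw [hr, map_add, hgf, zero_add, hp'', map_zero] at h2
      exact h2)
  have hj : Function.Bijective j := by
    constructor
    · rw [injective_iff_map_eq_zero]
      rintro ⟨⟨x, y⟩, hxy⟩ h
      have hy : y = 0 := congrArg Subtype.val h
      subst hy
      have h1 : r (x, 0) = 0 := hxy
      rw [hr, map_zero, add_zero] at h1
      have hx : x = 0 := hf (by rw [h1, map_zero])
      subst hx
      rfl
    · rintro ⟨y, hy⟩
      have hy' : p y = 0 := hy
      obtain ⟨x, hx⟩ := (hfg (-p' y)).1 (by rw [map_neg, hp'', hy', neg_zero])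
      refine ⟨⟨(x, y), ?_⟩, rfl⟩
      change r (x, y) = 0
      rw [hr, hx, neg_add_cancel]
  have hK : FP R m (LinearMap.ker r) :=
    fp_equiv m _ _ (LinearEquiv.ofBijective j hj).symm hk
  have hP : FP R m (A × (Fin a → R)) :=
    ext3 m _ _ _ (LinearMap.ker r).subtype r Subtype.val_injective hrs
      (LinearMap.exact_subtype_ker_map r) hK hB
  exact quot_proj m _ _ _ (LinearMap.inr R A (Fin a → R)) (LinearMap.fst R A (Fin a → R))
    LinearMap.inr_injective LinearMap.fst_surjective Function.Exact.inr_fst hP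

theorem fp_pi (m : ℕ) (k : ℕ) : ∀ (A : Fin k → Type) [∀ i, AddCommGroup (A i)]
    [∀ i, Module R (A i)], (∀ i, FP R m (A i)) → FP R m (∀ i, A i) := by
  induction k with
  | zero =>
    intro A _ _ _
    have : Module.Free R (∀ i, A i) := Module.Free.of_subsingleton R _
    have : Module.Finite R (∀ i, A i) := Module.Finite.of_finite
    exact fp_proj _ _
  | succ k ih =>
    intro A _ _ h
    have h1 : FP R m (A 0 × ∀ i : Fin k, A i.succ) :=
      ext3 m _ _ _ (LinearMap.inl R _ _) (LinearMap.snd R _ _) LinearMap.inl_injective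
        LinearMap.snd_surjective Function.Exact.inl_snd (h 0) (ih _ fun i => h i.succ)
    exact fp_equiv m _ _ (Fin.consLinearEquiv R A) h1

/-- The end of a long exact sequence of modules of type `FP`. -/
theorem fp_chain (h : S_FP23) (C : ℕ → Type) [∀ s, AddCommGroup (C s)] [∀ s, Module R (C s)]
    (d : ∀ s, C (s + 1) →ₗ[R] C s) (m : ℕ) (h0 : Function.Surjective (d 0))
    (hex : ∀ s, s + 1 ≤ m → Function.Exact (d (s + 1)) (d s))
    (hC : ∀ s, FP R m (C (s + 1))) : FP R m (C 0) := by
  obtain ⟨e1, e2, -, -, e5⟩ := h R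
  have key : ∀ i s, i + s = m → FP R i (LinearMap.range (d s)) := by
    intro i
    induction i with
    | zero =>
      intro s _
      have : Module.Finite R (C (s + 1)) := e2 _ m 0 (Nat.zero_le _) (hC s)
      exact Module.Finite.of_surjective _ (d s).surjective_rangeRestrict
    | succ i ih =>
      intro s hs
      refine (e5 _ _ _ (LinearMap.range (d (s + 1))).subtype (d s).rangeRestrict
        Subtype.val_injective (d s).surjective_rangeRestrict ?_ i).2.2 (ih (s + 1) (by omega))
        (e2 _ m _ (by omega) (hC s))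
      intro x
      rw [Subtype.ext_iff]
      change d s x = 0 ↔ _
      rw [hex s (by omega) x]
      constructor
      · intro hx
        exact ⟨⟨x, hx⟩, rfl⟩
      · rintro ⟨y, rfl⟩
        exact y.2
  exact e1 _ _ m (LinearEquiv.ofTop _ (LinearMap.range_eq_top.2 h0)) (key m 0 rfl)

end Modules

section Reps

variable {G : Type} [Group G]

/-- An equivariant map as a map of modules over the group algebra. -/
noncomputable def mkR {V W : Type} [AddCommGroup V] [Module ℚ V] [AddCommGroup W] [Module ℚ W]
    (ρ : Representation ℚ G V) (σ : Representation ℚ G W) (f : V →ₗ[ℚ] W)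
    (hf : ∀ g v, f (ρ g v) = σ g (f v)) : ρ.asModule →ₗ[MonoidAlgebra ℚ G] σ.asModule :=
  Representation.IntertwiningMap.equivLinearMapAsModule ρ σ
    ⟨f, fun g => LinearMap.ext fun v => hf g v⟩

theorem fpr_iff (h : S_FP23) {V W : Type} [AddCommGroup V] [Module ℚ V] [AddCommGroup W]
    [Module ℚ W] (ρ : Representation ℚ G V) (σ : Representation ℚ G W) (f : V →ₗ[ℚ] W)
    (hf : ∀ g v, f (ρ g v) = σ g (f v)) (hb : Function.Bijective f) (m : ℕ) :
    FPr ρ m ↔ FPr σ m :=
  ⟨(h _).1 _ _ m (LinearEquiv.ofBijective (mkR ρ σ f hf) hb),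
    (h _).1 _ _ m (LinearEquiv.ofBijective (mkR ρ σ f hf) hb).symm⟩

variable {V : Type} [MulAction G V] {X : Cx V}

/-- Lists of a given length spanning a simplex. -/
def lists (hX : ∀ (g : G) S, X S → X (g • S)) (s : ℕ) : SubMulAction G (List V) where
  carrier := {l | l.length = s ∧ X (vs l)}
  smul_mem' g l hl := ⟨by rw [smul_list, List.length_map]; exact hl.1, by
    rw [vs_smul]; exact hX g _ hl.2⟩

/-- The representation on chains. -/
noncomputable def chRep (hX : ∀ (g : G) S, X S → X (g • S)) (s : ℕ) :
    Representation ℚ G (Ch X s) :=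
  (perm G (List V)).subrepresentation (Ch X s) fun g _ hc =>
    mapL_mem_Ch (X := X) (Y := X) (f := (g • ·)) (fun _ hl => hX g _ hl) hc

theorem chRep_val (hX : ∀ (g : G) S, X S → X (g • S)) (s : ℕ) (g : G) (c : Ch X s) :
    (chRep hX s g c).1 = perm G (List V) g c.1 := rfl

theorem fpr_ch (h : S_FP23) (hX : ∀ (g : G) S, X S → X (g • S)) (s m : ℕ)
    (hp : FPr (perm G (lists hX s)) m) : FPr (chRep hX s) m := by
  let e : (lists hX s →₀ ℚ) ≃ₗ[ℚ] Ch X s :=
    (Finsupp.supportedEquivFinsupp {l : List V | l.length = s ∧ X (vs l)}).symm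
  have he : ∀ (a : lists hX s) (r : ℚ), (e (single a r)).1 = single a.1 r := fun a r =>
    Finsupp.supportedEquivFinsupp_symm_single _ a r
  refine (fpr_iff h _ _ e.toLinearMap ?_ e.bijective m).1 hp
  intro g v
  induction v using Finsupp.induction_linear with
  | zero => simp
  | add x y hx hy => simp only [map_add, hx, hy]
  | single a r =>
    apply Subtype.ext
    rw [perm_single, chRep_val, LinearEquiv.coe_coe, he, he, perm_single]
    rfl

theorem fpg_of_ch (h : S_FP23) (hX : ∀ (g : G) S, X S → X (g • S)) (h0 : X ∅) (m : ℕ)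
    (hp : FPr (chRep hX 0) m) : FPg G m := by
  let f : ℚ →ₗ[ℚ] Ch X 0 := (Finsupp.lsingle ([] : List V)).codRestrict _ fun r =>
    single_mem_Ch rfl (by simpa using h0) r
  have hf : ∀ r, (f r).1 = single [] r := fun _ => rfl
  refine (fpr_iff h (Representation.trivial ℚ G ℚ) (chRep hX 0) f ?_ ⟨?_, ?_⟩ m).2 hp
  · intro g r
    apply Subtype.ext
    rw [chRep_val, hf, hf, perm_single]
    rfl
  · intro r r' e
    have := congrArg Subtype.val e
    rw [hf, hf] at this
    exact Finsupp.single_injective _ this
  · rintro ⟨c, hc⟩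
    refine ⟨c [], Subtype.ext ?_⟩
    rw [hf]
    ext l
    by_cases hl : l = []
    · subst hl; simp
    · have : c l = 0 := by
        by_contra h1
        exact hl (List.length_eq_zero_iff.1 (mem_Ch.1 hc l (Finsupp.mem_support_iff.2 h1)).1)
      simp [hl, this]

end Reps

end JFP1

open JFP1

theorem p_FP23 : S_FP23 := fun _ _ =>
  ⟨fun A B _ _ _ _ m e h => fp_equiv m A B e h, fun A _ _ _ _ hm h => fp_mono A hm h,
    fun A _ _ _ _ m => fp_proj m A, fun k A _ _ m h => fp_pi m k A h,
    fun A B C _ _ _ _ _ _ f g hf hg hfg m =>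
      ⟨ext3 m A B C f g hf hg hfg, sub3 m A B C f g hf hg hfg, quot3 m A B C f g hf hg hfg⟩⟩

theorem p_Brown (h : S_FP23) (h' : S_FPg) : S_Brown := by
  classical
  intro G V _ _ X m hD h0 hX hA hO hS
  refine fpg_of_ch h hX h0 m ?_
  let d : ∀ s, Ch X (s + 1) →ₗ[ℚ] Ch X s := fun s => bd.restrict fun _ hc => bd_mem_Ch hD hc
  have hd : ∀ s c, (d s c).1 = bd c.1 := fun _ _ => rfl
  have hdg : ∀ s (g : G) c, d s (chRep hX (s + 1) g c) = chRep hX s g (d s c) := fun s g c =>
    Subtype.ext (bd_mapL (g • ·) c.1)
  have hlift : ∀ s ≤ m, ∀ c : Ch X s, bd c.1 = 0 → ∃ b, d s b = c := by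
    intro s hs c hc
    obtain ⟨b, hb, e⟩ := hA s hs ⟨c.2, hc⟩
    exact ⟨⟨b, hb⟩, Subtype.ext e⟩
  refine fp_chain h (fun s => (chRep hX s).asModule) (fun s => mkR _ _ (d s) (hdg s)) m
    ?_ ?_ ?_
  · intro c
    exact hlift 0 (Nat.zero_le _) c (bd_eq_zero_of_mem_Ch_zero (Subtype.property c))
  · intro s hs c
    constructor
    · intro hc
      exact hlift (s + 1) hs c (congrArg Subtype.val hc)
    · rintro ⟨b, rfl⟩
      exact Subtype.ext (bd_bd (Subtype.val b))
  · intro s
    refine fpr_ch h hX (s + 1) m (h'.1 G (lists hX (s + 1)) m ?_ ?_)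
    · obtain ⟨Ls, hLs⟩ := hO (s + 1)
      refine ⟨Ls.subtype _, fun a => ?_⟩
      obtain ⟨g, hg⟩ := hLs a.1 a.2.1 a.2.2
      exact ⟨g, Finset.mem_subtype.2 hg⟩
    · intro a
      have e : MulAction.stabilizer G a = MulAction.stabilizer G a.1 := by
        ext g
        rw [MulAction.mem_stabilizer_iff, MulAction.mem_stabilizer_iff, Subtype.ext_iff]
        rfl
      rw [e]
      refine hS a.1 ?_ a.2.2
      intro hn
      have := a.2.1
      rw [hn] at this
      simp at this

end Pool.Agent.Lib.MP_49df17_al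
end

-- part Pool.Agent.Lib.MP_49df17_al.FP2
section

/-!
Finiteness properties of permutation modules, finite-dimensional modules and groups.
-/

namespace Pool.Agent.Lib.MP_49df17_al

namespace JFP2

open Finsupp TensorProduct

section BaseChange

variable {R S X : Type} [Ring R] [Ring S]

/-- The sum map of an induced module. -/
noncomputable def Phi (s : X → S) {M N : Type} [AddCommGroup M] [AddCommGroup N] [Module S N]
    (i : M →+ N) : (X →₀ M) →+ N :=
  Finsupp.liftAddHom fun x => (DistribSMul.toAddMonoidHom N (s x)).comp i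

@[simp] theorem Phi_single (s : X → S) {M N : Type} [AddCommGroup M] [AddCommGroup N]
    [Module S N] (i : M →+ N) (x : X) (m : M) : Phi s i (single x m) = s x • i m := by
  simp [Phi]

/-- The coordinatewise ring map on free modules. -/
def iFree (φ : R →+* S) (a : ℕ) : (Fin a → R) →+ (Fin a → S) where
  toFun v := fun j => φ (v j)
  map_zero' := by ext; simp
  map_add' v w := by ext; simp

theorem Phi_iFree_apply (φ : R →+* S) (s : X → S) (a : ℕ) (u : X →₀ (Fin a → R)) (j : Fin a) :
    Phi s (iFree φ a) u j =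
      Phi s φ.toAddMonoidHom (mapRange.addMonoidHom (Pi.evalAddMonoidHom (fun _ => R) j) u) := by
  induction u using Finsupp.induction_linear with
  | zero => simp
  | add u v hu hv => simp only [map_add, Pi.add_apply, hu, hv]
  | single x v => simp [iFree]

theorem Phi_iFree_single (φ : R →+* S) (s : X → S) (a : ℕ) (u : X →₀ R) (j : Fin a) :
    Phi s (iFree φ a) (mapRange.addMonoidHom (AddMonoidHom.single (fun _ => R) j) u) =
      Pi.single j (Phi s φ.toAddMonoidHom u) := by
  induction u using Finsupp.induction_linear with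
  | zero => simp
  | add u v hu hv => simp only [map_add, Pi.single_add, hu, hv]
  | single x v =>
    ext k
    by_cases h : k = j
    · subst h; simp [iFree]
    · simp [iFree, h]

theorem free_bij (φ : R →+* S) (s : X → S) (hs : Function.Bijective (Phi s φ.toAddMonoidHom))
    (a : ℕ) : Function.Bijective (Phi s (iFree φ a)) := by
  constructor
  · rw [injective_iff_map_eq_zero]
    intro u hu
    ext x j
    have h1 := Phi_iFree_apply φ s a u j
    rw [hu, Pi.zero_apply] at h1
    have h2 := (injective_iff_map_eq_zero _).1 hs.1 _ h1.symm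
    simpa using DFunLike.congr_fun h2 x
  · intro w
    choose u hu using fun j => hs.2 (w j)
    refine ⟨∑ j, mapRange.addMonoidHom (AddMonoidHom.single (fun _ => R) j) (u j), ?_⟩
    rw [map_sum]
    simp only [Phi_iFree_single, hu]
    exact Finset.univ_sum_single w

theorem base_step (φ : R →+* S) (s : X → S) (hs : Function.Bijective (Phi s φ.toAddMonoidHom))
    {M N : Type} [AddCommGroup M] [Module R M] [AddCommGroup N] [Module S N] (i : M →+ N)
    (hi : ∀ r x, i (r • x) = φ r • i x) (hb : Function.Bijective (Phi s i)) {a : ℕ}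
    (f : (Fin a → R) →ₗ[R] M) (hf : Function.Surjective f) :
    ∃ F : (Fin a → S) →ₗ[S] N, Function.Surjective F ∧
      ∃ i' : LinearMap.ker f →+ LinearMap.ker F, (∀ r x, i' (r • x) = φ r • i' x) ∧
        Function.Bijective (Phi s i') := by
  let F : (Fin a → S) →ₗ[S] N := Fintype.linearCombination S fun j => i (f (Pi.single j 1))
  have hF : ∀ v, F (iFree φ a v) = i (f v) := by
    intro v
    have hv : v = ∑ j, v j • Pi.single j (1 : R) := by
      ext k; simp [Pi.single_apply]
    conv_rhs => rw [hv]
    simp [F, Fintype.linearCombination_apply, iFree, hi]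
  have hsq : ∀ u, F (Phi s (iFree φ a) u) = Phi s i (mapRange.addMonoidHom f.toAddMonoidHom u) := by
    intro u
    induction u using Finsupp.induction_linear with
    | zero => simp
    | add u v hu hv => simp only [map_add, hu, hv]
    | single x v => simp [hF]
  refine ⟨F, fun y => ?_, ?_⟩
  · obtain ⟨u, rfl⟩ := hb.2 y
    obtain ⟨u', hu'⟩ := Finsupp.mapRange_surjective f (map_zero f) hf u
    exact ⟨Phi s (iFree φ a) u', by rw [hsq, ← hu']; rfl⟩
  let i' : LinearMap.ker f →+ LinearMap.ker F :=
    { toFun := fun v => ⟨iFree φ a v, by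
        rw [LinearMap.mem_ker, hF, LinearMap.mem_ker.1 v.2, map_zero]⟩
      map_zero' := by ext; simp
      map_add' := fun v w => by ext; simp }
  have hsq' : ∀ u, ((Phi s i' u : LinearMap.ker F) : Fin a → S) = Phi s (iFree φ a)
      (mapRange.addMonoidHom (LinearMap.ker f).subtype.toAddMonoidHom u) := by
    intro u
    induction u using Finsupp.induction_linear with
    | zero => simp
    | add u v hu hv => simp only [map_add, Submodule.coe_add, hu, hv]
    | single x v => simp [i']
  refine ⟨i', fun r x => ?_, ?_, ?_⟩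
  · ext j; simp [i', iFree]
  · rw [injective_iff_map_eq_zero]
    intro u hu
    have h1 := hsq' u
    rw [hu] at h1
    have h2 := (injective_iff_map_eq_zero _).1 (free_bij φ s hs a).1 _ h1.symm
    ext x j
    simpa using congrFun (DFunLike.congr_fun h2 x) j
  · intro w
    obtain ⟨u, hu⟩ := (free_bij φ s hs a).2 w
    have h1 : Phi s i (mapRange.addMonoidHom f.toAddMonoidHom u) = 0 := by
      rw [← hsq, hu]; exact w.2
    have h2 := (injective_iff_map_eq_zero _).1 hb.1 _ h1
    have h3 : ∀ x, u x ∈ LinearMap.ker f := fun x => by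
      simpa using DFunLike.congr_fun h2 x
    refine ⟨Finsupp.onFinset u.support (fun x => ⟨u x, h3 x⟩) fun x hx => ?_, ?_⟩
    · rw [Finsupp.mem_support_iff]
      intro h0
      exact hx (Subtype.ext h0)
    · apply Subtype.ext
      rw [hsq', ← hu]
      congr 1
      ext x j
      simp

/-- Base change along a free ring extension preserves `FP`. -/
theorem base (φ : R →+* S) (s : X → S) (hs : Function.Bijective (Phi s φ.toAddMonoidHom))
    (m : ℕ) : ∀ (M N : Type) [AddCommGroup M] [Module R M] [AddCommGroup N] [Module S N]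
    (i : M →+ N), (∀ r x, i (r • x) = φ r • i x) → Function.Bijective (Phi s i) →
    FP R m M → FP S m N := by
  induction m with
  | zero =>
    intro M N _ _ _ _ i hi hb h
    have : Module.Finite R M := h
    obtain ⟨a, f, hf⟩ := Module.Finite.exists_fin' R M
    obtain ⟨F, hF, -⟩ := base_step φ s hs i hi hb f hf
    exact Module.Finite.of_surjective F hF
  | succ m ih =>
    intro M N _ _ _ _ i hi hb h
    obtain ⟨a, f, hf, hk⟩ := h
    obtain ⟨F, hF, i', hi', hb'⟩ := base_step φ s hs i hi hb f hf
    exact ⟨a, F, hF, ih _ _ i' hi' hb' hk⟩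

end BaseChange

/-- Over a Noetherian ring finite modules are `FP`. -/
theorem fp_noeth (R : Type) [Ring R] [IsNoetherianRing R] (m : ℕ) :
    ∀ (M : Type) [AddCommGroup M] [Module R M], Module.Finite R M → FP R m M := by
  induction m with
  | zero => intro M _ _ h; exact h
  | succ m ih =>
    intro M _ _ h
    obtain ⟨a, f, hf⟩ := Module.Finite.exists_fin' R M
    exact ⟨a, f, hf, ih _ inferInstance⟩

/-- Restriction of scalars along a ring map whose target is `FP` over the source. -/
theorem restrict (h23 : S_FP23) {R S P : Type} [Ring R] [Ring S] [AddCommGroup P] [Module S P]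
    (φ : S →+* R) (e0 : R ≃+ P) (he0 : ∀ s r, e0 (φ s * r) = s • e0 r) (m : ℕ) :
    FP S m P → ∀ (M N : Type) [AddCommGroup M] [Module R M] [AddCommGroup N] [Module S N]
    (e : M ≃+ N), (∀ s x, e (φ s • x) = s • e x) → FP R m M → FP S m N := by
  have he0' : ∀ s y, e0.symm (s • y) = φ s * e0.symm y := fun s y => by
    rw [AddEquiv.symm_apply_eq, he0, AddEquiv.apply_symm_apply]
  have key : ∀ {M N : Type} [AddCommGroup M] [Module R M] [AddCommGroup N] [Module S N]
      (e : M ≃+ N), (∀ s x, e (φ s • x) = s • e x) → ∀ {a : ℕ} (f : (Fin a → R) →ₗ[R] M),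
      Function.Surjective f → ∃ F : (Fin a → P) →ₗ[S] N, Function.Surjective F ∧
        ∀ w, F w = e (f fun j => e0.symm (w j)) := by
    intro M N _ _ _ _ e he a f hf
    refine ⟨{ toFun := fun w => e (f fun j => e0.symm (w j))
              map_add' := fun v w => ?_
              map_smul' := fun s w => ?_ }, fun y => ?_, fun w => rfl⟩
    · rw [← map_add, ← map_add]; congr 2; ext j; simp
    · rw [RingHom.id_apply, ← he, ← map_smul]; congr 2; ext j; simp [he0']
    · obtain ⟨v, hv⟩ := hf (e.symm y)
      exact ⟨fun j => e0 (v j), by simp [hv]⟩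
  induction m with
  | zero =>
    intro hP M N _ _ _ _ e he h
    have : Module.Finite R M := h
    have : Module.Finite S P := hP
    obtain ⟨a, f, hf⟩ := Module.Finite.exists_fin' R M
    obtain ⟨F, hF, -⟩ := key e he f hf
    exact Module.Finite.of_surjective F hF
  | succ m ih =>
    intro hP M N _ _ _ _ e he h
    obtain ⟨a, f, hf, hk⟩ := h
    obtain ⟨F, hF, hFw⟩ := key e he f hf
    have hP' := (h23 S).2.1 P (m + 1) m (Nat.le_succ m) hP
    let e' : LinearMap.ker f ≃+ LinearMap.ker F :=
      { toFun := fun v => ⟨fun j => e0 (v.1 j), by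
          have := LinearMap.mem_ker.1 v.2
          rw [LinearMap.mem_ker, hFw]; simp [this]⟩
        invFun := fun w => ⟨fun j => e0.symm (w.1 j), by
          have := LinearMap.mem_ker.1 w.2
          rw [hFw] at this
          simpa using this⟩
        left_inv := fun v => by ext j; simp
        right_inv := fun w => by ext j; simp
        map_add' := fun v w => by ext j; simp }
    have hK : FP S m (LinearMap.ker F) :=
      ih hP' _ _ e' (fun s x => by ext j; simp [e', he0]) hk
    exact ((h23 S).2.2.2.2 _ _ _ (LinearMap.ker F).subtype F (Submodule.injective_subtype _) hF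
      (LinearMap.exact_subtype_ker_map F) m).2.2 hK
      ((h23 S).2.2.2.1 a (fun _ => P) (m + 1) fun _ => hP)

/-- A bijection between index sets makes the sum map of group algebras bijective. -/
theorem ring_bij {G H X : Type} [Group G] [Group H] (ι : H →* G) (σ : X → G)
    (hb : Function.Bijective fun p : X × H => σ p.1 * ι p.2) :
    Function.Bijective (Phi (fun x => MonoidAlgebra.single (σ x) (1 : ℚ))
      (MonoidAlgebra.mapDomainRingHom ℚ ι).toAddMonoidHom) := by
  let E : (X →₀ MonoidAlgebra ℚ H) ≃+ MonoidAlgebra ℚ G :=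
    (mapRange.addEquiv MonoidAlgebra.coeffAddEquiv).trans
      ((Finsupp.curryAddEquiv.symm.trans (Finsupp.domCongr (Equiv.ofBijective _ hb))).trans
        MonoidAlgebra.coeffAddEquiv.symm)
  have : (Phi (fun x => MonoidAlgebra.single (σ x) (1 : ℚ))
      (MonoidAlgebra.mapDomainRingHom ℚ ι).toAddMonoidHom) = E.toAddMonoidHom := by
    refine Finsupp.addHom_ext fun x y => ?_
    induction y using MonoidAlgebra.induction_linear with
    | zero => simp
    | add u v hu hv => simp only [single_add, map_add, hu, hv]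
    | single h c => simp [E, MonoidAlgebra.single_mul_single]
  rw [this]
  exact E.bijective

theorem eqv_single_smul {G V : Type} [Group G] [AddCommGroup V] [Module ℚ V]
    (ρ : Representation ℚ G V) (g : G) (c : ℚ) (x : ρ.asModule) :
    ρ.asModuleEquiv (MonoidAlgebra.single g c • x) = c • ρ g (ρ.asModuleEquiv x) := by
  rw [Representation.asModuleEquiv_map_smul, Representation.asAlgebraHom_single]
  rfl

/-- Transitive permutation modules. -/
theorem perm_trans {G β : Type} [Group G] [MulAction G β] (b0 : β) (ht : ∀ y, ∃ g : G, g • b0 = y)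
    (H : Subgroup G) (hH : ∀ g, g ∈ H ↔ g • b0 = b0) (m : ℕ) (h : FPg H m) :
    FPr (perm G β) m := by
  choose σ hσ using ht
  have hb : Function.Bijective fun p : β × H => σ p.1 * H.subtype p.2 := by
    constructor
    · rintro ⟨x, a⟩ ⟨y, b⟩ e
      have e' : σ x * a = σ y * b := e
      have hxy : x = y := by
        have := congrArg (· • b0) e'
        simpa [mul_smul, (hH _).1 a.2, (hH _).1 b.2, hσ] using this
      subst hxy
      exact Prod.ext rfl (Subtype.ext (mul_left_cancel e'))
    · intro g
      refine ⟨(g • b0, ⟨(σ (g • b0))⁻¹ * g, (hH _).2 ?_⟩), by simp⟩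
      rw [mul_smul, inv_smul_eq_iff, hσ]
  let i : (Representation.trivial ℚ H ℚ).asModule →+ (perm G β).asModule :=
    (perm G β).asModuleEquiv.symm.toAddEquiv.toAddMonoidHom.comp
      ((singleAddHom b0).comp (Representation.trivial ℚ H ℚ).asModuleEquiv.toAddEquiv.toAddMonoidHom)
  have hi : ∀ x, (perm G β).asModuleEquiv (i x) =
      single b0 ((Representation.trivial ℚ H ℚ).asModuleEquiv x) := fun x => rfl
  refine base (MonoidAlgebra.mapDomainRingHom ℚ H.subtype) _ (ring_bij H.subtype σ hb) m _ _ i
    (fun r x => ?_) ?_ h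
  · apply (perm G β).asModuleEquiv.injective
    induction r using MonoidAlgebra.induction_linear with
    | zero => simp
    | add u v hu hv => simp only [add_smul, map_add, hu, hv]
    | single a c =>
      have e : MonoidAlgebra.mapDomainRingHom ℚ H.subtype (MonoidAlgebra.single a c) =
          MonoidAlgebra.single (a : G) c := by simp
      rw [e, eqv_single_smul, hi, hi, eqv_single_smul, perm_single, (hH _).1 a.2]
      simp
  · let E : (β →₀ (Representation.trivial ℚ H ℚ).asModule) ≃+ (perm G β).asModule :=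
      (mapRange.addEquiv (Representation.trivial ℚ H ℚ).asModuleEquiv.toAddEquiv).trans
        (perm G β).asModuleEquiv.symm.toAddEquiv
    have : Phi (fun x => MonoidAlgebra.single (σ x) (1 : ℚ)) i = E.toAddMonoidHom := by
      refine Finsupp.addHom_ext fun x y => ?_
      apply (perm G β).asModuleEquiv.injective
      rw [Phi_single, eqv_single_smul, hi, perm_single, hσ, one_smul]
      simp [E]
    rw [this]
    exact E.bijective

/-- An equivariant linear map as a map of modules over the group algebra. -/
noncomputable def mkLin {G V W : Type} [Group G] [AddCommGroup V] [Module ℚ V] [AddCommGroup W]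
    [Module ℚ W] (ρ : Representation ℚ G V) (τ : Representation ℚ G W) (f : V →ₗ[ℚ] W)
    (h : ∀ g v, f (ρ g v) = τ g (f v)) : ρ.asModule →ₗ[MonoidAlgebra ℚ G] τ.asModule :=
  MonoidAlgebra.equivariantOfLinearOfComm
    (τ.asModuleEquiv.symm.toLinearMap ∘ₗ f ∘ₗ ρ.asModuleEquiv.toLinearMap) fun g v => by
      apply τ.asModuleEquiv.injective
      rw [eqv_single_smul]
      simp only [LinearMap.comp_apply, LinearEquiv.coe_coe, LinearEquiv.apply_symm_apply]
      rw [eqv_single_smul, map_smul, h]

theorem mkLin_coe {G V W : Type} [Group G] [AddCommGroup V] [Module ℚ V] [AddCommGroup W]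
    [Module ℚ W] (ρ : Representation ℚ G V) (τ : Representation ℚ G W) (f : V →ₗ[ℚ] W)
    (h : ∀ g v, f (ρ g v) = τ g (f v)) : ⇑(mkLin ρ τ f h) = ⇑f := rfl

/-- Two out of three for representations. -/
theorem fpr_ses (h23 : S_FP23) {G U V W : Type} [Group G] [AddCommGroup U] [Module ℚ U]
    [AddCommGroup V] [Module ℚ V] [AddCommGroup W] [Module ℚ W] (π : Representation ℚ G U)
    (ρ : Representation ℚ G V) (τ : Representation ℚ G W) (f : U →ₗ[ℚ] V) (g : V →ₗ[ℚ] W)
    (hf : ∀ x v, f (π x v) = ρ x (f v)) (hg : ∀ x v, g (ρ x v) = τ x (g v))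
    (hi : Function.Injective f) (hs : Function.Surjective g) (he : Function.Exact f g) (m : ℕ) :
    (FPr π m → FPr τ m → FPr ρ m) ∧ (FPr π m → FPr ρ (m + 1) → FPr τ (m + 1)) :=
  let H := (h23 (MonoidAlgebra ℚ G)).2.2.2.2 _ _ _ (mkLin π ρ f hf) (mkLin ρ τ g hg) hi hs he m
  ⟨H.1, H.2.2⟩

theorem fpr_equiv (h23 : S_FP23) {G V W : Type} [Group G] [AddCommGroup V] [Module ℚ V]
    [AddCommGroup W] [Module ℚ W] (ρ : Representation ℚ G V) (τ : Representation ℚ G W)
    (f : V →ₗ[ℚ] W) (hf : ∀ x v, f (ρ x v) = τ x (f v)) (hb : Function.Bijective f) (m : ℕ)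
    (h : FPr ρ m) : FPr τ m :=
  (h23 (MonoidAlgebra ℚ G)).1 _ _ m (LinearEquiv.ofBijective (mkLin ρ τ f hf) hb) h

/-- Permutation modules with finitely many orbits. -/
theorem perm_fin (h23 : S_FP23) {G : Type} [Group G] (m k : ℕ) : ∀ (α : Type) [MulAction G α]
    (s : Finset α), s.card ≤ k → (∀ a : α, ∃ g : G, g • a ∈ s) →
    (∀ a : α, FPg (MulAction.stabilizer G a) m) → FPr (perm G α) m := by
  classical
  have hemp : ∀ (α : Type) [MulAction G α], IsEmpty α → FPr (perm G α) m := by
    intro α _ he
    have : Subsingleton (perm G α).asModule := inferInstanceAs (Subsingleton (α →₀ ℚ))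
    exact (h23 (MonoidAlgebra ℚ G)).2.2.1 _ m
  induction k with
  | zero =>
    intro α _ s hs hc _
    refine hemp α ⟨fun a => ?_⟩
    obtain ⟨g, hg⟩ := hc a
    rw [Finset.card_eq_zero.1 (Nat.le_zero.1 hs)] at hg
    simp at hg
  | succ k ih =>
    intro α _ s hs hc hst
    rcases s.eq_empty_or_nonempty with rfl | ⟨a, ha⟩
    · refine hemp α ⟨fun a => ?_⟩
      obtain ⟨g, hg⟩ := hc a
      simp at hg
    let B : SubMulAction G α :=
      { carrier := {x | x ∉ MulAction.orbit G a}
        smul_mem' := fun g x hx h => hx (by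
          obtain ⟨g', hg'⟩ := h
          exact ⟨g⁻¹ * g', by simp only [mul_smul]; rw [inv_smul_eq_iff]; exact hg'⟩) }
    have hB : ∀ x, x ∈ B ↔ x ∉ MulAction.orbit G a := fun x => Iff.rfl
    have h1 : FPr (perm G (MulAction.orbit G a)) m := by
      refine perm_trans ⟨a, MulAction.mem_orbit_self a⟩ ?_ (MulAction.stabilizer G a) ?_ m (hst a)
      · rintro ⟨y, g, hg⟩
        exact ⟨g, Subtype.ext hg⟩
      · intro g
        rw [MulAction.mem_stabilizer_iff, Subtype.ext_iff]
        rfl
    have h2 : FPr (perm G B) m := by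
      refine ih B ((s.erase a).subtype (· ∈ B)) ?_ (fun x => ?_) fun x => ?_
      · rw [Finset.card_subtype]
        have := Finset.card_erase_add_one ha
        have := Finset.card_filter_le (s.erase a) (· ∈ B)
        omega
      · obtain ⟨g, hg⟩ := hc x
        refine ⟨g, ?_⟩
        rw [Finset.mem_subtype, Finset.mem_erase]
        refine ⟨fun e => (hB _).1 (g • x).2 ?_, hg⟩
        rw [e]
        exact MulAction.mem_orbit_self a
      · have : MulAction.stabilizer G x = MulAction.stabilizer G (x : α) := by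
          ext g
          rw [MulAction.mem_stabilizer_iff, MulAction.mem_stabilizer_iff, Subtype.ext_iff]
          rfl
        rw [this]
        exact hst x
    refine (fpr_ses h23 (perm G (MulAction.orbit G a)) (perm G α) (perm G B)
      (Finsupp.lmapDomain ℚ ℚ Subtype.val) (Finsupp.lsubtypeDomain (B : Set α)) ?_ ?_
      (Finsupp.mapDomain_injective Subtype.val_injective) ?_ ?_ m).1 h1 h2
    · intro g v
      induction v using Finsupp.induction_linear with
      | zero => simp
      | add u v hu hv => simp only [map_add, hu, hv]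
      | single x c => simp
    · intro g v
      ext x
      have e : ∀ (β : Type) [MulAction G β] (w : β →₀ ℚ) (y : β), perm G β g w y = w (g⁻¹ • y) := by
        intro β _ w y
        conv_lhs => rw [← smul_inv_smul g y]
        exact Finsupp.mapDomain_apply (MulAction.injective g) w _
      rw [e]
      exact e α v x
    · intro w
      refine ⟨Finsupp.mapDomain Subtype.val w, ?_⟩
      ext x
      exact Finsupp.mapDomain_apply Subtype.val_injective w x
    · intro v
      constructor
      · intro hv
        refine ⟨Finsupp.subtypeDomain (· ∈ MulAction.orbit G a) v, ?_⟩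
        ext x
        by_cases hx : x ∈ MulAction.orbit G a
        · exact Finsupp.mapDomain_apply Subtype.val_injective _ (⟨x, hx⟩ : MulAction.orbit G a)
        · rw [Finsupp.lmapDomain_apply, Finsupp.mapDomain_of_notMem_range _ _ (by simpa using hx)]
          exact (DFunLike.congr_fun hv ⟨x, hx⟩).symm
      · rintro ⟨w, rfl⟩
        ext x
        exact Finsupp.mapDomain_of_notMem_range _ _ (by simpa using (hB _).1 x.2)

section Tensor

variable {G V : Type} [Group G] [AddCommGroup V] [Module ℚ V] (ρ : Representation ℚ G V)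

/-- Twisting finitely supported functions by group elements. -/
noncomputable def twist {Y : Type} (c : Y → G) : (Y →₀ V) →+ (Y →₀ V) :=
  Finsupp.liftAddHom fun y => (singleAddHom y).comp (ρ (c y)).toAddMonoidHom

@[simp] theorem twist_single {Y : Type} (c : Y → G) (y : Y) (v : V) :
    twist ρ c (single y v) = single y (ρ (c y) v) := by simp [twist]

theorem twist_twist {Y : Type} (c c' : Y → G) (h : ∀ y, c y * c' y = 1) (u : Y →₀ V) :
    twist ρ c (twist ρ c' u) = u := by
  induction u using Finsupp.induction_linear with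
  | zero => simp
  | add u v hu hv => simp only [map_add, hu, hv]
  | single y v => rw [twist_single, twist_single, ← Module.End.mul_apply, ← map_mul, h]; simp

theorem twist_bij {Y : Type} (c : Y → G) : Function.Bijective (twist ρ c) :=
  ⟨Function.LeftInverse.injective (twist_twist ρ (fun y => (c y)⁻¹) c fun _ => inv_mul_cancel _),
    Function.RightInverse.surjective (twist_twist ρ c (fun y => (c y)⁻¹) fun _ => mul_inv_cancel _)⟩

/-- The tensor product with a module over the group algebra, with the diagonal action. -/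
noncomputable def tw (M : Type) [AddCommGroup M] [Module ℚ M] [Module (MonoidAlgebra ℚ G) M]
    [IsScalarTower ℚ (MonoidAlgebra ℚ G) M] : Representation ℚ G (V ⊗[ℚ] M) :=
  ρ.tprod (Representation.ofModule' (k := ℚ) (G := G) M)

theorem tw_tmul {M : Type} [AddCommGroup M] [Module ℚ M] [Module (MonoidAlgebra ℚ G) M]
    [IsScalarTower ℚ (MonoidAlgebra ℚ G) M] (g : G) (v : V) (x : M) :
    tw ρ M g (v ⊗ₜ x) = ρ g v ⊗ₜ (MonoidAlgebra.single g (1 : ℚ) • x) := by
  simp [tw, Representation.ofModule']

theorem tw_comm {M N : Type} [AddCommGroup M] [Module ℚ M] [Module (MonoidAlgebra ℚ G) M]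
    [IsScalarTower ℚ (MonoidAlgebra ℚ G) M] [AddCommGroup N] [Module ℚ N]
    [Module (MonoidAlgebra ℚ G) N] [IsScalarTower ℚ (MonoidAlgebra ℚ G) N]
    (f : M →ₗ[MonoidAlgebra ℚ G] N) (g : G) (z : V ⊗[ℚ] M) :
    (f.restrictScalars ℚ).lTensor V (tw ρ M g z) = tw ρ N g ((f.restrictScalars ℚ).lTensor V z) := by
  induction z using TensorProduct.induction_on with
  | zero => simp
  | add u v hu hv => simp only [map_add, hu, hv]
  | tmul v x => simp [tw_tmul]

theorem tw_free [FiniteDimensional ℚ V] (a m : ℕ) :
    FPr (tw ρ (Fin a → MonoidAlgebra ℚ G)) m := by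
  classical
  let τ := tw ρ (Fin a → MonoidAlgebra ℚ G)
  let i0 : (Fin a →₀ V) →ₗ[ℚ] V ⊗[ℚ] (Fin a → MonoidAlgebra ℚ G) :=
    Finsupp.lsum ℚ fun j => (TensorProduct.mk ℚ V _).flip (Pi.single j 1)
  let i : (Fin a →₀ V) →+ τ.asModule := (τ.asModuleEquiv.symm.toLinearMap ∘ₗ i0).toAddMonoidHom
  have hi : ∀ x, τ.asModuleEquiv (i x) = i0 x := fun x => rfl
  have hs : Function.Bijective (Phi (fun g : G => MonoidAlgebra.single g (1 : ℚ))
      (algebraMap ℚ (MonoidAlgebra ℚ G)).toAddMonoidHom) := by
    have : Phi (fun g : G => MonoidAlgebra.single g (1 : ℚ))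
        (algebraMap ℚ (MonoidAlgebra ℚ G)).toAddMonoidHom =
        (MonoidAlgebra.coeffAddEquiv (R := ℚ) (M := G)).symm.toAddMonoidHom := by
      refine Finsupp.addHom_ext fun x y => ?_
      simp [MonoidAlgebra.single_mul_single]
    rw [this]
    exact AddEquiv.bijective _
  refine base (algebraMap ℚ (MonoidAlgebra ℚ G)) _ hs m (Fin a →₀ V) _ i (fun r x => ?_) ?_
    (fp_noeth ℚ m _ inferInstance)
  · rw [algebraMap_smul]
    exact map_smul (τ.asModuleEquiv.symm.toLinearMap ∘ₗ i0) r x
  · let b := Pi.basis fun _ : Fin a => MonoidAlgebra.basis G ℚ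
    let E1 : (G →₀ Fin a →₀ V) ≃+ ((Σ _ : Fin a, G) →₀ V) :=
      Finsupp.curryAddEquiv.symm.trans
        (Finsupp.domCongr ((Equiv.prodComm _ _).trans (Equiv.sigmaEquivProd _ _).symm))
    let E2 : ((Σ _ : Fin a, G) →₀ V) ≃+ τ.asModule :=
      ((TensorProduct.equivFinsuppOfBasisRight b).symm.trans τ.asModuleEquiv.symm).toAddEquiv
    have : Phi (fun g : G => MonoidAlgebra.single g (1 : ℚ)) i =
        E2.toAddMonoidHom.comp ((twist ρ fun p => p.2).comp E1.toAddMonoidHom) := by
      refine Finsupp.addHom_ext fun g y => ?_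
      induction y using Finsupp.induction_linear with
      | zero => simp
      | add u v hu hv => simp only [single_add, map_add, hu, hv]
      | single j v =>
        apply τ.asModuleEquiv.injective
        rw [Phi_single, eqv_single_smul, hi, one_smul]
        have e1 : E1 (single g (single j v)) = single ⟨j, g⟩ v := by simp [E1]
        have e2 : ∀ p w, τ.asModuleEquiv (E2 (single p w)) = w ⊗ₜ b p := by
          intro p w
          simp [E2]
        have e3 : i0 (single j v) = v ⊗ₜ Pi.single j 1 := by simp [i0]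
        change _ = τ.asModuleEquiv (E2 (twist ρ _ (E1 (single g (single j v)))))
        rw [e1, twist_single, e2, e3, tw_tmul]
        congr 1
        ext k : 1
        by_cases hk : k = j
        · subst hk; simp [b]
        · simp [b, hk]
    rw [this]
    exact E2.bijective.comp ((twist_bij ρ _).comp E1.bijective)

theorem tw_fp (h23 : S_FP23) [FiniteDimensional ℚ V] (m : ℕ) : ∀ (M : Type) [AddCommGroup M]
    [Module ℚ M] [Module (MonoidAlgebra ℚ G) M] [IsScalarTower ℚ (MonoidAlgebra ℚ G) M],
    FP (MonoidAlgebra ℚ G) m M → FPr (tw ρ M) m := by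
  induction m with
  | zero =>
    intro M _ _ _ _ h
    have : Module.Finite (MonoidAlgebra ℚ G) M := h
    obtain ⟨a, f, hf⟩ := Module.Finite.exists_fin' (MonoidAlgebra ℚ G) M
    have : Module.Finite (MonoidAlgebra ℚ G) (tw ρ (Fin a → MonoidAlgebra ℚ G)).asModule :=
      tw_free ρ a 0
    exact Module.Finite.of_surjective (mkLin _ _ _ (tw_comm ρ f))
      (LinearMap.lTensor_surjective V (g := f.restrictScalars ℚ) hf)
  | succ m ih =>
    intro M _ _ _ _ h
    obtain ⟨a, f, hf, hk⟩ := h
    exact (fpr_ses h23 _ _ _ _ _ (tw_comm ρ (LinearMap.ker f).subtype) (tw_comm ρ f)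
      (Module.Flat.lTensor_preserves_injective_linearMap _ (Submodule.injective_subtype _))
      (LinearMap.lTensor_surjective V (g := f.restrictScalars ℚ) hf)
      (lTensor_exact V (f := (LinearMap.ker f).subtype.restrictScalars ℚ)
        (g := f.restrictScalars ℚ) (LinearMap.exact_subtype_ker_map f) hf) m).2 (ih _ hk)
      (tw_free ρ a (m + 1))

theorem fd_fp (h23 : S_FP23) [FiniteDimensional ℚ V] (m : ℕ) (h : FPg G m) : FPr ρ m := by
  let t := Representation.trivial ℚ G ℚ
  let e : V ⊗[ℚ] t.asModule ≃ₗ[ℚ] V :=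
    (LinearEquiv.lTensor V t.asModuleEquiv).trans (TensorProduct.rid ℚ V)
  refine fpr_equiv h23 (tw ρ t.asModule) ρ e.toLinearMap (fun g z => ?_) e.bijective m
    (tw_fp ρ h23 m _ h)
  induction z using TensorProduct.induction_on with
  | zero => simp
  | add u v hu hv => simp only [map_add, hu, hv]
  | tmul v x =>
    have he : ∀ v x, e.toLinearMap (v ⊗ₜ x) = t.asModuleEquiv x • v := fun v x => by simp [e]
    rw [tw_tmul, he, he, eqv_single_smul]
    simp [t]

end Tensor

theorem fin_fp (G : Type) [Group G] [Finite G] (m : ℕ) : FPg G m := by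
  have : IsNoetherianRing (MonoidAlgebra ℚ G) :=
    isNoetherian_of_tower ℚ (inferInstance : IsNoetherian ℚ (MonoidAlgebra ℚ G))
  exact fp_noeth _ m _ (Module.Finite.of_restrictScalars_finite ℚ _ _)

theorem comm_fp (G : Type) [CommGroup G] (m : ℕ) (h : Group.FG G) : FPg G m := by
  have : Monoid.FG G := Group.fg_iff_monoid_fg.1 h
  have : IsNoetherianRing (MonoidAlgebra ℚ G) := Algebra.FiniteType.isNoetherianRing ℚ _
  exact fp_noeth _ m _ (Module.Finite.of_restrictScalars_finite ℚ _ _)

theorem ext_fp (h23 : S_FP23) (G Q : Type) [Group G] [Group Q] (f : G →* Q) (m : ℕ)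
    (hf : Function.Surjective f) (hK : FPg f.ker m) (hQ : FPg Q m) : FPg G m := by
  letI : MulAction G Q := MulAction.compHom Q f
  have hsm : ∀ (g : G) (q : Q), g • q = f g * q := fun _ _ => rfl
  have hP : FPr (perm G Q) m := by
    refine perm_trans (1 : Q) (fun y => ?_) f.ker (fun g => ?_) m hK
    · obtain ⟨g, hg⟩ := hf y
      exact ⟨g, by rw [hsm, mul_one, hg]⟩
    · rw [hsm, mul_one, MonoidHom.mem_ker]
  let e0 : MonoidAlgebra ℚ Q ≃+ (perm G Q).asModule :=
    MonoidAlgebra.coeffAddEquiv.trans (perm G Q).asModuleEquiv.symm.toAddEquiv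
  have he0 : ∀ q c, (perm G Q).asModuleEquiv (e0 (MonoidAlgebra.single q c)) = single q c :=
    fun _ _ => rfl
  have hφ : ∀ g c, MonoidAlgebra.mapDomainRingHom ℚ f (MonoidAlgebra.single g c) =
      MonoidAlgebra.single (f g) c := fun g c => by simp
  let e : (Representation.trivial ℚ Q ℚ).asModule ≃+ (Representation.trivial ℚ G ℚ).asModule :=
    ((Representation.trivial ℚ Q ℚ).asModuleEquiv.trans
      (Representation.trivial ℚ G ℚ).asModuleEquiv.symm).toAddEquiv
  have he : ∀ x, (Representation.trivial ℚ G ℚ).asModuleEquiv (e x) =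
      (Representation.trivial ℚ Q ℚ).asModuleEquiv x := fun _ => rfl
  refine restrict h23 (MonoidAlgebra.mapDomainRingHom ℚ f) e0 (fun s r => ?_) m hP _ _ e
    (fun s x => ?_) hQ
  · apply (perm G Q).asModuleEquiv.injective
    induction s using MonoidAlgebra.induction_linear with
    | zero => simp
    | add u v hu hv => simp only [add_mul, add_smul, map_add, hu, hv]
    | single g c =>
      induction r using MonoidAlgebra.induction_linear with
      | zero => simp
      | add u v hu hv => simp only [mul_add, smul_add, map_add, hu, hv]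
      | single q d =>
        rw [hφ, MonoidAlgebra.single_mul_single, he0, eqv_single_smul, he0, perm_single, hsm]
        simp
  · apply (Representation.trivial ℚ G ℚ).asModuleEquiv.injective
    induction s using MonoidAlgebra.induction_linear with
    | zero => simp
    | add u v hu hv => simp only [add_smul, map_add, hu, hv]
    | single g c =>
      rw [hφ, he, eqv_single_smul, eqv_single_smul, he]
      simp

end JFP2

/-- Permutation modules, finite-dimensional modules, and closure properties of `FP` groups. -/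
theorem p_FPg (h : S_FP23) : S_FPg := by
  refine ⟨fun G α _ _ m ⟨s, hs⟩ hst => JFP2.perm_fin h m s.card α s le_rfl hs hst,
    fun G V _ _ _ _ ρ m hG => JFP2.fd_fp ρ h m hG, fun G Q _ _ f m => JFP2.ext_fp h G Q f m,
    fun G G' _ _ m e hG => ?_, fun G _ _ m => JFP2.fin_fp G m, fun G _ m hfg hc => ?_⟩
  · have hk : (e.symm : G' →* G).ker = ⊥ := (MonoidHom.ker_eq_bot_iff _).2 e.symm.injective
    refine JFP2.ext_fp h G' G (e.symm : G' →* G) m e.symm.surjective ?_ hG
    rw [hk]
    exact JFP2.fin_fp _ m
  · letI : CommGroup G := { (inferInstance : Group G) with mul_comm := hc }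
    exact JFP2.comm_fp G m hfg

end Pool.Agent.Lib.MP_49df17_al
end
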