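import Pool.Agent.Lib.MP_49df17_al.FBase

/-!
Set-theoretic facts on nested sets, crossing edges, classes, systems and configurations.
-/

set_option linter.unusedSectionVars false

namespace Pool.Agent.Lib.MP_49df17_al

open Matrix
open scoped Pointwise

variable {ι κ : Type}

/-! Nested pairs -/

theorem Nest.symm {P Q : Set (Fr ι)} (h : Nest P Q) : Nest Q P := by
  rcases h with h | h | h | h
  · exact Or.inl h.symm
  · exact Or.inr (Or.inr (Or.inl h))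
  · exact Or.inr (Or.inl h)
  · exact Or.inr (Or.inr (Or.inr (by rw [Set.union_comm]; exact h)))
theorem Nest.refl (P : Set (Fr ι)) : Nest P P := Or.inr (Or.inl subset_rfl)
theorem nest_iff_corner {P Q : Set (Fr ι)} :
    Nest P Q ↔ P ∩ Q = ∅ ∨ P ∩ Qᶜ = ∅ ∨ Pᶜ ∩ Q = ∅ ∨ Pᶜ ∩ Qᶜ = ∅ := by
  unfold Nest
  refine or_congr Set.disjoint_iff_inter_eq_empty (or_congr ?_ (or_congr ?_ ?_))
  · rw [← Set.sdiff_eq, Set.sdiff_eq_empty]
  · rw [Set.inter_comm, ← Set.sdiff_eq, Set.sdiff_eq_empty]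
  · rw [← Set.compl_union, Set.compl_empty_iff]
theorem Nest.compl_left {P Q : Set (Fr ι)} (h : Nest P Q) : Nest Pᶜ Q := by
  rw [nest_iff_corner] at h ⊢
  simp only [compl_compl]
  tauto
theorem Nest.compl_right {P Q : Set (Fr ι)} (h : Nest P Q) : Nest P Qᶜ := h.symm.compl_left.symm
theorem not_nest_iff {P Q : Set (Fr ι)} : ¬ Nest P Q ↔
    (P ∩ Q).Nonempty ∧ (P ∩ Qᶜ).Nonempty ∧ (Pᶜ ∩ Q).Nonempty ∧ (Pᶜ ∩ Qᶜ).Nonempty := by
  rw [nest_iff_corner]
  simp only [not_or, Set.nonempty_iff_ne_empty]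
theorem nest_smul_gen {G : Type} [Group G] [MulAction G (Fr ι)] (g : G) {P Q : Set (Fr ι)} :
    Nest (g • P) (g • Q) ↔ Nest P Q := by
  simp only [nest_iff_corner, ← Set.smul_set_compl, ← Set.smul_set_inter, Set.smul_set_eq_empty]
theorem nest_smul (g : Fr ι) {P Q : Set (Fr ι)} : Nest (g • P) (g • Q) ↔ Nest P Q :=
  nest_smul_gen g
theorem nest_aut (γ : Au ι) {P Q : Set (Fr ι)} : Nest (γ • P) (γ • Q) ↔ Nest P Q :=
  nest_smul_gen γ
/-- A set nested with two crossing sets is nested with their corner. -/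
theorem Nest.corner {P E Q : Set (Fr ι)} (h1 : Nest Q P) (h2 : Nest Q E) (h : ¬ Nest P E) :
    Nest Q (P ∩ E) := by
  rcases h1 with h1 | h1 | h1 | h1
  · exact Or.inl (h1.mono_right Set.inter_subset_left)
  · rcases h2 with h2 | h2 | h2 | h2
    · exact Or.inl (h2.mono_right Set.inter_subset_right)
    · exact Or.inr (Or.inl (Set.subset_inter h1 h2))
    · exact Or.inr (Or.inr (Or.inl (Set.inter_subset_right.trans h2)))
    · refine absurd (Or.inr (Or.inr (Or.inr ?_))) h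
      exact Set.eq_univ_of_univ_subset (h2 ▸ Set.union_subset_union_left _ h1)
  · exact Or.inr (Or.inr (Or.inl (Set.inter_subset_left.trans h1)))
  · rcases h2 with h2 | h2 | h2 | h2
    · exact Or.inl (h2.mono_right Set.inter_subset_right)
    · refine absurd (Or.inr (Or.inr (Or.inr ?_))) h
      rw [Set.union_comm]
      exact Set.eq_univ_of_univ_subset (h1 ▸ Set.union_subset_union_left _ h2)
    · exact Or.inr (Or.inr (Or.inl (Set.inter_subset_right.trans h2)))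
    · refine Or.inr (Or.inr (Or.inr ?_))
      rw [Set.union_inter_distrib_left, h1, h2, Set.inter_self]
/-- Two nested sets that miss a common point are disjoint or comparable. -/
theorem Nest.of_notMem {P Q : Set (Fr ι)} (h : Nest P Q) {a : Fr ι} (h1 : a ∉ P) (h2 : a ∉ Q) :
    Disjoint P Q ∨ P ⊆ Q ∨ Q ⊆ P := by
  rcases h with h | h | h | h
  · exact Or.inl h
  · exact Or.inr (Or.inl h)
  · exact Or.inr (Or.inr h)
  · have : a ∈ P ∪ Q := h ▸ Set.mem_univ a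
    exact (this.elim h1 h2).elim

/-! Actions -/

theorem mem_smul_fr {g h : Fr ι} {P : Set (Fr ι)} : h ∈ g • P ↔ g⁻¹ * h ∈ P :=
  Set.mem_smul_set_iff_inv_smul_mem
theorem mem_smul_au {γ : Au ι} {h : Fr ι} {P : Set (Fr ι)} : h ∈ γ • P ↔ γ⁻¹ h ∈ P :=
  Set.mem_smul_set_iff_inv_smul_mem
theorem smul_compl_fr (g : Fr ι) (P : Set (Fr ι)) : g • Pᶜ = (g • P)ᶜ := Set.smul_set_compl
theorem smul_compl_au (γ : Au ι) (P : Set (Fr ι)) : γ • Pᶜ = (γ • P)ᶜ := Set.smul_set_compl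
theorem au_inv_apply (γ : Au ι) (g : Fr ι) : γ⁻¹ (γ g) = g := MulAut.inv_apply_self _ γ g
theorem au_apply_inv (γ : Au ι) (g : Fr ι) : γ (γ⁻¹ g) = g := MulAut.apply_inv_self _ γ g
theorem au_smul_smul (γ : Au ι) (g : Fr ι) (P : Set (Fr ι)) : γ • g • P = γ g • γ • P := by
  ext h
  rw [mem_smul_au, mem_smul_fr, mem_smul_fr, mem_smul_au, map_mul, map_inv, au_inv_apply]
theorem one_mem_au_smul {γ : Au ι} {P : Set (Fr ι)} : 1 ∈ γ • P ↔ 1 ∈ P := by
  rw [mem_smul_au, map_one]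
theorem Tr.refl (X : Set (Fr ι)) : Tr X X := ⟨1, (one_smul _ _).symm⟩
theorem Tr.symm {X Y : Set (Fr ι)} (h : Tr X Y) : Tr Y X := by
  obtain ⟨g, rfl⟩ := h
  exact ⟨g⁻¹, (inv_smul_smul _ _).symm⟩
theorem Tr.trans {X Y Z : Set (Fr ι)} (h : Tr X Y) (h' : Tr Y Z) : Tr X Z := by
  obtain ⟨g, rfl⟩ := h
  obtain ⟨g', rfl⟩ := h'
  exact ⟨g * g', (mul_smul _ _ _).symm⟩
theorem Tr.aut (γ : Au ι) {X Y : Set (Fr ι)} (h : Tr X Y) : Tr (γ • X) (γ • Y) := by
  obtain ⟨g, rfl⟩ := h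
  exact ⟨γ g, au_smul_smul γ g Y⟩
theorem tr_aut (γ : Au ι) {X Y : Set (Fr ι)} : Tr (γ • X) (γ • Y) ↔ Tr X Y :=
  ⟨fun h => by simpa only [inv_smul_smul] using h.aut γ⁻¹, fun h => h.aut γ⟩

/-! Orbits -/

theorem mem_orb_self (P : Set (Fr ι)) : P ∈ orb P := ⟨1, Or.inl (one_smul _ _).symm⟩
theorem smul_mem_orb {P Q : Set (Fr ι)} (g : Fr ι) (h : Q ∈ orb P) : g • Q ∈ orb P := by
  obtain ⟨k, rfl | rfl⟩ := h
  · exact ⟨g * k, Or.inl (mul_smul _ _ _).symm⟩
  · exact ⟨g * k, Or.inr (mul_smul _ _ _).symm⟩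
theorem compl_mem_orb {P Q : Set (Fr ι)} (h : Q ∈ orb P) : Qᶜ ∈ orb P := by
  obtain ⟨k, rfl | rfl⟩ := h
  · exact ⟨k, Or.inr (smul_compl_fr _ _).symm⟩
  · exact ⟨k, Or.inl (by rw [smul_compl_fr, compl_compl])⟩
theorem orb_subset_of_mem {P Q : Set (Fr ι)} (h : Q ∈ orb P) : orb Q ⊆ orb P := by
  rintro X ⟨k, rfl | rfl⟩
  · exact smul_mem_orb k h
  · exact smul_mem_orb k (compl_mem_orb h)
theorem mem_orb_symm {P Q : Set (Fr ι)} (h : Q ∈ orb P) : P ∈ orb Q := by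
  obtain ⟨k, rfl | rfl⟩ := h
  · exact ⟨k⁻¹, Or.inl (inv_smul_smul _ _).symm⟩
  · exact ⟨k⁻¹, Or.inr (by rw [← smul_compl_fr, compl_compl, inv_smul_smul])⟩
theorem orb_eq_of_mem {P Q : Set (Fr ι)} (h : Q ∈ orb P) : orb Q = orb P :=
  (orb_subset_of_mem h).antisymm (orb_subset_of_mem (mem_orb_symm h))
theorem mem_orb_iff_tr {P Q : Set (Fr ι)} : Q ∈ orb P ↔ Tr Q P ∨ Tr Q Pᶜ := exists_or
theorem au_mem_orb (γ : Au ι) {P Q : Set (Fr ι)} (h : Q ∈ orb P) : γ • Q ∈ orb (γ • P) := by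
  obtain ⟨k, rfl | rfl⟩ := h
  · exact ⟨γ k, Or.inl (au_smul_smul _ _ _)⟩
  · exact ⟨γ k, Or.inr (by rw [au_smul_smul, smul_compl_au])⟩
theorem au_smul_orb (γ : Au ι) (P : Set (Fr ι)) : γ • orb P = orb (γ • P) := by
  ext Q
  constructor
  · rintro ⟨Q, hQ, rfl⟩
    exact au_mem_orb γ hQ
  · intro h
    refine ⟨γ⁻¹ • Q, ?_, smul_inv_smul _ _⟩
    simpa only [inv_smul_smul] using au_mem_orb γ⁻¹ h
theorem mem_sides {ρ : Set (Orb ι)} {X : Set (Fr ι)} : X ∈ sides ρ ↔ ∃ o ∈ ρ, X ∈ o :=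
  Set.mem_sUnion
theorem au_smul_sides (γ : Au ι) (ρ : Set (Orb ι)) : γ • sides ρ = sides (γ • ρ) := by
  ext X
  constructor
  · rintro ⟨X, ⟨o, ho, hX⟩, rfl⟩
    exact ⟨γ • o, Set.smul_mem_smul_set ho, Set.smul_mem_smul_set hX⟩
  · rintro ⟨_, ⟨o, ho, rfl⟩, ⟨X, hX, rfl⟩⟩
    exact ⟨X, ⟨o, ho, hX⟩, rfl⟩
theorem au_smul_yo (γ : Au ι) (y : Fr ι) (t : Set (Fr ι)) :
    γ • yo y t = yo (γ y) (γ • t) := by
  ext Q
  constructor
  · rintro ⟨_, ⟨i, rfl⟩, rfl⟩
    exact ⟨i, by rw [← map_zpow]; exact au_smul_smul _ _ _⟩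
  · rintro ⟨i, rfl⟩
    exact ⟨y ^ i • t, ⟨i, rfl⟩, by rw [← map_zpow]; exact au_smul_smul _ _ _⟩
theorem sides_union (ρ S : Set (Orb ι)) : sides (ρ ∪ S) = sides ρ ∪ sides S :=
  Set.sUnion_union _ _
theorem sides_singleton (o : Orb ι) : sides {o} = o := Set.sUnion_singleton _
theorem sides_insert (o : Orb ι) (S : Set (Orb ι)) : sides (insert o S) = o ∪ sides S :=
  Set.sUnion_insert _ _
theorem sides_mono {ρ ρ' : Set (Orb ι)} (h : ρ ⊆ ρ') : sides ρ ⊆ sides ρ' :=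
  Set.sUnion_subset_sUnion h
theorem sides_empty : sides (∅ : Set (Orb ι)) = ∅ := Set.sUnion_empty
/-- It is enough to check nestedness of one side against all sides of the other orbit. -/
theorem nest_orb {P Q : Set (Fr ι)} (h : ∀ X ∈ orb P, Nest X Q) :
    ∀ X ∈ orb P, ∀ Y ∈ orb Q, Nest X Y := by
  rintro X hX Y ⟨k, rfl | rfl⟩
  · have := (nest_smul k).2 (h _ (smul_mem_orb k⁻¹ hX))
    rwa [smul_inv_smul] at this
  · have := (nest_smul k).2 (h _ (smul_mem_orb k⁻¹ hX)).compl_right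
    rwa [smul_inv_smul] at this

/-! Crossing edges -/

theorem mem_sep {P : Set (Fr ι)} {x h : Fr ι} : h ∈ sep P x ↔ ¬ (h ∈ P ↔ h * x ∈ P) := Iff.rfl
theorem sep_compl (P : Set (Fr ι)) (x : Fr ι) : sep Pᶜ x = sep P x := by
  ext h
  simp only [mem_sep, Set.mem_compl_iff, not_iff_not]
theorem sep_smul (g : Fr ι) (P : Set (Fr ι)) (x : Fr ι) : sep (g • P) x = g • sep P x := by
  ext h
  simp only [mem_sep, mem_smul_fr, mul_assoc]
theorem sep_aut (γ : Au ι) (P : Set (Fr ι)) (x : Fr ι) :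
    sep (γ • P) (γ x) = γ • sep P x := by
  ext h
  simp only [mem_sep, mem_smul_au, map_mul, au_inv_apply]
theorem sep_one (P : Set (Fr ι)) : sep P 1 = ∅ := by
  ext h
  simp [mem_sep]
theorem mem_sep_mul {P : Set (Fr ι)} {a b h : Fr ι} :
    h ∈ sep P (a * b) ↔ ¬ (h ∈ sep P a ↔ h * a ∈ sep P b) := by
  simp only [mem_sep, mul_assoc]
  tauto
theorem mem_sep_inv {P : Set (Fr ι)} {a h : Fr ι} : h ∈ sep P a⁻¹ ↔ h * a⁻¹ ∈ sep P a := by
  simp only [mem_sep, inv_mul_cancel_right]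
  tauto
theorem sep_inter_subset (P Q : Set (Fr ι)) (x : Fr ι) :
    sep (P ∩ Q) x ⊆ sep P x ∪ sep Q x := by
  intro h
  simp only [mem_sep, Set.mem_union, Set.mem_inter_iff]
  tauto
theorem sep_mul_left {P : Set (Fr ι)} {a : Fr ι} (ha : sep P a = ∅) {b h : Fr ι} :
    h ∈ sep P (a * b) ↔ h * a ∈ sep P b := by
  rw [mem_sep_mul, ha]
  simp
theorem sep_mul_right {P : Set (Fr ι)} {b : Fr ι} (hb : sep P b = ∅) (a : Fr ι) :
    sep P (a * b) = sep P a := by
  ext h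
  rw [mem_sep_mul, hb]
  simp
theorem sep_empty (x : Fr ι) : sep (∅ : Set (Fr ι)) x = ∅ := by
  ext h
  simp [mem_sep]
theorem sep_univ (x : Fr ι) : sep (Set.univ : Set (Fr ι)) x = ∅ := by
  ext h
  simp [mem_sep]
theorem mem_Dg_orb {P : Set (Fr ι)} {g : Fr ι} : g ∈ Dg (orb P) ↔ sep P g = ∅ := by
  rw [mem_Dg_sep]
  refine ⟨fun h => h P (mem_orb_self P), fun h => ?_⟩
  rintro Q ⟨k, rfl | rfl⟩
  · rw [sep_smul, h, Set.smul_set_empty]
  · rw [sep_smul, sep_compl, h, Set.smul_set_empty]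
theorem Dg_anti {𝓢 𝓢' : Orb ι} (h : 𝓢 ⊆ 𝓢') : Dg 𝓢' ≤ Dg 𝓢 :=
  fun _ hg P hP => hg P (h hP)
theorem Dg_union (𝓢 𝓢' : Orb ι) : Dg (𝓢 ∪ 𝓢') = Dg 𝓢 ⊓ Dg 𝓢' := by
  ext g
  simp only [Subgroup.mem_inf, mem_Dg, Set.mem_union, or_imp, forall_and]
theorem Dg_empty : Dg (∅ : Orb ι) = ⊤ := by
  ext g
  simp [mem_Dg]
theorem au_mem_Dg {γ : Au ι} {𝓢 : Orb ι} {g : Fr ι} : γ g ∈ Dg (γ • 𝓢) ↔ g ∈ Dg 𝓢 := by
  rw [mem_Dg_sep, mem_Dg_sep]
  constructor
  · intro h P hP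
    have := h _ (Set.smul_mem_smul_set hP)
    rwa [sep_aut, Set.smul_set_eq_empty] at this
  · rintro h _ ⟨P, hP, rfl⟩
    change sep (γ • P) (γ g) = ∅
    rw [sep_aut, h P hP, Set.smul_set_empty]
/-- Two sets with the same crossing edges for the letters of a basis agree up to the point `1`. -/
theorem eq_of_sep (β : Fr κ ≃* Fr ι) {P Q : Set (Fr ι)} (h1 : 1 ∈ P ↔ 1 ∈ Q)
    (h : ∀ s, sep P (letter β s) = sep Q (letter β s)) : P = Q := by
  have key : ∀ g : Fr κ, ∀ x, x ∈ sep P (β g) ↔ x ∈ sep Q (β g) := by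
    intro g
    induction g using FreeGroup.induction_on with
    | C1 => intro x; rw [map_one, sep_one, sep_one]
    | of s => intro x; exact Set.ext_iff.1 (h s) x
    | inv_of s ih => intro x; rw [map_inv, mem_sep_inv, mem_sep_inv, ih]
    | mul a b iha ihb => intro x; rw [map_mul, mem_sep_mul, mem_sep_mul, iha, ihb]
  ext x
  have := key (β.symm x) 1
  rw [MulEquiv.apply_symm_apply, mem_sep, mem_sep, one_mul] at this
  tauto

/-! Almost invariant sets -/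

theorem finite_sep_mul {P : Set (Fr ι)} {a b : Fr ι} (ha : (sep P a).Finite)
    (hb : (sep P b).Finite) : (sep P (a * b)).Finite := by
  refine (ha.union (hb.preimage (f := fun h => h * a) (mul_left_injective a).injOn)).subset ?_
  intro h hh
  rw [mem_sep_mul] at hh
  simp only [Set.mem_union, Set.mem_preimage]
  tauto
theorem finite_sep_inv {P : Set (Fr ι)} {a : Fr ι} (ha : (sep P a).Finite) :
    (sep P a⁻¹).Finite :=
  (ha.preimage (f := fun h => h * a⁻¹) (mul_left_injective a⁻¹).injOn).subset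
    fun _ hh => mem_sep_inv.1 hh
theorem AI.of_letters (β : Fr κ ≃* Fr ι) {P : Set (Fr ι)}
    (h : ∀ s, (sep P (letter β s)).Finite) : AI P := by
  have key : ∀ g : Fr κ, (sep P (β g)).Finite := by
    intro g
    induction g using FreeGroup.induction_on with
    | C1 => rw [map_one, sep_one]; exact Set.finite_empty
    | of s => exact h s
    | inv_of s ih => rw [map_inv]; exact finite_sep_inv ih
    | mul a b iha ihb => rw [map_mul]; exact finite_sep_mul iha ihb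
  intro g
  have := key (β.symm g)
  rwa [MulEquiv.apply_symm_apply] at this
theorem AI.compl {P : Set (Fr ι)} (h : AI P) : AI Pᶜ := fun g => by
  rw [sep_compl]; exact h g
theorem AI.smul {P : Set (Fr ι)} (h : AI P) (g : Fr ι) : AI (g • P) := fun x => by
  rw [sep_smul]; exact (h x).smul_set
theorem AI.aut {P : Set (Fr ι)} (h : AI P) (γ : Au ι) : AI (γ • P) := fun x => by
  rw [← au_apply_inv γ x, sep_aut]; exact (h _).smul_set
theorem AI.inter {P Q : Set (Fr ι)} (h : AI P) (h' : AI Q) : AI (P ∩ Q) := fun x =>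
  ((h x).union (h' x)).subset (sep_inter_subset P Q x)
theorem AI.union {P Q : Set (Fr ι)} (h : AI P) (h' : AI Q) : AI (P ∪ Q) := by
  have := (h.compl.inter h'.compl).compl
  rwa [← Set.compl_union, compl_compl] at this
theorem AI.of_mem_orb {P Q : Set (Fr ι)} (h : AI P) (hQ : Q ∈ orb P) : AI Q := by
  obtain ⟨k, rfl | rfl⟩ := hQ
  · exact h.smul k
  · exact h.compl.smul k
/-- Only finitely many members of an orbit separate two points. -/
theorem AI.finite_sep {P : Set (Fr ι)} (h : AI P) (a b : Fr ι) :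
    {Q ∈ orb P | ¬ (a ∈ Q ↔ b ∈ Q)}.Finite := by
  refine (((h (a⁻¹ * b)).image fun x => (a * x⁻¹) • P).union
    ((h (a⁻¹ * b)).image fun x => (a * x⁻¹) • Pᶜ)).subset ?_
  rintro Q ⟨⟨k, rfl | rfl⟩, hQ⟩
  · refine Or.inl ⟨k⁻¹ * a, ?_, by simp⟩
    rw [mem_smul_fr, mem_smul_fr] at hQ
    rw [mem_sep, mul_assoc, mul_inv_cancel_left]
    exact hQ
  · refine Or.inr ⟨k⁻¹ * a, ?_, by simp⟩
    rw [mem_smul_fr, mem_smul_fr] at hQ
    rw [← sep_compl, mem_sep, mul_assoc, mul_inv_cancel_left]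
    exact hQ
theorem fr_eq_one_of_pow {g : Fr ι} {n : ℕ} (hn : n ≠ 0) (h : g ^ n = 1) : g = 1 := by
  classical
  exact (pow_eq_one_iff_left hn).1 h
theorem fr_eq_one_of_finite {S : Set (Fr ι)} (hS : S.Finite) (hne : S.Nonempty) {g : Fr ι}
    (e : g • S = S) : g = 1 := by
  obtain ⟨x, hx⟩ := hne
  have hm : ∀ n : ℕ, g ^ n * x ∈ S := by
    intro n
    induction n with
    | zero => simpa using hx
    | succ n ih =>
      rw [pow_succ', mul_assoc, ← e]
      exact Set.smul_mem_smul_set ih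
  obtain ⟨m, n, hmn, he⟩ := Set.Finite.exists_lt_map_eq_of_forall_mem hm hS
  have h1 : g ^ m = g ^ n := mul_right_cancel he
  obtain ⟨k, rfl⟩ := Nat.exists_eq_add_of_lt hmn
  rw [add_assoc, pow_add] at h1
  exact fr_eq_one_of_pow (Nat.succ_ne_zero k) (mul_left_cancel (a := g ^ m) (by rw [← h1, mul_one]))
/-- Stabilisers of proper almost invariant sets are trivial. -/
theorem AI.eq_one_of_smul {P : Set (Fr ι)} (h : AI P) (h1 : P.Nonempty) (h2 : Pᶜ.Nonempty)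
    {g : Fr ι} (e : g • P = P) : g = 1 := by
  by_cases hs : ∀ s, sep P (letter (MulEquiv.refl (Fr ι)) s) = ∅
  · exfalso
    by_cases h0 : (1 : Fr ι) ∈ P
    · have : P = Set.univ := eq_of_sep (MulEquiv.refl (Fr ι)) (by simp [h0])
        fun s => by rw [hs, sep_univ]
      rw [this, Set.compl_univ] at h2
      exact Set.not_nonempty_empty h2
    · have : P = ∅ := eq_of_sep (MulEquiv.refl (Fr ι)) (by simp [h0])
        fun s => by rw [hs, sep_empty]
      rw [this] at h1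
      exact Set.not_nonempty_empty h1
  · obtain ⟨s, hs⟩ := not_forall.1 hs
    refine fr_eq_one_of_finite (h _) (Set.nonempty_iff_ne_empty.2 hs) ?_
    rw [← sep_smul, e]

/-! Spheres -/

theorem IsSph.eq_one {P : Set (Fr ι)} (h : IsSph P) {g : Fr ι} (e : g • P = P) : g = 1 :=
  h.2.2.1.eq_one_of_smul h.1 h.2.1 e
theorem IsSph.smul_inj {P : Set (Fr ι)} (h : IsSph P) {g g' : Fr ι} (e : g • P = g' • P) :
    g = g' := by
  have : g'⁻¹ * g = 1 := h.eq_one (by rw [mul_smul, e, inv_smul_smul])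
  exact (inv_mul_eq_one.1 this).symm
theorem IsSph.not_tr_compl {P : Set (Fr ι)} (h : IsSph P) {g : Fr ι} (e : g • P = Pᶜ) :
    False := by
  have h2 : g ^ 2 = 1 := h.eq_one (by rw [pow_two, mul_smul, e, smul_compl_fr, e, compl_compl])
  have h1 : g = 1 := fr_eq_one_of_pow two_ne_zero h2
  rw [h1, one_smul] at e
  have := Set.ext_iff.1 e 1
  simp at this
theorem IsSph.of_mem_orb {P Q : Set (Fr ι)} (h : IsSph P) (hQ : Q ∈ orb P) : IsSph Q := by
  refine ⟨?_, ?_, h.2.2.1.of_mem_orb hQ, by rw [orb_eq_of_mem hQ]; exact h.2.2.2⟩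
  · obtain ⟨k, rfl | rfl⟩ := hQ
    · exact h.1.smul_set
    · exact h.2.1.smul_set
  · obtain ⟨k, rfl | rfl⟩ := hQ
    · rw [← smul_compl_fr]; exact h.2.1.smul_set
    · rw [← smul_compl_fr, compl_compl]; exact h.1.smul_set
theorem Nested.aut {𝓢 : Orb ι} (h : Nested 𝓢) (γ : Au ι) : Nested (γ • 𝓢) := by
  rintro _ ⟨P, hP, rfl⟩ _ ⟨Q, hQ, rfl⟩
  exact (nest_aut γ).2 (h P hP Q hQ)
theorem IsSph.aut {P : Set (Fr ι)} (h : IsSph P) (γ : Au ι) : IsSph (γ • P) := by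
  refine ⟨h.1.smul_set, ?_, h.2.2.1.aut γ, ?_⟩
  · rw [← smul_compl_au]; exact h.2.1.smul_set
  · rw [← au_smul_orb]; exact h.2.2.2.aut γ
/-- The side of an orbit that misses `1` and crosses only the edge from `1` to `d` is unique. -/
theorem IsSph.dual_unique {X Y : Set (Fr ι)} (h : IsSph X) {d : Fr ι} (h1 : 1 ∉ X)
    (hd : sep X d = {1}) (hY : Y ∈ orb X) (hs : ¬ (1 ∈ Y ↔ d ∈ Y)) : Y = X ∨ Y = Xᶜ := by
  have _ := h
  have _ := h1
  obtain ⟨k, rfl | rfl⟩ := hY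
  · rw [mem_smul_fr, mem_smul_fr, mul_one] at hs
    have : k⁻¹ ∈ sep X d := hs
    rw [hd, Set.mem_singleton_iff, inv_eq_one] at this
    exact Or.inl (by rw [this, one_smul])
  · rw [mem_smul_fr, mem_smul_fr, mul_one] at hs
    have : k⁻¹ ∈ sep Xᶜ d := hs
    rw [sep_compl, hd, Set.mem_singleton_iff, inv_eq_one] at this
    exact Or.inr (by rw [this, one_smul])

/-! Systems -/

theorem Sys.isSph {ρ : Set (Orb ι)} (h : Sys ρ) {X : Set (Fr ι)} (hX : X ∈ sides ρ) :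
    IsSph X := by
  obtain ⟨o, ho, hX⟩ := hX
  obtain ⟨P, hP, rfl⟩ := h.2.1 o ho
  exact hP.of_mem_orb hX
theorem Sys.eq_orb {ρ : Set (Orb ι)} (h : Sys ρ) {o : Orb ι} (ho : o ∈ ρ) {X : Set (Fr ι)}
    (hX : X ∈ o) : o = orb X := by
  obtain ⟨P, _, rfl⟩ := h.2.1 o ho
  exact (orb_eq_of_mem hX).symm
theorem Sys.orb_mem {ρ : Set (Orb ι)} (h : Sys ρ) {X : Set (Fr ι)} (hX : X ∈ sides ρ) :
    orb X ∈ ρ := by
  obtain ⟨o, ho, hX⟩ := hX
  rw [← h.eq_orb ho hX]
  exact ho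
theorem Sys.mem_of_orb {ρ : Set (Orb ι)} (h : Sys ρ) {X Y : Set (Fr ι)} (hX : X ∈ sides ρ)
    (hY : Y ∈ orb X) : Y ∈ sides ρ := ⟨orb X, h.orb_mem hX, hY⟩
theorem Sys.smul_mem {ρ : Set (Orb ι)} (h : Sys ρ) (g : Fr ι) {X : Set (Fr ι)} :
    g • X ∈ sides ρ ↔ X ∈ sides ρ :=
  ⟨fun hX => h.mem_of_orb hX (mem_orb_symm (smul_mem_orb g (mem_orb_self X))),
    fun hX => h.mem_of_orb hX (smul_mem_orb g (mem_orb_self X))⟩
theorem Sys.compl_mem {ρ : Set (Orb ι)} (h : Sys ρ) {X : Set (Fr ι)} :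
    Xᶜ ∈ sides ρ ↔ X ∈ sides ρ :=
  ⟨fun hX => h.mem_of_orb hX (mem_orb_symm (compl_mem_orb (mem_orb_self X))),
    fun hX => h.mem_of_orb hX (compl_mem_orb (mem_orb_self X))⟩
theorem Sys.rep_mem {ρ : Set (Orb ι)} (h : Sys ρ) {o : Orb ι} (ho : o ∈ ρ) : rep o ∈ o := by
  obtain ⟨P, _, rfl⟩ := h.2.1 o ho
  exact Pool.Agent.Lib.MP_49df17_al.rep_mem ⟨P, mem_orb_self P⟩
theorem Sys.mono {ρ ρ' : Set (Orb ι)} (h : Sys ρ) (h' : ρ' ⊆ ρ) : Sys ρ' :=
  ⟨h.1.subset h', fun o ho => h.2.1 o (h' ho),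
    fun P hP Q hQ => h.2.2 P (sides_mono h' hP) Q (sides_mono h' hQ)⟩
theorem Sys.aut {ρ : Set (Orb ι)} (h : Sys ρ) (γ : Au ι) : Sys (γ • ρ) := by
  refine ⟨h.1.smul_set, ?_, by rw [← au_smul_sides]; exact h.2.2.aut γ⟩
  rintro _ ⟨o, ho, rfl⟩
  obtain ⟨P, hP, rfl⟩ := h.2.1 o ho
  exact ⟨γ • P, hP.aut γ, au_smul_orb γ P⟩
theorem sys_empty : Sys (∅ : Set (Orb ι)) :=
  ⟨Set.finite_empty, fun _ h => h.elim, fun _ h => by rw [sides_empty] at h; exact h.elim⟩
theorem Sys.insert_orb {ρ : Set (Orb ι)} (h : Sys ρ) {C : Set (Fr ι)} (hC : IsSph C)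
    (hn : ∀ Q ∈ sides ρ, Nest Q C) : Sys (insert (orb C) ρ) := by
  refine ⟨h.1.insert _, ?_, ?_⟩
  · rintro o (rfl | ho)
    · exact ⟨C, hC, rfl⟩
    · exact h.2.1 o ho
  · have key : ∀ X ∈ sides ρ, ∀ Y ∈ orb C, Nest X Y := fun X hX =>
      nest_orb (fun Z hZ => hn Z (h.mem_of_orb hX hZ)) X (mem_orb_self X)
    rw [sides_insert]
    rintro X (hX | hX) Y (hY | hY)
    · exact hC.2.2.2 X hX Y hY
    · exact (key Y hY X hX).symm
    · exact key X hX Y hY
    · exact h.2.2 X hX Y hY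
theorem Sys.finite_sep {ρ : Set (Orb ι)} (h : Sys ρ) (a b : Fr ι) :
    {X ∈ sides ρ | ¬ (a ∈ X ↔ b ∈ X)}.Finite := by
  refine (h.1.biUnion (t := fun o => {X ∈ o | ¬ (a ∈ X ↔ b ∈ X)}) fun o ho => ?_).subset ?_
  · obtain ⟨P, hP, rfl⟩ := h.2.1 o ho
    exact hP.2.2.1.finite_sep a b
  · rintro X ⟨⟨o, ho, hX⟩, hs⟩
    exact Set.mem_biUnion ho ⟨hX, hs⟩
theorem Sys.adj_iff {ρ : Set (Orb ι)} (h : Sys ρ) {X : Set (Fr ι)} :
    Adj ρ X ↔ X ∈ sides ρ ∧ 1 ∉ X ∧ ∀ Z ∈ sides ρ, 1 ∉ Z → ¬ X ⊂ Z := by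
  refine and_congr_right fun hX => and_congr_right fun h1 => ⟨fun hr Z hZ hZ1 hs => ?_, ?_⟩
  · rcases hr Z hZ hZ1 with h2 | h2
    · exact hs.2 h2
    · obtain ⟨x, hx⟩ := (h.isSph hX).1
      exact Set.disjoint_left.1 h2 (hs.1 hx) hx
  · intro hm Z hZ hZ1
    rcases (h.2.2 Z hZ X hX).of_notMem hZ1 h1 with h2 | h2 | h2
    · exact Or.inr h2
    · exact Or.inl h2
    · by_contra hc
      exact hm Z hZ hZ1 ⟨h2, fun h3 => hc (Or.inl h3)⟩
/-- Every side that misses `1` lies in an adjacent side. -/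
theorem Sys.exists_adj {ρ : Set (Orb ι)} (h : Sys ρ) {X : Set (Fr ι)} (hX : X ∈ sides ρ)
    (h1 : 1 ∉ X) : ∃ Z, Adj ρ Z ∧ X ⊆ Z := by
  obtain ⟨x, hx⟩ := (h.isSph hX).1
  have hf : {Z | Z ∈ sides ρ ∧ 1 ∉ Z ∧ X ⊆ Z}.Finite := by
    refine (h.finite_sep 1 x).subset ?_
    rintro Z ⟨hZ, hZ1, hXZ⟩
    exact ⟨hZ, fun e => hZ1 (e.2 (hXZ hx))⟩
  obtain ⟨Z, ⟨hZ, hZ1, hXZ⟩, hm⟩ := hf.exists_maximal ⟨X, hX, h1, subset_rfl⟩
  refine ⟨Z, h.adj_iff.2 ⟨hZ, hZ1, fun Y hY hY1 hs => ?_⟩, hXZ⟩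
  exact hs.2 (hm ⟨hY, hY1, hXZ.trans hs.1⟩ hs.1)
theorem Adj.eq_or_disjoint {ρ : Set (Orb ι)} {X Y : Set (Fr ι)} (hX : Adj ρ X) (hY : Adj ρ Y) :
    X = Y ∨ Disjoint X Y := by
  rcases hY.2.2 X hX.1 hX.2.1 with h1 | h1
  · rcases hX.2.2 Y hY.1 hY.2.1 with h2 | h2
    · exact Or.inl (h1.antisymm h2)
    · exact Or.inr h2.symm
  · exact Or.inr h1
theorem Sys.resp_smul {ρ : Set (Orb ι)} (h : Sys ρ) {t : Set (Fr ι)} (ht : Resp (sides ρ) t)
    {g : Fr ι} (hg : g ∈ Dg (sides ρ)) : Resp (sides ρ) (g • t) := by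
  intro X hX h1
  have h2 : 1 ∉ g⁻¹ • X := by
    rw [mem_smul_fr, inv_inv, mul_one, ← one_mul g, ← hg X hX 1]
    exact h1
  rcases ht _ ((h.smul_mem g⁻¹).2 hX) h2 with h3 | h3
  · exact Or.inl (Set.subset_smul_set_iff.2 h3)
  · refine Or.inr ?_
    rw [← smul_inv_smul g X]
    exact Set.disjoint_smul_set.2 h3
/-- Adjacent translates differ by an element of the base group. -/
theorem Sys.adj_smul_iff {ρ : Set (Orb ι)} (h : Sys ρ) {X : Set (Fr ι)} (hX : Adj ρ X)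
    {g : Fr ι} : Adj ρ (g • X) ↔ g ∈ Dg (sides ρ) := by
  constructor
  · intro hg
    have key : ∀ Z ∈ sides ρ, 1 ∉ Z → g ∉ Z := by
      intro Z hZ hZ1 hgZ
      rcases hg.2.2 Z hZ hZ1 with h2 | h2
      · have := h2 hgZ
        rw [mem_smul_fr, inv_mul_cancel] at this
        exact hX.2.1 this
      · have hW : g⁻¹ • Zᶜ ∈ sides ρ := (h.smul_mem _).2 (h.compl_mem.2 hZ)
        have hW1 : 1 ∉ g⁻¹ • Zᶜ := by
          rw [mem_smul_fr, inv_inv, mul_one]
          exact fun h3 => h3 hgZ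
        rcases hX.2.2 _ hW hW1 with h3 | h3
        · have h4 : g⁻¹ ∈ g⁻¹ • Zᶜ := by
            rw [mem_smul_fr, inv_mul_cancel]
            exact hZ1
          apply hg.2.1
          rw [mem_smul_fr, mul_one]
          exact h3 h4
        · obtain ⟨x, hx⟩ := (h.isSph hX.1).1
          refine Set.disjoint_left.1 h3 ?_ hx
          rw [mem_smul_fr, inv_inv]
          exact fun h4 => Set.disjoint_left.1 h2 h4 (Set.smul_mem_smul_set hx)
    intro P hP x
    have k1 := key _ ((h.smul_mem x⁻¹).2 hP)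
    have k2 := key _ ((h.smul_mem x⁻¹).2 (h.compl_mem.2 hP))
    simp only [mem_smul_fr, inv_inv, mul_one, Set.mem_compl_iff] at k1 k2
    tauto
  · intro hg
    refine ⟨(h.smul_mem g).2 hX.1, ?_, h.resp_smul hX.2.2 hg⟩
    rw [mem_smul_fr, mul_one, ← one_mul g⁻¹, ← (Dg (sides ρ)).inv_mem hg X hX.1 1]
    exact hX.2.1
theorem resp_union {𝓢 𝓢' : Orb ι} {t : Set (Fr ι)} :
    Resp (𝓢 ∪ 𝓢') t ↔ Resp 𝓢 t ∧ Resp 𝓢' t := by
  simp only [Resp, Set.mem_union, or_imp, forall_and]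
theorem Resp.mono {𝓢 𝓢' : Orb ι} {t : Set (Fr ι)} (h : Resp 𝓢 t) (h' : 𝓢' ⊆ 𝓢) : Resp 𝓢' t :=
  fun X hX => h X (h' hX)
theorem resp_aut (γ : Au ι) {𝓢 : Orb ι} {t : Set (Fr ι)} :
    Resp (γ • 𝓢) (γ • t) ↔ Resp 𝓢 t := by
  constructor
  · intro h X hX h1
    have := h _ (Set.smul_mem_smul_set hX) (by rw [one_mem_au_smul]; exact h1)
    rwa [Set.smul_set_subset_smul_set_iff, Set.disjoint_smul_set] at this
  · rintro h _ ⟨X, hX, rfl⟩ h1
    change γ • X ⊆ γ • t ∨ Disjoint (γ • X) (γ • t)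
    rw [Set.smul_set_subset_smul_set_iff, Set.disjoint_smul_set]
    exact h X hX fun h2 => h1 (one_mem_au_smul.2 h2)
theorem adj_aut (γ : Au ι) {ρ : Set (Orb ι)} {X : Set (Fr ι)} :
    Adj (γ • ρ) (γ • X) ↔ Adj ρ X := by
  unfold Adj
  rw [← au_smul_sides, Set.smul_mem_smul_set_iff, one_mem_au_smul, resp_aut]
theorem Adj.of_mono {ρ ρ' : Set (Orb ι)} {X : Set (Fr ι)} (h : Adj ρ X) (h' : ρ' ⊆ ρ)
    (hX : X ∈ sides ρ') : Adj ρ' X := ⟨hX, h.2.1, h.2.2.mono (sides_mono h')⟩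
/-- A corner of two crossing sets is respected by a tether that respects both. -/
theorem Resp.corner {P E t : Set (Fr ι)} (h1 : Resp (orb P) t) (h2 : Resp (orb E) t)
    (h : ¬ Nest P E) : Resp (orb (P ∩ E)) t := by
  rintro X ⟨k, rfl | rfl⟩ hX
  · rw [Set.smul_set_inter] at hX ⊢
    by_cases hP : (1 : Fr ι) ∈ k • P
    · have hE : (1 : Fr ι) ∉ k • E := fun hE => hX ⟨hP, hE⟩
      rcases h2 _ (smul_mem_orb k (mem_orb_self E)) hE with h3 | h3
      · exact Or.inl (Set.inter_subset_right.trans h3)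
      · exact Or.inr (h3.mono_left Set.inter_subset_right)
    · rcases h1 _ (smul_mem_orb k (mem_orb_self P)) hP with h3 | h3
      · exact Or.inl (Set.inter_subset_left.trans h3)
      · exact Or.inr (h3.mono_left Set.inter_subset_left)
  · rw [Set.compl_inter, Set.smul_set_union] at hX ⊢
    obtain ⟨x, hxP, hxE⟩ := (not_nest_iff.1 h).2.2.2
    have hP := h1 _ (smul_mem_orb k (compl_mem_orb (mem_orb_self P))) fun hh => hX (Or.inl hh)
    have hE := h2 _ (smul_mem_orb k (compl_mem_orb (mem_orb_self E))) fun hh => hX (Or.inr hh)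
    have m1 : k • x ∈ k • Pᶜ := Set.smul_mem_smul_set hxP
    have m2 : k • x ∈ k • Eᶜ := Set.smul_mem_smul_set hxE
    rcases hP with hP | hP <;> rcases hE with hE | hE
    · exact Or.inl (Set.union_subset hP hE)
    · exact (Set.disjoint_left.1 hE m2 (hP m1)).elim
    · exact (Set.disjoint_left.1 hP m1 (hE m2)).elim
    · exact Or.inr (Set.disjoint_union_left.2 ⟨hP, hE⟩)
/-- A corner is not a translate of a tether that respects both sets. -/
theorem Resp.corner_not_tr {P E t : Set (Fr ι)} (h1 : Resp (orb P) t) (h2 : Resp (orb E) t)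
    (h : ¬ Nest P E) (ht : 1 ∉ t) : ¬ Tr (P ∩ E) t := by
  intro htr
  obtain ⟨k, rfl⟩ := htr.symm
  obtain ⟨⟨x, hx⟩, ⟨y, hyP, hyE⟩, ⟨z, hzP, hzE⟩, -⟩ := not_nest_iff.1 h
  have mx : k • x ∈ k • (P ∩ E) := Set.smul_mem_smul_set hx
  by_cases hP : (1 : Fr ι) ∈ k • P
  · have hE : (1 : Fr ι) ∉ k • E := fun hE => ht (by rw [Set.smul_set_inter]; exact ⟨hP, hE⟩)
    rcases h2 _ (smul_mem_orb k (mem_orb_self E)) hE with h3 | h3
    · exact hzP (Set.smul_set_subset_smul_set_iff.1 h3 hzE).1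
    · exact Set.disjoint_left.1 h3 (Set.smul_mem_smul_set hx.2) mx
  · rcases h1 _ (smul_mem_orb k (mem_orb_self P)) hP with h3 | h3
    · exact hyE (Set.smul_set_subset_smul_set_iff.1 h3 hyP).2
    · exact Set.disjoint_left.1 h3 (Set.smul_mem_smul_set hx.1) mx

/-! Classes -/

open Classical in
/-- The indicator function of a set. -/
noncomputable def ind (P : Set (Fr ι)) (h : Fr ι) : ℤ := if h ∈ P then 1 else 0

theorem ind_congr {P Q : Set (Fr ι)} {x y : Fr ι} (h : x ∈ P ↔ y ∈ Q) : ind P x = ind Q y := by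
  by_cases h1 : x ∈ P
  · have h2 := h.1 h1
    simp [ind, h1, h2]
  · have h2 : y ∉ Q := fun h2 => h1 (h.2 h2)
    simp [ind, h1, h2]

/-- The summand of the intersection number. -/
noncomputable def pf (P : Set (Fr ι)) (g h : Fr ι) : ℤ := ind P (h * g) - ind P h

theorem pair_eq (P : Set (Fr ι)) (g : Fr ι) : pair P g = ∑ᶠ h, pf P g h := rfl
theorem pf_eq_zero {P : Set (Fr ι)} {g h : Fr ι} (hh : h ∉ sep P g) : pf P g h = 0 := by
  rw [mem_sep, not_not] at hh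
  rw [pf, ind_congr hh, sub_self]
theorem AI.pf_finite {P : Set (Fr ι)} (h : AI P) (g : Fr ι) :
    Function.HasFiniteSupport (pf P g) :=
  (h g).subset fun x hx => by
    by_contra hc
    exact hx (pf_eq_zero hc)
theorem pair_of_sep_empty {P : Set (Fr ι)} {a : Fr ι} (h : sep P a = ∅) : pair P a = 0 := by
  rw [pair_eq]
  exact finsum_eq_zero_of_forall_eq_zero fun x => pf_eq_zero (by rw [h]; exact Set.notMem_empty x)
theorem pair_one (P : Set (Fr ι)) : pair P 1 = 0 := pair_of_sep_empty (sep_one P)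
theorem pair_mul {P : Set (Fr ι)} (h : AI P) (a b : Fr ι) :
    pair P (a * b) = pair P a + pair P b := by
  have e : ∀ x, pf P (a * b) x = pf P a x + pf P b (Equiv.mulRight a x) := by
    intro x
    change ind P (x * (a * b)) - ind P x =
      ind P (x * a) - ind P x + (ind P (x * a * b) - ind P (x * a))
    rw [mul_assoc]
    ring
  have hf : Function.HasFiniteSupport fun x => pf P b (Equiv.mulRight a x) :=
    (Set.Finite.preimage (f := Equiv.mulRight a) (Equiv.injective _).injOn (h.pf_finite b)).subset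
      fun x hx => hx
  rw [pair_eq, pair_eq, pair_eq, ← finsum_comp_equiv (Equiv.mulRight a) (f := pf P b),
    ← finsum_add_distrib (h.pf_finite a) hf]
  exact finsum_congr e
theorem pair_inv {P : Set (Fr ι)} (h : AI P) (a : Fr ι) : pair P a⁻¹ = -pair P a := by
  have := pair_mul h a⁻¹ a
  rw [inv_mul_cancel, pair_one] at this
  omega
theorem pair_compl (P : Set (Fr ι)) (a : Fr ι) : pair Pᶜ a = -pair P a := by
  rw [pair_eq, pair_eq, ← finsum_neg_distrib]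
  refine finsum_congr fun x => ?_
  by_cases h1 : x ∈ P <;> by_cases h2 : x * a ∈ P <;> simp [pf, ind, h1, h2]
theorem pair_smul (g : Fr ι) (P : Set (Fr ι)) (a : Fr ι) : pair (g • P) a = pair P a := by
  rw [pair_eq, pair_eq, ← finsum_comp_equiv (Equiv.mulLeft g⁻¹) (f := pf P a)]
  refine finsum_congr fun x => ?_
  refine congrArg₂ (· - ·) (ind_congr ?_) (ind_congr mem_smul_fr)
  rw [mem_smul_fr, ← mul_assoc]
  rfl
theorem pair_aut (γ : Au ι) (P : Set (Fr ι)) (a : Fr ι) :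
    pair (γ • P) (γ a) = pair P a := by
  rw [pair_eq, pair_eq, ← finsum_comp_equiv (γ⁻¹ : Au ι).toEquiv (f := pf P a)]
  refine finsum_congr fun x => ?_
  refine congrArg₂ (· - ·) (ind_congr ?_) (ind_congr mem_smul_au)
  rw [mem_smul_au, map_mul, au_inv_apply]
  rfl
theorem pair_union {P Q : Set (Fr ι)} (h : AI P) (h' : AI Q) (hd : Disjoint P Q) (a : Fr ι) :
    pair (P ∪ Q) a = pair P a + pair Q a := by
  rw [pair_eq, pair_eq, pair_eq, ← finsum_add_distrib (h.pf_finite a) (h'.pf_finite a)]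
  refine finsum_congr fun x => ?_
  have key : ∀ y, ind (P ∪ Q) y = ind P y + ind Q y := by
    intro y
    have d1 : y ∈ P → y ∉ Q := fun hy => Set.disjoint_left.1 hd hy
    by_cases h1 : y ∈ P
    · have h2 := d1 h1
      simp [ind, h1, h2]
    · by_cases h2 : y ∈ Q <;> simp [ind, h1, h2]
  simp only [pf, key]
  ring
theorem pair_of_sep_single {P : Set (Fr ι)} {a k : Fr ι} (h : sep P a = {k}) :
    pair P a = pf P a k := by
  rw [pair_eq]
  exact finsum_eq_single _ k fun x hx => pf_eq_zero (by rw [h]; exact hx)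
theorem pair_of_sep_in {P : Set (Fr ι)} {a k : Fr ι} (h : sep P a = {k}) (hk : k ∉ P) :
    pair P a = 1 := by
  have h1 : k ∈ sep P a := by rw [h]; rfl
  have h2 : k * a ∈ P := by
    rw [mem_sep] at h1
    tauto
  rw [pair_of_sep_single h]
  simp [pf, ind, hk, h2]
theorem pair_of_sep_out {P : Set (Fr ι)} {a k : Fr ι} (h : sep P a = {k}) (hk : k ∈ P) :
    pair P a = -1 := by
  have h1 : k ∈ sep P a := by rw [h]; rfl
  have h2 : k * a ∉ P := by
    rw [mem_sep] at h1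
    tauto
  rw [pair_of_sep_single h]
  simp [pf, ind, hk, h2]
theorem cls_empty : cls (∅ : Set (Fr ι)) = 0 :=
  funext fun _ => pair_of_sep_empty (sep_empty _)
theorem cls_compl (P : Set (Fr ι)) : cls Pᶜ = -cls P := funext fun _ => pair_compl P _
theorem cls_smul (g : Fr ι) (P : Set (Fr ι)) : cls (g • P) = cls P :=
  funext fun _ => pair_smul g P _
theorem cls_union {P Q : Set (Fr ι)} (h : AI P) (h' : AI Q) (hd : Disjoint P Q) :
    cls (P ∪ Q) = cls P + cls Q := funext fun _ => pair_union h h' hd _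
theorem cls_split {P E : Set (Fr ι)} (h : AI P) (h' : AI E) :
    cls P = cls (P ∩ E) + cls (P ∩ Eᶜ) := by
  rw [← cls_union (h.inter h') (h.inter h'.compl)
    (disjoint_compl_right.mono Set.inter_subset_right Set.inter_subset_right),
    Set.inter_union_compl]
theorem cls_of_mem_orb {P Q : Set (Fr ι)} (h : Q ∈ orb P) :
    cls Q = cls P ∨ cls Q = -cls P := by
  obtain ⟨k, rfl | rfl⟩ := h
  · exact Or.inl (cls_smul k P)
  · exact Or.inr (by rw [cls_smul, cls_compl])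
theorem clp_of_mem_orb (p : ℕ) {P Q : Set (Fr ι)} (h : Q ∈ orb P) :
    clp p Q = clp p P ∨ clp p Q = -clp p P := by
  rcases cls_of_mem_orb h with e | e
  · exact Or.inl (funext fun s => by simp [clp, e])
  · exact Or.inr (funext fun s => by simp [clp, e])
theorem vo_orb (p : ℕ) (P : Set (Fr ι)) : vo p (orb P) = clp p P ∨ vo p (orb P) = -clp p P :=
  clp_of_mem_orb p (rep_mem ⟨P, mem_orb_self P⟩)
theorem vo_orb_mem {p : ℕ} {P : Set (Fr ι)} {W : Submodule (ZMod p) (ι → ZMod p)} :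
    vo p (orb P) ∈ W ↔ clp p P ∈ W := by
  rcases vo_orb p P with e | e
  · rw [e]
  · rw [e, Submodule.neg_mem_iff]
theorem clp_split (p : ℕ) {P E : Set (Fr ι)} (h : AI P) (h' : AI E) :
    clp p P = clp p (P ∩ E) + clp p (P ∩ Eᶜ) := by
  funext s
  have := congrFun (cls_split h h') s
  simp only [clp, Pi.add_apply] at this ⊢
  rw [this, Int.cast_add]
theorem cls_orb_notMem {K : AddSubgroup (ι → ℤ)} {P : Set (Fr ι)} :
    (∀ Q ∈ orb P, cls Q ∉ K) ↔ cls P ∉ K := by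
  refine ⟨fun h => h P (mem_orb_self P), fun h Q hQ => ?_⟩
  rcases cls_of_mem_orb hQ with e | e
  · rwa [e]
  · rwa [e, neg_mem_iff]
theorem spn_union (p : ℕ) (S S' : Set (Orb ι)) : spn p (S ∪ S') = spn p S ⊔ spn p S' := by
  unfold spn
  rw [Set.image_union, Submodule.span_union]
theorem spn_mono (p : ℕ) {S S' : Set (Orb ι)} (h : S ⊆ S') : spn p S ≤ spn p S' :=
  Submodule.span_mono (Set.image_mono h)
theorem spn_empty (p : ℕ) : spn p (∅ : Set (Orb ι)) = ⊥ := by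
  unfold spn
  rw [Set.image_empty, Submodule.span_empty]
theorem vo_mem_spn (p : ℕ) {S : Set (Orb ι)} {o : Orb ι} (h : o ∈ S) : vo p o ∈ spn p S :=
  Submodule.subset_span (Set.mem_image_of_mem _ h)
theorem Indep.mono {p : ℕ} {W W' : Submodule (ZMod p) (ι → ZMod p)} {S S' : Set (Orb ι)}
    (h : Indep p W S) (hW : W' ≤ W) (hS : S' ⊆ S) : Indep p W' S' := fun o ho hm =>
  h o (hS ho) (sup_le_sup hW (spn_mono p (Set.sdiff_subset_sdiff_left hS)) hm)
theorem Indep.eq_zero {p : ℕ} [Fact p.Prime] {U : Submodule (ZMod p) (ι → ZMod p)}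
    {S : Set (Orb ι)} (h : Indep p U S) {v : ι → ZMod p} (hv : v ∈ spn p S) (hU : v ∈ U) :
    v = 0 := by
  classical
  obtain ⟨l, hl, rfl⟩ := (Finsupp.mem_span_image_iff_linearCombination (ZMod p)).1 hv
  by_contra hne
  have hl0 : l ≠ 0 := by
    rintro rfl
    exact hne (map_zero _)
  obtain ⟨o, ho⟩ := Finsupp.support_nonempty_iff.2 hl0
  have ho' : l o ≠ 0 := Finsupp.mem_support_iff.1 ho
  apply h o (hl ho)
  have e : Finsupp.linearCombination (ZMod p) (vo p) l =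
      l o • vo p o + Finsupp.linearCombination (ZMod p) (vo p) (l.erase o) := by
    conv_lhs => rw [← Finsupp.single_add_erase o l]
    rw [map_add, Finsupp.linearCombination_single]
  have h2 : Finsupp.linearCombination (ZMod p) (vo p) (l.erase o) ∈ spn p (S \ {o}) := by
    refine (Finsupp.mem_span_image_iff_linearCombination (ZMod p)).2 ⟨l.erase o, ?_, rfl⟩
    intro x hx
    rw [Finsupp.support_erase, Finset.coe_erase] at hx
    exact ⟨hl hx.1, hx.2⟩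
  have e2 : vo p o = (l o)⁻¹ • (Finsupp.linearCombination (ZMod p) (vo p) l -
      Finsupp.linearCombination (ZMod p) (vo p) (l.erase o)) := by
    rw [e, add_sub_cancel_right, smul_smul, inv_mul_cancel₀ ho', one_smul]
  rw [e2]
  exact Submodule.smul_mem _ _
    (Submodule.sub_mem _ (Submodule.mem_sup_left hU) (Submodule.mem_sup_right h2))
/-- Independence of a union. -/
theorem indep_union {p : ℕ} [Fact p.Prime] {W : Submodule (ZMod p) (ι → ZMod p)}
    {S S' : Set (Orb ι)} :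
    Indep p W (S ∪ S') ∧ Disjoint S S' ↔ Indep p W S ∧ Indep p (W ⊔ spn p S) S' := by
  constructor
  · rintro ⟨h, hd⟩
    refine ⟨h.mono le_rfl Set.subset_union_left, fun o ho hm => h o (Or.inr ho) ?_⟩
    rw [sup_assoc, ← spn_union] at hm
    refine sup_le_sup_left (spn_mono p ?_) W hm
    rintro x (hx | hx)
    · exact ⟨Or.inl hx, fun e => Set.disjoint_left.1 hd hx (by rw [e]; exact ho)⟩
    · exact ⟨Or.inr hx.1, hx.2⟩
  · rintro ⟨h, h'⟩
    refine ⟨?_, Set.disjoint_left.2 fun o ho ho' => h' o ho'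
      (Submodule.mem_sup_left (Submodule.mem_sup_right (vo_mem_spn p ho)))⟩
    rintro o (ho | ho) hm
    · have hm' : vo p o ∈ (W ⊔ spn p (S \ {o})) ⊔ spn p S' := by
        rw [sup_assoc, ← spn_union]
        refine sup_le_sup_left (spn_mono p ?_) W hm
        rintro x ⟨hx | hx, hx'⟩
        · exact Or.inl ⟨hx, hx'⟩
        · exact Or.inr hx
      obtain ⟨u, hu, v, hv, e⟩ := Submodule.mem_sup.1 hm'
      have hv0 : v = 0 := by
        refine h'.eq_zero hv ?_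
        rw [eq_sub_of_add_eq' e]
        exact Submodule.sub_mem _ (Submodule.mem_sup_right (vo_mem_spn p ho))
          (sup_le_sup_left (spn_mono p Set.sdiff_subset) W hu)
      rw [hv0, add_zero] at e
      exact h o ho (e ▸ hu)
    · apply h' o ho
      rw [sup_assoc, ← spn_union]
      refine sup_le_sup_left (spn_mono p ?_) W hm
      rintro x ⟨hx | hx, hx'⟩
      · exact Or.inl hx
      · exact Or.inr ⟨hx, hx'⟩

section Fin

variable [Fintype ι] [DecidableEq ι]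

theorem cls_dot {P : Set (Fr ι)} (h : AI P) (g : Fr ι) : cls P ⬝ᵥ abv g = pair P g := by
  induction g using FreeGroup.induction_on with
  | C1 => rw [abv_one, pair_one, dotProduct_zero]
  | of s => rw [abv_of, dotProduct_single, mul_one]; rfl
  | inv_of s ih => rw [abv_inv, pair_inv h, dotProduct_neg, ih]
  | mul a b iha ihb => rw [abv_mul, pair_mul h, dotProduct_add, iha, ihb]
theorem clp_dot (p : ℕ) {P : Set (Fr ι)} (h : AI P) (g : Fr ι) :
    clp p P ⬝ᵥ abp p g = (pair P g : ZMod p) := by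
  rw [← cls_dot h]
  simp [dotProduct, clp, abp]
theorem abp_mul (p : ℕ) (a b : Fr ι) : abp p (a * b) = abp p a + abp p b := by
  funext s
  simp [abp, abv_mul]
theorem abp_inv (p : ℕ) (a : Fr ι) : abp p a⁻¹ = -abp p a := by
  funext s
  simp [abp, abv_inv]
theorem abp_one (p : ℕ) : abp p (1 : Fr ι) = 0 := by
  funext s
  simp [abp, abv_one]
theorem abp_of (p : ℕ) (s : ι) : abp p (FreeGroup.of s) = Pi.single s 1 := by
  funext t
  by_cases e : t = s <;> simp [abp, abv_of, e]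
theorem abv_zpow (a : Fr ι) (n : ℤ) : abv (a ^ n) = n • abv a := by
  unfold abv
  rw [map_zpow, toAdd_zpow]
theorem cls_aut {P : Set (Fr ι)} (h : AI P) (γ : Au ι) :
    cls (γ • P) = cls P ᵥ* abM γ⁻¹ := by
  funext s
  have e := pair_aut γ P (γ⁻¹ (FreeGroup.of s))
  rw [au_apply_inv, ← cls_dot h] at e
  exact e
theorem cls_IA {P : Set (Fr ι)} (h : AI P) {γ : Au ι} (hγ : γ ∈ IA ι) :
    cls (γ • P) = cls P := by
  rw [cls_aut h, mem_IA.1 ((IA ι).inv_mem hγ), vecMul_one]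
theorem abv_IA {γ : Au ι} (hγ : γ ∈ IA ι) (g : Fr ι) : abv (γ g) = abv g := by
  rw [← abM_mulVec, mem_IA.1 hγ, one_mulVec]
/-- Elements of `Gh y` preserve the classes of sets that do not cross `y`. -/
theorem cls_Gh {P : Set (Fr ι)} (h : AI P) {y : Fr ι} (hy : sep P y = ∅) {γ : Au ι}
    (hγ : γ ∈ Gh y) : cls (γ • P) = cls P := by
  obtain ⟨-, α, -, hα⟩ := mem_Gh.1 ((Gh y).inv_mem hγ)
  rw [cls_aut h, hα, vecMul_add, vecMul_one, vecMul_vecMulVec, cls_dot h, pair_of_sep_empty hy,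
    zero_smul, add_zero]
theorem comm_Gh {y : Fr ι} {γ δ : Au ι} (hγ : γ ∈ Gh y) (hδ : δ ∈ Gh y) :
    γ * δ * γ⁻¹ * δ⁻¹ ∈ IA ι := by
  obtain ⟨-, α, h1, h2⟩ := mem_Gh.1 hγ
  obtain ⟨-, α', h1', h2'⟩ := mem_Gh.1 hδ
  have e : abM (γ * δ) = abM (δ * γ) := by
    rw [h2.mul h2' h1, h2'.mul h2 h1', add_right_comm]
  have e2 : γ * δ * γ⁻¹ * δ⁻¹ = (γ * δ) * (δ * γ)⁻¹ := by group
  rw [mem_IA, e2, abM_mul, e, ← abM_mul, mul_inv_cancel, abM_one]
theorem eq_of_dot_letter (β : Fr κ ≃* Fr ι) {φ ψ : ι → ℤ}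
    (h : ∀ s, φ ⬝ᵥ abv (letter β s) = ψ ⬝ᵥ abv (letter β s)) : φ = ψ := by
  have key : ∀ g : Fr κ, φ ⬝ᵥ abv (β g) = ψ ⬝ᵥ abv (β g) := by
    intro g
    induction g using FreeGroup.induction_on with
    | C1 => rw [map_one, abv_one, dotProduct_zero, dotProduct_zero]
    | of s => exact h s
    | inv_of s ih => rw [map_inv, abv_inv, dotProduct_neg, dotProduct_neg, ih]
    | mul a b iha ihb => rw [map_mul, abv_mul, dotProduct_add, dotProduct_add, iha, ihb]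
  funext s
  have := key (β.symm (FreeGroup.of s))
  rwa [MulEquiv.apply_symm_apply, abv_of, dotProduct_single, dotProduct_single, mul_one,
    mul_one] at this
theorem eq_of_dot_letter_p (p : ℕ) (β : Fr κ ≃* Fr ι) {φ ψ : ι → ZMod p}
    (h : ∀ s, φ ⬝ᵥ abp p (letter β s) = ψ ⬝ᵥ abp p (letter β s)) : φ = ψ := by
  have key : ∀ g : Fr κ, φ ⬝ᵥ abp p (β g) = ψ ⬝ᵥ abp p (β g) := by
    intro g
    induction g using FreeGroup.induction_on with
    | C1 => rw [map_one, abp_one, dotProduct_zero, dotProduct_zero]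
    | of s => exact h s
    | inv_of s ih => rw [map_inv, abp_inv, dotProduct_neg, dotProduct_neg, ih]
    | mul a b iha ihb => rw [map_mul, abp_mul, dotProduct_add, dotProduct_add, iha, ihb]
  funext s
  have := key (β.symm (FreeGroup.of s))
  rwa [MulEquiv.apply_symm_apply, abp_of, dotProduct_single, dotProduct_single, mul_one,
    mul_one] at this
theorem spn_le_Ann (p : ℕ) {ρ : Set (Orb ι)} (h : Sys ρ) :
    spn p ρ ≤ Ann p (Dg (sides ρ)) := by
  refine Submodule.span_le.2 ?_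
  rintro _ ⟨o, ho, rfl⟩ g hg
  have hs : rep o ∈ sides ρ := ⟨o, ho, h.rep_mem ho⟩
  change clp p (rep o) ⬝ᵥ abp p g = 0
  rw [clp_dot p (h.isSph hs).2.2.1, pair_of_sep_empty (mem_Dg_sep.1 hg _ hs), Int.cast_zero]
theorem Ann_anti (p : ℕ) {D D' : Subgroup (Fr ι)} (h : D ≤ D') : Ann p D' ≤ Ann p D :=
  fun _ hφ g hg => hφ g (h hg)
theorem Ann_top (p : ℕ) : Ann p (⊤ : Subgroup (Fr ι)) = ⊥ := by
  refine eq_bot_iff.2 fun φ hφ => ?_
  rw [Submodule.mem_bot]
  funext s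
  have := mem_Ann.1 hφ (FreeGroup.of s) (Subgroup.mem_top _)
  rwa [abp_of, dotProduct_single, mul_one] at this
theorem rkD_mono {D D' : Subgroup (Fr ι)} (h : D ≤ D') : rkD D ≤ rkD D' :=
  Submodule.finrank_mono (Submodule.span_mono (Set.image_mono h))
theorem rkD_aut_le (γ : Au ι) (𝓢 : Orb ι) : rkD (Dg (γ • 𝓢)) ≤ rkD (Dg 𝓢) := by
  refine le_trans (Submodule.finrank_mono ?_) (Submodule.finrank_map_le (Matrix.toLin' (abM γ))
    (Submodule.span ℤ (abv '' (Dg 𝓢 : Set (Fr ι)))))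
  refine Submodule.span_le.2 ?_
  rintro _ ⟨g, hg, rfl⟩
  refine ⟨abv (γ⁻¹ g), Submodule.subset_span ⟨γ⁻¹ g, ?_, rfl⟩, ?_⟩
  · rw [← au_apply_inv γ g] at hg
    exact au_mem_Dg.1 hg
  · rw [Matrix.toLin'_apply, abM_mulVec, au_apply_inv]
theorem rkD_aut (γ : Au ι) (𝓢 : Orb ι) : rkD (Dg (γ • 𝓢)) = rkD (Dg 𝓢) := by
  refine le_antisymm (rkD_aut_le γ 𝓢) ?_
  have := rkD_aut_le γ⁻¹ (γ • 𝓢)
  rwa [inv_smul_smul] at this
theorem finrank_spn_le (p : ℕ) [Fact p.Prime] (W : Submodule (ZMod p) (ι → ZMod p))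
    {S : Set (Orb ι)} (h : S.Finite) :
    Module.finrank (ZMod p) (W ⊔ spn p S : Submodule (ZMod p) (ι → ZMod p)) ≤
      Module.finrank (ZMod p) W + S.ncard := by
  refine (Submodule.finrank_add_le_finrank_add_finrank W (spn p S)).trans ?_
  refine Nat.add_le_add_left ?_ _
  have := (h.image (vo p)).fintype
  refine (finrank_span_le_card (R := ZMod p) (vo p '' S)).trans ?_
  rw [← Set.ncard_eq_toFinset_card']
  exact Set.ncard_image_le h
theorem PB.finite {A : Set (Fr ι)} (h : PB A) : A.Finite := by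
  obtain ⟨β, hβ⟩ := h
  exact (Set.finite_range _).subset hβ

end Fin

/-! Partial bases and configurations -/

theorem letter_injective (β : Fr κ ≃* Fr ι) : Function.Injective (letter β) :=
  β.injective.comp FreeGroup.of_injective
theorem letter_trans (β : Fr κ ≃* Fr ι) (γ : Au ι) (s : κ) :
    letter (β.trans γ) s = γ (letter β s) := rfl
theorem letter_mul (γ β : Au ι) (s : ι) : letter (γ * β) s = γ (letter β s) := rfl
theorem closure_letter (β : Fr κ ≃* Fr ι) :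
    Subgroup.closure (Set.range (letter β)) = ⊤ := by
  have e : Set.range (letter β) = β.toMonoidHom '' Set.range FreeGroup.of := by
    rw [← Set.range_comp]; rfl
  rw [e, ← MonoidHom.map_closure, FreeGroup.closure_range_of]
  exact Subgroup.map_top_of_surjective _ β.surjective
theorem PB.mono {A B : Set (Fr ι)} (h : PB A) (h' : B ⊆ A) : PB B := by
  obtain ⟨β, hβ⟩ := h
  exact ⟨β, h'.trans hβ⟩
theorem PB.aut {A : Set (Fr ι)} (h : PB A) (γ : Au ι) : PB (γ • A) := by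
  obtain ⟨β, hβ⟩ := h
  refine ⟨γ * β, ?_⟩
  rintro _ ⟨a, ha, rfl⟩
  obtain ⟨s, rfl⟩ := hβ ha
  exact ⟨s, rfl⟩
theorem pb_empty : PB (∅ : Set (Fr ι)) := ⟨1, Set.empty_subset _⟩

theorem Valid.mono {c c' : Cfg ι} (h : Valid c) (hA : c'.A ⊆ c.A) (hρ : c'.ρ ⊆ c.ρ)
    (hT : c'.T ⊆ c.T) (ht : ∀ t ∈ c'.T, t ∈ sides c'.ρ) : Valid c' where
  pb := h.pb.mono hA
  sys := h.sys.mono hρ
  dg := fun a ha => Dg_anti (sides_mono hρ) (h.dg a (hA ha))
  fin := h.fin.subset hT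
  adj := fun t ht' => (h.adj t (hT ht')).of_mono hρ (ht t ht')
  ntr := fun t h1 t' h2 => h.ntr t (hT h1) t' (hT h2)
theorem Valid.aut {c : Cfg ι} (h : Valid c) (γ : Au ι) :
    Valid ⟨γ • c.A, γ • c.ρ, γ • c.T⟩ where
  pb := h.pb.aut γ
  sys := h.sys.aut γ
  dg := by
    rintro _ ⟨a, ha, rfl⟩
    change γ a ∈ Dg (sides (γ • c.ρ))
    rw [← au_smul_sides]
    exact au_mem_Dg.2 (h.dg a ha)
  fin := h.fin.smul_set
  adj := by
    rintro _ ⟨t, ht, rfl⟩
    exact (adj_aut γ).2 (h.adj t ht)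
  ntr := by
    rintro _ ⟨t, ht, rfl⟩ _ ⟨t', ht', rfl⟩ e
    rw [h.ntr t ht t' ht' ((tr_aut γ).1 e)]
theorem smul_set_eq_of_fix {G V : Type} [Group G] [MulAction G V] {g : G} {A : Set V}
    (h : ∀ a ∈ A, g • a = a) : g • A = A := by
  ext x
  constructor
  · rintro ⟨a, ha, rfl⟩
    change g • a ∈ A
    rwa [h a ha]
  · intro hx
    exact ⟨x, hx, h x hx⟩
theorem Stab.smul_eq {c : Cfg ι} {γ : Au ι} (h : γ ∈ Stab c) :
    γ • c.A = c.A ∧ γ • c.ρ = c.ρ ∧ γ • c.T = c.T :=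
  ⟨smul_set_eq_of_fix h.1, smul_set_eq_of_fix h.2.1, smul_set_eq_of_fix h.2.2⟩
theorem Valid.add_aut {c : Cfg ι} {S : Set (Orb ι)} (h : Valid (c.add S)) {γ : Au ι}
    (hγ : γ ∈ Stab c) : Valid (c.add (γ • S)) := by
  obtain ⟨e1, e2, e3⟩ := Stab.smul_eq hγ
  have := h.aut γ
  change Valid ⟨γ • c.A, γ • (c.ρ ∪ S), γ • c.T⟩ at this
  rwa [Set.smul_set_union, e1, e2, e3] at this
theorem valid_empty : Valid (⟨∅, ∅, ∅⟩ : Cfg ι) where
  pb := pb_empty
  sys := sys_empty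
  dg := fun _ h => h.elim
  fin := Set.finite_empty
  adj := fun _ h => h.elim
  ntr := fun _ h => h.elim
theorem Cfg.add_empty (c : Cfg ι) : c.add ∅ = c := by
  unfold Cfg.add
  rw [Set.union_empty]
theorem Cfg.add_add (c : Cfg ι) (S S' : Set (Orb ι)) :
    (c.add S).add S' = c.add (S ∪ S') := by
  unfold Cfg.add
  rw [Set.union_assoc]
theorem Valid.add_iff {c : Cfg ι} (h : Valid c) {S : Set (Orb ι)} :
    Valid (c.add S) ↔ Sys (c.ρ ∪ S) ∧ (∀ a ∈ c.A, a ∈ Dg (sides S)) ∧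
      ∀ t ∈ c.T, Resp (sides S) t := by
  constructor
  · intro h'
    exact ⟨h'.sys, fun a ha => Dg_anti (sides_mono Set.subset_union_right) (h'.dg a ha),
      fun t ht => (h'.adj t ht).2.2.mono (sides_mono Set.subset_union_right)⟩
  · rintro ⟨h1, h2, h3⟩
    refine ⟨h.pb, h1, fun a ha => ?_, h.fin, fun t ht => ?_, h.ntr⟩
    · change a ∈ Dg (sides (c.ρ ∪ S))
      rw [sides_union, Dg_union]
      exact ⟨h.dg a ha, h2 a ha⟩
    · obtain ⟨k1, k2, k3⟩ := h.adj t ht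
      refine ⟨sides_mono Set.subset_union_left k1, k2, ?_⟩
      change Resp (sides (c.ρ ∪ S)) t
      rw [sides_union, resp_union]
      exact ⟨k3, h3 t ht⟩
theorem Valid.add_mono {c : Cfg ι} (h : Valid c) {S S' : Set (Orb ι)} (hS : Valid (c.add S))
    (h' : S' ⊆ S) : Valid (c.add S') :=
  hS.mono subset_rfl (Set.union_subset_union_right _ h') subset_rfl
    fun t ht => sides_mono Set.subset_union_left (h.adj t ht).1
theorem Valid.addA_iff {c : Cfg ι} (h : Valid c) {B : Set (Fr ι)} :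
    Valid (c.addA B) ↔ PB (c.A ∪ B) ∧ ∀ b ∈ B, b ∈ c.D := by
  constructor
  · intro h'
    exact ⟨h'.pb, fun b hb => h'.dg b (Or.inr hb)⟩
  · rintro ⟨h1, h2⟩
    exact ⟨h1, h.sys, fun a ha => ha.elim (h.dg a) (h2 a), h.fin, h.adj, h.ntr⟩
theorem mem_stabilizer_list {Γ V : Type} [Group Γ] [MulAction Γ V] {g : Γ} {l : List V} :
    g ∈ MulAction.stabilizer Γ l ↔ ∀ v ∈ l, g • v = v := by
  rw [MulAction.mem_stabilizer_iff, smul_list]
  conv_lhs => rhs; rw [← List.map_id l]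
  exact List.map_inj_left
theorem Stab_add (c : Cfg ι) (l : List (Orb ι)) :
    Stab (c.add (vs l)) = Stab c ⊓ MulAction.stabilizer (Au ι) l := by
  ext γ
  rw [Subgroup.mem_inf, mem_stabilizer_list, mem_Stab, mem_Stab]
  simp only [Cfg.add, Set.mem_union, mem_vs, or_imp, forall_and]
  tauto

end Pool.Agent.Lib.MP_49df17_al
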