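import Pool.Agent.Lib.MP_49df17_al.Core
import Pool.Agent.Lib.MP_49df17_al.Adapt

-- part Pool.Agent.Lib.MP_49df17_al.At
section

/-!
Acyclicity of the complexes of tethers, and existence of a good dual sphere.
-/

set_option linter.unusedSectionVars false

namespace Pool.Agent.Lib.MP_49df17_al

open Matrix
open scoped Pointwise

namespace JAt

variable {ι : Type} [Fintype ι] [DecidableEq ι]

theorem tr_mem_sides {c : Cfg ι} (hv : Valid c) {X0 t : Set (Fr ι)} (hX : X0 ∈ sides c.ρ)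
    (h : Tr t X0) : t ∈ sides c.ρ := by
  obtain ⟨g, rfl⟩ := h
  exact (hv.sys.smul_mem g).2 hX

theorem at_anti {c : Cfg ι} (hv : Valid c) {X0 : Set (Fr ι)} (hX : X0 ∈ sides c.ρ)
    {τ τ' : Set (Orb ι)} (h : τ' ⊆ τ) {U : Orb ι} (hU : At (c.add τ) X0 U) :
    At (c.add τ') X0 U :=
  ⟨fun t ht => ⟨(hU.1 t ht).1.of_mono (Set.union_subset_union_right _ h)
    (sides_mono Set.subset_union_left (tr_mem_sides hv hX (hU.1 t ht).2)), (hU.1 t ht).2⟩, hU.2⟩

theorem at_empty (c : Cfg ι) (X0 : Set (Fr ι)) : At c X0 ∅ :=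
  ⟨fun _ h => absurd h (Set.notMem_empty _), fun _ h => absurd h (Set.notMem_empty _)⟩

theorem sup_Ann {c : Cfg ι} (hv : Valid c) : Ann 2 c.D ⊔ spn 2 c.ρ = Ann 2 c.D :=
  sup_eq_left.2 (spn_le_Ann 2 hv.sys)

/-- What an independent system of spheres gives. -/
theorem indep_data (had : S_adapt) {c : Cfg ι} (hv : Valid c) {X0 : Set (Fr ι)}
    (hX : Adj c.ρ X0) {τ : Set (Orb ι)} (hτ : Yx 2 (Ann 2 c.D) c τ) :
    (∃ X1, Tr X1 X0 ∧ Adj (c.add τ).ρ X1) ∧ rkD (c.add τ).D + τ.ncard = rkD c.D ∧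
      ∀ o ∈ τ, ∃ P x, IsSph P ∧ o = orb P ∧ x ∈ c.D ∧ sep P x = {1} := by
  obtain ⟨β, hβ⟩ := had ι _ hτ.1
  have hi : Indep 2 (Ann 2 (Dg (sides c.ρ))) τ := hτ.2.mono le_sup_left subset_rfl
  obtain ⟨h1, h2, -, h4, -⟩ := hβ.indep (p := 2) (ρ := c.ρ) (S := τ) hτ.1.sys rfl hi
  refine ⟨?_, h4, fun o ho => ?_⟩
  · obtain ⟨g, hg, D, e⟩ := h1.adj_ideal hv.sys hX
    have ha : Adj c.ρ (g • X0) := (hv.sys.adj_smul_iff hX).2 hg
    refine ⟨g • X0, ⟨g, rfl⟩, sides_mono Set.subset_union_left ha.1, ha.2.1, ?_⟩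
    change Resp (sides (c.ρ ∪ τ)) _
    rw [sides_union, resp_union]
    refine ⟨ha.2.2, fun Z hZ => ?_⟩
    obtain ⟨o, ho, hZo⟩ := mem_sides.1 hZ
    obtain ⟨s, rfl, -⟩ := h2 o ho
    rw [e]
    exact resp_orb_hl β _ D Z hZo
  · obtain ⟨s, rfl, hs⟩ := h2 o ho
    refine ⟨_, letter β s, isSph_hl β _, rfl, (h1.letter_mem_D hv.sys s).2 hs, ?_⟩
    rw [← sl_true]
    exact sep_hl_self β _

/-- The cone attached to one helper sphere. -/
theorem cone (had : S_adapt) (hdu : S_dual) (hb : S_Atb) {c : Cfg ι} (hv : Valid c)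
    {X0 : Set (Fr ι)} (hX : Adj c.ρ X0) {w : Orb ι} (hw : Yx 2 (Ann 2 c.D) c {w}) :
    ∃ v, ∀ U, At (c.add {w}) X0 U → At c X0 (insert v U) := by
  obtain ⟨⟨X1, hT, hA⟩, -, h3⟩ := indep_data had hv hX hw
  obtain ⟨P, x, hP, rfl, hx, hs⟩ := h3 w rfl
  have hsub : c.ρ ⊆ (c.add {orb P}).ρ := Set.subset_union_left
  have hA0 : Adj c.ρ X1 := hA.of_mono hsub (tr_mem_sides hv hX.1 hT)
  have hD : ∀ g ∈ Dg (sides (c.add {orb P}).ρ), sep P g = ∅ := fun g hg =>
    mem_Dg_sep.1 hg P (mem_sides.2 ⟨orb P, Or.inr rfl, mem_orb_self P⟩)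
  have hv1 : Adj c.ρ (x • X1) ∧ Tr (x • X1) X0 :=
    ⟨(hv.sys.adj_smul_iff hA0).2 hx, Tr.trans ⟨x, rfl⟩ hT⟩
  have hsp : IsSph (x • X1) := hv.sys.isSph hv1.1.1
  refine ⟨x • X1, fun U hU => ?_⟩
  have hall : ∀ t ∈ insert (x • X1) U, Adj c.ρ t ∧ Tr t X0 := by
    rintro t (rfl | ht)
    · exact hv1
    · exact ⟨(hU.1 t ht).1.of_mono hsub (tr_mem_sides hv hX.1 (hU.1 t ht).2), (hU.1 t ht).2⟩
  have crit := ((hb ι c X0).2.2.2 hv).1
  rcases U.eq_empty_or_nonempty with rfl | ⟨t0, ht0⟩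
  · have e : dif (x • X1) (insert (x • X1) ∅) = ∅ := by
      ext g
      simp only [dif, Set.mem_ofPred_eq, Set.mem_insert_iff, Set.mem_empty_iff_false, or_false,
        iff_false, not_and]
      exact fun h1 h2 => h1 (hsp.eq_one h2)
    refine crit _ (x • X1) hall (Set.mem_insert _ _) ?_ ?_
    · rw [e]; exact Set.disjoint_empty _
    · rw [e, Set.union_empty]; exact hv.pb
  · obtain ⟨e0, he0⟩ : Tr t0 X1 := (hU.1 t0 ht0).2.trans hT.symm
    have hA1 := (hU.1 t0 ht0).1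
    have m0 : e0 ∈ Dg (sides (c.add {orb P}).ρ) := (hw.1.sys.adj_smul_iff hA).1 (he0 ▸ hA1)
    have hd : sep P (x * e0⁻¹) = {1} := by
      rw [sep_mul_right (hD _ (inv_mem m0)), hs]
    have hA' : ∀ a ∈ c.A ∪ dif t0 U, sep P a = ∅ := by
      rintro a (ha | ha)
      · exact hD a (hw.1.dg a ha)
      · exact hD a ((hw.1.sys.adj_smul_iff hA1).1 (hU.1 _ ha.2).1)
    obtain ⟨p1, p2⟩ := hdu ι _ P _ _ (hU.2 t0 ht0).2 hP hA' hd
    have hsp0 : IsSph t0 := hw.1.sys.isSph hA1.1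
    have hdif : dif t0 (insert (x • X1) U) ⊆ insert (x * e0⁻¹) (dif t0 U) := by
      rintro g ⟨g1, hg | hg⟩
      · left
        apply hsp0.smul_inj
        rw [hg, he0, smul_smul, inv_mul_cancel_right]
      · exact Or.inr ⟨g1, hg⟩
    refine crit _ t0 hall (Set.mem_insert_of_mem _ ht0) ?_ (p1.mono ?_)
    · refine Set.disjoint_left.2 fun a ha h => ?_
      rcases hdif h with rfl | h
      · exact p2 (Or.inl ha)
      · exact Set.disjoint_left.1 (hU.2 t0 ht0).1 ha h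
    · rintro a (ha | ha)
      · exact Or.inr (Or.inl ha)
      · rcases hdif ha with rfl | h
        · exact Or.inl rfl
        · exact Or.inr (Or.inr h)

end JAt

namespace JAt

/-- The statement proved by induction. -/
def Q (j : ℕ) : Prop := ∃ N, ∀ (ι : Type) [Fintype ι] [DecidableEq ι] (c : Cfg ι)
  (X0 : Set (Fr ι)), Valid c → Adj c.ρ X0 → (∀ t ∈ c.T, ¬ Tr X0 t) → c.A.ncard + N ≤ rkD c.D →
  ∀ n < j, ExactAt (At c X0) n

theorem step (hg : S_gen) (hY : S_Y) (had : S_adapt) (hdu : S_dual) (hb : S_Atb) (j : ℕ)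
    (ih : Q j) : Q (j + 1) := by
  obtain ⟨N, hN⟩ := ih
  obtain ⟨NY, hNY⟩ := hY j
  refine ⟨N + NY + j + 1, fun ι _ _ c X0 hv hX hT hr n hn => ?_⟩
  rcases (Nat.lt_succ_iff.1 hn).lt_or_eq with hn | rfl
  · exact hN ι c X0 hv hX hT (by omega) n hn
  obtain ⟨β, hβ⟩ := had ι c hv
  have hrk := hβ.finrank_Ann hv.sys 2
  let R : Set (Set (Fr ι)) → Set (Orb ι) → Prop := fun U τ =>
    Yx 2 (Ann 2 c.D) c τ ∧ At (c.add τ) X0 U
  have hdown : Down2 R := fun σ σ' τ τ' h h1 h2 =>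
    ⟨⟨hv.add_mono h.1.1 h2, h.1.2.mono le_rfl h2⟩,
      (hb ι _ X0).1 _ _ (at_anti hv hX.1 h2 h.2) h1⟩
  have key := hg _ _ R R n hdown hdown (fun _ _ _ _ h => h) ?_ ?_
  · intro z hz
    have hz' : z ∈ Zc (fun σ => R σ ∅) n := by
      refine Zc_mono (fun l h => ⟨⟨?_, fun _ h => absurd h (Set.notMem_empty _)⟩, ?_⟩) hz
      · rwa [Cfg.add_empty]
      · rwa [Cfg.add_empty]
    refine (iSup_le fun w => ?_ : _ ≤ Bc (At c X0) n) (key hz')
    by_cases hw : Yx 2 (Ann 2 c.D) c {w}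
    · obtain ⟨v, hv'⟩ := cone had hdu hb hv hX hw
      exact Zc_le_Bc_of_cone v (fun S _ h => hv' S h.2) n
    · exact Zc_le_Bc_of_cone X0 (fun S _ h => absurd h.1 hw) n
  · intro σ _ hc hσ
    have hσ' : At c X0 σ := by
      have := hσ.2
      rwa [Cfg.add_empty] at this
    rcases σ.eq_empty_or_nonempty with rfl | ⟨t0, ht0⟩
    · refine (hNY ι 2 (Ann 2 c.D) c hv ?_).congr fun τ _ => ⟨fun h => ⟨h, at_empty _ _⟩, fun h => h.1⟩
      rw [sup_Ann hv]
      omega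
    · obtain ⟨-, a2, a3⟩ := ((hb ι c X0).2.2.2 hv).2.1 σ t0 hσ' ht0
      obtain ⟨a3, a4⟩ := a3 hT
      refine (hNY ι 2 (Ann 2 c.D) (c.ext t0 σ) a3 ?_).congr fun τ _ => ?_
      · have := Set.ncard_union_le c.A (dif t0 σ)
        change (c.A ∪ dif t0 σ).ncard +
          Module.finrank (ZMod 2) (Ann 2 c.D ⊔ spn 2 c.ρ : Submodule (ZMod 2) (ι → ZMod 2)) + NY ≤ _
        rw [sup_Ann hv]
        omega
      · constructor
        · intro h
          exact ⟨⟨((a4 τ).1 h.1).1, h.2⟩, ((a4 τ).1 h.1).2⟩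
        · intro h
          exact ⟨(a4 τ).2 ⟨h.1.1, h.2⟩, h.1.2⟩
  · intro τ _ _ hc hτ m hm
    obtain ⟨⟨X1, h1, h2⟩, h3, -⟩ := indep_data had hv hX hτ.1
    have := hN ι (c.add τ) X1 hτ.1.1 h2 (fun t ht h => hT t ht (h1.symm.trans h))
      (by change c.A.ncard + N ≤ _; omega) m hm
    rw [(hb ι (c.add τ) X0).2.2.1 X1 h1] at this
    exact this.congr fun S _ => ⟨fun h => ⟨hτ.1, h⟩, fun h => h.2⟩

variable {ι : Type} [Fintype ι] [DecidableEq ι]

theorem yo_smul (y : Fr ι) (n : ℤ) (t : Set (Fr ι)) : yo y (y ^ n • t) = yo y t := by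
  ext Q
  constructor
  · rintro ⟨i, rfl⟩
    exact ⟨i + n, by rw [smul_smul, _root_.zpow_add]⟩
  · rintro ⟨i, rfl⟩
    exact ⟨i - n, by rw [smul_smul, ← _root_.zpow_add, sub_add_cancel]⟩

theorem atY (hb : S_Atb) {c : Cfg ι} (hv : Valid c) {X0 : Set (Fr ι)} {y : Fr ι} (hy : y ∈ c.A)
    {n : ℕ} (h : ExactAt (At c X0) n) : ExactAt (AtY c X0 y) n := by
  have hrep : ∀ t : Set (Fr ι), ∃ i : ℤ, rep (yo y t) = y ^ i • t := fun t =>
    rep_mem (o := yo y t) ⟨t, 0, by simp⟩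
  choose k hk using hrep
  refine h.retract (yo y) rep (fun S _ hS => ⟨S, hS, rfl⟩) ?_ ?_
  · rintro _ _ ⟨U, hU, rfl⟩
    have := (((hb ι c X0).2.2.2 hv).2.2.1 U y hy hU).2 k
    rw [Set.image_image]
    simpa only [hk] using this
  · rintro _ ⟨U, -, rfl⟩ _ ⟨t, -, rfl⟩
    rw [hk, yo_smul]

end JAt

theorem p_At (hg : S_gen) (hY : S_Y) (had : S_adapt) (hdu : S_dual) (hb : S_Atb) : S_At := by
  have hQ : ∀ j, JAt.Q j := fun j => by
    induction j with
    | zero => exact ⟨0, fun _ _ _ _ _ _ _ _ _ n hn => absurd hn (Nat.not_lt_zero n)⟩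
    | succ j ih => exact JAt.step hg hY had hdu hb j ih
  intro j
  obtain ⟨N, hN⟩ := hQ (j + 1)
  refine ⟨N, fun ι _ _ c X0 hv hX hT hr => ?_⟩
  have h : Acyc (At c X0) j := fun n hn => hN ι c X0 hv hX hT hr n (Nat.lt_succ_of_le hn)
  exact ⟨h, fun y hy n hn => JAt.atY hb hv hy (h n hn)⟩

theorem p_x0 (had : S_adapt) (hb : S_Atb) : S_x0 := by
  intro ι _ _ K c X0 U hv hU hT hK h2
  obtain ⟨t0, ht0⟩ : U.Nonempty := Set.nonempty_of_ncard_ne_zero (by omega)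
  have atb := ((hb ι c X0).2.2.2 hv).2.1
  obtain ⟨-, a2, a3⟩ := atb U t0 hU ht0
  have v0 := (a3 hT).1
  obtain ⟨β, hβ⟩ := had ι _ v0
  have hdel : ∀ t ∈ U, ∀ d, Valid ((c.ext t U).del d) := fun t ht d => by
    have v := ((atb U t hU ht).2.2 hT).1
    exact v.mono Set.sdiff_subset subset_rfl subset_rfl fun t' ht' => (v.adj t' ht').1
  by_cases hgood : ∃ s, letter β s ∈ dif t0 U ∧ cls (hl β (s, true)) ∉ K
  · obtain ⟨s, hs, hk⟩ := hgood
    refine ⟨t0, ht0, letter β s, hs, orb (hl β (s, true)), ?_, ?_⟩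
    · have hβ' : Adapted β ((c.ext t0 U).del (letter β s)) :=
        hβ.mono Set.sdiff_subset rfl subset_rfl
      have := hβ'.valid_insert_hl (hdel t0 ht0 _) (S := ∅)
        (by rw [Cfg.add_empty]; exact hdel t0 ht0 _)
        (fun _ h => absurd h (Set.notMem_empty _)) (s := s) (fun h => h.2 rfl)
      rwa [insert_empty_eq] at this
    · rintro _ rfl
      refine ⟨cls_orb_notMem.2 hk, _, mem_orb_self _, one_notMem_hl β _, ?_⟩
      rw [← sl_true]
      exact sep_hl_self β _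
  push Not at hgood
  obtain ⟨g1, hg1⟩ : (dif t0 U).Nonempty := Set.nonempty_of_ncard_ne_zero (by omega)
  obtain ⟨D0, hD0⟩ := hβ.tethers t0 (Set.mem_insert _ _)
  have hA0 : Adj c.ρ t0 := (hU.1 t0 ht0).1
  have hβc : Adapted β c := hβ.mono Set.subset_union_left rfl (Set.subset_insert _ _)
  have free : ∀ s, letter β s ∈ c.A ∪ dif t0 U → ∀ b, ∀ D, ideal β D ∈ sides c.ρ → (s, b) ∉ D :=
    fun s hs b => (hβc.free_opp hv.sys s true b).1 ((hβc.letter_mem_D hv.sys s).1 (v0.dg _ hs))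
  have hD0s : ideal β D0 ∈ sides c.ρ := hD0 ▸ hA0.1
  let D1 : Set (ι × Bool) := {h | h.2 = false ∧ letter β h.1 ∈ dif t0 U}
  have disj1 : ∀ D, ideal β D ∈ sides c.ρ → Disjoint D1 D := fun D hD =>
    Set.disjoint_left.2 fun h hh => free h.1 (Or.inr hh.2) h.2 D hD
  have hin : ∀ s, letter β s ∈ dif t0 U → (s, false) ∈ D0 ∪ D1 := fun s hs => Or.inr ⟨rfl, hs⟩
  have hout : ∀ s, letter β s ∈ c.A ∪ dif t0 U → (s, true) ∉ D0 ∪ D1 := by
    rintro s hs (h | h)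
    · exact free s hs true D0 hD0s h
    · exact absurd h.1 (by simp)
  obtain ⟨s1, rfl⟩ := hβ.letters (Or.inr hg1)
  have hne : (D0 ∪ D1).Nonempty := ⟨_, hin s1 hg1⟩
  have hsph := isSph_ideal β hne
  have vX : Valid (c.add {orb (ideal β (D0 ∪ D1))}) := by
    refine hβc.valid_add_ideal hv hne (fun D' hD' => ?_) (fun s hs => ⟨hout s (Or.inl hs), ?_⟩)
      (fun D' hD' => Or.inr ?_)
    · rcases hA0.2.2 _ hD' (one_notMem_ideal β D') with h | h
      · rw [hD0, ideal_subset_iff] at h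
        exact Or.inr (Or.inr (h.trans Set.subset_union_left))
      · rw [hD0, ideal_disjoint_iff] at h
        exact Or.inl (Set.disjoint_union_left.2 ⟨h.symm, disj1 D' hD'⟩)
    · rintro (h | h)
      · exact free s (Or.inl hs) false D0 hD0s h
      · exact Set.disjoint_left.1 (hU.2 t0 ht0).1 hs h.2
    · have hA' := hv.adj _ hD'
      rcases hA0.eq_or_disjoint hA' with h | h
      · exact absurd (h ▸ (hU.1 t0 ht0).2.symm) (hT _ hD')
      · rw [hD0, ideal_disjoint_iff] at h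
        exact Set.disjoint_union_left.2 ⟨h, disj1 D' hA'.1⟩
  have sepd : sep (ideal β (D0 ∪ D1)) (letter β s1)⁻¹ = {1} := by
    ext k
    rw [← sl_false, mem_sep_ideal]
    simp only [Bool.not_false, hin s1 hg1, hout s1 (Or.inr hg1), and_true, and_false, or_false,
      Set.mem_singleton_iff]
  obtain ⟨b1, b2, b3⟩ := hv.add_iff.1 vX
  refine ⟨letter β s1 • t0, hg1.2, (letter β s1)⁻¹, ⟨inv_ne_one.2 hg1.1, by
    rwa [inv_smul_smul]⟩, orb (ideal β (D0 ∪ D1)), ?_, ?_⟩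
  · refine (hdel _ hg1.2 _).add_iff.2 ⟨b1, ?_, ?_⟩
    · rintro a ⟨ha | ha, had'⟩
      · exact b2 a ha
      · rw [sides_singleton, mem_Dg_orb]
        have hm : a * letter β s1 ∈ dif t0 U :=
          ⟨fun h => had' (eq_inv_of_mul_eq_one_left h), by rw [mul_smul]; exact ha.2⟩
        obtain ⟨s, hs⟩ := hβ.letters (Or.inr hm)
        have ea : a = letter β s * (letter β s1)⁻¹ := by rw [hs, mul_inv_cancel_right]
        rw [← hs] at hm
        rw [ea]
        ext k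
        rw [mem_sep_mul, mem_sep_ideal_letter, sepd]
        simp only [hin s hm, hout s (Or.inr hm), and_true, and_false, false_or,
          Set.mem_singleton_iff, Set.mem_empty_iff_false, iff_false, not_not]
        exact mul_eq_one_iff_eq_inv.symm
    · rintro t (rfl | ht)
      · rw [sides_singleton]
        intro Z hZ h1
        have hZ' := smul_mem_orb (letter β s1)⁻¹ hZ
        have hd : (letter β s1)⁻¹ ∉ (letter β s1)⁻¹ • Z := by
          rw [mem_smul_fr, inv_mul_cancel]; exact h1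
        have goal : (letter β s1)⁻¹ • Z ⊆ t0 ∨ Disjoint ((letter β s1)⁻¹ • Z) t0 := by
          by_cases h1' : 1 ∈ (letter β s1)⁻¹ • Z
          · rcases hsph.dual_unique (one_notMem_ideal β _) sepd hZ'
              (fun h => hd (h.1 h1')) with h | h
            · exact absurd (h ▸ h1') (one_notMem_ideal β _)
            · right
              rw [h, hD0]
              exact Set.disjoint_left.2 fun a ha ha' =>
                ha ((ideal_subset_iff β).2 Set.subset_union_left ha')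
          · rcases mem_orb_ideal β hZ' h1' with h | ⟨h, hh⟩
            · refine absurd ?_ hd
              rw [h, ← sl_false, sl_mem_ideal]
              exact hin s1 hg1
            · rw [hD0]
              rcases FTreeB.hl_subset_or_disjoint β h D0 with h' | h'
              · exact Or.inl (hh.trans h')
              · exact Or.inr (h'.mono_left hh)
        rcases goal with h | h
        · exact Or.inl (Set.subset_smul_set_iff.2 h)
        · right
          refine Set.disjoint_left.2 fun a ha ha' => ?_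
          rw [mem_smul_fr] at ha'
          refine Set.disjoint_left.1 h ?_ ha'
          rwa [mem_smul_fr, inv_inv, mul_inv_cancel_left]
      · exact b3 t ht
  · rintro _ rfl
    refine ⟨cls_orb_notMem.2 fun h => hK ?_, _, mem_orb_self _, one_notMem_ideal β _, sepd⟩
    have c1 : cls (ideal β D1) ∈ K := by
      refine cls_ideal_mem β K fun s hs => hgood s ?_
      by_contra hn
      exact hs ⟨fun h => absurd h.1 (by simp), fun h => absurd h.2 hn⟩
    rw [ideal_union, cls_union (ai_ideal β _) (ai_ideal β _)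
      ((ideal_disjoint_iff β).2 (disj1 D0 hD0s).symm)] at h
    have c0 : cls (ideal β D0) ∈ K := by simpa using K.sub_mem h c1
    obtain ⟨g, hg⟩ := (hU.1 t0 ht0).2
    rwa [← hD0, hg, cls_smul] at c0

end Pool.Agent.Lib.MP_49df17_al
end

-- part Pool.Agent.Lib.MP_49df17_al.B
section

/-!
Complexes of bases of the base group relative to the fixed elements.
-/

namespace Pool.Agent.Lib.MP_49df17_al

open Matrix
open scoped Pointwise

namespace JB

variable {ι : Type}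

theorem notMem_sup_spn {p : ℕ} [Fact p.Prime] {U : Submodule (ZMod p) (ι → ZMod p)}
    {ψ : ι → ZMod p} (hψ : ψ ∉ U) {τ : Set (Orb ι)} (hτ : τ.Finite)
    (hi : Indep p (U ⊔ Submodule.span (ZMod p) {ψ}) τ) : ψ ∉ U ⊔ spn p τ := by
  induction τ, hτ using Set.Finite.induction_on with
  | empty => rwa [spn_empty, sup_bot_eq]
  | @insert o τ ho _ ih =>
    intro hm
    have h1 : spn p (insert o τ) = Submodule.span (ZMod p) {vo p o} ⊔ spn p τ := by
      rw [spn, spn, Set.image_insert_eq, Submodule.span_insert]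
    rw [h1, sup_comm (Submodule.span (ZMod p) {vo p o}), ← sup_assoc] at hm
    obtain ⟨u, hu, v, hv, e⟩ := Submodule.mem_sup.1 hm
    obtain ⟨a, rfl⟩ := Submodule.mem_span_singleton.1 hv
    by_cases ha : a = 0
    · rw [ha, zero_smul, add_zero] at e
      exact ih (hi.mono le_rfl (Set.subset_insert _ _)) (e ▸ hu)
    · refine hi o (Set.mem_insert _ _) ?_
      have h2 : vo p o = a⁻¹ • (ψ - u) := by
        rw [← e, add_sub_cancel_left, smul_smul, inv_mul_cancel₀ ha, one_smul]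
      rw [h2, Set.insert_sdiff_self_of_notMem ho]
      refine Submodule.smul_mem _ _ (Submodule.sub_mem _ ?_ ?_)
      · exact Submodule.mem_sup_left
          (Submodule.mem_sup_right (Submodule.mem_span_singleton_self ψ))
      · exact (sup_le_sup_right le_sup_left _ : U ⊔ spn p τ ≤ _) hu

theorem D_add_le (c : Cfg ι) {τ τ' : Set (Orb ι)} (h : τ' ⊆ τ) : (c.add τ).D ≤ (c.add τ').D :=
  Dg_anti (sides_mono (Set.union_subset_union_right _ h))

theorem D_add_le' (c : Cfg ι) (τ : Set (Orb ι)) : (c.add τ).D ≤ c.D :=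
  Dg_anti (sides_mono Set.subset_union_left)

theorem mem_D_add {c : Cfg ι} {τ : Set (Orb ι)} {g : Fr ι} :
    g ∈ (c.add τ).D ↔ g ∈ c.D ∧ g ∈ Dg (sides τ) := by
  change g ∈ Dg (sides (c.ρ ∪ τ)) ↔ _
  rw [sides_union, Dg_union]; rfl

theorem bx_down (Gd : Set (Fr ι)) (c : Cfg ι) : Down (Bx Gd c) := fun _ _ h hT =>
  ⟨fun b hb => h.1 b (hT hb), h.2.1.mono_right hT, h.2.2.mono (Set.union_subset_union_right _ hT)⟩

theorem valid_addA {Gd : Set (Fr ι)} {c : Cfg ι} (hv : Valid c) {σ : Set (Fr ι)}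
    (h : Bx Gd c σ) : Valid (c.addA σ) := hv.addA_iff.2 ⟨h.2.2, fun b hb => (h.1 b hb).1⟩

variable [Fintype ι] [DecidableEq ι]

/-- The subspace used for the helper spheres. -/
noncomputable def WW (p : ℕ) (ψ : ι → ZMod p) (c : Cfg ι) : Submodule (ZMod p) (ι → ZMod p) :=
  Ann p c.D ⊔ Submodule.span (ZMod p) {ψ}

/-- The relation between elements and helper spheres. -/
def RR (p : ℕ) (ψ : ι → ZMod p) (c : Cfg ι) (σ : Set (Fr ι)) (τ : Set (Orb ι)) : Prop :=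
  Yx p (WW p ψ c) c τ ∧ Bx (Gp p ψ) (c.add τ) σ

theorem rr_down {p : ℕ} {ψ : ι → ZMod p} {c : Cfg ι} (hv : Valid c) : Down2 (RR p ψ c) := by
  rintro σ σ' τ τ' ⟨h1, h2⟩ hσ hτ
  refine ⟨⟨hv.add_mono h1.1 hτ, h1.2.mono le_rfl hτ⟩, fun b hb => ?_, h2.2.1.mono_right hσ,
    h2.2.2.mono (Set.union_subset_union_right _ hσ)⟩
  exact ⟨D_add_le c hτ (h2.1 b (hσ hb)).1, (h2.1 b (hσ hb)).2⟩

theorem rr_row {p : ℕ} {ψ : ι → ZMod p} {c : Cfg ι} (hv : Valid c) {σ : Set (Fr ι)}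
    (h : Bx (Gp p ψ) c σ) (τ : Set (Orb ι)) :
    Yx p (WW p ψ c) (c.addA σ) τ ↔ RR p ψ c σ τ := by
  have hv' := valid_addA hv h
  constructor
  · rintro ⟨h1, h2⟩
    obtain ⟨h3, h4, h5⟩ := hv'.add_iff.1 h1
    refine ⟨⟨hv.add_iff.2 ⟨h3, fun a ha => h4 a (Or.inl ha), h5⟩, h2⟩, fun b hb => ?_, h.2.1,
      h.2.2⟩
    exact ⟨mem_D_add.2 ⟨(h.1 b hb).1, h4 b (Or.inr hb)⟩, (h.1 b hb).2⟩
  · rintro ⟨⟨h1, h2⟩, h6⟩
    obtain ⟨h3, h4, h5⟩ := hv.add_iff.1 h1
    refine ⟨hv'.add_iff.2 ⟨h3, ?_, h5⟩, h2⟩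
    rintro a (ha | ha)
    · exact h4 a ha
    · exact (mem_D_add.1 (h6.1 a ha).1).2

theorem col (h3 : S_adapt) {p : ℕ} [Fact p.Prime] {ψ : ι → ZMod p} {c : Cfg ι}
    (hψ : ψ = 0 ∨ ψ ∉ Ann p c.D) {τ : Set (Orb ι)} (hY : Yx p (WW p ψ c) c τ) :
    (ψ = 0 ∨ ψ ∉ Ann p (c.add τ).D) ∧ rkD (c.add τ).D + τ.ncard = rkD c.D ∧
      ∀ o ∈ τ, ∃ x ∈ c.D, ∃ X ∈ o, IsSph X ∧ o = orb X ∧ sep X x = {1} := by
  obtain ⟨β, hβ⟩ := h3 ι (c.add τ) hY.1
  have hi : Indep p (Ann p (Dg (sides c.ρ))) τ :=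
    hY.2.mono (le_sup_left.trans le_sup_left) le_rfl
  obtain ⟨had, hb, -, hr, hA⟩ := hβ.indep (ρ := c.ρ) (S := τ) hY.1.sys rfl hi
  refine ⟨hψ.imp_right fun h => ?_, hr, fun o ho => ?_⟩
  · rw [hA]
    exact notMem_sup_spn h (hY.1.sys.1.subset Set.subset_union_right) (hY.2.mono le_sup_left le_rfl)
  · obtain ⟨s, rfl, hf⟩ := hb o ho
    refine ⟨letter β s, (had.letter_mem_D (hY.1.sys.mono Set.subset_union_left) s).2 hf,
      hl β (s, true), mem_orb_self _, isSph_hl β _, rfl, ?_⟩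
    rw [← sl_true]; exact sep_hl_self β _

theorem cone (h3 : S_adapt) (h4 : S_dual) {p : ℕ} [Fact p.Prime] {ψ : ι → ZMod p} {c : Cfg ι}
    (hψ : ψ = 0 ∨ ψ ∉ Ann p c.D) (w : Orb ι) (j : ℕ) :
    Zc (fun σ => RR p ψ c σ {w}) j ≤ Bc (Bx (Gp p ψ) c) j := by
  by_cases hY : Yx p (WW p ψ c) c {w}
  swap
  · exact Zc_le_Bc_of_cone 1 (fun S _ h => (hY h.1).elim) j
  obtain ⟨h5, -, h6⟩ := col h3 hψ hY
  obtain ⟨x, hx, X, -, hX, rfl, hs⟩ := h6 w rfl
  have hsep : ∀ g ∈ (c.add {orb X}).D, sep X g = ∅ := fun g hg => by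
    have := (mem_D_add.1 hg).2
    rwa [sides_singleton, mem_Dg_orb] at this
  obtain ⟨d, hd, hG, hd'⟩ : ∃ d ∈ c.D, d ∈ Gp p ψ ∧ sep X d = {1} := by
    by_cases hG : x ∈ Gp p ψ
    · exact ⟨x, hx, hG, hs⟩
    · have h7 : ¬ (ψ = 0 ∨ ψ ⬝ᵥ abp p x ≠ 0) := hG
      push Not at h7
      have h8 := h5.resolve_left h7.1
      rw [mem_Ann] at h8
      push Not at h8
      obtain ⟨e, he, he'⟩ := h8
      refine ⟨x * e, mul_mem hx (D_add_le' c _ he), Or.inr ?_, ?_⟩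
      · rwa [abp_mul, dotProduct_add, h7.2, zero_add]
      · rw [sep_mul_right (hsep e he), hs]
  refine Zc_le_Bc_of_cone d (fun S _ h => ?_) j
  obtain ⟨h7, h8⟩ := h4 ι (c.A ∪ S) X d 1 h.2.2.2 hX (by
    rintro a (ha | ha)
    · exact hsep a (hY.1.dg a ha)
    · exact hsep a (h.2.1 a ha).1) hd'
  refine ⟨?_, ?_, ?_⟩
  · rintro b (rfl | hb)
    · exact ⟨hd, hG⟩
    · exact ⟨D_add_le' c _ (h.2.1 b hb).1, (h.2.1 b hb).2⟩
  · exact Set.disjoint_insert_right.2 ⟨fun h9 => h8 (Or.inl h9), h.2.2.1⟩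
  · rwa [Set.union_insert]

theorem finrank_WW (h3 : S_adapt) {p : ℕ} [Fact p.Prime] (ψ : ι → ZMod p) {c : Cfg ι}
    (hv : Valid c) :
    Module.finrank (ZMod p) (WW p ψ c ⊔ spn p c.ρ : Submodule (ZMod p) (ι → ZMod p)) + rkD c.D ≤
      Fintype.card ι + 1 := by
  obtain ⟨β, hβ⟩ := h3 ι c hv
  have h1 := hβ.finrank_Ann hv.sys p
  have h2 : WW p ψ c ⊔ spn p c.ρ = WW p ψ c :=
    sup_eq_left.2 ((spn_le_Ann p hv.sys).trans le_sup_left)
  have h4 := Submodule.finrank_add_le_finrank_add_finrank (Ann p c.D)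
    (Submodule.span (ZMod p) {ψ})
  have h5 : Module.finrank (ZMod p) (Submodule.span (ZMod p) {ψ}) ≤ 1 := by
    simpa using finrank_span_le_card (R := ZMod p) ({ψ} : Set (ι → ZMod p))
  rw [h2, WW]
  omega

end JB

open JB in
theorem p_B (h1 : S_gen) (h2 : S_Y) (h3 : S_adapt) (h4 : S_dual) : S_B := by
  have key : ∀ j, ∃ N, ∀ (ι : Type) [Fintype ι] [DecidableEq ι] (p : ℕ) [Fact p.Prime]
      (ψ : ι → ZMod p) (c : Cfg ι), Valid c → (ψ = 0 ∨ ψ ∉ Ann p c.D) →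
      c.A.ncard + N ≤ rkD c.D → ∀ n < j, ExactAt (Bx (Gp p ψ) c) n := by
    intro j
    induction j with
    | zero => exact ⟨0, fun _ _ _ _ _ _ _ _ _ _ n hn => absurd hn (Nat.not_lt_zero n)⟩
    | succ j ih =>
      obtain ⟨N, hN⟩ := ih
      obtain ⟨M, hM⟩ := h2 j
      refine ⟨N + M + j + 1, fun ι _ _ p _ ψ c hv hψ hc n hn => ?_⟩
      rcases Nat.lt_succ_iff_lt_or_eq.1 hn with hn | rfl
      · exact hN ι p ψ c hv hψ (by omega) n hn
      have h5 := h1 (Fr ι) (Orb ι) (RR p ψ c) (RR p ψ c) n (rr_down hv) (rr_down hv)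
        (fun _ _ _ _ h => h) (fun σ _ hσ h => ?_) (fun τ _ _ hτ h m hm => ?_)
      · refine le_trans (Zc_mono fun l h => ?_) (h5.trans (iSup_le fun w => cone h3 h4 hψ w n))
        refine ⟨⟨?_, fun o ho => ho.elim⟩, ?_⟩
        · rwa [Cfg.add_empty]
        · rwa [Cfg.add_empty]
      · have h6 : Bx (Gp p ψ) c σ := by
          have := h.2
          rwa [Cfg.add_empty] at this
        refine (hM ι p (WW p ψ c) (c.addA σ) (valid_addA hv h6) ?_).congr
          fun τ _ => rr_row hv h6 τ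
        have h7 := finrank_WW h3 ψ hv
        have h8 : (c.addA σ).A.ncard ≤ c.A.ncard + σ.ncard := Set.ncard_union_le _ _
        change _ + Module.finrank (ZMod p)
          (WW p ψ c ⊔ spn p c.ρ : Submodule (ZMod p) (ι → ZMod p)) + M ≤ _
        omega
      · obtain ⟨h6, h7, -⟩ := col h3 hψ h.1
        refine (hN ι p ψ (c.add τ) h.1.1 h6 ?_ m hm).congr
          fun σ _ => ⟨fun h8 => ⟨h.1, h8⟩, fun h8 => h8.2⟩
        change c.A.ncard + N ≤ _
        omega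
  intro j
  obtain ⟨N, hN⟩ := key (j + 1)
  exact ⟨N, fun ι _ _ p _ ψ c hv hψ hc n hn => hN ι p ψ c hv hψ hc n (Nat.lt_succ_of_le hn)⟩

namespace JB

variable {ι : Type} [Fintype ι] [DecidableEq ι]

/-- The elements of bounded height. -/
def Gm (ψ : ι → ℤ) (m : ℕ) : Set (Fr ι) := {b | (ψ ⬝ᵥ abv b).natAbs ≤ m}

/-- The elements of a given height. -/
def Bd (ψ : ι → ℤ) (m : ℕ) : Set (Fr ι) := {b | (ψ ⬝ᵥ abv b).natAbs = m}

/-- Reduction of the height by a power of `b0`. -/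
noncomputable def red (ψ : ι → ℤ) (m : ℕ) (b0 b : Fr ι) : Fr ι :=
  if (ψ ⬝ᵥ abv b).natAbs ≤ m then b else b * b0 ^ (-(ψ ⬝ᵥ abv b / ψ ⬝ᵥ abv b0))

theorem red_mem {ψ : ι → ℤ} {m : ℕ} {b0 : Fr ι} (h : b0 ∈ Bd ψ (m + 1)) (b : Fr ι) :
    red ψ m b0 b ∈ Gm ψ m := by
  unfold red
  split_ifs with h1
  · exact h1
  · have h2 : (ψ ⬝ᵥ abv b0).natAbs = m + 1 := h
    have h3 : ψ ⬝ᵥ abv b0 ≠ 0 := fun e => by rw [e] at h2; simp at h2
    have h4 : ψ ⬝ᵥ abv (b * b0 ^ (-(ψ ⬝ᵥ abv b / ψ ⬝ᵥ abv b0))) =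
        ψ ⬝ᵥ abv b % ψ ⬝ᵥ abv b0 := by
      rw [abv_mul, abv_zpow, dotProduct_add, dotProduct_smul, Int.emod_def, smul_eq_mul]
      ring
    change (ψ ⬝ᵥ abv _).natAbs ≤ m
    rw [h4]
    have h5 := Int.emod_nonneg (ψ ⬝ᵥ abv b) h3
    have h6 := Int.emod_lt_abs (ψ ⬝ᵥ abv b) h3
    rw [← Int.natCast_natAbs, h2] at h6
    omega

theorem link_exact {ψ : ι → ℤ} {m : ℕ} {c : Cfg ι} {σ : Set (Fr ι)} (hne : σ.Nonempty)
    (hB : σ ⊆ Bd ψ (m + 1)) (hX : Bx (Gm ψ (m + 1)) c σ) {n : ℕ}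
    (h : ExactAt (Bx (Gp 2 0) (c.addA σ)) n) :
    ExactAt (FLk (Bx (Gm ψ (m + 1)) c) (Bd ψ (m + 1)) σ) n := by
  obtain ⟨b0, hb0⟩ := hne
  refine ExactAt.retract (red ψ m b0) id (fun S _ hS => ?_) (fun S _ hS => ?_)
    (fun S hS w hw => ?_) h
  · have hcl : b0 ∈ Subgroup.closure (c.A ∪ σ) := Subgroup.subset_closure (Or.inr hb0)
    obtain ⟨h1, h2, -⟩ := PB.nielsen (A := c.A ∪ σ) (B := S) hS.2.2 hS.2.1 (red ψ m b0)
      fun b _ => by
        unfold red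
        split_ifs
        · exact ⟨1, one_mem _, 1, one_mem _, Or.inl (by simp)⟩
        · exact ⟨1, one_mem _, _, zpow_mem hcl _, Or.inl (by rw [one_mul])⟩
    refine ⟨?_, ?_, ?_, ?_⟩
    · rintro _ ⟨b, -, rfl⟩ h3
      have h4 : _ ≤ m := red_mem (hB hb0) b
      have h5 : _ = m + 1 := h3
      omega
    · rintro b (hb | ⟨b, hb, rfl⟩)
      · exact hX.1 b hb
      · refine ⟨?_, (red_mem (hB hb0) b).trans (Nat.le_succ m)⟩
        have h3 : b ∈ c.D := (hS.1 b hb).1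
        unfold red
        split_ifs
        · exact h3
        · exact mul_mem h3 (zpow_mem (hX.1 b0 hb0).1 _)
    · exact Set.disjoint_union_right.2 ⟨hX.2.1, h2.mono_left Set.subset_union_left⟩
    · rwa [← Set.union_assoc]
  · rw [Set.image_id]
    refine ⟨fun b hb => ⟨(hS.2.1 b (Or.inr hb)).1, Or.inl rfl⟩, ?_, ?_⟩
    · refine Set.disjoint_union_left.2 ⟨hS.2.2.1.mono_right Set.subset_union_right, ?_⟩
      exact Set.disjoint_left.2 fun b h1 h2 => hS.1 b h2 (hB h1)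
    · have := hS.2.2.2
      rwa [← Set.union_assoc] at this
  · have h1 : _ ≤ m + 1 := (hS.2.1 w (Or.inr hw)).2
    have h2 : ¬ _ = m + 1 := hS.1 w hw
    exact if_pos (by change (ψ ⬝ᵥ abv w).natAbs ≤ m; omega)

theorem flk_iff {ψ : ι → ℤ} {m : ℕ} {c : Cfg ι} (S : Set (Fr ι)) :
    FLk (Bx (Gm ψ (m + 1)) c) (Bd ψ (m + 1)) ∅ S ↔ Bx (Gm ψ m) c S := by
  unfold FLk
  rw [Set.empty_union]
  constructor
  · rintro ⟨h1, h2, h3⟩
    refine ⟨fun b hb => ⟨(h2 b hb).1, ?_⟩, h3⟩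
    have h4 : _ ≤ m + 1 := (h2 b hb).2
    have h5 : ¬ _ = m + 1 := h1 b hb
    change (ψ ⬝ᵥ abv b).natAbs ≤ m
    omega
  · rintro ⟨h2, h3⟩
    refine ⟨fun b hb h5 => ?_, fun b hb => ⟨(h2 b hb).1, ?_⟩, h3⟩
    · have h4 : _ ≤ m := (h2 b hb).2
      have h6 : _ = m + 1 := h5
      omega
    · exact le_trans (h2 b hb).2 (Nat.le_succ m)

theorem exists_bound (ψ : ι → ℤ) {c : Cfg ι} {n : ℕ} {y : List (Fr ι) →₀ ℚ}
    (hy : y ∈ Ch (Bx (Gp 2 0) c) n) : ∃ m, y ∈ Ch (Bx (Gm ψ m) c) n := by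
  have hf : (⋃ l ∈ (y.support : Set (List (Fr ι))), vs l).Finite :=
    y.support.finite_toSet.biUnion fun l _ => vs_finite l
  obtain ⟨m, hm⟩ := (hf.image fun b => (ψ ⬝ᵥ abv b).natAbs).bddAbove
  refine ⟨m, mem_Ch.2 fun l hl => ?_⟩
  obtain ⟨h1, h2, h3⟩ := mem_Ch.1 hy l hl
  exact ⟨h1, fun b hb => ⟨(h2 b hb).1, hm ⟨b, Set.mem_biUnion hl hb, rfl⟩⟩, h3⟩

end JB

open JB in
theorem p_B0 (h1 : S_full) (h2 : S_B) : S_B0 := by
  intro j
  obtain ⟨N, hN⟩ := h2 j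
  refine ⟨N + j + 1, fun ι _ _ ψ c hv hc n hn z hz => ?_⟩
  have h0 : ∀ S, Bx (G0 ψ) c S ↔ Bx (Gm ψ 0) c S := fun S => by
    have : G0 ψ = Gm ψ 0 := by
      ext b; simp [G0, Gm]
    rw [this]
  have hz0 : ∀ m, z ∈ Zc (Bx (Gm ψ m) c) n := fun m =>
    Zc_mono (fun l h => ⟨fun b hb => ⟨(h.1 b hb).1,
      le_trans (((h0 _).1 h).1 b hb).2 (Nat.zero_le m)⟩, h.2⟩) hz
  obtain ⟨y, hy, e⟩ := hN ι 2 0 c hv (Or.inl rfl) (by omega) n hn
    (Zc_mono (fun l h => ⟨fun b hb => ⟨(h.1 b hb).1, Or.inl rfl⟩, h.2⟩) hz)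
  obtain ⟨m, hm⟩ := exists_bound ψ hy
  have h3 : z ∈ Bc (Bx (Gm ψ m) c) n := ⟨y, hm, e⟩
  clear hm
  induction m with
  | zero => exact Bc_mono (fun l h => (h0 _).2 h) h3
  | succ m ih =>
    refine ih (Bc_mono (fun l h => (flk_iff _).1 h)
      ((h1 (Fr ι) (Bx (Gm ψ (m + 1)) c) (Bd ψ (m + 1)) (bx_down _ _) n).1
        (fun σ _ hne hB hX hσ => link_exact hne hB hX ?_)
        ⟨Zc_mono (fun l h => (flk_iff _).2 h) (hz0 m), h3⟩))
    refine hN ι 2 0 (c.addA σ) (valid_addA hv hX) (Or.inl rfl) ?_ _ (by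
      have := (Set.ncard_pos ‹_›).2 hne
      omega)
    have h4 : (c.addA σ).A.ncard ≤ c.A.ncard + σ.ncard := Set.ncard_union_le _ _
    change _ ≤ rkD c.D
    omega

end Pool.Agent.Lib.MP_49df17_al
end

-- part Pool.Agent.Lib.MP_49df17_al.Flow
section

/-!
The surgery flow on systems of spheres and its first applications.
-/

set_option linter.unusedSectionVars false

namespace Pool.Agent.Lib.MP_49df17_al

open scoped Pointwise

namespace JFlow

variable {ι : Type}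

/-! ### Nested sets -/

theorem sub_or {P A E : Set (Fr ι)} (h : ¬ Nest P E) (hA : A ⊆ P) (hn : Nest A E) :
    A ⊆ E ∨ A ⊆ Eᶜ := by
  rcases hn with h1 | h1 | h1 | h1
  · exact Or.inr h1.subset_compl_right
  · exact Or.inl h1
  · exact absurd (Or.inr (Or.inr (Or.inl (h1.trans hA)))) h
  · refine absurd (Or.inr (Or.inr (Or.inr ?_))) h
    exact Set.eq_univ_of_univ_subset (h1.ge.trans (Set.union_subset_union_left _ hA))

theorem cover {P A E F : Set (Fr ι)} (h1 : ¬ Nest P E) (h2 : ¬ Nest A F) (h3 : Aᶜ ⊆ E)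
    (h4 : Pᶜ ⊆ F) (h5 : Nest E F) (x : Fr ι) : x ∈ E ∨ x ∈ F := by
  obtain ⟨-, -, ⟨a, ha⟩, ⟨b, hb⟩⟩ := not_nest_iff.1 h1
  obtain ⟨-, -, -, ⟨c, hc⟩⟩ := not_nest_iff.1 h2
  rcases h5 with h | h | h | h
  · exact absurd (h4 ha.1) (Set.disjoint_left.1 h ha.2)
  · exact absurd (h (h3 hc.1)) hc.2
  · exact absurd (h (h4 hb.1)) hb.2
  · exact (Set.eq_univ_iff_forall.1 h x)

theorem nest_cover {P A E F : Set (Fr ι)} (h1 : ¬ Nest P E) (h2 : ¬ Nest A F)
    (hu : A ∪ P = Set.univ) (h3 : Nest A E) (h4 : Nest P F) (h5 : Nest E F) :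
    Nest (A ∩ F) (P ∩ E) := by
  have hu' : ∀ x, x ∈ A ∨ x ∈ P := Set.eq_univ_iff_forall.1 hu
  have hA : Aᶜ ⊆ P := fun x hx => (hu' x).resolve_left hx
  have hP : Pᶜ ⊆ A := fun x hx => (hu' x).resolve_right hx
  have h1' : ¬ Nest P Eᶜ := fun h => h1 (compl_compl E ▸ h.compl_right)
  have h2' : ¬ Nest A Fᶜ := fun h => h2 (compl_compl F ▸ h.compl_right)
  rcases sub_or h1 hA h3.compl_left with a | a <;> rcases sub_or h2 hP h4.compl_left with b | b
  · have c := cover h1 h2 a b h5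
    refine Or.inr (Or.inr (Or.inr (Set.eq_univ_iff_forall.2 fun x => ?_)))
    by_cases hx : x ∈ P
    · by_cases he : x ∈ E
      · exact Or.inr ⟨hx, he⟩
      · exact Or.inl ⟨by_contra fun h => he (a h), (c x).resolve_left he⟩
    · exact Or.inl ⟨hP hx, b hx⟩
  · have c := cover h1 h2' a b h5.compl_right
    exact Or.inr (Or.inl fun x hx =>
      ⟨by_contra fun h => b h hx.2, (c x).resolve_right fun h => h hx.2⟩)
  · have c := cover h1' h2 a b h5.compl_left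
    exact Or.inr (Or.inr (Or.inl fun x hx =>
      ⟨by_contra fun h => a h hx.2, (c x).resolve_left fun h => h hx.2⟩))
  · have c := cover h1' h2' a b h5.compl_left.compl_right
    exact Or.inl (Set.disjoint_left.2 fun x hx hy => (c x).elim (fun h => h hy.2) fun h => h hx.2)

/-- The two sides of a set. -/
def Sd (E E' : Set (Fr ι)) : Prop := E' = E ∨ E' = Eᶜ

theorem Sd.nest_iff {E E' Q : Set (Fr ι)} (h : Sd E E') : Nest Q E' ↔ Nest Q E := by
  rcases h with rfl | rfl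
  · rfl
  · exact ⟨fun h => compl_compl E ▸ h.compl_right, Nest.compl_right⟩

theorem Sd.smul {E E' : Set (Fr ι)} (h : Sd E E') (a : Fr ι) : Sd (a • E) (a • E') := by
  rcases h with rfl | rfl
  · exact Or.inl rfl
  · exact Or.inr (smul_compl_fr a E)

theorem Sd.mem_orb {E E' : Set (Fr ι)} (h : Sd E E') : E' ∈ orb E := by
  rcases h with rfl | rfl
  · exact mem_orb_self _
  · exact compl_mem_orb (mem_orb_self _)

/-- `P` is minimal among the members of the family that miss `g` and cross `E`. -/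
structure Mn (𝓢 : Orb ι) (g : Fr ι) (E P : Set (Fr ι)) : Prop where
  cl : ∀ Q ∈ 𝓢, ∀ Q' ∈ orb Q, Q' ∈ 𝓢
  mem : P ∈ 𝓢
  sph : IsSph P
  sphE : IsSph E
  miss : g ∉ P
  cross : ¬ Nest P E
  min : ∀ Q ∈ 𝓢, ¬ Nest Q E → Q ⊆ P → Q = P

section Mn

variable {𝓢 : Orb ι} {g : Fr ι} {E P : Set (Fr ι)}

theorem Mn.corner (h : Mn 𝓢 g E P) {E' Q : Set (Fr ι)} (hE : Sd E E') (hQ : Q ∈ 𝓢)
    (hn : Nest Q P) : Nest Q (P ∩ E') := by
  by_cases h1 : Nest Q E
  · exact hn.corner (hE.nest_iff.2 h1) fun h' => h.cross (hE.nest_iff.1 h')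
  rcases hn with h2 | h2 | h2 | h2
  · exact Or.inl (h2.mono_right Set.inter_subset_left)
  · exact Or.inr (Or.inr (Or.inl (h.min Q hQ h1 h2 ▸ Set.inter_subset_left)))
  · exact Or.inr (Or.inr (Or.inl (Set.inter_subset_left.trans h2)))
  · have h3 : Qᶜ = P := h.min Qᶜ (h.cl Q hQ _ (compl_mem_orb (mem_orb_self Q)))
      (fun h' => h1 (compl_compl Q ▸ h'.compl_left))
      fun x hx => (Set.eq_univ_iff_forall.1 h2 x).resolve_left hx
    exact Or.inl (Set.disjoint_left.2 fun x hx hy => (h3 ▸ hy.1 : x ∈ Qᶜ) hx)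

theorem Mn.sub (h : Mn 𝓢 g E P) {E' E'' : Set (Fr ι)} (h1 : Sd E E') (h2 : Sd E E'') {a : Fr ι}
    (ha : a • P ⊆ P) : Nest (a • (P ∩ E'')) (P ∩ E') := by
  have hs : a • (P ∩ E'') ⊆ a • P := Set.smul_set_mono Set.inter_subset_left
  by_cases hn : Nest (a • P) E
  · rcases sub_or (fun h' => h.cross (h1.nest_iff.1 h')) ha (h1.nest_iff.2 hn) with e | e
    · exact Or.inr (Or.inl fun x hx => ⟨ha (hs hx), e (hs hx)⟩)
    · exact Or.inl (Set.disjoint_left.2 fun x hx hy => e (hs hx) hy.2)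
  · have e := h.sph.eq_one (h.min _ (h.cl P h.mem _ (smul_mem_orb a (mem_orb_self P))) hn ha)
    rw [e, one_smul]
    rcases h1 with rfl | rfl <;> rcases h2 with rfl | rfl
    · exact Nest.refl _
    · exact Or.inl (Set.disjoint_left.2 fun x hx hy => hx.2 hy.2)
    · exact Or.inl (Set.disjoint_left.2 fun x hx hy => hy.2 hx.2)
    · exact Nest.refl _

theorem Mn.nest_of_cover (h : Mn 𝓢 g E P) {a : Fr ι} (ha : a • P ∪ P = Set.univ) :
    Nest (a • P) E := by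
  by_contra hn
  have h3 : (a • P)ᶜ = P :=
    h.min _ (h.cl P h.mem _ (compl_mem_orb (smul_mem_orb a (mem_orb_self P))))
      (fun h' => hn (compl_compl (a • P) ▸ h'.compl_left))
      fun x hx => (Set.eq_univ_iff_forall.1 ha x).resolve_left hx
  exact h.sph.not_tr_compl (g := a) (eq_compl_comm.1 h3.symm)

theorem Mn.nest_tr (h : Mn 𝓢 g E P) {E' E'' : Set (Fr ι)} (h1 : Sd E E') (h2 : Sd E E'')
    (a : Fr ι) : Nest (a • (P ∩ E'')) (P ∩ E') := by
  rcases h.sph.2.2.2 _ (smul_mem_orb a (mem_orb_self P)) _ (mem_orb_self P) with e | e | e | e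
  · exact Or.inl (e.mono (Set.smul_set_mono Set.inter_subset_left) Set.inter_subset_left)
  · exact h.sub h1 h2 e
  · have := (nest_smul a).2 (h.sub h2 h1 (a := a⁻¹) (Set.subset_smul_set_iff.1 e))
    rw [smul_inv_smul] at this
    exact this.symm
  · have e' : a⁻¹ • P ∪ P = Set.univ := by
      have := congrArg (fun S : Set (Fr ι) => a⁻¹ • S) e
      simp only [Set.smul_set_union, inv_smul_smul, Set.smul_set_univ] at this
      rwa [Set.union_comm]
    have n1 := (nest_smul a).2 (h.nest_of_cover e')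
    rw [smul_inv_smul] at n1
    rw [Set.smul_set_inter]
    exact nest_cover (fun h' => h.cross (h1.nest_iff.1 h'))
      (fun h' => h.cross (h2.nest_iff.1 ((nest_smul a).1 h'))) e
      (h1.nest_iff.2 (h.nest_of_cover e)) ((h2.smul a).nest_iff.2 n1)
      (h.sphE.2.2.2 _ h1.mem_orb _ (smul_mem_orb a h2.mem_orb))

theorem Mn.nest_side (h : Mn 𝓢 g E P) {E' E'' : Set (Fr ι)} (h1 : Sd E E') (h2 : Sd E E'') :
    ∀ Q ∈ orb (P ∩ E''), Nest Q (P ∩ E') := by
  rintro Q ⟨a, rfl | rfl⟩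
  · exact h.nest_tr h1 h2 a
  · rw [smul_compl_fr]
    exact (h.nest_tr h1 h2 a).compl_left

theorem Mn.isSph (h : Mn 𝓢 g E P) {E' : Set (Fr ι)} (h1 : Sd E E') : IsSph (P ∩ E') :=
  ⟨(not_nest_iff.1 fun h' => h.cross (h1.nest_iff.1 h')).1, ⟨g, fun hg => h.miss hg.1⟩,
    h.sph.2.2.1.inter (h.sphE.2.2.1.of_mem_orb h1.mem_orb),
    nest_orb (h.nest_side h1 h1)⟩

end Mn

/-! ### The complexity -/

variable [Fintype ι] [DecidableEq ι] (β : Au ι)

/-- The basis sides crossed by a set. -/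
def crs (P : Set (Fr ι)) : Set (Fr ι × (ι × Bool)) := {x | ¬ Nest P (x.1 • hl β x.2)}

theorem ncard_crs_smul (a : Fr ι) (P : Set (Fr ι)) : (crs β (a • P)).ncard = (crs β P).ncard := by
  refine Set.ncard_congr (fun x _ => (a⁻¹ * x.1, x.2)) (fun x hx h => hx ?_)
    (fun x y _ _ h => ?_) fun x hx => ⟨(a * x.1, x.2), fun h => hx ?_, by simp⟩
  · have := (nest_smul a).2 h
    rwa [smul_smul, mul_inv_cancel_left] at this
  · simp only [Prod.mk.injEq, mul_right_inj] at h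
    exact Prod.ext h.1 h.2
  · rw [mul_smul] at h
    exact (nest_smul a).1 h

theorem crs_compl (P : Set (Fr ι)) : crs β Pᶜ = crs β P :=
  Set.ext fun _ => not_congr ⟨fun h => compl_compl P ▸ h.compl_left, Nest.compl_left⟩

/-- The weight of a sphere. -/
noncomputable def wgt (o : Orb ι) : ℕ := 3 ^ (crs β (rep o)).ncard

theorem wgt_orb (P : Set (Fr ι)) : wgt β (orb P) = 3 ^ (crs β P).ncard := by
  obtain ⟨a, e | e⟩ := rep_mem (o := orb P) ⟨P, mem_orb_self P⟩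
  · rw [wgt, e, ncard_crs_smul]
  · rw [wgt, e, ncard_crs_smul, crs_compl]

theorem crs_lt {P E' : Set (Fr ι)} {g : Fr ι} {k : ι × Bool} (hP : AI P)
    (hx : ¬ Nest P (g • hl β k)) (hE : Sd (g • hl β k) E') :
    (crs β (P ∩ E')).ncard < (crs β P).ncard := by
  refine Set.ncard_lt_ncard ⟨fun x hx' h => hx' ?_, fun h => h (a := (g, k)) hx ?_⟩
    (AI.finite_cross β hP)
  · have hc : Compat β E' := compat_of_mem_orb_ideal β (D := {k})
      (orb_eq_of_mem (smul_mem_orb g (mem_orb_self (hl β k))) ▸ hE.mem_orb)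
    exact (h.symm.corner (hc x.1 x.2).symm fun h' => hx (hE.nest_iff.1 h')).symm
  · exact hE.nest_iff.1 (Or.inr (Or.inl Set.inter_subset_right))

/-- The complexity of a finite family of spheres. -/
noncomputable def mu (O : Set (Orb ι)) : ℕ := ∑ᶠ o ∈ O, wgt β o

theorem mu_lt {O O' : Set (Orb ι)} (hO : O.Finite) {o o₁ o₂ : Orb ι} (ho : o ∈ O)
    (hs : O' ⊆ (O \ {o}) ∪ {o₁, o₂}) (hw : wgt β o₁ + wgt β o₂ < wgt β o) :
    mu β O' < mu β O := by
  classical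
  have hO' : O'.Finite := (hO.sdiff.union (Set.toFinite _)).subset hs
  have ins : ∀ (a : Orb ι) (s : Finset (Orb ι)),
      ∑ x ∈ insert a s, wgt β x ≤ wgt β a + ∑ x ∈ s, wgt β x := fun a s => by
    by_cases h : a ∈ s
    · rw [Finset.insert_eq_of_mem h]; omega
    · rw [Finset.sum_insert h]
  rw [mu, mu, finsum_mem_eq_finite_toFinset_sum _ hO, finsum_mem_eq_finite_toFinset_sum _ hO',
    ← Finset.add_sum_erase _ _ (hO.mem_toFinset.2 ho)]
  have h1 : hO'.toFinset ⊆ insert o₁ (insert o₂ (hO.toFinset.erase o)) := fun x hx => by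
    rcases hs (hO'.mem_toFinset.1 hx) with h | h | h
    · exact Finset.mem_insert_of_mem (Finset.mem_insert_of_mem
        (Finset.mem_erase.2 ⟨h.2, hO.mem_toFinset.2 h.1⟩))
    · exact Finset.mem_insert.2 (Or.inl h)
    · exact Finset.mem_insert_of_mem (Finset.mem_insert.2 (Or.inl h))
  have h2 := Finset.sum_le_sum_of_subset (f := wgt β) h1
  have h3 := ins o₁ (insert o₂ (hO.toFinset.erase o))
  have h4 := ins o₂ (hO.toFinset.erase o)
  omega

theorem finite_orb_cross {P : Set (Fr ι)} (hP : AI P) (g : Fr ι) (k : ι × Bool) :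
    {Q ∈ orb P | ¬ Nest Q (g • hl β k)}.Finite := by
  have h := AI.finite_cross β hP
  refine ((h.image fun x => (g * x.1⁻¹) • P).union (h.image fun x => (g * x.1⁻¹) • Pᶜ)).subset ?_
  have key : ∀ a : Fr ι, ¬ Nest (a • P) (g • hl β k) → ¬ Nest P ((a⁻¹ * g) • hl β k) :=
    fun a hn h' => hn (by
      have := (nest_smul a).2 h'
      rwa [smul_smul, mul_inv_cancel_left] at this)
  rintro Q ⟨⟨a, rfl | rfl⟩, hn⟩
  · exact Or.inl ⟨(a⁻¹ * g, k), key a hn, by simp⟩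
  · rw [smul_compl_fr] at hn
    exact Or.inr ⟨(a⁻¹ * g, k), key a fun h' => hn h'.compl_left, by simp⟩

theorem exists_mn {O : Set (Orb ι)} (hO : O.Finite) (hs : ∀ o ∈ O, ∃ P, IsSph P ∧ o = orb P)
    (hc : ¬ ∀ Q ∈ sides O, Compat β Q) : ∃ g k P, Mn (sides O) g (g • hl β k) P := by
  have cl : ∀ Q ∈ sides O, ∀ Q' ∈ orb Q, Q' ∈ sides O := fun Q hQ Q' hQ' => by
    obtain ⟨o, ho, hQo⟩ := mem_sides.1 hQ
    obtain ⟨P, -, rfl⟩ := hs o ho
    exact mem_sides.2 ⟨_, ho, orb_eq_of_mem hQo ▸ hQ'⟩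
  simp only [Compat, not_forall] at hc
  obtain ⟨Q, hQ, g, k, hn⟩ := hc
  have hfin : {Q ∈ sides O | g ∉ Q ∧ ¬ Nest Q (g • hl β k)}.Finite := by
    refine (hO.biUnion (t := fun o => {Q ∈ o | ¬ Nest Q (g • hl β k)}) fun o ho => ?_).subset ?_
    · obtain ⟨P, hP, rfl⟩ := hs o ho
      exact finite_orb_cross β hP.2.2.1 g k
    · intro Q' hQ'
      obtain ⟨o, ho, h⟩ := mem_sides.1 hQ'.1
      exact Set.mem_biUnion ho ⟨h, hQ'.2.2⟩
  have hne : {Q ∈ sides O | g ∉ Q ∧ ¬ Nest Q (g • hl β k)}.Nonempty := by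
    by_cases hg : g ∈ Q
    · exact ⟨Qᶜ, cl Q hQ _ (compl_mem_orb (mem_orb_self Q)), fun h => h hg,
        fun h => hn (compl_compl Q ▸ h.compl_left)⟩
    · exact ⟨Q, hQ, hg, hn⟩
  obtain ⟨P, hP, hmin⟩ := hfin.exists_minimal hne
  refine ⟨g, k, P, cl, hP.1, ?_, (isSph_hl β k).of_mem_orb (smul_mem_orb g (mem_orb_self _)),
    hP.2.1, hP.2.2, fun Q' h1 h2 h3 => h3.antisymm (hmin ⟨h1, fun h => hP.2.1 (h3 h), h2⟩ h3)⟩
  obtain ⟨o, ho, h⟩ := mem_sides.1 hP.1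
  obtain ⟨P', hP', rfl⟩ := hs o ho
  exact hP'.of_mem_orb h

/-! ### One step of the flow -/

section Step

variable {V : Type} {X : Cx V} {supp : V → Set (Orb ι)}

theorem step (hX : Down X) (h1 : ∀ S, S.Finite → X S → Sys (⋃ v ∈ S, supp v))
    (h2 : ∀ (P : Set (Fr ι)) (g : Fr ι) (k : ι × Bool), IsSph P → g ∉ P → ¬ Nest P (g • hl β k) →
      IsSph (P ∩ g • hl β k) → IsSph (P ∩ (g • hl β k)ᶜ) →
      ∀ v, X {v} → orb P ∈ supp v → ∃ v',
        supp v' ⊆ (supp v \ {orb P}) ∪ {orb (P ∩ g • hl β k), orb (P ∩ (g • hl β k)ᶜ)} ∧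
        ∀ S, S.Finite → X S → v ∈ S →
          (∀ Q ∈ orb (P ∩ g • hl β k), Nest Q (P ∩ (g • hl β k)ᶜ)) →
          (∀ u ∈ S, ∀ o ∈ supp u, ∀ Q ∈ o,
            Nest Q (P ∩ g • hl β k) ∧ Nest Q (P ∩ (g • hl β k)ᶜ)) → X (insert v' S))
    {U : Set V} (hU : U.Finite) (hv : ∀ v ∈ U, X {v})
    (hc : ¬ ∀ u ∈ U, ∀ o ∈ supp u, ∀ Q ∈ o, Compat β Q) :
    ∃ f : V → V, (∀ S ⊆ U, X S → X (S ∪ f '' S)) ∧
      mu β (⋃ v ∈ f '' U, supp v) < mu β (⋃ v ∈ U, supp v) := by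
  classical
  have hsys : ∀ v ∈ U, Sys (supp v) := fun v h => by
    simpa using h1 {v} (Set.finite_singleton v) (hv v h)
  have hO : (⋃ v ∈ U, supp v).Finite := hU.biUnion fun v h => (hsys v h).1
  have hs : ∀ o ∈ ⋃ v ∈ U, supp v, ∃ P, IsSph P ∧ o = orb P := fun o ho => by
    obtain ⟨v, h, ho⟩ := Set.mem_iUnion₂.1 ho
    exact (hsys v h).2.1 o ho
  obtain ⟨g, k, P, hM⟩ := exists_mn β hO hs fun h => hc fun u hu o ho Q hQ =>
    h Q (mem_sides.2 ⟨o, Set.mem_biUnion hu ho, hQ⟩)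
  have s1 : Sd (g • hl β k) (g • hl β k) := Or.inl rfl
  have s2 : Sd (g • hl β k) (g • hl β k)ᶜ := Or.inr rfl
  choose! f' hf1 hf2 using h2 P g k hM.sph hM.miss hM.cross (hM.isSph s1) (hM.isSph s2)
  set C₁ := P ∩ g • hl β k
  set C₂ := P ∩ (g • hl β k)ᶜ
  refine ⟨fun v => if orb P ∈ supp v then f' v else v, fun S hS hXS => ?_, ?_⟩
  · have hSf := hU.subset hS
    by_cases hP : ∃ v ∈ S, orb P ∈ supp v
    · obtain ⟨v₀, hv₀, hP⟩ := hP
      have key : ∀ T : Set V, T.Finite → T ⊆ S →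
          X (S ∪ (fun v => if orb P ∈ supp v then f' v else v) '' T) ∧
          ∀ u ∈ S ∪ (fun v => if orb P ∈ supp v then f' v else v) '' T, ∀ o ∈ supp u, ∀ Q ∈ o,
            Nest Q C₁ ∧ Nest Q C₂ := by
        intro T hT
        induction T, hT using Set.Finite.induction_on with
        | empty =>
          intro _
          rw [Set.image_empty, Set.union_empty]
          refine ⟨hXS, fun u hu o ho Q hQ => ?_⟩
          have hn : Nest Q P := (h1 S hSf hXS).2.2 Q (mem_sides.2 ⟨o, Set.mem_biUnion hu ho, hQ⟩)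
            P (mem_sides.2 ⟨_, Set.mem_biUnion hv₀ hP, mem_orb_self P⟩)
          have hm : Q ∈ sides (⋃ v ∈ U, supp v) :=
            mem_sides.2 ⟨o, Set.mem_biUnion (hS hu) ho, hQ⟩
          exact ⟨hM.corner s1 hm hn, hM.corner s2 hm hn⟩
        | @insert t T _ hT ih =>
          intro hsub
          obtain ⟨i1, i2⟩ := ih ((Set.subset_insert _ _).trans hsub)
          have ht : t ∈ S := hsub (Set.mem_insert _ _)
          rw [Set.image_insert_eq, Set.union_insert]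
          split_ifs with hp
          · refine ⟨hf2 t (hv t (hS ht)) hp _ (hSf.union (hT.image _)) i1 (Or.inl ht)
              (hM.nest_side s2 s1) i2, ?_⟩
            rintro u (rfl | hu) o ho Q hQ
            · rcases hf1 t (hv t (hS ht)) hp ho with h | rfl | rfl
              · exact i2 t (Or.inl ht) o h.1 Q hQ
              · exact ⟨hM.nest_side s1 s1 Q hQ, hM.nest_side s2 s1 Q hQ⟩
              · exact ⟨hM.nest_side s1 s2 Q hQ, hM.nest_side s2 s2 Q hQ⟩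
            · exact i2 u hu o ho Q hQ
          · rw [Set.insert_eq_of_mem (Set.mem_union_left _ ht)]
            exact ⟨i1, i2⟩
      exact (key S hSf subset_rfl).1
    · refine hX _ _ hXS (Set.union_subset subset_rfl ?_)
      rintro _ ⟨v, h, rfl⟩
      simp only [if_neg fun h' => hP ⟨v, h, h'⟩]
      exact h
  · have hP : orb P ∈ ⋃ v ∈ U, supp v := by
      obtain ⟨o, ho, h⟩ := mem_sides.1 hM.mem
      obtain ⟨P', -, rfl⟩ := hs o ho
      rwa [orb_eq_of_mem h]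
    refine mu_lt β hO hP (o₁ := orb C₁) (o₂ := orb C₂) (fun o ho => ?_) ?_
    · obtain ⟨_, ⟨v, h, rfl⟩, ho⟩ := Set.mem_iUnion₂.1 ho
      by_cases hp : orb P ∈ supp v
      · simp only [if_pos hp] at ho
        rcases hf1 v (hv v h) hp ho with h' | h'
        · exact Or.inl ⟨Set.mem_biUnion h h'.1, h'.2⟩
        · exact Or.inr h'
      · simp only [if_neg hp] at ho
        exact Or.inl ⟨Set.mem_biUnion h ho, fun e => hp ((Set.mem_singleton_iff.1 e) ▸ ho)⟩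
    · rw [wgt_orb, wgt_orb, wgt_orb]
      have a1 : (crs β C₁).ncard < _ := crs_lt β hM.sph.2.2.1 hM.cross s1
      have a2 : (crs β C₂).ncard < _ := crs_lt β hM.sph.2.2.1 hM.cross s2
      obtain ⟨m, hm⟩ := Nat.exists_eq_succ_of_ne_zero (Nat.ne_zero_of_lt a1)
      rw [hm] at a1 a2 ⊢
      have b1 := Nat.pow_le_pow_right (show 0 < 3 by norm_num) (Nat.le_of_lt_succ a1)
      have b2 := Nat.pow_le_pow_right (show 0 < 3 by norm_num) (Nat.le_of_lt_succ a2)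
      have b3 : 0 < 3 ^ m := by positivity
      rw [pow_succ]
      omega

end Step

/-! ### Dependent spheres -/

section Dep

variable {p : ℕ} [Fact p.Prime] (W : Submodule (ZMod p) (ι → ZMod p))

/-- The spheres whose class depends on the other classes modulo `W`. -/
def dep (S : Set (Orb ι)) : Set (Orb ι) := {o ∈ S | vo p o ∈ W ⊔ spn p (S \ {o})}

theorem sup_spn_mono {S T : Set (Orb ι)} (h : T ⊆ S) : W ⊔ spn p T ≤ W ⊔ spn p S :=
  sup_le_sup_left (spn_mono p h) W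

theorem dep_mono {S T : Set (Orb ι)} (h : T ⊆ S) : dep W T ⊆ dep W S :=
  fun _ ho => ⟨h ho.1, sup_spn_mono W (Set.sdiff_subset_sdiff_left h) ho.2⟩

theorem exchange {R : Set (Orb ι)} {o r : Orb ι} (h : vo p o ∈ W ⊔ spn p (insert r R))
    (h' : vo p o ∉ W ⊔ spn p R) : vo p r ∈ W ⊔ spn p (insert o R) := by
  have e : ∀ x : Orb ι, W ⊔ spn p (insert x R) =
      Submodule.span (ZMod p) (insert (vo p x) (W ⊔ spn p R : Submodule (ZMod p) (ι → ZMod p))) :=
    fun x => by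
      rw [Submodule.span_insert, Submodule.span_eq, spn, spn, Set.image_insert_eq,
        Submodule.span_insert, sup_left_comm]
  rw [e] at h ⊢
  exact mem_span_insert_exchange h (by rwa [Submodule.span_eq])

theorem dep_eq {S T : Set (Orb ι)} (hS : S.Finite) (h1 : dep W S ⊆ T) (h2 : T ⊆ S) :
    dep W T = dep W S := by
  refine (dep_mono W h2).antisymm fun o ho => ⟨h1 ho, ?_⟩
  have hfin : {R | R ⊆ S \ {o} ∧ vo p o ∈ W ⊔ spn p R}.Finite :=
    hS.sdiff.finite_subsets.subset fun R hR => hR.1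
  obtain ⟨R, hR, hmin⟩ := hfin.exists_minimal ⟨_, subset_rfl, ho.2⟩
  refine sup_spn_mono W (S := T \ {o}) (T := R)
    (fun r hr => ⟨h1 ⟨(hR.1 hr).1, ?_⟩, (hR.1 hr).2⟩) hR.2
  have h3 : vo p o ∉ W ⊔ spn p (R \ {r}) := fun h =>
    (hmin ⟨Set.sdiff_subset.trans hR.1, h⟩ Set.sdiff_subset hr).2 rfl
  have h4 := exchange W (r := r) (by rw [Set.insert_sdiff_singleton, Set.insert_eq_of_mem hr]
                                     exact hR.2) h3
  refine sup_spn_mono W ?_ h4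
  rintro x (rfl | hx)
  · exact ⟨ho.1, fun e => (hR.1 hr).2 (Set.mem_singleton_iff.1 e).symm⟩
  · exact ⟨(hR.1 hx.1).1, hx.2⟩

theorem dep_empty_iff {S : Set (Orb ι)} : dep W S = ∅ ↔ Indep p W S := by
  simp [dep, Indep, Set.eq_empty_iff_forall_notMem]

theorem down_Nf {c : Cfg ι} (hc : Valid c) : Down (Nf p W c) :=
  fun _ _ h hT => ⟨hc.add_mono h.1 hT, fun o ho => h.2 o (hT ho)⟩

theorem glk_iff {c : Cfg ι} {σ τ : Set (Orb ι)} (hσ : Nf p W c σ)
    (hb : dep (W ⊔ spn p c.ρ) σ = σ) :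
    Yx p W (c.add σ) τ ↔ GLk (Nf p W c) (dep (W ⊔ spn p c.ρ)) σ τ := by
  have e : W ⊔ spn p (c.add σ).ρ = W ⊔ spn p c.ρ ⊔ spn p σ := by
    rw [sup_assoc, ← spn_union]; rfl
  unfold Yx GLk
  rw [e, Cfg.add_add]
  have e2 : ∀ o, W ⊔ spn p c.ρ ⊔ spn p σ ⊔ spn p (τ \ {o}) =
      W ⊔ spn p c.ρ ⊔ spn p (σ ∪ τ \ {o}) := fun o => by rw [spn_union, sup_assoc _ (spn p σ)]
  constructor
  · rintro ⟨h1, h2⟩
    refine ⟨Set.disjoint_left.2 fun o ho ho' => h2 o ho ?_, ⟨h1, ?_⟩, Set.Subset.antisymm ?_ ?_⟩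
    · exact Submodule.mem_sup_left (Submodule.mem_sup_right (Submodule.subset_span ⟨o, ho', rfl⟩))
    · rintro o (ho | ho)
      · exact hσ.2 o ho
      · exact fun h => h2 o ho (Submodule.mem_sup_left (Submodule.mem_sup_left h))
    · rintro o ⟨ho | ho, h⟩
      · exact ho
      · refine absurd ?_ (h2 o ho)
        rw [e2]
        refine sup_spn_mono _ ?_ h
        rintro x ⟨hx | hx, hx'⟩
        exacts [Or.inl hx, Or.inr ⟨hx, hx'⟩]
    · exact hb.ge.trans (dep_mono _ Set.subset_union_left)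
  · rintro ⟨h1, h2, h3⟩
    refine ⟨h2.1, fun o ho h => Set.disjoint_left.1 h1 ho (h3.le ⟨Or.inr ho, ?_⟩)⟩
    rw [e2] at h
    refine sup_spn_mono _ ?_ h
    rintro x (hx | hx)
    · exact ⟨Or.inl hx, fun e => Set.disjoint_left.1 h1 ho ((Set.mem_singleton_iff.1 e) ▸ hx)⟩
    · exact ⟨Or.inr hx.1, hx.2⟩

end Dep

end JFlow

open JFlow

theorem p_flow : S_flow := by
  intro ι _ _ β V X supp hX h1 h2
  constructor
  · have key : ∀ m v, X {v} → mu β (⋃ u ∈ ({v} : Set V), supp u) = m →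
        ∃ v', X {v'} ∧ ∀ o ∈ supp v', ∀ Q ∈ o, Compat β Q := by
      intro m
      induction m using Nat.strong_induction_on with
      | _ m ih =>
        intro v hv e
        by_cases hc : ∀ u ∈ ({v} : Set V), ∀ o ∈ supp u, ∀ Q ∈ o, Compat β Q
        · exact ⟨v, hv, hc v rfl⟩
        · obtain ⟨f, f1, f2⟩ := step β hX h1 h2 (Set.finite_singleton v) (by simpa using hv) hc
          rw [Set.image_singleton, e] at f2
          exact ih _ f2 (f v) (hX _ _ (f1 _ subset_rfl hv) (by simp)) rfl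
    exact fun v hv => key _ v hv rfl
  · intro c hc n
    have key : ∀ m (U : Set V), U.Finite → (∀ v ∈ U, X {v}) → mu β (⋃ u ∈ U, supp u) = m →
        Zc (fun S => X S ∧ S ⊆ U) n ≤ Bc X n := by
      intro m
      induction m using Nat.strong_induction_on with
      | _ m ih =>
        intro U hU hv e
        by_cases hcU : ∀ u ∈ U, ∀ o ∈ supp u, ∀ Q ∈ o, Compat β Q
        · exact Zc_le_Bc_of_cone c (fun S hS h => hc S hS h.1 fun u hu => hcU u (h.2 hu)) n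
        · obtain ⟨f, f1, f2⟩ := step β hX h1 h2 hU hv hcU
          intro z hz
          have h0 := (mem_Zc.1 hz).2
          have a1 : mapL f z ∈ Bc X n := by
            refine ih _ (e ▸ f2) (f '' U) (hU.image f) ?_ rfl ⟨mapL_mem_Ch (fun l hl =>
              ⟨hX _ _ (f1 _ hl.2 hl.1) Set.subset_union_right, Set.image_mono hl.2⟩) hz.1, ?_⟩
            · rintro _ ⟨v, h, rfl⟩
              exact hX _ _ (f1 {v} (by simpa using h) (hv v h)) (by simp)
            · rw [SetLike.mem_coe, LinearMap.mem_ker, bd_mapL, h0, map_zero]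
          have a2 := mapL_sub_mapL_mem_Bc hX id f (n := n) (z := z) (fun l hl => by
            have := mem_Ch.1 hz.1 l hl
            rw [Set.image_id]
            exact ⟨this.1, f1 _ this.2.2 this.2.1⟩) h0
          have a3 : mapL id z = z := by simp [mapL]
          rw [a3] at a2
          simpa using Submodule.sub_mem _ a1 a2
    intro z hz
    refine key _ (⋃ l ∈ z.support, vs l) (z.support.finite_toSet.biUnion fun l _ => vs_finite l)
      (fun v h => ?_) rfl ⟨fun l hl => ?_, hz.2⟩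
    · obtain ⟨l, hl, h⟩ := Set.mem_iUnion₂.1 h
      exact hX _ _ (mem_Ch.1 hz.1 l hl).2 (by simpa using h)
    · have := mem_Ch.1 hz.1 l hl
      exact ⟨this.1, this.2, fun v h => Set.mem_iUnion₂.2 ⟨l, hl, h⟩⟩

theorem p_Nf (h1 : S_flow) (h2 : S_adapt) : S_Nf := by
  intro ι _ _ p _ W c hc hlt
  obtain ⟨β, hβ⟩ := h2 ι c hc
  obtain ⟨s, hs1, hs2⟩ : ∃ s, letter β s ∉ c.A ∧ clp p (hl β (s, true)) ∉ W ⊔ spn p c.ρ := by
    by_contra hn
    have a1 := ncard_clp_mem_le β p (W ⊔ spn p c.ρ)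
    have a2 : {s | letter β s ∈ c.A}.ncard ≤ c.A.ncard :=
      Set.ncard_le_ncard_of_injOn (letter β) (fun _ h => h) (letter_injective β).injOn hc.pb.finite
    have a3 : (Set.univ : Set ι) ⊆
        {s | letter β s ∈ c.A} ∪ {s | clp p (hl β (s, true)) ∈ W ⊔ spn p c.ρ} := fun s _ => by
      by_contra h
      exact hn ⟨s, fun h' => h (Or.inl h'), fun h' => h (Or.inr h')⟩
    have a4 := (Set.ncard_le_ncard a3).trans (Set.ncard_union_le _ _)
    rw [Set.ncard_univ, Nat.card_eq_fintype_card] at a4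
    omega
  refine (h1 ι β (Orb ι) (Nf p W c) (fun o => {o}) (down_Nf W hc) (fun S _ hS => ?_)
    fun P g k hP hg hx hC1 hC2 v hv hPv => ?_).2 (orb (hl β (s, true))) fun S _ hS hcp => ?_
  · rw [Set.biUnion_of_singleton]
    exact hS.1.sys.mono Set.subset_union_right
  · obtain rfl : orb P = v := hPv
    have a1 : clp p P ∉ W ⊔ spn p c.ρ := fun h => hv.2 _ rfl (vo_orb_mem.2 h)
    have aE : AI (g • hl β k) := (isSph_hl β k).2.2.1.smul g
    by_cases a2 : clp p (P ∩ g • hl β k) ∈ W ⊔ spn p c.ρ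
    · refine ⟨orb (P ∩ (g • hl β k)ᶜ), by simp, fun S _ hS hv' _ hn =>
        ⟨hβ.valid_surgery hc hS.1 hv' hg hx (Or.inr rfl) hC2
          fun o ho Q hQ => (hn o ho o rfl Q hQ).2, ?_⟩⟩
      rintro o (rfl | ho)
      · exact fun h => a1 (clp_split p hP.2.2.1 aE ▸ Submodule.add_mem _ a2 (vo_orb_mem.1 h))
      · exact hS.2 o ho
    · refine ⟨orb (P ∩ g • hl β k), by simp, fun S _ hS hv' _ hn =>
        ⟨hβ.valid_surgery hc hS.1 hv' hg hx (Or.inl rfl) hC1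
          fun o ho Q hQ => (hn o ho o rfl Q hQ).1, ?_⟩⟩
      rintro o (rfl | ho)
      · exact fun h => a2 (vo_orb_mem.1 h)
      · exact hS.2 o ho
  · refine ⟨hβ.valid_insert_hl hc hS.1 (fun o ho => hcp o ho o rfl) hs1, ?_⟩
    rintro o (rfl | ho)
    · exact fun h => hs2 (vo_orb_mem.1 h)
    · exact hS.2 o ho

theorem p_Y (h1 : S_bad) (h2 : S_Nf) : S_Y := by
  have key : ∀ j, ∃ N, ∀ (ι : Type) [Fintype ι] [DecidableEq ι] (p : ℕ) [Fact p.Prime]
      (W : Submodule (ZMod p) (ι → ZMod p)) (c : Cfg ι), Valid c →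
      c.A.ncard + Module.finrank (ZMod p) (W ⊔ spn p c.ρ : Submodule (ZMod p) (ι → ZMod p)) + N ≤
        Fintype.card ι → ∀ n < j, ExactAt (Yx p W c) n := by
    intro j
    induction j with
    | zero => exact ⟨0, fun _ _ _ _ _ _ _ _ _ n hn => absurd hn (Nat.not_lt_zero n)⟩
    | succ j ih =>
      obtain ⟨N, hN⟩ := ih
      refine ⟨N + j + 1, fun ι _ _ p _ W c hc hle n hn => ?_⟩
      have hb := (h1 (Orb ι) (Nf p W c) (dep (W ⊔ spn p c.ρ)) (down_Nf W hc)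
        (fun S _ _ o ho => ho.1) (fun S T _ _ h => dep_mono _ h)
        (fun S T hS _ a b => dep_eq _ hS a b) n).1 fun σ hf hne hσ hd hcard => by
          have h2' : 2 ≤ σ.ncard := by
            by_contra hlt
            obtain ⟨o, rfl⟩ := Set.ncard_eq_one.1
              (show σ.ncard = 1 by have := (Set.ncard_pos hf).2 hne; omega)
            have := (hd.ge (Set.mem_singleton o)).2
            rw [Set.sdiff_self, spn_empty, sup_bot_eq] at this
            exact hσ.2 o rfl this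
          refine (hN ι p W (c.add σ) hσ.1 ?_ _ (by omega)).congr fun τ _ => glk_iff W hσ hd
          have e : W ⊔ spn p (c.add σ).ρ = W ⊔ spn p c.ρ ⊔ spn p σ := by
            rw [sup_assoc, ← spn_union]; rfl
          have := finrank_spn_le p (W ⊔ spn p c.ρ) hf
          rw [e]
          change c.A.ncard + _ + N ≤ _
          omega
      have hE : ExactAt (fun S => Nf p W c S ∧ dep (W ⊔ spn p c.ρ) S = ∅) n := fun z hz =>
        hb ⟨hz, h2 ι p W c hc (by omega) n (Zc_mono (fun _ h => h.1) hz)⟩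
      refine hE.congr fun S _ => ?_
      rw [dep_empty_iff]
      exact ⟨fun h => ⟨h.1.1, h.2⟩,
        fun h => ⟨⟨h.1, fun o ho h' => h.2 o ho (Submodule.mem_sup_left h')⟩, h.2⟩⟩
  intro j
  obtain ⟨N, hN⟩ := key (j + 1)
  exact ⟨N, fun ι _ _ p _ W c hc hle n hn => hN ι p W c hc hle n (Nat.lt_succ_of_le hn)⟩

end Pool.Agent.Lib.MP_49df17_al
end
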