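import Pool.Agent.Lib.MP_49df17_al.Core
import Pool.Agent.Lib.MP_49df17_al.Adapt

-- part Pool.Agent.Lib.MP_49df17_al.G2a
section

/-!
The torsion statement for configurations with a good adjacent side.
-/

set_option linter.unusedSectionVars false

namespace Pool.Agent.Lib.MP_49df17_al


open scoped Pointwise

namespace JG2a

variable {ι : Type}

theorem mem_yo_self (y : Fr ι) (t : Set (Fr ι)) : t ∈ yo y t := ⟨0, by simp⟩

theorem yo_eq_iff {y : Fr ι} {t t' : Set (Fr ι)} : yo y t' = yo y t ↔ t' ∈ yo y t := by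
  refine ⟨fun h => h ▸ mem_yo_self y t', ?_⟩
  rintro ⟨a, rfl⟩
  ext Q
  constructor
  · rintro ⟨b, rfl⟩
    exact ⟨b + a, by rw [smul_smul, zpow_add]⟩
  · rintro ⟨b, rfl⟩
    exact ⟨b - a, by rw [smul_smul, ← zpow_add, sub_add_cancel]⟩

theorem smul_zpow_smul {γ : Au ι} {y : Fr ι} (hy : γ y = y) (a : ℤ) (t : Set (Fr ι)) :
    γ • y ^ a • t = y ^ a • γ • t := by
  rw [au_smul_smul, map_zpow, hy]

theorem smul_yo_iff {γ : Au ι} {y : Fr ι} (hy : γ y = y) {t : Set (Fr ι)} :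
    γ • yo y t = yo y t ↔ γ • t ∈ yo y t := by
  rw [au_smul_yo, hy, yo_eq_iff]

theorem zpow_fix {τ : Au ι} {y : Fr ι} (hy : τ y = y) (a : ℤ) : (τ ^ a) y = y := by
  have : τ ∈ MulAction.stabilizer (Au ι) y := hy
  exact Subgroup.zpow_mem _ this a

theorem zpow_smul_eq {τ : Au ι} {y : Fr ι} {t : Set (Fr ι)} (hy : τ y = y) (ht : τ • t = y • t)
    (a : ℤ) : τ ^ a • t = y ^ a • t := by
  induction a using Int.induction_on with
  | zero => simp
  | succ n ih =>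
    rw [zpow_add_one, mul_smul, ht, au_smul_smul, zpow_fix hy, ih, smul_smul, ← zpow_one_add,
      add_comm]
  | pred n ih =>
    have h1 : τ⁻¹ • t = y⁻¹ • t := by
      rw [inv_smul_eq_iff, au_smul_smul, map_inv, hy, ht, inv_smul_smul]
    rw [zpow_sub_one, mul_smul, h1, au_smul_smul, map_inv, zpow_fix hy, ih, smul_smul,
      ← zpow_neg_one, ← zpow_add]
    congr 2
    ring

theorem forall2_smul {γ : Au ι} {y : Fr ι} (hy : γ y = y) {u ω : List (Set (Fr ι))}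
    (hu : ∀ t ∈ u, γ • t ∈ yo y t) (h : List.Forall₂ (fun t t' => t' ∈ yo y t) u ω) :
    List.Forall₂ (fun t t' => t' ∈ yo y t) u (γ • ω) := by
  induction h with
  | nil => exact List.Forall₂.nil
  | @cons t t' u ω h1 _ ih =>
    refine List.Forall₂.cons ?_ (ih fun s hs => hu s (List.mem_cons_of_mem _ hs))
    obtain ⟨a, rfl⟩ := h1
    obtain ⟨b, hb⟩ := hu t List.mem_cons_self
    exact ⟨a + b, by
      change γ • y ^ a • t = _
      rw [smul_zpow_smul hy, hb, smul_smul, zpow_add]⟩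

theorem forall2_fix {γ : Au ι} {y : Fr ι} (hy : γ y = y) {u ω : List (Set (Fr ι))}
    (h : List.Forall₂ (fun t t' => t' ∈ yo y t) u ω) :
    (∀ t ∈ ω, γ • t = t) ↔ ∀ t ∈ u, γ • t = t := by
  induction h with
  | nil => simp
  | @cons t t' u ω h1 _ ih =>
    obtain ⟨a, rfl⟩ := h1
    simp only [List.forall_mem_cons, ih, smul_zpow_smul hy, smul_left_cancel_iff]

/-- Passing from the group that fixes tethers to the group that fixes them up to powers of `y`. -/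
theorem lift_om (hTA : S_TA) (G J N : Subgroup (Au ι)) (Good : Set (Au ι)) (y : Fr ι)
    (u : List (Set (Fr ι))) (k : ℕ) (hJG : J ≤ G)
    (hc : ∀ g ∈ G, ∀ g' ∈ G, g * g' * g⁻¹ * g'⁻¹ ∈ J) (hy : ∀ g ∈ G, g y = y)
    (hu : ∀ g ∈ G, ∀ t ∈ u, g • t ∈ yo y t)
    (hN : ∀ g, g ∈ N ↔ g ∈ J ∧ ∀ t ∈ u, g • t = t)
    (hG : ∀ g ∈ Good, g ∈ G ∧ ∀ t ∈ u, g • t = t) (hT : Tors N Good k) : Tors J Good k := by
  refine hTA (Au ι) (List (Set (Fr ι))) G J Good
    (fun S => ∀ ω ∈ S, List.Forall₂ (fun t t' => t' ∈ yo y t) u ω) k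
    (fun S T h hT ω hω => h ω (hT hω)) (by simp) hJG hc (fun g hg => (hG g hg).1) ?_ ?_ ?_
  · rintro g hg S hS _ ⟨ω, hω, rfl⟩
    exact forall2_smul (hy g hg) (hu g hg) (hS ω hω)
  · intro n _
    refine exactAt_of_cone u (fun S _ hS ω hω => ?_) n
    rcases hω with rfl | hω
    · exact List.forall₂_same.2 fun t _ => mem_yo_self y t
    · exact hS ω hω
  · intro l hl _ hX
    have key : ∀ g ∈ G, g ∈ MulAction.stabilizer (Au ι) l ↔ ∀ t ∈ u, g • t = t := by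
      intro g hg
      rw [mem_stabilizer_list]
      constructor
      · intro h
        obtain ⟨ω, hω⟩ := List.exists_mem_of_ne_nil l hl
        exact (forall2_fix (hy g hg) (hX ω hω)).1 (mem_stabilizer_list.1 (h ω hω))
      · intro h ω hω
        exact mem_stabilizer_list.2 ((forall2_fix (hy g hg) (hX ω hω)).2 h)
    have e : J ⊓ MulAction.stabilizer (Au ι) l = N := by
      ext g
      rw [hN, Subgroup.mem_inf]
      exact and_congr_right fun hj => key g (hJG hj)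
    rw [e]
    exact hT.mono (fun g hg => ⟨hg, (key g (hG g hg).1).2 (hG g hg).2⟩) (by
      have : l.length ≠ 0 := by simpa using hl
      omega)

theorem exists_smul {c : Cfg ι} {X0 : Set (Fr ι)} {U : Orb ι} (hU : At c X0 U) {t0 t : Set (Fr ι)}
    (h0 : t0 ∈ U) (ht : t ∈ U) : ∃ g : Fr ι, t = g • t0 ∧ (g = 1 ∨ g ∈ dif t0 U) := by
  obtain ⟨g, rfl⟩ := (hU.1 t ht).2.trans (hU.1 t0 h0).2.symm
  by_cases hg : g = 1
  · exact ⟨g, rfl, Or.inl hg⟩
  · exact ⟨g, rfl, Or.inr ⟨hg, ht⟩⟩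

theorem mem_Stab_ext {c : Cfg ι} (hv : Valid c) {X0 : Set (Fr ι)} {U : Orb ι} (hU : At c X0 U)
    {t0 : Set (Fr ι)} (h0 : t0 ∈ U) {γ : Au ι} :
    γ ∈ Stab (c.ext t0 U) ↔ γ ∈ Stab c ∧ ∀ t ∈ U, γ • t = t := by
  constructor
  · rintro ⟨h1, h2, h3⟩
    have e0 : γ • t0 = t0 := h3 t0 (Set.mem_insert _ _)
    refine ⟨⟨fun a ha => h1 a (Or.inl ha), h2, fun t ht => h3 t (Set.mem_insert_of_mem _ ht)⟩,
      fun t ht => ?_⟩
    obtain ⟨g, rfl, rfl | hg⟩ := exists_smul hU h0 ht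
    · simpa using e0
    · rw [au_smul_smul, e0, h1 g (Or.inr hg)]
  · rintro ⟨⟨h1, h2, h3⟩, h4⟩
    refine ⟨?_, h2, ?_⟩
    · rintro a (ha | ha)
      · exact h1 a ha
      · have := h4 _ ha.2
        rw [au_smul_smul, h4 t0 h0] at this
        exact (hv.sys.isSph (hU.1 t0 h0).1.1).smul_inj this
    · rintro t (rfl | ht)
      · exact h4 _ h0
      · exact h3 t ht

variable [Fintype ι] [DecidableEq ι]

theorem IA_le_Gh {y : Fr ι} {γ : Au ι} (h : γ ∈ IA ι) (hy : γ y = y) : γ ∈ Gh y :=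
  ⟨hy, 0, by simp, by simp [HasCl, mem_IA.1 h]⟩

theorem good_Gh {y : Fr ι} {K : AddSubgroup (ι → ℤ)} {c : Cfg ι} (hy : y ∈ c.A) {γ : Au ι}
    (h : γ ∈ GoodS y K c) : γ ∈ Gh y :=
  let ⟨h1, α, _, h3, h4⟩ := h
  ⟨h1.1 y hy, α, h3, h4⟩

theorem StarAt.mono {k N N' : ℕ} (h : StarAt k N) (hN : N ≤ N') : StarAt k N' :=
  fun ι _ _ K c y h1 h2 h3 h4 => h ι K c y h1 h2 h3 (by omega)

end JG2a

open JG2a in
theorem p_G2a (hTA : S_TA) (hcen : S_center) (hsl : S_slide) (hAtb : S_Atb) (hAt : S_At)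
    (hx0 : S_x0) (hDc : S_DcT) : S_G2a := by
  intro k ih
  obtain ⟨N0, hN0⟩ : ∃ N0, ∀ k' < k, StarAt k' N0 := by
    choose! n hn using ih
    exact ⟨(Finset.range k).sup n, fun k' hk' => JG2a.StarAt.mono (hn k' hk')
      (Finset.le_sup (f := n) (Finset.mem_range.2 hk'))⟩
  obtain ⟨N1, hN1⟩ := hAt k
  refine ⟨N0 + k + N1, fun ι _ _ K c y hv hy ⟨X0, hadj, hK, hnt⟩ hrk => ?_⟩
  obtain ⟨-, hdown, -, hb⟩ := hAtb ι c X0
  obtain ⟨-, hb2, hb3, hb4⟩ := hb hv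
  have hX0 : IsSph X0 := hv.sys.isSph hadj.1
  have hsepy : sep X0 y = ∅ := mem_Dg_sep.1 (hv.dg y hy) X0 hadj.1
  have hJG : IA ι ⊓ Stab c ≤ Stab c ⊓ Gh y := fun g hg => ⟨hg.2, IA_le_Gh hg.1 (hg.2.1 y hy)⟩
  have hcomm : ∀ g ∈ Stab c ⊓ Gh y, ∀ g' ∈ Stab c ⊓ Gh y, g * g' * g⁻¹ * g'⁻¹ ∈ IA ι ⊓ Stab c :=
    fun g hg g' hg' => ⟨comm_Gh hg.2 hg'.2, Subgroup.mul_mem _ (Subgroup.mul_mem _
      (Subgroup.mul_mem _ hg.1 hg'.1) (Subgroup.inv_mem _ hg.1)) (Subgroup.inv_mem _ hg'.1)⟩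
  refine hTA (Au ι) (Orb ι) (Stab c ⊓ Gh y) (IA ι ⊓ Stab c) (GoodS y K c) (AtY c X0 y) k
    (hdown y) ⟨∅, ⟨by simp, by simp⟩, by simp⟩ hJG hcomm (fun g hg => ⟨hg.1, good_Gh hy hg⟩) ?_
    ((hN1 ι c X0 hv hadj hnt (by omega)).2 y hy) ?_
  · rintro g hg _ ⟨U, hU, rfl⟩
    have htr : Tr (g • X0) X0 := by
      have h1 : g • X0 ∈ orb X0 := by
        have h2 := hg.1.2.1 _ (hv.sys.orb_mem hadj.1)
        rw [← h2]
        exact Set.smul_mem_smul_set (mem_orb_self X0)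
      rcases mem_orb_iff_tr.1 h1 with h | ⟨a, h⟩
      · exact h
      · exfalso
        have h3 := cls_Gh hX0.2.2.1 hsepy hg.2
        rw [h, cls_smul, cls_compl] at h3
        apply hK
        have : cls X0 = 0 := by
          ext s
          have := congrFun h3 s
          simp only [Pi.neg_apply] at this
          simp only [Pi.zero_apply]
          omega
        rw [this]; exact K.zero_mem
    refine ⟨g • U, hb4 g hg.1 htr U hU, ?_⟩
    ext o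
    simp only [Set.mem_smul_set, Set.mem_image]
    constructor
    · rintro ⟨_, ⟨t, ht, rfl⟩, rfl⟩
      exact ⟨g • t, ⟨t, ht, rfl⟩, by rw [au_smul_yo, hg.2.1]⟩
    · rintro ⟨_, ⟨t, ht, rfl⟩, rfl⟩
      exact ⟨_, ⟨t, ht, rfl⟩, by rw [au_smul_yo, hg.2.1]⟩
  · rintro l hl hlen ⟨U, hU, hlU⟩
    have hstab : ∀ g : Au ι, g y = y →
        (g ∈ MulAction.stabilizer (Au ι) l ↔ ∀ t ∈ U, g • t ∈ yo y t) := by
      intro g hg
      rw [mem_stabilizer_list]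
      constructor
      · intro h t ht
        have : yo y t ∈ vs l := by rw [hlU]; exact ⟨t, ht, rfl⟩
        exact (smul_yo_iff hg).1 (h _ this)
      · intro h o ho
        have : o ∈ yo y '' U := by rw [← hlU]; exact ho
        obtain ⟨t, ht, rfl⟩ := this
        exact (smul_yo_iff hg).2 (h t ht)
    obtain ⟨t1, ht1⟩ : U.Nonempty := by
      obtain ⟨o, ho⟩ := List.exists_mem_of_ne_nil l hl
      have : o ∈ yo y '' U := by rw [← hlU]; exact ho
      obtain ⟨t, ht, -⟩ := this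
      exact ⟨t, ht⟩
    have hfin : U.Finite := (hb2 U t1 hU ht1).1
    have hcard : U.ncard ≤ l.length := by
      rw [← (hb3 U y hy hU).1.ncard_image, ← hlU]
      exact vs_ncard_le l
    by_cases h2 : 2 ≤ U.ncard
    · have hk' : k + 1 - l.length < k := by omega
      have hJG' : (IA ι ⊓ Stab c) ⊓ MulAction.stabilizer (Au ι) l ≤
          (Stab c ⊓ Gh y) ⊓ MulAction.stabilizer (Au ι) l := inf_le_inf_right _ hJG
      have hcomm' : ∀ g ∈ (Stab c ⊓ Gh y) ⊓ MulAction.stabilizer (Au ι) l,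
          ∀ g' ∈ (Stab c ⊓ Gh y) ⊓ MulAction.stabilizer (Au ι) l,
          g * g' * g⁻¹ * g'⁻¹ ∈ (IA ι ⊓ Stab c) ⊓ MulAction.stabilizer (Au ι) l :=
        fun g hg g' hg' => ⟨hcomm g hg.1 g' hg'.1, Subgroup.mul_mem _ (Subgroup.mul_mem _
          (Subgroup.mul_mem _ hg.2 hg'.2) (Subgroup.inv_mem _ hg.2)) (Subgroup.inv_mem _ hg'.2)⟩
      by_cases hlive : ∃ t0 ∈ U, Live K (c.ext t0 U)
      · obtain ⟨t0, h0, hlive⟩ := hlive
        obtain ⟨-, hc1, hc2⟩ := hb2 U t0 hU h0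
        have hT := hN0 _ hk' ι K (c.ext t0 U) y (hc2 hnt).1 (Or.inl hy) hlive (by
          have h3 : (c.ext t0 U).A.ncard ≤ c.A.ncard + (dif t0 U).ncard := Set.ncard_union_le _ _
          have h4 : (c.ext t0 U).D = c.D := rfl
          rw [h4]; omega)
        obtain ⟨u, hu, -⟩ := exists_vs_eq hfin
        have hmem : ∀ t, t ∈ u ↔ t ∈ U := fun t => by rw [← hu]; rfl
        have hgood : ∀ g ∈ GoodS y K (c.ext t0 U), g ∈ GoodS y K c ∧
            g ∈ MulAction.stabilizer (Au ι) l ∧ ∀ t ∈ U, g • t = t := by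
          intro g hg
          have h3 := (mem_Stab_ext hv hU h0).1 hg.1
          refine ⟨⟨h3.1, hg.2⟩, (hstab g (h3.1.1 y hy)).2 fun t ht => ?_, h3.2⟩
          rw [h3.2 t ht]; exact mem_yo_self y t
        refine (lift_om hTA _ _ _ _ y u _ hJG' hcomm' (fun g hg => hg.1.2.1)
          (fun g hg t ht => (hstab g hg.1.2.1).1 hg.2 t ((hmem t).1 ht)) (fun g => ?_)
          (fun g hg => ?_) hT).mono (fun g hg => ⟨(hgood g hg).1, (hgood g hg).2.1⟩) le_rfl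
        · simp only [Subgroup.mem_inf, mem_Stab_ext hv hU h0, hmem]
          constructor
          · rintro ⟨h3, h4, h5⟩
            refine ⟨⟨⟨h3, h4⟩, (hstab g (h4.1 y hy)).2 fun t ht => ?_⟩, h5⟩
            rw [h5 t ht]; exact mem_yo_self y t
          · rintro ⟨⟨⟨h3, h4⟩, -⟩, h5⟩
            exact ⟨h3, h4, h5⟩
        · obtain ⟨h3, h4, h5⟩ := hgood g hg
          exact ⟨⟨⟨h3.1, good_Gh hy h3⟩, h4⟩, fun t ht => h5 t ((hmem t).1 ht)⟩
      · obtain ⟨t0, h0, d, hd, o, ho⟩ := hx0 ι K c X0 U hv hU hnt hK h2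
        obtain ⟨-, -, hc2⟩ := hb2 U t0 hU h0
        have hdA : d ∉ c.A := fun h => Set.disjoint_left.1 (hU.2 t0 h0).1 h hd
        have ht0 : IsSph t0 := hv.sys.isSph (hU.1 t0 h0).1.1
        have hT := hDc ι K (c.ext t0 U) y d (hc2 hnt).1 (Or.inl hy) (Or.inr hd)
          (fun h => hdA (h ▸ hy)) (fun h => hlive ⟨t0, h0, h⟩) ⟨o, ho⟩ (k + 1 - l.length)
        obtain ⟨u, hu, -⟩ := exists_vs_eq (hfin.subset (Set.sdiff_subset (t := {d • t0})))
        have hmem : ∀ t, t ∈ u ↔ t ∈ U ∧ t ≠ d • t0 := fun t => by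
          change t ∈ vs u ↔ _
          rw [hu]; rfl
        have hne : t0 ≠ d • t0 := fun h => hd.1 (ht0.eq_one h.symm)
        have hgood : ∀ g, (g ∈ GoodS y K ((c.ext t0 U).del d) ∧ ∃ i : ℤ, g d = y ^ i * d) →
            g ∈ GoodS y K c ∧ g ∈ MulAction.stabilizer (Au ι) l ∧
              ∀ t ∈ U, t ≠ d • t0 → g • t = t := by
          rintro g ⟨⟨⟨h1, h3, h4⟩, h5⟩, i, hi⟩
          have e0 : g • t0 = t0 := h4 t0 (Set.mem_insert _ _)
          have hA : ∀ a ∈ c.A, g a = a := fun a ha =>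
            h1 a ⟨Or.inl ha, fun h => hdA ((Set.mem_singleton_iff.1 h) ▸ ha)⟩
          have h6 : ∀ t ∈ U, t ≠ d • t0 → g • t = t := by
            intro t ht hne'
            obtain ⟨a, rfl, rfl | ha⟩ := exists_smul hU h0 ht
            · simpa using e0
            · rw [au_smul_smul, e0, h1 a ⟨Or.inr ha, fun h => hne' (by
                rw [Set.mem_singleton_iff.1 h])⟩]
          refine ⟨⟨⟨hA, h3, fun t ht => h4 t (Set.mem_insert_of_mem _ ht)⟩, h5⟩,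
            (hstab g (hA y hy)).2 fun t ht => ?_, h6⟩
          by_cases h : t = d • t0
          · subst h
            exact ⟨i, by rw [au_smul_smul, e0, hi, mul_smul]⟩
          · rw [h6 t ht h]; exact mem_yo_self y t
        refine (lift_om hTA _ _ _ _ y u _ hJG' hcomm' (fun g hg => hg.1.2.1)
          (fun g hg t ht => (hstab g hg.1.2.1).1 hg.2 t ((hmem t).1 ht).1) (fun g => ?_)
          (fun g hg => ?_) hT).mono (fun g hg => ⟨(hgood g hg).1, (hgood g hg).2.1⟩) le_rfl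
        · simp only [Subgroup.mem_inf, mem_Stab_ext hv hU h0, hmem]
          constructor
          · rintro ⟨h3, h4, h5⟩
            refine ⟨⟨⟨h3, h4⟩, (hstab g (h4.1 y hy)).2 fun t ht => ?_⟩, fun t ht => h5 t ht.1⟩
            rw [h5 t ht]; exact mem_yo_self y t
          · rintro ⟨⟨⟨h3, h4⟩, h6⟩, h5⟩
            refine ⟨h3, h4, fun t ht => ?_⟩
            by_cases h : t = d • t0
            · subst h
              have e0 : g • t0 = t0 := h5 t0 ⟨h0, hne⟩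
              obtain ⟨a, ha⟩ := (hstab g (h4.1 y hy)).1 h6 _ ht
              rw [au_smul_smul, e0, smul_smul] at ha
              have e1 := ht0.smul_inj ha
              have e2 := abv_IA h3 d
              rw [e1, abv_mul, abv_zpow, add_eq_right, smul_eq_zero] at e2
              have e3 : a = 0 := e2.resolve_right (hv.pb.abv_ne_zero hy)
              rw [au_smul_smul, e0, e1, e3, zpow_zero, one_mul]
            · exact h5 t ⟨ht, h⟩
        · obtain ⟨h3, h4, h5⟩ := hgood g hg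
          exact ⟨⟨⟨h3.1, good_Gh hy h3⟩, h4⟩,
            fun t ht => h5 t ((hmem t).1 ht).1 ((hmem t).1 ht).2⟩
    · have hU1 : ∀ t ∈ U, t = t1 := by
        intro t ht
        by_contra h
        exact h2 ((Set.one_lt_ncard hfin).2 ⟨t, ht, t1, ht1, h⟩)
      obtain ⟨ha1, ha2⟩ := hU.1 t1 ht1
      obtain ⟨τ, hτ, h3, h4, h5, -, h6⟩ := hsl ι c y t1 hv hy ha1
        fun t' ht' h => hnt t' ht' (ha2.symm.trans h)
      have hτy : τ y = y := hτ.1 y hy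
      refine (hcen _ _ τ (fun j hj => ?_) _).mono ?_ le_rfl
      · have hjy : j y = y := hj.1.2.1 y hy
        obtain ⟨a, ha⟩ := (hstab j hjy).1 hj.2 t1 ht1
        have h7 := h6 ((τ ^ a)⁻¹ * j) (by
            rw [MulAut.mul_apply, hjy, ← zpow_neg]; exact zpow_fix hτy _)
          (by rw [mul_smul, ha, ← zpow_smul_eq hτy h5, inv_smul_smul])
        have h8 : τ ^ a * τ = τ * τ ^ a := by group
        calc τ * j = τ ^ a * (τ * ((τ ^ a)⁻¹ * j)) := by group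
          _ = τ ^ a * ((τ ^ a)⁻¹ * j * τ) := by rw [h7]
          _ = j * τ := by group
      · rintro _ rfl
        refine ⟨⟨hτ, cls t1, ?_, h4, h3⟩, (hstab _ hτy).2 fun t ht => ?_⟩
        · obtain ⟨a, rfl⟩ := ha2
          rwa [cls_smul]
        · rw [hU1 t ht, h5]
          exact ⟨1, by simp⟩

end Pool.Agent.Lib.MP_49df17_al
end

-- part Pool.Agent.Lib.MP_49df17_al.G2b
section

/-!
Torsion from the complexes of dual spheres and of admissible spheres.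
-/

set_option linter.unusedSectionVars false

namespace Pool.Agent.Lib.MP_49df17_al

open scoped Pointwise

namespace JG2b

variable {ι : Type} [Fintype ι] [DecidableEq ι] {c : Cfg ι} {y d : Fr ι}
  {K : AddSubgroup (ι → ℤ)}

theorem mem_Gh_of_IA {γ : Au ι} (h : γ ∈ IA ι) (hy : γ y = y) : γ ∈ Gh y :=
  ⟨hy, 0, by simp, by simp [HasCl, mem_IA.1 h]⟩

theorem side_add {S : Set (Orb ι)} {o : Orb ι} (ho : o ∈ S) {P : Set (Fr ι)} (hP : P ∈ o) :
    P ∈ sides (c.add S).ρ := mem_sides.2 ⟨o, Or.inr ho, hP⟩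

theorem cls_inv {S : Set (Orb ι)} (hS : Valid (c.add S)) (hy : y ∈ c.A) {o : Orb ι} (ho : o ∈ S)
    (h : ∀ P ∈ o, cls P ∉ K) {γ : Au ι} (hγ : γ ∈ Gh y) : ∀ P ∈ γ • o, cls P ∉ K := by
  rintro _ ⟨P, hP, rfl⟩
  have h1 := side_add (c := c) ho hP
  change cls (γ • P) ∉ K
  rw [cls_Gh (hS.sys.isSph h1).2.2.1 (mem_Dg_sep.1 (hS.dg y hy) P h1) hγ]
  exact h P hP

/-- The automorphisms that multiply `d` by a power of `y`. -/
def Gd (y d : Fr ι) : Subgroup (Au ι) where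
  carrier := {γ | γ y = y ∧ ∃ i : ℤ, γ d = y ^ i * d}
  one_mem' := ⟨rfl, 0, by simp⟩
  mul_mem' := fun {a b} ⟨ha, i, hi⟩ ⟨hb, j, hj⟩ =>
    ⟨by rw [MulAut.mul_apply, hb, ha], j + i, by
      rw [MulAut.mul_apply, hj, map_mul, map_zpow, ha, hi, zpow_add, mul_assoc]⟩
  inv_mem' := fun {a} ⟨ha, i, hi⟩ =>
    ⟨by rw [MulAut.inv_apply, MulEquiv.symm_apply_eq, ha], -i, by
      rw [MulAut.inv_apply, MulEquiv.symm_apply_eq, map_mul, map_zpow, ha, hi, zpow_neg,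
        inv_mul_cancel_left]⟩

theorem Gd_comm {a b : Au ι} (ha : a ∈ Gd y d) (hb : b ∈ Gd y d) : a (b d) = b (a d) := by
  obtain ⟨ha, i, hi⟩ := ha
  obtain ⟨hb, j, hj⟩ := hb
  rw [hi, hj, map_mul, map_mul, map_zpow, map_zpow, ha, hb, hi, hj, ← mul_assoc, ← mul_assoc,
    ← zpow_add, ← zpow_add, add_comm]

theorem mem_of_dual {X : Set (Fr ι)} (h1 : 1 ∉ X) (h : sep X d = {1}) : d ∈ X := by
  have : (1 : Fr ι) ∈ sep X d := h ▸ rfl
  by_contra hd
  exact this (by rw [one_mul]; exact iff_of_false h1 hd)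

theorem Dc_inv (hy : y ∈ (c.del d).A) {γ : Au ι} (h1 : γ ∈ Stab (c.del d)) (h2 : γ ∈ Gh y)
    (h3 : γ ∈ Gd y d) {S : Set (Orb ι)} (hS : Dc K c d S) : Dc K c d (γ • S) := by
  have hv := hS.1.add_aut h1
  refine ⟨hv, ?_⟩
  rintro _ ⟨o, ho, rfl⟩
  obtain ⟨a1, X, a2, a3, a4⟩ := hS.2 o ho
  refine ⟨cls_inv hS.1 hy ho a1 h2, ?_⟩
  obtain ⟨-, i, hi⟩ := h3
  have m1 : γ • o ∈ γ • S := ⟨o, ho, rfl⟩
  have m2 : γ • X ∈ γ • o := ⟨X, a2, rfl⟩
  have m3 := side_add (c := c.del d) m1 m2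
  have m4 : y ^ i ∈ ((c.del d).add (γ • S)).D := zpow_mem (hv.dg y hy) i
  have e := sep_aut γ X d
  rw [a4, hi, Set.smul_set_singleton] at e
  refine ⟨(y ^ i)⁻¹ • γ • X, ?_, ?_, ?_⟩
  · change _ ∈ γ • o
    rw [hv.sys.eq_orb (Or.inr m1) m2]
    exact smul_mem_orb _ (mem_orb_self _)
  · rw [mem_smul_fr, inv_inv, mul_one, ← one_mul (y ^ i), ← m4 _ m3 1, one_mem_au_smul]
    exact a3
  · ext k
    have := @sep_mul_left _ _ _ (mem_Dg_sep.1 m4 _ m3) d (y ^ i * k * (y ^ i)⁻¹)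
    rw [inv_mul_cancel_right, e] at this
    rw [sep_smul, mem_smul_fr, inv_inv, ← this, Set.mem_singleton_iff, Set.mem_singleton_iff]
    change _ = γ 1 ↔ _
    rw [map_one, mul_inv_eq_one, mul_eq_left]

theorem NKr_inv (hy : y ∈ c.A) {γ : Au ι} (h1 : γ ∈ Stab c) (h2 : γ ∈ Gh y) {r : ℕ}
    {S : Set (Orb ι)} (hS : NKr K c r S) : NKr K c r (γ • S) := by
  have e := (Stab.smul_eq h1).2.1
  refine ⟨⟨hS.1.1.add_aut h1, ?_⟩, ?_⟩
  · rintro _ ⟨o, ho, rfl⟩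
    obtain ⟨a1, a2, X, a3, a4, a5⟩ := hS.1.2 o ho
    refine ⟨by simpa only [Set.smul_set_singleton] using a1.add_aut h1,
      cls_inv hS.1.1 hy ho a2 h2, γ • X, ⟨X, a3, rfl⟩, mt one_mem_au_smul.1 a4, fun Z hZ hZ1 => ?_⟩
    rw [← e, ← au_smul_sides] at hZ
    obtain ⟨Z, hZ, rfl⟩ := hZ
    exact fun h => a5 Z hZ (mt one_mem_au_smul.2 hZ1) (Set.smul_set_subset_smul_set_iff.1 h)
  · have : (c.add (γ • S)).D = Dg (γ • sides (c.ρ ∪ S)) := by
      rw [au_smul_sides, Set.smul_set_union, e]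
      rfl
    rw [this, rkD_aut]
    exact hS.2

theorem sub_le {V : Type} {l : List V} (h : l ≠ []) (k : ℕ) : k + 1 - l.length ≤ k := by
  have := List.length_pos_iff.2 h
  omega

end JG2b

open JG2b

theorem p_DcT (hTA : S_TA) (hc : S_center) (hs : S_slide) (hD : S_Dc) : S_DcT := by
  intro ι _ _ K c y d hv hy hd hne hl hex k
  have hv' : Valid (c.del d) :=
    hv.mono Set.sdiff_subset subset_rfl subset_rfl fun t ht => (hv.adj t ht).1
  have hy' : y ∈ (c.del d).A := ⟨hy, hne.symm⟩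
  refine hTA (Au ι) (Orb ι) (Stab (c.del d) ⊓ (Gh y ⊓ Gd y d)) _ _ (Dc K c d) k
    (fun S T h hT => ⟨hv'.add_mono h.1 hT, fun o ho => h.2 o (hT ho)⟩)
    ⟨by rwa [Cfg.add_empty], by simp⟩ (fun γ h => ?_) (fun a ha b hb => ?_) ?_
    (fun γ h S => Dc_inv hy' h.1 h.2.1 h.2.2) (fun n _ => hD ι K c d hv hd hl hex n)
    fun l hl0 _ hX => ?_
  · exact ⟨⟨fun a ha => h.2.1 a ha.1, h.2.2⟩, mem_Gh_of_IA h.1 (h.2.1 y hy), h.2.1 y hy, 0, by
      rw [h.2.1 d hd, zpow_zero, one_mul]⟩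
  · have h : a * b * a⁻¹ * b⁻¹ ∈ Stab (c.del d) :=
      mul_mem (mul_mem (mul_mem ha.1 hb.1) (inv_mem ha.1)) (inv_mem hb.1)
    refine ⟨comm_Gh ha.2.1 hb.2.1, fun x hx => ?_, h.2⟩
    rcases eq_or_ne x d with rfl | hx'
    · simp only [MulAut.mul_apply]
      rw [Gd_comm (inv_mem ha.2.2) (inv_mem hb.2.2)]
      simp
    · exact h.1 x ⟨hx, hx'⟩
  · rintro γ ⟨⟨h1, α, -, h2⟩, h3⟩
    exact ⟨h1, ⟨h1.1 y hy', α, h2⟩, h1.1 y hy', h3⟩
  obtain ⟨o, ho⟩ := List.exists_mem_of_ne_nil l hl0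
  obtain ⟨-, X, a2, a3, a4⟩ := hX.2 o ho
  obtain ⟨Z, hZ, hXZ⟩ := hX.1.sys.exists_adj (side_add ho a2) a3
  have dZ : d ∈ Z := hXZ (mem_of_dual a3 a4)
  have nZ : Z ∉ sides c.ρ := fun h => hZ.2.1 ((hv.dg d hd Z h 1).2 (by rwa [one_mul]))
  obtain ⟨o', ho', hZo⟩ := mem_sides.1 hZ.1
  have ho'' : o' ∈ vs l := ho'.resolve_left fun h => nZ (mem_sides.2 ⟨o', h, hZo⟩)
  obtain ⟨b1, X', b2, b3, b4⟩ := hX.2 o' ho''
  have uq : ∀ Y ∈ o', 1 ∉ Y → d ∈ Y → Y = X' := fun Y hY h1 h2 =>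
    ((hX.1.sys.isSph (side_add ho'' b2)).dual_unique b3 b4 (hX.1.sys.eq_orb ho' b2 ▸ hY)
      fun h => h1 (h.2 h2)).resolve_right fun h => h1 (h ▸ b3)
  obtain rfl := uq Z hZo hZ.2.1 dZ
  obtain ⟨τ, t1, t2, t3, -, t5, t6⟩ := hs ι _ y Z hX.1 hy' hZ (by
    rintro t ht ⟨g, rfl⟩
    exact nZ ((hv.sys.smul_mem g).2 (hv.adj t ht).1))
  rw [Stab_add] at t1
  refine (hc _ (IA ι ⊓ Stab c ⊓ MulAction.stabilizer (Au ι) l) τ (fun j hj => (t6 j (hj.1.2.1 y hy) ?_).symm) _).mono ?_ le_rfl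
  · refine uq _ ?_ (mt one_mem_au_smul.1 b3) ?_
    · rw [← mem_stabilizer_list.1 hj.2 o' ho'']
      exact ⟨Z, hZo, rfl⟩
    · exact ⟨d, dZ, hj.1.2.1 d hd⟩
  · rintro _ rfl
    refine ⟨⟨⟨t1.1, _, b1 Z hZo, t3, t2⟩, 1, ?_⟩, t1.2⟩
    rw [t5 d (b4 ▸ Set.singleton_subset_iff.2 (Or.inl rfl)), if_pos dZ, if_neg, mul_one, zpow_one]
    intro h
    have : d⁻¹ ∈ sep Z d := fun e => b3 (by simpa using e.1 h)
    rw [b4, Set.mem_singleton_iff, inv_eq_one] at this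
    exact b3 (this ▸ dZ)

theorem p_G2b (hTA : S_TA) (hN : S_NKr) : S_G2b := by
  rintro k ⟨N0, h0⟩
  obtain ⟨N, hN⟩ := hN k N0
  refine ⟨N + N0, fun ι _ _ K c y hv hy hl hr => ?_⟩
  by_cases h1 : L1 K c
  · exact h0 ι K c y hv hy h1 (by omega)
  refine hTA (Au ι) (Orb ι) (Stab c ⊓ Gh y) _ _ (NKr K c N0) k
    (fun S T h hT => ⟨⟨hv.add_mono h.1.1 hT, fun o ho => h.1.2 o (hT ho)⟩, h.2.trans
      (rkD_mono (Dg_anti (sides_mono (Set.union_subset_union_right _ hT))))⟩)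
    ⟨⟨by rwa [Cfg.add_empty], by simp⟩, by rw [Cfg.add_empty]; omega⟩
    (fun γ h => ⟨h.2, mem_Gh_of_IA h.1 (h.2.1 y hy)⟩)
    (fun a ha b hb => ⟨comm_Gh ha.2 hb.2,
      (mul_mem (mul_mem (mul_mem ha hb) (inv_mem ha)) (inv_mem hb)).1⟩)
    (fun γ ⟨h1, α, _, h2⟩ => ⟨h1, h1.1 y hy, α, h2⟩) (fun γ h S => NKr_inv hy h.1 h.2)
    (hN ι K c hv h1 (hl.resolve_left h1) (by omega)) fun l hl0 _ hX => ?_
  obtain ⟨o, ho⟩ := List.exists_mem_of_ne_nil l hl0
  obtain ⟨-, -, X, a2, a3, a4⟩ := hX.1.2 o ho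
  obtain ⟨Z, hZ, hXZ⟩ := hX.1.1.sys.exists_adj (side_add ho a2) a3
  have nZ : Z ∉ sides c.ρ := fun h => a4 Z h hZ.2.1 hXZ
  obtain ⟨o', ho', hZo⟩ := mem_sides.1 hZ.1
  have ho'' : o' ∈ vs l := ho'.resolve_left fun h => nZ (mem_sides.2 ⟨o', h, hZo⟩)
  have h := h0 ι K (c.add (vs l)) y hX.1.1 hy ⟨Z, hZ, (hX.1.2 o' ho'').2.1 Z hZo, by
    rintro t ht ⟨g, rfl⟩
    exact nZ ((hv.sys.smul_mem g).2 (hv.adj t ht).1)⟩ hX.2
  rw [Stab_add, ← inf_assoc] at h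
  refine h.mono (fun γ hγ => ?_) (sub_le hl0 k)
  have h2 := hγ.1
  rw [Stab_add] at h2
  exact ⟨⟨h2.1, hγ.2⟩, h2.2⟩

theorem p_star (ha : S_G2a) (hb : S_G2b) : S_star := fun k =>
  Nat.strong_induction_on k fun k ih => hb k (ha k ih)

end Pool.Agent.Lib.MP_49df17_al
end

-- part Pool.Agent.Lib.MP_49df17_al.G3
section

/-!
Local unipotence of transvections on the classes of the stabiliser of a handle.
-/

set_option linter.unusedSectionVars false

namespace Pool.Agent.Lib.MP_49df17_al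

open scoped Pointwise Matrix

namespace JG3

variable {ι : Type} [Fintype ι] [DecidableEq ι]

theorem exists_psi (V : Submodule ℤ (ι → ℤ)) (hV : V ≠ ⊤) : ∃ (p : ℕ) (_ : Fact p.Prime)
    (ψ : ι → ZMod p), ψ ≠ 0 ∧ ∀ v ∈ V, ψ ⬝ᵥ (fun s => (v s : ZMod p)) = 0 := by
  obtain ⟨M, hM, hVM⟩ := (eq_top_or_exists_le_coatom V).resolve_left hV
  obtain ⟨I, hI, ⟨e⟩⟩ := isSimpleModule_iff_quot_maximal.1 (isSimpleModule_iff_isCoatom.2 hM)
  obtain ⟨a, rfl⟩ : ∃ a : ℤ, I = Ideal.span {a} := ⟨_, (Ideal.span_singleton_generator I).symm⟩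
  have ha0 : a ≠ 0 := by
    rintro rfl
    have h1 : (Ideal.span {(0 : ℤ)}) = ⊥ := by simp
    rw [h1] at hI
    exact Int.not_isField (Ring.isField_iff_maximal_bot.2 hI)
  have hp : Prime a := (Ideal.span_singleton_prime ha0).1 hI.isPrime
  let f : (ι → ℤ) →+ ZMod a.natAbs := (Int.quotientSpanEquivZMod a).toAddMonoidHom.comp
    (e.toLinearMap.toAddMonoidHom.comp M.mkQ.toAddMonoidHom)
  have hf : ∀ v : ι → ℤ, (fun s => f (Pi.single s 1)) ⬝ᵥ (fun s => (v s : ZMod a.natAbs)) = f v := by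
    intro v
    conv_rhs => rw [pi_eq_sum_univ' v, map_sum]
    refine Finset.sum_congr rfl fun s _ => ?_
    rw [map_zsmul, zsmul_eq_mul, mul_comm]
  have hker : ∀ v, f v = 0 ↔ v ∈ M := by
    intro v
    simp [f]
  refine ⟨a.natAbs, ⟨Int.prime_iff_natAbs_prime.1 hp⟩, fun s => f (Pi.single s 1), fun h => ?_,
    fun v hv => by rw [hf, (hker v).2 (hVM hv)]⟩
  apply hM.1
  rw [eq_top_iff]
  intro v _
  rw [← hker, ← hf, h, zero_dotProduct]

theorem mat_ext (β : Au ι) {M M' : Matrix ι ι ℤ}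
    (h : ∀ s, M *ᵥ abv (letter β s) = M' *ᵥ abv (letter β s)) : M = M' := by
  ext i j
  exact congrFun (eq_of_dot_letter β (φ := M i) (ψ := M' i) fun s => congrFun (h s) i) j

theorem one_add_mulVec (v α w : ι → ℤ) :
    (1 + Matrix.vecMulVec v α) *ᵥ w = w + (α ⬝ᵥ w) • v := by
  rw [Matrix.add_mulVec, Matrix.one_mulVec, Matrix.vecMulVec_mulVec]
  ext i; simp [mul_comm]

theorem HasCl.abv_apply {v α : ι → ℤ} {γ : Au ι} (h : HasCl v α γ) (g : Fr ι) :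
    abv (γ g) = abv g + (α ⬝ᵥ abv g) • v := by
  rw [← abM_mulVec, h, one_add_mulVec]

theorem mem_IA_of_eq {g g' : Au ι} (h : abM g = abM g') : g⁻¹ * g' ∈ IA ι := by
  rw [mem_IA, abM_mul, ← h, ← abM_mul, inv_mul_cancel, abM_one]

theorem rep_eq (q : ℕ) {g g' : Au ι} (h : abM g = abM g') : Hrep (IA ι) q g = Hrep (IA ι) q g' := by
  refine LinearMap.ext fun x => ?_
  conv_rhs => rw [← mul_inv_cancel_left g g', map_mul, Module.End.mul_apply,
    Hrep_of_mem _ _ (mem_IA_of_eq h)]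

theorem IA_le_Gh {y : Fr ι} {γ : Au ι} (h : γ ∈ IA ι) (hy : γ y = y) : γ ∈ Gh y :=
  ⟨hy, 0, by simp, by simp [HasCl, mem_IA.1 h]⟩

theorem dot_letter (β : Au ι) (s s' : ι) :
    cls (hl β (s, true)) ⬝ᵥ abv (letter β s') = if s = s' then 1 else 0 := by
  rw [cls_dot (isSph_hl β _).2.2.1, pair_hl_letter]

/-- The prime ideal argument applied to the torsion statement. -/
theorem pi_star (hPI : S_PI) {k N : ℕ} (hs : StarAt k N) {c : Cfg ι} {y : Fr ι} (hv : Valid c)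
    (hy : y ∈ c.A) (hrk : c.A.ncard + N ≤ rkD c.D) {g0 : Au ι} (h0 : g0 ∈ Stab c) {α0 : ι → ℤ}
    (h1 : α0 ⬝ᵥ abv y = 0) (h2 : HasCl (abv y) α0 g0)
    (hl : ∀ K : AddSubgroup (ι → ℤ), α0 ∉ K → Live K c) : Tors (IA ι ⊓ Stab c) {g0} k := by
  refine hPI (Au ι) (Stab c ⊓ Gh y) _ g0 k (fun g hg => ⟨hg.2, IA_le_Gh hg.1 (hg.2.1 y hy)⟩)
    (fun g hg g' hg' => ⟨comm_Gh hg.2 hg'.2, Subgroup.mul_mem _ (Subgroup.mul_mem _
      (Subgroup.mul_mem _ hg.1 hg'.1) (Subgroup.inv_mem _ hg.1)) (Subgroup.inv_mem _ hg'.1)⟩)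
    ⟨h0, h0.1 y hy, α0, h1, h2⟩ fun L hJL hLG hL => ?_
  let K : AddSubgroup (ι → ℤ) :=
    { carrier := {α | α ⬝ᵥ abv y = 0 ∧ ∃ g ∈ L, HasCl (abv y) α g}
      zero_mem' := ⟨by simp, 1, L.one_mem, by simp [HasCl, abM_one]⟩
      add_mem' := fun {a b} ⟨ha, g, hg, e⟩ ⟨hb, g', hg', e'⟩ =>
        ⟨by rw [add_dotProduct, ha, hb, add_zero], g * g', L.mul_mem hg hg', by
          rw [HasCl, e.mul e' ha, Matrix.vecMulVec_add, add_assoc]⟩
      neg_mem' := fun {a} ⟨ha, g, hg, e⟩ =>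
        ⟨by rw [neg_dotProduct, ha, neg_zero], g⁻¹, L.inv_mem hg, by
          rw [HasCl, e.inv ha, Matrix.vecMulVec_neg, sub_eq_add_neg]⟩ }
  have hK : α0 ∉ K := by
    rintro ⟨-, g, hg, e⟩
    apply hL
    have : g⁻¹ * g0 ∈ L := hJL ⟨mem_IA_of_eq (e.trans h2.symm),
      Subgroup.mul_mem _ (Subgroup.inv_mem _ (hLG hg).1) h0⟩
    simpa using L.mul_mem hg this
  refine (hs ι K c y hv hy (hl K hK) hrk).mono ?_ le_rfl
  rintro g ⟨h3, α, h4, h5, h6⟩
  exact ⟨⟨h3, h3.1 y hy, α, h5, h6⟩, fun hg => h4 ⟨h5, g, hg, h6⟩⟩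

theorem sides_empty : sides (∅ : Set (Orb ι)) = ∅ := by simp [sides]

theorem Dg_hl (β : Au ι) (s : ι) :
    Dg (orb (hl β (s, true))) = Subgroup.closure (letter β '' {s}ᶜ) := by
  ext g
  rw [mem_Dg_orb]
  constructor
  · intro h
    refine mem_closure_of_sep β fun s' hs' => ?_
    obtain rfl : s' = s := by simpa using hs'
    exact h
  · intro h
    exact sep_hl_of_mem_closure β h (by simp)

theorem exists_abv (β : Au ι) (s : ι) {v : ι → ℤ} (hv : cls (hl β (s, true)) ⬝ᵥ v = 0) :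
    ∃ u ∈ Subgroup.closure (letter β '' {s}ᶜ), abv u = v := by
  rw [vector_eq_sum β v]
  refine Finset.sum_induction _ (fun w => ∃ u ∈ Subgroup.closure (letter β '' {s}ᶜ), abv u = w)
    ?_ ⟨1, Subgroup.one_mem _, abv_one⟩ fun s' _ => ?_
  · rintro _ _ ⟨u, hu, rfl⟩ ⟨u', hu', rfl⟩
    exact ⟨u * u', Subgroup.mul_mem _ hu hu', abv_mul _ _⟩
  · by_cases h : s' = s
    · subst h
      exact ⟨1, Subgroup.one_mem _, by rw [hv, abv_one, zero_smul]⟩
    · have h1 : letter β s' ∈ Subgroup.closure (letter β '' {s}ᶜ) :=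
        Subgroup.subset_closure ⟨s', h, rfl⟩
      exact ⟨_, Subgroup.zpow_mem _ h1 _, abv_zpow _ _⟩

/-- The automorphisms that fix `t` and act as `1 + v ⊗ φ`. -/
def Gs (t : Set (Fr ι)) (φ : ι → ℤ) : Subgroup (Au ι) where
  carrier := {γ | γ • t = t ∧ ∃ v, φ ⬝ᵥ v = 0 ∧ HasCl v φ γ}
  one_mem' := ⟨by simp, 0, by simp, by simp [HasCl, abM_one]⟩
  mul_mem' := fun {a b} ⟨ha, v, h1, h2⟩ ⟨hb, w, h1', h2'⟩ =>
    ⟨by rw [mul_smul, hb, ha], v + w, by rw [dotProduct_add, h1, h1', add_zero], by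
      rw [HasCl, h2.mul h2' h1', Matrix.add_vecMulVec, add_assoc]⟩
  inv_mem' := fun {a} ⟨ha, v, h1, h2⟩ =>
    ⟨by rw [inv_smul_eq_iff, ha], -v, by rw [dotProduct_neg, h1, neg_zero],
      by rw [HasCl, h2.inv h1, Matrix.neg_vecMulVec, sub_eq_add_neg]⟩

theorem comm_Gs {t : Set (Fr ι)} {φ : ι → ℤ} {g g' : Au ι} (hg : g ∈ Gs t φ) (hg' : g' ∈ Gs t φ) :
    g * g' * g⁻¹ * g'⁻¹ ∈ IA ι := by
  obtain ⟨-, v, h1, h2⟩ := hg
  obtain ⟨-, w, h1', h2'⟩ := hg'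
  have e : abM (g' * g)⁻¹⁻¹ = abM (g * g') := by
    rw [inv_inv, h2.mul h2' h1', h2'.mul h2 h1]; abel
  have := (inferInstance : (IA ι).Normal).conj_mem _ (mem_IA_of_eq e) (g' * g)
  convert this using 1
  group

theorem exists_Gs (β : Au ι) (s : ι) {v : ι → ℤ} (hv : cls (hl β (s, true)) ⬝ᵥ v = 0) :
    ∃ γ : Au ι, γ • hl β (s, false) = hl β (s, false) ∧ HasCl v (cls (hl β (s, true))) γ := by
  obtain ⟨u, hu, rfl⟩ := exists_abv β s hv
  obtain ⟨γ, h1, h2⟩ := exists_aut_nielsen β {s}ᶜ (fun _ => u * letter β s) fun s' hs' => by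
    obtain rfl : s' = s := by simpa using hs'
    exact ⟨u, hu, 1, Subgroup.one_mem _, true, by rw [sl_true, mul_one]⟩
  have h3 := h2 s (by simp)
  refine ⟨γ, ?_, mat_ext β fun s' => ?_⟩
  · rw [hl_aut]
    refine (eq_hl_of_sep _ (one_notMem_hl β _) ?_ fun s' hs' => ?_).symm
    · rw [sl_false, letter_trans, h3, mul_inv_rev,
        sep_mul_right (sep_hl_of_mem_closure β (Subgroup.inv_mem _ hu) (by simp)), ← sl_false]
      exact sep_hl_self β _
    · rw [letter_trans, h1 s' hs']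
      exact sep_hl_ne β hs'
  · rw [abM_mulVec, one_add_mulVec, dot_letter]
    by_cases h : s = s'
    · subst h
      rw [h3, abv_mul, if_pos rfl, one_smul, add_comm]
    · rw [h1 s' (Ne.symm h), if_neg h, zero_smul, add_zero]

theorem exists_Gh (β : Au ι) (s : ι) {φ : ι → ℤ} (hφ : φ ⬝ᵥ abv (letter β s) = 0) :
    ∃ γ ∈ Gh (letter β s), HasCl (abv (letter β s)) φ γ := by
  have h0 : letter β s ∈ Subgroup.closure (letter β '' {s}) :=
    Subgroup.subset_closure ⟨s, rfl, rfl⟩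
  obtain ⟨γ, h1, h2⟩ := exists_aut_nielsen β {s}
    (fun s' => letter β s ^ (φ ⬝ᵥ abv (letter β s')) * letter β s') fun s' _ =>
    ⟨_, Subgroup.zpow_mem _ h0 _, 1, Subgroup.one_mem _,
      true, by rw [sl_true, mul_one]⟩
  have h3 : HasCl (abv (letter β s)) φ γ := mat_ext β fun s' => by
    rw [abM_mulVec, one_add_mulVec]
    by_cases h : s' = s
    · subst h
      rw [h1 s' rfl, hφ, zero_smul, add_zero]
    · rw [h2 s' h, abv_mul, abv_zpow, add_comm]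
  exact ⟨γ, ⟨h1 s rfl, φ, hφ, h3⟩, h3⟩

theorem Hinc_Hinc {Γ : Type} [Group Γ] {J J' J'' : Subgroup Γ} (h : J ≤ J') (h' : J' ≤ J'')
    (q : ℕ) (x : Hq J q) : Hinc h' q (Hinc h q x) = Hinc (h.trans h') q x :=
  Hlift_comp id id _ _ _ q x

end JG3

open JG3

theorem p_ii (hPI : S_PI) (hgood : S_good) (hstar : S_star) : S_ii := by
  intro k
  obtain ⟨N, hN⟩ := hstar k
  refine ⟨N + 1, fun ι _ _ hc y γ hy hγ => ?_⟩
  obtain ⟨h0, α0, h1, h2⟩ := hγ
  have hD : (⟨{y}, ∅, ∅⟩ : Cfg ι).D = ⊤ := by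
    change Dg (sides ∅) = ⊤
    rw [sides_empty, Dg_empty]
  have hv : Valid (⟨{y}, ∅, ∅⟩ : Cfg ι) :=
    ⟨hy, sys_empty, fun _ _ => by rw [hD]; trivial, Set.finite_empty, by simp, by simp⟩
  refine pi_star hPI hN hv rfl (by rw [hD, rkD_top]; simp; omega)
    ⟨by simpa using h0, by simp, by simp⟩ h1 h2 fun K hK => Or.inr ?_
  obtain ⟨β, hβ⟩ := hy
  obtain ⟨s0, rfl⟩ := hβ rfl
  have had : Adapted β (⟨{letter β s0}, ∅, ∅⟩ : Cfg ι) :=
    ⟨hβ, by simp, by simp, by simp [sides_empty]⟩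
  obtain ⟨s, hs, hsK⟩ : ∃ s, s ≠ s0 ∧ cls (hl β (s, true)) ∉ K := by
    by_contra hcon
    push Not at hcon
    apply hK
    rw [covector_eq_sum β α0]
    refine K.sum_mem fun s _ => ?_
    by_cases h : s = s0
    · subst h
      rw [h1, zero_smul]; exact K.zero_mem
    · exact K.zsmul_mem (hcon s h) _
  exact ⟨_, (hgood ι K _ β hv had).1 s (by simp [Free, sides_empty])
    (fun h => hs (letter_injective β h)) hsK⟩

theorem p_iis (hPI : S_PI) (hTA : S_TA) (hsl : S_slide) (hB : S_B) (hstar : S_star) : S_iis := by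
  intro k
  obtain ⟨N, hN⟩ := hstar k
  obtain ⟨N1, hN1⟩ := hB k
  refine ⟨N + k + N1 + 2, fun ι _ _ hc β s v hv0 => ?_⟩
  obtain ⟨γ, hγ1, hγ2⟩ := exists_Gs β s hv0
  refine ⟨γ, hγ2, ?_⟩
  set tp := hl β (s, true) with htp
  set tm := hl β (s, false) with htm
  let c0 : Cfg ι := ⟨∅, {orb tp}, {tm}⟩
  have hD : c0.D = Subgroup.closure (letter β '' {s}ᶜ) := by
    change Dg (sides {orb tp}) = _
    rw [sides_singleton, Dg_hl]
  have hrk : rkD c0.D + 1 = Fintype.card ι := by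
    rw [hD, rkD_closure, ← Set.ncard_singleton s, add_comm, Set.ncard_add_ncard_compl,
      Nat.card_eq_fintype_card]
  have hbas : ∀ o ∈ ({orb tp} : Set (Orb ι)), ∃ s', o = orb (hl β (s', true)) :=
    fun o ho => ⟨s, ho⟩
  have hadj : ∀ b, Adj {orb tp} (hl β (s, b)) := fun b =>
    adj_hl_of_basis hbas (by rw [sides_singleton]; exact hl_mem_orb β s b true)
  have hv : Valid c0 := by
    refine ⟨pb_empty, ?_, by simp [c0], Set.finite_singleton _, ?_, ?_⟩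
    · simpa using sys_empty.insert_orb (isSph_hl β (s, true)) (by simp [sides_empty])
    · rintro _ rfl; exact hadj false
    · rintro _ rfl _ rfl _; rfl
  have horb : ∀ g : Au ι, g • tm = tm → g • orb tp = orb tp := by
    intro g hg
    rw [htp, ← orb_hl β s false, au_smul_orb, ← htm, hg]
  have hJG : IA ι ⊓ MulAction.stabilizer (Au ι) tm ≤ Gs tm (cls tp) := fun g hg =>
    ⟨hg.2, 0, by simp, by simp [HasCl, mem_IA.1 hg.1]⟩
  have hcomm : ∀ g ∈ Gs tm (cls tp), ∀ g' ∈ Gs tm (cls tp),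
      g * g' * g⁻¹ * g'⁻¹ ∈ IA ι ⊓ MulAction.stabilizer (Au ι) tm := fun g hg g' hg' =>
    ⟨comm_Gs hg hg', (Subgroup.mul_mem _ (Subgroup.mul_mem _ (Subgroup.mul_mem _ hg hg')
      (Subgroup.inv_mem _ hg)) (Subgroup.inv_mem _ hg')).1⟩
  refine hPI (Au ι) (Gs tm (cls tp)) _ γ k hJG hcomm ⟨hγ1, v, hv0, hγ2⟩ fun L hJL hLG hL => ?_
  let VL : AddSubgroup (ι → ℤ) :=
    { carrier := {w | cls tp ⬝ᵥ w = 0 ∧ ∃ g ∈ L, HasCl w (cls tp) g}
      zero_mem' := ⟨by simp, 1, L.one_mem, by simp [HasCl, abM_one]⟩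
      add_mem' := fun {a b} ⟨ha, g, hg, e⟩ ⟨hb, g', hg', e'⟩ =>
        ⟨by rw [dotProduct_add, ha, hb, add_zero], g * g', L.mul_mem hg hg', by
          rw [HasCl, e.mul e' hb, Matrix.add_vecMulVec, add_assoc]⟩
      neg_mem' := fun {a} ⟨ha, g, hg, e⟩ =>
        ⟨by rw [dotProduct_neg, ha, neg_zero], g⁻¹, L.inv_mem hg, by
          rw [HasCl, e.inv ha, Matrix.neg_vecMulVec, sub_eq_add_neg]⟩ }
  have hvL : v ∉ VL := by
    rintro ⟨-, g, hg, e⟩
    apply hL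
    have : g⁻¹ * γ ∈ L := hJL ⟨mem_IA_of_eq (e.trans hγ2.symm), by
      change (g⁻¹ * γ) • tm = tm
      rw [mul_smul, hγ1, inv_smul_eq_iff, (hLG hg).1]⟩
    simpa using L.mul_mem hg this
  obtain ⟨p, hp, ψ, hψ0, hψ⟩ := exists_psi
    (AddSubgroup.toIntSubmodule VL ⊔ Submodule.span ℤ {abv (letter β s)}) (by
      intro h
      have : v ∈ AddSubgroup.toIntSubmodule VL ⊔ Submodule.span ℤ {abv (letter β s)} := by
        rw [h]; trivial
      obtain ⟨w, hw, z, hz, e⟩ := Submodule.mem_sup.1 this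
      obtain ⟨n, rfl⟩ := Submodule.mem_span_singleton.1 hz
      have h1 : cls tp ⬝ᵥ w = 0 := hw.1
      have h2 := hv0
      rw [← e, dotProduct_add, h1, dotProduct_smul, htp, dot_letter] at h2
      have h3 : n = 0 := by simpa using h2
      apply hvL
      rw [← e, h3, zero_smul, add_zero]
      exact hw)
  have hψA : ψ ∉ Ann p c0.D := by
    intro h
    apply hψ0
    refine eq_of_dot_letter_p p β fun s' => ?_
    rw [zero_dotProduct]
    by_cases h' : s' = s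
    · subst h'
      exact hψ _ (Submodule.mem_sup_right (Submodule.mem_span_singleton_self _))
    · exact h _ (by rw [hD]; exact Subgroup.subset_closure ⟨s', h', rfl⟩)
  refine hTA (Au ι) (Fr ι) (Gs tm (cls tp)) _ _ (Bx (Gp p ψ) c0) k
    (fun S T h hT => ⟨fun b hb => h.1 b (hT hb), h.2.1.mono_right hT,
      h.2.2.mono (Set.union_subset_union_right _ hT)⟩)
    ⟨by simp, by simp, by simpa [c0] using pb_empty⟩ hJG hcomm (fun g hg => hg.1) ?_
    (hN1 ι p ψ c0 hv (Or.inr hψA) (by simp [c0] at hrk ⊢; omega)) ?_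
  · rintro g ⟨hg1, w, hg2, hg3⟩ S ⟨h1, -, h3⟩
    refine ⟨?_, by simp [c0], ?_⟩
    · rintro _ ⟨b, hb, rfl⟩
      obtain ⟨h4, h5⟩ := h1 b hb
      have h6 : b ∈ Dg (orb tp) := by
        have : b ∈ Dg (sides {orb tp}) := h4
        rwa [sides_singleton] at this
      refine ⟨?_, ?_⟩
      · change g b ∈ Dg (sides {orb tp})
        rw [sides_singleton, ← horb g hg1]
        exact au_mem_Dg.2 h6
      · have h7 : abv (g b) = abv b := by
          rw [HasCl.abv_apply hg3, cls_dot (isSph_hl β _).2.2.1,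
            pair_of_sep_empty (mem_Dg_orb.1 h6), zero_smul, add_zero]
        have h8 : abp p (g b) = abp p b := by
          ext i; simp only [abp, h7]
        change ψ = 0 ∨ ψ ⬝ᵥ abp p (g b) ≠ 0
        rw [h8]; exact h5
    · have := h3.aut g
      simpa [c0] using this
  · intro l hl hlen ⟨h1, _, h3⟩
    obtain ⟨y, hy⟩ := List.exists_mem_of_ne_nil l hl
    have hvl : Valid (c0.addA (vs l)) := hv.addA_iff.2 ⟨h3, fun b hb => (h1 b hb).1⟩
    have hyA : y ∈ (c0.addA (vs l)).A := Or.inr hy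
    have hnt : ∀ t' ∈ (c0.addA (vs l)).T, ¬ Tr tp t' := by
      rintro _ rfl; exact not_tr_hl β s
    obtain ⟨τ, hτ, h4, h5, -⟩ := hsl ι _ y tp hvl hyA (hadj true) hnt
    have e : IA ι ⊓ MulAction.stabilizer (Au ι) tm ⊓ MulAction.stabilizer (Au ι) l =
        IA ι ⊓ Stab (c0.addA (vs l)) := by
      ext g
      simp only [Subgroup.mem_inf, mem_stabilizer_list, mem_Stab, and_assoc]
      refine and_congr_right fun _ => ⟨fun ⟨h6, h7⟩ => ⟨?_, ?_, ?_⟩, fun ⟨h6, _, h8⟩ =>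
        ⟨h8 tm rfl, fun a ha => h6 a (Or.inr ha)⟩⟩
      · rintro a (ha | ha)
        · exact absurd ha (Set.notMem_empty a)
        · exact h7 a ha
      · rintro _ rfl; exact horb g h6
      · rintro _ rfl; exact h6
    rw [e]
    refine (pi_star hPI hN hvl hyA ?_ hτ h5 h4 fun K hK =>
      Or.inl ⟨tp, hadj true, hK, hnt⟩).mono ?_ (by
        have : l.length ≠ 0 := by simpa using hl
        omega)
    · have h6 : (c0.addA (vs l)).A.ncard ≤ l.length := by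
        simpa [c0, Cfg.addA] using vs_ncard_le l
      have h7 : (c0.addA (vs l)).D = c0.D := rfl
      rw [h7]; omega
    · rintro _ rfl
      refine ⟨⟨⟨hτ.2.2 tm rfl, abv y, h5, h4⟩, fun hτL => ?_⟩,
        mem_stabilizer_list.2 fun a ha => hτ.1 a (Or.inr ha)⟩
      have h6 := hψ (abv y) (Submodule.mem_sup_left (show abv y ∈ VL from ⟨h5, _, hτL, h4⟩))
      exact ((h1 y hy).2.resolve_left hψ0) h6

theorem p_uni (halg : S_alg) (hLU : S_TorsLU) (hii : S_ii) (hiis : S_iis) : S_uni := by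
  intro q
  obtain ⟨N, hN⟩ := hii q
  obtain ⟨N', hN'⟩ := hiis q
  refine ⟨N + N', fun ι _ _ hc β s γ v φ hγ h1 h2 h3 x => ?_⟩
  obtain ⟨X, hX, hX'⟩ := exists_Gh β s h2
  obtain ⟨Z, hZ, hZT⟩ := hN' ι (by omega) β s v h3
  have hXT := hN ι (by omega) (letter β s) X ⟨β, by simp⟩ hX
  have hfix : ∀ g ∈ MulAction.stabilizer (Au ι) [hv β s],
      g (letter β s) = letter β s ∧ g • hl β (s, true) = hl β (s, true) := fun g hg => by
    have := mem_stabilizer_list.1 hg (hv β s) (by simp)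
    exact ⟨congrArg Prod.fst this, congrArg Prod.snd this⟩
  have l1 : IA ι ⊓ MulAction.stabilizer (Au ι) [hv β s] ≤ IA ι ⊓ Stab ⟨{letter β s}, ∅, ∅⟩ :=
    fun g hg => ⟨hg.1, by simpa using (hfix g hg.2).1, by simp, by simp⟩
  have l2 : IA ι ⊓ MulAction.stabilizer (Au ι) [hv β s] ≤
      IA ι ⊓ MulAction.stabilizer (Au ι) (hl β (s, false)) := fun g hg => ⟨hg.1, by
    change g • hl β (s, false) = hl β (s, false)
    rw [hl_opp β (s, false), au_smul_smul, smul_compl_au, sl_false, map_inv, (hfix g hg.2).1]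
    exact congrArg (fun t => _ • tᶜ) (hfix g hg.2).2⟩
  have u1 := hLU _ _ (IA ι) inf_le_left X q hXT (Hinc l1 q x)
  have u2 := hLU _ _ (IA ι) inf_le_left Z q hZT (Hinc l2 q x)
  rw [Hinc_Hinc] at u1 u2
  have h4 : cls (hl β (s, true)) ⬝ᵥ abv (letter β s) = 1 := by rw [dot_letter, if_pos rfl]
  refine halg _ _ (Hrep (IA ι) q) X γ Z (rep_eq q ?_) (rep_eq q ?_) (rep_eq q ?_) _ u1 u2
  · rw [hX'.mul hγ h1, abM_mul, abM_mul, hZ.inv h3, hZ, hX']
    simp only [add_mul, mul_add, mul_sub, one_mul, mul_one, Matrix.vecMulVec_mul_vecMulVec, h1, h3,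
      h4, one_smul, zero_smul, Matrix.vecMulVec_zero]
    abel
  · rw [hX'.mul hγ h1, hγ.mul hX' h2]; abel
  · rw [hγ.mul hZ h1, hZ.mul hγ h3]; abel

end Pool.Agent.Lib.MP_49df17_al
end
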