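import Pool.Agent.Lib.MP_49df17_al.Core

-- part Pool.Agent.Lib.MP_49df17_al.G1
section

/-!
Prism homotopies for the homology of subgroups and two prime ideal arguments.
-/

namespace Pool.Agent.Lib.MP_49df17_al

open Finsupp

namespace JG1

theorem mapL_consL {V W : Type} (f : V → W) (a : V) (c : List V →₀ ℚ) :
    mapL f (consL a c) = consL (f a) (mapL f c) := by
  induction c using Finsupp.induction_linear with
  | zero => simp
  | add x y hx hy => simp only [map_add, hx, hy]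
  | single l r => simp

theorem prism_map {V W : Type} {f g : V → W} {u : V → V} {w : W → W} (hf : ∀ x, f (u x) = w (f x))
    (hg : ∀ x, g (u x) = w (g x)) (l : List V) :
    prism f g (l.map u) = mapL w (prism f g l) := by
  induction l with
  | nil => simp [prism]
  | cons a l ih =>
    simp only [List.map_cons, prism, map_sub, mapL_single, mapL_consL, ih, hf, hg, List.map_map,
      Function.comp_def]

theorem prismL_dE {V W : Type} (f g : V → W) (c : List V →₀ ℚ) :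
    prismL f g (dE c) = prismL f g (bd c) := by
  simp [dE, killNil, prismL, prism]

theorem prismL_mem {V W : Type} (f g : V → W) {n : ℕ} {c : List V →₀ ℚ} (hc : c ∈ Cn V n) :
    prismL f g c ∈ Cn W (n + 1) := by
  refine Ch_induction (prismL f g) _ (fun l h1 _ => ?_) hc
  rw [prismL_single]
  intro l' hl'
  exact ⟨by rw [(prism_support f g l hl').1, h1], trivial⟩

variable {Γ : Type} [Group Γ]

theorem Bs_mono {J J' : Subgroup Γ} (h : J ≤ J') (q : ℕ) : Bs J q ≤ Bs J' q :=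
  sup_le_sup_left (IS_mono h _) _

theorem mk_eq_zero {J : Subgroup Γ} {q : ℕ} (c : Zs J q) :
    (Submodule.Quotient.mk c : Hq J q) = 0 ↔ c.1 ∈ Bs J q := Submodule.Quotient.mk_eq_zero _

theorem opL_mk {J : Subgroup Γ} {q : ℕ} (τ : Γ → Module.End ℚ (Hq J q)) (L : List Γ)
    (hτ : ∀ g ∈ L, ∀ c : Zs J q, ∃ h, τ g (Submodule.Quotient.mk c) =
      Submodule.Quotient.mk ⟨perm Γ (List Γ) g c.1, h⟩) (c : Zs J q) :
    ∃ h, (L.map fun g => τ g - 1).prod (Submodule.Quotient.mk c) =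
      Submodule.Quotient.mk ⟨opL (List Γ) L c.1, h⟩ := by
  induction L with
  | nil => exact ⟨c.2, rfl⟩
  | cons g L ih =>
    obtain ⟨h1, e1⟩ := ih fun g' hg' => hτ g' (List.mem_cons_of_mem _ hg')
    obtain ⟨h2, e2⟩ := hτ g List.mem_cons_self ⟨_, h1⟩
    refine ⟨Submodule.sub_mem _ h2 h1, ?_⟩
    rw [List.map_cons, List.prod_cons, Module.End.mul_apply, e1, LinearMap.sub_apply, e2,
      Module.End.one_apply, ← Submodule.Quotient.mk_sub]
    rfl

section Prime

variable {M : Type} [AddCommGroup M] [Module ℚ M]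

theorem exists_comm (S : Set (Module.End ℚ M)) (hS : ∀ a ∈ S, ∀ b ∈ S, a * b = b * a) :
    ∃ (A : Type) (_ : CommRing A) (φ : A →+* Module.End ℚ M),
      Function.Injective φ ∧ ∀ a ∈ S, ∃ x, φ x = a := by
  have := Algebra.isMulCommutative_adjoin ℚ hS
  open scoped IsMulCommutative in
  exact ⟨Algebra.adjoin ℚ S, inferInstance, (Algebra.adjoin ℚ S).val.toRingHom,
    Subtype.val_injective, fun a ha => ⟨⟨a, Algebra.subset_adjoin ha⟩, rfl⟩⟩

theorem prime_lem {A : Type} [CommRing A] (φ : A →+* Module.End ℚ M) (t : A) (m : M)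
    (h : ∀ P : Ideal A, P.IsPrime → t ∉ P → ∃ s ∉ P, φ s m = 0) : ∃ n : ℕ, (φ t ^ n) m = 0 := by
  let I : Ideal A :=
    { carrier := {a | φ a m = 0}
      add_mem' := fun {a b} ha hb => by
        simp only [Set.mem_ofPred_eq] at ha hb ⊢
        rw [map_add, LinearMap.add_apply, ha, hb, add_zero]
      zero_mem' := by simp
      smul_mem' := fun a b hb => by
        simp only [Set.mem_ofPred_eq] at hb ⊢
        rw [smul_eq_mul, map_mul, Module.End.mul_apply, hb, map_zero] }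
  by_contra c
  obtain ⟨P, h1, h2, h3⟩ := I.exists_le_prime_disjoint (Submonoid.powers t) (by
    rw [Set.disjoint_right]
    rintro _ ⟨n, rfl⟩ hn
    exact c ⟨n, by rw [← map_pow]; exact hn⟩)
  have ht : t ∉ P := Set.disjoint_right.1 h3 (Submonoid.mem_powers t)
  obtain ⟨s, hs, e⟩ := h P h1 ht
  exact hs (h2 e)

/-- A vector on which `Z` is unipotent lies in the span of any infinite part of its orbit. -/
theorem mem_of_infinite (Z : Module.End ℚ M) (m : M) (hZ : LU Z m) (K : Submodule ℚ M)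
    (h : {i : ℕ | (Z ^ i) m ∈ K}.Infinite) : m ∈ K := by
  obtain ⟨d, hd⟩ := hZ
  rw [← Subspace.forall_mem_dualAnnihilator_apply_eq_zero_iff]
  intro f hf
  rw [Submodule.mem_dualAnnihilator] at hf
  have h0 : ∀ k, d ≤ k → ((Z - 1) ^ k) m = 0 := fun k hk => by
    rw [← Nat.sub_add_cancel hk, pow_add, Module.End.mul_apply, hd, map_zero]
  obtain ⟨p, hp⟩ : ∃ p : Polynomial ℚ, ∀ i : ℕ, p.eval (i : ℚ) = f ((Z ^ i) m) := by
    refine ⟨∑ k ∈ Finset.range d, Polynomial.C (f (((Z - 1) ^ k) m) / k.factorial) *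
      descPochhammer ℚ k, fun i => ?_⟩
    have e1 : (Z ^ i) m = ∑ k ∈ Finset.range (i + 1), (i.choose k : ℚ) • ((Z - 1) ^ k) m := by
      conv_lhs => rw [← sub_add_cancel Z 1, (Commute.one_right _).add_pow, LinearMap.sum_apply]
      refine Finset.sum_congr rfl fun k _ => ?_
      rw [one_pow, mul_one, Module.End.mul_apply, Module.End.natCast_apply, map_nsmul,
        Nat.cast_smul_eq_nsmul]
    rw [e1, map_sum, Polynomial.eval_finsetSum,
      Finset.sum_subset (Finset.range_mono (le_max_left d (i + 1))) (fun k _ hk => by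
        rw [h0 k (by simpa using hk)]; simp),
      Finset.sum_subset (Finset.range_mono (le_max_right d (i + 1))) (fun k _ hk => by
        rw [Nat.choose_eq_zero_of_lt (by simpa using hk)]; simp)]
    refine Finset.sum_congr rfl fun k _ => ?_
    have : (k.factorial : ℚ) ≠ 0 := by exact_mod_cast k.factorial_ne_zero
    rw [Polynomial.eval_mul, Polynomial.eval_C, descPochhammer_eval_eq_descFactorial,
      Nat.descFactorial_eq_factorial_mul_choose, map_smul, smul_eq_mul]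
    push_cast
    field_simp
  have h1 : p = 0 := p.eq_zero_of_infinite_isRoot
    ((h.image Nat.cast_injective.injOn).mono (by
      rintro _ ⟨i, hi, rfl⟩
      exact (hp i).trans (hf _ hi)))
  simpa [h1] using (hp 0).symm

end Prime

end JG1

open JG1

theorem p_Heq : S_Heq := by
  intro Γ Γ' _ _ J J' f f' hf hf' h q
  refine LinearMap.ext fun x => ?_
  induction x using Submodule.Quotient.induction_on with
  | H c =>
    obtain ⟨_, e1⟩ := Hlift_mk f hf q c
    obtain ⟨_, e2⟩ := Hlift_mk f' hf' q c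
    rw [e1, e2, eq_comm, Hq_mk_eq]
    change mapL f' c.1 - mapL f c.1 ∈ _
    have h1 := prismL_mem f f' c.2.1
    rw [← bd_prismL, ← dE_eq_bd h1, ← prismL_dE]
    refine Submodule.add_mem_sup ⟨_, h1, rfl⟩ (IS_induction (prismL f f') _ (fun j hj l => ?_) c.2.2)
    obtain ⟨j', hj', a1, a2⟩ := h j hj
    rw [prismL_single, prismL_single, smul_list,
      prism_map (u := (j • ·)) (w := (j' • ·)) a1 a2]
    exact perm_sub_mem_IS hj' _

theorem p_Hbij : S_Hbij := by
  intro Γ Γ' _ _ J J' f h hi hJ q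
  obtain ⟨u, u1, u2⟩ : ∃ u : Γ' → Γ', (∀ y, u y ∈ J') ∧ ∀ j ∈ J', ∀ y, u (j * y) = j * u y := by
    refine ⟨fun y => y * (Quotient.mk (QuotientGroup.rightRel J') y).out⁻¹, fun y => ?_,
      fun j hj y => ?_⟩
    · exact QuotientGroup.rightRel_apply.1 (Quotient.mk_out (s := QuotientGroup.rightRel J') y)
    · have : Quotient.mk (QuotientGroup.rightRel J') (j * y) =
          Quotient.mk (QuotientGroup.rightRel J') y :=
        (Quotient.sound (QuotientGroup.rightRel_apply.2 (by simpa using hj))).symm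
      simp only [this, mul_assoc]
  choose r _ r2 using fun y => Subgroup.mem_map.1 (hJ ▸ u1 y : u y ∈ J.map f)
  have r3 : ∀ j ∈ J, ∀ y, r (f j * y) = j * r y := fun j hj y =>
    hi (by rw [map_mul, r2, r2, u2 _ (h j hj)])
  have hr : ∀ j' ∈ J', ∃ j ∈ J, ∀ y, r (j' * y) = j * r y := fun j' hj' => by
    obtain ⟨j, hj, rfl⟩ := Subgroup.mem_map.1 (hJ ▸ hj' : j' ∈ J.map f)
    exact ⟨j, hj, r3 j hj⟩
  have a1 : ∀ j ∈ J, ∀ x, (r ∘ f) (j * x) = j * (r ∘ f) x := fun j hj x => by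
    simp only [Function.comp, map_mul, r3 j hj]
  have a2 : ∀ j ∈ J', ∀ y, (f ∘ r) (j * y) = j * (f ∘ r) y := fun j hj y => by
    simp only [Function.comp, r2, u2 j hj]
  refine Function.bijective_iff_has_inverse.2 ⟨Hlift r hr q, fun x => ?_, fun x => ?_⟩
  · rw [Hmap, Hlift_comp f r _ _ fun j hj => ⟨j, hj, a1 j hj⟩,
      p_Heq Γ Γ J J _ id _ (fun j hj => ⟨j, hj, fun _ => rfl⟩)
        fun j hj => ⟨j, hj, a1 j hj, fun _ => rfl⟩, Hlift_id]
  · rw [Hmap, Hlift_comp r f _ _ fun j hj => ⟨j, hj, a2 j hj⟩,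
      p_Heq Γ' Γ' J' J' _ id _ (fun j hj => ⟨j, hj, fun _ => rfl⟩)
        fun j hj => ⟨j, hj, a2 j hj, fun _ => rfl⟩, Hlift_id]

theorem p_center : S_center := by
  intro Γ _ J g hg k q _ c hc
  have a1 : ∀ j ∈ J, ∀ x, g * (j * x) = j * (g * x) := fun j hj x => by
    rw [← mul_assoc, hg j hj, mul_assoc]
  have h1 := LinearMap.congr_fun (p_Heq Γ Γ J J (g * ·) id (fun j hj => ⟨j, hj, a1 j hj⟩)
    (fun j hj => ⟨j, hj, fun _ => rfl⟩) (fun j hj => ⟨j, hj, a1 j hj, fun _ => rfl⟩) q)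
    (Submodule.Quotient.mk ⟨c, hc⟩)
  obtain ⟨_, e⟩ := Hlift_mk (J' := J) (g * ·) (fun j hj => ⟨j, hj, a1 j hj⟩) q ⟨c, hc⟩
  rw [Hlift_id, e, Hq_mk_eq] at h1
  refine ⟨[g], by simp, ?_⟩
  simpa [opL, perm_list] using h1

theorem p_TorsLU : S_TorsLU := by
  intro Γ _ J J' _ h g q hT x
  induction x using Submodule.Quotient.induction_on with
  | H c =>
    obtain ⟨L, h1, h2⟩ := hT q le_rfl c.1 c.2
    obtain ⟨h3, e⟩ := Hlift_mk (J' := J') id (fun j hj => ⟨j, h hj, fun _ => rfl⟩) q c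
    have e0 : mapL id c.1 = c.1 := by simp [mapL]
    obtain ⟨h4, e'⟩ := opL_mk (Hrep J' q) L (fun g _ c => Hrep_mk J' q g c) ⟨_, h3⟩
    have e1 : (L.map fun g => Hrep J' q g - 1).prod = (Hrep J' q g - 1) ^ L.length := by
      rw [List.prod_eq_pow_card _ (Hrep J' q g - 1), List.length_map]
      intro a ha
      obtain ⟨b, hb, rfl⟩ := List.mem_map.1 ha
      rw [h1 b hb]
    refine ⟨L.length, ?_⟩
    rw [Hinc, e, ← e1, e', mk_eq_zero]
    change opL _ _ (mapL id c.1) ∈ _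
    rw [e0]
    exact Bs_mono h q h2

theorem p_PI : S_PI := by
  classical
  intro Γ _ G J g0 k hJ hc hg0 hT q hq c hcz
  have hn : ∀ g ∈ G, ∀ j ∈ J, ∃ j' ∈ J, ∀ x, g * (j * x) = j' * (g * x) := fun g hg j hj =>
    ⟨g * j * g⁻¹ * j⁻¹ * j, J.mul_mem (hc g hg j (hJ hj)) hj, fun x => by group⟩
  obtain ⟨T, hT0⟩ : ∃ T : Γ → Module.End ℚ (Hq J q), ∀ g ∈ G, ∀ c : Zs J q, ∃ h,
      T g (Submodule.Quotient.mk c) = Submodule.Quotient.mk ⟨perm Γ (List Γ) g c.1, h⟩ :=
    ⟨fun g => if h : g ∈ G then Hlift (g * ·) (hn g h) q else 1, fun g hg c => by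
      simp only [dif_pos hg]
      exact Hlift_mk (g * ·) (hn g hg) q c⟩
  have T1 : ∀ j ∈ J, T j = 1 := fun j hj => LinearMap.ext fun x => by
    induction x using Submodule.Quotient.induction_on with
    | H c =>
      obtain ⟨h, e⟩ := hT0 j (hJ hj) c
      rw [e, Module.End.one_apply, Hq_mk_eq]
      exact Submodule.mem_sup_right (perm_sub_mem_IS hj _)
  have T2 : ∀ g ∈ G, ∀ g' ∈ G, T (g * g') = T g * T g' := fun g hg g' hg' =>
    LinearMap.ext fun x => by
      induction x using Submodule.Quotient.induction_on with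
      | H c =>
        obtain ⟨h1, e1⟩ := hT0 g' hg' c
        obtain ⟨h2, e2⟩ := hT0 g hg ⟨_, h1⟩
        obtain ⟨h3, e3⟩ := hT0 _ (G.mul_mem hg hg') c
        rw [Module.End.mul_apply, e1, e2, e3]
        congr 2
        rw [map_mul, Module.End.mul_apply]
  obtain ⟨A, _, φ, hφ, hA⟩ := exists_comm (T '' G) (by
    rintro _ ⟨g, hg, rfl⟩ _ ⟨g', hg', rfl⟩
    rw [← T2 g hg g' hg', show g * g' = g * g' * g⁻¹ * g'⁻¹ * (g' * g) by group,
      T2 _ (hJ (hc g hg g' hg')) _ (G.mul_mem hg' hg), T1 _ (hc g hg g' hg'), one_mul,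
      T2 g' hg' g hg])
  obtain ⟨t, ht⟩ : ∃ t : Γ → A, ∀ g ∈ G, φ (t g) = T g :=
    ⟨fun g => Function.invFun φ (T g), fun g hg => Function.invFun_eq (hA _ ⟨g, hg, rfl⟩)⟩
  have t1 : ∀ j ∈ J, t j = 1 := fun j hj => hφ (by rw [ht j (hJ hj), T1 j hj, map_one])
  have t2 : ∀ g ∈ G, ∀ g' ∈ G, t (g * g') = t g * t g' := fun g hg g' hg' =>
    hφ (by rw [map_mul, ht _ (G.mul_mem hg hg'), ht g hg, ht g' hg', T2 g hg g' hg'])
  obtain ⟨n, hn⟩ := prime_lem φ (t g0 - 1) (Submodule.Quotient.mk ⟨c, hcz⟩) fun P hP h0 => by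
    let L : Subgroup Γ :=
      { carrier := {g | g ∈ G ∧ t g - 1 ∈ P}
        mul_mem' := fun {a b} ha hb => ⟨G.mul_mem ha.1 hb.1, by
          rw [t2 a ha.1 b hb.1, show t a * t b - 1 = t a * (t b - 1) + (t a - 1) by ring]
          exact P.add_mem (P.mul_mem_left _ hb.2) ha.2⟩
        one_mem' := ⟨G.one_mem, by rw [t1 1 J.one_mem, sub_self]; exact P.zero_mem⟩
        inv_mem' := fun {a} ha => ⟨G.inv_mem ha.1, by
          have := t2 _ (G.inv_mem ha.1) a ha.1
          rw [inv_mul_cancel, t1 1 J.one_mem] at this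
          rw [show t a⁻¹ - 1 = -t a⁻¹ * (t a - 1) by linear_combination -this]
          exact P.mul_mem_left _ ha.2⟩ }
    obtain ⟨l, h1, h2⟩ := hT L (fun j hj => ⟨hJ hj, by rw [t1 j hj, sub_self]; exact P.zero_mem⟩)
      (fun _ h => h.1) (fun h => h0 h.2) q hq c hcz
    obtain ⟨h3, e⟩ := opL_mk T l (fun g hg => hT0 g (h1 g hg).1) ⟨c, hcz⟩
    refine ⟨(l.map fun g => t g - 1).prod, P.primeCompl.list_prod_mem fun x hx => ?_, ?_⟩
    · obtain ⟨g, hg, rfl⟩ := List.mem_map.1 hx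
      exact fun h => (h1 g hg).2 ⟨(h1 g hg).1, h⟩
    · rw [map_list_prod, List.map_map, List.map_congr_left (g := fun g => T g - 1) fun g hg => by
        simp only [Function.comp, map_sub, map_one, ht g (h1 g hg).1], e, mk_eq_zero]
      exact h2
  obtain ⟨h3, e⟩ := opL_mk T (List.replicate n g0)
    (fun g hg => hT0 g (List.eq_of_mem_replicate hg ▸ hg0)) ⟨c, hcz⟩
  refine ⟨List.replicate n g0, fun g hg => List.eq_of_mem_replicate hg, ?_⟩
  rw [map_sub, map_one, ht g0 hg0] at hn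
  rw [List.map_replicate, List.prod_replicate, hn, eq_comm, mk_eq_zero] at e
  exact e

theorem p_alg : S_alg := by
  intro Q M _ _ _ ρ x y z h1 h2 h3 m ⟨N, hN⟩ hz
  have e1 : ρ z * ρ x = ρ x * ρ y * ρ z := by
    rw [← map_mul ρ x, ← h1, ← map_mul, ← map_mul, inv_mul_cancel_right]
  rw [map_mul, map_mul] at h2 h3
  have e2 : ∀ i : ℕ, ρ z ^ i * ρ x = ρ x * ρ y ^ i * ρ z ^ i := fun i => by
    induction i with
    | zero => simp
    | succ i ih =>
      rw [pow_succ', mul_assoc, ih, ← mul_assoc, ← mul_assoc, e1, mul_assoc _ (ρ z),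
        ← ((show Commute (ρ y) (ρ z) from h3).pow_left i).eq, pow_succ']
      simp only [mul_assoc]
  obtain ⟨A, _, φ, -, hA⟩ := exists_comm {ρ x, ρ y} (by
    rintro _ (rfl | rfl) _ (rfl | rfl)
    exacts [rfl, h2.symm, h2, rfl])
  obtain ⟨X, hX⟩ := hA (ρ x) (Or.inl rfl)
  obtain ⟨Y, hY⟩ := hA (ρ y) (Or.inr rfl)
  obtain ⟨n, hn⟩ := prime_lem φ (Y - 1) m fun P hP h0 => by
    let K : Submodule ℚ M :=
      { carrier := {v | ∃ s ∉ P, φ s v = 0}
        add_mem' := fun {a b} ⟨s, hs, ea⟩ ⟨s', hs', eb⟩ =>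
          ⟨s * s', P.primeCompl.mul_mem hs hs', by
            rw [map_add, map_mul φ s s', Module.End.mul_apply _ _ b, eb, map_zero, add_zero,
              ← map_mul, mul_comm, map_mul, Module.End.mul_apply, ea, map_zero]⟩
        zero_mem' := ⟨1, P.primeCompl.one_mem, map_zero _⟩
        smul_mem' := fun a v ⟨s, hs, e⟩ => ⟨s, hs, by rw [map_smul, e, smul_zero]⟩ }
    have a1 : ∀ i : ℕ, X * Y ^ i - 1 ∉ P → (ρ z ^ i) m ∈ K := fun i hi =>
      ⟨(X * Y ^ i - 1) ^ N, P.primeCompl.pow_mem hi N, by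
        have : SemiconjBy (ρ z ^ i) (ρ x - 1) (ρ x * ρ y ^ i - 1) :=
          SemiconjBy.sub_right (e2 i) (SemiconjBy.one_right _)
        rw [map_pow, map_sub, map_mul, map_pow, hX, hY, map_one, ← Module.End.mul_apply,
          ← (this.pow_right N).eq, Module.End.mul_apply, hN, map_zero]⟩
    refine mem_of_infinite (ρ z) m hz K (Set.infinite_of_forall_exists_gt fun i => ?_)
    by_cases c : X * Y ^ (i + 1) - 1 ∈ P
    · refine ⟨i + 2, a1 _ fun c' => h0 ?_, by omega⟩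
      rw [show Y - 1 = X * Y ^ (i + 2) - 1 - Y * (X * Y ^ (i + 1) - 1) by ring]
      exact P.sub_mem c' (P.mul_mem_left _ c)
    · exact ⟨i + 1, a1 _ c, by omega⟩
  exact ⟨n, by rwa [map_sub, map_one, hY] at hn⟩

end Pool.Agent.Lib.MP_49df17_al
end

-- part Pool.Agent.Lib.MP_49df17_al.Gen
section

/-!
Generation in bounded rank, from the action of the IA-group on the complex of handles.
-/

namespace Pool.Agent.Lib.MP_49df17_al

open Finsupp
open scoped Pointwise

namespace JGen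

section coeff

variable {W M N : Type} [AddCommGroup M] [Module ℚ M] [AddCommGroup N] [Module ℚ N]

theorem single_mem_ChC {𝒜 : Set W → Submodule ℚ M} {Y : Cx W} {n : ℕ} {l : List W} {a : M}
    (h1 : l.length = n) (h2 : Y (vs l)) (h3 : a ∈ 𝒜 (vs l)) : single l a ∈ ChC 𝒜 Y n := by
  classical
  intro l'
  rw [single_apply]
  split_ifs with h
  · subst h
    exact ⟨h3, fun _ => ⟨h1, h2⟩⟩
  · exact ⟨Submodule.zero_mem _, fun h => absurd rfl h⟩

theorem ChC_induction {𝒜 : Set W → Submodule ℚ M} {Y : Cx W} {n : ℕ}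
    (f : (List W →₀ M) →ₗ[ℚ] N) (U : Submodule ℚ N)
    (h : ∀ l a, l.length = n → Y (vs l) → a ∈ 𝒜 (vs l) → f (single l a) ∈ U) {c : List W →₀ M}
    (hc : c ∈ ChC 𝒜 Y n) : f c ∈ U := by
  rw [← c.sum_single, Finsupp.sum, map_sum]
  refine U.sum_mem fun l hl => ?_
  have := (hc l).2 (mem_support_iff.1 hl)
  exact h l _ this.1 this.2 (hc l).1

/-- Change of coefficients. -/
noncomputable def cf (φ : M →ₗ[ℚ] N) : (List W →₀ M) →ₗ[ℚ] (List W →₀ N) :=
  Finsupp.mapRange.linearMap φ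

theorem cf_single (φ : M →ₗ[ℚ] N) (l : List W) (a : M) : cf φ (single l a) = single l (φ a) := by
  simp [cf]

theorem cf_bd (φ : M →ₗ[ℚ] N) (c : List W →₀ M) : cf φ (bd c) = bd (cf φ c) := by
  induction c using Finsupp.induction_linear with
  | zero => simp
  | add a b ha hb => simp only [map_add, ha, hb]
  | single l a => simp only [bd_single, map_sum, map_smul, cf_single]

theorem cf_injective {φ : M →ₗ[ℚ] N} (h : Function.Injective φ) :
    Function.Injective (cf (W := W) φ) := Finsupp.mapRange_injective _ (map_zero φ) h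

end coeff

section abstract

variable {Γ V W : Type} [Group Γ] [MulAction Γ V]

/-- Chains modulo boundaries. -/
abbrev QB (J : Subgroup Γ) (p : ℕ) : Type := (List Γ →₀ ℚ) ⧸ Bs J p

/-- The data of an orbit map on lists. -/
structure Orbit (J : Subgroup Γ) (X : Cx V) (z : V → W) (Y : Cx W) : Prop where
  down : Down X
  inv : ∀ j ∈ J, ∀ S, X S → X (j • S)
  const : ∀ j ∈ J, ∀ l, X (vs l) → (j • l).map z = l.map z
  trans : ∀ l l', X (vs l) → X (vs l') → l.map z = l'.map z → ∃ j ∈ J, j • l = l'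
  img : ∀ l, X (vs l) → Y (vs (l.map z))
  lift : ∀ l, Y (vs l) → ∃ l', X (vs l') ∧ l'.map z = l

open Classical in
/-- The comparison map on pair chains. -/
noncomputable def FP0 (J : Subgroup Γ) (X : Cx V) (z : V → W) (p : ℕ) :
    PT Γ V →ₗ[ℚ] (List W →₀ QB J p) :=
  Finsupp.linearCombination ℚ fun x =>
    if X (vs x.2) then single (x.2.map z) ((Bs J p).mkQ (single x.1 1)) else 0

omit [MulAction Γ V] in
theorem FP0_atL {J : Subgroup Γ} {X : Cx V} (z : V → W) (p : ℕ) {l : List V} (h : X (vs l))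
    (c : List Γ →₀ ℚ) : FP0 J X z p (atL l c) = single (l.map z) ((Bs J p).mkQ c) := by
  induction c using Finsupp.induction_linear with
  | zero => simp
  | add x y hx hy => simp only [map_add, hx, hy, single_add]
  | single γ r =>
    rw [atL_single, FP0, Finsupp.linearCombination_single, if_pos h, single_eq_smul γ r, map_smul,
      smul_single]

variable {J : Subgroup Γ} {X : Cx V} {z : V → W} {Y : Cx W}

/-- The comparison map on coinvariants. -/
noncomputable def Orbit.F (h : Orbit J X z Y) (p : ℕ) : TQ J V →ₗ[ℚ] (List W →₀ QB J p) :=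
  (IS J (List Γ × List V)).liftQ (FP0 J X z p) fun _ hc =>
    (Submodule.mem_bot ℚ).1 (IS_induction (FP0 J X z p) ⊥ (fun j hj ⟨γ, l⟩ => by
      rw [Submodule.mem_bot, sub_eq_zero, Prod.smul_mk]
      by_cases hl : X (vs l)
      · have hl' : X (vs (j • l)) := by rw [vs_smul]; exact h.inv j hj _ hl
        rw [← atL_single, ← atL_single, FP0_atL z p hl, FP0_atL z p hl', h.const j hj l hl]
        congr 1
        exact (Submodule.Quotient.eq _).2
          (Submodule.mem_sup_right (Submodule.subset_span ⟨j, hj, γ, rfl⟩))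
      · have hl' : ¬ X (vs (j • l)) := fun h' => hl (by
          have := h.inv _ (J.inv_mem hj) _ h'
          rwa [vs_smul, inv_smul_smul] at this)
        simp [FP0, hl, hl']) hc)

theorem Orbit.F_atL (h : Orbit J X z Y) (p : ℕ) {l : List V} (hl : X (vs l)) (c : List Γ →₀ ℚ) :
    h.F p (mkT J (atL l c)) = single (l.map z) ((Bs J p).mkQ c) := FP0_atL z p hl c

theorem Orbit.F_dh (h : Orbit J X z Y) (p : ℕ) {p' s : ℕ} {x : TQ J V}
    (hx : x ∈ (eqDC J X h.down).D p' s) : h.F p ((eqDC J X h.down).dh x) = bd (h.F p x) := by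
  obtain ⟨x, hx, rfl⟩ := hx
  have := PD_induction ((h.F p).comp ((mkT J).comp dhP) - bd.comp ((h.F p).comp (mkT J))) ⊥
    (fun γ l _ _ hl => by
      rw [← atL_single, Submodule.mem_bot, LinearMap.sub_apply, sub_eq_zero]
      simp only [LinearMap.comp_apply, dhP_atL, map_sum, map_smul, h.F_atL p hl, bd_single,
        List.length_map, List.eraseIdx_map]
      refine Finset.sum_congr rfl fun i _ => ?_
      rw [h.F_atL p (h.down _ _ hl (vs_eraseIdx l i))]) hx
  exact sub_eq_zero.1 ((Submodule.mem_bot ℚ).1 this)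

theorem Orbit.F_dv (h : Orbit J X z Y) {p s : ℕ} {x : TQ J V}
    (hx : x ∈ (eqDC J X h.down).D (p + 1) s) : h.F p ((eqDC J X h.down).dv x) = 0 := by
  obtain ⟨x, hx, rfl⟩ := hx
  exact (Submodule.mem_bot ℚ).1 (PD_induction ((h.F p).comp ((mkT J).comp dvP)) ⊥
    (fun γ l hγ _ hl => by
      rw [← atL_single, Submodule.mem_bot, LinearMap.comp_apply, LinearMap.comp_apply, dvP_atL,
        h.F_atL p hl, single_eq_zero]
      exact (Submodule.Quotient.mk_eq_zero _).2
        (Submodule.mem_sup_left ⟨_, single_mem_Ch hγ trivial 1, rfl⟩)) hx)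

variable {M : Type} [AddCommGroup M] [Module ℚ M]

/-- The coefficient system describes the classes that come from the stabilisers. -/
def Coef (J : Subgroup Γ) (X : Cx V) (z : V → W) (p : ℕ) (𝒜 : Set W → Submodule ℚ M)
    (φ : M →ₗ[ℚ] QB J p) : Prop :=
  Function.Injective φ ∧ ∀ l, X (vs l) →
    (𝒜 (vs (l.map z))).map φ = (Zs (J ⊓ MulAction.stabilizer Γ l) p).map (Bs J p).mkQ

theorem Orbit.r1 (h : Orbit J X z Y) (hcols : S_cols) {p s : ℕ} {𝒜 : Set W → Submodule ℚ M}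
    {φ : M →ₗ[ℚ] QB J p} (hφ : Coef J X z p 𝒜 φ) {x : TQ J V}
    (hx : x ∈ (eqDC J X h.down).D p s) (h0 : (eqDC J X h.down).dv x = 0) :
    h.F p x ∈ (ChC 𝒜 Y s).map (cf φ) := by
  obtain ⟨Ls, c, h1, -, rfl⟩ := hcols Γ V J X h.down p s x hx h0
  rw [map_sum]
  refine Submodule.sum_mem _ fun l hl => ?_
  obtain ⟨e1, e2, e3⟩ := h1 l hl
  obtain ⟨a, ha, e⟩ := (hφ.2 l e2).ge (Submodule.mem_map_of_mem e3)
  exact ⟨single (l.map z) a, single_mem_ChC (by simpa using e1) (h.img l e2) ha, by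
    rw [cf_single, e, h.F_atL p e2]⟩

theorem Orbit.r4 (h : Orbit J X z Y) {p s : ℕ} {𝒜 : Set W → Submodule ℚ M}
    {φ : M →ₗ[ℚ] QB J p} (hφ : Coef J X z p 𝒜 φ) {y : List W →₀ M} (hy : y ∈ ChC 𝒜 Y s) :
    cf φ y ∈ ((eqDC J X h.down).D p s ⊓ LinearMap.ker (eqDC J X h.down).dv).map (h.F p) := by
  refine ChC_induction (cf φ) _ (fun l a h1 h2 h3 => ?_) hy
  obtain ⟨l', hl', rfl⟩ := h.lift l h2
  obtain ⟨c, hc, e⟩ := (hφ.2 l' hl').le (Submodule.mem_map_of_mem h3)
  exact ⟨mkT J (atL l' c), ⟨⟨_, atL_mem_PD (by simpa using h1) hl' hc.1, rfl⟩,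
    eqDC_dv_atL l' hc⟩, by rw [h.F_atL p hl', cf_single, e]⟩

theorem Orbit.r5 (h : Orbit J X z Y) (hcols : S_cols) {p s : ℕ}
    (hinj : ∀ l : List V, X (vs l) → l.length = s → ∀ c ∈ Zs (J ⊓ MulAction.stabilizer Γ l) p,
      c ∈ Bs J p → c ∈ Bs (J ⊓ MulAction.stabilizer Γ l) p) {x : TQ J V}
    (hx : x ∈ (eqDC J X h.down).D p s) (h0 : (eqDC J X h.down).dv x = 0) (hF : h.F p x = 0) :
    x ∈ ((eqDC J X h.down).D (p + 1) s).map (eqDC J X h.down).dv := by
  classical
  obtain ⟨Ls, c, h1, h2, rfl⟩ := hcols Γ V J X h.down p s x hx h0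
  refine Submodule.sum_mem _ fun l hl => ?_
  obtain ⟨e1, e2, e3⟩ := h1 l hl
  have e4 := DFunLike.congr_fun hF (l.map z)
  rw [map_sum, Finsupp.finsetSum_apply, Finset.sum_eq_single l (fun l' hl' hne => by
    rw [h.F_atL p (h1 l' hl').2.1, single_apply, if_neg fun e => hne ?_]
    obtain ⟨j, hj, ej⟩ := h.trans l' l (h1 l' hl').2.1 e2 e
    exact h2 l' hl' l hl j hj ej) (fun h' => absurd hl h'), h.F_atL p e2, single_eq_same] at e4
  obtain ⟨y, hy, e⟩ := eqDC_atL_Bs (hX := h.down) e2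
    (hinj l e2 e1 _ e3 ((Submodule.Quotient.mk_eq_zero _).1 e4))
  exact ⟨y, e1 ▸ hy, e⟩

theorem inf_stab_nil (J : Subgroup Γ) : J ⊓ MulAction.stabilizer Γ ([] : List V) = J :=
  inf_eq_left.2 fun _ _ => rfl

/-- The spectral sequence argument. -/
theorem Orbit.main (h : Orbit J X z Y) (hrows : S_rows) (hcols : S_cols) (h0 : X ∅) {q : ℕ}
    (hac : Acyc X q) {M : ℕ → Type} [∀ p, AddCommGroup (M p)] [∀ p, Module ℚ (M p)]
    {𝒜 : ∀ p, Set W → Submodule ℚ (M p)} {φ : ∀ p, M p →ₗ[ℚ] QB J p}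
    (hφ : ∀ p, Coef J X z p (𝒜 p) (φ p))
    (hex : ∀ p < q, ∀ n ≤ q + 1, ExactC (𝒜 p) Y n)
    (hinj : ∀ p < q, ∀ l : List V, X (vs l) → l.length ≤ q + 1 →
      ∀ c ∈ Zs (J ⊓ MulAction.stabilizer Γ l) p,
        c ∈ Bs J p → c ∈ Bs (J ⊓ MulAction.stabilizer Γ l) p)
    {a : M q} {c : List Γ →₀ ℚ} (hc : c ∈ Zs J q) (hac' : φ q a = (Bs J q).mkQ c) :
    a ∈ ⨆ (w : W) (_ : Y {w}), 𝒜 q {w} := by
  have hnil : X (vs []) := by rwa [vs_nil]
  have hz : mkT J (atL [] c) ∈ (eqDC J X h.down).D q 0 := ⟨_, atL_mem_PD rfl hnil hc.1, rfl⟩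
  have hz0 : (eqDC J X h.down).dv (mkT J (atL [] c)) = 0 :=
    eqDC_dv_atL (q := q) [] (by rwa [inf_stab_nil])
  obtain ⟨cc, hcc⟩ := (eqDC J X h.down).exists_zig (le_refl q) hz hz0 fun i hi x hx hx0 =>
    hrows Γ V J X h.down h.inv _ _ (hac i hi) x hx hx0
  obtain ⟨o, ho, y, hy, hy0, ey⟩ := (eqDC J X h.down).shorten ⊥
    (fun o ho => by rw [Submonoid.mem_bot.1 ho]; exact fun _ _ _ hx => hx)
    (fun o ho => by rw [Submonoid.mem_bot.1 ho]; exact fun _ => rfl)
    (fun o ho => by rw [Submonoid.mem_bot.1 ho]; exact fun _ => rfl) (le_refl q) hcc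
    ((eqDC J X h.down).dv_zero (q + 1) _ (by simpa using hcc.1 q le_rfl)) (by
      rintro i hi1 hi x hx hx0 ⟨y, hy, e⟩
      have hp : q - i < q := by omega
      obtain ⟨y0, hy0, e0⟩ := h.r1 hcols (hφ _) hx hx0
      have e1 : bd y0 = 0 := cf_injective (hφ _).1 (by
        rw [cf_bd, e0, ← h.F_dh _ hx, e, h.F_dv hy, map_zero])
      obtain ⟨y1, hy1, rfl⟩ := hex _ hp (i + 1) (by omega) y0 hy0 e1
      obtain ⟨b, ⟨hb, hb0⟩, eb⟩ := h.r4 (hφ _) hy1
      have hb0' : (eqDC J X h.down).dv b = 0 := hb0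
      obtain ⟨b', hb', eb'⟩ := h.r5 hcols (fun l hl e => hinj _ hp l hl (by omega))
        (Submodule.sub_mem _ hx ((eqDC J X h.down).dh_mem _ _ _ hb))
        (by rw [map_sub, hx0, DC.comm, hb0', map_zero, sub_zero])
        (by rw [map_sub, h.F_dh _ hb, eb, ← cf_bd, e0, sub_self])
      exact ⟨1, Submonoid.one_mem _, b, hb, b', hb', hb0', by rw [eb']; simp⟩)
  rw [Submonoid.mem_bot.1 ho, Module.End.one_apply] at ey
  obtain ⟨y0, hy0', e0⟩ := h.r1 hcols (hφ q) hy hy0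
  have e1 : bd y0 = single [] a := cf_injective (hφ q).1 (by
    rw [cf_bd, e0, ← h.F_dh _ hy, ey, h.F_atL q hnil, cf_single, hac', List.map_nil])
  have := ChC_induction ((Finsupp.lapply []).comp bd) (⨆ (w : W) (_ : Y {w}), 𝒜 q {w})
    (fun l b h1 h2 h3 => by
      obtain ⟨w, rfl⟩ := List.length_eq_one_iff.1 h1
      have e : vs [w] = {w} := by ext; simp
      rw [e] at h2 h3
      have e' : ((Finsupp.lapply []).comp bd : (List W →₀ M q) →ₗ[ℚ] M q) (single [w] b) = b := by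
        simp [bd_single]
      rw [e']
      exact Submodule.mem_iSup_of_mem w (Submodule.mem_iSup_of_mem h2 h3)) hy0'
  rwa [LinearMap.comp_apply, e1, Finsupp.lapply_apply, single_eq_same] at this

/-- Homology classes as chains modulo boundaries. -/
noncomputable def toQB (J : Subgroup Γ) (p : ℕ) : Hq J p →ₗ[ℚ] QB J p :=
  Submodule.mapQ _ _ (Zs J p).subtype le_rfl

theorem toQB_mk (p : ℕ) (c : Zs J p) :
    toQB J p (Submodule.Quotient.mk c) = (Bs J p).mkQ c.1 := rfl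

theorem toQB_injective (p : ℕ) : Function.Injective (toQB J p) := by
  rw [injective_iff_map_eq_zero]
  intro x hx
  induction x using Submodule.Quotient.induction_on with
  | H c =>
    exact (Submodule.Quotient.mk_eq_zero _).2
      (Submodule.mem_comap.2 ((Submodule.Quotient.mk_eq_zero (Bs J p)).1 hx))

theorem toQB_Hinc {J' : Subgroup Γ} (hJ : J' ≤ J) (p : ℕ) (c : Zs J' p) :
    toQB J p (Hinc hJ p (Submodule.Quotient.mk c)) = (Bs J p).mkQ c.1 := by
  change (Bs J p).mkQ (mapL id c.1) = _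
  simp [mapL]

theorem map_range_Hinc {J' : Subgroup Γ} (hJ : J' ≤ J) (p : ℕ) :
    (LinearMap.range (Hinc hJ p)).map (toQB J p) = (Zs J' p).map (Bs J p).mkQ := by
  apply le_antisymm
  · rintro _ ⟨_, ⟨x, rfl⟩, rfl⟩
    induction x using Submodule.Quotient.induction_on with
    | H c => exact ⟨c.1, c.2, (toQB_Hinc hJ p c).symm⟩
  · rintro _ ⟨c, hc, rfl⟩
    exact ⟨_, ⟨Submodule.Quotient.mk ⟨c, hc⟩, rfl⟩, toQB_Hinc hJ p ⟨c, hc⟩⟩

theorem mem_Bs_of_inj {J' : Subgroup Γ} (hJ : J' ≤ J) {p : ℕ}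
    (h : Function.Injective (Hinc hJ p)) {c : List Γ →₀ ℚ} (hc : c ∈ Zs J' p) (hb : c ∈ Bs J p) :
    c ∈ Bs J' p := by
  have : (Submodule.Quotient.mk ⟨c, hc⟩ : Hq J' p) = 0 := h (toQB_injective p (by
    rw [toQB_Hinc, map_zero, map_zero]
    exact (Submodule.Quotient.mk_eq_zero _).2 hb))
  exact Submodule.mem_comap.1
    ((Submodule.Quotient.mk_eq_zero ((Bs J' p).comap (Zs J' p).subtype)).1 this)

end abstract

theorem exists_bound {P : ℕ → ℕ → Prop} (hm : ∀ p N N', N ≤ N' → P p N → P p N') (q : ℕ)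
    (h : ∀ p < q, ∃ N, P p N) : ∃ N, ∀ p < q, P p N := by
  choose! f hf using h
  exact ⟨∑ p ∈ Finset.range q, f p, fun p hp => hm p _ _
    (Finset.single_le_sum (fun _ _ => Nat.zero_le _) (Finset.mem_range.2 hp)) (hf p hp)⟩

/-- Generation from corank one gives generation in bounded rank. -/
theorem genIn_of_step (A : VIC) (N : ℕ)
    (h : ∀ X : Ob, N ≤ X.card → ⨆ (Y : Ob) (m : Mor Y X) (_ : Y.card + 1 = X.card),
      LinearMap.range (A.map m) = ⊤) : GenIn A N := by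
  have key : ∀ n, N ≤ n → ∀ X : Ob, X.card = n →
      ⨆ f : Mor (Ob.std N) X, LinearMap.range (A.map f) = ⊤ := by
    intro n hn
    induction n, hn using Nat.le_induction with
    | base =>
      intro X hX
      obtain ⟨ε⟩ : Nonempty (Fin N ≃ X.ι) := ⟨(Fintype.equivFinOfCardEq hX).symm⟩
      have e : (Mor.emb (X := Ob.std N) (Y := X) ε.toEmbedding).comp
          (Mor.emb (X := X) (Y := Ob.std N) ε.symm.toEmbedding) = Mor.id X := by
        apply Mor.ext <;> ext a b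
        · simp [Mor.comp, Mor.emb, Mor.id, Matrix.mul_apply, Matrix.one_apply, eq_comm]
        · simp only [Mor.comp, Mor.emb, Mor.id, Matrix.mul_apply, Matrix.one_apply]
          rw [Finset.sum_eq_single (ε.symm a) (fun x _ hx => by simp [hx.symm]) (by simp)]
          simp
      refine eq_top_iff.2 fun x _ => Submodule.mem_iSup_of_mem
        (Mor.emb (X := Ob.std N) (Y := X) ε.toEmbedding) ⟨A.map (Mor.emb ε.symm.toEmbedding) x, ?_⟩
      rw [← LinearMap.comp_apply, ← A.map_comp, e, A.map_id, LinearMap.id_apply]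
    | succ n hn ih =>
      intro X hX
      rw [eq_top_iff, ← h X (by omega)]
      refine iSup_le fun Y => iSup_le fun m => iSup_le fun hY => ?_
      rw [LinearMap.range_eq_map, ← ih Y (by omega), Submodule.map_iSup]
      refine iSup_le fun f => le_iSup_of_le (m.comp f) ?_
      rw [A.map_comp, LinearMap.range_comp]
  exact fun X hX => key _ hX X rfl

end JGen

open JGen in
theorem p_Gen (hrows : S_rows) (hcols : S_cols) (hHX : S_HX) (hO : S_O) (hbr : S_bridge)
    (hV1 : S_V1) (hR : S_Rinj) (hZ : S_Zfull) : S_Gen := by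
  intro q A e hW hA
  obtain ⟨N1, h1⟩ := hHX q
  obtain ⟨N2, h2⟩ := exists_bound (P := fun p N => ∀ X : Ob, N ≤ X.card →
    ∀ n ≤ q + 1, ExactC ((A p).sub X) (WZ X.ι) n) (fun p N N' hN h X hX => h X (hN.trans hX)) q
    fun p hp => hV1 _ (hA p hp) (q + 1)
  obtain ⟨N3, h3⟩ := exists_bound (P := fun p N => ∀ (X Y : Ob) (m : Mor X Y), N ≤ X.card →
    Function.Injective ((A p).map m)) (fun p N N' hN h X Y m hX => h X Y m (hN.trans hX)) q
    fun p hp => hR _ (hA p hp)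
  refine ⟨N1 + N2 + N3 + q + 1, genIn_of_step _ _ fun X hX => eq_top_iff.2 fun a _ => ?_⟩
  obtain ⟨o1, o2, o3, -, o5, o6, o7⟩ := hO X.ι
  have horb : Orbit (IA X.ι) (HX X.ι) cz (WZ X.ι) :=
    ⟨o1, fun j _ => o2 j, o5, o6, fun l hl => by rw [vs_map]; exact o3 _ hl, o7⟩
  obtain ⟨c, hc⟩ := Submodule.Quotient.mk_surjective _ (e q X a)
  have key := horb.main hrows hcols ⟨1, Set.empty_subset _⟩ (h1 X.ι (by
      change N1 ≤ X.card; omega)) (M := fun p => (A p).obj X) (𝒜 := fun p => (A p).sub X)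
    (φ := fun p => (toQB _ p).comp (e p X : (A p).obj X →ₗ[ℚ] Hq (IA X.ι) p))
    (fun p => ⟨(toQB_injective p).comp (e p X).injective, fun l hl => by
      rw [Submodule.map_comp, vs_map, (hbr p _ _ (hW p) X l hl).1, map_range_Hinc]⟩)
    (fun p hp => h2 p hp X (by omega))
    (fun p hp l hl hlen c hc hb => mem_Bs_of_inj inf_le_left ((hbr p _ _ (hW p) X l hl).2
      fun Y m hY => h3 p hp Y X m (by omega)) hc hb)
    (a := a) c.2 (by rw [← toQB_mk, hc]; rfl)
  refine SetLike.le_def.1 (iSup_le fun w => iSup_le fun hw => ?_) key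
  obtain ⟨⟨Y, T, g, e1, -, -, e4⟩, z2, z3⟩ := hZ X {w} (Set.finite_singleton w) hw
  obtain ⟨e5, -, e6⟩ := z3 Y _ (z2 Y T g e1 e4)
  rw [Set.ncard_singleton] at e5
  rw [e6]
  exact le_iSup_of_le Y (le_iSup_of_le _ (le_iSup_of_le e5 le_rfl))

end Pool.Agent.Lib.MP_49df17_al
end

-- part Pool.Agent.Lib.MP_49df17_al.H1
section

/-! The label lemma and the bad simplex argument. -/

namespace Pool.Agent.Lib.MP_49df17_al

open Finsupp

namespace JH1

variable {V : Type}

open Classical in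
/-- Keep the lists whose vertex set satisfies `p`. -/
noncomputable def flt (p : Set V → Prop) : (List V →₀ ℚ) →ₗ[ℚ] (List V →₀ ℚ) where
  toFun c := c.filter fun l => p (vs l)
  map_add' _ _ := Finsupp.filter_add
  map_smul' _ _ := Finsupp.filter_smul

open Classical in
theorem flt_apply (p : Set V → Prop) (c : List V →₀ ℚ) (l : List V) :
    flt p c l = if p (vs l) then c l else 0 := Finsupp.filter_apply _ _ _

theorem flt_mem {p X Y : Cx V} {n : ℕ} {c : List V →₀ ℚ} (hc : c ∈ Ch X n)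
    (h : ∀ S, S.Finite → X S → p S → Y S) : flt p c ∈ Ch Y n := by
  intro l hl
  rw [Finset.mem_coe, mem_support_iff, flt_apply] at hl
  split_ifs at hl with h1
  · have h2 := hc (mem_support_iff.2 hl)
    exact ⟨h2.1, h _ (vs_finite l) h2.2 h1⟩
  · exact absurd rfl hl

theorem flt_zero {p X : Cx V} {n : ℕ} {c : List V →₀ ℚ} (hc : c ∈ Ch X n)
    (h : ∀ S, S.Finite → X S → ¬p S) : flt p c = 0 := by
  ext l
  rw [flt_apply]
  split_ifs with h1
  · by_contra h2
    exact h _ (vs_finite l) (hc (mem_support_iff.2 h2)).2 h1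
  · rfl

theorem flt_self {p : Cx V} {n : ℕ} {c : List V →₀ ℚ} (hc : c ∈ Ch p n) : flt p c = c := by
  ext l
  rw [flt_apply]
  split_ifs with h1
  · rfl
  · by_contra h2
    exact h1 (hc (mem_support_iff.2 (Ne.symm h2))).2

theorem mem_of_flt {p X Y : Cx V} {n : ℕ} {c : List V →₀ ℚ} (hc : c ∈ Ch X n) (h0 : flt p c = 0)
    (h : ∀ S, S.Finite → X S → ¬p S → Y S) : c ∈ Ch Y n := by
  intro l hl
  refine ⟨(hc hl).1, h _ (vs_finite l) (hc hl).2 fun h1 => mem_support_iff.1 hl ?_⟩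
  have := flt_apply p c l
  rwa [h0, if_pos h1, eq_comm] at this

theorem split {Λ N : Type} [AddCommGroup N] [Module ℚ N] (X' : Cx V) (lab : Set V → Λ)
    (f : (List V →₀ ℚ) →ₗ[ℚ] N) (U : Submodule ℚ N) (c : List V →₀ ℚ) (h0 : f (flt X' c) ∈ U)
    (h : ∀ L, f (flt (fun S => ¬X' S ∧ lab S = L) c) ∈ U) : f c ∈ U := by
  classical
  have e : c = flt X' c + ∑ L ∈ c.support.image fun l => lab (vs l),
      flt (fun S => ¬X' S ∧ lab S = L) c := by
    ext l
    rw [Finsupp.add_apply, Finsupp.finsetSum_apply]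
    simp only [flt_apply]
    by_cases h1 : X' (vs l)
    · simp [h1]
    · by_cases h2 : c l = 0
      · simp [h2]
      · simp only [h1, if_false, not_false_eq_true, true_and, zero_add, Finset.sum_ite_eq]
        rw [if_pos (Finset.mem_image_of_mem _ (mem_support_iff.2 h2))]
  rw [e, map_add, map_sum]
  exact U.add_mem h0 (U.sum_mem fun L _ => h L)

theorem void {X : Cx V} (h : ∀ S, ¬X S) (n : ℕ) : ExactAt X n := fun z hz => by
  have : z = 0 := by
    ext l
    by_contra h1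
    exact h _ (hz.1 (mem_support_iff.2 h1)).2
  rw [this]
  exact Submodule.zero_mem _

end JH1

open JH1 in
theorem p_E : S_E := by
  intro V Λ X X' lab XL hX hX' hL h1 h2 h3 h4 j
  have key : ∀ L n, ∀ c ∈ Ch X (n + 1), flt (fun S => ¬X' S ∧ lab S = L) (bd c) = 0 →
      bd (flt (fun S => ¬X' S ∧ lab S = L) c) ∈ Zc (fun S => XL L S ∧ X' S) n := by
    intro L n c hc h0
    have hcL : flt (fun S => ¬X' S ∧ lab S = L) c ∈ Ch (XL L) (n + 1) :=
      flt_mem hc fun S hS hx hp => hp.2 ▸ h3 S hS hx hp.1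
    refine ⟨mem_of_flt (p := fun S => ¬X' S ∧ lab S = L) (bd_mem_Ch (hL L) hcL) ?_
      fun S hS hx hp => ⟨hx, by_contra fun h5 => hp ⟨h5, (h4 L S hS hx).resolve_left h5⟩⟩,
      bd_bd _⟩
    have := Ch_induction (X := X) (n := n + 1)
      (flt (fun S => ¬X' S ∧ lab S = L) ∘ₗ bd ∘ₗ
        (LinearMap.id - flt (fun S => ¬X' S ∧ lab S = L))) ⊥ (fun l hl hx => ?_) hc
    · simpa [h0] using this
    · rw [Submodule.mem_bot, LinearMap.comp_apply, LinearMap.comp_apply, LinearMap.sub_apply,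
        LinearMap.id_apply]
      by_cases hp : ¬X' (vs l) ∧ lab (vs l) = L
      · rw [flt_self (single_mem_Ch (X := fun S => ¬X' S ∧ lab S = L) hl hp 1)]
        simp
      · rw [flt_zero (single_mem_Ch (X := fun S => S = vs l) hl rfl 1) fun S _ e => e ▸ hp,
          sub_zero]
        by_cases h5 : X' (vs l)
        · exact flt_zero (bd_mem_Ch hX' (single_mem_Ch hl h5 1)) fun S _ hx hp => hp.1 hx
        · refine flt_zero (bd_mem_Ch (hL _) (single_mem_Ch hl (h3 _ (vs_finite l) hx h5) 1))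
            fun S hS hx' hp' => hp ⟨h5, ?_⟩
          rw [← (h4 _ S hS hx').resolve_left hp'.1, hp'.2]
  refine ⟨fun h => ?_, fun h h' z hz => ?_⟩
  · rintro _ ⟨hz, b, hb, rfl⟩
    refine split X' lab bd _ b ⟨_, flt_mem hb fun _ _ _ hp => hp, rfl⟩ fun L => ?_
    exact Bc_mono (fun _ hl => hl.2)
      (h L (key L j b hb (flt_zero hz.1 fun S _ hx hp => hp.1 hx)))
  · have h5 : LinearMap.id (R := ℚ) z ∈ Ch X' j ⊔ Bc X j := by
      refine split X' lab _ _ z (Submodule.mem_sup_left (flt_mem hz.1 fun _ _ _ hp => hp))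
        fun L => ?_
      have hcL : flt (fun S => ¬X' S ∧ lab S = L) z ∈ Ch (XL L) j :=
        flt_mem hz.1 fun S hS hx hp => hp.2 ▸ h3 S hS hx hp.1
      cases j with
      | zero =>
        exact Submodule.mem_sup_right (Bc_mono (fun _ => h2 L _)
          (h L ⟨hcL, bd_eq_zero_of_mem_Ch_zero hcL⟩))
      | succ i =>
        obtain ⟨d, hd, e⟩ := h' L i rfl (key L i z hz.1 (by rw [(mem_Zc.1 hz).2, map_zero]))
        refine Submodule.mem_sup.2 ⟨d, Ch_mono (fun _ _ hl => hl.2) hd, _,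
          Bc_mono (fun _ => h2 L _) (h L (mem_Zc.2 ⟨Submodule.sub_mem _ hcL
            (Ch_mono (fun _ _ hl => hl.1) hd), by rw [map_sub, e, sub_self]⟩)), by simp⟩
    obtain ⟨a, ha, _, ⟨b, hb, rfl⟩, e⟩ := Submodule.mem_sup.1 h5
    refine Submodule.mem_sup.2 ⟨a, mem_Zc.2 ⟨ha, ?_⟩, _, ⟨b, hb, rfl⟩, e⟩
    have := congrArg bd e
    rwa [map_add, bd_bd, add_zero, LinearMap.id_apply, (mem_Zc.1 hz).2] at this

namespace JH1

variable {V : Type}

theorem mv {P Q : Cx V} (hP : Down P) (hQ : Down Q) {j : ℕ} (h1 : ExactAt P j) (h2 : ExactAt Q j)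
    (h3 : ∀ i, i + 1 = j → ExactAt (fun S => Q S ∧ P S) i) : ExactAt (fun S => P S ∨ Q S) j :=
  ((p_E V Unit (fun S => P S ∨ Q S) P (fun _ => ()) (fun _ => Q)
    (fun S T h hT => h.imp (hP S T · hT) (hQ S T · hT)) hP (fun _ => hQ) (fun _ => Or.inl)
    (fun _ _ => Or.inr) (fun _ _ h h' => h.resolve_left h') (fun _ _ _ _ => Or.inr rfl) j).2
    (fun _ => h2) fun _ => h3).trans (sup_le (h1.trans (Bc_mono fun _ => Or.inl)) le_rfl)

/-- The boundary of a simplex joined with a complex. -/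
theorem join {G : Cx V} (hG : Down G) (m : ℕ) : ∀ (s : Set V) (j : ℕ), s.Finite →
    s.ncard = m + 1 → (∀ τ, G τ → Disjoint τ s) → m ≤ j → ExactAt G (j - m) →
    ExactAt (fun S => ¬s ⊆ S ∧ G (S \ s)) j := by
  induction m with
  | zero =>
    intro s j _ hs hd _ h
    obtain ⟨v, rfl⟩ := Set.ncard_eq_one.1 hs
    refine ExactAt.congr (fun S _ => ⟨fun hS => ?_, fun hS => ?_⟩) h
    · have := Set.disjoint_singleton_right.1 (hd S hS)
      exact ⟨by simpa using this, hG _ _ hS Set.sdiff_subset⟩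
    · rw [← Set.sdiff_singleton_eq_self (s := S) (a := v) (by simpa using hS.1)]
      exact hS.2
  | succ m ih =>
    intro s j hf hs hd hj h
    obtain ⟨v, t, hv, rfl, ht⟩ := Set.eq_insert_of_ncard_eq_succ hs
    have hf' := hf.subset (Set.subset_insert v t)
    obtain ⟨w, hw⟩ : t.Nonempty := Set.nonempty_of_ncard_ne_zero (by omega)
    have e : ∀ S : Set V, v ∉ S → S \ insert v t = S \ t := fun S hS => by
      ext x
      simp only [Set.mem_sdiff, Set.mem_insert_iff, not_or]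
      exact ⟨fun h => ⟨h.1, h.2.2⟩, fun h => ⟨h.1, fun e => hS (e ▸ h.1), h.2⟩⟩
    refine ExactAt.congr (fun S _ => ?_) (mv (P := fun S => ¬t ⊆ S ∧ G (S \ insert v t))
      (Q := fun S => v ∉ S ∧ G (S \ insert v t))
      (fun S T h hT => ⟨fun h1 => h.1 (h1.trans hT), hG _ _ h.2 (Set.sdiff_subset_sdiff_left hT)⟩)
      (fun S T h hT => ⟨fun h1 => h.1 (hT h1), hG _ _ h.2 (Set.sdiff_subset_sdiff_left hT)⟩)
      (exactAt_of_cone v (fun S _ h => ⟨fun h1 => h.1 ((Set.subset_insert_iff_of_notMem hv).1 h1),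
        by rw [Set.insert_sdiff_of_mem _ (Set.mem_insert v t)]; exact h.2⟩) j)
      (exactAt_of_cone w (fun S _ h => ⟨fun h1 => h1.elim (fun e => hv (e ▸ hw)) h.1,
        by rw [Set.insert_sdiff_of_mem _ (Set.mem_insert_of_mem v hw)]; exact h.2⟩) j)
      fun i hi => ExactAt.congr (fun S _ => ⟨fun hS => ?_, fun hS => ?_⟩)
        (ih t i hf' ht (fun τ hτ => (hd τ hτ).mono_right (Set.subset_insert v t)) (by omega)
          (by rwa [show i - m = j - (m + 1) by omega])))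
    · rw [Set.insert_subset_iff]
      tauto
    · have h1 : v ∉ S := fun h1 =>
        Set.disjoint_left.1 (hd _ hS.2) ⟨h1, hv⟩ (Set.mem_insert v t)
      rw [e S h1]
      exact ⟨⟨h1, hS.2⟩, hS⟩
    · exact ⟨hS.2.1, e S hS.1.1 ▸ hS.1.2⟩

/-- The filtration by the size of the bad part. -/
def Xm (X : Cx V) (b : Set V → Set V) (m : ℕ) : Cx V := fun S =>
  S.Finite ∧ X S ∧ (b S).ncard ≤ m

theorem step {X : Cx V} {b : Set V → Set V} (hX : Down X)
    (h1 : ∀ S, S.Finite → X S → b S ⊆ S) (h2 : ∀ S T, S.Finite → X S → T ⊆ S → b T ⊆ b S)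
    (h3 : ∀ S T, S.Finite → X S → b S ⊆ T → T ⊆ S → b T = b S) (m j : ℕ) :
    (m ≤ j → (∀ σ, σ.Finite → X σ → b σ = σ → σ.ncard = m + 1 → ExactAt (GLk X b σ) (j - m)) →
      Zc (Xm X b m) j ⊓ Bc (Xm X b (m + 1)) j ≤ Bc (Xm X b m) j) ∧
    (m + 1 ≤ j → (∀ σ, σ.Finite → X σ → b σ = σ → σ.ncard = m + 1 →
      ExactAt (GLk X b σ) (j - (m + 1))) →
      Zc (Xm X b (m + 1)) j ≤ Zc (Xm X b m) j ⊔ Bc (Xm X b (m + 1)) j) := by
  set XL : Set V → Cx V := fun σ S =>
    S.Finite ∧ σ.Finite ∧ σ.ncard = m + 1 ∧ X (σ ∪ S) ∧ b (σ ∪ S) = σ with hXL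
  have dm : ∀ k, Down (Xm X b k) := fun k S T h hT => ⟨h.1.subset hT, hX _ _ h.2.1 hT,
    (Set.ncard_le_ncard (h2 S T h.1 h.2.1 hT) (h.1.subset (h1 S h.1 h.2.1))).trans h.2.2⟩
  have dL : ∀ σ, Down (XL σ) := fun σ S T h hT => ⟨h.1.subset hT, h.2.1, h.2.2.1,
    hX _ _ h.2.2.2.1 (Set.union_subset_union_right _ hT),
    (h3 _ _ (h.2.1.union h.1) h.2.2.2.1 (by rw [h.2.2.2.2]; exact Set.subset_union_left)
      (Set.union_subset_union_right _ hT)).trans h.2.2.2.2⟩
  have sub : ∀ σ S, XL σ S → X S ∧ b S ⊆ σ := fun σ S h => ⟨hX _ _ h.2.2.2.1 Set.subset_union_right,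
    (h2 _ _ (h.2.1.union h.1) h.2.2.2.1 Set.subset_union_right).trans h.2.2.2.2.le⟩
  have E := p_E V (Set V) (Xm X b (m + 1)) (Xm X b m) b XL (dm _) (dm _) dL
    (fun S h => ⟨h.1, h.2.1, h.2.2.trans (Nat.le_succ m)⟩)
    (fun σ S h => ⟨h.1, (sub σ S h).1, (Set.ncard_le_ncard (sub σ S h).2 h.2.1).trans h.2.2.1.le⟩)
    (fun S hS h h' => ⟨hS, hS.subset (h1 S hS h.2.1), le_antisymm h.2.2
        (Nat.succ_le_of_lt (not_le.1 fun h4 => h' ⟨hS, h.2.1, h4⟩)),
      by rw [Set.union_eq_self_of_subset_left (h1 S hS h.2.1)]; exact h.2.1,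
      by rw [Set.union_eq_self_of_subset_left (h1 S hS h.2.1)]⟩)
    (fun σ S hS h => or_iff_not_imp_left.2 fun h' => Set.eq_of_subset_of_ncard_le (sub σ S h).2
      (h.2.2.1.trans_le (Nat.succ_le_of_lt (not_le.1 fun h4 => h' ⟨hS, (sub σ S h).1, h4⟩)))
      h.2.1) j
  have J : ∀ i, m ≤ i → (∀ σ, σ.Finite → X σ → b σ = σ → σ.ncard = m + 1 →
      ExactAt (GLk X b σ) (i - m)) → ∀ σ, ExactAt (fun S => XL σ S ∧ Xm X b m S) i := by
    intro i hi h σ
    by_cases h0 : XL σ ∅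
    · have h4 := h0.2.2.2
      rw [Set.union_empty] at h4
      refine ExactAt.congr (fun S hS => ⟨fun h5 => ?_, fun h5 => ?_⟩)
        (join (G := fun τ => τ.Finite ∧ GLk X b σ τ) (fun S T h hT => ?_) m σ i h0.2.1 h0.2.2.1
          (fun τ hτ => hτ.2.1) hi ((h σ h0.2.1 h4.1 h4.2 h0.2.2.1).congr fun S hS => by simp [hS]))
      · have h6 := h5.2.2.2
        rw [Set.union_sdiff_self] at h6
        have h7 : XL σ S := ⟨hS, h0.2.1, h0.2.2.1, h6⟩
        refine ⟨h7, hS, (sub σ S h7).1, Nat.le_of_lt_succ (lt_of_lt_of_eq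
          (Set.ncard_lt_ncard ⟨(sub σ S h7).2, fun h8 => h5.1 ?_⟩ h0.2.1) h0.2.2.1)⟩
        exact h8.trans (h1 S hS (sub σ S h7).1)
      · refine ⟨fun h6 => ?_, hS.sdiff, Set.disjoint_sdiff_left, ?_⟩
        · have h7 := h5.1.2.2.2.2
          have h8 := h5.2.2.2
          rw [Set.union_eq_self_of_subset_left h6] at h7
          rw [h7, h0.2.2.1] at h8
          omega
        · rw [Set.union_sdiff_self]
          exact h5.1.2.2.2
      · have h5 := dL σ S T ⟨h.1, h0.2.1, h0.2.2.1, h.2.2⟩ hT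
        exact ⟨h5.1, h.2.1.mono_left hT, h5.2.2.2⟩
    · exact void (fun S h => h0 (dL σ S ∅ h.1 (Set.empty_subset S))) i
  refine ⟨fun hm h => E.1 (J j hm h), fun hm h => E.2 (fun σ => ?_) fun σ i hi =>
    J i (by omega) (by rwa [show i - m = j - (m + 1) by omega]) σ⟩
  by_cases h0 : σ.ncard = m + 1
  · obtain ⟨v, hv⟩ : σ.Nonempty := Set.nonempty_of_ncard_ne_zero (by omega)
    refine exactAt_of_cone v (fun S hS h => ⟨hS.insert v, h.2.1, h.2.2.1, ?_⟩) j
    rw [Set.union_insert, ← Set.insert_union, Set.insert_eq_of_mem hv]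
    exact h.2.2.2
  · exact void (fun S h => h0 h.2.2.1) j

end JH1

open JH1 in
theorem p_bad : S_bad := by
  intro V X b hX h1 h2 h3 j
  have top : ∀ n, Ch X n ≤ Ch (Xm X b n) n := fun n => Ch_mono fun l hl h => ⟨vs_finite l, h,
    (Set.ncard_le_ncard (h1 _ (vs_finite l) h) (vs_finite l)).trans ((vs_ncard_le l).trans hl.le)⟩
  have z1 : ∀ l : List V, Xm X b 0 (vs l) → X (vs l) ∧ b (vs l) = ∅ := fun l h => ⟨h.2.1,
    (Set.ncard_eq_zero ((vs_finite l).subset (h1 _ h.1 h.2.1))).1 (Nat.le_zero.1 h.2.2)⟩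
  have ne : ∀ (σ : Set V) m, σ.ncard = m + 1 → σ.Nonempty := fun σ m h =>
    Set.nonempty_of_ncard_ne_zero (by omega)
  refine ⟨fun h => ?_, fun h => ?_⟩
  · have key : ∀ m ≤ j + 1, Zc (fun S => X S ∧ b S = ∅) j ⊓ Bc (Xm X b m) j ≤
        Bc (fun S => X S ∧ b S = ∅) j := by
      intro m
      induction m with
      | zero => exact fun _ => inf_le_right.trans (Bc_mono z1)
      | succ m ih =>
        intro hm z hz
        refine ih (by omega) ⟨hz.1, (step hX h1 h2 h3 m j).1 (by omega) (fun σ hf hx hb hc => ?_)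
          ⟨Zc_mono (fun l hl => ⟨vs_finite l, hl.1, by simp [hl.2]⟩) hz.1, hz.2⟩⟩
        have := h σ hf (ne σ m hc) hx hb (by omega)
        rwa [show j + 1 - σ.ncard = j - m by omega] at this
    exact (inf_le_inf_left _ (Submodule.map_mono (top (j + 1)))).trans (key _ le_rfl)
  · have key : ∀ m ≤ j, Zc (Xm X b m) j ≤ Zc (fun S => X S ∧ b S = ∅) j ⊔ Bc X j := by
      intro m
      induction m with
      | zero => exact fun _ => (Zc_mono z1).trans le_sup_left
      | succ m ih =>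
        intro hm
        exact ((step hX h1 h2 h3 m j).2 hm fun σ hf hx hb hc =>
          hc ▸ h σ hf (ne σ m hc) hx hb (by omega)).trans
          (sup_le (ih (by omega)) ((Bc_mono fun _ hl => hl.2.1).trans le_sup_right))
    exact (inf_le_inf_right _ (top j)).trans (key _ le_rfl)

theorem p_full : S_full := by
  intro V X Bad hX j
  have e0 : FLk X Bad ∅ = fun S => X S ∧ S ∩ Bad = ∅ := by
    funext S
    simp only [FLk, Set.empty_union, Set.eq_empty_iff_forall_notMem, Set.mem_inter_iff, not_and]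
    exact propext and_comm
  have e1 : ∀ σ, σ ∩ Bad = σ → FLk X Bad σ = GLk X (· ∩ Bad) σ := fun σ h => by
    have h' := Set.inter_eq_left.1 h
    funext τ
    refine propext ⟨fun h1 => ⟨Set.disjoint_left.2 fun v hv hv' => h1.1 v hv (h' hv'), h1.2, ?_⟩,
      fun h1 => ⟨fun v hv hv' => Set.disjoint_left.1 h1.1 hv (h1.2.2.le ⟨Or.inr hv, hv'⟩), h1.2.1⟩⟩
    exact Set.Subset.antisymm (fun v hv => hv.1.resolve_right fun h2 => h1.1 v h2 hv.2)
      fun v hv => ⟨Or.inl hv, h' hv⟩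
  have B := p_bad V X (· ∩ Bad) hX (fun _ _ _ => Set.inter_subset_left)
    (fun _ _ _ _ h => Set.inter_subset_inter_left _ h)
    (fun S T _ _ h h' => Set.Subset.antisymm (Set.inter_subset_inter_left _ h')
      fun v hv => ⟨h hv, hv.2⟩) j
  rw [e0]
  exact ⟨fun h => B.1 fun σ hf hn hx hb hc => e1 σ hb ▸ h σ hf hn (Set.inter_eq_left.1 hb) hx hc,
    fun h => B.2 fun σ hf hn hx hb hc => e1 σ hb ▸ h σ hf hn (Set.inter_eq_left.1 hb) hx hc⟩

end Pool.Agent.Lib.MP_49df17_al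
end
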