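import Pool.Agent.Lib.MP_49df17_al.Core
import Pool.Agent.Lib.MP_49df17_al.Adapt

-- part Pool.Agent.Lib.MP_49df17_al.HX
section

/-!
The complex of handles of a free group: acyclicity, orbits, stabilisers and their homology.
-/

set_option linter.unusedSectionVars false

namespace Pool.Agent.Lib.MP_49df17_al

open Matrix
open scoped Pointwise

namespace JHX

section Handles

variable {ι κ κ' : Type} [DecidableEq κ] [DecidableEq κ']

theorem hv_congr (e : κ' ≃ κ) (β : Fr κ ≃* Fr ι) (s : κ') :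
    hv ((FreeGroup.freeGroupCongr e).trans β) s = hv β (e s) := by
  have h : ∀ s, letter ((FreeGroup.freeGroupCongr e).trans β) s = letter β (e s) := fun _ => rfl
  refine Prod.ext (h s) (eq_hl_of_sep _ (one_notMem_hl β _) ?_ fun s' hs' => ?_).symm
  · exact sep_hl_self β (e s, true)
  · rw [h]
    exact sep_hl_ne β fun e' => hs' (e.injective e')

theorem hl_inj (β : Fr κ ≃* Fr ι) {k k' : κ × Bool} (e : hl β k = hl β k') : k = k' :=
  (smul_hl_inj β (g := 1) (g' := 1) (by rw [e])).2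

theorem map_inl_mem {T : Type} [DecidableEq T] (Φ : Fr (κ ⊕ T) ≃* Fr ι) (g : Fr κ) :
    Φ (FreeGroup.map Sum.inl g) ∈ Subgroup.closure (letter Φ '' Set.range Sum.inl) := by
  induction g using FreeGroup.induction_on with
  | C1 => simp
  | of s => exact Subgroup.subset_closure ⟨Sum.inl s, ⟨s, rfl⟩, rfl⟩
  | inv_of s ih => rw [map_inv, map_inv]; exact inv_mem ih
  | mul a b iha ihb => rw [map_mul, map_mul]; exact mul_mem iha ihb

theorem exists_map_inl {T : Type} [DecidableEq T] (Φ : Fr (κ ⊕ T) ≃* Fr ι) {x : Fr ι}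
    (hx : x ∈ Subgroup.closure (letter Φ '' Set.range Sum.inl)) :
    ∃ g : Fr κ, Φ (FreeGroup.map Sum.inl g) = x := by
  induction hx using Subgroup.closure_induction with
  | mem x hx =>
    obtain ⟨_, ⟨s, rfl⟩, rfl⟩ := hx
    exact ⟨FreeGroup.of s, rfl⟩
  | one => exact ⟨1, by simp⟩
  | mul x y _ _ hx hy =>
    obtain ⟨g, rfl⟩ := hx
    obtain ⟨h, rfl⟩ := hy
    exact ⟨g * h, by simp⟩
  | inv x _ hx =>
    obtain ⟨g, rfl⟩ := hx
    exact ⟨g⁻¹, by simp⟩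

theorem stabHom_inl {T : Type} (Φ : Fr (κ ⊕ T) ≃* Fr ι) (φ : Au κ) (g : Fr κ) :
    stabHom Φ φ (Φ (FreeGroup.map Sum.inl g)) = Φ (FreeGroup.map Sum.inl (φ g)) := by
  rw [stabHom_apply, MulEquiv.symm_apply_apply, extA_map]

theorem stabHom_inr {T : Type} (Φ : Fr (κ ⊕ T) ≃* Fr ι) (φ : Au κ) (t : T) :
    stabHom Φ φ (letter Φ (Sum.inr t)) = letter Φ (Sum.inr t) := by
  rw [stabHom_apply, letter, MulEquiv.symm_apply_apply, extA_inr]

theorem inl_inj {T : Type} (Φ : Fr (κ ⊕ T) ≃* Fr ι) :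
    Function.Injective fun g : Fr κ => Φ (FreeGroup.map Sum.inl g) :=
  Φ.injective.comp (FreeGroup.map_injective Sum.inl_injective)

theorem stabHom_inj {T : Type} (Φ : Fr (κ ⊕ T) ≃* Fr ι) : Function.Injective (stabHom Φ) := by
  intro φ ψ e
  ext g
  apply inl_inj Φ
  simp only
  rw [← stabHom_inl, ← stabHom_inl, e]

theorem stabHom_hv {T : Type} [DecidableEq T] (Φ : Fr (κ ⊕ T) ≃* Fr ι) (φ : Au κ) (t : T) :
    stabHom Φ φ • hv Φ (Sum.inr t) = hv Φ (Sum.inr t) := by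
  rw [hv_aut]
  have h : ∀ t, letter (Φ.trans (stabHom Φ φ)) (Sum.inr t) = letter Φ (Sum.inr t) := fun t => by
    rw [letter_trans, stabHom_inr]
  refine Prod.ext (h t) (eq_hl_of_sep _ (one_notMem_hl Φ _) ?_ fun s hs => ?_).symm
  · rw [sl_true, h]
    exact sep_hl_self Φ (Sum.inr t, true)
  · rcases s with a | t'
    · rw [letter_trans]
      have e : letter Φ (Sum.inl a) = Φ (FreeGroup.map Sum.inl (FreeGroup.of a)) := rfl
      rw [e, stabHom_inl]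
      exact sep_hl_of_mem_closure Φ (map_inl_mem Φ _) (by simp)
    · rw [h]
      exact sep_hl_ne Φ hs

theorem exists_res {T : Type} [DecidableEq T] (Φ : Fr (κ ⊕ T) ≃* Fr ι) {γ : Au ι}
    (h : ∀ t, γ • hv Φ (Sum.inr t) = hv Φ (Sum.inr t)) :
    ∃ φ : Fr κ →* Fr κ, ∀ g, Φ (FreeGroup.map Sum.inl (φ g)) = γ (Φ (FreeGroup.map Sum.inl g)) := by
  have key : ∀ a : κ, ∃ g : Fr κ, Φ (FreeGroup.map Sum.inl g) = γ (letter Φ (Sum.inl a)) := by
    intro a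
    refine exists_map_inl Φ (mem_closure_of_sep Φ fun s hs => ?_)
    rcases s with b | t
    · exact absurd ⟨b, rfl⟩ hs
    · have e : γ • hl Φ (Sum.inr t, true) = hl Φ (Sum.inr t, true) := congrArg Prod.snd (h t)
      rw [← e, sep_aut, sep_hl_ne Φ (by simp), Set.smul_set_empty]
  choose f hf using key
  refine ⟨FreeGroup.lift f, fun g => ?_⟩
  induction g using FreeGroup.induction_on with
  | C1 => simp
  | of s => rw [FreeGroup.lift_apply_of, hf]; rfl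
  | inv_of s ih => simp only [map_inv, ih]
  | mul a b iha ihb => simp only [map_mul, iha, ihb]

theorem exists_stab {T : Type} [DecidableEq T] (Φ : Fr (κ ⊕ T) ≃* Fr ι) {γ : Au ι}
    (h : ∀ t, γ • hv Φ (Sum.inr t) = hv Φ (Sum.inr t)) : ∃ φ : Au κ, stabHom Φ φ = γ := by
  obtain ⟨φ, hφ⟩ := exists_res Φ h
  obtain ⟨ψ, hψ⟩ := exists_res Φ (γ := γ⁻¹) fun t => by rw [inv_smul_eq_iff, h t]
  refine ⟨MonoidHom.toMulEquiv φ ψ ?_ ?_, ?_⟩
  · refine MonoidHom.ext fun g => inl_inj Φ ?_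
    simp only [MonoidHom.comp_apply, MonoidHom.id_apply]
    rw [hψ, hφ, MulAut.inv_apply_self]
  · refine MonoidHom.ext fun g => inl_inj Φ ?_
    simp only [MonoidHom.comp_apply, MonoidHom.id_apply]
    rw [hφ, hψ, MulAut.apply_inv_self]
  · ext x
    obtain ⟨y, rfl⟩ := Φ.surjective x
    induction y using FreeGroup.induction_on with
    | C1 => simp
    | of s =>
      rcases s with a | t
      · have e : Φ (FreeGroup.of (Sum.inl a)) = Φ (FreeGroup.map Sum.inl (FreeGroup.of a)) := rfl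
        rw [e, stabHom_inl, ← hφ]
        rfl
      · have e : γ (letter Φ (Sum.inr t)) = letter Φ (Sum.inr t) := congrArg Prod.fst (h t)
        exact (stabHom_inr Φ _ t).trans e.symm
    | inv_of s ih => simp only [map_inv, ih]
    | mul a b iha ihb => simp only [map_mul, iha, ihb]

theorem map_eq_of_injOn {α β : Type} {f : α → β} {R : Set α} (hf : Set.InjOn f R) :
    ∀ l l' : List α, (∀ v ∈ l, v ∈ R) → (∀ v ∈ l', v ∈ R) → l.map f = l'.map f → l = l'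
  | [], [], _, _, _ => rfl
  | [], _ :: _, _, _, e => by simp at e
  | _ :: _, [], _, _, e => by simp at e
  | a :: l, a' :: l', h, h', e => by
    simp only [List.map_cons, List.cons.injEq] at e
    rw [hf (h a (by simp)) (h' a' (by simp)) e.1,
      map_eq_of_injOn hf l l' (fun v hv => h v (by simp [hv])) (fun v hv => h' v (by simp [hv])) e.2]

end Handles

section Ab

variable {ι κ : Type} [Fintype ι] [DecidableEq ι] [Fintype κ] [DecidableEq κ]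

theorem HX_range (Φ : Fr κ ≃* Fr ι) : HX ι (Set.range (hv Φ)) := by
  obtain ⟨e⟩ : Nonempty (ι ≃ κ) := Fintype.card_eq.1 (card_eq_of_basis Φ).symm
  refine ⟨(FreeGroup.freeGroupCongr e).trans Φ, ?_⟩
  rintro _ ⟨s, rfl⟩
  exact ⟨e.symm s, by rw [hv_congr, e.apply_symm_apply]⟩

theorem cz_dot (Φ : Fr κ ≃* Fr ι) (s s' : κ) :
    (cz (hv Φ s)).2 ⬝ᵥ (cz (hv Φ s')).1 = if s = s' then 1 else 0 := FTreeB.cls_hl_dot Φ s s'

theorem cz_inj (Φ : Fr κ ≃* Fr ι) {s s' : κ} (e : cz (hv Φ s) = cz (hv Φ s')) : s = s' := by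
  have h := cz_dot Φ s s'
  rw [← e, cz_dot, if_pos rfl] at h
  by_contra hc
  rw [if_neg hc] at h
  exact one_ne_zero h

theorem cz_injOn (Φ : Fr κ ≃* Fr ι) : Set.InjOn cz (Set.range (hv Φ)) := by
  rintro _ ⟨s, rfl⟩ _ ⟨s', rfl⟩ e
  rw [cz_inj Φ e]

theorem WZ_of_HX {S : Set (Fr ι × Set (Fr ι))} (h : HX ι S) : WZ ι (cz '' S) := by
  obtain ⟨β, hβ⟩ := h
  rintro _ ⟨v, hv1, rfl⟩ _ ⟨w, hw, rfl⟩
  obtain ⟨s, rfl⟩ := hβ hv1
  obtain ⟨s', rfl⟩ := hβ hw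
  rw [cz_dot]
  exact ⟨fun e => if_pos (cz_inj β e), fun e => if_neg fun e' => e (by rw [e'])⟩

theorem cz_IA (Φ : Fr κ ≃* Fr ι) {j : Au ι} (hj : j ∈ IA ι) (s : κ) :
    cz (j • hv Φ s) = cz (hv Φ s) :=
  Prod.ext (abv_IA hj _) (cls_IA (isSph_hl Φ _).2.2.1 hj)

theorem exists_split {l : List (Fr ι × Set (Fr ι))} (h : HX ι (vs l)) :
    ∃ (Y T : Ob) (Φ : Fr (Y.ι ⊕ T.ι) ≃* Fr ι), vs l = Set.range fun t => hv Φ (Sum.inr t) := by
  classical
  obtain ⟨β, hβ⟩ := h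
  let p : ι → Prop := fun s => hv β s ∉ l
  refine ⟨Ob.of {s // p s}, Ob.of {s // ¬ p s},
    (FreeGroup.freeGroupCongr (Equiv.sumCompl p)).trans β, ?_⟩
  ext v
  constructor
  · intro hv1
    obtain ⟨s, rfl⟩ := hβ hv1
    exact ⟨⟨s, fun h => h hv1⟩, hv_congr _ _ _⟩
  · rintro ⟨t, rfl⟩
    have e := hv_congr (Equiv.sumCompl p) β (Sum.inr t)
    have h2 : hv β t.1 ∈ l := not_not.1 t.2
    exact (congrArg (· ∈ l) e).mpr h2

theorem abM_conj (Φ : Fr κ ≃* Fr ι) (γ : Au ι) :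
    abM γ = abMat Φ * abM (Φ.trans (γ.trans Φ.symm)) * abMat Φ.symm := by
  rw [← abMat_eq_abM, ← abMat_eq_abM, ← abMat_trans, ← abMat_trans]
  congr 1
  ext x
  simp

theorem abM_conj_apply (Φ : Fr κ ≃* Fr ι) (γ : Au ι) (i j : κ) :
    abM (Φ.trans (γ.trans Φ.symm)) i j = pair (hl Φ (i, true)) (γ (letter Φ j)) :=
  (pair_hl Φ i _).symm

/-- An automorphism that preserves the classes of the handles agrees on the abelianisation with
an automorphism that fixes them. -/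
theorem exists_corr {T : Type} [Fintype T] [DecidableEq T] (hs : Function.Surjective (abGL κ))
    (Φ : Fr (κ ⊕ T) ≃* Fr ι) {γ : Au ι}
    (h : ∀ t, cz (γ • hv Φ (Sum.inr t)) = cz (hv Φ (Sum.inr t))) :
    ∃ φ : Au κ, abM (stabHom Φ φ) = abM γ := by
  set ψ : Au (κ ⊕ T) := Φ.trans (γ.trans Φ.symm) with hψ
  have h1 : ∀ i t, abM ψ i (Sum.inr t) = if i = Sum.inr t then 1 else 0 := fun i t => by
    have e : abv (γ (letter Φ (Sum.inr t))) = abv (letter Φ (Sum.inr t)) :=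
      congrArg Prod.fst (h t)
    rw [hψ, abM_conj_apply, ← cls_dot (isSph_hl Φ _).2.2.1, e, FTreeB.cls_hl_dot]
  have h2 : ∀ t j, abM ψ (Sum.inr t) j = if Sum.inr t = j then 1 else 0 := fun t j => by
    have e : cls (γ • hl Φ (Sum.inr t, true)) = cls (hl Φ (Sum.inr t, true)) :=
      congrArg Prod.snd (h t)
    rw [hψ, abM_conj_apply, ← cls_dot (isSph_hl Φ _).2.2.1, ← e,
      cls_dot ((isSph_hl Φ _).2.2.1.aut γ), pair_aut, pair_hl_letter]
  have h3 : abM ψ = fromBlocks (abM ψ).toBlocks₁₁ 0 0 1 := by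
    ext (a | a) (b | b)
    · rfl
    · simp [h1]
    · simp [h2]
    · simp [h1, Matrix.one_apply]
  have h4 : (abM ψ).toBlocks₁₁ * (abM ψ⁻¹).toBlocks₁₁ = 1 := by
    have e : abM ψ * abM ψ⁻¹ = 1 := by rw [← abM_mul, mul_inv_cancel, abM_one]
    rw [h3, ← fromBlocks_toBlocks (abM ψ⁻¹), fromBlocks_multiply, ← fromBlocks_one,
      fromBlocks_inj] at e
    simpa using e.1
  obtain ⟨φ, hφ⟩ := hs ⟨_, _, h4, mul_eq_one_comm.1 h4⟩
  have h5 : abM φ = (abM ψ).toBlocks₁₁ := congrArg Units.val hφ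
  exact ⟨φ, by rw [abM_stabHom, h5, ← h3, abM_conj Φ γ]⟩

theorem exists_move {l l' : List (Fr ι × Set (Fr ι))} (h : HX ι (vs l)) (h' : HX ι (vs l'))
    (e : l.map cz = l'.map cz) : ∃ γ : Au ι, γ • l = l' ∧ ∀ v ∈ l, cz (γ • v) = cz v := by
  obtain ⟨β, hβ⟩ := h
  obtain ⟨β', hβ'⟩ := h'
  have key : ∀ t : {s // hv β s ∈ l}, ∃ s', cz (hv β' s') = cz (hv β t.1) := by
    intro t
    have h1 : cz (hv β t.1) ∈ l'.map cz := e ▸ List.mem_map_of_mem t.2
    obtain ⟨w, hw, e'⟩ := List.mem_map.1 h1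
    obtain ⟨s', rfl⟩ := hβ' hw
    exact ⟨s', e'⟩
  choose g hg using key
  obtain ⟨σ, hσ⟩ := Equiv.Perm.exists_extending_pair Subtype.val g Subtype.val_injective
    fun t t' e' => Subtype.ext (cz_inj β (by rw [← hg, ← hg, e']))
  let γ : Au ι := β.symm.trans ((FreeGroup.freeGroupCongr σ).trans β')
  have h1 : ∀ s, γ • hv β s = hv β' (σ s) := fun s => by
    rw [hv_aut, ← hv_congr]
    congr 1
    ext x
    simp [γ]
  have h2 : ∀ v ∈ l, cz (γ • v) = cz v := fun v hv1 => by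
    obtain ⟨s, rfl⟩ := hβ hv1
    rw [h1, hσ ⟨s, hv1⟩, hg]
  refine ⟨γ, map_eq_of_injOn (cz_injOn β') _ _ ?_ (fun v hv1 => hβ' hv1) ?_, h2⟩
  · intro w hw
    obtain ⟨v, hv1, rfl⟩ := List.mem_map.1 hw
    obtain ⟨s, rfl⟩ := hβ hv1
    exact ⟨σ s, (h1 s).symm⟩
  · rw [← e, smul_list, List.map_map]
    exact List.map_congr_left h2

theorem hz_eq {X Y : Ob} (Φ : Fr Y.ι ≃* Fr X.ι) (t : Y.ι) : (isoMor Φ).hz t = cz (hv Φ t) :=
  Prod.ext (abv_letter_eq_col Φ t).symm (cls_hl_eq_row Φ t).symm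

end Ab

section Ret

variable {ι : Type} [Fintype ι] [DecidableEq ι]

/-- From a sphere with two tethers to a handle. -/
noncomputable def fw (v : Orb ι × List (Set (Fr ι))) : Fr ι × Set (Fr ι) :=
  (Classical.epsilon fun a : Fr ι => v.2.getD 1 ∅ = a • (v.2.getD 0 ∅)ᶜ, v.2.getD 1 ∅)

/-- From a handle to a sphere with two tethers. -/
def bw (v : Fr ι × Set (Fr ι)) : Orb ι × List (Set (Fr ι)) := (orb v.2, [v.1⁻¹ • v.2ᶜ, v.2])

theorem fw_eq (β : Au ι) (o : Orb ι) (k : ι × Bool) :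
    fw (o, [hl β (k.1, !k.2), hl β k]) = (sl β k, hl β k) := by
  refine Prod.ext ?_ rfl
  have h : hl β k = (fw (o, [hl β (k.1, !k.2), hl β k])).1 • (hl β (k.1, !k.2))ᶜ :=
    Classical.epsilon_spec (p := fun a : Fr ι => hl β k = a • (hl β (k.1, !k.2))ᶜ) ⟨_, hl_opp β k⟩
  have hs : IsSph (hl β (k.1, !k.2))ᶜ :=
    (isSph_hl β _).of_mem_orb (compl_mem_orb (mem_orb_self _))
  exact hs.smul_inj (h.symm.trans (hl_opp β k))

theorem bw_eq (β : Au ι) (s : ι) :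
    bw (hv β s) = (orb (hl β (s, true)), [hl β (s, false), hl β (s, true)]) := by
  have h := hl_opp β (s, true)
  have e : (letter β s)⁻¹ • (hl β (s, true))ᶜ = hl β (s, false) := by
    rw [h, ← smul_compl_fr, compl_compl, sl_true, inv_smul_smul]
    rfl
  simp only [bw, hv, e]

theorem bw_mem {S : Set (Fr ι × Set (Fr ι))} (h : HX ι S) :
    XT 2 (⟨∅, ∅, ∅⟩ : Cfg ι) (bw '' S) := by
  obtain ⟨β, hβ⟩ := h
  have hS : ∀ v ∈ bw '' S, ∃ s,
      v = (orb (hl β (s, true)), [hl β (s, false), hl β (s, true)]) := by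
    rintro _ ⟨w, hw, rfl⟩
    obtain ⟨s, rfl⟩ := hβ hw
    exact ⟨s, bw_eq β s⟩
  generalize bw '' S = U at hS
  have hρ : ∀ o ∈ Prod.fst '' U, ∃ s, o = orb (hl β (s, true)) := by
    rintro _ ⟨v, hv1, rfl⟩
    obtain ⟨s, rfl⟩ := hS v hv1
    exact ⟨s, rfl⟩
  have hT : ∀ t ∈ ⋃ v ∈ U, vs v.2, ∃ k, t = hl β k ∧ t ∈ sides (Prod.fst '' U) := by
    intro t ht
    simp only [Set.mem_iUnion] at ht
    obtain ⟨v, hv1, ht⟩ := ht
    obtain ⟨s, rfl⟩ := hS v hv1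
    simp only [mem_vs, List.mem_cons, List.not_mem_nil, or_false] at ht
    rcases ht with rfl | rfl
    · exact ⟨_, rfl, mem_sides.2 ⟨_, ⟨_, hv1, rfl⟩, hl_mem_orb β s _ _⟩⟩
    · exact ⟨_, rfl, mem_sides.2 ⟨_, ⟨_, hv1, rfl⟩, hl_mem_orb β s _ _⟩⟩
  refine ⟨fun v hv1 => ?_, fun v hv1 w hw e => ?_, ?_, ?_⟩
  · obtain ⟨s, rfl⟩ := hS v hv1
    refine ⟨rfl, ?_, ?_⟩
    · simp only [List.nodup_cons, List.mem_cons, List.not_mem_nil, or_false, not_false_eq_true,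
        List.nodup_nil, and_true]
      intro e
      simpa using hl_inj β e
    · intro t ht
      simp only [List.mem_cons, List.not_mem_nil, or_false] at ht
      rcases ht with rfl | rfl <;> exact hl_mem_orb β s _ _
  · obtain ⟨s, rfl⟩ := hS v hv1
    obtain ⟨s', rfl⟩ := hS w hw
    rw [orb_hl_injective β e]
  · simp only [Cfg.addT, Set.empty_union]
    refine ⟨pb_empty, (sys_basis β).mono fun o ho => ?_, fun a ha => ha.elim,
      (Set.finite_range (hl β)).subset fun t ht => ?_, fun t ht => ?_, fun t ht t' ht' e => ?_⟩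
    · obtain ⟨s, rfl⟩ := hρ o ho
      exact ⟨s, rfl⟩
    · obtain ⟨k, rfl, -⟩ := hT t ht
      exact ⟨k, rfl⟩
    · obtain ⟨k, rfl, hk⟩ := hT t ht
      exact adj_hl_of_basis hρ hk
    · obtain ⟨k, rfl, -⟩ := hT t ht
      obtain ⟨k', rfl, -⟩ := hT t' ht'
      obtain ⟨g, e⟩ := e
      rw [(smul_hl_inj β (g := 1) ((one_smul _ _).trans e)).2]
  · intro o ho hm
    obtain ⟨s, rfl⟩ := hρ o ho
    rw [vo_orb_mem, spn_empty, bot_sup_eq] at hm
    refine (linearIndependent_clp β 2).notMem_span_image (s := {s}ᶜ) (x := s) (by simp) ?_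
    refine Submodule.span_le.2 ?_ hm
    rintro _ ⟨o', ⟨ho', hne⟩, rfl⟩
    obtain ⟨s', rfl⟩ := hρ o' ho'
    rw [SetLike.mem_coe, vo_orb_mem]
    refine Submodule.subset_span ⟨s', ?_, rfl⟩
    rintro rfl
    exact hne rfl

theorem fw_mem (ha : S_adapt) {U : Set (Orb ι × List (Set (Fr ι)))}
    (h : XT 2 (⟨∅, ∅, ∅⟩ : Cfg ι) U) : HX ι (fw '' U) := by
  classical
  obtain ⟨h1, h2, h3, h4⟩ := h
  obtain ⟨β, hβ⟩ := ha ι _ h3
  have hi : Indep 2 (Ann 2 (Dg (sides (∅ : Set (Orb ι))))) (Prod.fst '' U) := by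
    have e : sides (∅ : Set (Orb ι)) = ∅ := Set.sUnion_empty
    rw [e, Dg_empty, Ann_top, ← spn_empty]
    exact h4
  have h5 := (hβ.indep (ρ := ∅) (S := Prod.fst '' U) h3.sys rfl hi).2.1
  have key : ∀ v ∈ U, ∃ s b, v.1 = orb (hl β (s, true)) ∧
      fw v = (sl β (s, b), hl β (s, b)) := by
    rintro ⟨o, L⟩ hv1
    obtain ⟨s, rfl, -⟩ := h5 o ⟨_, hv1, rfl⟩
    obtain ⟨e1, e2, e3⟩ := h1 _ hv1
    obtain ⟨t2, t1, rfl⟩ := List.length_eq_two.1 e1
    have hT : ∀ t ∈ [t2, t1], ∃ b, t = hl β (s, b) := by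
      intro t ht
      obtain ⟨D, rfl⟩ := hβ.tethers t (Or.inr (Set.mem_biUnion hv1 ht))
      rcases ideal_mem_orb_hl β (e3 _ ht) with rfl | rfl
      · exact ⟨true, rfl⟩
      · exact ⟨false, rfl⟩
    obtain ⟨b2, rfl⟩ := hT t2 (by simp)
    obtain ⟨b1, rfl⟩ := hT _ (List.mem_cons_of_mem _ List.mem_cons_self)
    have hb : b2 = !b1 := by
      cases b1 <;> cases b2 <;> simp at e2 ⊢
    subst hb
    exact ⟨s, b1, rfl, fw_eq β _ (s, b1)⟩
  let b : ι → Bool := fun s =>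
    if ∃ v ∈ U, v.1 = orb (hl β (s, true)) ∧ fw v = (sl β (s, false), hl β (s, false))
    then false else true
  obtain ⟨γ, -, hγ⟩ := exists_aut_nielsen β ∅ (fun s => sl β (s, b s))
    fun s _ => ⟨1, one_mem _, 1, one_mem _, b s, by simp⟩
  have hl1 : ∀ s, letter (γ * β) s = sl β (s, b s) := fun s => by
    rw [letter_mul, hγ s (by simp)]
  have hh : ∀ s, hv (γ * β) s = (sl β (s, b s), hl β (s, b s)) := fun s => by
    refine Prod.ext (hl1 s) (eq_hl_of_sep _ (one_notMem_hl β _) ?_ fun s' hs' => ?_).symm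
    · rw [sl_true, hl1]
      exact sep_hl_self β _
    · rw [hl1]
      exact FTreeB.sep_hl_sl β hs'
  refine ⟨γ * β, ?_⟩
  rintro _ ⟨v, hv1, rfl⟩
  obtain ⟨s, b', e1, e2⟩ := key v hv1
  refine ⟨s, ?_⟩
  rw [hh, e2]
  have hb : b s = b' := by
    cases b'
    · exact if_pos ⟨v, hv1, e1, e2⟩
    · refine if_neg ?_
      rintro ⟨w, hw, e3, e4⟩
      obtain rfl : v = w := h2 hv1 hw (e1.trans e3.symm)
      have := hl_inj β (congrArg Prod.snd (e2.symm.trans e4))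
      simp at this
  rw [hb]

end Ret

end JHX

open JHX

theorem p_HX (ha : S_adapt) (hX : S_XT 2) : S_HX := by
  intro j
  obtain ⟨N, hN⟩ := hX j
  refine ⟨N, fun ι _ _ hι n hn => ?_⟩
  have h := hN ι ⟨∅, ∅, ∅⟩ valid_empty (fun o ho => ho.elim) (by simpa using hι) n hn
  refine h.retract fw bw (fun S _ hS => fw_mem ha hS) (fun S _ hS => bw_mem hS) ?_
  rintro S ⟨β, hβ⟩ w hw
  obtain ⟨s, rfl⟩ := hβ hw
  rw [bw_eq]
  exact fw_eq β _ (s, true)

theorem p_O (hL : S_Zlift) (hZ : S_Zfull) : S_O := by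
  intro ι _ _
  refine ⟨fun S T ⟨β, hβ⟩ h => ⟨β, h.trans hβ⟩, ?_, fun S h => WZ_of_HX h,
    fun S ⟨β, hβ⟩ => (cz_injOn β).mono hβ, ?_, ?_, ?_⟩
  · rintro γ S ⟨β, hβ⟩
    refine ⟨β.trans γ, ?_⟩
    rintro _ ⟨v, hv1, rfl⟩
    obtain ⟨s, rfl⟩ := hβ hv1
    exact ⟨s, (hv_aut β γ s).symm⟩
  · rintro j hj l ⟨β, hβ⟩
    rw [smul_list, List.map_map]
    refine List.map_congr_left fun v hv1 => ?_
    obtain ⟨s, rfl⟩ := hβ hv1
    exact cz_IA β hj s
  · intro l l' h h' e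
    obtain ⟨γ, rfl, h2⟩ := exists_move h h' e
    obtain ⟨Y, T, Φ, hΦ⟩ := exists_split h
    obtain ⟨φ, hφ⟩ := exists_corr (hL.1 Y.ι) Φ (γ := γ) fun t =>
      h2 _ (by rw [← mem_vs, hΦ]; exact ⟨t, rfl⟩)
    refine ⟨γ * (stabHom Φ φ)⁻¹, ?_, ?_⟩
    · rw [mem_IA, abM_mul, ← hφ, ← abM_mul, mul_inv_cancel, abM_one]
    · have h3 : stabHom Φ φ ∈ MulAction.stabilizer (Au ι) l := mem_stabilizer_list.2 fun v hv1 => by
        rw [← mem_vs, hΦ] at hv1
        obtain ⟨t, rfl⟩ := hv1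
        exact stabHom_hv Φ φ t
      rw [mul_smul, MulAction.mem_stabilizer_iff.1 (inv_mem h3)]
  · intro l hl1
    obtain ⟨Y, T, g, hg, -, -, hS⟩ := (hZ (Ob.of ι) (vs l) (vs_finite l) hl1).1
    obtain ⟨Φ, hΦ⟩ := hL.2 (Y.sum T) (Ob.of ι) g hg
    have e : g = isoMor Φ := by
      refine Mor.ext hΦ.symm ?_
      change g.r = abMat Φ.symm
      rw [← Matrix.one_mul (abMat Φ.symm), ← g.ri, ← hΦ, Matrix.mul_assoc, abMat_mul_symm,
        Matrix.mul_one]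
    have key : ∀ p ∈ l, ∃ v ∈ Set.range (hv Φ), cz v = p := fun p hp => by
      rw [← mem_vs, hS] at hp
      obtain ⟨t, rfl⟩ := hp
      exact ⟨_, ⟨Sum.inr t, rfl⟩, by rw [e]; exact (hz_eq Φ _).symm⟩
    choose! F hF using key
    obtain ⟨β, hβ⟩ := HX_range Φ
    refine ⟨l.map F, ⟨β, fun v hv1 => ?_⟩, ?_⟩
    · obtain ⟨p, hp, rfl⟩ := List.mem_map.1 hv1
      exact hβ (hF p hp).1
    · rw [List.map_map]
      conv_rhs => rw [← List.map_id l]
      exact List.map_congr_left fun p hp => (hF p hp).2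

theorem p_O3 (hZ : S_Zfull) : S_O3 := by
  intro X l h
  obtain ⟨Y, T, Φ, hΦ⟩ := exists_split h
  refine ⟨Y, T, Φ, ?_, stabHom_inj Φ, le_antisymm ?_ ?_⟩
  · refine (hZ X _ ((vs_finite l).image _) (WZ_of_HX h)).2.1 Y T (isoMor (X := Y.sum T) Φ)
      (abMat_mul_symm Φ) ?_
    rw [hΦ, ← Set.range_comp]
    exact congrArg Set.range (funext fun t => (hz_eq (Y := Y.sum T) Φ _).symm)
  · rintro _ ⟨φ, hφ, rfl⟩
    refine ⟨stabHom_IA Φ φ hφ, mem_stabilizer_list.2 fun v hv1 => ?_⟩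
    rw [← mem_vs, hΦ] at hv1
    obtain ⟨t, rfl⟩ := hv1
    exact stabHom_hv Φ φ t
  · rintro γ ⟨h1, h2⟩
    obtain ⟨φ, rfl⟩ := exists_stab Φ (γ := γ) fun t =>
      mem_stabilizer_list.1 h2 _ (by rw [← mem_vs, hΦ]; exact ⟨t, rfl⟩)
    refine ⟨φ, ?_, rfl⟩
    have e := mem_IA.1 h1
    rw [abM_stabHom] at e
    have e2 : fromBlocks (abM φ) 0 0 (1 : Matrix T.ι T.ι ℤ) = 1 := by
      calc fromBlocks (abM φ) 0 0 (1 : Matrix T.ι T.ι ℤ)
          = abMat Φ.symm * (abMat Φ * fromBlocks (abM φ) 0 0 (1 : Matrix T.ι T.ι ℤ) *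
              abMat Φ.symm) * abMat Φ := by
            rw [← Matrix.mul_assoc, ← Matrix.mul_assoc, abMat_symm_mul, Matrix.one_mul,
              Matrix.mul_assoc, abMat_symm_mul, Matrix.mul_one]
        _ = 1 := by rw [e, Matrix.mul_one, abMat_symm_mul]
    rw [← fromBlocks_one, fromBlocks_inj] at e2
    exact mem_IA.2 e2.1

theorem p_bridge (hZ : S_Zfull) (hH : S_Hbij) : S_bridge := by
  intro q A e hW X l h
  obtain ⟨Y, T, Φ, h1, h2, h3⟩ := p_O3 hZ X l h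
  obtain ⟨h4, -, h5⟩ := (hZ X _ ((vs_finite l).image _) (WZ_of_HX h)).2.2 Y _ h1
  have h' : ∀ j ∈ IA Y.ι, stabHom Φ j ∈ IA X.ι ⊓ MulAction.stabilizer (Au X.ι) l :=
    fun j hj => h3 ▸ Subgroup.mem_map_of_mem _ hj
  have hB := hH _ _ _ _ (stabHom Φ) h' h2 h3 q
  have key : ∀ x, e X (A.map (morOf (T := T) Φ) x) =
      Hinc inf_le_left q (Hmap (stabHom Φ) h' q (e Y x)) := fun x => by
    rw [hW.1]
    exact (Hlift_comp _ id _ _ _ q _).symm
  have hs : Function.Surjective fun x => Hmap (stabHom Φ) h' q (e Y x) :=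
    hB.2.comp (e Y).surjective
  constructor
  · rw [h5 A]
    apply le_antisymm
    · rintro _ ⟨_, ⟨x, rfl⟩, rfl⟩
      exact ⟨_, (key x).symm⟩
    · rintro _ ⟨z, rfl⟩
      obtain ⟨x, rfl⟩ := hs z
      exact ⟨_, ⟨x, rfl⟩, key x⟩
  · intro hi z z' ez
    obtain ⟨x, rfl⟩ := hs z
    obtain ⟨x', rfl⟩ := hs z'
    have h6 : (cz '' vs l).ncard ≤ l.length :=
      (Set.ncard_image_le (vs_finite l)).trans (vs_ncard_le l)
    have h7 : x = x' := hi Y (morOf (T := T) Φ) (by omega)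
      ((e X).injective ((key x).trans (ez.trans (key x').symm)))
    rw [h7]

end Pool.Agent.Lib.MP_49df17_al
end

-- part Pool.Agent.Lib.MP_49df17_al.Kx
section

/-!
The complex of filling systems is acyclic, cocompact and has finite stabilisers.
-/

set_option linter.unusedSectionVars false

namespace Pool.Agent.Lib.MP_49df17_al

open scoped Pointwise

namespace JKx

variable {ι : Type}

/-- The sides between `1` and `g`. -/
def bt (σ : Set (Orb ι)) (g : Fr ι) : Orb ι := {X ∈ sides σ | 1 ∉ X ∧ g ∈ X}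

theorem bt_finite {σ : Set (Orb ι)} (h : Sys σ) (g : Fr ι) : (bt σ g).Finite :=
  (h.finite_sep 1 g).subset fun _ hX => ⟨hX.1, fun e => hX.2.1 (e.2 hX.2.2)⟩

theorem bt_aut (γ : Au ι) (σ : Set (Orb ι)) (g : Fr ι) : bt (γ • σ) (γ g) = γ • bt σ g := by
  ext X
  obtain ⟨Y, rfl⟩ := MulAction.surjective γ X
  rw [Set.smul_mem_smul_set_iff]
  simp only [bt, Set.mem_sep_iff]
  rw [← au_smul_sides, Set.smul_mem_smul_set_iff, one_mem_au_smul, mem_smul_au]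
  simp

theorem ncard_bt_aut (γ : Au ι) (σ : Set (Orb ι)) (g : Fr ι) :
    (bt (γ • σ) (γ g)).ncard = (bt σ g).ncard := by
  rw [bt_aut]
  exact Set.ncard_image_of_injective _ (MulAction.injective γ)

theorem fill_aut {σ : Set (Orb ι)} (h : Fill σ) (γ : Au ι) : Fill (γ • σ) := by
  intro m
  refine ((h m).image γ).subset fun g hg => ?_
  obtain ⟨g', rfl⟩ := γ.surjective g
  refine ⟨g', ?_, rfl⟩
  have h1 : (bt (γ • σ) (γ g')).ncard ≤ m := hg
  rw [ncard_bt_aut] at h1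
  exact h1

theorem exists_tr {C : Set (Fr ι)} (hC : IsSph C) (R : Set (Fr ι)) :
    ∃ f : Set (Fr ι) → Set (Fr ι), ∀ a : Fr ι, f (a • C) = a • R := by
  have hi : Function.Injective fun a : Fr ι => a • C := fun _ _ e => hC.smul_inj e
  exact ⟨Function.extend (fun a : Fr ι => a • C) (fun a => a • R) fun _ => ∅,
    fun a => hi.extend_apply _ _ a⟩

theorem fill_surgery {σ : Set (Orb ι)} (h : Fill σ) {P E : Set (Fr ι)} (h1 : IsSph (P ∩ E))
    (h2 : IsSph (P ∩ Eᶜ))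
    (hs : Sys ((σ \ {orb P}) ∪ {orb (P ∩ E), orb (P ∩ Eᶜ)})) :
    Fill ((σ \ {orb P}) ∪ {orb (P ∩ E), orb (P ∩ Eᶜ)}) := by
  set σ' := (σ \ {orb P}) ∪ {orb (P ∩ E), orb (P ∩ Eᶜ)} with hσ'
  obtain ⟨f1, e1⟩ := exists_tr h1 P
  obtain ⟨f2, e2⟩ := exists_tr h2 P
  obtain ⟨f3, e3⟩ := exists_tr (h1.of_mem_orb (compl_mem_orb (mem_orb_self _))) Pᶜ
  obtain ⟨f4, e4⟩ := exists_tr (h2.of_mem_orb (compl_mem_orb (mem_orb_self _))) Pᶜ
  have m1 : ∀ X ∈ orb (P ∩ E), X ∈ sides σ' := fun X hX =>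
    mem_sides.2 ⟨_, Or.inr (Or.inl rfl), hX⟩
  have m2 : ∀ X ∈ orb (P ∩ Eᶜ), X ∈ sides σ' := fun X hX =>
    mem_sides.2 ⟨_, Or.inr (Or.inr rfl), hX⟩
  have key : ∀ g, (bt σ g).ncard ≤ 5 * (bt σ' g).ncard := by
    intro g
    have hf := bt_finite hs g
    have hsub : bt σ g ⊆ bt σ' g ∪ f1 '' bt σ' g ∪ f2 '' bt σ' g ∪ f3 '' bt σ' g ∪
        f4 '' bt σ' g := by
      rintro X ⟨hX, x1, xg⟩
      obtain ⟨o, ho, hXo⟩ := mem_sides.1 hX
      by_cases e : o = orb P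
      · subst e
        obtain ⟨a, rfl | rfl⟩ := hXo
        · rw [mem_smul_fr] at x1 xg
          by_cases hE : a⁻¹ * g ∈ E
          · exact Or.inl (Or.inl (Or.inl (Or.inr ⟨a • (P ∩ E), ⟨m1 _ ⟨a, Or.inl rfl⟩,
              fun k => x1 (mem_smul_fr.1 k).1, mem_smul_fr.2 ⟨xg, hE⟩⟩, e1 a⟩)))
          · exact Or.inl (Or.inl (Or.inr ⟨a • (P ∩ Eᶜ), ⟨m2 _ ⟨a, Or.inl rfl⟩,
              fun k => x1 (mem_smul_fr.1 k).1, mem_smul_fr.2 ⟨xg, hE⟩⟩, e2 a⟩))
        · rw [mem_smul_fr] at x1 xg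
          have x2 : a⁻¹ * 1 ∈ P := not_not.1 x1
          by_cases hE : a⁻¹ * 1 ∈ E
          · exact Or.inl (Or.inr ⟨a • (P ∩ E)ᶜ, ⟨m1 _ ⟨a, Or.inr rfl⟩,
              fun k => mem_smul_fr.1 k ⟨x2, hE⟩, mem_smul_fr.2 fun k => xg k.1⟩, e3 a⟩)
          · exact Or.inr ⟨a • (P ∩ Eᶜ)ᶜ, ⟨m2 _ ⟨a, Or.inr rfl⟩,
              fun k => mem_smul_fr.1 k ⟨x2, hE⟩, mem_smul_fr.2 fun k => xg k.1⟩, e4 a⟩
      · exact Or.inl (Or.inl (Or.inl (Or.inl
          ⟨mem_sides.2 ⟨o, Or.inl ⟨ho, e⟩, hXo⟩, x1, xg⟩)))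
    have a0 := Set.ncard_le_ncard hsub
      ((((hf.union (hf.image _)).union (hf.image _)).union (hf.image _)).union (hf.image _))
    have a1 := Set.ncard_union_le (bt σ' g ∪ f1 '' bt σ' g ∪ f2 '' bt σ' g ∪ f3 '' bt σ' g)
      (f4 '' bt σ' g)
    have a2 := Set.ncard_union_le (bt σ' g ∪ f1 '' bt σ' g ∪ f2 '' bt σ' g) (f3 '' bt σ' g)
    have a3 := Set.ncard_union_le (bt σ' g ∪ f1 '' bt σ' g) (f2 '' bt σ' g)
    have a4 := Set.ncard_union_le (bt σ' g) (f1 '' bt σ' g)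
    have b1 := Set.ncard_image_le (f := f1) hf
    have b2 := Set.ncard_image_le (f := f2) hf
    have b3 := Set.ncard_image_le (f := f3) hf
    have b4 := Set.ncard_image_le (f := f4) hf
    omega
  intro m
  refine (h (5 * m)).subset fun g hg => ?_
  have h3 : (bt σ' g).ncard ≤ m := hg
  have h4 := key g
  change (bt σ g).ncard ≤ 5 * m
  omega

theorem down : Down (Kx ι) := fun _ _ h hT =>
  ⟨h.1.mono (Set.sUnion_mono hT), fun σ hσ => h.2 σ (hT hσ)⟩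

theorem empty : Kx ι ∅ := ⟨by rw [Set.sUnion_empty]; exact sys_empty, fun _ h => h.elim⟩

theorem aut (γ : Au ι) (S : Set (Set (Orb ι))) (h : Kx ι S) : Kx ι (γ • S) := by
  refine ⟨(h.1.aut γ).mono ?_, ?_⟩
  · rintro o ⟨_, ⟨σ, hσ, rfl⟩, o', ho', rfl⟩
    exact Set.smul_mem_smul_set ⟨σ, hσ, ho'⟩
  · rintro _ ⟨σ, hσ, rfl⟩
    exact fill_aut (h.2 σ hσ) γ

theorem finite_lists {α : Type} {W : Set α} (hW : W.Finite) (s : ℕ) :
    {l : List α | l.length = s ∧ ∀ x ∈ l, x ∈ W}.Finite := by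
  induction s with
  | zero =>
    refine (Set.finite_singleton []).subset fun l hl => ?_
    exact List.length_eq_zero_iff.1 hl.1
  | succ s ih =>
    refine (hW.image2 List.cons ih).subset ?_
    rintro (_ | ⟨a, l⟩) ⟨h1, h2⟩
    · simp at h1
    · exact ⟨a, h2 a (by simp), l, ⟨by simpa using h1, fun x hx => h2 x (by simp [hx])⟩, rfl⟩

variable [Fintype ι] [DecidableEq ι]

theorem exact (hf : S_flow) (n : ℕ) : ExactAt (Kx ι) n := by
  refine (hf ι 1 (Set (Orb ι)) (Kx ι) id down (fun S _ h => ?_) ?_).2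
    (Set.range fun s : ι => orb (hl (1 : Au ι) (s, true))) (fun S _ h hc => ?_) n
  · have := h.1
    rwa [Set.sUnion_eq_biUnion] at this
  · intro P g k _ _ _ h1 h2 v _ _
    refine ⟨(v \ {orb P}) ∪ {orb (P ∩ g • hl (1 : Au ι) k), orb (P ∩ (g • hl (1 : Au ι) k)ᶜ)},
      subset_rfl, fun S _ hS hv n1 n2 => ?_⟩
    have s1 := hS.1.insert_orb h1 fun Q hQ => by
      obtain ⟨o, ⟨u, hu, ho⟩, hQ⟩ := mem_sides.1 hQ
      exact (n2 u hu o ho Q hQ).1
    have s2 := s1.insert_orb h2 fun Q hQ => by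
      obtain ⟨o, rfl | ⟨u, hu, ho⟩, hQ⟩ := mem_sides.1 hQ
      · exact n1 Q hQ
      · exact (n2 u hu o ho Q hQ).2
    have s3 : Sys (⋃₀ insert ((v \ {orb P}) ∪
        {orb (P ∩ g • hl (1 : Au ι) k), orb (P ∩ (g • hl (1 : Au ι) k)ᶜ)}) S) := by
      refine s2.mono ?_
      rintro o ⟨u, rfl | hu, ho⟩
      · rcases ho with ho | rfl | rfl
        · exact Or.inr (Or.inr ⟨v, hv, ho.1⟩)
        · exact Or.inr (Or.inl rfl)
        · exact Or.inl rfl
      · exact Or.inr (Or.inr ⟨u, hu, ho⟩)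
    refine ⟨s3, ?_⟩
    rintro σ (rfl | hσ)
    · exact fill_surgery (hS.2 v hv) h1 h2
        (s3.mono (Set.subset_sUnion_of_mem (Set.mem_insert _ _)))
    · exact hS.2 σ hσ
  · have hb := sys_basis (ι := ι) (κ := ι) (1 : Au ι)
    refine ⟨?_, ?_⟩
    · rw [Set.sUnion_insert]
      refine ⟨hb.1.union h.1.1, ?_, ?_⟩
      · rintro o (ho | ho)
        · exact hb.2.1 o ho
        · exact h.1.2.1 o ho
      · have mix : ∀ X ∈ sides (Set.range fun s : ι => orb (hl (1 : Au ι) (s, true))),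
            ∀ Y ∈ sides (⋃₀ S), Nest X Y := by
          intro X hX Y hY
          obtain ⟨_, ⟨s, rfl⟩, hX⟩ := mem_sides.1 hX
          obtain ⟨o, ⟨u, hu, ho⟩, hY⟩ := mem_sides.1 hY
          exact Compat.nest_orb_hl _ (hc u hu o ho Y hY) s X hX
        rw [sides_union]
        rintro X (hX | hX) Y (hY | hY)
        · exact hb.2.2 X hX Y hY
        · exact mix X hX Y hY
        · exact (mix Y hY X hX).symm
        · exact h.1.2.2 X hX Y hY
    · rintro σ (rfl | hσ)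
      · exact fill_basis _
      · exact h.2 σ hσ

theorem orbits (ha : S_adapt) (s : ℕ) : ∃ Ls : Finset (List (Set (Orb ι))),
    ∀ l, l.length = s → Kx ι (vs l) → ∃ γ : Au ι, γ • l ∈ Ls := by
  have hO : (Set.range fun D : Set (ι × Bool) =>
      orb (ideal (MulEquiv.refl (Fr ι)) D)).Finite := Set.finite_range _
  refine ⟨(finite_lists hO.finite_subsets s).toFinset, fun l h1 h2 => ?_⟩
  obtain ⟨β, hβ⟩ := ha ι ⟨∅, ⋃₀ vs l, ∅⟩
    ⟨pb_empty, h2.1, fun _ h => h.elim, Set.finite_empty, fun _ h => h.elim, fun _ h => h.elim⟩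
  refine ⟨β⁻¹, (Set.Finite.mem_toFinset _).2 ⟨by simp [smul_list, h1], fun x hx => ?_⟩⟩
  rw [smul_list, List.mem_map] at hx
  obtain ⟨σ, hσ, rfl⟩ := hx
  rintro _ ⟨o, ho, rfl⟩
  obtain ⟨D, hD⟩ := hβ.ideals o ⟨σ, hσ, ho⟩
  refine ⟨D, ?_⟩
  have e := h2.1.eq_orb ⟨σ, hσ, ho⟩ hD
  change _ = β⁻¹ • o
  rw [e, au_smul_orb, ideal_aut]
  exact congrArg (fun b => orb (ideal b D)) (MulEquiv.self_trans_symm β).symm

theorem stab (l : List (Set (Orb ι))) (h1 : l ≠ []) (h2 : Kx ι (vs l)) :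
    Finite (MulAction.stabilizer (Au ι) l) := by
  obtain ⟨σ, hσ⟩ := List.exists_mem_of_ne_nil l h1
  have hF := h2.2 σ hσ
  let F : ι → Set (Fr ι) := fun s =>
    {g | (bt σ g).ncard ≤ (bt σ (FreeGroup.of s)).ncard}
  have : ∀ s, Finite (F s) := fun s => (hF _).to_subtype
  refine Finite.of_injective (β := ∀ s, F s) (fun γ s => ⟨γ.1 (FreeGroup.of s), ?_⟩) ?_
  · have e := ncard_bt_aut γ.1 σ (FreeGroup.of s)
    rw [mem_stabilizer_list.1 γ.2 σ hσ] at e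
    exact e.le
  · intro γ δ e
    refine Subtype.ext (MulEquiv.toMonoidHom_injective (FreeGroup.ext_hom _ _ fun s => ?_))
    exact congrArg Subtype.val (congrFun e s)

end JKx

theorem p_Kx (h1 : S_flow) (h2 : S_adapt) : S_Kx := fun _ _ _ =>
  ⟨JKx.down, JKx.empty, JKx.aut, JKx.exact h1, JKx.orbits h2, JKx.stab⟩

theorem p_fin (h1 : S_Kx) (h2 : S_FIN) (h3 : S_FPGL) (h4 : S_FPg) (h5 : S_Zlift) : S_fin := by
  intro ι _ _ q hq
  obtain ⟨a1, a2, a3, a4, a5, a6⟩ := h1 ι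
  exact h2 (Au ι) (Set (Orb ι)) (IA ι) (Kx ι) q a1 a2 a3 a4 a5 a6
    (fun m => h4.2.2.2.1 _ _ m
      (QuotientGroup.quotientKerEquivOfSurjective (abGL ι) (h5.1 ι)).symm (h3 ι m)) hq

end Pool.Agent.Lib.MP_49df17_al
end

-- part Pool.Agent.Lib.MP_49df17_al.NK
section

/-!
Good letters, live configurations, and the complexes of admissible and of dual spheres.
-/

set_option linter.unusedSectionVars false

namespace Pool.Agent.Lib.MP_49df17_al

open Matrix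
open scoped Pointwise

namespace JNK

variable {ι : Type} [Fintype ι] [DecidableEq ι] {β : Au ι} {c : Cfg ι}

/-- The class of an ideal set is the sum of the classes of free letters and of ideal sides. -/
theorem cls_ideal_aux (K : AddSubgroup (ι → ℤ)) (n : ℕ) : ∀ D₀ : Set (ι × Bool), D₀.ncard = n →
    (∀ k ∈ D₀, (Free β c.ρ k ∧ cls (hl β k) ∈ K) ∨
      ∃ D', k ∈ D' ∧ D' ⊆ D₀ ∧ Adj c.ρ (ideal β D') ∧ cls (ideal β D') ∈ K) →
    cls (ideal β D₀) ∈ K := by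
  induction n using Nat.strong_induction_on with
  | _ n ih =>
  intro D₀ hn H
  rcases D₀.eq_empty_or_nonempty with rfl | ⟨k, hk⟩
  · rw [ideal_empty, cls_empty]; exact zero_mem _
  have h3 : ∃ D', k ∈ D' ∧ D' ⊆ D₀ ∧ cls (ideal β D') ∈ K ∧
      ∀ k' ∈ D₀ \ D', ∀ D'', k' ∈ D'' → Adj c.ρ (ideal β D'') → Disjoint D'' D' := by
    rcases H k hk with ⟨hf, hK⟩ | ⟨D', h4, h5, h6, h7⟩
    · exact ⟨{k}, rfl, Set.singleton_subset_iff.2 hk, hK, fun k' _ D'' _ ha =>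
        Set.disjoint_singleton_right.2 (hf D'' ha.1)⟩
    · refine ⟨D', h4, h5, h7, fun k' hk' D'' h8 ha => ?_⟩
      rcases ha.eq_or_disjoint h6 with e | e
      · exact absurd (ideal_injective β e ▸ h8) hk'.2
      · exact (ideal_disjoint_iff β).1 e
  obtain ⟨D', h4, h5, h6, h7⟩ := h3
  have h8 : cls (ideal β (D₀ \ D')) ∈ K := by
    refine ih _ ?_ _ rfl fun k' hk' => ?_
    · rw [← hn]
      exact Set.ncard_lt_ncard ⟨Set.sdiff_subset, fun hsub => (hsub hk).2 h4⟩ (Set.toFinite _)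
    · rcases H k' hk'.1 with h9 | ⟨D'', a1, a2, a3, a4⟩
      · exact Or.inl h9
      · exact Or.inr ⟨D'', a1, Set.subset_sdiff.2 ⟨a2, h7 k' hk' D'' a1 a3⟩, a3, a4⟩
  rw [← Set.union_sdiff_cancel h5, ideal_union, cls_union (ai_ideal β _) (ai_ideal β _)
    ((ideal_disjoint_iff β).2 Set.disjoint_sdiff_right)]
  exact add_mem h6 h8

/-- An ideal sphere of the base region is bad when all its free letters are bad. -/
theorem cls_mem_of_valid (h : Adapted β c) (hv : Valid c) {K : AddSubgroup (ι → ℤ)}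
    (hL : ¬ L1 K c) {D : Set (ι × Bool)} (hD : Valid (c.add {orb (ideal β D)}))
    (hb : ∀ Z ∈ sides c.ρ, 1 ∉ Z → ¬ ideal β D ⊆ Z)
    (h2 : ∀ s, Free β c.ρ (s, true) → letter β s ∉ c.A → cls (hl β (s, true)) ∈ K) :
    cls (ideal β D) ∈ K := by
  obtain ⟨a1, a2, a3⟩ := hv.add_iff.1 hD
  rw [sides_singleton] at a2 a3
  refine cls_ideal_aux (c := c) K _ D rfl fun k hk => ?_
  by_cases hf : Free β c.ρ k
  · refine Or.inl ⟨hf, ?_⟩
    obtain ⟨s, b⟩ := k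
    have h3 : cls (hl β (s, true)) ∈ K := by
      refine h2 s ((h.free_opp hv.sys s b true).1 hf) fun hs => ?_
      have h4 := (sep_ideal_eq_empty β).1 (mem_Dg_orb.1 (a2 _ hs))
      cases b
      · exact h4.2 hk
      · exact h4.1 hk
    cases b
    · rw [cls_hl_false]; exact neg_mem h3
    · exact h3
  · simp only [Free, not_forall, not_not] at hf
    obtain ⟨D₁, h3, h4⟩ := hf
    obtain ⟨Z, hZ, h5⟩ := hv.sys.exists_adj h3 (one_notMem_ideal β _)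
    obtain ⟨D', rfl⟩ := h.ideal_of_superset hv.sys ⟨k, h4⟩ hZ.1 hZ.2.1 h5
    have h6 : k ∈ D' := (ideal_subset_iff β).1 h5 h4
    have h7 : Nest (ideal β D') (ideal β D) := a1.2.2 _ (sides_mono Set.subset_union_left hZ.1) _
      (mem_sides.2 ⟨_, Or.inr rfl, mem_orb_self _⟩)
    rcases h7.of_notMem hZ.2.1 (one_notMem_ideal β _) with e | e | e
    · exact absurd hk (Set.disjoint_left.1 ((ideal_disjoint_iff β).1 e) h6)
    · refine Or.inr ⟨D', h6, (ideal_subset_iff β).1 e, hZ, by_contra fun hK => hL ⟨_, hZ, hK, ?_⟩⟩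
      rintro t ht ⟨g, hg⟩
      obtain ⟨D'', rfl⟩ := h.tethers t ht
      have h8 : g = 1 := eq_one_of_smul_ideal β
        ((ideal_nonempty_iff β).1 (hv.sys.isSph (hv.adj _ ht).1).1) hg.symm
      rw [h8, one_smul] at hg
      rcases a3 _ ht _ (mem_orb_self _) (one_notMem_ideal β _) with e' | e'
      · exact hb _ hZ.1 hZ.2.1 (hg ▸ e')
      · exact Set.disjoint_left.1 ((ideal_disjoint_iff β).1 (hg ▸ e')) hk h6
    · exact absurd e (hb _ hZ.1 hZ.2.1)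

theorem good1 (h : Adapted β c) (hv : Valid c) {K : AddSubgroup (ι → ℤ)} {s : ι}
    (h1 : Free β c.ρ (s, true)) (h2 : letter β s ∉ c.A) (h3 : cls (hl β (s, true)) ∉ K) :
    Adm K c (orb (hl β (s, true))) := by
  refine ⟨?_, cls_orb_notMem.2 h3, h.inB_hl hv.sys h1⟩
  have := h.valid_insert_hl hv (S := ∅) (by rwa [Cfg.add_empty]) (fun _ ho => ho.elim) h2
  rwa [insert_empty_eq] at this

theorem sys_of_valid {S : Set (Orb ι)} (hS : Valid (c.add S)) : Sys (⋃ v ∈ S, {v}) := by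
  rw [Set.biUnion_of_singleton]
  exact hS.sys.mono Set.subset_union_right

theorem exists_orb {o : Orb ι} (hS : Valid (c.add {o})) : ∃ P, IsSph P ∧ o = orb P :=
  hS.sys.2.1 o (Or.inr rfl)

/-- The flow on the complex of admissible spheres. -/
theorem flow_NK (hf : S_flow) (h : Adapted β c) (hv : Valid c) {K : AddSubgroup (ι → ℤ)}
    (hL : ¬ L1 K c) :
    (∀ v, NK K c {v} → ∃ v', NK K c {v'} ∧ ∀ Q ∈ v', Compat β Q) ∧
    ∀ o, (∀ S, S.Finite → NK K c S → (∀ u ∈ S, ∀ Q ∈ u, Compat β Q) → NK K c (insert o S)) →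
      ∀ n, ExactAt (NK K c) n := by
  have key := hf ι β (Orb ι) (NK K c) (fun o => {o})
    (fun S T hS hT => ⟨hv.add_mono hS.1 hT, fun o ho => hS.2 o (hT ho)⟩)
    (fun S _ hS => sys_of_valid hS.1) ?_
  · refine ⟨fun v hv => ?_, fun o ho => key.2 o fun S h1 h2 h3 => ho S h1 h2 fun u hu =>
      h3 u hu u rfl⟩
    obtain ⟨v', h1, h2⟩ := key.1 v hv
    exact ⟨v', h1, h2 v' rfl⟩
  intro P g k hP hg hx hC1 hC2 v hv' hPv
  obtain rfl : orb P = v := hPv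
  obtain ⟨b1, b2, b3⟩ := hv'.2 _ rfl
  have step : ∀ E, (E = g • hl β k ∨ E = (g • hl β k)ᶜ) → IsSph (P ∩ E) → cls (P ∩ E) ∉ K →
      ∀ S, NK K c S → orb P ∈ S → (∀ u ∈ S, ∀ Q ∈ u, Nest Q (P ∩ E)) →
        NK K c (insert (orb (P ∩ E)) S) := by
    intro E hE hC hK S hS hPS hn
    have h1 := h.valid_surgery hv hS.1 hPS hg hx hE hC hn
    refine ⟨h1, ?_⟩
    rintro o (rfl | ho)
    · refine ⟨hv.add_mono h1 (by simp), cls_orb_notMem.2 hK, ?_⟩
      rcases h.inB_surgery hv b1 b3 hx hE with e | ⟨X, hX, e1, e2⟩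
      · exact e
      · exact absurd ⟨X, e1, cls_orb_notMem.2 hK X hX, e2⟩ hL
    · exact hS.2 o ho
  have hK : cls (P ∩ g • hl β k) ∉ K ∨ cls (P ∩ (g • hl β k)ᶜ) ∉ K := by
    by_contra e
    push Not at e
    refine b2 P (mem_orb_self P) ?_
    rw [cls_split hP.2.2.1 ((ai_ideal β {k}).smul g)]
    exact add_mem e.1 e.2
  rcases hK with hK | hK
  · exact ⟨_, by simp, fun S _ hS hPS _ hn =>
      step _ (Or.inl rfl) hC1 hK S hS hPS fun u hu Q hQ => (hn u hu u rfl Q hQ).1⟩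
  · exact ⟨_, by simp, fun S _ hS hPS _ hn =>
      step _ (Or.inr rfl) hC2 hK S hS hPS fun u hu Q hQ => (hn u hu u rfl Q hQ).2⟩

theorem good2 (hf : S_flow) (h : Adapted β c) (hv : Valid c) {K : AddSubgroup (ι → ℤ)}
    (hL : ¬ L1 K c) (ho : ∃ o, Adm K c o) :
    ∃ s, Free β c.ρ (s, true) ∧ letter β s ∉ c.A ∧ cls (hl β (s, true)) ∉ K := by
  obtain ⟨o, ho⟩ := ho
  obtain ⟨v, h1, h2⟩ := (flow_NK hf h hv hL).1 o ⟨ho.1, by rintro _ rfl; exact ho⟩
  obtain ⟨b1, b2, b3⟩ := h1.2 _ rfl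
  obtain ⟨P, hP, rfl⟩ := exists_orb b1
  obtain ⟨D, -, h3, h4⟩ := h.inB_ideal hv.sys hP (h2 P (mem_orb_self P)) b3
  by_contra e
  push Not at e
  exact b2 _ h3 (cls_mem_of_valid h hv hL (by rwa [orb_eq_of_mem h3]) h4 e)

theorem exists_dual {C : Set (Fr ι)} {d a : Fr ι} (h : sep C d = {a}) :
    ∃ X ∈ orb C, 1 ∉ X ∧ sep X d = {1} := by
  have h1 : sep (a⁻¹ • C) d = {1} := by rw [sep_smul, h]; simp
  by_cases h2 : 1 ∈ a⁻¹ • C
  · exact ⟨(a⁻¹ • C)ᶜ, compl_mem_orb ⟨_, Or.inl rfl⟩, fun e => e h2, by rw [sep_compl, h1]⟩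
  · exact ⟨a⁻¹ • C, ⟨_, Or.inl rfl⟩, h2, h1⟩

theorem sep_of_mem_orb {P X : Set (Fr ι)} {d a : Fr ι} (hX : X ∈ orb P) (h : sep X d = {a}) :
    ∃ a', sep P d = {a'} := by
  obtain ⟨g, e⟩ := hX
  have h1 : g • sep P d = {a} := by
    rcases e with rfl | rfl
    · rw [← sep_smul, h]
    · rw [← sep_compl, ← sep_smul, h]
  exact ⟨g⁻¹ * a, by rw [← eq_inv_smul_iff] at h1; rw [h1]; simp⟩

theorem not_subset_of_mem_D {X : Set (Fr ι)} {d : Fr ι} (hd : d ∈ c.D) (hX : d ∈ X) :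
    ∀ Z ∈ sides c.ρ, 1 ∉ Z → ¬ X ⊆ Z := fun Z hZ h1 hsub =>
  h1 (((mem_Dg.1 hd) Z hZ 1).2 (by rw [one_mul]; exact hsub hX))

end JNK

open JNK

theorem p_good (hf : S_flow) : S_good := fun _ _ _ _ _ _ hv h =>
  ⟨fun _ => good1 h hv, good2 hf h hv⟩

theorem p_live (hf : S_flow) (ha : S_adapt) : S_live := by
  classical
  intro ι _ _ K c o P B hv hL ho hP hB
  have hv' : Valid (c.addA B) := hv.addA_iff.2 ⟨hB.2.2, fun b hb => (hB.1 b hb).1⟩
  obtain ⟨β, hβ'⟩ := ha ι _ hv'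
  have hβ : Adapted β c := hβ'.mono Set.subset_union_left rfl subset_rfl
  let f : (ι → ℤ) →+ (ι → ℤ) :=
    { toFun := fun φ => φ - ∑ s with letter β s ∈ B,
        (φ ⬝ᵥ abv (letter β s)) • cls (hl β (s, true))
      map_zero' := by simp
      map_add' := fun φ ψ => by
        simp only [add_dotProduct, add_smul, Finset.sum_add_distrib]; abel }
  have f1 : ∀ φ, (∀ b ∈ B, φ ⬝ᵥ abv b = 0) → f φ = φ := fun φ hφ => by
    show φ - _ = φ
    rw [Finset.sum_eq_zero fun s hs => by rw [hφ _ (Finset.mem_filter.1 hs).2, zero_smul],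
      sub_zero]
  have f2 : ∀ s s', cls (hl β (s, true)) ⬝ᵥ abv (letter β s') = if s = s' then 1 else 0 :=
    fun s s' => by rw [cls_dot (isSph_hl β _).2.2.1, pair_hl_letter]
  have f3 : ∀ s, letter β s ∈ B → f (cls (hl β (s, true))) = 0 := fun s hs => by
    show cls (hl β (s, true)) - _ = _
    simp only [f2, ite_smul, one_smul, zero_smul, Finset.sum_ite_eq, Finset.mem_filter,
      Finset.mem_univ, true_and, if_pos hs, sub_self]
  have g1 : ¬ L1 (K.comap f) c := by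
    rintro ⟨X, h1, h2, h3⟩
    refine hL ⟨X, h1, fun e => h2 ?_, h3⟩
    rw [AddSubgroup.mem_comap, f1 _ fun b hb => ?_]
    · exact e
    · rw [cls_dot (hv.sys.isSph h1.1).2.2.1]
      exact pair_of_sep_empty (mem_Dg_sep.1 (hB.1 b hb).1 X h1.1)
  have g2 : Adm (K.comap f) c o := by
    refine ⟨ho.1, fun Q hQ e => ho.2.1 Q hQ ?_, ho.2.2⟩
    rw [AddSubgroup.mem_comap, f1 _ fun b hb => ?_] at e
    · exact e
    · have h1 : cls P ⬝ᵥ abv b = 0 := (hB.1 b hb).2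
      rw [ho.1.sys.eq_orb (Or.inr rfl) hP] at hQ
      rcases cls_of_mem_orb hQ with e' | e'
      · rw [e', h1]
      · rw [e', neg_dotProduct, h1, neg_zero]
  obtain ⟨s, h1, h2, h3⟩ := good2 hf hβ hv g1 ⟨o, g2⟩
  have h4 : letter β s ∉ B := fun e => h3 (by
    rw [AddSubgroup.mem_comap, f3 s e]; exact zero_mem _)
  refine ⟨_, good1 hβ' hv' h1 (fun e => e.elim h2 h4) fun e => h3 ?_⟩
  rw [AddSubgroup.mem_comap, f1 _ fun b hb => ?_]
  · exact e
  · obtain ⟨s', rfl⟩ := hβ'.letters (Or.inr hb)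
    rw [f2, if_neg]
    rintro rfl
    exact h4 hb

theorem p_NK (hf : S_flow) (ha : S_adapt) : S_NK := by
  intro ι _ _ K c hv hL ho
  obtain ⟨β, h⟩ := ha ι c hv
  obtain ⟨s, h1, h2, h3⟩ := good2 hf h hv hL ho
  refine (flow_NK hf h hv hL).2 (orb (hl β (s, true))) fun S _ hS hc =>
    ⟨h.valid_insert_hl hv hS.1 hc h2, ?_⟩
  rintro o (rfl | ho)
  · exact good1 h hv h1 h2 h3
  · exact hS.2 o ho

theorem p_Dc (hf : S_flow) (ha : S_adapt) : S_Dc := by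
  intro ι _ _ K c d hv hd hL ho
  obtain ⟨β, h⟩ := ha ι c hv
  have h' : Adapted β (c.del d) := h.mono Set.sdiff_subset rfl subset_rfl
  have hv' : Valid (c.del d) :=
    hv.mono Set.sdiff_subset subset_rfl subset_rfl fun t ht => (hv.adj t ht).1
  obtain ⟨s0, rfl⟩ := h.letters hd
  have hdD : letter β s0 ∈ c.D := hv.dg _ hd
  have key := hf ι β (Orb ι) (Dc K c (letter β s0)) (fun o => {o})
    (fun S T hS hT => ⟨hv'.add_mono hS.1 hT, fun o ho => hS.2 o (hT ho)⟩)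
    (fun S _ hS => sys_of_valid hS.1) ?_
  · have hK : cls (hl β (s0, true)) ∉ K := by
      intro hK
      obtain ⟨o, ho⟩ := ho
      obtain ⟨v, h1, h2⟩ := key.1 o ho
      obtain ⟨b1, X, hX, -, b2⟩ := h1.2 _ rfl
      obtain ⟨P, hP, rfl⟩ := exists_orb h1.1
      obtain ⟨D, -, h3⟩ := (h2 _ rfl P (mem_orb_self P)).exists_ideal β hP.1 hP.2.1
      obtain ⟨a, h4⟩ := sep_of_mem_orb (orb_eq_of_mem h3 ▸ hX) b2
      have h5 : ∀ Z ∈ sides c.ρ, 1 ∉ Z → ¬ ideal β D ⊆ Z := by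
        rcases (mem_sep_ideal_letter β).1 (h4.symm.subset rfl) with ⟨-, e⟩ | ⟨-, e⟩
        · exact not_subset_of_mem_D hdD (sl_true β s0 ▸ (sl_mem_ideal β).2 e)
        · exact not_subset_of_mem_D (inv_mem hdD) (sl_false β s0 ▸ (sl_mem_ideal β).2 e)
      refine b1 _ h3 (cls_mem_of_valid h' hv' (fun e => hL (Or.inl e))
        (by rw [orb_eq_of_mem h3]; exact h1.1) h5 fun s e1 e2 => ?_)
      by_cases e3 : letter β s = letter β s0
      · rw [letter_injective β e3]; exact hK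
      · exact by_contra fun e4 => hL (Or.inr ⟨_, good1 h hv e1 (fun e5 => e2 ⟨e5, e3⟩) e4⟩)
    refine key.2 (orb (hl β (s0, true))) fun S _ hS hc =>
      ⟨h'.valid_insert_hl hv' hS.1 (fun o ho => hc o ho o rfl) fun e => e.2 rfl, ?_⟩
    rintro o (rfl | ho)
    · exact ⟨cls_orb_notMem.2 hK, _, mem_orb_self _, one_notMem_hl β _,
        sl_true β s0 ▸ sep_hl_self β (s0, true)⟩
    · exact hS.2 o ho
  intro P g k hP hg hx hC1 hC2 v hv1 hPv
  obtain rfl : orb P = v := hPv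
  obtain ⟨b1, X, hX, b2, b3⟩ := hv1.2 _ rfl
  obtain ⟨a, ha⟩ := sep_of_mem_orb hX b3
  have hb : InB c.ρ (orb P) := by
    refine ⟨X, hX, b2, not_subset_of_mem_D hdD ?_⟩
    have h1 : (1 : Fr ι) ∈ sep X (letter β s0) := b3.symm.subset rfl
    simp only [sep, Set.mem_ofPred_eq, one_mul] at h1
    tauto
  have step : ∀ E E', (E = g • hl β k ∨ E = (g • hl β k)ᶜ) →
      (E' = g • hl β k ∨ E' = (g • hl β k)ᶜ) → IsSph (P ∩ E) → IsSph (P ∩ E') →
      cls P = cls (P ∩ E) + cls (P ∩ E') → sep (P ∩ E) (letter β s0) = {a} →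
      sep (P ∩ E') (letter β s0) = ∅ → ∀ S, Dc K c (letter β s0) S → orb P ∈ S →
      (∀ u ∈ S, ∀ Q ∈ u, Nest Q (P ∩ E)) → (∀ u ∈ S, ∀ Q ∈ u, Nest Q (P ∩ E')) →
        Dc K c (letter β s0) (insert (orb (P ∩ E)) S) := by
    intro E E' hE hE' hC hC' hs e1 e2 S hS hPS hn hn'
    refine ⟨h'.valid_surgery hv' hS.1 hPS hg hx hE hC hn, ?_⟩
    rintro o (rfl | ho)
    swap
    · exact hS.2 o ho
    refine ⟨cls_orb_notMem.2 fun hK => b1 P (mem_orb_self P) ?_, exists_dual e1⟩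
    rw [hs]
    refine add_mem hK (by_contra fun hK' => hL ?_)
    rcases h'.inB_surgery hv' hv1.1 hb hx hE' with e | ⟨Y, hY, e3, e4⟩
    · refine Or.inr ⟨_, ?_, cls_orb_notMem.2 hK', e⟩
      obtain ⟨a1, a2, a3⟩ := hv'.add_iff.1 (hv'.add_mono
        (h'.valid_surgery hv' hS.1 hPS hg hx hE' hC' hn') (S' := {orb (P ∩ E')}) (by simp))
      refine hv.add_iff.2 ⟨a1, fun x hx => ?_, a3⟩
      by_cases e5 : x = letter β s0
      · rw [e5, sides_singleton, mem_Dg_orb]; exact e2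
      · exact a2 x ⟨hx, e5⟩
    · exact Or.inl ⟨Y, e3, cls_orb_notMem.2 hK' Y hY, e4⟩
  have hs := cls_split hP.2.2.1 ((ai_ideal β {k}).smul g)
  have hd' := sep_corner_dual (β := β) (k := k) (k' := (s0, true)) hg (sl_true β s0 ▸ ha)
  rw [sl_true] at hd'
  rcases hd' with ⟨e1, e2⟩ | ⟨e1, e2⟩
  · exact ⟨_, by simp, fun S _ hS hPS _ hn =>
      step _ _ (Or.inl rfl) (Or.inr rfl) hC1 hC2 hs e1 e2 S hS hPS
        (fun u hu Q hQ => (hn u hu u rfl Q hQ).1) fun u hu Q hQ => (hn u hu u rfl Q hQ).2⟩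
  · exact ⟨_, by simp, fun S _ hS hPS _ hn =>
      step _ _ (Or.inr rfl) (Or.inl rfl) hC2 hC1 (hs.trans (add_comm _ _)) e2 e1 S hS hPS
        (fun u hu Q hQ => (hn u hu u rfl Q hQ).2) fun u hu Q hQ => (hn u hu u rfl Q hQ).1⟩

end Pool.Agent.Lib.MP_49df17_al
end
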