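import Pool.Agent.Lib.MP_49df17_al.Core

-- part Pool.Agent.Lib.MP_49df17_al.H2
section

/-!
Cycles are sums of cycles subordinate to one helper vertex: a zigzag in a double complex.
-/

namespace Pool.Agent.Lib.MP_49df17_al

open Finsupp

namespace JH2

variable {V W : Type} {M N : Type} [AddCommGroup M] [Module ℚ M] [AddCommGroup N] [Module ℚ N]

/-- Change of coefficients. -/
noncomputable abbrev mr (f : M →ₗ[ℚ] N) : (List V →₀ M) →ₗ[ℚ] (List V →₀ N) :=
  Finsupp.mapRange.linearMap f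

theorem mr_apply (f : M →ₗ[ℚ] N) (c : List V →₀ M) (l : List V) : mr f c l = f (c l) := by
  simp [mr]

theorem mr_single (f : M →ₗ[ℚ] N) (l : List V) (m : M) :
    mr f (single l m) = single l (f m) := by
  simp [mr]

theorem bd_mr (f : M →ₗ[ℚ] N) (c : List V →₀ M) : bd (mr f c) = mr f (bd c) := by
  induction c using Finsupp.induction_linear with
  | zero => simp
  | add a b ha hb => simp only [map_add, ha, hb]
  | single l m =>
    rw [mr_single, bd_single, bd_single, map_sum]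
    refine Finset.sum_congr rfl fun i _ => ?_
    rw [map_smul, mr_single]

theorem mem_ChC {𝒜 : Set V → Submodule ℚ M} {X : Cx V} {n : ℕ} {c : List V →₀ M} :
    c ∈ ChC 𝒜 X n ↔ ∀ l, c l ∈ 𝒜 (vs l) ∧ (c l ≠ 0 → l.length = n ∧ X (vs l)) := Iff.rfl

theorem single_mem_ChC {𝒜 : Set V → Submodule ℚ M} {X : Cx V} {n : ℕ} {l : List V} {m : M}
    (hm : m ∈ 𝒜 (vs l)) (h1 : l.length = n) (h2 : X (vs l)) : single l m ∈ ChC 𝒜 X n := by
  classical
  intro l'
  by_cases h : l = l'
  · subst h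
    exact ⟨by simpa using hm, fun _ => ⟨h1, h2⟩⟩
  · have : (single l m : List V →₀ M) l' = 0 := by simp [h]
    rw [this]
    exact ⟨Submodule.zero_mem _, fun h => absurd rfl h⟩

theorem ChC_induction {𝒜 : Set V → Submodule ℚ M} {X : Cx V} {n : ℕ} {T : Type}
    [AddCommGroup T] [Module ℚ T] (f : (List V →₀ M) →ₗ[ℚ] T) (U : Submodule ℚ T)
    {c : List V →₀ M} (hc : c ∈ ChC 𝒜 X n)
    (h : ∀ l : List V, c l ≠ 0 → l.length = n → X (vs l) → c l ∈ 𝒜 (vs l) →
      f (single l (c l)) ∈ U) : f c ∈ U := by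
  have e : c = ∑ l ∈ c.support, single l (c l) := (Finsupp.sum_single c).symm
  rw [e, map_sum]
  refine Submodule.sum_mem _ fun l hl => ?_
  have h0 := Finsupp.mem_support_iff.1 hl
  exact h l h0 ((hc l).2 h0).1 ((hc l).2 h0).2 (hc l).1

theorem bd_mem_ChC {𝒜 : Set V → Submodule ℚ M} (hA : ∀ S S', S ⊆ S' → 𝒜 S' ≤ 𝒜 S) {X : Cx V}
    (hX : Down X) {n : ℕ} {c : List V →₀ M} (hc : c ∈ ChC 𝒜 X (n + 1)) : bd c ∈ ChC 𝒜 X n := by
  refine ChC_induction bd _ hc fun l _ h1 h2 h3 => ?_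
  rw [bd_single]
  refine Submodule.sum_mem _ fun i hi => Submodule.smul_mem _ _ (single_mem_ChC ?_ ?_ ?_)
  · exact hA _ _ (vs_eraseIdx l i) h3
  · rw [List.length_eraseIdx_of_lt (Finset.mem_range.1 hi)]; omega
  · exact hX _ _ h2 (vs_eraseIdx l i)

theorem bd_eq_zero_of_mem_ChC {𝒜 : Set V → Submodule ℚ M} {X : Cx V} {c : List V →₀ M}
    (hc : c ∈ ChC 𝒜 X 0) : bd c = 0 := by
  refine (Submodule.mem_bot ℚ).1 (ChC_induction bd ⊥ hc fun l _ h1 _ _ => ?_)
  rw [List.length_eq_zero_iff.1 h1]; simp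

theorem ChC_mono {𝒜 ℬ : Set V → Submodule ℚ M} {X Y : Cx V} {n : ℕ}
    (h1 : ∀ l : List V, 𝒜 (vs l) ≤ ℬ (vs l)) (h2 : ∀ l : List V, X (vs l) → Y (vs l)) :
    ChC 𝒜 X n ≤ ChC ℬ Y n := fun _ hc l =>
  ⟨h1 l (hc l).1, fun h => ⟨((hc l).2 h).1, h2 l ((hc l).2 h).2⟩⟩

theorem ChC_top (X : Cx V) (n : ℕ) : ChC (fun _ => (⊤ : Submodule ℚ ℚ)) X n = Ch X n := by
  ext c
  rw [mem_ChC, mem_Ch]
  simp

theorem eq_sum_mr {ι : Type} (S : Finset ι) (φ : ι → M →ₗ[ℚ] N) (ψ : ι → N →ₗ[ℚ] M)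
    (c : List V →₀ M) (h : ∀ l, c l ≠ 0 → c l = ∑ i ∈ S, ψ i (φ i (c l))) :
    c = ∑ i ∈ S, mr (ψ i) (mr (φ i) c) := by
  ext l
  rw [Finsupp.finsetSum_apply]
  simp only [mr_apply]
  by_cases h0 : c l = 0
  · simp [h0]
  · exact h l h0

/-- Exactness passes to constant coefficients. -/
theorem exactC_const {X : Cx V} {n : ℕ} (h : ExactAt X n) (U : Submodule ℚ M) :
    ExactC (fun _ => U) X n := by
  classical
  intro c hc h0
  obtain ⟨g, hg⟩ := LinearMap.exists_leftInverse_of_injective U.subtype U.ker_subtype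
  have hg' : ∀ u : U, g u = u := fun u => LinearMap.congr_fun hg u
  let e := Module.Basis.ofVectorSpace ℚ U
  let φ : _ → M →ₗ[ℚ] ℚ := fun i => (e.coord i).comp g
  let ψ : _ → ℚ →ₗ[ℚ] M := fun i => LinearMap.toSpanSingleton ℚ M (e i : M)
  let S := c.support.biUnion fun l => (e.repr (g (c l))).support
  have hdec : c = ∑ i ∈ S, mr (ψ i) (mr (φ i) c) := by
    refine eq_sum_mr S φ ψ c fun l hl => ?_
    have h1 : g (c l) = ⟨c l, (hc l).1⟩ := hg' ⟨c l, (hc l).1⟩
    have h2 : g (c l) = ∑ i ∈ S, (e.repr (g (c l)) i) • e i := by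
      conv_lhs => rw [← e.linearCombination_repr (g (c l)), Finsupp.linearCombination_apply]
      refine Finsupp.sum_of_support_subset _ ?_ _ (by simp)
      intro i hi
      exact Finset.mem_biUnion.2 ⟨l, Finsupp.mem_support_iff.2 hl, hi⟩
    have h3 := congrArg U.subtype h2
    rw [map_sum] at h3
    have h4 : U.subtype (g (c l)) = c l := by rw [h1]; rfl
    rw [h4] at h3
    refine h3.trans (Finset.sum_congr rfl fun i _ => ?_)
    simp [φ, ψ]
  have hb : ∀ i, ∃ b ∈ Ch X (n + 1), bd b = mr (φ i) c := fun i => by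
    refine h ⟨fun l hl => (hc l).2 fun h1 => ?_, ?_⟩
    · have := Finsupp.mem_support_iff.1 hl
      rw [mr_apply, h1, map_zero] at this
      exact this rfl
    · rw [SetLike.mem_coe, LinearMap.mem_ker, bd_mr, h0, map_zero]
  choose b hb1 hb2 using hb
  refine ⟨∑ i ∈ S, mr (ψ i) (b i), Submodule.sum_mem _ fun i _ l => ⟨?_, fun h1 => ?_⟩, ?_⟩
  · rw [mr_apply]
    exact Submodule.smul_mem _ _ (e i).2
  · refine hb1 i (Finsupp.mem_support_iff.2 fun h2 => h1 ?_)
    rw [mr_apply, h2, map_zero]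
  · rw [map_sum]
    conv_rhs => rw [hdec]
    refine Finset.sum_congr rfl fun i _ => ?_
    rw [bd_mr, hb2]

/-- The double complex of a relation. -/
noncomputable def dc (𝒜 : Set V → Submodule ℚ M) (hA : ∀ S S', S ⊆ S' → 𝒜 S' ≤ 𝒜 S)
    (R : Set V → Set W → Prop) (hR : Down2 R) : DC (List W →₀ (List V →₀ M)) where
  D p s := ChC (fun τ => ChC 𝒜 (fun σ => R σ τ) p) (fun _ => True) s
  dv := mr bd
  dh := bd
  dv_mem p s x hx l := by
    rw [mr_apply]
    refine ⟨bd_mem_ChC hA (fun S T h hT => hR _ _ _ _ h hT subset_rfl) (hx l).1,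
      fun h => (hx l).2 fun h1 => h ?_⟩
    rw [h1, map_zero]
  dv_zero s x hx := by
    ext1 l
    rw [mr_apply]
    exact bd_eq_zero_of_mem_ChC (hx l).1
  dh_mem p s x hx :=
    bd_mem_ChC (𝒜 := fun τ => ChC 𝒜 (fun σ => R σ τ) p)
      (fun S S' h => ChC_mono (fun _ => le_rfl) fun _ h1 => hR _ _ S' S h1 subset_rfl h)
      (fun _ _ _ _ => trivial) hx
  dh_zero p x hx := bd_eq_zero_of_mem_ChC hx
  dh_dh := bd_bd
  dv_dv x := by
    ext1 l
    rw [mr_apply, mr_apply, bd_bd]; rfl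
  comm x := (bd_mr _ x).symm

theorem row_exact {𝒜 : Set V → Submodule ℚ M} {R : Set V → Set W → Prop} (hR : Down2 R)
    {p s : ℕ} (hex : ∀ l : List V, l.length = p → R (vs l) ∅ → ExactAt (R (vs l)) s)
    {x : List W →₀ (List V →₀ M)}
    (hx : x ∈ ChC (fun τ => ChC 𝒜 (fun σ => R σ τ) p) (fun _ => True) s) (h0 : bd x = 0) :
    ∃ y ∈ ChC (fun τ => ChC 𝒜 (fun σ => R σ τ) p) (fun _ => True) (s + 1), bd y = x := by
  classical
  let φ : List V → (List V →₀ M) →ₗ[ℚ] M := fun l => Finsupp.lapply l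
  let ψ : List V → M →ₗ[ℚ] (List V →₀ M) := fun l => Finsupp.lsingle l
  let S := x.support.biUnion fun l' => (x l').support
  have hdec : x = ∑ l ∈ S, mr (ψ l) (mr (φ l) x) := by
    refine eq_sum_mr S φ ψ x fun l' hl' => ?_
    conv_lhs => rw [← Finsupp.sum_single (x l')]
    refine Finsupp.sum_of_support_subset _ ?_ _ (by simp)
    intro l hl
    exact Finset.mem_biUnion.2 ⟨l', Finsupp.mem_support_iff.2 hl', hl⟩
  have hS : ∀ l ∈ S, l.length = p ∧ R (vs l) ∅ := fun l hl => by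
    obtain ⟨l', -, h1⟩ := Finset.mem_biUnion.1 hl
    have h2 := ((hx l').1 l).2 (Finsupp.mem_support_iff.1 h1)
    exact ⟨h2.1, hR _ _ _ _ h2.2 subset_rfl (Set.empty_subset _)⟩
  have hb : ∀ l, l ∈ S → ∃ b ∈ ChC (fun _ => 𝒜 (vs l)) (R (vs l)) (s + 1),
      bd b = mr (φ l) x := fun l hl => by
    refine exactC_const (hex l (hS l hl).1 (hS l hl).2) _ _ (fun l' => ?_) ?_
    · rw [mr_apply]
      refine ⟨((hx l').1 l).1, fun h1 => ⟨((hx l').2 fun h2 => h1 ?_).1, (((hx l').1 l).2 h1).2⟩⟩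
      rw [h2, map_zero]
    · rw [bd_mr, h0, map_zero]
  choose! b hb1 hb2 using hb
  refine ⟨∑ l ∈ S, mr (ψ l) (b l), Submodule.sum_mem _ fun l hl l' => ?_, ?_⟩
  · rw [mr_apply]
    by_cases h1 : b l l' = 0
    · rw [h1, map_zero]
      exact ⟨Submodule.zero_mem _, fun h => absurd rfl h⟩
    · have h2 := (hb1 l hl l').2 h1
      exact ⟨single_mem_ChC (hb1 l hl l').1 (hS l hl).1 h2.2, fun _ => ⟨h2.1, trivial⟩⟩
  · rw [map_sum]
    conv_rhs => rw [hdec]
    refine Finset.sum_congr rfl fun l hl => ?_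
    rw [bd_mr, hb2 l hl]

theorem col_exact {𝒜 : Set V → Submodule ℚ M} {R : Set V → Set W → Prop} (hR : Down2 R)
    {p s : ℕ} (hex : ∀ l' : List W, l'.length = s → R ∅ (vs l') →
      ExactC 𝒜 (fun σ => R σ (vs l')) p)
    {x : List W →₀ (List V →₀ M)}
    (hx : x ∈ ChC (fun τ => ChC 𝒜 (fun σ => R σ τ) p) (fun _ => True) s) (h0 : mr bd x = 0) :
    ∃ y ∈ ChC (fun τ => ChC 𝒜 (fun σ => R σ τ) (p + 1)) (fun _ => True) s, mr bd y = x := by
  classical
  have hb : ∀ l', l' ∈ x.support → ∃ b ∈ ChC 𝒜 (fun σ => R σ (vs l')) (p + 1),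
      bd b = x l' := fun l' hl' => by
    have h1 := Finsupp.mem_support_iff.1 hl'
    obtain ⟨l, hl⟩ := Finsupp.ne_iff.1 h1
    have h2 := ((hx l').1 l).2 hl
    refine hex l' ((hx l').2 h1).1 (hR _ _ _ _ h2.2 (Set.empty_subset _) subset_rfl) _ (hx l').1 ?_
    rw [← mr_apply, h0]; rfl
  choose! b hb1 hb2 using hb
  refine ⟨∑ l' ∈ x.support, single l' (b l'), Submodule.sum_mem _ fun l' hl' =>
    single_mem_ChC (hb1 l' hl') ((hx l').2 (Finsupp.mem_support_iff.1 hl')).1 trivial, ?_⟩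
  rw [map_sum]
  conv_rhs => rw [← Finsupp.sum_single x]
  refine Finset.sum_congr rfl fun l' hl' => ?_
  rw [mr_single, hb2 l' hl']

end JH2

open JH2 in
theorem p_genC : S_genC := by
  intro V W M _ _ 𝒜 R' R j hA hR' hR hle hrow hcol z hz h0
  have hz0 : (single [] z : List W →₀ (List V →₀ M)) ∈ (dc 𝒜 hA R' hR').D j 0 :=
    single_mem_ChC (𝒜 := fun τ => ChC 𝒜 (fun σ => R' σ τ) j) (X := fun _ => True) (n := 0)
      (by simpa using hz) rfl trivial
  have hv0 : (dc 𝒜 hA R' hR').dv (single [] z) = 0 := by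
    change mr bd _ = 0
    rw [mr_single, h0, Finsupp.single_zero]
  obtain ⟨c, h1, h2, h3⟩ := (dc 𝒜 hA R' hR').exists_zig le_rfl hz0 hv0 fun i hi x hx hx0 =>
    row_exact hR' (fun l hl hl' => hrow _ (vs_finite l)
      ((vs_ncard_le l).trans (by omega)) hl' i hi) hx hx0
  have hc : (dc 𝒜 hA R hR).Zig j (single [] z) c j :=
    ⟨fun i hi => ChC_mono (𝒜 := fun τ => ChC 𝒜 (fun σ => R' σ τ) (j - i))
      (ℬ := fun τ => ChC 𝒜 (fun σ => R σ τ) (j - i)) (fun l' => ChC_mono (fun _ => le_rfl)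
      fun l => hle (vs l) (vs l') (vs_finite l) (vs_finite l')) (fun _ h => h) (h1 i hi), h2, h3⟩
  have hlast : (dc 𝒜 hA R hR).dv (c j) = 0 := by
    have := hc.1 j le_rfl
    rw [Nat.sub_self] at this
    exact (dc 𝒜 hA R hR).dv_zero _ _ this
  obtain ⟨o, ho, y, hy, hy0, ey⟩ := (dc 𝒜 hA R hR).shorten ⊥
    (fun o ho p s x hx => by rw [Submonoid.mem_bot.1 ho]; exact hx)
    (fun o ho x => by rw [Submonoid.mem_bot.1 ho]; rfl)
    (fun o ho x => by rw [Submonoid.mem_bot.1 ho]; rfl) le_rfl hc hlast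
    (fun i hi1 hi2 x hx hx0 _ => by
      obtain ⟨b', hb', e⟩ := col_exact hR (p := j - i) (s := i + 1) (fun l' hl' hl'' => by
        refine hcol _ (vs_finite l') ?_ ((vs_ncard_le l').trans (by omega)) hl'' _ (by omega)
        obtain ⟨w, t, rfl⟩ := List.exists_cons_of_length_eq_add_one hl'
        exact ⟨w, by simp⟩) hx hx0
      refine ⟨1, Submonoid.one_mem _, 0, Submodule.zero_mem _, b', hb', map_zero _, ?_⟩
      rw [map_zero, zero_add]
      exact e.symm)
  rw [Submonoid.mem_bot.1 ho] at ey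
  have ez : ((Finsupp.lapply ([] : List W)).comp bd) y = z := by
    have e1 : bd y = single [] z := ey
    rw [LinearMap.comp_apply, e1]; simp
  rw [← ez]
  refine ChC_induction _ _ hy fun l' _ hl' _ hm => ?_
  obtain ⟨w, rfl⟩ := List.length_eq_one_iff.1 hl'
  have e2 : ((Finsupp.lapply ([] : List W)).comp bd) (single [w] (y [w])) = y [w] := by
    simp [bd_single]
  rw [e2]
  refine Submodule.mem_iSup_of_mem w ⟨by simpa using hm, ?_⟩
  have e3 : mr bd y = 0 := hy0
  rw [SetLike.mem_coe, LinearMap.mem_ker, ← mr_apply, e3]; rfl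

open JH2 in
theorem p_gen : S_gen := by
  intro V W R' R j hR' hR hle hrow hcol z hz
  have := p_genC V W ℚ (fun _ => ⊤) R' R j (fun _ _ _ => le_rfl) hR' hR hle hrow
    (fun τ h1 h2 h3 h4 n hn => exactC_const (hcol τ h1 h2 h3 h4 n hn) ⊤) z
    (by rw [ChC_top]; exact hz.1) hz.2
  simpa only [ChC_top, Zc] using this

end Pool.Agent.Lib.MP_49df17_al
end

-- part Pool.Agent.Lib.MP_49df17_al.Model
section

/-!
The irreducible rational representation of a dominant weight, realised inside the polynomial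
functions on matrices.
-/

namespace Pool.Agent.Lib.MP_49df17_al

open Matrix MvPolynomial

namespace JModel

variable {n : ℕ}

/-- Polynomial functions on matrices. -/
abbrev P (n : ℕ) : Type := MvPolynomial (Fin n × Fin n) ℚ

/-- Rational square matrices. -/
abbrev Mat (n : ℕ) : Type := Matrix (Fin n) (Fin n) ℚ

/-- The entries of `x * A` for the generic matrix `x`. -/
noncomputable def L (A : Mat n) (p : Fin n × Fin n) : P n := ∑ k, A k p.2 • X (p.1, k)

theorem map_L (φ : P n →ₗ[ℚ] P n) (g : Mat n) (h : ∀ q, φ (X q) = L g q) (A : Mat n)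
    (p : Fin n × Fin n) : φ (L A p) = L (g * A) p := by
  simp only [L, map_sum, map_smul, h, Finset.smul_sum, smul_smul, Matrix.mul_apply,
    Finset.sum_smul]
  rw [Finset.sum_comm]
  simp only [mul_comm]

theorem L_one (p : Fin n × Fin n) : L 1 p = X p := by
  simp [L, Matrix.one_apply, ite_smul]

theorem L_add (A B : Mat n) (p : Fin n × Fin n) : L (A + B) p = L A p + L B p := by
  simp [L, add_smul, Finset.sum_add_distrib]

theorem L_sub (A B : Mat n) (p : Fin n × Fin n) : L (A - B) p = L A p - L B p := by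
  simp [L, sub_smul, Finset.sum_sub_distrib]

theorem L_smul (t : ℚ) (A : Mat n) (p : Fin n × Fin n) : L (t • A) p = t • L A p := by
  simp [L, Finset.smul_sum, smul_smul]

theorem L_zero (p : Fin n × Fin n) : L (0 : Mat n) p = 0 := by simp [L]

/-- Right translation `f ↦ (x ↦ f (x * g))`. -/
noncomputable def R (g : Mat n) : P n →ₐ[ℚ] P n := aeval (L g)

theorem R_X (g : Mat n) (p : Fin n × Fin n) : R g (X p) = L g p := aeval_X _ _

theorem R_L (g A : Mat n) (p : Fin n × Fin n) : R g (L A p) = L (g * A) p :=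
  map_L (R g).toLinearMap g (R_X g) A p

theorem R_one (f : P n) : R 1 f = f := by
  have : R (1 : Mat n) = AlgHom.id ℚ (P n) := MvPolynomial.algHom_ext fun p => by
    rw [R_X, L_one]; rfl
  rw [this]; rfl

theorem R_mul (g h : Mat n) (f : P n) : R (g * h) f = R g (R h f) := by
  have : R (g * h) = (R g).comp (R h) := MvPolynomial.algHom_ext fun p => by
    rw [AlgHom.comp_apply, R_X, R_X, R_L]
  rw [this]; rfl

/-- The infinitesimal right translation. -/
noncomputable def Dr (A : Mat n) : Derivation ℚ (P n) (P n) := mkDerivation ℚ (L A)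

/-- The infinitesimal right translation as a linear operator. -/
noncomputable def D (A : Mat n) : Module.End ℚ (P n) := (Dr A).toLinearMap

theorem D_X (A : Mat n) (p : Fin n × Fin n) : D A (X p) = L A p := mkDerivation_X _ _ _

theorem D_C (A : Mat n) (a : ℚ) : D A (C a) = 0 := derivation_C (Dr A) a

theorem D_mul (A : Mat n) (f g : P n) : D A (f * g) = f * D A g + D A f * g := by
  have := (Dr A).leibniz f g
  rw [smul_eq_mul, smul_eq_mul, mul_comm g] at this
  exact this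

theorem D_L (A B : Mat n) (p : Fin n × Fin n) : D A (L B p) = L (A * B) p :=
  map_L (D A) A (D_X A) B p

theorem D_smul (t : ℚ) (A : Mat n) (f : P n) : D (t • A) f = t • D A f := by
  induction f using MvPolynomial.induction_on with
  | C a => simp [D_C]
  | add p q hp hq => rw [map_add, map_add, hp, hq, smul_add]
  | mul_X p q hp => rw [D_mul, D_mul, hp, D_X, D_X, L_smul, smul_add, mul_smul_comm, smul_mul_assoc]

theorem D_sub (A B : Mat n) (f : P n) : D (A - B) f = D A f - D B f := by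
  induction f using MvPolynomial.induction_on with
  | C a => simp [D_C]
  | add p q hp hq => rw [map_add, map_add, map_add, hp, hq]; ring
  | mul_X p q hp => rw [D_mul, D_mul, D_mul, hp, D_X, D_X, D_X, L_sub]; ring

theorem D_comm (A B : Mat n) (f : P n) : D A (D B f) - D B (D A f) = D (A * B - B * A) f := by
  induction f using MvPolynomial.induction_on with
  | C a => simp [D_C]
  | add p q hp hq => simp only [map_add, ← hp, ← hq]; ring
  | mul_X p q hp => simp only [D_mul, map_add, D_X, D_L, L_sub, ← hp]; ring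

theorem R_D {g A B : Mat n} (h : g * A = B * g) (f : P n) : R g (D A f) = D B (R g f) := by
  induction f using MvPolynomial.induction_on with
  | C a => rw [D_C, map_zero, show R g (C a) = C a from (R g).commutes a, D_C]
  | add p q hp hq => simp only [map_add, hp, hq]
  | mul_X p q hp => simp only [D_mul, map_add, map_mul, D_X, R_X, R_L, D_L, hp, h]

/-- The translate by `1 + t A` as a polynomial in `t`. -/
noncomputable def Φ (A : Mat n) : P n →ₐ[ℚ] Polynomial (P n) :=
  aeval fun p => Polynomial.C (X p) + Polynomial.C (L A p) * Polynomial.X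

theorem Φ_X (A : Mat n) (p : Fin n × Fin n) :
    Φ A (X p) = Polynomial.C (X p) + Polynomial.C (L A p) * Polynomial.X := aeval_X _ _

theorem Φ_C (A : Mat n) (a : ℚ) : Φ A (C a) = Polynomial.C (C a) := (Φ A).commutes a

theorem Φ_eval (A : Mat n) (t : ℚ) (f : P n) : (Φ A f).eval (C t) = R (1 + t • A) f := by
  induction f using MvPolynomial.induction_on with
  | C a => rw [Φ_C, Polynomial.eval_C]; exact ((R _).commutes a).symm
  | add p q hp hq => simp only [map_add, Polynomial.eval_add, hp, hq]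
  | mul_X p q hp =>
    simp only [map_mul, Polynomial.eval_mul, hp, Φ_X, R_X, L_add, L_one, L_smul,
      Polynomial.eval_add, Polynomial.eval_C, Polynomial.eval_X, smul_eq_C_mul, mul_comm]

theorem Φ_coeff_zero (A : Mat n) (f : P n) : (Φ A f).coeff 0 = f := by
  have := Φ_eval A 0 f
  rwa [zero_smul, add_zero, R_one, map_zero, ← Polynomial.coeff_zero_eq_eval_zero] at this

theorem Φ_coeff_one (A : Mat n) (f : P n) : (Φ A f).coeff 1 = D A f := by
  induction f using MvPolynomial.induction_on with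
  | C a => rw [Φ_C, D_C, Polynomial.coeff_C_of_ne_zero one_ne_zero]
  | add p q hp hq => simp only [map_add, Polynomial.coeff_add, hp, hq]
  | mul_X p q hp =>
    rw [map_mul, Φ_X, mul_add, ← mul_assoc, Polynomial.coeff_add, Polynomial.coeff_mul_C,
      Polynomial.coeff_mul_X, Polynomial.coeff_mul_C, hp, Φ_coeff_zero, D_mul, D_X, add_comm]

theorem Φ_L {A : Mat n} (h : A * A = 0) (p : Fin n × Fin n) :
    Φ A (L A p) = Polynomial.C (L A p) := by
  have e1 : L A p = ∑ k, C (A k p.2) * X (p.1, k) := by simp only [L, smul_eq_C_mul]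
  have e2 : ∑ k, C (A k p.2) * L A (p.1, k) = 0 := by
    have := D_L A A p
    rw [h, L_zero, L, map_sum] at this
    simp only [map_smul, D_X] at this
    simpa only [smul_eq_C_mul] using this
  have e3 : ∑ k, Polynomial.C (C (A k p.2)) * (Polynomial.C (L A (p.1, k)) * Polynomial.X) =
      Polynomial.C (∑ k, C (A k p.2) * L A (p.1, k)) * Polynomial.X := by
    simp only [map_sum, map_mul, Finset.sum_mul, mul_assoc]
  rw [e1]
  simp only [map_sum, map_mul, Φ_C, Φ_X, mul_add, Finset.sum_add_distrib, e3, e2, map_zero,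
    zero_mul, add_zero]

theorem Φ_deriv {A : Mat n} (h : A * A = 0) (f : P n) :
    Polynomial.derivative (Φ A f) = Φ A (D A f) := by
  induction f using MvPolynomial.induction_on with
  | C a => rw [Φ_C, D_C, Polynomial.derivative_C, map_zero]
  | add p q hp hq => simp only [map_add, hp, hq]
  | mul_X p q hp =>
    rw [D_mul, map_add, map_mul (Φ A), map_mul (Φ A), map_mul (Φ A), Polynomial.derivative_mul,
      hp, D_X, Φ_L h, add_comm, Φ_X]
    simp

theorem D_pow {A : Mat n} (h : A * A = 0) (k : ℕ) (f : P n) :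
    (D A ^ k) f = (k.factorial : ℚ) • (Φ A f).coeff k := by
  have h1 : ∀ f, Polynomial.derivative^[k] (Φ A f) = Φ A ((D A ^ k) f) := by
    induction k with
    | zero => simp
    | succ k ih =>
      intro f
      rw [Function.iterate_succ_apply, Φ_deriv h, ih, pow_succ, Module.End.mul_apply]
  rw [← Φ_coeff_zero A ((D A ^ k) f), ← h1, Polynomial.coeff_iterate_derivative, zero_add,
    Nat.descFactorial_self, Nat.cast_smul_eq_nsmul]

theorem R_exp {A : Mat n} (h : A * A = 0) (f : P n) : ∃ m : ℕ, (D A ^ m) f = 0 ∧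
    R (1 + A) f = ∑ k ∈ Finset.range m, ((k.factorial : ℚ)⁻¹) • (D A ^ k) f := by
  refine ⟨(Φ A f).natDegree + 1, ?_, ?_⟩
  · rw [D_pow h, Polynomial.coeff_eq_zero_of_natDegree_lt (Nat.lt_succ_self _), smul_zero]
  · have := Φ_eval A 1 f
    rw [one_smul, map_one, Polynomial.eval_eq_sum_range] at this
    rw [← this]
    refine Finset.sum_congr rfl fun k _ => ?_
    rw [D_pow h, smul_smul, inv_mul_cancel₀ (by positivity), one_smul, one_pow, mul_one]

/-- The translates of a polynomial depend polynomially on the matrix. -/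
theorem expand (f : P n) : ∃ (s : Finset (Fin n × Fin n →₀ ℕ)) (c : (Fin n × Fin n →₀ ℕ) → P n),
    ∀ g : Mat n, R g f = ∑ m ∈ s, eval (fun p => g p.1 p.2) (c m) • monomial m (1 : ℚ) := by
  let Δ : P n →ₐ[ℚ] MvPolynomial (Fin n × Fin n) (P n) :=
    aeval fun p => ∑ k, C (X (k, p.2)) * X (p.1, k)
  have key : ∀ (g : Mat n) (f : P n), R g f = map (eval fun p => g p.1 p.2) (Δ f) := by
    intro g f
    induction f using MvPolynomial.induction_on with
    | C a =>
      rw [show R g (C a) = C a from (R g).commutes a,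
        show Δ (C a) = C (C a) from Δ.commutes a, map_C, eval_C]
    | add p q hp hq => simp only [map_add, hp, hq]
    | mul_X p q hp =>
      simp only [map_mul, hp, R_X, Δ, aeval_X, map_sum, map_C, map_X, eval_X, L, smul_eq_C_mul]
  refine ⟨(Δ f).support, fun m => coeff m (Δ f), fun g => ?_⟩
  rw [key]
  conv_lhs => rw [(Δ f).as_sum]
  simp only [map_sum, map_monomial, smul_monomial, smul_eq_mul, mul_one]

/-- Upper triangular matrices. -/
def Up (g : Mat n) : Prop := ∀ i j, j < i → g i j = 0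

/-- The principal minor on a set of indices. -/
noncomputable def mnr (p : Fin n → Prop) [DecidablePred p] : P n :=
  (Matrix.of fun i j : {i // p i} => (X (i.1, j.1) : P n)).det

theorem mnr_ne_zero (p : Fin n → Prop) [DecidablePred p] : mnr p ≠ 0 := fun h => by
  have := congrArg (eval fun q : Fin n × Fin n => (1 : Mat n) q.1 q.2) h
  rw [mnr, RingHom.map_det, map_zero] at this
  have e : (eval fun q : Fin n × Fin n => (1 : Mat n) q.1 q.2).mapMatrix
      (Matrix.of fun i j : {i // p i} => (X (i.1, j.1) : P n)) = 1 := by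
    ext i j
    simp [Matrix.one_apply, Subtype.ext_iff]
  rw [e, det_one] at this
  exact one_ne_zero this

theorem R_mnr (p : Fin n → Prop) [DecidablePred p] (hp : ∀ i j, i ≤ j → p j → p i) {g : Mat n}
    (hg : Up g) : R g (mnr p) = (∏ i, if p i then g i i else 1) • mnr p := by
  have e : (R g).mapMatrix (Matrix.of fun i j : {i // p i} => (X (i.1, j.1) : P n)) =
      (Matrix.of fun i j : {i // p i} => (X (i.1, j.1) : P n)) *
        (C : ℚ →+* P n).mapMatrix (Matrix.of fun i j : {i // p i} => g i.1 j.1) := by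
    ext1 i j
    simp only [AlgHom.mapMatrix_apply, Matrix.map_apply, Matrix.of_apply, R_X, L,
      Matrix.mul_apply, RingHom.mapMatrix_apply, smul_eq_C_mul]
    rw [← Finset.sum_subtype (Finset.univ.filter p) (by simp)
      fun k => (X (i.1, k) : P n) * C (g k j.1), Finset.sum_filter]
    refine Finset.sum_congr rfl fun k _ => ?_
    split_ifs with h
    · exact mul_comm _ _
    · rw [hg k j.1 (lt_of_not_ge fun h' => h (hp _ _ h' j.2)), map_zero, zero_mul]
  rw [mnr, AlgHom.map_det, e, det_mul, ← RingHom.map_det, det_of_isUpperTriangular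
    (M := Matrix.of fun i j : {i // p i} => g i.1 j.1) (fun i j h => hg i.1 j.1 h), smul_eq_C_mul, mul_comm, ← Finset.prod_filter,
    Finset.prod_subtype (Finset.univ.filter p) (p := p) (by simp)]
  rfl

theorem exists_hw (ν : Fin n → ℕ) (hν : Antitone ν) :
    ∃ u : P n, u ≠ 0 ∧ ∀ g, Up g → R g u = (∏ i, g i i ^ ν i) • u := by
  refine ⟨∏ m ∈ Finset.range (∑ i, ν i), mnr fun i => m < ν i,
    Finset.prod_ne_zero_iff.2 fun m _ => mnr_ne_zero _, fun g hg => ?_⟩
  rw [map_prod, Finset.prod_congr rfl fun m _ =>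
    R_mnr (fun i => m < ν i) (fun i j h h' => h'.trans_le (hν h)) hg, Finset.prod_smul,
    Finset.prod_comm]
  congr 1
  refine Finset.prod_congr rfl fun i _ => ?_
  have h : ν i ≤ ∑ j, ν j := Finset.single_le_sum (fun j _ => Nat.zero_le _) (Finset.mem_univ i)
  rw [← Finset.prod_filter, Finset.prod_const]
  congr 1
  refine (congrArg _ ?_).trans (Finset.card_range (ν i))
  ext m
  simp only [Finset.mem_filter, Finset.mem_range]
  omega

theorem D_diag {ν : Fin n → ℕ} {u : P n} (hu : ∀ g, Up g → R g u = (∏ i, g i i ^ ν i) • u)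
    (a : Fin n) : D (single a a 1) u = (ν a : ℚ) • u := by
  have h1 : Φ (single a a 1) u = (1 + Polynomial.X) ^ ν a * Polynomial.C u := by
    refine Polynomial.eq_of_infinite_eval_eq _ _
      ((Set.infinite_range_of_injective (C_injective (Fin n × Fin n) ℚ)).mono ?_)
    rintro _ ⟨t, rfl⟩
    have h2 : Up (1 + t • single a a (1 : ℚ)) := fun i j h => by
      have : ¬ (a = i ∧ a = j) := fun e => h.ne (e.2.symm.trans e.1)
      simp [h.ne', this]
    rw [Set.mem_ofPred_eq, Φ_eval, hu _ h2, Finset.prod_eq_single a (fun b _ hb => by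
      simp [hb.symm]) (by simp)]
    simp [smul_eq_C_mul]
  rw [← Φ_coeff_one, h1, Polynomial.coeff_mul_C, Polynomial.coeff_one_add_X_pow,
    Nat.choose_one_right, smul_eq_C_mul, map_natCast]

/-- The twisted translation representation. -/
noncomputable def ρ0 (m : ℕ) : Representation ℚ (GL (Fin n) ℚ) (P n) where
  toFun g := (g.val.det ^ m)⁻¹ • (R g.val).toLinearMap
  map_one' := LinearMap.ext fun f => by simp [R_one]
  map_mul' g h := by
    refine LinearMap.ext fun f => ?_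
    simp [R_mul, smul_smul, mul_pow, mul_comm]

theorem ρ0_apply (m : ℕ) (g : GL (Fin n) ℚ) (f : P n) :
    ρ0 m g f = (g.val.det ^ m)⁻¹ • R g.val f := rfl

theorem toQ_elem {a b : Fin n} (h : a ≠ b) : (toQ n (elem a b)).val = 1 + single a b 1 := by
  ext i j
  simp [toQ, elem, h, Matrix.one_apply, single_apply]

theorem ρ0_elem (m : ℕ) {a b : Fin n} (h : a ≠ b) (f : P n) :
    ρ0 m (toQ n (elem a b)) f = R (1 + single a b 1) f := by
  rw [ρ0_apply, toQ_elem h, show (1 + single a b 1 : Mat n).det = 1 from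
    det_transvection_of_ne a b h 1]
  simp

theorem single_sq {a b : Fin n} (h : a ≠ b) (c : ℚ) : single a b c * single a b c = (0 : Mat n) :=
  single_mul_single_of_ne _ _ _ _ h.symm _

/-- The lowering and raising derivations. -/
def allD (n : ℕ) : Set (Module.End ℚ (P n)) := {x | ∃ a b, a ≠ b ∧ x = D (single a b 1)}

theorem mem_allD {a b : Fin n} (h : a ≠ b) : D (single a b 1) ∈ allD n := ⟨a, b, h, rfl⟩

theorem gen_stable {ν : Fin n → ℕ} {u : P n} (hu : ∀ g, Up g → R g u = (∏ i, g i i ^ ν i) • u)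
    (g : Mat n) (hg : g.det ≠ 0) :
    ∀ f ∈ genBy (allD n) (Submodule.span ℚ {u}), R g f ∈ genBy (allD n) (Submodule.span ℚ {u}) := by
  refine diagonal_transvection_induction_of_det_ne_zero (fun g => ∀ f ∈ genBy (allD n)
    (Submodule.span ℚ {u}), R g f ∈ genBy (allD n) (Submodule.span ℚ {u})) g hg ?_ ?_ ?_
  · intro d hd
    rw [det_diagonal, Finset.prod_ne_zero_iff] at hd
    refine fun f hf => genBy_le (U := (genBy (allD n) (Submodule.span ℚ {u})).comap
      (R (diagonal d)).toLinearMap) ?_ ?_ hf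
    · rw [Submodule.span_singleton_le_iff_mem, Submodule.mem_comap, AlgHom.toLinearMap_apply,
        hu _ fun i j h => diagonal_apply_ne _ h.ne']
      exact Submodule.smul_mem _ _ (le_genBy _ _ (Submodule.mem_span_singleton_self u))
    · rintro _ ⟨a, b, hab, rfl⟩ v hv
      have e : diagonal d * single a b 1 = ((d a / d b) • single a b (1 : ℚ)) * diagonal d := by
        ext i j
        have := hd b (Finset.mem_univ b)
        rw [diagonal_mul, mul_diagonal, Matrix.smul_apply, single_apply]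
        split_ifs with h
        · obtain ⟨rfl, rfl⟩ := h
          simp [this]
        · simp
      rw [Submodule.mem_comap, AlgHom.toLinearMap_apply, R_D e, D_smul]
      exact Submodule.smul_mem _ _ (genBy_stable (mem_allD hab) hv)
  · rintro ⟨a, b, hab, c⟩ f hf
    obtain ⟨m, -, hm⟩ := R_exp (single_sq hab c) f
    rw [show TransvectionStruct.toMatrix ⟨a, b, hab, c⟩ = 1 + single a b c from rfl, hm]
    refine Submodule.sum_mem _ fun k hk => Submodule.smul_mem _ _ ?_
    clear hk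
    induction k with
    | zero => exact hf
    | succ k ih =>
      rw [pow_succ', Module.End.mul_apply, show single a b c = c • single a b (1 : ℚ) by simp,
        D_smul]
      refine Submodule.smul_mem _ _ (genBy_stable (mem_allD hab) ?_)
      rwa [show c • single a b (1 : ℚ) = single a b c by simp]
  · intro A B _ _ hA hB f hf
    rw [R_mul]
    exact hA _ (hB _ hf)

theorem ρ0_hw {μ : Fin n → ℤ} {ν : Fin n → ℕ} {m : ℕ} (h : ∀ i, (ν i : ℤ) = μ i + m) {u : P n}
    (hu : ∀ g, Up g → R g u = (∏ i, g i i ^ ν i) • u) (g : GL (Fin n) ℚ) (hg : Up g.val) :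
    ρ0 m g u = (∏ i, g.val i i ^ μ i) • u := by
  have hd : g.val.det = ∏ i, g.val i i := det_of_isUpperTriangular fun i j h => hg i j h
  have h1 : g.val.det ≠ 0 := (Matrix.GeneralLinearGroup.det g).ne_zero
  have h0 : ∀ i, g.val i i ≠ 0 := fun i =>
    Finset.prod_ne_zero_iff.1 (hd.symm.trans_ne h1) i (Finset.mem_univ i)
  rw [ρ0_apply, hu _ hg, smul_smul, hd, ← Finset.prod_pow, ← Finset.prod_inv_distrib,
    ← Finset.prod_mul_distrib]
  congr 1
  refine Finset.prod_congr rfl fun i _ => ?_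
  rw [← zpow_natCast _ (ν i), h, zpow_add₀ (h0 i), zpow_natCast]
  field_simp [h0 i]

/-- The span of the orbit of a vector. -/
def orbG {G M : Type} [Group G] [AddCommGroup M] [Module ℚ M] (ρ : Representation ℚ G M) (u : M) :
    Subrepresentation ρ where
  toSubmodule := Submodule.span ℚ (Set.range fun g => ρ g u)
  apply_mem_toSubmodule g v hv := by
    refine Submodule.mem_comap.1 ((Submodule.span_le (p := Submodule.comap (ρ g) _)).2 ?_ hv)
    rintro _ ⟨h, rfl⟩
    exact Submodule.subset_span ⟨g * h, by simp⟩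

/-- The span of the orbit of a polynomial. -/
noncomputable def orbS (m : ℕ) (u : P n) : Subrepresentation (ρ0 (n := n) m) := orbG (ρ0 m) u

theorem self_mem (m : ℕ) (u : P n) : u ∈ (orbS m u).toSubmodule :=
  Submodule.subset_span ⟨1, by simp⟩

theorem rational (m : ℕ) (u : P n) : IsRational (orbS m u).toRepresentation := by
  constructor
  · obtain ⟨s, c, h⟩ := expand u
    refine Submodule.finiteDimensional_of_le (S₂ := Submodule.span ℚ
      ((s.image fun k => monomial k (1 : ℚ) : Finset (P n)) : Set (P n))) ?_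
    refine Submodule.span_le.2 ?_
    rintro _ ⟨g, rfl⟩
    simp only [ρ0_apply, h]
    refine Submodule.smul_mem _ _ (Submodule.sum_mem _ fun k hk => Submodule.smul_mem _ _
      (Submodule.subset_span ?_))
    exact Finset.mem_coe.2 (Finset.mem_image_of_mem _ hk)
  · intro v f
    obtain ⟨f', hf⟩ := LinearMap.exists_extend f
    obtain ⟨s, c, h⟩ := expand v.1
    refine ⟨∑ k ∈ s, c k * C (f' (monomial k 1)), m, fun g => ?_⟩
    rw [← hf]
    change f' (ρ0 m g v.1) = _
    simp only [ρ0_apply, h, map_smul, map_sum, smul_eq_mul, map_mul, eval_C]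
    rw [div_eq_inv_mul]

end JModel

open JModel in
theorem p_model (hlog : S_log) (hsl : S_isSl) (hhw : S_hw) (hst : S_struct) : S_model := by
  intro n μ hn hμ
  obtain ⟨m, hm⟩ : ∃ m : ℕ, ∀ i, 0 ≤ μ i + m := ⟨∑ i, (μ i).natAbs, fun i => by
    have := Finset.single_le_sum (f := fun i => (μ i).natAbs) (fun j _ => Nat.zero_le _)
      (Finset.mem_univ i)
    omega⟩
  obtain ⟨ν, hν⟩ : ∃ ν : Fin n → ℕ, ∀ i, (ν i : ℤ) = μ i + m :=
    ⟨fun i => (μ i + m).toNat, fun i => Int.toNat_of_nonneg (hm i)⟩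
  obtain ⟨u0, hu0, hu⟩ := exists_hw ν fun i j h => by
    have := hμ h
    have := hν i
    have := hν j
    omega
  let V := (orbS m u0).toSubmodule
  let ρ : Representation ℚ (GL (Fin n) ℚ) V := (orbS m u0).toRepresentation
  let u : V := ⟨u0, self_mem m u0⟩
  have hrat : IsRational ρ := rational m u0
  have := hrat.1
  have hρ : ∀ g (v : V), (ρ g v : P n) = ρ0 m g v := fun g v => rfl
  have hune : u ≠ 0 := fun h => hu0 (congrArg Subtype.val h)
  have hwt : ∀ g : GL (Fin n) ℚ, Up g.val → ρ g u = (∏ i, g.val i i ^ μ i) • u :=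
    fun g hg => Subtype.ext (ρ0_hw hν hu g hg)
  have hexp : ∀ a b, a ≠ b → (∀ f, LU (ρ0 m (toQ n (elem a b))) f) ∧
      ulog (ρ0 m (toQ n (elem a b))) = D (single a b 1) := fun a b h =>
    (hlog (P n)).2 _ _ fun f => by
      rw [ρ0_elem m h]
      exact R_exp (single_sq h 1) f
  have hU : Unip (ι := Fin n) (ρ.comp (toQ n)) := by
    intro a b v
    by_cases h : a = b
    · refine ⟨1, ?_⟩
      simp [elem, h]
    · obtain ⟨k, hk⟩ := (hexp a b h).1 v
      refine ⟨k, Subtype.ext ?_⟩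
      have : ∀ (k : ℕ) (v : V), (((ρ (toQ n (elem a b)) - 1) ^ k) v : P n) =
          ((ρ0 m (toQ n (elem a b)) - 1) ^ k) v := by
        intro k
        induction k with
        | zero => intro v; rfl
        | succ k ih => intro v; rw [pow_succ, pow_succ, Module.End.mul_apply, ih]; rfl
      exact (this k v).trans hk
  obtain ⟨Y, hY⟩ : ∃ Y, Y = Xop (ι := Fin n) (ρ.comp (toQ n)) := ⟨_, rfl⟩
  have hS : IsSl Y := hY ▸ (hsl _ _ _ hU).1
  have hYD : ∀ a b, a ≠ b → ∀ v : V, (Y a b v : P n) = D (single a b 1) v := fun a b h v => by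
    have := (((hlog V).1 _ (hU a b)).2.2.2.1 (P n) _ V.subtype (hexp a b h).1).1 rfl
    rw [(hexp a b h).2] at this
    rw [hY]
    exact LinearMap.congr_fun this v
  have hsing : u ∈ Sing Y Fin.val := mem_Sing.2 fun a b h => by
    have hab : a < b := h
    rw [hY]
    refine (((hlog V).1 _ (hU a b)).2.1 u).1 ?_
    have h1 := hwt (toQ n (elem a b)) fun i j h' => by
      have : ¬ (a = i ∧ b = j) := fun e => by
        obtain ⟨rfl, rfl⟩ := e
        exact lt_asymm hab h'
      simp [toQ_elem hab.ne, h'.ne', this]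
    rw [Finset.prod_eq_one fun i _ => by
      have : ¬ (a = i ∧ b = i) := fun e => hab.ne (e.1.trans e.2.symm)
      simp [toQ_elem hab.ne, this], one_smul] at h1
    exact h1
  have hW : u ∈ Wt Y μ := mem_Wt.2 fun a b => by
    by_cases h : a = b
    · simp [Hop, h]
    · refine Subtype.ext ?_
      have e : (Hop Y a b u : P n) = D (single a b 1) (D (single b a 1) u0) -
          D (single b a 1) (D (single a b 1) u0) := by
        simp only [Hop, LinearMap.sub_apply, Module.End.mul_apply, Submodule.coe_sub,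
          hYD a b h, hYD b a (Ne.symm h), u]
      rw [e, D_comm, single_mul_single_same, single_mul_single_same, mul_one, D_sub, D_diag hu,
        D_diag hu, ← sub_smul]
      have h1 : ((ν a : ℚ) - ν b) = ((μ a - μ b : ℤ) : ℚ) := by
        rw [show μ a - μ b = ν a - ν b by rw [hν, hν]; ring]
        push_cast
        rfl
      rw [h1]
      rfl
  have hgen : genBy (allX Y) (Submodule.span ℚ {u}) = ⊤ := by
    have h1 : genBy (allD n) (Submodule.span ℚ {u0}) ≤
        (genBy (allX Y) (Submodule.span ℚ {u})).map V.subtype := by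
      refine genBy_le ?_ ?_
      · rw [Submodule.span_singleton_le_iff_mem]
        exact ⟨u, le_genBy _ _ (Submodule.mem_span_singleton_self u), rfl⟩
      · rintro _ ⟨a, b, hab, rfl⟩ _ ⟨v, hv, rfl⟩
        exact ⟨Y a b v, genBy_stable (show Y a b ∈ allX Y from ⟨a, b, rfl⟩) hv, hYD a b hab v⟩
    have h2 : V ≤ genBy (allD n) (Submodule.span ℚ {u0}) := by
      refine Submodule.span_le.2 ?_
      rintro _ ⟨g, rfl⟩
      exact Submodule.smul_mem _ _ (gen_stable hu g.val (Matrix.GeneralLinearGroup.det g).ne_zero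
        _ (le_genBy _ _ (Submodule.mem_span_singleton_self u0)))
    refine eq_top_iff.2 fun v _ => ?_
    obtain ⟨w, hw, e⟩ := h1 (h2 v.2)
    exact (Subtype.ext e : w = v) ▸ hw
  have hc : 3 ≤ Fintype.card (Fin n) := by rwa [Fintype.card_fin]
  have hSu := (hst (Fin n) Fin.val hc Fin.val_injective).1 V Y μ u hS hsing hW hgen
  have hirr : ρ.IsIrreducible := by
    have hnt : Nontrivial (Subrepresentation ρ) := ⟨⊥, ⊤, fun h => hune (by
      have : u ∈ (⊥ : Subrepresentation ρ).toSubmodule := h ▸ Submodule.mem_top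
      exact (Submodule.mem_bot ℚ).1 this)⟩
    refine ⟨fun W => ?_⟩
    have hst : Stable Y W.toSubmodule := fun a b => by
      rw [hY]
      exact (((hlog V).1 _ (hU a b)).2.2.1 _).1 fun v hv => W.apply_mem_toSubmodule _ hv
    by_cases h : W.toSubmodule ⊓ Sing Y Fin.val = ⊥
    · exact Or.inl (Subrepresentation.toSubmodule_injective
        ((hhw _ _ Y Fin.val hS hc Fin.val_injective).2.2.2.2.2.2.2 _ hst h))
    · refine Or.inr (Subrepresentation.toSubmodule_injective (eq_top_iff.2 ?_))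
      obtain ⟨v, ⟨hv, hv'⟩, hv0⟩ := Submodule.exists_mem_ne_zero_of_ne_bot h
      rw [hSu] at hv'
      obtain ⟨c, rfl⟩ := Submodule.mem_span_singleton.1 hv'
      rw [← hgen]
      refine genBy_le ?_ ?_
      · rw [Submodule.span_singleton_le_iff_mem]
        exact (Submodule.smul_mem_iff _ (left_ne_zero_of_smul hv0)).1 hv
      · rintro _ ⟨a, b, rfl⟩
        exact hst a b
  refine ⟨ModuleCat.of ℚ V, ρ, u, ⟨hrat, hirr, u, hune, hwt⟩, hU, hune, hY ▸ hsing, hY ▸ hW,
    hY ▸ hgen, fun c hc => ?_⟩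
  have e : ∀ i j, (toQ n (sgn c)).val i j = if i = j then if i = c then -1 else 1 else 0 := by
    intro i j
    simp [toQ, sgn, diagonal_apply]
  rw [hwt _ fun i j h => by rw [e, if_neg h.ne'], Finset.prod_eq_one fun i _ => ?_, one_smul]
  rw [e, if_pos rfl]
  split_ifs with h
  · rw [h, hc, zpow_zero]
  · exact one_zpow _

end Pool.Agent.Lib.MP_49df17_al
end

-- part Pool.Agent.Lib.MP_49df17_al.Nv1
section

/-!
The complex of nearly minimal vectors is acyclic: nerve of a convex cover, by splitting along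
finitely many rational hyperplanes.
-/

namespace Pool.Agent.Lib.MP_49df17_al

open Matrix
open scoped Pointwise

namespace JNv1

/-- Mayer-Vietoris for a union of two complexes. -/
theorem mv (h : S_E) {V : Type} {P Q : Cx V} (hP : Down P) (hQ : Down Q)
    (eP : ∀ n, ExactAt P n) (eQ : ∀ n, ExactAt Q n)
    (ePQ : ∀ n, ExactAt (fun S => Q S ∧ P S) n) (n : ℕ) :
    ExactAt (fun S => P S ∨ Q S) n := by
  have hX : Down (fun S => P S ∨ Q S) := fun S T hS hT =>
    hS.imp (fun a => hP S T a hT) (fun a => hQ S T a hT)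
  have key := (h V Unit (fun S => P S ∨ Q S) P (fun _ => ()) (fun _ => Q) hX hP (fun _ => hQ)
    (fun _ a => Or.inl a) (fun _ _ a => Or.inr a) (fun _ _ a b => a.resolve_left b)
    (fun _ _ _ _ => Or.inr rfl) n).2 (fun _ => eQ n) (fun _ i _ => ePQ i)
  exact key.trans (sup_le ((eP n).trans (Bc_mono fun _ a => Or.inl a)) le_rfl)

section Nerve

variable {E V : Type} [AddCommGroup E] [Module ℚ E]

/-- The nerve of the cover of `C` by the sets `U v`. -/
def Ner (U : V → Set E) (C : Set E) : Cx V := fun S => ∃ x ∈ C, ∀ v ∈ S, x ∈ U v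

omit [AddCommGroup E] [Module ℚ E] in
theorem Ner_down (U : V → Set E) (C : Set E) : Down (Ner U C) :=
  fun _ _ ⟨x, hx, h⟩ hT => ⟨x, hx, fun v hv => h v (hT hv)⟩

/-- The functional does not take both strict signs on the set. -/
def OneSign (f : E →ₗ[ℚ] ℚ) (C : Set E) : Prop := (∀ x ∈ C, 0 ≤ f x) ∨ ∀ x ∈ C, f x ≤ 0

theorem OneSign.mono {f : E →ₗ[ℚ] ℚ} {C D : Set E} (h : OneSign f C) (hD : D ⊆ C) :
    OneSign f D :=
  h.imp (fun a x hx => a x (hD hx)) (fun a x hx => a x (hD hx))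

/-- A point where all one-signed functionals that are positive somewhere are positive. -/
theorem exists_generic {C : Set E} (hC : Convex ℚ C) (hne : C.Nonempty)
    (F : List (E →ₗ[ℚ] ℚ)) (hF : ∀ f ∈ F, OneSign f C) :
    ∃ x ∈ C, ∀ f ∈ F, ∀ y ∈ C, 0 < f y → 0 < f x := by
  induction F with
  | nil => obtain ⟨x, hx⟩ := hne; exact ⟨x, hx, by simp⟩
  | cons g F ih =>
    obtain ⟨x, hx, h⟩ := ih fun f hf => hF f (List.mem_cons_of_mem _ hf)
    by_cases hg : ∃ y ∈ C, 0 < g y
    · obtain ⟨y, hy, hgy⟩ := hg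
      have nn : ∀ f ∈ g :: F, ∀ z ∈ C, 0 < f z → ∀ w ∈ C, 0 ≤ f w := by
        intro f hf z hz hfz
        rcases hF f hf with a | a
        · exact a
        · exact absurd (a z hz) (not_le.2 hfz)
      refine ⟨(1 / 2 : ℚ) • x + (1 / 2 : ℚ) • y,
        hC hx hy (by norm_num) (by norm_num) (by norm_num), fun f hf z hz hfz => ?_⟩
      have h1 := nn f hf z hz hfz x hx
      have h2 := nn f hf z hz hfz y hy
      rw [map_add, map_smul, map_smul, smul_eq_mul, smul_eq_mul]
      rcases List.mem_cons.1 hf with rfl | hf'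
      · linarith
      · have := h f hf' z hz hfz
        linarith
    · refine ⟨x, hx, fun f hf z hz hfz => ?_⟩
      rcases List.mem_cons.1 hf with rfl | hf'
      · exact absurd ⟨z, hz, hfz⟩ hg
      · exact h f hf' z hz hfz

/-- A zero of a functional on a segment. -/
theorem exists_zero (g : E →ₗ[ℚ] ℚ) {x y : E} (hx : 0 ≤ g x) (hy : g y ≤ 0) :
    ∃ a b : ℚ, 0 ≤ a ∧ 0 ≤ b ∧ a + b = 1 ∧ g (a • x + b • y) = 0 := by
  by_cases h0 : g x = 0
  · exact ⟨1, 0, by norm_num, le_rfl, by norm_num, by simpa using h0⟩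
  · have hp : 0 < g x := lt_of_le_of_ne hx (Ne.symm h0)
    have hd : 0 < g x - g y := by linarith
    refine ⟨-g y / (g x - g y), g x / (g x - g y), div_nonneg (by linarith) hd.le,
      div_nonneg hx hd.le, ?_, ?_⟩
    · field_simp; ring
    · rw [map_add, map_smul, map_smul, smul_eq_mul, smul_eq_mul]
      field_simp; ring

theorem convex_cut {C : Set E} (hC : Convex ℚ C) (g : E →ₗ[ℚ] ℚ) {I : Set ℚ} (hI : Convex ℚ I) :
    Convex ℚ (C ∩ g ⁻¹' I) := hC.inter (hI.linear_preimage g)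

/-- The nerve of a convex cover that is controlled by finitely many hyperplanes is acyclic. -/
theorem nerve_exact (h : S_E) (U : V → Set E) (hU : ∀ v, Convex ℚ (U v)) (C₀ : Set E)
    (F : List (E →ₗ[ℚ] ℚ))
    (hmono : ∀ v, ∀ x ∈ C₀, ∀ y ∈ C₀, x ∈ U v → (∀ f ∈ F, 0 < f x → 0 < f y) → y ∈ U v)
    (hcov : ∀ x ∈ C₀, ∃ v, x ∈ U v) (G : List (E →ₗ[ℚ] ℚ)) :
    ∀ C : Set E, C ⊆ C₀ → Convex ℚ C → C.Nonempty → (∀ f ∈ F, f ∈ G ∨ OneSign f C) →
      ∀ n, ExactAt (Ner U C) n := by
  induction G with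
  | nil =>
    intro C hC0 hC hne hF n
    obtain ⟨x, hx, hx'⟩ := exists_generic hC hne F fun f hf => (hF f hf).resolve_left (by simp)
    obtain ⟨v, hv⟩ := hcov x (hC0 hx)
    refine exactAt_of_cone v (fun S _ hS => ?_) n
    obtain ⟨y, hy, hyS⟩ := hS
    refine ⟨x, hx, fun w hw => ?_⟩
    rcases hw with rfl | hw
    · exact hv
    · exact hmono w y (hC0 hy) x (hC0 hx) (hyS w hw) fun f hf hfy => hx' f hf y hy hfy
  | cons g G ih =>
    intro C hC0 hC hne hF n
    have step : ∀ D : Set E, D ⊆ C → Convex ℚ D → D.Nonempty → OneSign g D →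
        ∀ n, ExactAt (Ner U D) n := by
      intro D hD hDc hDn hg
      refine ih D (hD.trans hC0) hDc hDn fun f hf => ?_
      rcases hF f hf with a | a
      · rcases List.mem_cons.1 a with rfl | a
        · exact Or.inr hg
        · exact Or.inl a
      · exact Or.inr (a.mono hD)
    by_cases hg : OneSign g C
    · exact step C le_rfl hC hne hg n
    · have hneg : ∃ x ∈ C, g x ≤ 0 := by
        by_contra hc
        exact hg (Or.inl fun x hx => le_of_not_ge fun a => hc ⟨x, hx, a⟩)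
      have hpos : ∃ x ∈ C, 0 ≤ g x := by
        by_contra hc
        exact hg (Or.inr fun x hx => le_of_not_ge fun a => hc ⟨x, hx, a⟩)
      obtain ⟨y, hy, hgy⟩ := hneg
      obtain ⟨x, hx, hgx⟩ := hpos
      have eP := step (C ∩ g ⁻¹' Set.Ici 0) Set.inter_subset_left
        (convex_cut hC g (convex_Ici 0)) ⟨x, hx, hgx⟩ (Or.inl fun _ a => a.2)
      have eQ := step (C ∩ g ⁻¹' Set.Iic 0) Set.inter_subset_left
        (convex_cut hC g (convex_Iic 0)) ⟨y, hy, hgy⟩ (Or.inr fun _ a => a.2)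
      have e0 := step (C ∩ g ⁻¹' {0}) Set.inter_subset_left
        (convex_cut hC g (convex_singleton 0))
        (by
          obtain ⟨a, b, ha, hb, hab, e⟩ := exists_zero g hgx hgy
          exact ⟨_, hC hx hy ha hb hab, e⟩)
        (Or.inl fun _ a => le_of_eq (Eq.symm a.2))
      have ePQ : ∀ m, ExactAt (fun S => Ner U (C ∩ g ⁻¹' Set.Iic 0) S ∧
          Ner U (C ∩ g ⁻¹' Set.Ici 0) S) m := by
        intro m
        refine (e0 m).congr fun S _ => ⟨?_, ?_⟩
        · rintro ⟨z, ⟨hz, hz0⟩, hS⟩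
          have hz1 : g z = 0 := hz0
          exact ⟨⟨z, ⟨hz, hz1.le⟩, hS⟩, ⟨z, ⟨hz, hz1.ge⟩, hS⟩⟩
        · rintro ⟨⟨z, ⟨hz, hz0⟩, hS⟩, ⟨w, ⟨hw, hw0⟩, hT⟩⟩
          obtain ⟨a, b, ha, hb, hab, e⟩ := exists_zero g hw0 hz0
          exact ⟨_, ⟨hC hw hz ha hb hab, e⟩, fun v hv => hU v (hT v hv) (hS v hv) ha hb hab⟩
      refine (mv h (Ner_down _ _) (Ner_down _ _) eP eQ ePQ n).congr fun S _ => ⟨?_, ?_⟩
      · rintro (⟨z, hz, hS⟩ | ⟨z, hz, hS⟩) <;> exact ⟨z, hz.1, hS⟩
      · rintro ⟨z, hz, hS⟩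
        rcases le_total 0 (g z) with a | a
        · exact Or.inl ⟨z, ⟨hz, a⟩, hS⟩
        · exact Or.inr ⟨z, ⟨hz, a⟩, hS⟩

end Nerve

section Forms

variable {ι : Type} [Fintype ι]

/-- The value at an integral vector as a linear functional of the form. -/
def qL (v : ι → ℤ) : Matrix ι ι ℚ →ₗ[ℚ] ℚ where
  toFun Q := qf Q v
  map_add' Q Q' := by simp [qf, Matrix.add_mulVec, dotProduct_add]
  map_smul' r Q := by simp [qf, Matrix.smul_mulVec, dotProduct_smul]

theorem qL_apply (v : ι → ℤ) (Q : Matrix ι ι ℚ) : qL v Q = qf Q v := rfl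

theorem qf_comb (a b : ℚ) (Q Q' : Matrix ι ι ℚ) (v : ι → ℤ) :
    qf (a • Q + b • Q') v = a * qf Q v + b * qf Q' v := by
  rw [← qL_apply, map_add, map_smul, map_smul]; rfl

theorem qf_nonneg {Q : Matrix ι ι ℚ} (hQ : PDf Q) (v : ι → ℤ) : 0 ≤ qf Q v := hQ.1 _

theorem qf_zsmul (Q : Matrix ι ι ℚ) (k : ℤ) (v : ι → ℤ) :
    qf Q (k • v) = (k : ℚ) ^ 2 * qf Q v := by
  have : (fun a => (((k • v) a : ℤ) : ℚ)) = (k : ℚ) • fun a => (v a : ℚ) := by
    funext a; simp
  unfold qf
  rw [this, Matrix.mulVec_smul, smul_dotProduct, dotProduct_smul, smul_eq_mul, smul_eq_mul]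
  ring

theorem qf_pos {Q : Matrix ι ι ℚ} (hQ : PDf Q) {v : ι → ℤ} (hv : v ≠ 0) : 0 < qf Q v := by
  refine lt_of_le_of_ne (qf_nonneg hQ v) fun h0 => ?_
  have hinj : Function.Injective fun k : ℤ => k • v := smul_left_injective ℤ hv
  refine Set.infinite_range_of_injective hinj ((hQ.2 0).subset ?_)
  rintro _ ⟨k, rfl⟩
  show qf Q (k • v) ≤ 0
  rw [qf_zsmul, ← h0]; simp

theorem convex_PDf : Convex ℚ {Q : Matrix ι ι ℚ | PDf Q} := by
  intro Q hQ Q' hQ' a b ha hb hab
  refine ⟨fun v => ?_, fun M => ?_⟩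
  · rw [Matrix.add_mulVec, Matrix.smul_mulVec, Matrix.smul_mulVec, dotProduct_add,
      dotProduct_smul, dotProduct_smul, smul_eq_mul, smul_eq_mul]
    exact add_nonneg (mul_nonneg ha (hQ.1 v)) (mul_nonneg hb (hQ'.1 v))
  · refine ((hQ.2 M).union (hQ'.2 M)).subset fun u hu => ?_
    have hu' : a * qf Q u + b * qf Q' u ≤ M := by rw [← qf_comb]; exact hu
    by_contra hc
    simp only [Set.mem_union, Set.mem_ofPred_eq, not_or, not_le] at hc
    have : M < a * qf Q u + b * qf Q' u := by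
      have h1 : a * M + b * M = M := by rw [← add_mul, hab, one_mul]
      rcases ha.eq_or_lt with rfl | ha'
      · have hb1 : b = 1 := by linarith
        rw [hb1]; linarith [hc.2]
      · nlinarith [hc.1, hc.2, mul_le_mul_of_nonneg_left hc.2.le hb,
          mul_lt_mul_of_pos_left hc.1 ha']
    linarith

/-- The forms for which `v` is nearly minimal. -/
def UV (v : ι → ℤ) : Set (Matrix ι ι ℚ) :=
  {Q | v ≠ 0 ∧ ∀ u : ι → ℤ, u ≠ 0 → qf Q v < 2 * qf Q u}

theorem convex_UV (v : ι → ℤ) : Convex ℚ (UV v) := by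
  intro Q hQ Q' hQ' a b ha hb hab
  refine ⟨hQ.1, fun u hu => ?_⟩
  have h1 := hQ.2 u hu
  have h2 := hQ'.2 u hu
  rw [qf_comb, qf_comb]
  rcases ha.eq_or_lt with rfl | ha'
  · have hb1 : b = 1 := by linarith
    rw [hb1]; linarith
  · nlinarith [mul_le_mul_of_nonneg_left h2.le hb, mul_lt_mul_of_pos_left h1 ha']

theorem exists_UV [Nonempty ι] {Q : Matrix ι ι ℚ} (hQ : PDf Q) : ∃ v, Q ∈ UV v := by
  have h1 : (1 : ι → ℤ) ∈ {u : ι → ℤ | qf Q u ≤ qf Q 1} \ {0} :=
    ⟨le_refl (qf Q 1), one_ne_zero⟩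
  obtain ⟨v, hv, hmin⟩ := Set.exists_min_image
    ({u : ι → ℤ | qf Q u ≤ qf Q 1} \ {0}) (qf Q) ((hQ.2 _).subset Set.sdiff_subset) ⟨1, h1⟩
  refine ⟨v, hv.2, fun u hu => ?_⟩
  have hp := qf_pos hQ hu
  have : qf Q v ≤ qf Q u := by
    by_cases hu1 : qf Q u ≤ qf Q 1
    · exact hmin u ⟨hu1, hu⟩
    · exact (hmin 1 h1).trans (le_of_not_ge hu1)
  linarith

theorem PDf_one [DecidableEq ι] : PDf (1 : Matrix ι ι ℚ) := by
  refine ⟨fun v => ?_, fun M => ?_⟩
  · rw [Matrix.one_mulVec]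
    exact Finset.sum_nonneg fun a _ => mul_self_nonneg _
  · refine (Set.Finite.pi' (t := fun _ : ι => Set.Icc (-⌈M⌉) ⌈M⌉)
      fun _ => Set.finite_Icc _ _).subset fun u hu a => ?_
    have h1 : qf 1 u ≤ M := hu
    unfold qf at h1
    rw [Matrix.one_mulVec] at h1
    have h2 : (u a : ℚ) * (u a : ℚ) ≤ M :=
      (Finset.single_le_sum (f := fun b => (u b : ℚ) * (u b : ℚ))
        (fun b _ => mul_self_nonneg _) (Finset.mem_univ a)).trans h1
    have h3 : u a * u a ≤ ⌈M⌉ := by
      have : ((u a * u a : ℤ) : ℚ) ≤ (⌈M⌉ : ℤ) := by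
        push_cast; exact h2.trans (Int.le_ceil M)
      exact_mod_cast this
    constructor <;> nlinarith [mul_self_nonneg (u a - 1), mul_self_nonneg (u a + 1),
      mul_self_nonneg (u a)]

/-- On the hull of finitely many forms the value at a vector is bounded. -/
theorem hull_le {T : Set (Matrix ι ι ℚ)} {v : ι → ℤ} {M : ℚ} (h : ∀ Q ∈ T, qf Q v ≤ M) :
    ∀ Q ∈ convexHull ℚ T, qf Q v ≤ M :=
  convexHull_min (t := qL v ⁻¹' Set.Iic M) h ((convex_Iic M).linear_preimage (qL v))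

/-- Uniform properness on the hull of finitely many forms. -/
theorem hull_finite {T : Set (Matrix ι ι ℚ)} (hT : T.Finite) (hP : ∀ Q ∈ T, PDf Q) (M : ℚ) :
    {u : ι → ℤ | ∃ Q ∈ convexHull ℚ T, qf Q u ≤ M}.Finite := by
  refine (hT.biUnion fun Q hQ => (hP Q hQ).2 M).subset ?_
  rintro u ⟨Q, hQ, hu⟩
  by_contra hc
  simp only [Set.mem_iUnion, Set.mem_ofPred_eq, not_exists, not_le] at hc
  have : ∀ Q ∈ convexHull ℚ T, M < qf Q u :=
    convexHull_min (t := qL u ⁻¹' Set.Ioi M) hc ((convex_Ioi M).linear_preimage (qL u))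
  exact absurd (this Q hQ) (not_lt.2 hu)

theorem exists_bound {T : Set (Matrix ι ι ℚ)} (hT : T.Finite) {A : Set (ι → ℤ)} (hA : A.Finite) :
    ∃ M : ℚ, ∀ v ∈ A, ∀ Q ∈ convexHull ℚ T, qf Q v ≤ M := by
  obtain ⟨M, hM⟩ := ((hT.prod hA).image fun p => qf p.1 p.2).bddAbove
  exact ⟨M, fun v hv => hull_le fun Q hQ => hM ⟨(Q, v), ⟨hQ, hv⟩, rfl⟩⟩

/-- Finitely many inequalities control the cover on the hull of finitely many forms. -/
theorem exists_list [Nonempty ι] {T : Set (Matrix ι ι ℚ)} (hT : T.Finite)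
    (hP : ∀ Q ∈ T, PDf Q) : ∃ F : List (Matrix ι ι ℚ →ₗ[ℚ] ℚ),
    ∀ v, ∀ x ∈ convexHull ℚ T, ∀ y ∈ convexHull ℚ T, x ∈ UV v →
      (∀ f ∈ F, 0 < f x → 0 < f y) → y ∈ UV v := by
  have h1 : (1 : ι → ℤ) ≠ 0 := one_ne_zero
  obtain ⟨M₀, hM₀⟩ := exists_bound hT (Set.finite_singleton (1 : ι → ℤ))
  have hA := hull_finite hT hP (2 * M₀)
  obtain ⟨M₁, hM₁⟩ := exists_bound hT hA
  have hB := hull_finite hT hP M₁
  have hF := (hA.prod hB).image fun p => (2 : ℚ) • qL p.2 - qL p.1
  refine ⟨hF.toFinset.toList, fun v x hx y hy hv hf => ⟨hv.1, fun u hu => ?_⟩⟩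
  have hvA : ∃ Q ∈ convexHull ℚ T, qf Q v ≤ 2 * M₀ :=
    ⟨x, hx, by have := hv.2 1 h1; have := hM₀ 1 rfl x hx; linarith⟩
  by_cases huB : ∃ Q ∈ convexHull ℚ T, qf Q u ≤ M₁
  · have := hf ((2 : ℚ) • qL u - qL v)
      (by rw [Finset.mem_toList, Set.Finite.mem_toFinset]; exact ⟨(v, u), ⟨hvA, huB⟩, rfl⟩)
    simp only [LinearMap.sub_apply, LinearMap.smul_apply, qL_apply, smul_eq_mul, sub_pos] at this
    exact this (hv.2 u hu)
  · have h2 : M₁ < qf y u := lt_of_not_ge fun a => huB ⟨y, hy, a⟩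
    have h3 := hM₁ v hvA y hy
    have h4 := qf_nonneg (convexHull_min hP convex_PDf hy) u
    linarith

theorem qf_conj (Q : Matrix ι ι ℚ) (A : Matrix ι ι ℤ) (v : ι → ℤ) :
    qf ((A.map (Int.cast : ℤ → ℚ))ᵀ * Q * A.map (Int.cast : ℤ → ℚ)) v = qf Q (A *ᵥ v) := by
  have : (fun a => (((A *ᵥ v) a : ℤ) : ℚ)) = A.map (Int.cast : ℤ → ℚ) *ᵥ fun a => (v a : ℚ) := by
    funext a; simp [Matrix.mulVec, dotProduct]
  unfold qf
  rw [this, ← Matrix.mulVec_mulVec, ← Matrix.mulVec_mulVec, Matrix.dotProduct_mulVec,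
    Matrix.vecMul_transpose]

theorem Nv_smul [DecidableEq ι] (g : GL ι ℤ) (S : Set (ι → ℤ)) (h : Nv ι S) : Nv ι (g • S) := by
  obtain ⟨Q, hQ, hS⟩ := h
  have hinj : Function.Injective fun u : ι → ℤ => (g⁻¹).val *ᵥ u := fun u w e =>
    MulAction.injective (g⁻¹) e
  refine ⟨((g⁻¹).val.map (Int.cast : ℤ → ℚ))ᵀ * Q * (g⁻¹).val.map (Int.cast : ℤ → ℚ),
    ⟨fun v => ?_, fun M => ?_⟩, ?_⟩
  · rw [← Matrix.mulVec_mulVec, ← Matrix.mulVec_mulVec, Matrix.dotProduct_mulVec,
      Matrix.vecMul_transpose]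
    exact hQ.1 _
  · refine ((hQ.2 M).preimage hinj.injOn).subset fun u hu => ?_
    have h1 : qf _ u ≤ M := hu
    rwa [qf_conj] at h1
  · rintro _ ⟨v, hv, rfl⟩
    have e : (g⁻¹).val *ᵥ (g.val *ᵥ v) = v := inv_smul_smul g v
    refine ⟨fun h0 => (hS v hv).1 ?_, fun u hu => ?_⟩
    · have h1 : g.val *ᵥ v = 0 := h0
      rw [← e, h1, Matrix.mulVec_zero]
    · change qf _ (g.val *ᵥ v) < _
      rw [qf_conj, qf_conj, e]
      refine (hS v hv).2 _ fun h0 => hu (hinj ?_)
      simpa using h0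

theorem Nv_exact (h : S_E) [DecidableEq ι] [Nonempty ι] (n : ℕ) : ExactAt (Nv ι) n := by
  intro z hz
  have hch : ∀ l : List (ι → ℤ), ∃ Q : Matrix ι ι ℚ, PDf Q ∧
      (Nv ι (vs l) → ∀ v ∈ vs l, Q ∈ UV v) := by
    intro l
    by_cases hl : Nv ι (vs l)
    · obtain ⟨Q, hQ, hS⟩ := hl
      exact ⟨Q, hQ, fun _ => hS⟩
    · exact ⟨1, PDf_one, fun a => absurd a hl⟩
  choose q hq hq' using hch
  have hT : (insert 1 (q '' (z.support : Set (List (ι → ℤ))))).Finite :=
    (z.support.finite_toSet.image q).insert 1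
  have hP : ∀ Q ∈ insert 1 (q '' (z.support : Set (List (ι → ℤ)))), PDf Q := by
    rintro Q (rfl | ⟨l, _, rfl⟩)
    · exact PDf_one
    · exact hq l
  obtain ⟨F, hF⟩ := exists_list hT hP
  have hPD := convexHull_min hP convex_PDf
  have key := nerve_exact h UV convex_UV _ F hF (fun x hx => exists_UV (hPD hx)) F _ le_rfl
    (convex_convexHull ℚ _) ⟨1, subset_convexHull ℚ _ (Set.mem_insert _ _)⟩
    (fun f hf => Or.inl hf) n
  refine Bc_mono (fun l hl => ?_) (key ⟨fun l hl => ⟨(hz.1 hl).1, ?_⟩, hz.2⟩)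
  · obtain ⟨Q, hQ, hS⟩ := hl
    exact ⟨Q, hPD hQ, hS⟩
  · exact ⟨q l, subset_convexHull ℚ _ (Set.mem_insert_of_mem _ ⟨l, hl, rfl⟩), hq' l (hz.1 hl).2⟩

end Forms

end JNv1

theorem p_Nv1 (h : S_E) : S_Nv1 := fun _ _ _ _ =>
  ⟨fun _ _ ⟨Q, hQ, hS⟩ hT => ⟨Q, hQ, fun v hv => hS v (hT hv)⟩,
    ⟨1, JNv1.PDf_one, fun _ hv => absurd hv (Set.notMem_empty _)⟩, JNv1.Nv_smul,
    JNv1.Nv_exact h⟩

end Pool.Agent.Lib.MP_49df17_al
end
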