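import Pool.Agent.Lib.MP_49df17_al.Core

-- part Pool.Agent.Lib.MP_49df17_al.R1
section

/-!
The logarithm of locally unipotent operators, the relations of the root operators and their
behaviour under coordinate embeddings.
-/

namespace Pool.Agent.Lib.MP_49df17_al

open Matrix Polynomial

namespace R1

section Log

variable {M : Type} [AddCommGroup M] [Module ℚ M]

theorem ext_dual {v w : M} (h : ∀ φ : Module.Dual ℚ M, φ v = φ w) : v = w := by
  rw [← sub_eq_zero, ← Module.forall_dual_apply_eq_zero_iff ℚ]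
  intro φ
  rw [map_sub, h φ, sub_self]

theorem poly_ext {p q : ℚ[X]} (h : ∀ n : ℕ, p.eval (n : ℚ) = q.eval (n : ℚ)) : p = q := by
  apply Polynomial.eq_of_infinite_eval_eq
  refine Set.infinite_of_injective_forall_mem (f := fun n : ℕ => (n : ℚ)) Nat.cast_injective ?_
  intro n
  exact h n

/-- The binomial polynomials. -/
noncomputable def bin (k : ℕ) : ℚ[X] := C ((k.factorial : ℚ)⁻¹) * descPochhammer ℚ k

theorem bin_eval (k n : ℕ) : (bin k).eval (n : ℚ) = (n.choose k : ℚ) := by
  rw [bin, eval_mul, eval_C, Nat.cast_choose_eq_descPochhammer_div, div_eq_inv_mul]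

theorem bin_zero : bin 0 = 1 := by simp [bin]

theorem bin_c0 (k : ℕ) : (bin (k + 1)).coeff 0 = 0 := by
  rw [coeff_zero_eq_eval_zero]
  have := bin_eval (k + 1) 0
  simpa using this

theorem desc_c1 (k : ℕ) : (descPochhammer ℚ (k + 1)).coeff 1 = (-1) ^ k * (k.factorial : ℚ) := by
  induction k with
  | zero => simp
  | succ k ih =>
    rw [descPochhammer_succ_right, mul_coeff_one, ih, coeff_zero_eq_eval_zero,
      descPochhammer_ne_zero_eval_zero _ (Nat.succ_ne_zero k), Nat.factorial_succ]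
    have : (X - ((k + 1 : ℕ) : ℚ[X])).coeff 0 = -((k + 1 : ℕ) : ℚ) := by
      rw [coeff_zero_eq_eval_zero]; simp
    rw [this]
    push_cast
    ring

theorem bin_c1 (k : ℕ) : (bin (k + 1)).coeff 1 = (-1) ^ k / ((k : ℚ) + 1) := by
  rw [bin, coeff_C_mul, desc_c1, Nat.factorial_succ]
  have h1 : (k.factorial : ℚ) ≠ 0 := Nat.cast_ne_zero.2 k.factorial_ne_zero
  have h2 : (k : ℚ) + 1 ≠ 0 := by positivity
  push_cast
  field_simp

theorem bin_hi (k j : ℕ) (h : k < j) : (bin k).coeff j = 0 := by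
  rw [bin, coeff_C_mul, coeff_eq_zero_of_natDegree_lt, mul_zero]
  rwa [descPochhammer_natDegree]

theorem pow_kill {N : Module.End ℚ M} {v : M} {m k : ℕ} (h : (N ^ m) v = 0) (hk : m ≤ k) :
    (N ^ k) v = 0 := by
  obtain ⟨d, rfl⟩ := Nat.exists_eq_add_of_le' hk
  rw [pow_add, Module.End.mul_apply, h, map_zero]

theorem ulog_eq {E : Module.End ℚ M} (hE : ∀ v, LU E v) {v : M} {m : ℕ}
    (hm : ((E - 1) ^ m) v = 0) :
    ulog E v = ∑ k ∈ Finset.range m, ((-1 : ℚ) ^ k / (k + 1)) • ((E - 1) ^ (k + 1)) v := by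
  unfold ulog
  rw [dif_pos hE]
  refine finsum_eq_sum_of_support_subset _ ?_
  intro k hk
  by_contra hk'
  apply hk
  have : m ≤ k + 1 := by simp at hk'; omega
  simp only [pow_kill hm this, smul_zero]

theorem pow_eq {E : Module.End ℚ M} {v : M} {m : ℕ} (hm : ((E - 1) ^ m) v = 0) (n : ℕ) :
    (E ^ n) v = ∑ k ∈ Finset.range (m + 1), (n.choose k : ℚ) • ((E - 1) ^ k) v := by
  have h1 : E ^ n = ∑ k ∈ Finset.range (n + 1), (n.choose k : ℚ) • (E - 1) ^ k := by
    have := (Commute.one_right (E - 1)).add_pow n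
    rw [sub_add_cancel] at this
    rw [this]
    refine Finset.sum_congr rfl fun k _ => ?_
    rw [one_pow, mul_one, Nat.cast_smul_eq_nsmul, nsmul_eq_mul, Nat.cast_comm]
  have h2 : ∀ s, s ≤ n + m + 1 → (∀ k, s ≤ k → (n.choose k : ℚ) • ((E - 1) ^ k) v = 0) →
      ∑ k ∈ Finset.range s, (n.choose k : ℚ) • ((E - 1) ^ k) v =
        ∑ k ∈ Finset.range (n + m + 1), (n.choose k : ℚ) • ((E - 1) ^ k) v := by
    intro s hs h
    refine Finset.sum_subset (Finset.range_mono hs) fun k _ hk => h k ?_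
    simpa using hk
  rw [h2 (m + 1) (by omega) fun k hk => by rw [pow_kill hm (by omega), smul_zero],
    ← h2 (n + 1) (by omega) fun k hk => by
      rw [Nat.choose_eq_zero_of_lt (by omega), Nat.cast_zero, zero_smul], h1]
  simp [LinearMap.sum_apply]

/-- The polynomial `p` interpolates the values of `φ` on the orbit of `v`. -/
def IsP (E : Module.End ℚ M) (φ : Module.Dual ℚ M) (v : M) (p : ℚ[X]) : Prop :=
  ∀ n : ℕ, p.eval (n : ℚ) = φ ((E ^ n) v)

theorem IsP.uniq {E : Module.End ℚ M} {φ : Module.Dual ℚ M} {v : M} {p q : ℚ[X]}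
    (hp : IsP E φ v p) (hq : IsP E φ v q) : p = q :=
  poly_ext fun n => (hp n).trans (hq n).symm

theorem isP_sum {E : Module.End ℚ M} (φ : Module.Dual ℚ M) {v : M} {m : ℕ}
    (hm : ((E - 1) ^ m) v = 0) :
    IsP E φ v (∑ k ∈ Finset.range (m + 1), C (φ (((E - 1) ^ k) v)) * bin k) := by
  intro n
  rw [pow_eq hm, map_sum, eval_finsetSum]
  refine Finset.sum_congr rfl fun k _ => ?_
  rw [eval_mul, eval_C, bin_eval, map_smul, smul_eq_mul, mul_comm]

theorem exP {E : Module.End ℚ M} (hE : ∀ v, LU E v) (φ : Module.Dual ℚ M) (v : M) :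
    ∃ p, IsP E φ v p := by
  obtain ⟨m, hm⟩ := hE v
  exact ⟨_, isP_sum φ hm⟩

theorem IsP.c0 {E : Module.End ℚ M} {φ : Module.Dual ℚ M} {v : M} {p : ℚ[X]}
    (hp : IsP E φ v p) : p.coeff 0 = φ v := by
  rw [coeff_zero_eq_eval_zero]
  simpa using hp 0

theorem IsP.c1 {E : Module.End ℚ M} (hE : ∀ v, LU E v) {φ : Module.Dual ℚ M} {v : M} {p : ℚ[X]}
    (hp : IsP E φ v p) : p.coeff 1 = φ (ulog E v) := by
  obtain ⟨m, hm⟩ := hE v
  rw [hp.uniq (isP_sum φ hm), ulog_eq hE hm, finsetSum_coeff, Finset.sum_range_succ', map_sum,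
    bin_zero]
  simp only [coeff_C_mul, bin_c1, map_smul, smul_eq_mul, coeff_one, one_ne_zero, if_false,
    mul_zero, add_zero]
  exact Finset.sum_congr rfl fun k _ => mul_comm _ _

theorem IsP.hi {E : Module.End ℚ M} {φ : Module.Dual ℚ M} {v : M} {p : ℚ[X]}
    (hp : IsP E φ v p) {m : ℕ} (hm : ((E - 1) ^ m) v = 0) : p.coeff m = 0 := by
  rw [hp.uniq (isP_sum φ hm), finsetSum_coeff, Finset.sum_range_succ, hm, map_zero, map_zero,
    zero_mul, coeff_zero, add_zero]
  refine Finset.sum_eq_zero fun k hk => ?_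
  rw [coeff_C_mul, bin_hi k m (Finset.mem_range.1 hk), mul_zero]

theorem comp_pow {M' : Type} [AddCommGroup M'] [Module ℚ M'] {E : Module.End ℚ M}
    {E' : Module.End ℚ M'} {f : M →ₗ[ℚ] M'} (h : f.comp E = E'.comp f) (n : ℕ) (v : M) :
    f ((E ^ n) v) = (E' ^ n) (f v) := by
  induction n with
  | zero => simp
  | succ n ih =>
    rw [pow_succ', pow_succ', Module.End.mul_apply, Module.End.mul_apply, ← ih]
    exact LinearMap.congr_fun h _

theorem ulog_nat {M' : Type} [AddCommGroup M'] [Module ℚ M'] {E : Module.End ℚ M}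
    {E' : Module.End ℚ M'} {f : M →ₗ[ℚ] M'} (hE : ∀ v, LU E v) (hE' : ∀ v, LU E' v)
    (h : f.comp E = E'.comp f) (v : M) : f (ulog E v) = ulog E' (f v) := by
  refine ext_dual fun φ => ?_
  obtain ⟨p, hp⟩ := exP hE' φ (f v)
  have hp' : IsP E (φ.comp f) v p := fun n => by
    rw [hp n, LinearMap.comp_apply, comp_pow h]
  rw [← hp.c1 hE', hp'.c1 hE, LinearMap.comp_apply]

theorem ulog_comm {E F : Module.End ℚ M} (hE : ∀ v, LU E v) (h : F * E = E * F) :
    F * ulog E = ulog E * F :=
  LinearMap.ext fun v => ulog_nat (f := F) hE hE h v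

theorem IsP.deriv {E : Module.End ℚ M} (hE : ∀ v, LU E v) {φ : Module.Dual ℚ M} {v : M}
    {p : ℚ[X]} (hp : IsP E φ v p) : IsP E φ (ulog E v) (derivative p) := by
  intro j
  have h1 : IsP E φ ((E ^ j) v) (taylor (j : ℚ) p) := fun n => by
    rw [taylor_eval, ← Nat.cast_add, hp, pow_add, Module.End.mul_apply]
  rw [← taylor_coeff_one, h1.c1 hE]
  have h2 : E ^ j * ulog E = ulog E * E ^ j := ulog_comm hE (Commute.self_pow E j).symm
  exact congrArg φ (LinearMap.congr_fun h2 v).symm

theorem IsP.iter {E : Module.End ℚ M} (hE : ∀ v, LU E v) {φ : Module.Dual ℚ M} {v : M}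
    {p : ℚ[X]} (hp : IsP E φ v p) (k : ℕ) : IsP E φ ((ulog E ^ k) v) (derivative^[k] p) := by
  induction k with
  | zero => simpa using hp
  | succ k ih =>
    rw [Function.iterate_succ_apply', pow_succ', Module.End.mul_apply]
    exact ih.deriv hE

theorem IsP.ck {E : Module.End ℚ M} (hE : ∀ v, LU E v) {φ : Module.Dual ℚ M} {v : M}
    {p : ℚ[X]} (hp : IsP E φ v p) (k : ℕ) :
    p.coeff k = (k.factorial : ℚ)⁻¹ * φ ((ulog E ^ k) v) := by
  have h1 := (hp.iter hE k).c0
  rw [coeff_iterate_derivative, zero_add, Nat.descFactorial_self, nsmul_eq_mul] at h1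
  have h2 : (k.factorial : ℚ) ≠ 0 := Nat.cast_ne_zero.2 k.factorial_ne_zero
  rw [← h1, inv_mul_cancel_left₀ h2]

theorem ulog_nil {E : Module.End ℚ M} (hE : ∀ v, LU E v) {v : M} {m : ℕ}
    (hm : ((E - 1) ^ m) v = 0) : (ulog E ^ m) v = 0 := by
  refine ext_dual fun φ => ?_
  obtain ⟨p, hp⟩ := exP hE φ v
  have h1 := hp.ck hE m
  rw [hp.hi hm] at h1
  have h2 : (m.factorial : ℚ)⁻¹ ≠ 0 := inv_ne_zero (Nat.cast_ne_zero.2 m.factorial_ne_zero)
  rw [map_zero]
  exact (mul_eq_zero.1 h1.symm).resolve_left h2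

theorem eval_one_eq {D : Module.End ℚ M} {φ : Module.Dual ℚ M} {v : M} {p : ℚ[X]} {m : ℕ}
    (hm : (D ^ m) v = 0) (hp : ∀ k, p.coeff k = (k.factorial : ℚ)⁻¹ * φ ((D ^ k) v)) :
    p.eval 1 = φ (∑ k ∈ Finset.range (m + 1), ((k.factorial : ℚ)⁻¹) • (D ^ k) v) := by
  have h1 : p.natDegree < m + 1 := by
    refine Nat.lt_succ_of_le (natDegree_le_iff_coeff_eq_zero.2 fun k hk => ?_)
    rw [hp, pow_kill hm hk.le, map_zero, mul_zero]
  rw [eval_eq_sum_range' h1, map_sum]
  refine Finset.sum_congr rfl fun k _ => ?_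
  rw [hp, one_pow, mul_one, map_smul, smul_eq_mul]

theorem exp_ulog {E : Module.End ℚ M} (hE : ∀ v, LU E v) {v : M} {m : ℕ}
    (hm : (ulog E ^ m) v = 0) :
    E v = ∑ k ∈ Finset.range (m + 1), ((k.factorial : ℚ)⁻¹) • (ulog E ^ k) v := by
  refine ext_dual fun φ => ?_
  obtain ⟨p, hp⟩ := exP hE φ v
  rw [← eval_one_eq hm (hp.ck hE)]
  simpa using (hp 1).symm

theorem fix_iff {E : Module.End ℚ M} (hE : ∀ v, LU E v) (v : M) : E v = v ↔ ulog E v = 0 := by
  constructor
  · intro h
    have h1 : ((E - 1) ^ (1 : ℕ) : Module.End ℚ M) v = 0 := by simp [h]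
    simpa using ulog_nil hE h1
  · intro h
    have h1 : (ulog E ^ 1) v = 0 := by simpa using h
    rw [exp_ulog hE h1]
    simp [Finset.sum_range_succ, h]

theorem pow_mem {N : Module.End ℚ M} {U : Submodule ℚ M} (h : ∀ v ∈ U, N v ∈ U) (k : ℕ) {v : M}
    (hv : v ∈ U) : (N ^ k) v ∈ U := by
  induction k with
  | zero => simpa using hv
  | succ k ih => rw [pow_succ', Module.End.mul_apply]; exact h _ ih

theorem stable_iff {E : Module.End ℚ M} (hE : ∀ v, LU E v) (U : Submodule ℚ M) :
    (∀ v ∈ U, E v ∈ U) ↔ ∀ v ∈ U, ulog E v ∈ U := by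
  constructor
  · intro h v hv
    obtain ⟨m, hm⟩ := hE v
    rw [ulog_eq hE hm]
    refine U.sum_mem fun k _ => U.smul_mem _ (pow_mem (fun w hw => ?_) _ hv)
    exact U.sub_mem (h w hw) hw
  · intro h v hv
    obtain ⟨m, hm⟩ := hE v
    rw [exp_ulog hE (ulog_nil hE hm)]
    exact U.sum_mem fun k _ => U.smul_mem _ (pow_mem h _ hv)

theorem nat_iff {M' : Type} [AddCommGroup M'] [Module ℚ M'] {E : Module.End ℚ M}
    {E' : Module.End ℚ M'} (f : M →ₗ[ℚ] M') (hE : ∀ v, LU E v) (hE' : ∀ v, LU E' v) :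
    f.comp E = E'.comp f ↔ f.comp (ulog E) = (ulog E').comp f := by
  constructor
  · intro h
    exact LinearMap.ext fun v => ulog_nat hE hE' h v
  · intro h
    refine LinearMap.ext fun v => ?_
    obtain ⟨m, hm⟩ := hE v
    have h1 := ulog_nil hE hm
    have h2 : (ulog E' ^ m) (f v) = 0 := by rw [← comp_pow h, h1, map_zero]
    rw [LinearMap.comp_apply, LinearMap.comp_apply, exp_ulog hE h1, exp_ulog hE' h2, map_sum]
    refine Finset.sum_congr rfl fun k _ => ?_
    rw [map_smul, comp_pow h]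

theorem kill_add {A B : Module.End ℚ M} (h : Commute A B) {a b : ℕ} {v : M} (ha : (A ^ a) v = 0)
    (hb : (B ^ b) v = 0) : ((A + B) ^ (a + b)) v = 0 := by
  rw [h.add_pow', LinearMap.sum_apply]
  refine Finset.sum_eq_zero fun x hx => ?_
  have hx' : x.1 + x.2 = a + b := by simpa using hx
  rw [LinearMap.smul_apply]
  by_cases h1 : a ≤ x.1
  · rw [(h.pow_pow x.1 x.2).eq, Module.End.mul_apply, pow_kill ha h1, map_zero, smul_zero]
  · rw [Module.End.mul_apply, pow_kill hb (by omega), map_zero, smul_zero]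

theorem lu_mul {E F : Module.End ℚ M} (hE : ∀ v, LU E v) (hF : ∀ v, LU F v) (h : E * F = F * E)
    (v : M) : LU (E * F) v := by
  obtain ⟨a, ha⟩ := hE v
  obtain ⟨b, hb⟩ := hF v
  have hc : Commute F (E - 1) := (Commute.symm h).sub_right (Commute.one_right F)
  have h1 : E * F - 1 = F * (E - 1) + (F - 1) := by rw [h, mul_sub, mul_one, sub_add_sub_cancel]
  refine ⟨a + b, ?_⟩
  rw [h1]
  refine kill_add ?_ ?_ hb
  · exact (((Commute.refl F).mul_left hc.symm).sub_right (Commute.one_right _))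
  · rw [hc.mul_pow, Module.End.mul_apply, ha, map_zero]

theorem ulog_mul {E F : Module.End ℚ M} (hE : ∀ v, LU E v) (hF : ∀ v, LU F v)
    (h : E * F = F * E) : ulog (E * F) = ulog E + ulog F := by
  refine LinearMap.ext fun v => ext_dual fun φ => ?_
  obtain ⟨m, hm⟩ := hF v
  choose p hp using fun k : ℕ => exP hE φ (((F - 1) ^ k) v)
  have h1 : IsP (E * F) φ v (∑ k ∈ Finset.range (m + 1), bin k * p k) := fun n => by
    rw [Commute.mul_pow h, Module.End.mul_apply, pow_eq hm, map_sum, map_sum, eval_finsetSum]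
    refine Finset.sum_congr rfl fun k _ => ?_
    rw [eval_mul, bin_eval, hp k n, map_smul, map_smul, smul_eq_mul]
  rw [← h1.c1 (lu_mul hE hF h), finsetSum_coeff, Finset.sum_range_succ', bin_zero, one_mul,
    (hp 0).c1 hE, LinearMap.add_apply, map_add, ulog_eq hF hm, map_sum, add_comm]
  congr 1
  refine Finset.sum_congr rfl fun k _ => ?_
  rw [mul_coeff_one, bin_c0, bin_c1, (hp (k + 1)).c0, zero_mul, zero_add, map_smul, smul_eq_mul]

theorem lu_one (v : M) : LU (1 : Module.End ℚ M) v := ⟨1, by simp⟩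

theorem ulog_one : ulog (1 : Module.End ℚ M) = 0 :=
  LinearMap.ext fun v => (fix_iff lu_one v).1 rfl

theorem lu_inv {E F : Module.End ℚ M} (hE : ∀ v, LU E v) (h1 : E * F = 1) (h2 : F * E = 1)
    (v : M) : LU F v := by
  obtain ⟨m, hm⟩ := hE v
  have hc : Commute (-F) (E - 1) :=
    ((show Commute F E from h2.trans h1.symm).sub_right (Commute.one_right F)).neg_left
  have h3 : F - 1 = -F * (E - 1) := by rw [mul_sub, neg_mul, h2, mul_one]; abel
  exact ⟨m, by rw [h3, hc.mul_pow, Module.End.mul_apply, hm, map_zero]⟩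

theorem ulog_inv {E F : Module.End ℚ M} (hE : ∀ v, LU E v) (h1 : E * F = 1) (h2 : F * E = 1) :
    ulog F = -ulog E := by
  have h3 := ulog_mul hE (lu_inv hE h1 h2) (h1.trans h2.symm)
  rw [h1, ulog_one] at h3
  exact eq_neg_of_add_eq_zero_right h3.symm

section Exp

variable {E D : Module.End ℚ M} (hED : ∀ v, ∃ m : ℕ, (D ^ m) v = 0 ∧
  E v = ∑ k ∈ Finset.range m, ((k.factorial : ℚ)⁻¹) • (D ^ k) v)
include hED

theorem exp_form {v : M} {m : ℕ} (hm : (D ^ m) v = 0) :
    E v = ∑ k ∈ Finset.range (m + 1), ((k.factorial : ℚ)⁻¹) • (D ^ k) v := by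
  obtain ⟨m', h1, h2⟩ := hED v
  have h3 : ∀ s, s ≤ m + m' + 1 → (D ^ s) v = 0 →
      ∑ k ∈ Finset.range s, ((k.factorial : ℚ)⁻¹) • (D ^ k) v =
        ∑ k ∈ Finset.range (m + m' + 1), ((k.factorial : ℚ)⁻¹) • (D ^ k) v := by
    intro s hs h
    refine Finset.sum_subset (Finset.range_mono hs) fun k _ hk => ?_
    rw [pow_kill h (by simpa using hk), smul_zero]
  rw [h2, h3 m' (by omega) h1, h3 (m + 1) (by omega) (pow_kill hm (by omega))]

theorem exp_comm (j : ℕ) (v : M) : E ((D ^ j) v) = (D ^ j) (E v) := by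
  obtain ⟨m, hm, -⟩ := hED v
  have h1 : (D ^ m) ((D ^ j) v) = 0 := by
    rw [← Module.End.mul_apply, ← pow_add]; exact pow_kill hm (by omega)
  rw [exp_form hED h1, exp_form hED hm, map_sum]
  refine Finset.sum_congr rfl fun k _ => ?_
  rw [map_smul, ← Module.End.mul_apply, ← Module.End.mul_apply, ← pow_add, ← pow_add, add_comm]

theorem exp_lu (m : ℕ) : ∀ v : M, (D ^ m) v = 0 → ((E - 1) ^ m) v = 0 := by
  induction m with
  | zero => intro v hv; simpa using hv
  | succ m ih =>
    intro v hv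
    rw [pow_succ, Module.End.mul_apply]
    apply ih
    have h1 : D ((D ^ m) v) = 0 := by rw [← Module.End.mul_apply, ← pow_succ']; exact hv
    have h2 : E ((D ^ m) v) = (D ^ m) v := by
      rw [exp_form hED (m := 1) (by simpa using h1)]
      simp [Finset.sum_range_succ, h1]
    rw [LinearMap.sub_apply, map_sub, ← exp_comm hED, h2, Module.End.one_apply, sub_self]

theorem exp_isP (φ : Module.Dual ℚ M) (n : ℕ) : ∀ (v : M) (q : ℚ[X]),
    (∀ k, q.coeff k = (k.factorial : ℚ)⁻¹ * φ ((D ^ k) v)) → q.eval (n : ℚ) = φ ((E ^ n) v) := by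
  induction n with
  | zero =>
    intro v q hq
    rw [Nat.cast_zero, ← coeff_zero_eq_eval_zero, hq]
    simp
  | succ n ih =>
    intro v q hq
    rw [Nat.cast_succ, ← taylor_eval, pow_succ, Module.End.mul_apply]
    refine ih _ _ fun j => ?_
    obtain ⟨m, hm, -⟩ := hED ((D ^ j) v)
    have hj : (j.factorial : ℚ) ≠ 0 := Nat.cast_ne_zero.2 j.factorial_ne_zero
    have h1 : ∀ k, (derivative^[j] q).coeff k = (k.factorial : ℚ)⁻¹ * φ ((D ^ k) ((D ^ j) v)) := by
      intro k
      rw [coeff_iterate_derivative, hq, nsmul_eq_mul, ← Module.End.mul_apply, ← pow_add,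
        ← mul_assoc]
      congr 1
      have h2 : ((k + j).factorial : ℚ) = k.factorial * ((k + j).descFactorial j : ℕ) := by
        have := Nat.factorial_mul_descFactorial (n := k + j) (k := j) (by omega)
        rw [Nat.add_sub_cancel] at this
        exact_mod_cast this.symm
      have h3 : (k.factorial : ℚ) ≠ 0 := Nat.cast_ne_zero.2 k.factorial_ne_zero
      have h4 : (((k + j).descFactorial j : ℕ) : ℚ) ≠ 0 := by
        intro h0
        rw [h0, mul_zero] at h2
        exact Nat.cast_ne_zero.2 (k + j).factorial_ne_zero h2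
      rw [h2]
      field_simp
    have h5 := eval_one_eq hm h1
    rw [← exp_form hED hm, exp_comm hED, ← factorial_smul_hasseDeriv, LinearMap.smul_apply,
      eval_smul, nsmul_eq_mul] at h5
    rw [taylor_coeff, ← h5, inv_mul_cancel_left₀ hj]

theorem exp_log : (∀ v, LU E v) ∧ ulog E = D := by
  have hE : ∀ v, LU E v := fun v => by
    obtain ⟨m, hm, -⟩ := hED v
    exact ⟨m, exp_lu hED m v hm⟩
  refine ⟨hE, LinearMap.ext fun v => ext_dual fun φ => ?_⟩
  obtain ⟨m, hm, -⟩ := hED v
  have h1 : ∀ k, (∑ i ∈ Finset.range m,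
      monomial i ((i.factorial : ℚ)⁻¹ * φ ((D ^ i) v))).coeff k =
        (k.factorial : ℚ)⁻¹ * φ ((D ^ k) v) := by
    intro k
    rw [finsetSum_coeff]
    simp only [coeff_monomial, Finset.sum_ite_eq', Finset.mem_range]
    split_ifs with h
    · rfl
    · rw [pow_kill hm (not_lt.1 h), map_zero, mul_zero]
  have h2 : IsP E φ v _ := fun n => exp_isP hED φ n v _ h1
  rw [← h2.c1 hE, h1]
  simp

end Exp

theorem ulog_rel {E Y Z : Module.End ℚ M} (hE : ∀ v, LU E v) (h1 : E * Y = (Y + Z) * E)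
    (h2 : E * Z = Z * E) : ulog E * Y - Y * ulog E = Z := by
  have h3 : ∀ n : ℕ, E ^ n * Y = (Y + (n : ℚ) • Z) * E ^ n := by
    intro n
    induction n with
    | zero => simp
    | succ n ih =>
      rw [pow_succ', mul_assoc, ih, ← mul_assoc, mul_add, h1, mul_smul_comm, h2, ← mul_assoc,
        Nat.cast_succ, add_smul, one_smul]
      congr 1
      simp only [add_mul, smul_mul_assoc]
      abel
  refine LinearMap.ext fun v => ext_dual fun φ => ?_
  obtain ⟨p, hp⟩ := exP hE (φ.comp Y) v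
  obtain ⟨q, hq⟩ := exP hE (φ.comp Z) v
  have h4 : IsP E φ (Y v) (p + X * q) := fun n => by
    rw [eval_add, eval_mul, eval_X, hp n, hq n, ← Module.End.mul_apply (E ^ n), h3]
    simp
  have h5 := h4.c1 hE
  rw [coeff_add, hp.c1 hE, coeff_X_mul, hq.c0] at h5
  simp only [LinearMap.sub_apply, Module.End.mul_apply, map_sub, ← h5, LinearMap.comp_apply]
  ring

end Log

section Mat

variable {ι : Type} [Fintype ι] [DecidableEq ι]

theorem elem_self (a : ι) : elem a a = 1 := by simp [elem]

theorem elem_val {a b : ι} (h : a ≠ b) : (elem a b).val = 1 + single a b 1 := by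
  simp [elem, h]

theorem elem_inv_val {a b : ι} (h : a ≠ b) : ((elem a b)⁻¹).val = 1 - single a b 1 := by
  simp [elem, h]

theorem elem_comm {a b c d : ι} (h1 : b ≠ c) (h2 : a ≠ d) :
    elem a b * elem c d = elem c d * elem a b := by
  by_cases hab : a = b
  · rw [hab, elem_self, one_mul, mul_one]
  by_cases hcd : c = d
  · rw [hcd, elem_self, one_mul, mul_one]
  apply Units.ext
  simp only [Units.val_mul, elem_val hab, elem_val hcd, add_mul, mul_add, one_mul, mul_one,
    single_mul_single_of_ne _ _ _ _ h1, single_mul_single_of_ne _ _ _ _ h2.symm]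
  abel

theorem elem_rel1 {a b c : ι} (hab : a ≠ b) (hbc : b ≠ c) (hac : a ≠ c) :
    elem a b * elem b c = elem b c * elem a c * elem a b := by
  apply Units.ext
  simp only [Units.val_mul, elem_val hab, elem_val hbc, elem_val hac, add_mul, mul_add, one_mul,
    mul_one, single_mul_single_of_ne _ _ _ _ hac.symm, single_mul_single_same, add_zero]
  abel

theorem elem_rel2 {a b c : ι} (hab : a ≠ b) (hbc : b ≠ c) (hac : a ≠ c) :
    elem a b * elem c a = elem c a * (elem c b)⁻¹ * elem a b := by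
  apply Units.ext
  simp only [Units.val_mul, elem_val hab, elem_val hac.symm, elem_inv_val hbc.symm, add_mul,
    mul_add, mul_sub, sub_mul, one_mul, mul_one, single_mul_single_of_ne _ _ _ _ hac,
    single_mul_single_of_ne _ _ _ _ hbc, single_mul_single_of_ne _ _ _ _ hab.symm,
    single_mul_single_same, add_zero, sub_zero]
  abel

theorem sgn_val (c : ι) : (sgn c).val = diagonal fun a => if a = c then (-1 : ℤ) else 1 := rfl

theorem sgn_inv_val (c : ι) :
    ((sgn c)⁻¹).val = diagonal fun a => if a = c then (-1 : ℤ) else 1 := rfl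

theorem diag_single (d : ι → ℤ) (a b : ι) (x : ℤ) :
    diagonal d * single a b x = single a b (d a * x) := by
  ext i j
  rw [diagonal_mul]
  simp only [single, of_apply]
  split_ifs with h
  · rw [h.1]
  · rw [mul_zero]

theorem single_diag (d : ι → ℤ) (a b : ι) (x : ℤ) :
    single a b x * diagonal d = single a b (x * d b) := by
  ext i j
  rw [mul_diagonal]
  simp only [single, of_apply]
  split_ifs with h
  · rw [h.2]
  · rw [zero_mul]

theorem sgn_elem_pos {a b c : ι} (h : a = c ↔ b = c) : sgn c * elem a b = elem a b * sgn c := by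
  by_cases hab : a = b
  · rw [hab, elem_self, one_mul, mul_one]
  apply Units.ext
  simp only [Units.val_mul, elem_val hab, sgn_val, add_mul, mul_add, one_mul, mul_one,
    diag_single, single_diag, h]

theorem sgn_elem_neg {a b c : ι} (h : ¬ (a = c ↔ b = c)) :
    sgn c * elem a b = (elem a b)⁻¹ * sgn c := by
  have hab : a ≠ b := fun e => h (by rw [e])
  apply Units.ext
  simp only [Units.val_mul, elem_val hab, elem_inv_val hab, sgn_val, mul_add, one_mul,
    mul_one, diag_single, single_diag, sub_eq_add_neg, add_mul, neg_mul, single_neg]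
  congr 2
  by_cases h1 : a = c <;> by_cases h2 : b = c <;> simp_all

variable {M : Type} [AddCommGroup M] [Module ℚ M] {ρ : Representation ℚ (GL ι ℤ) M}

theorem rep_inv1 (g : GL ι ℤ) : ρ g * ρ g⁻¹ = 1 := by rw [← map_mul, mul_inv_cancel, map_one]

theorem rep_inv2 (g : GL ι ℤ) : ρ g⁻¹ * ρ g = 1 := by rw [← map_mul, inv_mul_cancel, map_one]

theorem conj_ulog {g e e' : GL ι ℤ} (he : ∀ v, LU (ρ e) v) (he' : ∀ v, LU (ρ e') v)
    (h : g * e = e' * g) : ρ g * ulog (ρ e) = ulog (ρ e') * ρ g := by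
  refine LinearMap.ext fun v => ulog_nat (f := ρ g) he he' ?_ v
  change ρ g * ρ e = ρ e' * ρ g
  rw [← map_mul, ← map_mul, h]

theorem conj_comm (hρ : Unip ρ) {a b c d : ι} (h1 : b ≠ c) (h2 : a ≠ d) :
    ρ (elem a b) * Xop ρ c d = Xop ρ c d * ρ (elem a b) :=
  conj_ulog (hρ c d) (hρ c d) (elem_comm h1 h2)

theorem conj_rel1 (hρ : Unip ρ) {a b c : ι} (hab : a ≠ b) (hbc : b ≠ c) (hac : a ≠ c) :
    ρ (elem a b) * Xop ρ b c = (Xop ρ b c + Xop ρ a c) * ρ (elem a b) := by
  have h1 : ρ (elem b c) * ρ (elem a c) = ρ (elem a c) * ρ (elem b c) := by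
    rw [← map_mul, ← map_mul, elem_comm hac.symm hbc]
  have h2 : ∀ v, LU (ρ (elem b c * elem a c)) v := by
    rw [map_mul]; exact lu_mul (hρ b c) (hρ a c) h1
  have h3 := conj_ulog (hρ b c) h2 (elem_rel1 hab hbc hac)
  rw [map_mul, ulog_mul (hρ b c) (hρ a c) h1] at h3
  exact h3

theorem conj_rel2 (hρ : Unip ρ) {a b c : ι} (hab : a ≠ b) (hbc : b ≠ c) (hac : a ≠ c) :
    ρ (elem a b) * Xop ρ c a = (Xop ρ c a - Xop ρ c b) * ρ (elem a b) := by
  have h0 : Commute (elem c a) (elem c b) := elem_comm hac hbc.symm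
  have h1 : ρ (elem c a) * ρ (elem c b)⁻¹ = ρ (elem c b)⁻¹ * ρ (elem c a) := by
    rw [← map_mul, ← map_mul, h0.inv_right.eq]
  have hi := lu_inv (hρ c b) (rep_inv1 (elem c b)) (rep_inv2 (elem c b))
  have h2 : ∀ v, LU (ρ (elem c a * (elem c b)⁻¹)) v := by
    rw [map_mul]; exact lu_mul (hρ c a) hi h1
  have h3 := conj_ulog (hρ c a) h2 (elem_rel2 hab hbc hac)
  rw [map_mul, ulog_mul (hρ c a) hi h1,
    ulog_inv (hρ c b) (rep_inv1 (elem c b)) (rep_inv2 (elem c b)), ← sub_eq_add_neg] at h3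
  exact h3

end Mat

section Emb

variable {X Y : Ob} (e : Y.ι ↪ X.ι)

theorem emb_out {a b : X.ι} (ha : a ∉ Set.range e) (hb : b ∉ Set.range e) :
    (Mor.ofGL (elem a b)).comp (Mor.emb e) = Mor.emb e := by
  by_cases hab : a = b
  · rw [hab, elem_self]
    ext <;> simp [Mor.ofGL, Mor.comp]
  have ha' : ∀ y, e y ≠ a := fun y h => ha ⟨y, h⟩
  have hb' : ∀ y, e y ≠ b := fun y h => hb ⟨y, h⟩
  apply Mor.ext
  · change (elem a b).val * (Mor.emb e).i = (Mor.emb e).i
    rw [elem_val hab, Matrix.add_mul, Matrix.one_mul, add_eq_left]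
    ext x y
    by_cases hx : x = a
    · rw [hx, single_mul_apply_same]; simp [Mor.emb, hb']
    · rw [single_mul_apply_of_ne _ _ _ _ _ hx]; rfl
  · change (Mor.emb e).r * ((elem a b)⁻¹).val = (Mor.emb e).r
    rw [elem_inv_val hab, Matrix.mul_sub, Matrix.mul_one, sub_eq_self]
    ext y x
    by_cases hx : x = b
    · rw [hx, mul_single_apply_same]; simp [Mor.emb, ha']
    · rw [mul_single_apply_of_ne _ _ _ _ _ hx]; rfl

theorem emb_sgn {c : X.ι} (hc : c ∉ Set.range e) :
    (Mor.ofGL (sgn c)).comp (Mor.emb e) = Mor.emb e := by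
  have hc' : ∀ y, e y ≠ c := fun y h => hc ⟨y, h⟩
  apply Mor.ext
  · change (sgn c).val * (Mor.emb e).i = (Mor.emb e).i
    ext x y
    rw [sgn_val, diagonal_mul]
    by_cases hx : x = c
    · simp [Mor.emb, hx, hc']
    · simp [hx]
  · change (Mor.emb e).r * ((sgn c)⁻¹).val = (Mor.emb e).r
    ext y x
    rw [sgn_inv_val, mul_diagonal]
    by_cases hx : x = c
    · simp [Mor.emb, hx, hc']
    · simp [hx]

theorem emb_in (a b : Y.ι) : (Mor.ofGL (elem (e a) (e b))).comp (Mor.emb e) =
    (Mor.emb e).comp (Mor.ofGL (elem a b)) := by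
  by_cases hab : a = b
  · rw [hab, elem_self, elem_self]
    ext <;> simp [Mor.ofGL, Mor.comp]
  have hab' : e a ≠ e b := e.injective.ne hab
  apply Mor.ext
  · change (elem (e a) (e b)).val * (Mor.emb e).i = (Mor.emb e).i * (elem a b).val
    rw [elem_val hab, elem_val hab', Matrix.add_mul, Matrix.one_mul, Matrix.mul_add,
      Matrix.mul_one, add_right_inj]
    ext x y
    by_cases hx : x = e a <;> by_cases hy : y = b
    · rw [hx, hy, single_mul_apply_same, mul_single_apply_same]; simp [Mor.emb]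
    · rw [hx, single_mul_apply_same, mul_single_apply_of_ne _ _ _ _ _ hy]; simp [Mor.emb, hy]
    · rw [hy, single_mul_apply_of_ne _ _ _ _ _ hx, mul_single_apply_same]
      simp [Mor.emb, Ne.symm hx]
    · rw [single_mul_apply_of_ne _ _ _ _ _ hx, mul_single_apply_of_ne _ _ _ _ _ hy]
  · change (Mor.emb e).r * ((elem (e a) (e b))⁻¹).val = ((elem a b)⁻¹).val * (Mor.emb e).r
    rw [elem_inv_val hab, elem_inv_val hab', Matrix.mul_sub, Matrix.mul_one, Matrix.sub_mul,
      Matrix.one_mul, sub_right_inj]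
    ext y x
    by_cases hx : x = e b <;> by_cases hy : y = a
    · rw [hx, hy, single_mul_apply_same, mul_single_apply_same]; simp [Mor.emb]
    · rw [hx, mul_single_apply_same, single_mul_apply_of_ne _ _ _ _ _ hy]; simp [Mor.emb, hy]
    · rw [hy, mul_single_apply_of_ne _ _ _ _ _ hx, single_mul_apply_same]
      simp [Mor.emb, Ne.symm hx]
    · rw [single_mul_apply_of_ne _ _ _ _ _ hy, mul_single_apply_of_ne _ _ _ _ _ hx]

theorem emb_emb {Z : Ob} (e' : Z.ι ↪ Y.ι) :
    (Mor.emb e).comp (Mor.emb e') = Mor.emb (e'.trans e) := by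
  apply Mor.ext
  · ext x z
    simp [Mor.emb, Mor.comp, Matrix.mul_apply]
  · ext z x
    simp only [Mor.emb, Mor.comp, Matrix.mul_apply, of_apply, ite_mul, one_mul, zero_mul,
      Finset.sum_ite_eq, Finset.mem_univ, if_true, Function.Embedding.trans_apply]

end Emb

end R1

theorem p_log : S_log := by
  intro M _ _
  refine ⟨fun E hE => ⟨fun v => ?_, R1.fix_iff hE, R1.stable_iff hE,
    fun M' _ _ E' f hE' => R1.nat_iff f hE hE',
    fun F hF h => ⟨R1.lu_mul hE hF h, R1.ulog_mul hE hF h⟩,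
    fun F h1 h2 => ⟨R1.lu_inv hE h1 h2, R1.ulog_inv hE h1 h2⟩⟩, fun E D h => R1.exp_log h⟩
  obtain ⟨m, hm⟩ := hE v
  exact ⟨m, R1.ulog_nil hE hm⟩

theorem p_isSl : S_isSl := by
  intro ι M _ _ _ _ ρ hρ
  refine ⟨⟨fun a => ?_, fun a b c hab hbc hac => ?_, fun a b c d h1 h2 => ?_, fun a b v => ?_⟩,
    fun a b c => ?_,
    fun a b c hab hbc hac => ⟨R1.conj_rel1 hρ hab hbc hac, R1.conj_rel2 hρ hab hbc hac⟩,
    fun a b c d h1 h2 => R1.conj_comm hρ h1 h2⟩
  · rw [Xop, R1.elem_self, map_one, R1.ulog_one]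
  · exact R1.ulog_rel (hρ a b) (R1.conj_rel1 hρ hab hbc hac) (R1.conj_comm hρ hab.symm hac)
  · exact (R1.ulog_comm (hρ a b) (R1.conj_comm hρ h1 h2).symm).symm
  · obtain ⟨m, hm⟩ := hρ a b v
    exact ⟨m, R1.ulog_nil (hρ a b) hm⟩
  · split_ifs with h
    · rw [one_smul]
      exact R1.conj_ulog (hρ a b) (hρ a b) (R1.sgn_elem_pos h)
    · have hi := R1.lu_inv (hρ a b) (R1.rep_inv1 (elem a b)) (R1.rep_inv2 (elem a b))
      have h3 := R1.conj_ulog (hρ a b) hi (R1.sgn_elem_neg h)
      rw [R1.ulog_inv (hρ a b) (R1.rep_inv1 (elem a b)) (R1.rep_inv2 (elem a b)), neg_mul] at h3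
      rw [neg_smul, one_smul]
      exact h3

theorem p_emb : S_emb := by
  intro A X Y e hX
  have key : ∀ a b, (A.map (Mor.emb e)).comp (A.rep Y (elem a b)) =
      (A.rep X (elem (e a) (e b))).comp (A.map (Mor.emb e)) := fun a b =>
    ((A.map_comp _ _).symm.trans (congrArg A.map (R1.emb_in e a b).symm)).trans (A.map_comp _ _)
  refine ⟨fun a b ha hb => ?_, fun c hc => ?_, fun hY a b => ?_, fun a b => ?_,
    fun Z e' => R1.emb_emb e e'⟩
  · refine LinearMap.ext fun v => (R1.fix_iff (hX a b) _).1 ?_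
    exact LinearMap.congr_fun
      ((A.map_comp _ _).symm.trans (congrArg A.map (R1.emb_out e ha hb))) v
  · exact (A.map_comp _ _).symm.trans (congrArg A.map (R1.emb_sgn e hc))
  · exact ((R1.nat_iff _ (hY a b) (hX (e a) (e b))).1 (key a b)).symm
  · refine (R1.stable_iff (hX (e a) (e b)) _).1 ?_
    rintro _ ⟨w, rfl⟩
    exact ⟨_, LinearMap.congr_fun (key a b) w⟩

end Pool.Agent.Lib.MP_49df17_al
end

-- part Pool.Agent.Lib.MP_49df17_al.R2
section

/-!
Reordering of monomials in a Lie algebra of operators, the relations of `sl`, and local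
finiteness of unipotent representations of `GL(ι, ℤ)`.
-/

namespace Pool.Agent.Lib.MP_49df17_al

namespace JR2

section PBW

variable {M : Type} [AddCommGroup M] [Module ℚ M]

/-- The span of the words of length less than `m` in letters of `S` applied to `W`. -/
def G (S : Set (Module.End ℚ M)) (W : Submodule ℚ M) (m : ℕ) : Submodule ℚ M :=
  Submodule.span ℚ {u | ∃ l : List (Module.End ℚ M), (∀ x ∈ l, x ∈ S) ∧ l.length < m ∧
    ∃ w ∈ W, u = l.prod w}

variable {S : Set (Module.End ℚ M)} {W : Submodule ℚ M}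

theorem mem_G {m : ℕ} {l : List (Module.End ℚ M)} (hl : ∀ x ∈ l, x ∈ S) (hm : l.length < m)
    {w : M} (hw : w ∈ W) : l.prod w ∈ G S W m :=
  Submodule.subset_span ⟨l, hl, hm, w, hw, rfl⟩

theorem G_le {m : ℕ} {T : Submodule ℚ M}
    (h : ∀ l : List (Module.End ℚ M), (∀ x ∈ l, x ∈ S) → l.length < m →
      ∀ w ∈ W, l.prod w ∈ T) : G S W m ≤ T :=
  Submodule.span_le.2 (by
    rintro _ ⟨l, hl, hm, w, hw, rfl⟩
    exact h l hl hm w hw)

theorem G_mono {m n : ℕ} (h : m ≤ n) : G S W m ≤ G S W n :=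
  G_le fun _ hl hm _ hw => mem_G hl (lt_of_lt_of_le hm h) hw

theorem apply_mem_G {m : ℕ} {x : Module.End ℚ M} (hx : x ∈ Submodule.span ℚ S) {u : M}
    (hu : u ∈ G S W m) : x u ∈ G S W (m + 1) := by
  induction hx using Submodule.span_induction with
  | mem y hy =>
    have : G S W m ≤ (G S W (m + 1)).comap y := G_le fun l hl hm w hw => by
      have h2 : (y :: l).prod w ∈ G S W (m + 1) :=
        mem_G (by
          intro z hz
          rcases List.mem_cons.1 hz with rfl | hz
          · exact hy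
          · exact hl z hz) (by simpa using hm) hw
      simpa using h2
    exact this hu
  | zero => simp
  | add y z _ _ hy hz => simpa using add_mem hy hz
  | smul c y _ hy => simpa using Submodule.smul_mem _ c hy

theorem perm_sub_mem (hS : ∀ x ∈ S, ∀ y ∈ S, x * y - y * x ∈ Submodule.span ℚ S)
    {l l' : List (Module.End ℚ M)} (h : l.Perm l') (hl : ∀ x ∈ l, x ∈ S) {w : M} (hw : w ∈ W) :
    l.prod w - l'.prod w ∈ G S W l.length := by
  induction h with
  | nil => simp
  | cons x _ ih =>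
    have h1 := ih fun z hz => hl z (List.mem_cons_of_mem _ hz)
    have h2 := apply_mem_G (Submodule.subset_span (hl x List.mem_cons_self)) h1
    simpa using h2
  | swap x y l =>
    have hx : x ∈ S := hl x (by simp)
    have hy : y ∈ S := hl y (by simp)
    have h1 : l.prod w ∈ G S W (l.length + 1) :=
      mem_G (fun z hz => hl z (by simp [hz])) (Nat.lt_succ_self _) hw
    have h2 := apply_mem_G (hS y hy x hx) h1
    simpa using h2
  | trans h1 _ ih1 ih2 =>
    have h3 := ih1 hl
    have h4 := ih2 fun z hz => hl z (h1.symm.subset hz)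
    rw [← h1.length_eq] at h4
    simpa using add_mem h3 h4

theorem genBy_le_iSup {g : Set (Module.End ℚ M)} (hg : ∀ x ∈ g, x ∈ Submodule.span ℚ S) :
    genBy g W ≤ ⨆ m, G S W m := by
  refine genBy_le ?_ ?_
  · intro w hw
    have : ([] : List (Module.End ℚ M)).prod w ∈ G S W 1 := mem_G (by simp) (by simp) hw
    exact le_iSup (G S W) 1 (by simpa using this)
  · intro x hx v hv
    have : (⨆ m, G S W m) ≤ (⨆ m, G S W m).comap x :=
      iSup_le fun m u hu => le_iSup (G S W) (m + 1) (apply_mem_G (hg x hx) hu)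
    exact this hv

theorem prod_mem_genBy {a : Set (Module.End ℚ M)} {l : List (Module.End ℚ M)}
    (hl : ∀ x ∈ l, x ∈ a) {v : M} (hv : v ∈ genBy a W) : l.prod v ∈ genBy a W := by
  induction l with
  | nil => simpa using hv
  | cons x l ih =>
    have := genBy_stable (hl x List.mem_cons_self) (ih fun z hz => hl z (List.mem_cons_of_mem _ hz))
    simpa using this

theorem fg_G (s : Finset (Module.End ℚ M)) (hW : W.FG) (m : ℕ) :
    (G (s : Set (Module.End ℚ M)) W m).FG := by
  induction m with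
  | zero =>
    have : G (s : Set (Module.End ℚ M)) W 0 = ⊥ :=
      le_bot_iff.1 (G_le fun l _ hm => absurd hm (Nat.not_lt_zero _))
    rw [this]; exact Submodule.fg_bot
  | succ m ih =>
    have hT : (W ⊔ s.sup fun x => (G (s : Set (Module.End ℚ M)) W m).map x).FG :=
      hW.sup (Submodule.fg_finset_sup _ _ fun x _ => ih.map x)
    have hle : G (s : Set (Module.End ℚ M)) W (m + 1) ≤
        W ⊔ s.sup fun x => (G (s : Set (Module.End ℚ M)) W m).map x := by
      refine G_le fun l hl hm w hw => ?_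
      cases l with
      | nil => exact Submodule.mem_sup_left (by simpa using hw)
      | cons x l =>
        refine Submodule.mem_sup_right ?_
        have hx : x ∈ s := hl x List.mem_cons_self
        have h1 : l.prod w ∈ G (s : Set (Module.End ℚ M)) W m :=
          mem_G (fun z hz => hl z (List.mem_cons_of_mem _ hz)) (by simpa using hm) hw
        exact Finset.le_sup (f := fun x => (G (s : Set (Module.End ℚ M)) W m).map x) hx
          ⟨_, h1, by simp⟩
    have : Module.Finite ℚ
        (W ⊔ s.sup fun x => (G (s : Set (Module.End ℚ M)) W m).map x : Submodule ℚ M) :=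
      Module.Finite.iff_fg.2 hT
    exact Module.Finite.iff_fg.1 (Submodule.finiteDimensional_of_le hle)

end PBW

section Sl

variable {ι M : Type} [AddCommGroup M] [Module ℚ M]

/-- The commutator of two operators. -/
def br (x y : Module.End ℚ M) : Module.End ℚ M := x * y - y * x

theorem br_left (x y z : Module.End ℚ M) : br (br x y) z = br x (br y z) - br y (br x z) := by
  simp only [br]; noncomm_ring

theorem br_right (x y z : Module.End ℚ M) : br x (br y z) = br (br x y) z + br y (br x z) := by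
  simp only [br]; noncomm_ring

theorem br_skew (x y : Module.End ℚ M) : br x y = -br y x := by
  simp only [br]; noncomm_ring

@[simp] theorem br_zero_left (x : Module.End ℚ M) : br 0 x = 0 := by simp [br]
@[simp] theorem br_zero_right (x : Module.End ℚ M) : br x 0 = 0 := by simp [br]
@[simp] theorem br_neg_left (x y : Module.End ℚ M) : br (-x) y = -br x y := by
  simp only [br]; noncomm_ring
@[simp] theorem br_neg_right (x y : Module.End ℚ M) : br x (-y) = -br x y := by
  simp only [br]; noncomm_ring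
theorem br_add_left (x y z : Module.End ℚ M) : br (x + y) z = br x z + br y z := by
  simp only [br]; noncomm_ring
theorem br_add_right (x y z : Module.End ℚ M) : br x (y + z) = br x y + br x z := by
  simp only [br]; noncomm_ring
theorem br_sub_right (x y z : Module.End ℚ M) : br x (y - z) = br x y - br x z := by
  simp only [br]; noncomm_ring
theorem br_smul_left (c : ℚ) (x y : Module.End ℚ M) : br (c • x) y = c • br x y := by
  simp [br, smul_sub]
theorem br_smul_right (c : ℚ) (x y : Module.End ℚ M) : br x (c • y) = c • br x y := by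
  simp [br, smul_sub]

variable {X : ι → ι → Module.End ℚ M}

theorem Hop_eq (a b : ι) : Hop X a b = br (X a b) (X b a) := rfl

theorem Hop_skew (a b : ι) : Hop X b a = -Hop X a b := br_skew _ _

theorem Hop_self (a : ι) : Hop X a a = 0 := sub_self _

theorem rel (h : IsSl X) {a b c : ι} (h1 : a ≠ b) (h2 : b ≠ c) (h3 : a ≠ c) :
    br (X a b) (X b c) = X a c := h.rel a b c h1 h2 h3

theorem rel' (h : IsSl X) {a b c : ι} (h1 : a ≠ b) (h2 : b ≠ c) (h3 : a ≠ c) :
    br (X b c) (X a b) = -X a c := by rw [br_skew, rel h h1 h2 h3]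

theorem com (h : IsSl X) {a b c d : ι} (h1 : b ≠ c) (h2 : a ≠ d) :
    br (X a b) (X c d) = 0 := sub_eq_zero.2 (h.comm a b c d h1 h2)

theorem H_out (h : IsSl X) {a b c d : ι} (h1 : a ≠ c) (h2 : a ≠ d) (h3 : b ≠ c) (h4 : b ≠ d) :
    br (Hop X a b) (X c d) = 0 := by
  rw [Hop_eq, br_left, com h h1 h4, com h h3 h2]; simp

theorem H_row (h : IsSl X) {a b d : ι} (h1 : a ≠ b) (h2 : a ≠ d) (h3 : b ≠ d) :
    br (Hop X a b) (X a d) = X a d := by
  rw [Hop_eq, br_left, rel h h1.symm h2 h3, rel h h1 h3 h2, com h h1.symm h2]; simp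

theorem H_col (h : IsSl X) {a b c : ι} (h1 : a ≠ b) (h2 : a ≠ c) (h3 : b ≠ c) :
    br (Hop X a b) (X c a) = -X c a := by
  rw [Hop_eq, br_left, com h h2 h1.symm, rel' h h2.symm h1 h3.symm, br_neg_right,
    rel' h h3.symm h1.symm h2.symm]
  simp

theorem exists_third [Fintype ι] (h3 : 3 ≤ Fintype.card ι) (a b : ι) : ∃ e, e ≠ a ∧ e ≠ b := by
  classical
  by_contra hcon
  push Not at hcon
  have hsub : (Finset.univ : Finset ι) ⊆ {a, b} := by
    intro e _
    by_cases he : e = a
    · simp [he]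
    · simp [hcon e he]
  have := (Finset.card_le_card hsub).trans Finset.card_le_two
  rw [Finset.card_univ] at this
  omega

theorem H_same [Fintype ι] (h : IsSl X) (h3 : 3 ≤ Fintype.card ι) {a b : ι} (h1 : a ≠ b) :
    br (Hop X a b) (X a b) = (2 : ℚ) • X a b := by
  obtain ⟨e, hea, heb⟩ := exists_third h3 a b
  have e1 : br (Hop X a b) (X a e) = X a e := H_row h h1 hea.symm heb.symm
  have e2 : br (Hop X a b) (X e b) = X e b := by
    rw [Hop_skew b a, br_neg_left, H_col h h1.symm heb.symm hea.symm, neg_neg]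
  have e3 := rel h hea.symm heb h1
  rw [two_smul]
  conv_lhs => rw [← e3, br_right, e1, e2, e3]

theorem H_X [Fintype ι] [DecidableEq ι] (h : IsSl X) (h3 : 3 ≤ Fintype.card ι) (a b c d : ι) :
    br (Hop X a b) (X c d) =
      (((Pi.single c 1 - Pi.single d 1 : ι → ℤ) a - (Pi.single c 1 - Pi.single d 1 : ι → ℤ) b :
        ℤ) : ℚ) • X c d := by
  by_cases hcd : c = d
  · subst hcd; simp [h.diag]
  by_cases hab : a = b
  · subst hab; simp [Hop_self]
  have hba : b ≠ a := Ne.symm hab
  have hdc : d ≠ c := Ne.symm hcd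
  by_cases hac : a = c
  · subst hac
    by_cases hbd : b = d
    · subst hbd
      rw [H_same h h3 hab]
      simp [hab, hba]
    · rw [H_row h hab hcd hbd]
      simp [hba, hcd, hbd]
  by_cases hbc : b = c
  · subst hbc
    by_cases had : a = d
    · subst had
      rw [Hop_skew b a, br_neg_left, H_same h h3 hba]
      simp [hab, hba]
    · rw [Hop_skew b a, br_neg_left, H_row h hba hcd had]
      simp [hab, hcd, had]
  by_cases had : a = d
  · subst had
    rw [H_col h hab hac hbc]
    simp [hac, hbc, hba]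
  by_cases hbd : b = d
  · subst hbd
    rw [Hop_skew b a, br_neg_left, H_col h hba hbc hac]
    simp [hac, hbc, hab]
  rw [H_out h hac had hbc hbd]
  simp [hac, hbc, had, hbd]

theorem H_add (h : IsSl X) (a b c : ι) : Hop X a b + Hop X b c = Hop X a c := by
  by_cases hab : a = b
  · subst hab; simp [Hop_self]
  by_cases hbc : b = c
  · subst hbc; simp [Hop_self]
  by_cases hac : a = c
  · subst hac; rw [Hop_skew a b, Hop_self]; simp
  rw [Hop_eq a c, ← rel h hab hbc hac, br_left, rel h hbc (Ne.symm hac) (Ne.symm hab),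
    rel' h (Ne.symm hac) hab (Ne.symm hbc), br_neg_right, sub_neg_eq_add, Hop_eq, Hop_eq]

theorem H_H [Fintype ι] [DecidableEq ι] (h : IsSl X) (h3 : 3 ≤ Fintype.card ι) (a b c d : ι) :
    br (Hop X a b) (Hop X c d) = 0 := by
  rw [Hop_eq c d, br_right, H_X h h3, H_X h h3, br_smul_left, br_smul_right, ← add_smul]
  have : ((((Pi.single c 1 - Pi.single d 1 : ι → ℤ) a -
      (Pi.single c 1 - Pi.single d 1 : ι → ℤ) b : ℤ) : ℚ) +
      (((Pi.single d 1 - Pi.single c 1 : ι → ℤ) a -
      (Pi.single d 1 - Pi.single c 1 : ι → ℤ) b : ℤ) : ℚ)) = 0 := by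
    simp only [Pi.sub_apply]; push_cast; ring
  rw [this, zero_smul]

theorem gX {W : Submodule ℚ M} (a b : ι) {v : M} (hv : v ∈ genBy (allX X) W) :
    X a b v ∈ genBy (allX X) W :=
  genBy_stable (show X a b ∈ allX X from ⟨a, b, rfl⟩) hv

theorem X_mem (a b : ι) : X a b ∈ slg X := Submodule.subset_span (Or.inl ⟨a, b, rfl⟩)

theorem H_mem (a b : ι) : Hop X a b ∈ slg X := Submodule.subset_span (Or.inr ⟨a, b, rfl⟩)

theorem X_X_mem (h : IsSl X) (a b c d : ι) : br (X a b) (X c d) ∈ slg X := by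
  by_cases hab : a = b
  · subst hab; simp [h.diag]
  by_cases hcd : c = d
  · subst hcd; simp [h.diag]
  by_cases hbc : b = c
  · subst hbc
    by_cases had : a = d
    · subst had; exact H_mem a b
    · rw [rel h hab hcd had]; exact X_mem _ _
  by_cases had : a = d
  · subst had
    rw [rel' h hcd hab (Ne.symm hbc)]
    exact neg_mem (X_mem _ _)
  rw [com h hbc had]
  exact zero_mem _

theorem br_mem [Fintype ι] [DecidableEq ι] (h : IsSl X) (h3 : 3 ≤ Fintype.card ι)
    {x y : Module.End ℚ M} (hx : x ∈ slg X) (hy : y ∈ slg X) : br x y ∈ slg X := by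
  induction hx using Submodule.span_induction with
  | mem x hx =>
    induction hy using Submodule.span_induction with
    | mem y hy =>
      rcases hx with ⟨a, b, rfl⟩ | ⟨a, b, rfl⟩ <;> rcases hy with ⟨c, d, rfl⟩ | ⟨c, d, rfl⟩
      · exact X_X_mem h a b c d
      · rw [br_skew, H_X h h3]; exact neg_mem (Submodule.smul_mem _ _ (X_mem _ _))
      · rw [H_X h h3]; exact Submodule.smul_mem _ _ (X_mem _ _)
      · rw [H_H h h3]; exact zero_mem _
    | zero => simp
    | add y z _ _ hy hz => rw [br_add_right]; exact add_mem hy hz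
    | smul c y _ hy => rw [br_smul_right]; exact Submodule.smul_mem _ c hy
  | zero => simp
  | add y z _ _ hy hz => rw [br_add_left]; exact add_mem hy hz
  | smul c y _ hy => rw [br_smul_left]; exact Submodule.smul_mem _ c hy

end Sl

end JR2

open JR2 in
theorem p_pbw : S_pbw := by
  intro M _ _ g a b k W hg hS hspan hk
  classical
  have hS' : ∀ x ∈ a ∪ b ∪ k, ∀ y ∈ a ∪ b ∪ k, x * y - y * x ∈ Submodule.span ℚ (a ∪ b ∪ k) :=
    fun x hx y hy => hspan (hg x (hS x hx) y (hS y hy))
  refine (genBy_le_iSup (S := a ∪ b ∪ k) fun x hx => hspan hx).trans (iSup_le fun m => ?_)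
  induction m with
  | zero => exact G_le fun l _ hm => absurd hm (Nat.not_lt_zero _)
  | succ m ih =>
    refine G_le fun l hl hm w hw => ?_
    have hlen : l.length ≤ m := by omega
    by_cases hx : ∃ x ∈ l, x ∈ k
    · obtain ⟨x, hxl, hxk⟩ := hx
      obtain ⟨s, t, rfl⟩ := List.append_of_mem hxl
      have hp : (s ++ x :: t).Perm ((s ++ t) ++ [x]) :=
        List.perm_middle.trans (List.perm_append_singleton x _).symm
      have h1 := ih (G_mono hlen (perm_sub_mem hS' hp hl hw))
      have h2 : (s ++ t).prod (x w) ∈ G (a ∪ b ∪ k) W m :=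
        mem_G (fun z hz => hl z (by
          rcases List.mem_append.1 hz with h | h
          · exact List.mem_append_left _ h
          · exact List.mem_append_right _ (List.mem_cons_of_mem _ h)))
          (by simp at hm ⊢; omega) (hk x hxk w hw)
      have h3 := add_mem h1 (ih h2)
      simpa using h3
    · have hp : l.Perm (l.filter (fun x => decide (x ∈ a)) ++
          l.filter (fun x => !decide (x ∈ a))) := (List.filter_append_perm _ l).symm
      have h1 := ih (G_mono hlen (perm_sub_mem hS' hp hl hw))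
      have h2 : (l.filter (fun x => !decide (x ∈ a))).prod w ∈ genBy b W := by
        refine prod_mem_genBy (fun z hz => ?_) (le_genBy b W hw)
        rw [List.mem_filter] at hz
        have hza : z ∉ a := by simpa using hz.2
        rcases hl z hz.1 with (h | h) | h
        · exact absurd h hza
        · exact h
        · exact absurd ⟨z, hz.1, h⟩ hx
      have h3 : (l.filter (fun x => decide (x ∈ a))).prod
          ((l.filter (fun x => !decide (x ∈ a))).prod w) ∈ genBy a (genBy b W) := by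
        refine prod_mem_genBy (fun z hz => ?_) (le_genBy a _ h2)
        rw [List.mem_filter] at hz
        simpa using hz.2
      have h4 := add_mem h1 h3
      simpa using h4

open JR2 in
theorem p_pbwF : S_pbwF := by
  intro M _ _ s v hS hnil
  classical
  choose! n hn using hnil
  have key : ∀ m, ∑ x ∈ s, n x ≤ m → G (s : Set (Module.End ℚ M)) (Submodule.span ℚ {v}) (m + 2) ≤
      G (s : Set (Module.End ℚ M)) (Submodule.span ℚ {v}) (m + 1) := by
    intro m hm
    refine G_le fun l hl hlen w hw => ?_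
    by_cases h : l.length < m + 1
    · exact mem_G hl h hw
    have hlen' : l.length = m + 1 := by omega
    have hsum : ∑ x ∈ s, l.count x = l.length := by
      have := Multiset.sum_count_eq_card (m := (l : Multiset (Module.End ℚ M))) (s := s)
        (fun a ha => hl a (by simpa using ha))
      simpa using this
    obtain ⟨x, hx, hc⟩ : ∃ x ∈ s, n x ≤ l.count x := by
      by_contra hcon
      push Not at hcon
      have : ∑ x ∈ s, l.count x ≤ ∑ x ∈ s, n x := Finset.sum_le_sum fun x hx => (hcon x hx).le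
      omega
    obtain ⟨t, ht⟩ := (List.replicate_sublist_iff.2 hc).exists_perm_append
    have hp : l.Perm (t ++ List.replicate (n x) x) := ht.trans List.perm_append_comm
    have h1 := perm_sub_mem hS hp hl hw
    obtain ⟨c, rfl⟩ := Submodule.mem_span_singleton.1 hw
    rw [hlen'] at h1
    simpa [hn x hx] using h1
  have key2 : ∀ m, G (s : Set (Module.End ℚ M)) (Submodule.span ℚ {v}) m ≤
      G (s : Set (Module.End ℚ M)) (Submodule.span ℚ {v}) (∑ x ∈ s, n x + 1) := by
    intro m
    induction m with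
    | zero => exact G_mono (Nat.zero_le _)
    | succ m ih =>
      by_cases h : m + 1 ≤ ∑ x ∈ s, n x + 1
      · exact G_mono h
      · obtain ⟨d, rfl⟩ : ∃ d, m = d + 1 := ⟨m - 1, by omega⟩
        exact (key d (by omega)).trans ih
  have hle := (genBy_le_iSup (S := (s : Set (Module.End ℚ M))) (W := Submodule.span ℚ {v})
    (g := (s : Set (Module.End ℚ M))) fun x hx => Submodule.subset_span hx).trans (iSup_le key2)
  have : Module.Finite ℚ
      (G (s : Set (Module.End ℚ M)) (Submodule.span ℚ {v}) (∑ x ∈ s, n x + 1)) :=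
    Module.Finite.iff_fg.2 (fg_G s (Submodule.fg_span_singleton v) _)
  exact Submodule.finiteDimensional_of_le hle

open JR2 in
theorem p_slg : S_slg := by
  intro ι M _ _ _ _ X h h3
  refine ⟨fun x hx y hy => br_mem h h3 hx hy, H_add h,
    fun a b c d => sub_eq_zero.1 (H_H h h3 a b c d), H_X h h3, ?_, ?_, ?_⟩
  · intro μ c d v hv
    rw [mem_Wt] at hv ⊢
    intro a b
    have e := LinearMap.congr_fun (H_X h h3 a b c d) v
    simp only [br, LinearMap.sub_apply, Module.End.mul_apply, LinearMap.smul_apply, hv a b,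
      map_smul] at e
    rw [sub_eq_iff_eq_add.1 e, ← add_smul]
    congr 1
    simp only [Pi.sub_apply, Pi.add_apply]
    push_cast
    ring
  · intro W
    apply le_antisymm
    · refine genBy_le (le_genBy _ _) fun x hx => ?_
      induction hx using Submodule.span_induction with
      | mem x hx =>
        intro v hv
        rcases hx with hx | ⟨a, b, rfl⟩
        · exact genBy_stable hx hv
        · exact sub_mem (gX a b (gX b a hv)) (gX b a (gX a b hv))
      | zero => intro v _; simp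
      | add y z _ _ hy hz => intro v hv; simpa using add_mem (hy v hv) (hz v hv)
      | smul c y _ hy => intro v hv; simpa using Submodule.smul_mem _ c (hy v hv)
    · refine genBy_le (le_genBy _ _) fun x hx v hv => genBy_stable ?_ hv
      obtain ⟨a, b, rfl⟩ := hx
      exact X_mem a b
  · intro μ
    have ind := Module.End.independent_iInf_maxGenEigenspace_of_forall_mapsTo
      (fun p : ι × ι => Hop X p.1 p.2) (fun p q φ =>
        Module.End.mapsTo_maxGenEigenspace_of_comm (sub_eq_zero.1 (H_H h h3 q.1 q.2 p.1 p.2)) φ)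
    have hW : ∀ ν : ι → ℤ, Wt X ν ≤
        ⨅ p : ι × ι, (Hop X p.1 p.2).maxGenEigenspace ((ν p.1 - ν p.2 : ℤ) : ℚ) := by
      intro ν v hv
      rw [mem_Wt] at hv
      simp only [Submodule.mem_iInf, Module.End.mem_maxGenEigenspace]
      intro p
      exact ⟨1, by simp only [pow_one, LinearMap.sub_apply, LinearMap.smul_apply,
        Module.End.one_apply, hv, sub_self]⟩
    refine (ind fun p => ((μ p.1 - μ p.2 : ℤ) : ℚ)).mono (hW μ) (iSup₂_le fun ν hν => ?_)
    refine (hW ν).trans (le_iSup₂_of_le (fun p : ι × ι => ((ν p.1 - ν p.2 : ℤ) : ℚ)) ?_ le_rfl)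
    obtain ⟨a, b, hab⟩ := hν
    intro he
    have := congrFun he (a, b)
    exact hab (by exact_mod_cast this)

open JR2 in
theorem p_locfin (hz : S_Zgen) (hl : S_log) (hs : S_isSl) : S_locfin := by
  intro ι M _ _ _ _ ρ hU h3 v
  classical
  obtain ⟨hsl, hsg, hel, -⟩ := hs ι M ρ hU
  obtain ⟨hlog, -⟩ := hl M
  set X := Xop ρ with hX
  have hinv : ∀ g : GL ι ℤ, ρ g * ρ g⁻¹ = 1 := fun g => by rw [← map_mul, mul_inv_cancel, map_one]
  have hinv' : ∀ g : GL ι ℤ, ρ g⁻¹ * ρ g = 1 := fun g => by rw [← map_mul, inv_mul_cancel, map_one]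
  let Y : ι → ι → Module.End ℚ M := fun a b => X b a + Hop X a b - X a b
  have hY : ∀ a b, ρ (elem a b) * X b a = Y a b * ρ (elem a b) := by
    intro a b
    by_cases hab : a = b
    · subst hab
      simp [Y, hsl.diag, Hop_self]
    obtain ⟨c, hca, hcb⟩ := exists_third h3 a b
    obtain ⟨e1, e2⟩ := hel a b c hab hcb.symm hca.symm
    have e3 := rel hsl hcb.symm hca (Ne.symm hab)
    have e4 : br (X b c + X a c) (X c a - X c b) = Y a b := by
      rw [br_add_left, br_sub_right, br_sub_right, e3, rel hsl hca.symm hcb hab, ← Hop_eq,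
        ← Hop_eq, ← H_add hsl a b c]
      simp only [Y]
      abel
    rw [← e4]
    conv_lhs => rw [← e3]
    simp only [br]
    rw [mul_sub, ← mul_assoc, ← mul_assoc, e1, e2, mul_assoc, mul_assoc, e1, e2]
    noncomm_ring
  have hYpow : ∀ a b (m : ℕ), ρ (elem a b) * X b a ^ m = Y a b ^ m * ρ (elem a b) := by
    intro a b m
    induction m with
    | zero => simp
    | succ m ih => rw [pow_succ, ← mul_assoc, ih, mul_assoc, hY, ← mul_assoc, pow_succ]
  have hYnil : ∀ a b u, ∃ m : ℕ, (Y a b ^ m) u = 0 := by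
    intro a b u
    obtain ⟨m, hm⟩ := hsl.nil b a (ρ (elem a b)⁻¹ u)
    refine ⟨m, ?_⟩
    have e1 := LinearMap.congr_fun (hYpow a b m) (ρ (elem a b)⁻¹ u)
    have e2 := LinearMap.congr_fun (hinv (elem a b)) u
    simp only [Module.End.mul_apply, Module.End.one_apply] at e1 e2
    rw [hm, map_zero, e2] at e1
    exact e1.symm
  let s : Finset (Module.End ℚ M) :=
    Finset.univ.image (fun p : ι × ι => X p.1 p.2) ∪ Finset.univ.image (fun p : ι × ι => Y p.1 p.2)
  have hXs : ∀ a b, X a b ∈ s := fun a b =>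
    Finset.mem_union_left _ (Finset.mem_image.2 ⟨(a, b), Finset.mem_univ _, rfl⟩)
  have hYs : ∀ a b, Y a b ∈ s := fun a b =>
    Finset.mem_union_right _ (Finset.mem_image.2 ⟨(a, b), Finset.mem_univ _, rfl⟩)
  have hs_cases : ∀ x ∈ s, (∃ a b, x = X a b) ∨ ∃ a b, x = Y a b := by
    intro x hx
    rcases Finset.mem_union.1 hx with hx | hx
    · obtain ⟨p, -, rfl⟩ := Finset.mem_image.1 hx
      exact Or.inl ⟨_, _, rfl⟩
    · obtain ⟨p, -, rfl⟩ := Finset.mem_image.1 hx
      exact Or.inr ⟨_, _, rfl⟩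
  have hs_mem : ∀ x ∈ s, x ∈ slg X := by
    intro x hx
    rcases hs_cases x hx with ⟨a, b, rfl⟩ | ⟨a, b, rfl⟩
    · exact X_mem a b
    · exact sub_mem (add_mem (X_mem b a) (H_mem a b)) (X_mem a b)
  have hspan : slg X ≤ Submodule.span ℚ (s : Set (Module.End ℚ M)) := by
    refine Submodule.span_le.2 ?_
    rintro x (⟨a, b, rfl⟩ | ⟨a, b, rfl⟩)
    · exact Submodule.subset_span (hXs a b)
    · have : Hop X a b = Y a b - X b a + X a b := by simp only [Y]; abel
      rw [this]
      exact add_mem (sub_mem (Submodule.subset_span (hYs a b)) (Submodule.subset_span (hXs b a)))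
        (Submodule.subset_span (hXs a b))
  have hfd : ∀ u, FiniteDimensional ℚ (genBy (allX X) (Submodule.span ℚ {u})) := by
    intro u
    have := p_pbwF M s u (fun x hx y hy => hspan (br_mem hsl h3 (hs_mem x hx) (hs_mem y hy)))
      (fun x hx => by
        rcases hs_cases x hx with ⟨a, b, rfl⟩ | ⟨a, b, rfl⟩
        · exact hsl.nil a b u
        · exact hYnil a b u)
    refine Submodule.finiteDimensional_of_le (S₂ := genBy (s : Set (Module.End ℚ M))
      (Submodule.span ℚ {u})) (genBy_le (le_genBy _ _) fun x hx w hw => genBy_stable ?_ hw)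
    obtain ⟨a, b, rfl⟩ := hx
    exact hXs a b
  obtain ⟨c⟩ : Nonempty ι := Fintype.card_pos_iff.1 (by omega)
  have hsq : sgn c * sgn c = (1 : GL ι ℤ) := Units.ext (sgn c).val_inv
  have hσ : ∀ u, genBy (allX X) (Submodule.span ℚ {u}) ≤
      (genBy (allX X) (Submodule.span ℚ {ρ (sgn c) u})).comap (ρ (sgn c)) := by
    intro u
    refine genBy_le ?_ ?_
    · rw [Submodule.span_le, Set.singleton_subset_iff]
      exact le_genBy _ _ (Submodule.mem_span_singleton_self _)
    · rintro x ⟨a, b, rfl⟩ w hw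
      have e := LinearMap.congr_fun (hsg a b c) w
      simp only [Module.End.mul_apply, LinearMap.smul_apply] at e
      rw [Submodule.mem_comap, e]
      exact Submodule.smul_mem _ _ (gX a b hw)
  let U : Submodule ℚ M := genBy (allX X) (Submodule.span ℚ {v}) ⊔
    genBy (allX X) (Submodule.span ℚ {ρ (sgn c) v})
  have hUX : ∀ a b, ∀ w ∈ U, X a b w ∈ U := by
    intro a b w hw
    obtain ⟨w1, h1, w2, h2, rfl⟩ := Submodule.mem_sup.1 hw
    rw [map_add]
    exact Submodule.add_mem_sup (gX a b h1) (gX a b h2)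
  have hUσ : ∀ w ∈ U, ρ (sgn c) w ∈ U := by
    intro w hw
    obtain ⟨w1, h1, w2, h2, rfl⟩ := Submodule.mem_sup.1 hw
    rw [map_add, add_comm]
    refine Submodule.add_mem_sup ?_ (hσ v h1)
    have h4 := hσ _ h2
    rw [← Module.End.mul_apply, ← map_mul, hsq, map_one, Module.End.one_apply] at h4
    exact h4
  have hUg : ∀ g : GL ι ℤ, ∀ w ∈ U, ρ g w ∈ U := by
    intro g
    have hg : g ∈ Subgroup.closure ({g | ∃ a b, g = elem a b} ∪ {sgn c}) := by
      rw [hz ι c]; exact Subgroup.mem_top g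
    induction hg using Subgroup.closure_induction'' with
    | mem x hx =>
      rcases hx with ⟨a, b, rfl⟩ | rfl
      · exact ((hlog _ (hU a b)).2.2.1 U).2 (hUX a b)
      · exact hUσ
    | inv_mem x hx =>
      rcases hx with ⟨a, b, rfl⟩ | rfl
      · obtain ⟨h1, h2⟩ := (hlog _ (hU a b)).2.2.2.2.2 _ (hinv _) (hinv' _)
        refine ((hlog _ h1).2.2.1 U).2 fun w hw => ?_
        rw [h2]
        exact neg_mem (hUX a b w hw)
      · rw [inv_eq_of_mul_eq_one_right hsq]; exact hUσ
    | one => intro w hw; simpa using hw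
    | mul x y _ _ hx hy =>
      intro w hw
      rw [map_mul, Module.End.mul_apply]
      exact hx _ (hy w hw)
  have h1 := hfd v
  have h2 := hfd (ρ (sgn c) v)
  refine Submodule.finiteDimensional_of_le (S₂ := U) (Submodule.span_le.2 ?_)
  rintro _ ⟨g, rfl⟩
  exact hUg g v (Submodule.mem_sup_left (le_genBy _ _ (Submodule.mem_span_singleton_self v)))

end Pool.Agent.Lib.MP_49df17_al
end
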