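import Pool.Agent.Lib.MP_49df17_al.Core

-- part Pool.Agent.Lib.MP_49df17_al.R4
section

/-!
Modules are determined by their singular vectors; stabilisation of the covectors that vanish on
lowered vectors; injectivity of the maps of an algebraic functor in large rank.
-/

namespace Pool.Agent.Lib.MP_49df17_al

open Matrix

set_option linter.unusedSectionVars false

namespace JR4

section Sl

variable {ι M : Type} [Fintype ι] [DecidableEq ι] [AddCommGroup M] [Module ℚ M]

theorem mem_Low {X : ι → ι → Module.End ℚ M} {ord : ι → ℕ} {a b : ι} (h : ord b < ord a)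
    (v : M) : X a b v ∈ Low X ord :=
  Submodule.mem_iSup_of_mem a (Submodule.mem_iSup_of_mem b
    (Submodule.mem_iSup_of_mem h (LinearMap.mem_range_self _ v)))

theorem Low_le {X : ι → ι → Module.End ℚ M} {ord : ι → ℕ} {U : Submodule ℚ M}
    (h : ∀ a b v, ord b < ord a → X a b v ∈ U) : Low X ord ≤ U := by
  refine iSup_le fun a => iSup_le fun b => iSup_le fun hab => ?_
  rintro _ ⟨v, rfl⟩
  exact h a b v hab

theorem genBy_low_le (X : ι → ι → Module.End ℚ M) (ord : ι → ℕ) (W : Submodule ℚ M) :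
    genBy (lowX X ord) W ≤ W ⊔ Low X ord := by
  refine genBy_le le_sup_left ?_
  rintro _ ⟨a, b, hab, rfl⟩ v -
  exact Submodule.mem_sup_right (mem_Low hab v)

theorem stable_genBy (X : ι → ι → Module.End ℚ M) (W : Submodule ℚ M) :
    Stable X (genBy (allX X) W) := fun a b _ hv =>
  genBy_stable (show X a b ∈ allX X from ⟨a, b, rfl⟩) hv

/-- A module generated by singular vectors is generated from them by lowering operators. -/
theorem genBy_all_le (hp : S_pbw) (hs : S_slg) {X : ι → ι → Module.End ℚ M} {ord : ι → ℕ}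
    (hX : IsSl X) (h3 : 3 ≤ Fintype.card ι) (ho : Function.Injective ord) {W : Submodule ℚ M}
    (h1 : W ≤ Sing X ord) (h2 : ∀ a b, ∀ v ∈ W, Hop X a b v ∈ W) :
    genBy (allX X) W ≤ W ⊔ Low X ord := by
  obtain ⟨hb, -, -, -, -, hg, -⟩ := hs ι M X hX h3
  rw [← hg W]
  have key := hp M (slg X) (lowX X ord) ∅
    ({x | ∃ a b, ord a < ord b ∧ x = X a b} ∪ {x | ∃ a b, x = Hop X a b}) W hb ?_ ?_ ?_
  · refine key.trans (le_trans ?_ (genBy_low_le X ord W))
    refine genBy_le ?_ fun x hx v hv => genBy_stable hx hv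
    exact genBy_le (le_genBy _ _) fun x hx => absurd hx (Set.notMem_empty x)
  · rintro x ((⟨a, b, -, rfl⟩ | h) | ⟨a, b, -, rfl⟩ | ⟨a, b, rfl⟩)
    · exact Submodule.subset_span (Or.inl ⟨a, b, rfl⟩)
    · exact absurd h (Set.notMem_empty x)
    · exact Submodule.subset_span (Or.inl ⟨a, b, rfl⟩)
    · exact Submodule.subset_span (Or.inr ⟨a, b, rfl⟩)
  · refine Submodule.span_le.2 ?_
    rintro x (⟨a, b, rfl⟩ | ⟨a, b, rfl⟩)
    · rcases lt_trichotomy (ord a) (ord b) with h | h | h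
      · exact Submodule.subset_span (Or.inr (Or.inl ⟨a, b, h, rfl⟩))
      · obtain rfl := ho h
        rw [hX.diag]
        exact Submodule.zero_mem _
      · exact Submodule.subset_span (Or.inl (Or.inl ⟨a, b, h, rfl⟩))
    · exact Submodule.subset_span (Or.inr (Or.inr ⟨a, b, rfl⟩))
  · rintro x (⟨a, b, h, rfl⟩ | ⟨a, b, rfl⟩) v hv
    · rw [mem_Sing.1 (h1 hv) a b h]
      exact W.zero_mem
    · exact h2 a b v hv

/-- The singular vectors of a submodule generated by singular vectors. -/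
theorem genBy_inf_Sing (hp : S_pbw) (hs : S_slg) (hh : S_hw) [FiniteDimensional ℚ M]
    {X : ι → ι → Module.End ℚ M} {ord : ι → ℕ}
    (hX : IsSl X) (h3 : 3 ≤ Fintype.card ι) (ho : Function.Injective ord) {W : Submodule ℚ M}
    (h1 : W ≤ Sing X ord) (h2 : ∀ a b, ∀ v ∈ W, Hop X a b v ∈ W) :
    genBy (allX X) W ⊓ Sing X ord ≤ W := by
  obtain ⟨-, hb, -⟩ := hh ι M X ord hX h3 ho
  refine (inf_le_inf_right _ (genBy_all_le hp hs hX h3 ho h1 h2)).trans ?_
  rw [sup_inf_assoc_of_le _ h1, inf_comm, hb, sup_bot_eq]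

/-- The span of weight vectors is stable under the coroot operators. -/
theorem span_H_stable {X : ι → ι → Module.End ℚ M} {κ : Type} {μ : κ → ι → ℤ} {w : κ → M}
    (h : ∀ j, w j ∈ Wt X (μ j)) (a b : ι) :
    ∀ v ∈ Submodule.span ℚ (Set.range w), Hop X a b v ∈ Submodule.span ℚ (Set.range w) := by
  intro v hv
  have : Submodule.span ℚ (Set.range w) ≤
      (Submodule.span ℚ (Set.range w)).comap (Hop X a b) := by
    refine Submodule.span_le.2 ?_
    rintro _ ⟨j, rfl⟩
    change Hop X a b (w j) ∈ Submodule.span ℚ (Set.range w)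
    rw [mem_Wt.1 (h j) a b]
    exact Submodule.smul_mem _ _ (Submodule.subset_span ⟨j, rfl⟩)
  exact this hv

theorem pow_zero_of_le {E : Module.End ℚ M} {v : M} {m m' : ℕ} (h : (E ^ m) v = 0)
    (hm : m ≤ m') : (E ^ m') v = 0 := by
  obtain ⟨d, rfl⟩ := Nat.exists_eq_add_of_le' hm
  rw [pow_add, Module.End.mul_apply, h, map_zero]

section Prod

variable {k : ℕ} {V : Fin k → ModuleCat.{0} ℚ}

/-- The operators on a product of modules. -/
def piOp (Y : ∀ j, ι → ι → Module.End ℚ (V j)) (a b : ι) : Module.End ℚ (∀ j, V j) :=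
  LinearMap.pi fun j => (Y j a b).comp (LinearMap.proj j)

theorem piOp_apply (Y : ∀ j, ι → ι → Module.End ℚ (V j)) (a b : ι) (y : ∀ j, V j) (j : Fin k) :
    piOp Y a b y j = Y j a b (y j) := rfl

theorem piOp_pow (Y : ∀ j, ι → ι → Module.End ℚ (V j)) (a b : ι) (m : ℕ) (y : ∀ j, V j)
    (j : Fin k) : (piOp Y a b ^ m) y j = (Y j a b ^ m) (y j) := by
  induction m with
  | zero => rfl
  | succ m ih => rw [pow_succ', pow_succ', Module.End.mul_apply, Module.End.mul_apply,
      piOp_apply, ih]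

theorem isSl_pi {Y : ∀ j, ι → ι → Module.End ℚ (V j)} (h : ∀ j, IsSl (Y j)) :
    IsSl (piOp Y) where
  diag a := by
    refine LinearMap.ext fun y => funext fun j => ?_
    rw [piOp_apply, (h j).diag]; rfl
  rel a b c hab hbc hac := by
    refine LinearMap.ext fun y => funext fun j => ?_
    rw [piOp_apply, ← (h j).rel a b c hab hbc hac]; rfl
  comm a b c d hbc had := by
    refine LinearMap.ext fun y => funext fun j => ?_
    exact LinearMap.congr_fun ((h j).comm a b c d hbc had) (y j)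
  nil a b y := by
    choose m hm using fun j => (h j).nil a b (y j)
    refine ⟨Finset.univ.sup m, funext fun j => ?_⟩
    rw [piOp_pow]
    exact pow_zero_of_le (hm j) (Finset.le_sup (Finset.mem_univ j))

theorem piOp_single (Y : ∀ j, ι → ι → Module.End ℚ (V j)) (a b : ι) (j : Fin k) (x : V j) :
    piOp Y a b (Pi.single j x) = Pi.single j (Y j a b x) := by
  funext i
  rw [piOp_apply]
  by_cases h : i = j
  · subst h; simp
  · simp [Pi.single_eq_of_ne h]

theorem Hop_pi_apply (Y : ∀ j, ι → ι → Module.End ℚ (V j)) (a b : ι) (y : ∀ j, V j) (j : Fin k) :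
    Hop (piOp Y) a b y j = Hop (Y j) a b (y j) := rfl

variable {M' : Type} [AddCommGroup M'] [Module ℚ M']

/-- The operators on a product of two modules. -/
def prOp (X : ι → ι → Module.End ℚ M) (X' : ι → ι → Module.End ℚ M') (a b : ι) :
    Module.End ℚ (M × M') := (X a b).prodMap (X' a b)

theorem prOp_apply (X : ι → ι → Module.End ℚ M) (X' : ι → ι → Module.End ℚ M') (a b : ι)
    (y : M × M') : prOp X X' a b y = (X a b y.1, X' a b y.2) := rfl

theorem prOp_pow (X : ι → ι → Module.End ℚ M) (X' : ι → ι → Module.End ℚ M') (a b : ι) (m : ℕ)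
    (y : M × M') : (prOp X X' a b ^ m) y = ((X a b ^ m) y.1, (X' a b ^ m) y.2) := by
  induction m with
  | zero => rfl
  | succ m ih => rw [pow_succ', pow_succ', pow_succ', Module.End.mul_apply, Module.End.mul_apply,
      Module.End.mul_apply, ih, prOp_apply]

theorem isSl_pr {X : ι → ι → Module.End ℚ M} {X' : ι → ι → Module.End ℚ M'} (h : IsSl X)
    (h' : IsSl X') : IsSl (prOp X X') where
  diag a := by
    refine LinearMap.ext fun y => ?_
    rw [prOp_apply, h.diag, h'.diag]; rfl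
  rel a b c hab hbc hac := by
    refine LinearMap.ext fun y => ?_
    rw [prOp_apply, ← h.rel a b c hab hbc hac, ← h'.rel a b c hab hbc hac]; rfl
  comm a b c d hbc had := by
    refine LinearMap.ext fun y => Prod.ext ?_ ?_
    · exact LinearMap.congr_fun (h.comm a b c d hbc had) y.1
    · exact LinearMap.congr_fun (h'.comm a b c d hbc had) y.2
  nil a b y := by
    obtain ⟨m, hm⟩ := h.nil a b y.1
    obtain ⟨m', hm'⟩ := h'.nil a b y.2
    refine ⟨max m m', ?_⟩
    rw [prOp_pow, pow_zero_of_le hm (le_max_left _ _), pow_zero_of_le hm' (le_max_right _ _)]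
    rfl

theorem Hop_pr_apply (X : ι → ι → Module.End ℚ M) (X' : ι → ι → Module.End ℚ M') (a b : ι)
    (y : M × M') : Hop (prOp X X') a b y = (Hop X a b y.1, Hop X' a b y.2) := rfl

end Prod

/-- Two modules whose singular vectors correspond are isomorphic. -/
theorem graph_iso (hp : S_pbw) (hs : S_slg) (hh : S_hw) {M' : Type} [AddCommGroup M']
    [Module ℚ M'] [FiniteDimensional ℚ M] [FiniteDimensional ℚ M']
    {X : ι → ι → Module.End ℚ M} {X' : ι → ι → Module.End ℚ M'} {ord : ι → ℕ}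
    (hX : IsSl X) (hX' : IsSl X') (h3 : 3 ≤ Fintype.card ι) (ho : Function.Injective ord)
    {κ : Type} {μ : κ → ι → ℤ} {v : κ → M} {v' : κ → M'}
    (hw : ∀ j, v j ∈ Wt X (μ j)) (hw' : ∀ j, v' j ∈ Wt X' (μ j))
    (hS : ∀ j, v j ∈ Sing X ord) (hS' : ∀ j, v' j ∈ Sing X' ord)
    (hl : LinearIndependent ℚ v) (hl' : LinearIndependent ℚ v')
    (hg : ∀ U, Stable X U → (∀ j, v j ∈ U) → U = ⊤)
    (hg' : ∀ U, Stable X' U → (∀ j, v' j ∈ U) → U = ⊤) :
    ∃ e : M ≃ₗ[ℚ] M', (∀ a b x, e (X a b x) = X' a b (e x)) ∧ ∀ j, e (v j) = v' j := by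
  have hZ := isSl_pr hX hX'
  set W : Submodule ℚ (M × M') := Submodule.span ℚ (Set.range fun j => (v j, v' j)) with hW
  set G := genBy (allX (prOp X X')) W with hG
  have hWS : W ≤ Sing (prOp X X') ord := by
    refine Submodule.span_le.2 ?_
    rintro _ ⟨j, rfl⟩
    refine mem_Sing.2 fun a b hab => ?_
    rw [prOp_apply, mem_Sing.1 (hS j) a b hab, mem_Sing.1 (hS' j) a b hab]; rfl
  have hWH : ∀ a b, ∀ y ∈ W, Hop (prOp X X') a b y ∈ W := by
    refine span_H_stable (μ := μ) fun j => mem_Wt.2 fun a b => ?_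
    rw [Hop_pr_apply, mem_Wt.1 (hw j) a b, mem_Wt.1 (hw' j) a b]; rfl
  have hGS : G ⊓ Sing (prOp X X') ord ≤ W := genBy_inf_Sing hp hs hh hZ h3 ho hWS hWH
  have hGst : Stable (prOp X X') G := stable_genBy _ _
  have hmem : ∀ j, (v j, v' j) ∈ G := fun j => le_genBy _ _ (Submodule.subset_span ⟨j, rfl⟩)
  obtain ⟨-, -, -, -, -, -, -, hinj⟩ := hh ι (M × M') (prOp X X') ord hZ h3 ho
  have hWel : ∀ y ∈ W, ∃ c : κ →₀ ℚ, Finsupp.linearCombination ℚ v c = y.1 ∧
      Finsupp.linearCombination ℚ v' c = y.2 := by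
    intro y hy
    induction hy using Submodule.span_induction with
    | mem y hy =>
      obtain ⟨j, rfl⟩ := hy
      exact ⟨Finsupp.single j 1, by simp, by simp⟩
    | zero => exact ⟨0, by simp, by simp⟩
    | add y z _ _ hy hz =>
      obtain ⟨c, hc, hc'⟩ := hy
      obtain ⟨d, hd, hd'⟩ := hz
      exact ⟨c + d, by simp [hc, hd], by simp [hc', hd']⟩
    | smul r y _ hy =>
      obtain ⟨c, hc, hc'⟩ := hy
      exact ⟨r • c, by simp [hc], by simp [hc']⟩
  have h1 : G ⊓ LinearMap.ker (LinearMap.fst ℚ M M') = ⊥ := by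
    refine hinj _ ?_ ?_
    · rintro a b y ⟨hy, hy'⟩
      refine ⟨hGst a b y hy, ?_⟩
      change X a b y.1 = 0
      rw [show y.1 = 0 from hy', map_zero]
    · refine eq_bot_iff.2 ?_
      rintro y ⟨⟨hy, hy'⟩, hyS⟩
      obtain ⟨c, hc, hc'⟩ := hWel y (hGS ⟨hy, hyS⟩)
      have hy0 : y.1 = 0 := hy'
      have : c = 0 := linearIndependent_iff.1 hl c (hc.trans hy0)
      subst this
      exact Prod.ext hy0 (by rw [← hc', map_zero]; rfl)
  have h2 : G ⊓ LinearMap.ker (LinearMap.snd ℚ M M') = ⊥ := by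
    refine hinj _ ?_ ?_
    · rintro a b y ⟨hy, hy'⟩
      refine ⟨hGst a b y hy, ?_⟩
      change X' a b y.2 = 0
      rw [show y.2 = 0 from hy', map_zero]
    · refine eq_bot_iff.2 ?_
      rintro y ⟨⟨hy, hy'⟩, hyS⟩
      obtain ⟨c, hc, hc'⟩ := hWel y (hGS ⟨hy, hyS⟩)
      have hy0 : y.2 = 0 := hy'
      have : c = 0 := linearIndependent_iff.1 hl' c (hc'.trans hy0)
      subst this
      exact Prod.ext (by rw [← hc, map_zero]; rfl) hy0
  have h3' : G.map (LinearMap.fst ℚ M M') = ⊤ := by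
    refine hg _ ?_ fun j => ⟨_, hmem j, rfl⟩
    rintro a b _ ⟨y, hy, rfl⟩
    exact ⟨_, hGst a b y hy, rfl⟩
  have h4 : G.map (LinearMap.snd ℚ M M') = ⊤ := by
    refine hg' _ ?_ fun j => ⟨_, hmem j, rfl⟩
    rintro a b _ ⟨y, hy, rfl⟩
    exact ⟨_, hGst a b y hy, rfl⟩
  have b1 : Function.Bijective (Prod.fst ∘ G.subtype) := by
    refine ⟨?_, ?_⟩
    · intro y z hyz
      have : y.1 - z.1 ∈ G ⊓ LinearMap.ker (LinearMap.fst ℚ M M') :=
        ⟨G.sub_mem y.2 z.2, sub_eq_zero.2 hyz⟩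
      rw [h1] at this
      exact Subtype.ext (sub_eq_zero.1 this)
    · intro x
      obtain ⟨y, hy, rfl⟩ : x ∈ G.map (LinearMap.fst ℚ M M') := h3' ▸ Submodule.mem_top
      exact ⟨⟨y, hy⟩, rfl⟩
  have b2 : Function.Bijective (Prod.snd ∘ G.subtype) := by
    refine ⟨?_, ?_⟩
    · intro y z hyz
      have : y.1 - z.1 ∈ G ⊓ LinearMap.ker (LinearMap.snd ℚ M M') :=
        ⟨G.sub_mem y.2 z.2, sub_eq_zero.2 hyz⟩
      rw [h2] at this
      exact Subtype.ext (sub_eq_zero.1 this)
    · intro x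
      obtain ⟨y, hy, rfl⟩ : x ∈ G.map (LinearMap.snd ℚ M M') := h4 ▸ Submodule.mem_top
      exact ⟨⟨y, hy⟩, rfl⟩
  obtain ⟨e, he⟩ := Submodule.exists_equiv_eq_graph b1 b2
  have hiff : ∀ x x', (x, x') ∈ G ↔ x' = e x := by
    intro x x'
    rw [he, LinearMap.mem_graph_iff]; rfl
  refine ⟨e, fun a b x => ?_, fun j => ((hiff _ _).1 (hmem j)).symm⟩
  exact ((hiff _ _).1 (hGst a b (x, e x) ((hiff _ _).2 rfl))).symm

end Sl

end JR4

open JR4

/-- A finite-dimensional module is determined by its singular vectors. -/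
theorem p_struct (hp : S_pbw) (hs : S_slg) (hh : S_hw) : S_struct := by
  intro ι _ _ ord h3 ho
  refine ⟨?_, ?_⟩
  · intro M _ _ _ X μ u hX hu hμ hg
    have h1 : Submodule.span ℚ {u} ≤ Sing X ord := by
      rwa [Submodule.span_singleton_le_iff_mem]
    have h2 : ∀ a b, ∀ v ∈ Submodule.span ℚ {u}, Hop X a b v ∈ Submodule.span ℚ {u} := by
      have := span_H_stable (X := X) (κ := Unit) (μ := fun _ => μ) (w := fun _ => u)
        fun _ => hμ
      rwa [Set.range_const] at this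
    have := genBy_inf_Sing hp hs hh hX h3 ho h1 h2
    rw [hg, top_inf_eq] at this
    exact le_antisymm this h1
  · intro M _ _ _ X k μ v V Y u hX hw hl hsp hV
    have : ∀ j, FiniteDimensional ℚ (V j) := fun j => (hV j).1
    have hY : IsSl (piOp Y) := isSl_pi fun j => (hV j).2.1
    obtain ⟨-, -, -, hlow, -⟩ := hh ι M X ord hX h3 ho
    refine (graph_iso hp hs hh (X' := piOp Y) (μ := μ) (v := v)
      (v' := fun j => Pi.single j (u j)) hX hY h3 ho hw ?_ ?_ ?_ hl ?_ ?_ ?_).imp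
      fun e he => ⟨fun a b x j => by rw [he.1, piOp_apply], he.2⟩
    · intro j
      refine mem_Wt.2 fun a b => funext fun i => ?_
      rw [Hop_pi_apply]
      by_cases h : i = j
      · subst h
        simp only [Pi.single_eq_same, Pi.smul_apply]
        exact mem_Wt.1 (hV i).2.2.2.2.1 a b
      · simp [Pi.single_eq_of_ne h]
    · intro j
      rw [← hsp]
      exact Submodule.subset_span ⟨j, rfl⟩
    · intro j
      refine mem_Sing.2 fun a b hab => ?_
      rw [piOp_single, mem_Sing.1 (hV j).2.2.2.1 a b hab, Pi.single_zero]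
    · refine Fintype.linearIndependent_iff.2 fun c hc j => ?_
      have := congrFun hc j
      rw [Finset.sum_apply, Finset.sum_eq_single j] at this
      · simp only [Pi.smul_apply, Pi.single_eq_same, Pi.zero_apply] at this
        exact (smul_eq_zero.1 this).resolve_right (hV j).2.2.1
      · intro i _ hi
        simp [Pi.single_eq_of_ne hi.symm]
      · intro h
        exact absurd (Finset.mem_univ j) h
    · intro U hU hvU
      refine eq_top_iff.2 ?_
      rw [← hlow]
      refine genBy_le ?_ ?_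
      · rw [← hsp]
        exact Submodule.span_le.2 (by rintro _ ⟨j, rfl⟩; exact hvU j)
      · rintro _ ⟨a, b, -, rfl⟩ x hx
        exact hU a b x hx
    · intro U hU hvU
      refine eq_top_iff.2 fun y _ => ?_
      have hj : ∀ j (x : V j), (Pi.single j x : ∀ j, V j) ∈ U := by
        intro j x
        have : genBy (allX (Y j)) (Submodule.span ℚ {u j}) ≤
            U.comap (LinearMap.single ℚ (fun j => (V j : Type)) j) := by
          refine genBy_le ?_ ?_
          · rw [Submodule.span_singleton_le_iff_mem]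
            exact hvU j
          · rintro _ ⟨a, b, rfl⟩ z hz
            change (Pi.single j (Y j a b z) : ∀ j, V j) ∈ U
            rw [← piOp_single]
            exact hU a b _ hz
        rw [(hV j).2.2.2.2.2] at this
        exact this Submodule.mem_top
      rw [← Finset.univ_sum_single y]
      exact U.sum_mem fun j _ => hj j (y j)

namespace JR4

theorem ordF_inj (n : ℕ) : Function.Injective (ordF true n) := by
  intro a b h
  simp only [ordF, if_true] at h
  have := a.2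
  have := b.2
  exact Fin.ext (by omega)

theorem ordF_lt {n : ℕ} {a b : Fin n} : ordF true n a < ordF true n b ↔ b < a := by
  simp only [ordF, if_true, Fin.lt_def]
  have := a.2
  have := b.2
  omega

theorem mid_of {n0 n : ℕ} (h : 2 * n0 ≤ n) (i : Fin (n + 1)) (hi : i.val = n0) :
    Mid n0 (ordF true (n + 1)) i := by
  refine ⟨?_, ?_⟩
  · have : {b | ordF true (n + 1) b < ordF true (n + 1) i} = (Finset.Ioi i : Finset _) := by
      ext b; simp [ordF_lt]
    rw [this, Set.ncard_coe_finset, Fin.card_Ioi]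
    omega
  · have : {b | ordF true (n + 1) i < ordF true (n + 1) b} = (Finset.Iio i : Finset _) := by
      ext b; simp [ordF_lt]
    rw [this, Set.ncard_coe_finset, Fin.card_Iio]
    omega

/-- An eventually non-increasing sequence of naturals is eventually constant. -/
theorem ev_const (d : ℕ → ℕ) (N0 : ℕ) (h : ∀ n, N0 ≤ n → d (n + 1) ≤ d n) :
    ∃ N, N0 ≤ N ∧ ∀ n, N ≤ n → d n ≤ d (n + 1) := by
  classical
  have hex : ∃ x, ∃ n, N0 ≤ n ∧ d n = x := ⟨_, N0, le_rfl, rfl⟩
  obtain ⟨N, hN, hd⟩ := Nat.find_spec hex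
  refine ⟨N, hN, fun n hn => ?_⟩
  have h1 : d n ≤ d N := by
    induction n, hn using Nat.le_induction with
    | base => exact le_rfl
    | succ m hm ih => exact (h m (hN.trans hm)).trans ih
  have h2 : Nat.find hex ≤ d (n + 1) := Nat.find_min' hex ⟨n + 1, by omega, rfl⟩
  omega

/-- The covectors that vanish on the lowered vectors. -/
noncomputable abbrev AnnL (A : VIC) (n : ℕ) : Submodule ℚ (Module.Dual ℚ (A.obj (Ob.std n))) :=
  (Low (Xop (A.rep (Ob.std n))) (ordF true n)).dualAnnihilator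

/-- The embedding that omits the index `i`. -/
noncomputable abbrev om (A : VIC) {n : ℕ} (i : Fin (n + 1)) :
    A.obj (Ob.std n) →ₗ[ℚ] A.obj (Ob.std (n + 1)) :=
  A.map (Mor.emb (X := Ob.std n) (Y := Ob.std (n + 1)) i.succAboveEmb)

theorem res_mem (he : S_emb) (A : VIC) {n : ℕ} (i : Fin (n + 1))
    (h1 : Unip (A.rep (Ob.std n))) (h2 : Unip (A.rep (Ob.std (n + 1))))
    {φ : Module.Dual ℚ (A.obj (Ob.std (n + 1)))} (hφ : φ ∈ AnnL A (n + 1)) :
    φ.comp (om A i) ∈ AnnL A n := by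
  rw [Submodule.mem_dualAnnihilator] at hφ ⊢
  have : Low (Xop (A.rep (Ob.std n))) (ordF true n) ≤ LinearMap.ker (φ.comp (om A i)) := by
    refine Low_le fun a b v hab => ?_
    have h3 := (he A (Ob.std (n + 1)) (Ob.std n) i.succAboveEmb h2).2.2.1 h1 a b
    have h4 := LinearMap.congr_fun h3 v
    simp only [LinearMap.comp_apply] at h4
    rw [LinearMap.mem_ker, LinearMap.comp_apply, ← h4]
    refine hφ _ (mem_Low ?_ _)
    rw [ordF_lt] at hab ⊢
    exact Fin.succAbove_lt_succAbove_iff.2 hab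
  exact fun w hw => this hw

theorem res_inj (hQ : S_Q) (A : VIC) {n0 n : ℕ} (hg : GenIn A n0) (hn : 2 * n0 + 3 ≤ n)
    (i : Fin (n + 1)) (hi : i.val = n0) (h2 : Unip (A.rep (Ob.std (n + 1))))
    {φ : Module.Dual ℚ (A.obj (Ob.std (n + 1)))} (hφ : φ ∈ AnnL A (n + 1))
    (h0 : φ.comp (om A i) = 0) : φ = 0 := by
  rw [Submodule.mem_dualAnnihilator] at hφ
  have hq := hQ A n0 (Ob.std (n + 1)) (Ob.std n) (ordF true (n + 1)) i.succAboveEmb hg h2
    (by simp; omega) (by simp; omega) (ordF_inj _) (by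
      intro a ha
      have : a ≠ i := by
        rintro rfl
        exact ha (mid_of (by omega) a hi)
      exact Fin.exists_succAbove_eq this)
  have : genBy (lowX (Xop (A.rep (Ob.std (n + 1)))) (ordF true (n + 1)))
      (LinearMap.range (om A i)) ≤ LinearMap.ker φ := by
    refine genBy_le ?_ ?_
    · rintro _ ⟨w, rfl⟩
      exact LinearMap.congr_fun h0 w
    · rintro _ ⟨a, b, hab, rfl⟩ v -
      exact hφ _ (mem_Low hab v)
  rw [hq] at this
  exact LinearMap.ker_eq_top.1 (top_le_iff.1 this)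

/-- The restriction map between the spaces of covectors. -/
noncomputable def resA (he : S_emb) (A : VIC) {n : ℕ} (i : Fin (n + 1))
    (h1 : Unip (A.rep (Ob.std n))) (h2 : Unip (A.rep (Ob.std (n + 1)))) :
    AnnL A (n + 1) →ₗ[ℚ] AnnL A n :=
  LinearMap.codRestrict _ ((om A i).dualMap.comp (AnnL A (n + 1)).subtype)
    fun φ => res_mem he A i h1 h2 φ.2

theorem resA_inj (he : S_emb) (hQ : S_Q) (A : VIC) {n0 n : ℕ} (hg : GenIn A n0)
    (hn : 2 * n0 + 3 ≤ n) (i : Fin (n + 1)) (hi : i.val = n0)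
    (h1 : Unip (A.rep (Ob.std n))) (h2 : Unip (A.rep (Ob.std (n + 1)))) :
    Function.Injective (resA he A i h1 h2) := by
  rw [← LinearMap.ker_eq_bot, eq_bot_iff]
  intro φ hφ
  exact Subtype.ext (res_inj hQ A hg hn i hi h2 φ.2 (congrArg Subtype.val hφ))

end JR4

/-- Stabilisation of the covectors that vanish on the lowered vectors. -/
theorem p_stab (he : S_emb) (hQ : S_Q) : S_stab := by
  rintro A ⟨n0, hg, hA⟩
  have hU : ∀ n, n0 ≤ n → Unip (A.rep (Ob.std n)) := fun n hn => (hA _ (by simpa using hn)).2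
  have hF : ∀ n, n0 ≤ n → FiniteDimensional ℚ (A.obj (Ob.std n)) :=
    fun n hn => (hA _ (by simpa using hn)).1
  obtain ⟨N, hN, hd⟩ := ev_const (fun n => Module.finrank ℚ (AnnL A n)) (2 * n0 + 3) (by
    intro n hn
    have := hF n (by omega)
    exact LinearMap.finrank_le_finrank_of_injective (resA_inj he hQ A hg hn ⟨n0, by omega⟩ rfl
      (hU n (by omega)) (hU (n + 1) (by omega))))
  refine ⟨n0, N, hN, hg, hA, fun n hn i hi φ hφ => ?_⟩
  have := hF n (by omega)
  have := hF (n + 1) (by omega)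
  have h1 := hU n (by omega)
  have h2 := hU (n + 1) (by omega)
  have hinj := resA_inj he hQ A hg (hN.trans hn) i hi h1 h2
  have heq : Module.finrank ℚ (AnnL A (n + 1)) = Module.finrank ℚ (AnnL A n) :=
    le_antisymm (LinearMap.finrank_le_finrank_of_injective hinj) (hd n hn)
  have hsurj := (LinearMap.injective_iff_surjective_of_finrank_eq_finrank heq).1 hinj
  obtain ⟨ψ, hψ⟩ := hsurj ⟨φ, (Submodule.mem_dualAnnihilator φ).2 hφ⟩
  have hψ' : ψ.1.comp (om A i) = φ := congrArg Subtype.val hψ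
  refine ⟨ψ.1, ⟨(Submodule.mem_dualAnnihilator _).1 ψ.2, hψ'⟩, ?_⟩
  rintro χ ⟨hχ, hχ'⟩
  have : (⟨χ, (Submodule.mem_dualAnnihilator χ).2 hχ⟩ : AnnL A (n + 1)) = ψ :=
    hinj (Subtype.ext (hχ'.trans hψ'.symm))
  exact congrArg Subtype.val this

namespace JR4

theorem comp_id {X Y : Ob} (m : Mor X Y) : m.comp (Mor.id X) = m := by
  apply Mor.ext <;> simp [Mor.comp, Mor.id]

theorem inj_of_comp (A : VIC) {X Y Z : Ob} (g : Mor Y Z) (f : Mor X Y)
    (h : Function.Injective (A.map (g.comp f))) : Function.Injective (A.map f) := by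
  rw [A.map_comp, LinearMap.coe_comp] at h
  exact h.of_comp

theorem inj_comp (A : VIC) {X Y Z : Ob} (g : Mor Y Z) (f : Mor X Y)
    (hg : Function.Injective (A.map g)) (hf : Function.Injective (A.map f)) :
    Function.Injective (A.map (g.comp f)) := by
  rw [A.map_comp, LinearMap.coe_comp]
  exact hg.comp hf

theorem inj_id (A : VIC) (X : Ob) : Function.Injective (A.map (Mor.id X)) := by
  rw [A.map_id]
  exact Function.injective_id

/-- The inverse of an isomorphism. -/
def inv {X Y : Ob} (g : Mor X Y) (hg : g.i * g.r = 1) : Mor Y X := ⟨g.r, g.i, hg⟩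

theorem inv_comp {X Y : Ob} (g : Mor X Y) (hg : g.i * g.r = 1) :
    (inv g hg).comp g = Mor.id X := by
  apply Mor.ext <;> simp [Mor.comp, Mor.id, inv, g.ri]

theorem comp_inv {X Y : Ob} (g : Mor X Y) (hg : g.i * g.r = 1) :
    g.comp (inv g hg) = Mor.id Y := by
  apply Mor.ext <;> simp [Mor.comp, Mor.id, inv, hg]

theorem inj_iso (A : VIC) {X Y : Ob} (g : Mor X Y) (hg : g.i * g.r = 1) :
    Function.Injective (A.map g) :=
  inj_of_comp A (inv g hg) g (by rw [inv_comp]; exact inj_id A X)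

theorem comp_assoc {X Y Z T : Ob} (h : Mor Z T) (g : Mor Y Z) (f : Mor X Y) :
    (h.comp g).comp f = h.comp (g.comp f) := by
  apply Mor.ext <;> simp [Mor.comp, Matrix.mul_assoc]

/-- If one morphism out of `X` is injective on `A`, so are those with a smaller target. -/
theorem inj_of_le (hZ : S_Zext) (A : VIC) {X Y Y' : Ob} (m' : Mor X Y')
    (h : Function.Injective (A.map m')) (m : Mor X Y) (hc : Y.card ≤ Y'.card) :
    Function.Injective (A.map m) := by
  obtain ⟨T, g, hg, hT, rfl⟩ := hZ X Y m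
  obtain ⟨T', g', -, hT', rfl⟩ := hZ X Y' m'
  obtain ⟨f⟩ : Nonempty (T.ι ↪ T'.ι) :=
    Function.Embedding.nonempty_of_card_le (show T.card ≤ T'.card by omega)
  refine inj_comp A g _ (inj_iso A g hg) ?_
  refine inj_of_comp A ((Mor.id X).sum (Mor.emb f)) _ ?_
  rw [Mor.sum_comp_inl, comp_id]
  exact inj_of_comp A g' _ h

theorem om_inj (hI : S_isSl) (hh : S_hw) (he : S_emb) (A : VIC) {n : ℕ} (hn : 3 ≤ n)
    (i : Fin (n + 1)) [FiniteDimensional ℚ (A.obj (Ob.std n))]
    (h1 : Unip (A.rep (Ob.std n))) (h2 : Unip (A.rep (Ob.std (n + 1))))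
    (hx : ∀ φ ∈ AnnL A n, ∃ φ' : Module.Dual ℚ (A.obj (Ob.std (n + 1))), φ'.comp (om A i) = φ) :
    Function.Injective (om A i) := by
  obtain ⟨-, hb, -, -, -, -, -, hinj⟩ := hh (Fin n) (A.obj (Ob.std n)) (Xop (A.rep (Ob.std n)))
    (ordF true n) (hI _ _ _ h1).1 (by simpa using hn) (ordF_inj n)
  rw [← LinearMap.ker_eq_bot]
  refine hinj _ ?_ ?_
  · intro a b v hv
    have h3 := (he A (Ob.std (n + 1)) (Ob.std n) i.succAboveEmb h2).2.2.1 h1 a b
    have h4 := LinearMap.congr_fun h3 v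
    simp only [LinearMap.comp_apply] at h4
    rw [LinearMap.mem_ker] at hv ⊢
    rw [← h4, hv, map_zero]
  · rw [eq_bot_iff, ← hb]
    rintro v ⟨hv, hS⟩
    refine ⟨hS, (Subspace.forall_mem_dualAnnihilator_apply_eq_zero_iff _ v).1 fun φ hφ => ?_⟩
    obtain ⟨φ', rfl⟩ := hx φ hφ
    rw [LinearMap.comp_apply, LinearMap.mem_ker.1 hv, map_zero]

theorem emb_iso {X Y : Ob} (e : X.ι ≃ Y.ι) :
    (Mor.emb e.toEmbedding).i * (Mor.emb e.toEmbedding).r = 1 := by
  ext a b
  obtain ⟨a, rfl⟩ := e.surjective a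
  simp only [Mor.emb, Matrix.mul_apply, Matrix.one_apply, Matrix.of_apply,
    Equiv.coe_toEmbedding, EmbeddingLike.apply_eq_iff_eq]
  rw [Finset.sum_eq_single a] <;> simp +contextual

end JR4

/-- The maps of an algebraic functor are injective in large rank. -/
theorem p_Rinj (hZ : S_Zext) (hI : S_isSl) (hh : S_hw) (he : S_emb) (hst : S_stab) : S_Rinj := by
  intro A hA
  obtain ⟨n0, N, hN, -, hF, hx⟩ := hst A hA
  have step : ∀ n, N ≤ n → ∃ m : Mor (Ob.std n) (Ob.std (n + 1)),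
      Function.Injective (A.map m) := by
    intro n hn
    obtain ⟨_, h1⟩ := hF (Ob.std n) (by simp; omega)
    obtain ⟨-, h2⟩ := hF (Ob.std (n + 1)) (by simp; omega)
    refine ⟨_, om_inj hI hh he A (by omega) ⟨n0, by omega⟩ h1 h2 fun φ hφ => ?_⟩
    obtain ⟨φ', hφ', -⟩ := hx n hn ⟨n0, by omega⟩ rfl φ ((Submodule.mem_dualAnnihilator φ).1 hφ)
    exact ⟨φ', hφ'.2⟩
  have chain : ∀ n, N ≤ n → ∀ k, ∃ m : Mor (Ob.std n) (Ob.std (n + k)),
      Function.Injective (A.map m) := by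
    intro n hn k
    induction k with
    | zero => exact ⟨Mor.id _, inj_id A _⟩
    | succ k ih =>
      obtain ⟨m, hm⟩ := ih
      obtain ⟨m', hm'⟩ := step (n + k) (by omega)
      exact ⟨m'.comp m, inj_comp A m' m hm' hm⟩
  refine ⟨N, fun X Y m hX => ?_⟩
  obtain ⟨m', hm'⟩ := chain X.card hX Y.card
  let e : X.ι ≃ (Ob.std X.card).ι := Fintype.equivFin X.ι
  exact inj_of_le hZ A (m'.comp (Mor.emb e.toEmbedding))
    (inj_comp A _ _ hm' (inj_iso A _ (emb_iso e))) m (by simp)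

end Pool.Agent.Lib.MP_49df17_al
end

-- part Pool.Agent.Lib.MP_49df17_al.SF
section

/-!
The stable decomposition of the duals of the values of an algebraic functor.
-/

namespace Pool.Agent.Lib.MP_49df17_al

open Matrix

namespace JSF

section Gen

variable {M : Type} [AddCommGroup M] [Module ℚ M]

theorem ulog_apply_of_nil {E : Module.End ℚ M} {m : ℕ} (hm : (E - 1) ^ m = 0) (v : M) :
    ulog E v = ∑ k ∈ Finset.range m, ((-1 : ℚ) ^ k / (k + 1)) • ((E - 1) ^ (k + 1)) v := by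
  have h : ∀ v, LU E v := fun v => ⟨m, by rw [hm]; rfl⟩
  unfold ulog
  rw [dif_pos h]
  change (∑ᶠ k : ℕ, ((-1 : ℚ) ^ k / (k + 1)) • ((E - 1) ^ (k + 1)) v) = _
  apply finsum_eq_sum_of_support_subset
  intro k hk
  by_contra hk'
  obtain ⟨d, hd⟩ : ∃ d, k + 1 = d + m := ⟨k + 1 - m, by simp at hk'; omega⟩
  exact hk (by simp only [hd, pow_add, hm, mul_zero, LinearMap.zero_apply, smul_zero])

theorem nil_of_LU [FiniteDimensional ℚ M] {E : Module.End ℚ M} (h : ∀ v, LU E v) :
    ∃ m : ℕ, (E - 1) ^ m = 0 := by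
  classical
  let b := Module.finBasis ℚ M
  choose m hm using h
  refine ⟨Finset.univ.sup fun i => m (b i), b.ext fun i => ?_⟩
  obtain ⟨d, hd⟩ : ∃ d, (Finset.univ.sup fun i => m (b i)) = d + m (b i) :=
    ⟨_, (Nat.sub_add_cancel (Finset.le_sup (f := fun i => m (b i)) (Finset.mem_univ i))).symm⟩
  rw [hd, pow_add, Module.End.mul_apply, hm, map_zero, LinearMap.zero_apply]

theorem dual_pow (E : Module.End ℚ M) (k : ℕ) (φ : Module.Dual ℚ M) (v : M) :
    (((E.dualMap : Module.End ℚ (Module.Dual ℚ M)) - 1) ^ k) φ v = φ (((E - 1) ^ k) v) := by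
  induction k generalizing φ with
  | zero => simp
  | succ k ih =>
    rw [pow_succ, Module.End.mul_apply, ih, pow_succ', Module.End.mul_apply]
    simp

theorem dual_log [FiniteDimensional ℚ M] {E : Module.End ℚ M} (h : ∀ v, LU E v) :
    (∀ φ, LU (E.dualMap : Module.End ℚ (Module.Dual ℚ M)) φ) ∧
    ∀ φ v, ulog (E.dualMap : Module.End ℚ (Module.Dual ℚ M)) φ v = φ (ulog E v) := by
  obtain ⟨m, hm⟩ := nil_of_LU h
  have hm' : ((E.dualMap : Module.End ℚ (Module.Dual ℚ M)) - 1) ^ m = 0 := by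
    ext φ v
    rw [dual_pow, hm]; simp
  refine ⟨fun φ => ⟨m, by rw [hm']; rfl⟩, fun φ v => ?_⟩
  rw [ulog_apply_of_nil hm', ulog_apply_of_nil hm, map_sum, LinearMap.sum_apply]
  refine Finset.sum_congr rfl fun k _ => ?_
  rw [LinearMap.smul_apply, dual_pow, map_smul]

variable {ι : Type} [Fintype ι] [DecidableEq ι]

theorem dual_apply' (ρ : Representation ℚ (GL ι ℤ) M) (g : GL ι ℤ) :
    ρ.dual g = (ρ g⁻¹).dualMap := rfl

theorem dual_X (hlog : S_log) [FiniteDimensional ℚ M] (ρ : Representation ℚ (GL ι ℤ) M)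
    (hρ : Unip ρ) : Unip ρ.dual ∧ ∀ a b φ v, Xop ρ.dual a b φ v = -φ (Xop ρ a b v) := by
  have key : ∀ a b, (∀ v, LU (ρ (elem a b)⁻¹) v) ∧ ulog (ρ (elem a b)⁻¹) = -ulog (ρ (elem a b)) :=
    fun a b => ((hlog M).1 (ρ (elem a b)) (hρ a b)).2.2.2.2.2 _
      (by rw [← map_mul, mul_inv_cancel, map_one]) (by rw [← map_mul, inv_mul_cancel, map_one])
  refine ⟨fun a b φ => ?_, fun a b φ v => ?_⟩
  · rw [dual_apply']; exact (dual_log (key a b).1).1 φ
  · unfold Xop
    rw [dual_apply', (dual_log (key a b).1).2, (key a b).2]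
    simp

omit [Fintype ι] [DecidableEq ι] in
theorem dual_H {X : ι → ι → Module.End ℚ M} {X' : ι → ι → Module.End ℚ (Module.Dual ℚ M)}
    (h : ∀ a b φ v, X' a b φ v = -φ (X a b v)) (a b : ι) (φ : Module.Dual ℚ M) (v : M) :
    Hop X' a b φ v = -φ (Hop X a b v) := by
  simp [Hop, h]

theorem Wt_sub (X : ι → ι → Module.End ℚ M) (μ : ι → ℤ) (c : ℤ) {v : M} (hv : v ∈ Wt X μ) :
    v ∈ Wt X fun a => μ a - c := by
  rw [mem_Wt] at hv ⊢
  intro a b
  rw [hv]
  congr 2
  ring

/-- A space that is a sum of weight spaces has a basis of weight vectors. -/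
theorem exists_wt_basis [FiniteDimensional ℚ M] {κ : Type} (W : κ → Submodule ℚ M)
    (U : Submodule ℚ M) (hU : U = ⨆ μ, U ⊓ W μ) :
    ∃ (k : ℕ) (v : Fin k → M) (μ : Fin k → κ), (∀ j, v j ∈ W (μ j)) ∧ LinearIndependent ℚ v ∧
      Submodule.span ℚ (Set.range v) = U := by
  obtain ⟨b, hb, hsp, hli⟩ := exists_linearIndependent ℚ (⋃ μ, ((U ⊓ W μ : Submodule ℚ M) : Set M))
  have hfin : b.Finite := hli.setFinite
  have := hfin.fintype
  let e := (Fintype.equivFin b).symm
  have hw : ∀ j, ∃ μ, (e j : M) ∈ W μ := fun j => by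
    obtain ⟨μ, hμ⟩ := Set.mem_iUnion.1 (hb (e j).2)
    exact ⟨μ, hμ.2⟩
  choose μ hμ using hw
  refine ⟨_, fun j => e j, μ, hμ, hli.comp e e.injective, ?_⟩
  have : Set.range (fun j => (e j : M)) = b := by
    ext x
    constructor
    · rintro ⟨j, rfl⟩; exact (e j).2
    · intro hx; exact ⟨e.symm ⟨x, hx⟩, by simp⟩
  rw [this, hsp, ← Submodule.iSup_eq_span, ← hU]

end Gen

theorem exists_list (f : ℕ → ℕ) (n0 : ℕ) (hf : Antitone f) (h0 : f n0 = 0) :
    ∃ L : List ℕ, L.Pairwise (· ≥ ·) ∧ (∀ a ∈ L, 0 < a) ∧ L.length ≤ n0 ∧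
      ∀ i, L.getD i 0 = f i := by
  classical
  have hex : ∃ m, f m = 0 := ⟨n0, h0⟩
  refine ⟨(List.range (Nat.find hex)).map f, ?_, ?_, ?_, ?_⟩
  · rw [List.pairwise_map]
    exact List.pairwise_lt_range.imp fun h => hf h.le
  · intro a ha
    obtain ⟨i, hi, rfl⟩ := List.mem_map.1 ha
    exact Nat.pos_of_ne_zero (Nat.find_min hex (List.mem_range.1 hi))
  · simpa using Nat.find_min' hex h0
  · intro i
    by_cases hi : i < Nat.find hex
    · rw [List.getD_eq_getElem _ _ (by simpa using hi)]; simp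
    · rw [List.getD_eq_default _ _ (by simpa using not_lt.1 hi)]
      have := hf (not_lt.1 hi)
      rw [Nat.find_spec hex] at this
      omega

theorem exists_bip (n0 N : ℕ) (hN : 2 * n0 + 1 ≤ N) (μ : Fin N → ℤ) (hμ : Antitone μ)
    (h1 : μ ⟨n0, by omega⟩ = 0) (h2 : μ ⟨N - 1 - n0, by omega⟩ = 0) :
    ∃ l : Bipartition, l.pos.length ≤ n0 ∧ l.neg.length ≤ n0 ∧ l.wt N = μ := by
  obtain ⟨P, hP1, hP2, hP3, hP4⟩ := exists_list
    (fun i => if h : i < N then (μ ⟨i, h⟩).toNat else 0) n0 (by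
      intro i j hij
      dsimp only
      by_cases hj : j < N
      · rw [dif_pos hj, dif_pos (hij.trans_lt hj)]
        exact Int.toNat_le_toNat (hμ (show (⟨i, _⟩ : Fin N) ≤ ⟨j, hj⟩ from hij))
      · rw [dif_neg hj]; exact Nat.zero_le _) (by
      rw [dif_pos (by omega), h1]; rfl)
  obtain ⟨Q, hQ1, hQ2, hQ3, hQ4⟩ := exists_list
    (fun i => if h : i < N then (-μ ⟨N - 1 - i, by omega⟩).toNat else 0) n0 (by
      intro i j hij
      dsimp only
      by_cases hj : j < N
      · rw [dif_pos hj, dif_pos (hij.trans_lt hj)]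
        refine Int.toNat_le_toNat (neg_le_neg (hμ ?_))
        change N - 1 - j ≤ N - 1 - i
        omega
      · rw [dif_neg hj]; exact Nat.zero_le _) (by
      rw [dif_pos (by omega), h2]; rfl)
  refine ⟨⟨P, Q, hP1, hQ1, hP2, hQ2⟩, hP3, hQ3, funext fun i => ?_⟩
  have hi := i.2
  unfold Bipartition.wt
  dsimp only
  rw [hP4, hQ4, dif_pos i.2, dif_pos (by omega)]
  have : (⟨N - 1 - (N - 1 - i), by omega⟩ : Fin N) = i := Fin.ext (by dsimp only; omega)
  rw [this]
  exact Int.toNat_sub_toNat_neg _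

theorem wt_mid (l : Bipartition) {n0 n : ℕ} (h1 : l.pos.length ≤ n0) (h2 : l.neg.length ≤ n0)
    (c : Fin n) (hc : n0 ≤ c) (hc' : c + n0 + 1 ≤ n) : l.wt n c = 0 := by
  unfold Bipartition.wt
  rw [List.getD_eq_default _ _ (by omega), List.getD_eq_default _ _ (by omega)]
  rfl

theorem wt_succAbove (l : Bipartition) {n0 n : ℕ} (h1 : l.pos.length ≤ n0)
    (h2 : l.neg.length ≤ n0) (hn : 2 * n0 ≤ n) (i : Fin (n + 1)) (hi : i.val = n0) (a : Fin n) :
    l.wt (n + 1) (i.succAbove a) = l.wt n a := by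
  unfold Bipartition.wt
  have ha := a.2
  by_cases h : a.castSucc < i
  · have h' : a.val < n0 := by rw [← hi]; exact h
    rw [Fin.succAbove_of_castSucc_lt _ _ h, Fin.val_castSucc,
      List.getD_eq_default l.neg _ (by omega), List.getD_eq_default l.neg _ (by omega)]
  · have h' : n0 ≤ a.val := by rw [← hi]; exact not_lt.1 h
    rw [Fin.succAbove_of_le_castSucc _ _ (not_lt.1 h), Fin.val_succ,
      List.getD_eq_default l.pos _ (by omega), List.getD_eq_default l.pos _ (by omega)]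
    have : n + 1 - 1 - (a.val + 1) = n - 1 - a.val := by omega
    rw [this]

theorem ord_lt {n : ℕ} (a b : Fin n) : ordF true n b < ordF true n a ↔ a < b := by
  have := a.2
  have := b.2
  simp only [ordF, if_true, Fin.lt_def]
  omega

theorem ord_inj (n : ℕ) : Function.Injective (ordF true n) := by
  intro a b h
  have := a.2
  have := b.2
  simp only [ordF, if_true] at h
  exact Fin.ext (by omega)

theorem mid_of {n0 n : ℕ} (c : Fin n) (hc : n0 ≤ c) (hc' : c + n0 + 1 ≤ n) :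
    Mid n0 (ordF true n) c := by
  constructor
  · have : {b | ordF true n b < ordF true n c} = (Finset.Ioi c : Finset (Fin n)) := by
      ext b; simp [ord_lt]
    rw [this, Set.ncard_coe_finset, Fin.card_Ioi]
    omega
  · have : {b | ordF true n c < ordF true n b} = (Finset.Iio c : Finset (Fin n)) := by
      ext b; simp [ord_lt]
    rw [this, Set.ncard_coe_finset, Fin.card_Iio]
    omega

theorem sgn_inv {ι : Type} [Fintype ι] [DecidableEq ι] (c : ι) : (sgn c)⁻¹ = sgn c :=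
  Units.ext rfl

section Main

variable (A : VIC)

/-- The root operators on the dual. -/
noncomputable abbrev XD (n : ℕ) : Fin n → Fin n → Module.End ℚ (Module.Dual ℚ (A.obj (Ob.std n))) :=
  Xop (ι := Fin n) (A.rep (Ob.std n)).dual

/-- The root operators. -/
noncomputable abbrev XO (n : ℕ) : Fin n → Fin n → Module.End ℚ (A.obj (Ob.std n)) :=
  Xop (ι := Fin n) (A.rep (Ob.std n))

variable {A}

theorem sing_iff {n : ℕ} (h : ∀ a b φ v, XD A n a b φ v = -φ (XO A n a b v))
    (φ : Module.Dual ℚ (A.obj (Ob.std n))) :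
    φ ∈ Sing (XD A n) Fin.val ↔ ∀ v ∈ Low (XO A n) (ordF true n), φ v = 0 := by
  rw [mem_Sing]
  constructor
  · intro H v hv
    have : Low (XO A n) (ordF true n) ≤ LinearMap.ker φ := by
      refine iSup_le fun a => iSup_le fun b => iSup_le fun hab => ?_
      rintro _ ⟨w, rfl⟩
      have h1 := h a b φ w
      rw [H a b ((ord_lt a b).1 hab)] at h1
      simpa using h1.symm
    exact this hv
  · intro H a b hab
    ext w
    rw [h, H _ (Submodule.mem_iSup_of_mem a (Submodule.mem_iSup_of_mem b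
      (Submodule.mem_iSup_of_mem ((ord_lt a b).2 hab) ⟨w, rfl⟩)))]
    simp

/-- Facts about singular covectors and middle indices. -/
theorem mid_facts (hQ : S_Q) (hemb : S_emb) (hlog : S_log) (hsl : S_isSl) (hhw : S_hw)
    {n0 n : ℕ} (hG : GenIn A n0) [FiniteDimensional ℚ (A.obj (Ob.std n))]
    (hU : Unip (A.rep (Ob.std n))) (hn : 2 * n0 + 3 ≤ n)
    (φ : Module.Dual ℚ (A.obj (Ob.std n))) (hφ : φ ∈ Sing (XD A n) Fin.val) :
    (∀ c d : Fin n, Mid n0 (ordF true n) c → Mid n0 (ordF true n) d → Hop (XD A n) c d φ = 0) ∧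
    ∀ c : Fin n, Mid n0 (ordF true n) c → (A.rep (Ob.std n)).dual (sgn c) φ = φ := by
  classical
  obtain ⟨hUD, hXD⟩ := dual_X hlog (A.rep (Ob.std n)) hU
  let Y : Ob := Ob.of {a : Fin n // ¬ Mid n0 (ordF true n) a}
  let e : Y.ι ↪ (Ob.std n).ι := Function.Embedding.subtype _
  have hgen := hQ A n0 (Ob.std n) Y (ordF true n) e hG hU (by simp; omega) (by simp; omega)
    (ord_inj n) (fun a ha => ⟨⟨a, ha⟩, rfl⟩)
  have hne : ∀ c : Fin n, Mid n0 (ordF true n) c → c ∉ Set.range e := by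
    rintro c hc ⟨a, rfl⟩
    exact a.2 hc
  have hzero : ∀ ψ ∈ Sing (XD A n) Fin.val, (∀ w, ψ (A.map (Mor.emb e) w) = 0) → ψ = 0 := by
    intro ψ hψ h0
    have h1 := (sing_iff hXD ψ).1 hψ
    have h2 : genBy (lowX (XO A n) (ordF true n)) (LinearMap.range (A.map (Mor.emb e))) ≤
        LinearMap.ker ψ := by
      refine genBy_le ?_ ?_
      · rintro _ ⟨w, rfl⟩; exact h0 w
      · rintro _ ⟨a, b, hab, rfl⟩ v _
        exact h1 _ (Submodule.mem_iSup_of_mem a (Submodule.mem_iSup_of_mem b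
          (Submodule.mem_iSup_of_mem hab ⟨v, rfl⟩)))
    ext v
    exact h2 (by rw [hgen]; trivial)
  obtain ⟨hE1, hE2, -⟩ := hemb A (Ob.std n) Y e hU
  obtain ⟨hS1, hS2, -⟩ := hsl (Fin n) _ (A.rep (Ob.std n)).dual hUD
  have hw := hhw (Fin n) _ (XD A n) Fin.val hS1 (by simp; omega) Fin.val_injective
  refine ⟨fun c d hc hd => hzero _ (hw.2.2.2.2.1 c d φ hφ) fun w => ?_, fun c hc => ?_⟩
  · have e1 := LinearMap.congr_fun (hE1 c d (hne c hc) (hne d hd)) w
    have e2 := LinearMap.congr_fun (hE1 d c (hne d hd) (hne c hc)) w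
    rw [LinearMap.comp_apply, LinearMap.zero_apply] at e1 e2
    rw [dual_H hXD, Hop, LinearMap.sub_apply, Module.End.mul_apply, Module.End.mul_apply, e1, e2]
    simp
  · rw [← sub_eq_zero]
    refine hzero _ (Submodule.sub_mem _ ?_ hφ) fun w => ?_
    · rw [mem_Sing] at hφ ⊢
      intro a b hab
      have e1 := LinearMap.congr_fun (hS2 a b c) φ
      rw [Module.End.mul_apply, hφ a b hab, map_zero, LinearMap.smul_apply,
        Module.End.mul_apply] at e1
      have e2 : (if (a = c ↔ b = c) then (1 : ℚ) else -1) ≠ 0 := by split_ifs <;> norm_num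
      exact (smul_eq_zero.1 e1.symm).resolve_left e2
    · have e1 := LinearMap.congr_fun (hE2 c (hne c hc)) w
      rw [LinearMap.comp_apply] at e1
      rw [LinearMap.sub_apply, dual_apply', sgn_inv, LinearMap.dualMap_apply, e1, sub_self]

/-- A basis of singular covectors with the weights of the bipartitions `l`. -/
def Good (A : VIC) {k : ℕ} (l : Fin k → Bipartition) (n : ℕ) : Prop :=
  ∃ v : Fin k → Module.Dual ℚ (A.obj (Ob.std n)), (∀ j, v j ∈ Wt (XD A n) ((l j).wt n)) ∧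
    LinearIndependent ℚ v ∧ Submodule.span ℚ (Set.range v) = Sing (XD A n) Fin.val

theorem base (hQ : S_Q) (hemb : S_emb) (hlog : S_log) (hsl : S_isSl) (hhw : S_hw)
    {n0 n : ℕ} (hG : GenIn A n0) [FiniteDimensional ℚ (A.obj (Ob.std n))]
    (hU : Unip (A.rep (Ob.std n))) (hn : 2 * n0 + 3 ≤ n) :
    ∃ (k : ℕ) (l : Fin k → Bipartition), (∀ j, (l j).pos.length ≤ n0 ∧ (l j).neg.length ≤ n0) ∧
      Good A l n := by
  obtain ⟨hUD, hXD⟩ := dual_X hlog (A.rep (Ob.std n)) hU
  obtain ⟨hS1, -⟩ := hsl (Fin n) _ (A.rep (Ob.std n)).dual hUD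
  have hw := hhw (Fin n) _ (XD A n) Fin.val hS1 (by simp; omega) Fin.val_injective
  obtain ⟨k, v, μ, h1, h2, h3⟩ := exists_wt_basis (Wt (XD A n)) (Sing (XD A n) Fin.val)
    (hw.1 _ hw.2.2.2.2.1)
  have hs : ∀ j, v j ∈ Sing (XD A n) Fin.val := fun j => by
    rw [← h3]; exact Submodule.subset_span ⟨j, rfl⟩
  let c : Fin n := ⟨n0, by omega⟩
  let d : Fin n := ⟨n - 1 - n0, by omega⟩
  have hb : ∀ j, ∃ l : Bipartition, l.pos.length ≤ n0 ∧ l.neg.length ≤ n0 ∧
      l.wt n = fun a => μ j a - μ j c := fun j => by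
    refine exists_bip n0 n (by omega) _ ?_ (sub_self _) ?_
    · intro a b hab
      rcases hab.eq_or_lt with rfl | hab
      · exact le_rfl
      · exact sub_le_sub_right (hw.2.2.2.2.2.2.1 (μ j) (v j) (h2.ne_zero j) (hs j) (h1 j) a b hab) _
    · have e1 := (mid_facts hQ hemb hlog hsl hhw hG hU hn (v j) (hs j)).1 d c
        (mid_of d (by dsimp only [d]; omega) (by dsimp only [d]; omega))
        (mid_of c le_rfl (by dsimp only [c]; omega))
      rw [mem_Wt.1 (h1 j)] at e1
      have e2 := (smul_eq_zero.1 e1).resolve_right (h2.ne_zero j)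
      exact_mod_cast e2
  choose l hl1 hl2 hl3 using hb
  exact ⟨k, l, fun j => ⟨hl1 j, hl2 j⟩, v, fun j => by rw [hl3]; exact Wt_sub _ _ _ (h1 j), h2, h3⟩

theorem step (hQ : S_Q) (hemb : S_emb) (hlog : S_log) (hsl : S_isSl) (hhw : S_hw) (hslg : S_slg)
    {n0 n : ℕ} (hG : GenIn A n0) [FiniteDimensional ℚ (A.obj (Ob.std n))]
    [FiniteDimensional ℚ (A.obj (Ob.std (n + 1)))]
    (hU : Unip (A.rep (Ob.std n))) (hU' : Unip (A.rep (Ob.std (n + 1)))) (hn : 2 * n0 + 3 ≤ n)
    (i : Fin (n + 1)) (hi : i.val = n0)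
    (hst : ∀ φ : Module.Dual ℚ (A.obj (Ob.std n)),
      (∀ v ∈ Low (Xop (A.rep (Ob.std n))) (ordF true n), φ v = 0) →
      ∃! φ' : Module.Dual ℚ (A.obj (Ob.std (n + 1))),
        (∀ v ∈ Low (Xop (A.rep (Ob.std (n + 1)))) (ordF true (n + 1)), φ' v = 0) ∧
        φ'.comp (A.map (Mor.emb (X := Ob.std n) (Y := Ob.std (n + 1)) i.succAboveEmb)) = φ)
    {k : ℕ} {l : Fin k → Bipartition}
    (hl : ∀ j, (l j).pos.length ≤ n0 ∧ (l j).neg.length ≤ n0) (hg : Good A l n) :
    Good A l (n + 1) := by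
  obtain ⟨v, h1, h2, h3⟩ := hg
  obtain ⟨hUD, hXD⟩ := dual_X hlog (A.rep (Ob.std n)) hU
  obtain ⟨hUD', hXD'⟩ := dual_X hlog (A.rep (Ob.std (n + 1))) hU'
  obtain ⟨hS1', -⟩ := hsl (Fin (n + 1)) _ (A.rep (Ob.std (n + 1))).dual hUD'
  have hw' := hhw (Fin (n + 1)) _ (XD A (n + 1)) Fin.val hS1' (by simp; omega) Fin.val_injective
  have hadd := (hslg (Fin (n + 1)) _ (XD A (n + 1)) hS1' (by simp; omega)).2.1
  set f := A.map (Mor.emb (X := Ob.std n) (Y := Ob.std (n + 1)) i.succAboveEmb) with hf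
  have hcomm : ∀ a b w, XO A (n + 1) (i.succAbove a) (i.succAbove b) (f w) = f (XO A n a b w) :=
    fun a b w => LinearMap.congr_fun
      ((hemb A (Ob.std (n + 1)) (Ob.std n) i.succAboveEmb hU').2.2.1 hU a b) w
  have hs : ∀ j, v j ∈ Sing (XD A n) Fin.val := fun j => by
    rw [← h3]; exact Submodule.subset_span ⟨j, rfl⟩
  have hlift : ∀ j, ∃ φ' ∈ Sing (XD A (n + 1)) Fin.val, f.dualMap φ' = v j := fun j => by
    obtain ⟨φ', ⟨e1, e2⟩, -⟩ := hst (v j) ((sing_iff hXD _).1 (hs j))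
    exact ⟨φ', (sing_iff hXD' _).2 e1, e2⟩
  have hinj : ∀ φ' ∈ Sing (XD A (n + 1)) Fin.val, f.dualMap φ' = 0 → φ' = 0 := by
    intro φ' e1 e2
    exact (hst 0 fun _ _ => rfl).unique ⟨(sing_iff hXD' _).1 e1, e2⟩
      ⟨fun _ _ => rfl, LinearMap.zero_comp _⟩
  have hres : ∀ φ' ∈ Sing (XD A (n + 1)) Fin.val, f.dualMap φ' ∈ Sing (XD A n) Fin.val := by
    intro φ' e1
    rw [mem_Sing] at e1 ⊢
    intro a b hab
    ext w
    have e2 := LinearMap.congr_fun (e1 (i.succAbove a) (i.succAbove b)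
      (Fin.succAbove_lt_succAbove_iff.2 hab)) (f w)
    rw [hXD', hcomm] at e2
    rw [hXD, LinearMap.dualMap_apply]
    exact e2
  choose v' hv1 hv2 using hlift
  refine ⟨v', fun j => ?_, ?_, ?_⟩
  · let m : Fin n := ⟨n0, by omega⟩
    have hm : (i.succAbove m).val = n0 + 1 := by
      rw [Fin.succAbove_of_le_castSucc _ _ (by rw [Fin.le_def, hi]; exact le_rfl)]; rfl
    have hmi : Mid n0 (ordF true (n + 1)) i := mid_of i (by omega) (by omega)
    have hmm : Mid n0 (ordF true (n + 1)) (i.succAbove m) := mid_of _ (by omega) (by omega)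
    have hwi : (l j).wt (n + 1) i = 0 := wt_mid _ (hl j).1 (hl j).2 _ (by omega) (by omega)
    have hwm : (l j).wt (n + 1) (i.succAbove m) = 0 :=
      wt_mid _ (hl j).1 (hl j).2 _ (by omega) (by omega)
    have hmid := (mid_facts hQ hemb hlog hsl hhw hG hU' (by omega) (v' j) (hv1 j)).1
    have hT : ∀ a b, Hop (XD A (n + 1)) (i.succAbove a) (i.succAbove b) (v' j) =
        (((l j).wt (n + 1) (i.succAbove a) - (l j).wt (n + 1) (i.succAbove b) : ℤ) : ℚ) • v' j := by
      intro a b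
      rw [← sub_eq_zero]
      refine hinj _ (Submodule.sub_mem _ (hw'.2.2.2.2.1 _ _ _ (hv1 j))
        (Submodule.smul_mem _ _ (hv1 j))) ?_
      rw [map_sub, map_smul, hv2, wt_succAbove _ (hl j).1 (hl j).2 (by omega) i hi,
        wt_succAbove _ (hl j).1 (hl j).2 (by omega) i hi, ← mem_Wt.1 (h1 j), sub_eq_zero]
      ext w
      rw [LinearMap.dualMap_apply, dual_H hXD', dual_H hXD, ← hv2, LinearMap.dualMap_apply]
      simp only [Hop, LinearMap.sub_apply, Module.End.mul_apply, map_sub]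
      rw [hcomm, hcomm, hcomm, hcomm]
    have hT1 : ∀ a, Hop (XD A (n + 1)) a (i.succAbove m) (v' j) =
        (((l j).wt (n + 1) a - (l j).wt (n + 1) (i.succAbove m) : ℤ) : ℚ) • v' j := by
      intro a
      rcases Fin.eq_self_or_eq_succAbove i a with rfl | ⟨a, rfl⟩
      · rw [hmid _ _ hmi hmm, hwi, hwm]; simp
      · exact hT a m
    have hT2 : ∀ a, Hop (XD A (n + 1)) (i.succAbove m) a (v' j) =
        (((l j).wt (n + 1) (i.succAbove m) - (l j).wt (n + 1) a : ℤ) : ℚ) • v' j := by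
      intro a
      rcases Fin.eq_self_or_eq_succAbove i a with rfl | ⟨a, rfl⟩
      · rw [hmid _ _ hmm hmi, hwi, hwm]; simp
      · exact hT m a
    rw [mem_Wt]
    intro a b
    rw [← hadd a (i.succAbove m) b, LinearMap.add_apply, hT1, hT2, ← add_smul]
    congr 1
    push_cast
    ring
  · refine LinearIndependent.of_comp f.dualMap ?_
    have : f.dualMap ∘ v' = v := funext hv2
    rw [this]; exact h2
  · apply le_antisymm
    · rw [Submodule.span_le]
      rintro _ ⟨j, rfl⟩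
      exact hv1 j
    · intro φ' hφ'
      have e1 := hres φ' hφ'
      rw [← h3, Submodule.mem_span_range_iff_exists_fun] at e1
      obtain ⟨c, hc⟩ := e1
      have e2 : φ' - ∑ j, c j • v' j = 0 := by
        refine hinj _ (Submodule.sub_mem _ hφ' (Submodule.sum_mem _ fun j _ =>
          Submodule.smul_mem _ _ (hv1 j))) ?_
        rw [map_sub, map_sum, ← hc, sub_eq_zero]
        exact Finset.sum_congr rfl fun j _ => by rw [map_smul, hv2]
      rw [sub_eq_zero.1 e2]
      exact Submodule.sum_mem _ fun j _ => Submodule.smul_mem _ _ (Submodule.subset_span ⟨j, rfl⟩)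

theorem final (hQ : S_Q) (hemb : S_emb) (hlog : S_log) (hsl : S_isSl) (hhw : S_hw)
    (hstruct : S_struct) (hmodel : S_model) (hZ : S_Zgen)
    {n0 n : ℕ} (hG : GenIn A n0) [FiniteDimensional ℚ (A.obj (Ob.std n))]
    (hU : Unip (A.rep (Ob.std n))) (hn : 2 * n0 + 3 ≤ n) {k : ℕ} {l : Fin k → Bipartition}
    (hl : ∀ j, (l j).pos.length ≤ n0 ∧ (l j).neg.length ≤ n0) (hg : Good A l n) :
    ∃ (V : Fin k → ModuleCat.{0} ℚ) (ρ : ∀ j, Representation ℚ (GL (Fin n) ℚ) (V j)),
      (∀ j, IsIrrepOfWeight (ρ j) ((l j).wt n)) ∧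
      ∃ e : Module.Dual ℚ (A.obj (Ob.std n)) ≃ₗ[ℚ] (∀ j, V j),
        ∀ (g : GL (Fin n) ℤ) (φ : Module.Dual ℚ (A.obj (Ob.std n))) (j : Fin k),
          e (φ.comp (A.rep (Ob.std n) g⁻¹)) j = ρ j (toQ n g) (e φ j) := by
  obtain ⟨v, h1, h2, h3⟩ := hg
  obtain ⟨hUD, hXD⟩ := dual_X hlog (A.rep (Ob.std n)) hU
  obtain ⟨hS1, hS2, -⟩ := hsl (Fin n) _ (A.rep (Ob.std n)).dual hUD
  have hw := hhw (Fin n) _ (XD A n) Fin.val hS1 (by simp; omega) Fin.val_injective
  have hs : ∀ j, v j ∈ Sing (XD A n) Fin.val := fun j => by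
    rw [← h3]; exact Submodule.subset_span ⟨j, rfl⟩
  have hanti : ∀ j, Antitone ((l j).wt n) := fun j a b hab => by
    rcases hab.eq_or_lt with rfl | hab
    · exact le_rfl
    · exact hw.2.2.2.2.2.2.1 _ (v j) (h2.ne_zero j) (hs j) (h1 j) a b hab
  choose V ρ u m1 m2 m3 m4 m5 m6 m7 using fun j => hmodel n ((l j).wt n) (by omega) (hanti j)
  have hT := fun j => hsl (Fin n) _ ((ρ j).comp (toQ n)) (m2 j)
  obtain ⟨e, he1, he2⟩ := (hstruct (Fin n) Fin.val (by simp; omega) Fin.val_injective).2 _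
    (XD A n) k (fun j => (l j).wt n) v V (fun j => Xop (ι := Fin n) ((ρ j).comp (toQ n))) u hS1 h1
    h2 h3 fun j => ⟨(m1 j).1.1, (hT j).1, m3 j, m4 j, m5 j, m6 j⟩
  refine ⟨V, ρ, m1, e, fun g => ?_⟩
  change ∀ φ j, e ((A.rep (Ob.std n)).dual g φ) j = ρ j (toQ n g) (e φ j)
  let c : Fin n := ⟨n0, by omega⟩
  have hc : Mid n0 (ordF true n) c := mid_of c le_rfl (by dsimp only [c]; omega)
  have hg : g ∈ Subgroup.closure ({g | ∃ a b, g = elem a b} ∪ {sgn c}) := by
    rw [hZ (Fin n) c]; trivial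
  induction hg using Subgroup.closure_induction with
  | mem g hg =>
    rcases hg with ⟨a, b, rfl⟩ | rfl
    · intro φ j
      have := (((hlog _).1 _ (hUD a b)).2.2.2.1 (V j) (ρ j (toQ n (elem a b)))
        ((LinearMap.proj j).comp e.toLinearMap) (m2 j a b)).2
        (LinearMap.ext fun x => he1 a b x j)
      exact LinearMap.congr_fun this φ
    · intro φ j
      let D : Module.Dual ℚ (A.obj (Ob.std n)) →ₗ[ℚ] V j :=
        ((LinearMap.proj j).comp e.toLinearMap).comp ((A.rep (Ob.std n)).dual (sgn c)) -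
          (ρ j (toQ n (sgn c))).comp ((LinearMap.proj j).comp e.toLinearMap)
      have hD : ∀ x, x ∈ LinearMap.ker D ↔
          e ((A.rep (Ob.std n)).dual (sgn c) x) j = ρ j (toQ n (sgn c)) (e x j) := fun x => by
        rw [LinearMap.mem_ker]; exact sub_eq_zero
      have hle : genBy (lowX (XD A n) Fin.val) (Sing (XD A n) Fin.val) ≤ LinearMap.ker D := by
        refine genBy_le ?_ ?_
        · rw [← h3, Submodule.span_le]
          rintro _ ⟨j', rfl⟩
          refine (hD _).2 ?_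
          rw [(mid_facts hQ hemb hlog hsl hhw hG hU hn (v j') (hs j')).2 c hc, he2]
          by_cases hj : j = j'
          · subst hj
            rw [Pi.single_eq_same,
              m7 j c (wt_mid _ (hl j).1 (hl j).2 _ le_rfl (by dsimp only [c]; omega))]
          · rw [Pi.single_eq_of_ne hj, map_zero]
        · rintro _ ⟨a, b, -, rfl⟩ x hx
          rw [hD] at hx ⊢
          have e1 := LinearMap.congr_fun (hS2 a b c) x
          have e2 := LinearMap.congr_fun ((hT j).2.1 a b c) (e x j)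
          simp only [Module.End.mul_apply, LinearMap.smul_apply] at e1 e2
          rw [e1, map_smul, Pi.smul_apply, he1, he1, hx]
          exact e2.symm
      exact (hD φ).1 (hle (by rw [hw.2.2.2.1]; trivial))
  | one =>
    intro φ j
    rw [map_one, map_one, map_one, Module.End.one_apply, Module.End.one_apply]
  | mul g h _ _ ig ih =>
    intro φ j
    rw [map_mul, map_mul, map_mul, Module.End.mul_apply, Module.End.mul_apply, ig, ih]
  | inv g _ ig =>
    intro φ j
    have e1 := ig ((A.rep (Ob.std n)).dual g⁻¹ φ) j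
    rw [← Module.End.mul_apply, ← map_mul, mul_inv_cancel, map_one, Module.End.one_apply] at e1
    rw [e1, ← Module.End.mul_apply, ← map_mul, ← map_mul, inv_mul_cancel, map_one, map_one,
      Module.End.one_apply]

end Main

end JSF

theorem p_SFdual (hstab : S_stab) (hQ : S_Q) (hstruct : S_struct) (hmodel : S_model) (hhw : S_hw)
    (hslg : S_slg) (hsl : S_isSl) (hlog : S_log) (hemb : S_emb) (hZ : S_Zgen) : S_SFdual := by
  intro A hA
  obtain ⟨n0, N, hN, hG, hF, hst⟩ := hstab A hA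
  have hF' : ∀ n, N ≤ n → FiniteDimensional ℚ (A.obj (Ob.std n)) ∧ Unip (A.rep (Ob.std n)) :=
    fun n hn => hF _ (by simp; omega)
  have := (hF' N le_rfl).1
  obtain ⟨k, l, hl, hg⟩ := JSF.base hQ hemb hlog hsl hhw hG (hF' N le_rfl).2 hN
  have hall : ∀ n, N ≤ n → JSF.Good A l n := by
    intro n hn
    induction n, hn using Nat.le_induction with
    | base => exact hg
    | succ n hn ih =>
      have := (hF' n hn).1
      have := (hF' (n + 1) (by omega)).1
      exact JSF.step hQ hemb hlog hsl hhw hslg hG (hF' n hn).2 (hF' (n + 1) (by omega)).2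
        (by omega) ⟨n0, by omega⟩ rfl (hst n hn _ rfl) hl ih
  refine ⟨N, k, l, fun j => by have := hl j; omega, fun n hn => ?_⟩
  have := (hF' n hn).1
  exact JSF.final hQ hemb hlog hsl hhw hstruct hmodel hZ hG (hF' n hn).2 (by omega) hl (hall n hn)

end Pool.Agent.Lib.MP_49df17_al
end
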