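import Pool.Agent.Lib.MP_49df17_al.Core

-- part Pool.Agent.Lib.MP_49df17_al.R3
section

/-!
Highest weight theory of finite-dimensional modules with the relations of `sl`.
-/

namespace Pool.Agent.Lib.MP_49df17_al

namespace JR3

set_option linter.unusedSectionVars false

section Sl2

variable {M : Type} [AddCommGroup M] [Module ℚ M]

/-- The relations of an `sl 2` triple. -/
structure Tri (e f h : Module.End ℚ M) : Prop where
  ef : ∀ w, e (f w) = f (e w) + h w
  he : ∀ w, h (e w) = e (h w) + (2 : ℚ) • e w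
  hf : ∀ w, h (f w) = f (h w) - (2 : ℚ) • f w
  ne : ∀ w, ∃ m : ℕ, (e ^ m) w = 0
  nf : ∀ w, ∃ m : ℕ, (f ^ m) w = 0

variable {e f h : Module.End ℚ M}

theorem Tri.symm (T : Tri e f h) : Tri f e (-h) where
  ef w := by rw [T.ef]; simp
  he w := by simp only [LinearMap.neg_apply, T.hf, map_neg]; abel
  hf w := by simp only [LinearMap.neg_apply, T.he, map_neg]; abel
  ne := T.nf
  nf := T.ne

theorem Tri.pow_ef (T : Tri e f h) (k : ℕ) : ∀ w, (e ^ (k + 1)) (f w) =
    f ((e ^ (k + 1)) w) + ((k : ℚ) + 1) • (e ^ k) (h w + (k : ℚ) • w) := by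
  induction k with
  | zero => intro w; simp [T.ef]
  | succ k ih =>
    intro w
    have h1 : ∀ x, (e ^ (k + 1 + 1)) x = (e ^ (k + 1)) (e x) := fun x => by
      rw [pow_succ, Module.End.mul_apply]
    have h2 : ∀ x, (e ^ (k + 1)) x = (e ^ k) (e x) := fun x => by
      rw [pow_succ, Module.End.mul_apply]
    rw [h1, T.ef, map_add, ih, h1, T.he]
    simp only [map_add, map_smul, h2]
    push_cast
    module

/-- Eigenvalues of `h` on the kernel of `e` are natural numbers. -/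
theorem Tri.nat (T : Tri e f h) {v : M} {c : ℚ} (hv : v ≠ 0) (he : e v = 0) (hh : h v = c • v) :
    ∃ k : ℕ, c = k := by
  classical
  have hex := T.nf v
  have hk := Nat.find_spec hex
  obtain ⟨k, hk'⟩ : ∃ k, Nat.find hex = k + 1 := by
    refine Nat.exists_eq_succ_of_ne_zero fun h0 => hv ?_
    rw [h0] at hk; simpa using hk
  have hne : (f ^ k) v ≠ 0 := Nat.find_min hex (by omega)
  rw [hk'] at hk
  have := T.symm.pow_ef k v
  rw [he, hk, map_zero, map_zero, zero_add, LinearMap.neg_apply, hh, ← neg_smul, ← add_smul,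
    map_smul, smul_smul] at this
  have h3 := (smul_eq_zero.1 this.symm).resolve_right hne
  have h4 : (k : ℚ) + 1 ≠ 0 := by positivity
  have h5 := (mul_eq_zero.1 h3).resolve_left h4
  exact ⟨k, by linarith⟩

theorem Tri.aux (T : Tri e f h) (k : ℕ) : ∀ w, e (f w) = 0 → (e ^ k) w = 0 → f w = 0 := by
  induction k with
  | zero => intro w _ h0; simp at h0; simp [h0]
  | succ k ih =>
    intro w h1 h2
    have h3 := T.pow_ef k w
    have h4 : (e ^ (k + 1)) (f w) = 0 := by rw [pow_succ, Module.End.mul_apply, h1, map_zero]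
    rw [h4, h2, map_zero, zero_add] at h3
    have h5 : (k : ℚ) + 1 ≠ 0 := by positivity
    have h6 := (smul_eq_zero.1 h3.symm).resolve_left h5
    have h7 : f (h w + (k : ℚ) • w) = h (f w) + ((k : ℚ) + 2) • f w := by
      rw [T.hf, map_add, map_smul]; module
    have h8 : e (f (h w + (k : ℚ) • w)) = 0 := by
      have := T.he (f w)
      rw [h1, map_zero, smul_zero, add_zero] at this
      rw [h7, map_add, map_smul, h1, ← this]; simp
    have h9 := ih _ h8 h6
    by_contra hne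
    obtain ⟨m, hm⟩ := T.nat (c := -((k : ℚ) + 2)) hne h1 (by
      rw [h7] at h9; rw [neg_smul]; exact eq_neg_of_add_eq_zero_left h9)
    have : (0 : ℚ) ≤ m := by positivity
    have : (0 : ℚ) ≤ k := by positivity
    linarith

theorem Tri.disj (T : Tri e f h) : LinearMap.ker e ⊓ LinearMap.range f = ⊥ := by
  rw [eq_bot_iff]
  rintro _ ⟨h1, w, rfl⟩
  obtain ⟨m, hm⟩ := T.ne w
  exact T.aux m w h1 hm

theorem Tri.codisj [FiniteDimensional ℚ M] (T : Tri e f h) :
    LinearMap.ker e ⊔ LinearMap.range f = ⊤ := by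
  apply Submodule.eq_top_of_finrank_eq
  have h1 := Submodule.finrank_sup_add_finrank_inf_eq (LinearMap.ker e) (LinearMap.range f)
  have h2 := Submodule.finrank_sup_add_finrank_inf_eq (LinearMap.ker f) (LinearMap.range e)
  rw [T.disj] at h1
  rw [T.symm.disj] at h2
  have h3 := e.finrank_range_add_finrank_ker
  have h4 := f.finrank_range_add_finrank_ker
  have h5 := Submodule.finrank_le (LinearMap.ker e ⊔ LinearMap.range f)
  have h6 := Submodule.finrank_le (LinearMap.ker f ⊔ LinearMap.range e)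
  simp only [finrank_bot] at h1 h2
  omega

/-- The sum of the eigenspaces with integral eigenvalue. -/
def IE (h : Module.End ℚ M) : Submodule ℚ M := ⨆ m : ℤ, h.eigenspace (m : ℚ)

theorem Tri.ker_aux (T : Tri e f h) (k : ℕ) : ∀ v, e v = 0 → (f ^ k) v = 0 →
    v ∈ ⨆ (m : ℕ) (_ : m < k), h.eigenspace (m : ℚ) := by
  induction k with
  | zero => intro v _ h0; simp at h0; simp [h0]
  | succ k ih =>
    intro v h1 h2
    have h3 := T.symm.pow_ef k v
    rw [h1, h2, map_zero, map_zero, zero_add] at h3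
    have h5 : (k : ℚ) + 1 ≠ 0 := by positivity
    have h6 := (smul_eq_zero.1 h3.symm).resolve_left h5
    have h7 : e ((-h) v + (k : ℚ) • v) = 0 := by
      have := T.he v
      rw [h1, map_zero, smul_zero, add_zero] at this
      rw [map_add, map_smul, h1, LinearMap.neg_apply, map_neg, ← this]; simp
    have h8 := ih _ h7 h6
    set E := ⨆ (m : ℕ) (_ : m < k), h.eigenspace (m : ℚ) with hE
    have h9 : E ≤ E.map (-h + (k : ℚ) • (1 : Module.End ℚ M)) := by
      refine iSup₂_le fun m hm x hx => ?_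
      have hmk : (k : ℚ) - m ≠ 0 := by
        have : (m : ℚ) < k := by exact_mod_cast hm
        linarith
      refine ⟨((k : ℚ) - m)⁻¹ • x, Submodule.smul_mem _ _
        (Submodule.mem_iSup_of_mem m (Submodule.mem_iSup_of_mem hm hx)), ?_⟩
      rw [Module.End.mem_eigenspace_iff] at hx
      rw [map_smul, LinearMap.add_apply, LinearMap.neg_apply, hx, LinearMap.smul_apply,
        Module.End.one_apply, ← neg_smul, ← add_smul, smul_smul, neg_add_eq_sub,
        inv_mul_cancel₀ hmk, one_smul]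
    obtain ⟨u, hu, hu'⟩ := h9 h8
    have h10 : v - u ∈ h.eigenspace (k : ℚ) := by
      rw [Module.End.mem_eigenspace_iff, map_sub, smul_sub]
      simp only [LinearMap.add_apply, LinearMap.neg_apply, LinearMap.smul_apply,
        Module.End.one_apply] at hu'
      linear_combination (norm := module) hu'
    have h11 : v = (v - u) + u := by abel
    rw [h11]
    refine Submodule.add_mem _
      (Submodule.mem_iSup_of_mem k (Submodule.mem_iSup_of_mem (Nat.lt_succ_self k) h10)) ?_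
    refine (iSup₂_le fun m hm => ?_ : E ≤ _) hu
    exact le_iSup₂_of_le m (Nat.lt_succ_of_lt hm) le_rfl

theorem Tri.ie [FiniteDimensional ℚ M] (T : Tri e f h) : IE h = ⊤ := by
  have h1 : LinearMap.ker e ≤ IE h := by
    intro v hv
    obtain ⟨k, hk⟩ := T.nf v
    refine (iSup₂_le fun m _ => ?_ : _ ≤ IE h) (T.ker_aux k v hv hk)
    exact le_iSup_of_le (m : ℤ) (by simp)
  have h2 : ∀ v ∈ IE h, f v ∈ IE h := by
    have : IE h ≤ (IE h).comap f := by
      refine iSup_le fun m x hx => ?_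
      refine Submodule.mem_iSup_of_mem (m - 2) ?_
      rw [Module.End.mem_eigenspace_iff] at hx ⊢
      rw [T.hf, hx, map_smul]; push_cast; module
    exact fun v hv => this hv
  have h3 : ∀ k : ℕ, ∀ v, ∃ x ∈ IE h, ∃ y, v = x + (f ^ k) y := by
    intro k
    induction k with
    | zero => intro v; exact ⟨0, zero_mem _, v, by simp⟩
    | succ k ih =>
      intro v
      have hv : v ∈ LinearMap.ker e ⊔ LinearMap.range f := T.codisj ▸ Submodule.mem_top
      obtain ⟨a, ha, _, ⟨b, rfl⟩, rfl⟩ := Submodule.mem_sup.1 hv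
      obtain ⟨x, hx, y, rfl⟩ := ih b
      refine ⟨a + f x, add_mem (h1 ha) (h2 x hx), y, ?_⟩
      rw [map_add, pow_succ', Module.End.mul_apply]; abel
  obtain ⟨N, hN⟩ : IsNilpotent f := Module.End.isNilpotent_iff_of_finite.2 T.nf
  rw [eq_top_iff]
  intro v _
  obtain ⟨x, hx, y, rfl⟩ := h3 N v
  simpa [hN] using hx

/-- A vector with a negative eigenvalue lies in the image of `f`. -/
theorem Tri.neg_mem [FiniteDimensional ℚ M] (T : Tri e f h) {w : M} {c : ℚ} (hc : c < 0)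
    (hw : h w = c • w) : w ∈ LinearMap.range f := by
  have hv : w ∈ LinearMap.ker e ⊔ LinearMap.range f := T.codisj ▸ Submodule.mem_top
  obtain ⟨a, ha, _, ⟨b, rfl⟩, rfl⟩ := Submodule.mem_sup.1 hv
  have h1 : h a - c • a ∈ LinearMap.ker e ⊓ LinearMap.range f := by
    refine ⟨?_, c • b - h b + (2 : ℚ) • b, ?_⟩
    · have := T.he a
      have ha' : e a = 0 := ha
      rw [ha', map_zero, smul_zero, add_zero] at this
      change e _ = 0
      rw [map_sub, map_smul, ha', ← this]; simp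
    · rw [map_add, T.hf, smul_add] at hw
      rw [map_add, map_sub, map_smul, map_smul]
      linear_combination (norm := module) -hw
  rw [T.disj, Submodule.mem_bot, sub_eq_zero] at h1
  by_cases ha0 : a = 0
  · simp [ha0]
  · obtain ⟨k, hk⟩ := T.nat ha0 ha h1
    have : (0 : ℚ) ≤ k := by positivity
    linarith

end Sl2

section Main

variable {ι M : Type} [Fintype ι] [DecidableEq ι] [AddCommGroup M] [Module ℚ M]

/-- The root attached to a pair of indices. -/
def rt (c d : ι) : ι → ℤ := Pi.single c 1 - Pi.single d 1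

/-- The relations that are used. -/
structure Rel (X : ι → ι → Module.End ℚ M) : Prop where
  sl : IsSl X
  pos : 0 < Fintype.card ι
  add : ∀ a b c, Hop X a b + Hop X b c = Hop X a c
  comm : ∀ a b c d, Hop X a b * Hop X c d = Hop X c d * Hop X a b
  hx : ∀ a b c d, Hop X a b * X c d - X c d * Hop X a b = ((rt c d a - rt c d b : ℤ) : ℚ) • X c d
  wt : ∀ μ c d, ∀ v ∈ Wt X μ, X c d v ∈ Wt X (μ + rt c d)
  disj : ∀ μ, Disjoint (Wt X μ) (⨆ (ν : ι → ℤ) (_ : ∃ a b, ν a - ν b ≠ μ a - μ b), Wt X ν)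

variable {X : ι → ι → Module.End ℚ M} {ord : ι → ℕ}

theorem Rel.hx_apply (R : Rel X) (a b c d : ι) (w : M) :
    Hop X a b (X c d w) = X c d (Hop X a b w) + ((rt c d a - rt c d b : ℤ) : ℚ) • X c d w := by
  have := congrArg (fun T => T w) (R.hx a b c d)
  simp only [LinearMap.sub_apply, Module.End.mul_apply, LinearMap.smul_apply] at this
  rw [← this]; abel

theorem Rel.tri (R : Rel X) {a b : ι} (hab : a ≠ b) : Tri (X a b) (X b a) (Hop X a b) where
  ef w := by simp [Hop]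
  he w := by
    rw [R.hx_apply]; congr 2
    simp [rt, hab, hab.symm]
  hf w := by
    rw [R.hx_apply, sub_eq_add_neg _ ((2 : ℚ) • _), ← neg_smul]; congr 2
    simp [rt, hab, hab.symm]
  ne := R.sl.nil a b
  nf := R.sl.nil b a

theorem Hop_self (X : ι → ι → Module.End ℚ M) (a : ι) : Hop X a a = 0 := by simp [Hop]

theorem Rel.ie [FiniteDimensional ℚ M] (R : Rel X) (a b : ι) : IE (Hop X a b) = ⊤ := by
  by_cases hab : a = b
  · subst hab
    rw [eq_top_iff]
    refine le_iSup_of_le 0 fun v _ => ?_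
    rw [Module.End.mem_eigenspace_iff]; simp [Hop_self]
  · exact (R.tri hab).ie

theorem inf_ie [FiniteDimensional ℚ M] {h : Module.End ℚ M} (hh : IE h = ⊤) (U : Submodule ℚ M)
    (hU : ∀ v ∈ U, h v ∈ U) : U ≤ ⨆ m : ℤ, U ⊓ h.eigenspace (m : ℚ) := by
  have h1 : ⨆ c : ℚ, h.genEigenspace c 1 = ⊤ := by
    rw [eq_top_iff, ← hh]
    exact iSup_le fun m => le_iSup_of_le (m : ℚ) le_rfl
  have h2 := Submodule.eq_iSup_inf_genEigenspace 1 hU h1
  refine h2.le.trans (iSup_le fun c => ?_)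
  by_cases hc : ∃ m : ℤ, c = m
  · obtain ⟨m, rfl⟩ := hc
    exact le_iSup_of_le m le_rfl
  · have h3 : Disjoint (h.genEigenspace c 1) (⨆ (j : ℚ) (_ : j ≠ c), h.genEigenspace j 1) :=
      h.independent_genEigenspace 1 c
    have h4 : (⨆ (j : ℚ) (_ : j ≠ c), h.genEigenspace j 1) = ⊤ := by
      rw [eq_top_iff, ← hh]
      exact iSup_le fun m => le_iSup₂_of_le (m : ℚ) (fun e => hc ⟨m, e.symm⟩) le_rfl
    rw [h4, disjoint_top] at h3
    rw [h3]; simp

theorem Rel.decomp [FiniteDimensional ℚ M] (R : Rel X) (U : Submodule ℚ M)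
    (hU : ∀ a b, ∀ v ∈ U, Hop X a b v ∈ U) : U = ⨆ μ, U ⊓ Wt X μ := by
  refine le_antisymm ?_ (iSup_le fun μ => inf_le_left)
  obtain ⟨o⟩ : Nonempty ι := Fintype.card_pos_iff.1 R.pos
  have key : ∀ s : Finset ι, U ≤ ⨆ μ : ι → ℤ,
      U ⊓ ⨅ a ∈ s, (Hop X a o).eigenspace (μ a : ℚ) := by
    intro s
    induction s using Finset.induction_on with
    | empty => exact le_iSup_of_le 0 (by simp)
    | insert b s hb ih =>
      refine ih.trans (iSup_le fun μ => ?_)
      refine (inf_ie (R.ie b o) _ ?_).trans (iSup_le fun m => ?_)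
      · rintro v ⟨hv, hv'⟩
        refine ⟨hU _ _ v hv, ?_⟩
        simp only [SetLike.mem_coe, Submodule.mem_iInf, Module.End.mem_eigenspace_iff] at hv' ⊢
        intro a ha
        rw [← Module.End.mul_apply, R.comm, Module.End.mul_apply, hv' a ha, map_smul]
      · refine le_iSup_of_le (Function.update μ b m) ?_
        rintro v ⟨⟨hv, hv'⟩, hv''⟩
        refine ⟨hv, ?_⟩
        simp only [SetLike.mem_coe, Submodule.mem_iInf] at hv' hv'' ⊢
        intro a ha
        rcases Finset.mem_insert.1 ha with rfl | ha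
        · simpa using hv''
        · rw [Function.update_of_ne (fun e : a = b => hb (e ▸ ha))]; exact hv' a ha
  refine (key Finset.univ).trans (iSup_mono fun μ => inf_le_inf_left _ fun v hv => ?_)
  simp only [Submodule.mem_iInf, Module.End.mem_eigenspace_iff] at hv
  rw [mem_Wt]
  intro a b
  have h1 := congrArg (fun T => T v) (R.add a b o)
  simp only [LinearMap.add_apply, hv a (Finset.mem_univ _), hv b (Finset.mem_univ _)] at h1
  push_cast
  rw [sub_smul, ← h1]; abel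

theorem Rel.top [FiniteDimensional ℚ M] (R : Rel X) : ⨆ μ, Wt X μ = ⊤ := by
  have := R.decomp ⊤ fun _ _ _ _ => Submodule.mem_top
  simpa using this.symm

/-- Dominant weights. -/
def Dom (ord : ι → ℕ) (μ : ι → ℤ) : Prop := ∀ a b, ord a < ord b → μ b ≤ μ a

theorem Rel.dom (R : Rel X) {μ : ι → ℤ} {v : M} (hv : v ≠ 0) (h1 : v ∈ Sing X ord)
    (h2 : v ∈ Wt X μ) : Dom ord μ := by
  intro a b hab
  have hne : a ≠ b := fun e => by simp [e] at hab
  obtain ⟨k, hk⟩ := (R.tri hne).nat hv (mem_Sing.1 h1 a b hab) (mem_Wt.1 h2 a b)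
  have : μ a - μ b = (k : ℤ) := by exact_mod_cast hk
  omega

/-- The height of a weight. -/
def ht (ord : ι → ℕ) (μ : ι → ℤ) : ℤ := ∑ a, ∑ b, if ord a < ord b then μ a - μ b else 0

theorem ht_add (μ ν : ι → ℤ) : ht ord (μ + ν) = ht ord μ + ht ord ν := by
  simp only [ht, ← Finset.sum_add_distrib]
  refine Finset.sum_congr rfl fun a _ => Finset.sum_congr rfl fun b _ => ?_
  split_ifs <;> simp; ring

theorem ht_single (c : ι) : ht ord (Pi.single c 1) =
    ∑ b, ((if ord c < ord b then 1 else 0) - if ord b < ord c then 1 else 0) := by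
  have : ∀ a b, (if ord a < ord b then (Pi.single c 1 : ι → ℤ) a - (Pi.single c 1 : ι → ℤ) b
      else 0) = (if a = c then (if ord c < ord b then 1 else 0) else 0) -
        if b = c then (if ord a < ord c then 1 else 0) else 0 := by
    intro a b
    by_cases ha : a = c <;> by_cases hb : b = c <;> simp [ha, hb]
    split_ifs <;> simp
  simp only [ht, this, Finset.sum_sub_distrib]
  rw [Finset.sum_comm]
  simp

theorem ht_rt {c d : ι} (h : ord c < ord d) : 0 < ht ord (rt c d) := by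
  have h1 : ht ord (rt c d) + ht ord (Pi.single d 1) = ht ord (Pi.single c 1) := by
    rw [← ht_add]; simp [rt]
  have h2 : ht ord (Pi.single d 1) < ht ord (Pi.single c 1) := by
    rw [ht_single, ht_single]
    refine Finset.sum_lt_sum (fun b _ => ?_) ⟨d, Finset.mem_univ _, ?_⟩
    · split_ifs <;> omega
    · split_ifs <;> omega
  omega

/-- Descending induction on weights. -/
theorem desc [FiniteDimensional ℚ M] (X : ι → ι → Module.End ℚ M) (ord : ι → ℕ)
    (P : (ι → ℤ) → Prop) (h0 : ∀ μ, Wt X μ = ⊥ → P μ)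
    (h1 : ∀ μ, (∀ c d, ord c < ord d → P (μ + rt c d)) → P μ) : ∀ μ, P μ := by
  let T : Module.End ℚ M := ∑ a, ∑ b, if ord a < ord b then Hop X a b else 0
  have hT : ∀ μ, ∀ v ∈ Wt X μ, T v = (ht ord μ : ℚ) • v := by
    intro μ v hv
    simp only [T, ht, LinearMap.sum_apply]
    push_cast
    simp only [Finset.sum_smul]
    refine Finset.sum_congr rfl fun a _ => Finset.sum_congr rfl fun b _ => ?_
    split_ifs
    · rw [mem_Wt.1 hv]; push_cast; rfl
    · simp
  obtain ⟨B, hB⟩ := (T.finite_hasEigenvalue).bddAbove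
  obtain ⟨N, hN⟩ := exists_int_gt B
  have hb : ∀ μ, N ≤ ht ord μ → Wt X μ = ⊥ := by
    intro μ hμ
    rw [eq_bot_iff]
    intro v hv
    by_contra hv0
    have : T.HasEigenvalue (ht ord μ : ℚ) :=
      Module.End.hasEigenvalue_of_hasEigenvector ⟨Module.End.mem_eigenspace_iff.2 (hT μ v hv), hv0⟩
    have h2 : (ht ord μ : ℚ) ≤ B := hB this
    have h3 : (N : ℚ) ≤ ht ord μ := by exact_mod_cast hμ
    linarith
  have key : ∀ k : ℕ, ∀ μ, N - ht ord μ ≤ k → P μ := by
    intro k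
    induction k with
    | zero => intro μ hμ; exact h0 μ (hb μ (by simpa using hμ))
    | succ k ih =>
      intro μ hμ
      refine h1 μ fun c d hcd => ih _ ?_
      have := ht_rt (ord := ord) hcd
      rw [ht_add]; push_cast at hμ; omega
  intro μ
  exact key (N - ht ord μ).toNat μ (Int.self_le_toNat _)

theorem Stable.hop {U : Submodule ℚ M} (hU : Stable X U) (a b : ι) (v : M) (hv : v ∈ U) :
    Hop X a b v ∈ U := by
  simp only [Hop, LinearMap.sub_apply, Module.End.mul_apply]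
  exact sub_mem (hU _ _ _ (hU _ _ _ hv)) (hU _ _ _ (hU _ _ _ hv))

theorem Rel.stable_bot [FiniteDimensional ℚ M] (R : Rel X) (U : Submodule ℚ M) (hU : Stable X U)
    (h : U ⊓ Sing X ord = ⊥) : U = ⊥ := by
  rw [R.decomp U (Stable.hop hU), iSup_eq_bot]
  refine desc X ord (fun μ => U ⊓ Wt X μ = ⊥) (fun μ hμ => by simp [hμ]) fun μ ih => ?_
  rw [eq_bot_iff, ← h]
  rintro v ⟨hv, hv'⟩
  refine ⟨hv, mem_Sing.2 fun c d hcd => ?_⟩
  have : X c d v ∈ U ⊓ Wt X (μ + rt c d) := ⟨hU _ _ _ hv, R.wt μ c d v hv'⟩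
  rwa [ih c d hcd, Submodule.mem_bot] at this

theorem sum_rt (c d : ι) : ∑ a, rt c d a = 0 := by
  simp [rt, Finset.sum_sub_distrib]

/-- The diagonal generators. -/
noncomputable def Dg (X : ι → ι → Module.End ℚ M) (a : ι) : Module.End ℚ M :=
  (Fintype.card ι : ℚ)⁻¹ • ∑ c, Hop X a c

theorem Rel.card_ne (R : Rel X) : (Fintype.card ι : ℚ) ≠ 0 := by
  have := R.pos
  positivity

theorem Rel.Dg_X (R : Rel X) (a c d : ι) :
    Dg X a * X c d - X c d * Dg X a = (rt c d a : ℚ) • X c d := by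
  have h1 : (∑ b, (rt c d b : ℚ)) = 0 := by exact_mod_cast sum_rt c d
  simp only [Dg, smul_mul_assoc, mul_smul_comm, ← smul_sub, Finset.sum_mul, Finset.mul_sum,
    ← Finset.sum_sub_distrib, R.hx, ← Finset.sum_smul, smul_smul]
  congr 1
  push_cast
  rw [← Finset.mul_sum, Finset.sum_sub_distrib, h1]
  simp only [Finset.sum_const, Finset.card_univ, nsmul_eq_mul, sub_zero]
  rw [← mul_assoc, inv_mul_cancel₀ R.card_ne, one_mul]

theorem Rel.Dg_sub (R : Rel X) (a b : ι) : Dg X a - Dg X b = Hop X a b := by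
  have : ∀ c, Hop X a c - Hop X b c = Hop X a b := fun c => by rw [← R.add a b c]; abel
  simp only [Dg, ← smul_sub, ← Finset.sum_sub_distrib, this, Finset.sum_const, Finset.card_univ]
  rw [← Nat.cast_smul_eq_nsmul ℚ, smul_smul, inv_mul_cancel₀ R.card_ne, one_smul]

theorem Rel.Dg_comm (R : Rel X) (a b : ι) : Dg X a * Dg X b = Dg X b * Dg X a := by
  simp only [Dg, smul_mul_assoc, mul_smul_comm, Finset.sum_mul, Finset.mul_sum,
    ← Finset.smul_sum]
  rw [Finset.sum_comm]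
  simp only [R.comm a _ b _]

/-- The generators of `gl`. -/
noncomputable def Eg (X : ι → ι → Module.End ℚ M) (a b : ι) : Module.End ℚ M :=
  if a = b then Dg X a else X a b

theorem Rel.gl (R : Rel X) (a b c d : ι) : Eg X a b * Eg X c d - Eg X c d * Eg X a b =
    (if b = c then Eg X a d else 0) - if a = d then Eg X c b else 0 := by
  by_cases hab : a = b
  · subst hab
    by_cases hcd : c = d
    · subst hcd
      by_cases hac : a = c
      · subst hac; simp
      · simp [Eg, hac, R.Dg_comm a c]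
    · have := R.Dg_X a c d
      by_cases hac : a = c
      · subst hac; simpa [Eg, hcd, rt] using this
      · by_cases had : a = d
        · subst had; simpa [Eg, hcd, hac, rt] using this
        · simpa [Eg, hcd, hac, had, rt] using this
  · by_cases hcd : c = d
    · subst hcd
      have := R.Dg_X c a b
      have h2 : X a b * Dg X c - Dg X c * X a b = -((rt a b c : ℚ) • X a b) := by
        rw [← this]; abel
      by_cases hbc : b = c
      · subst hbc; simpa [Eg, hab, rt, Ne.symm hab] using h2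
      · by_cases hac : a = c
        · subst hac; simpa [Eg, hab, hbc, rt] using h2
        · simpa [Eg, hab, hbc, hac, rt, Ne.symm hac, Ne.symm hbc] using h2
    · by_cases hbc : b = c
      · subst hbc
        by_cases had : a = d
        · subst had
          simp only [Eg, hab, hcd, if_true, if_false, R.Dg_sub, Hop]
        · simpa [Eg, hab, hcd, had] using R.sl.rel a b d hab hcd had
      · by_cases had : a = d
        · subst had
          have := R.sl.rel c a b hcd hab (Ne.symm hbc)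
          simp only [Eg, hab, hcd, hbc, Ne.symm hbc, if_true, if_false, ← this]
          abel
        · simp [Eg, hab, hcd, hbc, had, R.sl.comm a b c d hbc had]

/-- The Casimir operator. -/
noncomputable def Cas (X : ι → ι → Module.End ℚ M) : Module.End ℚ M :=
  ∑ a, ∑ b, Eg X a b * Eg X b a

theorem Rel.cas_Eg (R : Rel X) (c d : ι) : Cas X * Eg X c d = Eg X c d * Cas X := by
  rw [← sub_eq_zero]
  have h1 : ∀ a b, Eg X a b * Eg X b a * Eg X c d - Eg X c d * (Eg X a b * Eg X b a) =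
      Eg X a b * (Eg X b a * Eg X c d - Eg X c d * Eg X b a) +
        (Eg X a b * Eg X c d - Eg X c d * Eg X a b) * Eg X b a := fun a b => by noncomm_ring
  simp only [Cas, Finset.sum_mul, Finset.mul_sum, ← Finset.sum_sub_distrib, h1, R.gl]
  simp only [mul_sub, sub_mul, mul_ite, ite_mul, mul_zero, zero_mul, Finset.sum_add_distrib,
    Finset.sum_sub_distrib, Finset.sum_ite_eq', Finset.mem_univ, if_true]
  rw [Finset.sum_comm (f := fun a b => if a = c then Eg X a b * Eg X b d else 0),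
    Finset.sum_comm (f := fun a b => if a = d then Eg X c b * Eg X b a else 0)]
  simp only [Finset.sum_ite_eq', Finset.mem_univ, if_true]
  abel

theorem Rel.cas_X (R : Rel X) (c d : ι) (w : M) : Cas X (X c d w) = X c d (Cas X w) := by
  by_cases h : c = d
  · subst h; simp [R.sl.diag]
  · have := congrArg (fun T => T w) (R.cas_Eg c d)
    simpa [Eg, h] using this

/-- The mean of a weight. -/
noncomputable def mean (μ : ι → ℤ) : ℚ := (Fintype.card ι : ℚ)⁻¹ * ∑ c, (μ c : ℚ)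

/-- The eigenvalue of the Casimir operator. -/
noncomputable def cas (ord : ι → ℕ) (μ : ι → ℤ) : ℚ := ∑ a, ((μ a : ℚ) - mean μ) ^ 2 + ht ord μ

theorem Rel.Dg_wt (R : Rel X) {μ : ι → ℤ} {w : M} (hw : w ∈ Wt X μ) (a : ι) :
    Dg X a w = ((μ a : ℚ) - mean μ) • w := by
  simp only [Dg, LinearMap.smul_apply, LinearMap.sum_apply, mem_Wt.1 hw, ← Finset.sum_smul,
    smul_smul]
  congr 1
  push_cast
  rw [Finset.sum_sub_distrib, mul_sub, mean]
  simp only [Finset.sum_const, Finset.card_univ, nsmul_eq_mul]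
  rw [← mul_assoc, inv_mul_cancel₀ R.card_ne, one_mul]

theorem Rel.cas_wt (R : Rel X) (ho : Function.Injective ord) {μ : ι → ℤ} {w : M}
    (hw : w ∈ Wt X μ) : Cas X w = cas ord μ • w +
      (2 : ℚ) • ∑ a, ∑ b, if ord a < ord b then X b a (X a b w) else 0 := by
  have h1 : ∀ a b, Eg X a b (Eg X b a w) =
      (if a = b then ((μ a : ℚ) - mean μ) ^ 2 • w else 0) +
      ((if ord a < ord b then μ a - μ b else 0 : ℤ) : ℚ) • w +
      (if ord a < ord b then X b a (X a b w) else 0) +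
      (if ord b < ord a then X a b (X b a w) else 0) := by
    intro a b
    rcases lt_trichotomy (ord a) (ord b) with h | h | h
    · have hab : a ≠ b := fun e => by simp [e] at h
      have := mem_Wt.1 hw a b
      simp only [Hop, LinearMap.sub_apply, Module.End.mul_apply] at this
      simp only [Eg, hab, hab.symm, h, h.not_gt, if_true, if_false, ← this]
      abel
    · obtain rfl := ho h
      simp [Eg, R.Dg_wt hw, smul_smul, sq]
    · have hab : a ≠ b := fun e => by simp [e] at h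
      simp [Eg, hab, hab.symm, h, h.not_gt]
  simp only [Cas, LinearMap.sum_apply, Module.End.mul_apply, h1, Finset.sum_add_distrib,
    Finset.sum_ite_eq, Finset.mem_univ, if_true, ← Finset.sum_smul]
  rw [Finset.sum_comm (f := fun a b => if ord b < ord a then X a b (X b a w) else 0), cas, ht,
    add_smul, two_smul]
  push_cast
  abel

/-- `ν` is strictly higher than `μ`. -/
def Ab (ord : ι → ℕ) (μ ν : ι → ℤ) : Prop := ∑ a, ν a = ∑ a, μ a ∧
  (∀ l, Dom ord l → ∑ a, μ a * l a ≤ ∑ a, ν a * l a) ∧ ht ord μ < ht ord ν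

theorem sum_rt_mul (c d : ι) (l : ι → ℤ) : ∑ a, rt c d a * l a = l c - l d := by
  simp [rt, sub_mul, Finset.sum_sub_distrib, Pi.single_apply]

theorem Ab.base (μ : ι → ℤ) {c d : ι} (h : ord c < ord d) : Ab ord μ (μ + rt c d) := by
  refine ⟨by simp [Finset.sum_add_distrib, sum_rt], fun l hl => ?_, ?_⟩
  · have := hl c d h
    simp only [Pi.add_apply, add_mul, Finset.sum_add_distrib, sum_rt_mul]; omega
  · have := ht_rt h
    rw [ht_add]; omega

theorem Ab.step {μ ν : ι → ℤ} (H : Ab ord μ ν) {c d : ι} (h : ord c < ord d) :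
    Ab ord μ (ν + rt c d) := by
  have H' := Ab.base ν h
  exact ⟨H'.1.trans H.1, fun l hl => (H.2.1 l hl).trans (H'.2.1 l hl), H.2.2.trans H'.2.2⟩

theorem Ab.cas_lt {μ ν : ι → ℤ} (H : Ab ord μ ν) (hμ : Dom ord μ) (hν : Dom ord ν) :
    cas ord μ < cas ord ν := by
  have h0 : (∑ a, (ν a : ℚ)) = ∑ a, (μ a : ℚ) := by exact_mod_cast H.1
  have h1 : mean ν = mean μ := by rw [mean, mean, h0]
  have h2 : (∑ a, (μ a : ℚ) * μ a) ≤ ∑ a, (ν a : ℚ) * μ a := by exact_mod_cast H.2.1 μ hμ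
  have h3 : (∑ a, (μ a : ℚ) * ν a) ≤ ∑ a, (ν a : ℚ) * ν a := by exact_mod_cast H.2.1 ν hν
  have h4 : (ht ord μ : ℚ) < ht ord ν := by exact_mod_cast H.2.2
  have h5 : (∑ a, (ν a : ℚ) * μ a) = ∑ a, (μ a : ℚ) * ν a :=
    Finset.sum_congr rfl fun a _ => mul_comm _ _
  have h6 : ∀ κ : ι → ℤ, ∑ a, ((κ a : ℚ) - mean μ) ^ 2 =
      ∑ a, (κ a : ℚ) * κ a - 2 * mean μ * ∑ a, (κ a : ℚ) + ∑ _a : ι, mean μ ^ 2 := by
    intro κ
    rw [Finset.mul_sum, ← Finset.sum_sub_distrib, ← Finset.sum_add_distrib]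
    exact Finset.sum_congr rfl fun a _ => by ring
  rw [cas, cas, h1, h6, h6, h0]
  linarith

theorem Rel.inj [FiniteDimensional ℚ M] (R : Rel X) (ho : Function.Injective ord) {μ : ι → ℤ}
    (hμ : Dom ord μ) : ∀ ν, Ab ord μ ν → ∀ w ∈ Wt X ν, Cas X w = cas ord μ • w → w = 0 := by
  refine desc X ord _ (fun ν hν _ w hw _ => by simpa [hν] using hw) fun ν ih H w hw h => ?_
  have h1 : ∀ c d, ord c < ord d → X c d w = 0 := fun c d hcd =>
    ih c d hcd (H.step hcd) _ (R.wt ν c d w hw) (by rw [R.cas_X, h, map_smul])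
  by_contra h0
  have h2 := H.cas_lt hμ (R.dom h0 (mem_Sing.2 h1) hw)
  have h3 : (∑ a, ∑ b, if ord a < ord b then X b a (X a b w) else 0) = 0 := by
    refine Finset.sum_eq_zero fun a _ => Finset.sum_eq_zero fun b _ => ?_
    split_ifs with hab
    · rw [h1 a b hab, map_zero]
    · rfl
  rw [R.cas_wt ho hw, h3, smul_zero, add_zero, ← sub_eq_zero, ← sub_smul] at h
  exact h0 ((smul_eq_zero.1 h).resolve_left (by linarith))

/-- The shifted Casimir operator. -/
noncomputable def Sh (X : ι → ι → Module.End ℚ M) (c : ℚ) : Module.End ℚ M := Cas X - c • 1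

theorem Sh_apply (c : ℚ) (w : M) : Sh X c w = Cas X w - c • w := by simp [Sh]

theorem Rel.sh_X (R : Rel X) (c : ℚ) (a b : ι) (k : ℕ) (w : M) :
    (Sh X c ^ k) (X a b w) = X a b ((Sh X c ^ k) w) := by
  induction k with
  | zero => simp
  | succ k ih =>
    rw [pow_succ', Module.End.mul_apply, Module.End.mul_apply, ih, Sh_apply, Sh_apply, R.cas_X,
      map_sub, map_smul]

theorem Rel.sh_wt (R : Rel X) (c : ℚ) {ν : ι → ℤ} (w : M) (hw : w ∈ Wt X ν) :
    Sh X c w ∈ Wt X ν := by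
  rw [Sh_apply]
  refine sub_mem (mem_Wt.2 fun a b => ?_) (Submodule.smul_mem _ _ hw)
  rw [← map_smul, ← mem_Wt.1 hw a b]
  simp only [Hop, LinearMap.sub_apply, Module.End.mul_apply, map_sub, R.cas_X]

theorem Rel.sh_pow_wt (R : Rel X) (c : ℚ) {ν : ι → ℤ} (k : ℕ) (w : M) (hw : w ∈ Wt X ν) :
    (Sh X c ^ k) w ∈ Wt X ν := by
  induction k with
  | zero => simpa using hw
  | succ k ih => rw [pow_succ', Module.End.mul_apply]; exact R.sh_wt c _ ih

theorem Rel.inj_pow [FiniteDimensional ℚ M] (R : Rel X) (ho : Function.Injective ord)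
    {μ ν : ι → ℤ} (hμ : Dom ord μ) (H : Ab ord μ ν) (k : ℕ) {w : M} (hw : w ∈ Wt X ν)
    (h : (Sh X (cas ord μ) ^ k) w = 0) : w = 0 := by
  induction k with
  | zero => simpa using h
  | succ k ih =>
    rw [pow_succ', Module.End.mul_apply, Sh_apply, sub_eq_zero] at h
    exact ih (R.inj ho hμ ν H _ (R.sh_pow_wt _ k w hw) h)

theorem fit [FiniteDimensional ℚ M] (A : Module.End ℚ M) (U : Submodule ℚ M)
    (hU : ∀ v ∈ U, A v ∈ U) (n : ℕ) {w : M} (hw : w ∈ U) :
    ∃ N, ∃ k ∈ U, ∃ x ∈ U, (A ^ N) k = 0 ∧ w = k + (A ^ n) x := by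
  obtain ⟨N, hN⟩ := Filter.eventually_atTop.1
    (A.restrict hU).eventually_codisjoint_ker_pow_range_pow
  have h1 : (⟨w, hw⟩ : U) ∈ LinearMap.ker (A.restrict hU ^ (n + N)) ⊔
      LinearMap.range (A.restrict hU ^ (n + N)) :=
    (codisjoint_iff.1 (hN (n + N) (by omega))) ▸ Submodule.mem_top
  obtain ⟨k, hk, _, ⟨x, rfl⟩, h2⟩ := Submodule.mem_sup.1 h1
  have hc : ∀ (j : ℕ) (y : U), ((A.restrict hU ^ j) y : M) = (A ^ j) y := by
    intro j y
    induction j with
    | zero => simp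
    | succ j ih => rw [pow_succ', pow_succ', Module.End.mul_apply, Module.End.mul_apply, ← ih]; rfl
  refine ⟨n + N, k, k.2, (A.restrict hU ^ N) x, Subtype.prop _, ?_, ?_⟩
  · rw [← hc, LinearMap.mem_ker.1 hk]; rfl
  · have := congrArg Subtype.val h2
    rw [Submodule.coe_add, hc, pow_add, Module.End.mul_apply] at this
    rw [hc]; exact this.symm

/-- The part of `Low` that comes from the next higher weights. -/
def LowW (X : ι → ι → Module.End ℚ M) (ord : ι → ℕ) (μ : ι → ℤ) : Submodule ℚ M :=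
  ⨆ (a) (b) (_ : ord a < ord b), (Wt X (μ + rt a b)).map (X b a)

theorem mem_LowW {μ : ι → ℤ} {a b : ι} (h : ord a < ord b) {w : M} (hw : w ∈ Wt X (μ + rt a b)) :
    X b a w ∈ LowW X ord μ :=
  Submodule.mem_iSup_of_mem a (Submodule.mem_iSup_of_mem b
    (Submodule.mem_iSup_of_mem h ⟨w, hw, rfl⟩))

theorem mem_Low {a b : ι} (h : ord a < ord b) (w : M) : X b a w ∈ Low X ord :=
  Submodule.mem_iSup_of_mem b (Submodule.mem_iSup_of_mem a
    (Submodule.mem_iSup_of_mem h ⟨w, rfl⟩))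

theorem LowW_le_Low (μ : ι → ℤ) : LowW X ord μ ≤ Low X ord := by
  refine iSup_le fun a => iSup₂_le fun b h => ?_
  rintro _ ⟨w, _, rfl⟩
  exact mem_Low h w

theorem Rel.LowW_le_Wt (R : Rel X) (μ : ι → ℤ) : LowW X ord μ ≤ Wt X μ := by
  refine iSup_le fun a => iSup₂_le fun b _ => ?_
  rintro _ ⟨w, hw, rfl⟩
  have := R.wt _ b a w hw
  rwa [show μ + rt a b + rt b a = μ by simp only [rt]; abel] at this

theorem Rel.Low_inf [FiniteDimensional ℚ M] (R : Rel X) (μ : ι → ℤ) :
    Low X ord ⊓ Wt X μ ≤ LowW X ord μ := by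
  set O := ⨆ (ν : ι → ℤ) (_ : ∃ a b, ν a - ν b ≠ μ a - μ b), Wt X ν with hO
  have h1 : Low X ord ≤ LowW X ord μ ⊔ O := by
    refine iSup_le fun b => iSup₂_le fun a h => ?_
    rw [LinearMap.range_eq_map, ← R.top, Submodule.map_iSup]
    refine iSup_le fun ν => ?_
    rintro _ ⟨w, hw, rfl⟩
    by_cases hν : ∃ c d, (ν + rt b a) c - (ν + rt b a) d ≠ μ c - μ d
    · exact Submodule.mem_sup_right (Submodule.mem_iSup_of_mem _
        (Submodule.mem_iSup_of_mem hν (R.wt ν b a w hw)))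
    · push Not at hν
      refine Submodule.mem_sup_left (mem_LowW h (mem_Wt.2 fun c d => ?_))
      rw [mem_Wt.1 hw c d]
      congr 2
      have := hν c d
      simp only [rt, Pi.add_apply, Pi.sub_apply] at this ⊢
      omega
  refine (inf_le_inf_right _ h1).trans ?_
  rw [sup_inf_assoc_of_le _ (R.LowW_le_Wt μ), (R.disj μ).symm.eq_bot, sup_bot_eq]

theorem Rel.sing_hop (R : Rel X) (a b : ι) (v : M) (hv : v ∈ Sing X ord) :
    Hop X a b v ∈ Sing X ord := by
  refine mem_Sing.2 fun c d h => ?_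
  have := R.hx_apply a b c d v
  rw [mem_Sing.1 hv c d h, map_zero, smul_zero, add_zero] at this
  exact this.symm

theorem Rel.low_hop (R : Rel X) (a b : ι) (v : M) (hv : v ∈ Low X ord) :
    Hop X a b v ∈ Low X ord := by
  have : Low X ord ≤ (Low X ord).comap (Hop X a b) := by
    refine iSup_le fun c => iSup₂_le fun d h => ?_
    rintro _ ⟨w, rfl⟩
    rw [Submodule.mem_comap, R.hx_apply]
    exact add_mem (mem_Low h _) (Submodule.smul_mem _ _ (mem_Low h _))
  exact this hv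

theorem Rel.sing_inf_low [FiniteDimensional ℚ M] (R : Rel X) (ho : Function.Injective ord) :
    Sing X ord ⊓ Low X ord = ⊥ := by
  rw [R.decomp (Sing X ord ⊓ Low X ord)
    (fun a b v hv => ⟨R.sing_hop a b v hv.1, R.low_hop a b v hv.2⟩), iSup_eq_bot]
  intro μ
  rw [eq_bot_iff]
  rintro v ⟨⟨h1, h2⟩, h3⟩
  by_contra h0
  have hμ := R.dom h0 h1 h3
  set A := Sh X (cas ord μ) with hA
  obtain ⟨N, hN⟩ := Filter.eventually_atTop.1 A.eventually_disjoint_ker_pow_range_pow
  have h4 : LowW X ord μ ≤ LinearMap.range (A ^ (N + 1)) := by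
    refine iSup_le fun a => iSup₂_le fun b h => ?_
    rintro _ ⟨w, hw, rfl⟩
    obtain ⟨n, k, hk, x, _, hk', rfl⟩ := fit A _ (R.sh_wt (cas ord μ)) (N + 1) hw
    rw [R.inj_pow ho hμ (Ab.base μ h) n hk hk', zero_add]
    exact ⟨X b a x, R.sh_X _ _ _ _ _⟩
  have h5 : A v = 0 := by
    have h6 : (∑ a, ∑ b, if ord a < ord b then X b a (X a b v) else 0) = 0 := by
      refine Finset.sum_eq_zero fun a _ => Finset.sum_eq_zero fun b _ => ?_
      split_ifs with hab
      · rw [mem_Sing.1 h1 a b hab, map_zero]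
      · rfl
    rw [hA, Sh_apply, R.cas_wt ho h3, h6]; simp
  have h7 : v ∈ LinearMap.ker (A ^ (N + 1)) := by
    rw [LinearMap.mem_ker, pow_succ, Module.End.mul_apply, h5, map_zero]
  exact h0 ((hN (N + 1) (by omega)).le_bot ⟨h7, h4 (R.Low_inf μ ⟨h2, h3⟩)⟩)

theorem Rel.wt_le [FiniteDimensional ℚ M] (R : Rel X) (ho : Function.Injective ord)
    (μ : ι → ℤ) : Wt X μ ≤ Sing X ord ⊔ LowW X ord μ := by
  intro w hw
  by_cases hμ : Dom ord μ
  · obtain ⟨n, k, hk, x, hx, hk', rfl⟩ := fit (Sh X (cas ord μ)) _ (R.sh_wt (cas ord μ)) 1 hw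
    refine Submodule.add_mem_sup (mem_Sing.2 fun c d h => ?_) ?_
    · refine R.inj_pow ho hμ (Ab.base μ h) n (R.wt μ c d k hk) ?_
      rw [R.sh_X, hk', map_zero]
    · rw [pow_one, Sh_apply, R.cas_wt ho hx, add_sub_cancel_left]
      refine Submodule.smul_mem _ _ (Submodule.sum_mem _ fun a _ => Submodule.sum_mem _
        fun b _ => ?_)
      split_ifs with hab
      · exact mem_LowW hab (R.wt μ a b x hx)
      · exact zero_mem _
  · simp only [Dom, not_forall, not_le] at hμ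
    obtain ⟨a, b, hab, h⟩ := hμ
    have hne : a ≠ b := fun e => by simp [e] at hab
    obtain ⟨u, rfl⟩ := (R.tri hne).neg_mem (c := ((μ a - μ b : ℤ) : ℚ))
      (by exact_mod_cast sub_neg.2 h) (mem_Wt.1 hw a b)
    exact Submodule.mem_sup_right (R.Low_inf μ ⟨mem_Low hab u, hw⟩)

theorem Rel.sing_sup_low [FiniteDimensional ℚ M] (R : Rel X) (ho : Function.Injective ord) :
    Sing X ord ⊔ Low X ord = ⊤ := by
  rw [eq_top_iff, ← R.top]
  exact iSup_le fun μ => (R.wt_le ho μ).trans (sup_le_sup_left (LowW_le_Low μ) _)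

theorem Rel.gen [FiniteDimensional ℚ M] (R : Rel X) (ho : Function.Injective ord) :
    genBy (lowX X ord) (Sing X ord) = ⊤ := by
  rw [eq_top_iff, ← R.top]
  refine iSup_le (desc X ord _ (fun μ hμ => by simp [hμ]) fun μ ih => ?_)
  refine (R.wt_le ho μ).trans (sup_le (le_genBy _ _) ?_)
  refine iSup_le fun a => iSup₂_le fun b h => ?_
  rintro _ ⟨w, hw, rfl⟩
  exact genBy_stable (show X b a ∈ lowX X ord from ⟨b, a, h, rfl⟩) (ih a b h hw)

end Main

end JR3

open JR3 in
theorem p_hw (h1 : S_slg) (_h2 : S_pbw) : S_hw := by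
  intro ι M _ _ _ _ _ X ord hX hc ho
  obtain ⟨-, k1, k2, k3, k4, -, k5⟩ := h1 ι M X hX hc
  have R : Rel X :=
    { sl := hX
      pos := by omega
      add := k1
      comm := k2
      hx := k3
      wt := fun μ c d v hv => by
        have := k4 μ c d v hv
        rwa [add_sub_assoc] at this
      disj := k5 }
  exact ⟨R.decomp, R.sing_inf_low ho, R.sing_sup_low ho, R.gen ho, R.sing_hop, R.low_hop,
    fun μ v h0 hs hw => R.dom h0 hs hw, R.stable_bot⟩

end Pool.Agent.Lib.MP_49df17_al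
end

-- part Pool.Agent.Lib.MP_49df17_al.V1
section

/-!
Central stability: the complex of handles with coefficients in an algebraic functor is exact in
a range that grows with the rank.
-/

namespace Pool.Agent.Lib.MP_49df17_al

open Finsupp Matrix

namespace JV1

section chains

variable {V W M M' : Type} [AddCommGroup M] [Module ℚ M] [AddCommGroup M'] [Module ℚ M']

theorem mem_ChC {𝒜 : Set V → Submodule ℚ M} {X : Cx V} {n : ℕ} {c : List V →₀ M} :
    c ∈ ChC 𝒜 X n ↔ ∀ l, c l ∈ 𝒜 (vs l) ∧ (c l ≠ 0 → l.length = n ∧ X (vs l)) := Iff.rfl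

theorem single_mem {𝒜 : Set V → Submodule ℚ M} {X : Cx V} {n : ℕ} {l : List V} {m : M}
    (h1 : l.length = n) (h2 : X (vs l)) (h3 : m ∈ 𝒜 (vs l)) : single l m ∈ ChC 𝒜 X n := by
  classical
  intro l'
  by_cases h : l = l'
  · subst h; simp [h1, h2, h3]
  · simp [h]

theorem induct {𝒜 : Set V → Submodule ℚ M} {X : Cx V} {n : ℕ} {N : Type} [AddCommGroup N]
    [Module ℚ N] (U : Submodule ℚ N) (f : (List V →₀ M) →ₗ[ℚ] N)
    (h : ∀ l m, l.length = n → X (vs l) → m ∈ 𝒜 (vs l) → f (single l m) ∈ U)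
    {c : List V →₀ M} (hc : c ∈ ChC 𝒜 X n) : f c ∈ U := by
  rw [← c.sum_single, Finsupp.sum, map_sum]
  refine U.sum_mem fun l hl => ?_
  have := (hc l).2 (mem_support_iff.1 hl)
  exact h l _ this.1 this.2 (hc l).1

theorem induct' {𝒜 : Set V → Submodule ℚ M} {X : Cx V} {n : ℕ} (U : Submodule ℚ (List V →₀ M))
    (h : ∀ l m, l.length = n → X (vs l) → m ∈ 𝒜 (vs l) → single l m ∈ U) : ChC 𝒜 X n ≤ U :=
  fun _ hc => induct U LinearMap.id h hc

theorem bd_mem {𝒜 : Set V → Submodule ℚ M} {X : Cx V} (hA : ∀ S S', S ⊆ S' → 𝒜 S' ≤ 𝒜 S)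
    (hX : Down X) {n : ℕ} {c : List V →₀ M} (hc : c ∈ ChC 𝒜 X (n + 1)) : bd c ∈ ChC 𝒜 X n := by
  refine induct _ bd (fun l m h1 h2 h3 => ?_) hc
  rw [bd_single]
  refine Submodule.sum_mem _ fun i hi => Submodule.smul_mem _ _ (single_mem ?_ ?_ ?_)
  · rw [List.length_eraseIdx_of_lt (Finset.mem_range.1 hi)]; omega
  · exact hX _ _ h2 (vs_eraseIdx l i)
  · exact hA _ _ (vs_eraseIdx l i) h3

/-- Change of vertices and of coefficients. -/
noncomputable def push (f : V → W) (π : M →ₗ[ℚ] M') : (List V →₀ M) →ₗ[ℚ] (List W →₀ M') :=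
  (Finsupp.mapRange.linearMap π).comp (mapL f)

theorem push_single (f : V → W) (π : M →ₗ[ℚ] M') (l : List V) (m : M) :
    push f π (single l m) = single (l.map f) (π m) := by simp [push]

theorem bd_push (f : V → W) (π : M →ₗ[ℚ] M') (c : List V →₀ M) :
    bd (push f π c) = push f π (bd c) := by
  induction c using Finsupp.induction_linear with
  | zero => simp
  | add a b ha hb => simp [ha, hb]
  | single l m => simp [push_single, bd_single, List.eraseIdx_map]

theorem push_apply (f : V → W) (g : W → V) (π : M →ₗ[ℚ] M') (c : List V →₀ M)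
    (hc : ∀ l, c l ≠ 0 → ∀ v ∈ l, g (f v) = v) {l : List V} (hl : c l ≠ 0) :
    push f π c (l.map f) = π (c l) := by
  have key : ∀ l, c l ≠ 0 → (l.map f).map g = l := fun l h => by
    rw [List.map_map]
    conv_rhs => rw [← List.map_id l]
    exact List.map_congr_left fun v hv => hc l h v hv
  have := Finsupp.mapDomain_apply' {l | c l ≠ 0} (f := List.map f) c
    (fun l hl => mem_support_iff.1 hl)
    (fun a ha b hb e => by rw [← key a ha, e, key b hb]) hl
  simp [push, mapL, this]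

end chains

/-- Handles orthogonal to given vectors and covectors. -/
def WZc {ι : Type} [Fintype ι] (As Ps : Set (ι → ℤ)) : Cx (Hz ι) := fun S =>
  WZ ι S ∧ ∀ p ∈ S, (∀ a ∈ As, p.2 ⬝ᵥ a = 0) ∧ ∀ ψ ∈ Ps, ψ ⬝ᵥ p.1 = 0

theorem WZc_down {ι : Type} [Fintype ι] (As Ps : Set (ι → ℤ)) : Down (WZc As Ps) :=
  fun _ _ h hT => ⟨fun p hp q hq => h.1 p (hT hp) q (hT hq), fun p hp => h.2 p (hT hp)⟩

theorem WZc_mono {ι : Type} [Fintype ι] {As Ps As' Ps' : Set (ι → ℤ)} (h1 : As ⊆ As')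
    (h2 : Ps ⊆ Ps') {S : Set (Hz ι)} (h : WZc As' Ps' S) : WZc As Ps S :=
  ⟨h.1, fun p hp => ⟨fun a ha => (h.2 p hp).1 a (h1 ha), fun a ha => (h.2 p hp).2 a (h2 ha)⟩⟩

theorem sub_anti (A : VIC) (X : Ob) (S S' : Set (Hz X.ι)) (h : S ⊆ S') : A.sub X S' ≤ A.sub X S :=
  iSup_mono fun _ => iSup_mono fun _ => iSup_le fun hm =>
    le_iSup_of_le (fun p hp => hm p (h hp)) le_rfl

theorem range_le_sub (A : VIC) {X Y : Ob} (m : Mor Y X) {S : Set (Hz X.ι)} (h : m.Avoids S) :
    LinearMap.range (A.map m) ≤ A.sub X S :=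
  le_iSup_of_le Y (le_iSup_of_le m (le_iSup_of_le h le_rfl))

/-- Image of a handle. -/
def up {Y X : Ob} (m : Mor Y X) (p : Hz Y.ι) : Hz X.ι := (m.i *ᵥ p.1, p.2 ᵥ* m.r)

/-- Retraction of a handle. -/
def dn {Y X : Ob} (m : Mor Y X) (p : Hz X.ι) : Hz Y.ι := (m.r *ᵥ p.1, p.2 ᵥ* m.i)

theorem dn_up {Y X : Ob} (m : Mor Y X) (p : Hz Y.ι) : dn m (up m p) = p := by
  simp [dn, up, m.ri]

theorem up_dot {Y X : Ob} (m : Mor Y X) (p q : Hz Y.ι) :
    (up m p).2 ⬝ᵥ (up m q).1 = p.2 ⬝ᵥ q.1 := by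
  simp [up, dotProduct_mulVec, m.ri]

theorem WZ_up {Y X : Ob} (m : Mor Y X) {S : Set (Hz Y.ι)} : WZ X.ι (up m '' S) ↔ WZ Y.ι S := by
  have hinj : Function.Injective (up m) := Function.LeftInverse.injective (dn_up m)
  constructor
  · intro h p hp q hq
    simpa only [up_dot, hinj.eq_iff, hinj.ne_iff] using h _ ⟨p, hp, rfl⟩ _ ⟨q, hq, rfl⟩
  · rintro h _ ⟨p, hp, rfl⟩ _ ⟨q, hq, rfl⟩
    simpa only [up_dot, hinj.eq_iff, hinj.ne_iff] using h p hp q hq

abbrev U1 : Ob := Ob.of Unit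

theorem inl_i {X Y T : Ob} (g : Mor (Y.sum T) X) (a : X.ι) (y : Y.ι) :
    (g.comp (Mor.inl Y T)).i a y = g.i a (Sum.inl y) := by
  simp [Mor.comp, Mor.inl, Mor.emb, Matrix.mul_apply]

theorem inl_r {X Y T : Ob} (g : Mor (Y.sum T) X) (a : X.ι) (y : Y.ι) :
    (g.comp (Mor.inl Y T)).r y a = g.r (Sum.inl y) a := by
  simp [Mor.comp, Mor.inl, Mor.emb, Matrix.mul_apply]

theorem split_one {X Y : Ob} (g : Mor (Y.sum U1) X) (hg : g.i * g.r = 1) :
    (g.comp (Mor.inl Y U1)).i * (g.comp (Mor.inl Y U1)).r +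
      vecMulVec (g.hz (Sum.inr ())).1 (g.hz (Sum.inr ())).2 = 1 := by
  rw [← hg]
  ext a b
  simp [Matrix.mul_apply, inl_i, inl_r, Mor.hz, vecMulVec_apply, Fintype.sum_sum_type]

theorem exists_split (hZ : S_Zfull) (X : Ob) (h : Hz X.ι) (hh : h.2 ⬝ᵥ h.1 = 1) :
    ∃ (Y : Ob) (g : Mor (Y.sum U1) X), g.i * g.r = 1 ∧ Y.card + 1 = X.card ∧
      h = g.hz (Sum.inr ()) := by
  obtain ⟨Y, T, g, h1, h2, h3, h4⟩ := (hZ X {h} (Set.finite_singleton h) (by
    rintro _ rfl _ rfl
    exact ⟨fun _ => hh, fun e => absurd rfl e⟩)).1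
  rw [Set.ncard_singleton] at h2
  obtain ⟨e⟩ : Nonempty (Unit ≃ T.ι) := Fintype.card_eq.1 (Fintype.card_unit.trans h2.symm)
  refine ⟨Y, ⟨g.i.submatrix (Equiv.refl _) ((Equiv.refl Y.ι).sumCongr e),
    g.r.submatrix ((Equiv.refl Y.ι).sumCongr e) (Equiv.refl _), ?_⟩, ?_, by omega, ?_⟩
  · rw [submatrix_mul_equiv, g.ri, submatrix_one_equiv]
  · dsimp only
    rw [submatrix_mul_equiv, h1, submatrix_one_equiv]
  · have : g.hz (Sum.inr (e ())) ∈ ({h} : Set (Hz X.ι)) := h4 ▸ ⟨e (), rfl⟩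
    exact (Set.mem_singleton_iff.1 this).symm

theorem full_sum {X Y Z : Ob} (g : Mor (Y.sum U1) X) (hg : g.i * g.r = 1) (m : Mor Z Y)
    {S : Set (Hz Y.ι)} (hm : m.Full S) :
    (g.comp (m.sum (Mor.id U1))).Full (up (g.comp (Mor.inl Y U1)) '' S) := by
  have e1 : (m.sum (Mor.id U1)).r * (Mor.inl Y U1).i = (Mor.inl Z U1).i * m.r := by
    ext (a | a) b <;>
      simp [Mor.sum, Mor.inl, Mor.emb, Matrix.mul_apply]
  have e2 : (Mor.inl Y U1).r * (m.sum (Mor.id U1)).i = m.i * (Mor.inl Z U1).r := by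
    ext a (b | b) <;>
      simp [Mor.sum, Mor.inl, Mor.emb, Matrix.mul_apply]
  refine ⟨?_, fun v hv => ?_⟩
  · rintro _ ⟨p, hp, rfl⟩
    simp only [up, Mor.comp, mulVec_mulVec, vecMul_vecMul]
    constructor
    · rw [Matrix.mul_assoc, ← Matrix.mul_assoc g.r, g.ri, Matrix.one_mul, e1, ← mulVec_mulVec,
        (hm.1 p hp).1, mulVec_zero]
    · rw [Matrix.mul_assoc, ← Matrix.mul_assoc g.r, g.ri, Matrix.one_mul, e2, ← vecMul_vecMul,
        (hm.1 p hp).2, zero_vecMul]
  · obtain ⟨w, hw⟩ : ∃ w, w = g.r *ᵥ v := ⟨_, rfl⟩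
    have h1 := hm.2 (w ∘ Sum.inl) fun p hp => by
      have := hv _ ⟨p, hp, rfl⟩
      simp only [up, ← dotProduct_mulVec] at this
      rw [← this]
      congr 1
      ext y
      simp [hw, mulVec, dotProduct, inl_r]
    have h2 : (m.sum (Mor.id U1)).i *ᵥ ((m.sum (Mor.id U1)).r *ᵥ w) = w := by
      simp only [Mor.sum, Mor.id, fromBlocks_mulVec, zero_mulVec, add_zero, zero_add, one_mulVec,
        Sum.elim_comp_inl, Sum.elim_comp_inr, h1, Sum.elim_comp_inl_inr]
    simp only [Mor.comp]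
    rw [← mulVec_mulVec, ← mulVec_mulVec, ← hw, h2, hw, mulVec_mulVec, hg, one_mulVec]

/-- The projection of `A X` to the derived functor. -/
noncomputable def proj (A : VIC) {X Y : Ob} (g : Mor (Y.sum U1) X) (hg : g.i * g.r = 1) :
    A.obj X →ₗ[ℚ] (A.delta U1).obj Y :=
  (LinearMap.range (A.map (Mor.inl Y U1))).mkQ.comp (A.map ⟨g.r, g.i, hg⟩)

theorem proj_map (A : VIC) {X Y Z : Ob} (g : Mor (Y.sum U1) X) (hg : g.i * g.r = 1) (m : Mor Z Y)
    (u : A.obj (Z.sum U1)) : proj A g hg (A.map (g.comp (m.sum (Mor.id U1))) u) =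
      (A.delta U1).map m (Submodule.Quotient.mk u) := by
  have : (⟨g.r, g.i, hg⟩ : Mor X (Y.sum U1)).comp (g.comp (m.sum (Mor.id U1))) =
      m.sum (Mor.id U1) := by
    apply Mor.ext
    · simp only [Mor.comp]; rw [← Matrix.mul_assoc, g.ri, Matrix.one_mul]
    · simp only [Mor.comp]; rw [Matrix.mul_assoc, g.ri, Matrix.mul_one]
  have e : A.map (⟨g.r, g.i, hg⟩ : Mor X (Y.sum U1)) (A.map (g.comp (m.sum (Mor.id U1))) u) =
      A.map (m.sum (Mor.id U1)) u := by
    rw [← LinearMap.comp_apply, ← A.map_comp, this]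
  exact congrArg (LinearMap.range (A.map (Mor.inl Y U1))).mkQ e

theorem coeff (hZ : S_Zfull) (A : VIC) {X Y : Ob} (g : Mor (Y.sum U1) X) (hg : g.i * g.r = 1)
    {S : Set (Hz Y.ι)} (hS : S.Finite) (hW : WZ Y.ι S) :
    (A.sub X (up (g.comp (Mor.inl Y U1)) '' S)).map (proj A g hg) = (A.delta U1).sub Y S ∧
    ∀ N, (∀ (X Y : Ob) (m : Mor X Y), N ≤ X.card → Function.Injective ((A.delta U1).map m)) →
      N + S.ncard ≤ Y.card → ∀ x ∈ A.sub X (up (g.comp (Mor.inl Y U1)) '' S), proj A g hg x = 0 →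
      x ∈ A.sub X (insert (g.hz (Sum.inr ())) (up (g.comp (Mor.inl Y U1)) '' S)) := by
  obtain ⟨⟨Z, T, k, k1, -, -, k4⟩, h2, h3⟩ := hZ Y S hS hW
  obtain ⟨m, hm⟩ : ∃ m : Mor Z Y, m.Full S := ⟨_, h2 Z T k k1 k4⟩
  obtain ⟨c1, -, c3⟩ := h3 Z m hm
  have hM := full_sum g hg m hm
  have e := ((hZ X _ (hS.image _) ((WZ_up _).2 hW)).2.2 _ _ hM).2.2 A
  rw [e, c3]
  refine ⟨le_antisymm ?_ ?_, fun N hN hc => ?_⟩
  · rintro _ ⟨_, ⟨u, rfl⟩, rfl⟩
    exact ⟨_, (proj_map A g hg m u).symm⟩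
  · rintro _ ⟨q, rfl⟩
    induction q using Submodule.Quotient.induction_on with
    | H u => exact ⟨_, ⟨u, rfl⟩, proj_map A g hg m u⟩
  · rintro _ ⟨u, rfl⟩ h0
    rw [proj_map] at h0
    have h4 : (Submodule.Quotient.mk u : (A.delta U1).obj Z) = 0 :=
      hN Z Y m (by omega) (h0.trans (map_zero _).symm)
    obtain ⟨v, rfl⟩ := (Submodule.Quotient.mk_eq_zero _).1 h4
    refine range_le_sub A ((g.comp (m.sum (Mor.id U1))).comp (Mor.inl Z U1)) ?_
      ⟨v, by rw [A.map_comp]; rfl⟩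
    rintro p (rfl | hp)
    · have hr : ∀ a b, (g.r * g.i) a b = (1 : Matrix _ _ ℤ) a b := fun a b => by rw [g.ri]
      constructor
      · ext z
        have : g.r *ᵥ (g.hz (Sum.inr ())).1 = Pi.single (Sum.inr ()) 1 := by
          ext a
          simpa [Mor.hz, mulVec, dotProduct, Matrix.mul_apply, one_apply, Pi.single_apply]
            using hr a (Sum.inr ())
        simp only [Mor.comp]
        rw [← mulVec_mulVec, ← mulVec_mulVec, this]
        simp [Mor.sum, Mor.inl, Mor.emb, mulVec, dotProduct, Fintype.sum_sum_type]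
      · ext z
        have : (g.hz (Sum.inr ())).2 ᵥ* g.i = Pi.single (Sum.inr ()) 1 := by
          ext a
          simpa [Mor.hz, vecMul, dotProduct, Matrix.mul_apply, one_apply, Pi.single_apply, eq_comm]
            using hr (Sum.inr ()) a
        simp only [Mor.comp]
        rw [← vecMul_vecMul, ← vecMul_vecMul, this]
        simp [Mor.sum, Mor.inl, Mor.emb, vecMul, dotProduct, Fintype.sum_sum_type]
    · have := hM.1 p hp
      constructor
      · rw [Mor.comp, ← mulVec_mulVec, this.1, mulVec_zero]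
      · rw [Mor.comp, ← vecMul_vecMul, this.2, zero_vecMul]

/-- Cycles in the link of a handle bound. -/
theorem link (hZ : S_Zfull) (A : VIC) {X : Ob} {As Ps : Set (X.ι → ℤ)} {h : Hz X.ι} {j N : ℕ}
    (hh : h.2 ⬝ᵥ h.1 = 1) (h1 : ∀ a ∈ As, h.2 ⬝ᵥ a = 0) (h2 : ∀ ψ ∈ Ps, ψ ⬝ᵥ h.1 = 0)
    (hN : ∀ (X Y : Ob) (m : Mor X Y), N ≤ X.card → Function.Injective ((A.delta U1).map m))
    (hc : N + j + 1 ≤ X.card)
    (hB : ∀ (Y : Ob) (m : Mor Y X), Y.card + 1 = X.card →
      ExactC ((A.delta U1).sub Y) (WZc ((m.r *ᵥ ·) '' As) ((· ᵥ* m.i) '' Ps)) j)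
    {z : List (Hz X.ι) →₀ A.obj X}
    (hz : z ∈ ChC (A.sub X) (WZc (insert h.1 As) (insert h.2 Ps)) j) (h0 : bd z = 0) :
    z ∈ (ChC (A.sub X) (WZc As Ps) (j + 1)).map bd := by
  obtain ⟨Y, g, hg, hY, hh'⟩ := exists_split hZ X h hh
  obtain ⟨m, hm⟩ : ∃ m, m = g.comp (Mor.inl Y U1) := ⟨_, rfl⟩
  have hsp := split_one g hg
  have hco := fun S => coeff hZ A g hg (S := S)
  have hav : m.r *ᵥ h.1 = 0 ∧ h.2 ᵥ* m.i = 0 := by
    have := ((hZ X {h} (Set.finite_singleton h) (by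
      rintro _ rfl _ rfl
      exact ⟨fun _ => hh, fun e => absurd rfl e⟩)).2.1 Y U1 g hg (by
        rw [hh']; exact (Set.range_unique (f := fun t : Unit => g.hz (Sum.inr t))).symm)).1 h rfl
    rwa [← hm] at this
  rw [← hm, ← hh'] at hsp hco
  have hud : ∀ {S}, WZc (insert h.1 As) (insert h.2 Ps) S → ∀ p ∈ S, up m (dn m p) = p := by
    intro S hS p hp
    have a1 := (hS.2 p hp).1 _ (Set.mem_insert _ _)
    have a2 := (hS.2 p hp).2 _ (Set.mem_insert _ _)
    refine Prod.ext ?_ ?_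
    · have := congrArg (· *ᵥ p.1) hsp
      simpa [up, dn, add_mulVec, vecMulVec_mulVec, a2] using this
    · have := congrArg (p.2 ᵥ* ·) hsp
      simpa [up, dn, vecMul_add, vecMul_vecMulVec, a1] using this
  have him : ∀ {S}, WZc (insert h.1 As) (insert h.2 Ps) S → up m '' (dn m '' S) = S := by
    intro S hS
    rw [Set.image_image]
    exact (Set.image_congr (hud hS)).trans (Set.image_id' S)
  have hiff : ∀ S, WZc (insert h.1 As) (insert h.2 Ps) (up m '' S) ↔
      WZc ((m.r *ᵥ ·) '' As) ((· ᵥ* m.i) '' Ps) S := fun S => by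
    simp only [WZc, WZ_up, Set.forall_mem_image, Set.forall_mem_insert]
    refine and_congr_right fun _ => forall₂_congr fun p _ => ?_
    simp only [up, ← dotProduct_mulVec, hav.1, dotProduct_zero, true_and]
    simp only [dotProduct_mulVec, hav.2, zero_dotProduct, true_and]
  have hz' : push (dn m) (proj A g hg) z ∈
      ChC ((A.delta U1).sub Y) (WZc ((m.r *ᵥ ·) '' As) ((· ᵥ* m.i) '' Ps)) j := by
    refine induct _ _ (fun l x a1 a2 a3 => ?_) hz
    have a4 := (hiff _).1 ((him a2).symm ▸ a2)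
    rw [push_single]
    refine single_mem (by simp [a1]) (by rwa [vs_map]) ?_
    rw [vs_map, ← (hco _ ((vs_finite l).image _) a4.1).1, him a2]
    exact ⟨x, a3, rfl⟩
  obtain ⟨b', hb', e'⟩ := hB Y m hY _ hz' (by rw [bd_push, h0, map_zero])
  obtain ⟨b, hb, rfl⟩ : b' ∈ (ChC (A.sub X) (WZc (insert h.1 As) (insert h.2 Ps)) (j + 1)).map
      (push (dn m) (proj A g hg)) := by
    refine induct' _ (fun l x a1 a2 a3 => ?_) hb'
    rw [← (hco _ (vs_finite l) a2.1).1] at a3
    obtain ⟨x, a4, rfl⟩ := a3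
    refine ⟨single (l.map (up m)) x, single_mem (by simp [a1]) ?_ (by rwa [vs_map]), ?_⟩
    · rw [vs_map]; exact (hiff _).2 a2
    · rw [push_single, List.map_map]
      congr 1
      conv_rhs => rw [← List.map_id l]
      exact List.map_congr_left fun p _ => dn_up m p
  have hy : z - bd b ∈ ChC (A.sub X) (WZc (insert h.1 As) (insert h.2 Ps)) j :=
    Submodule.sub_mem _ hz (bd_mem (sub_anti A X) (WZc_down _ _) hb)
  have hy0 : push (dn m) (proj A g hg) (z - bd b) = 0 := by rw [map_sub, ← bd_push, e', sub_self]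
  have hy1 : bd (z - bd b) = 0 := by rw [map_sub, h0, bd_bd, sub_self]
  have hzy : z = bd (b + consL h (z - bd b)) := by
    rw [map_add, bd_consL, hy1, map_zero]; abel
  generalize z - bd b = y at *
  have hy2 : y ∈ ChC (fun S => A.sub X (insert h S)) (WZc (insert h.1 As) (insert h.2 Ps)) j := by
    refine fun l => ⟨?_, (hy l).2⟩
    by_cases a0 : y l = 0
    · rw [a0]; exact Submodule.zero_mem _
    obtain ⟨a1, a2⟩ := (hy l).2 a0
    have a4 := (hiff _).1 ((him a2).symm ▸ a2)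
    have a5 := (hco _ ((vs_finite l).image _) a4.1).2 N hN (by
      have := Set.ncard_image_le (f := dn m) (vs_finite l)
      have := vs_ncard_le l
      omega) (y l) (by rw [him a2]; exact (hy l).1) (by
        rw [← push_apply (dn m) (up m) _ y (fun l a p hp => hud ((hy l).2 a).2 p hp) a0, hy0]
        rfl)
    rwa [him a2] at a5
  refine ⟨_, Submodule.add_mem _ ?_ ?_, hzy.symm⟩
  · exact induct' _ (fun l x a1 a2 a3 => single_mem a1
      (WZc_mono (Set.subset_insert _ _) (Set.subset_insert _ _) a2) a3) hb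
  · refine induct _ (consL h) (fun l x a1 a2 a3 => ?_) hy2
    rw [consL_single]
    refine single_mem (by simp [a1]) ?_ (by rwa [vs_cons])
    rw [vs_cons]
    refine ⟨?_, ?_⟩
    · rintro p (rfl | hp) q (rfl | hq)
      · exact ⟨fun _ => hh, fun e => absurd rfl e⟩
      · exact ⟨fun e => e ▸ hh, fun _ => (a2.2 q hq).2 _ (Set.mem_insert _ _)⟩
      · exact ⟨fun e => e ▸ hh, fun _ => (a2.2 p hp).1 _ (Set.mem_insert _ _)⟩
      · exact a2.1 p hp q hq
    · rintro p (rfl | hp)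
      · exact ⟨h1, h2⟩
      · exact (WZc_mono (Set.subset_insert _ _) (Set.subset_insert _ _) a2).2 p hp

/-- The statement proved by induction. -/
def Claim (A : VIC) (j a : ℕ) : Prop :=
  ∃ N, ∀ X : Ob, N ≤ X.card → ∀ As Ps : Set (X.ι → ℤ), As.Finite → Ps.Finite → As.ncard ≤ a →
    Ps.ncard ≤ a → ∀ n < j, ExactC (A.sub X) (WZc As Ps) n

theorem step (hg : S_genC) (hZ1 : S_Z1) (hZ : S_Zfull) (A : VIC) {N₁ : ℕ}
    (hN : ∀ (X Y : Ob) (m : Mor X Y), N₁ ≤ X.card → Function.Injective ((A.delta U1).map m))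
    (j a : ℕ) (hB : Claim (A.delta U1) (j + 1) a) (ih : Claim A j (a + j + 1)) :
    Claim A (j + 1) a := by
  obtain ⟨N₂, hB⟩ := hB
  obtain ⟨N₃, ih⟩ := ih
  refine ⟨N₁ + N₂ + N₃ + 2 * (a + j) + j + 1, fun X hX As Ps f1 f2 c1 c2 n hn => ?_⟩
  rcases Nat.lt_succ_iff_lt_or_eq.1 hn with hn | rfl
  · exact ih X (by omega) As Ps f1 f2 (by omega) (by omega) n hn
  obtain ⟨R, hR⟩ : ∃ R : Set (Hz X.ι) → Set (Hz X.ι) → Prop, R = fun σ τ =>
      WZc (As ∪ Prod.fst '' τ) (Ps ∪ Prod.snd '' τ) σ ∧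
        ∀ h ∈ τ, h.2 ⬝ᵥ h.1 = 1 ∧ (∀ a ∈ As, h.2 ⬝ᵥ a = 0) ∧ ∀ ψ ∈ Ps, ψ ⬝ᵥ h.1 = 0 := ⟨_, rfl⟩
  have hD : Down2 R := by
    rw [hR]
    intro σ τ σ' τ' h h1 h2
    exact ⟨WZc_down _ _ _ _ (WZc_mono (Set.union_subset_union_right _ (Set.image_mono h2))
      (Set.union_subset_union_right _ (Set.image_mono h2)) h.1) h1, fun p hp => h.2 p (h2 hp)⟩
  have h0 : (fun σ => R σ ∅) = WZc As Ps := by rw [hR]; ext σ; simp
  intro z hz hz0
  have key := hg _ _ _ (A.sub X) R R n (sub_anti A X) hD hD (fun _ _ _ _ h => h)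
    (fun σ s1 s2 _ => ?_) (fun τ t1 _ t2 t3 k hk => ?_) z (h0 ▸ hz) hz0
  · refine (iSup_le (a := (ChC (A.sub X) (WZc As Ps) (n + 1)).map bd) fun h => ?_) key
    rintro y ⟨y1, y2⟩
    by_cases hh : h.2 ⬝ᵥ h.1 = 1 ∧ (∀ a ∈ As, h.2 ⬝ᵥ a = 0) ∧ ∀ ψ ∈ Ps, ψ ⬝ᵥ h.1 = 0
    · refine link hZ A hh.1 hh.2.1 hh.2.2 hN (by omega) (fun Y m hY =>
        hB Y (by omega) _ _ (f1.image _) (f2.image _) ((Set.ncard_image_le f1).trans c1)
          ((Set.ncard_image_le f2).trans c2) n hn) (fun l => ⟨(y1 l).1, fun e => ?_⟩) y2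
      have := (y1 l).2 e
      rw [hR] at this
      exact ⟨this.1, by simpa using this.2.1⟩
    · have : y = 0 := by
        ext l
        by_contra e
        have := (y1 l).2 e
        rw [hR] at this
        exact hh (this.2.2 h rfl)
      rw [this]; exact Submodule.zero_mem _
  · obtain ⟨m, m1, m2⟩ := hZ1 X (As ∪ Prod.fst '' σ) (Ps ∪ Prod.snd '' σ) 1 (f1.union (s1.image _))
      (f2.union (s1.image _)) (by
        have := Set.ncard_union_le As (Prod.fst '' σ)
        have := Set.ncard_union_le Ps (Prod.snd '' σ)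
        have := Set.ncard_image_le (f := Prod.fst) s1
        have := Set.ncard_image_le (f := Prod.snd) s1
        omega)
    have b1 : ∀ a ∈ As ∪ Prod.fst '' σ, (m.hz 0).2 ⬝ᵥ a = 0 := fun a ha => congrFun (m1 a ha) 0
    have b2 : ∀ a ∈ Ps ∪ Prod.snd '' σ, a ⬝ᵥ (m.hz 0).1 = 0 := fun a ha => congrFun (m2 a ha) 0
    have b3 : (m.hz 0).2 ⬝ᵥ (m.hz 0).1 = 1 := by
      have := congrFun (congrFun m.ri 0) 0
      rwa [one_apply_eq] at this
    refine fun k _ => exactAt_of_cone (m.hz 0) (fun τ _ hτ => ?_) k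
    rw [hR] at hτ ⊢
    refine ⟨⟨hτ.1.1, fun p hp => ⟨?_, ?_⟩⟩, ?_⟩
    · rintro _ (ha | ⟨q, rfl | hq, rfl⟩)
      · exact (hτ.1.2 p hp).1 _ (Or.inl ha)
      · exact b2 _ (Or.inr ⟨p, hp, rfl⟩)
      · exact (hτ.1.2 p hp).1 _ (Or.inr ⟨q, hq, rfl⟩)
    · rintro _ (ha | ⟨q, rfl | hq, rfl⟩)
      · exact (hτ.1.2 p hp).2 _ (Or.inl ha)
      · exact b1 _ (Or.inr ⟨p, hp, rfl⟩)
      · exact (hτ.1.2 p hp).2 _ (Or.inr ⟨q, hq, rfl⟩)
    · rintro q (rfl | hq)
      · exact ⟨b3, fun a ha => b1 a (Or.inl ha), fun a ha => b2 a (Or.inl ha)⟩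
      · exact hτ.2 q hq
  · have e : (fun σ => R σ τ) = WZc (As ∪ Prod.fst '' τ) (Ps ∪ Prod.snd '' τ) := by
      rw [hR] at t3 ⊢
      exact funext fun σ => propext (and_iff_left t3.2)
    rw [e]
    refine ih X (by omega) _ _ (f1.union (t1.image _)) (f2.union (t1.image _)) ?_ ?_ k hk
    · have := Set.ncard_union_le As (Prod.fst '' τ)
      have := Set.ncard_image_le (f := Prod.fst) t1
      omega
    · have := Set.ncard_union_le Ps (Prod.snd '' τ)
      have := Set.ncard_image_le (f := Prod.snd) t1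
      omega

theorem claim (hg : S_genC) (hZ1 : S_Z1) (hZ : S_Zfull) (hδ : S_delta) (hR : S_Rinj) (d : ℕ) :
    ∀ A : VIC, Alg A → Deg A d → ∀ j a, Claim A j a := by
  induction d with
  | zero =>
    rintro A - ⟨N, hN⟩ j a
    refine ⟨N, fun X hX As Ps _ _ _ _ n _ c _ _ => ⟨0, Submodule.zero_mem _, ?_⟩⟩
    have h := hN X hX
    simp only [Nat.not_lt_zero, iSup_false, iSup_bot] at h
    ext l
    have : c l ∈ (⊥ : Submodule ℚ (A.obj X)) := h ▸ Submodule.mem_top
    rw [map_zero, (Submodule.mem_bot ℚ).1 this]; rfl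
  | succ d ihd =>
    intro A hA hd j
    obtain ⟨h1, h2⟩ := hδ A d hA hd
    obtain ⟨N₁, hN⟩ := hR _ h1
    induction j with
    | zero => exact fun a => ⟨0, fun _ _ _ _ _ _ _ _ n hn => absurd hn (Nat.not_lt_zero n)⟩
    | succ j ih => exact fun a => step hg hZ1 hZ A hN j a (ihd _ h1 h2 _ _) (ih _)

end JV1

theorem p_V1 (h1 : S_genC) (h2 : S_Z1) (h3 : S_Zfull) (h4 : S_Deg) (h5 : S_delta) (h6 : S_Rinj) :
    S_V1 := by
  intro A hA j
  obtain ⟨d, hd⟩ := h4 A hA
  obtain ⟨N, hN⟩ := JV1.claim h1 h2 h3 h5 h6 d A hA hd (j + 1) 0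
  refine ⟨N, fun X hX n hn => ?_⟩
  have := hN X hX ∅ ∅ Set.finite_empty Set.finite_empty (by simp) (by simp) n (by omega)
  have e : JV1.WZc (∅ : Set (X.ι → ℤ)) ∅ = WZ X.ι := by ext S; simp [JV1.WZc]
  rwa [e] at this

end Pool.Agent.Lib.MP_49df17_al
end
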