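import Pool.Agent.Lib.MP_49df17_al.Core
import Pool.Agent.Lib.MP_49df17_al.Adapt

-- part Pool.Agent.Lib.MP_49df17_al.NKr
section

/-!
Systems of admissible spheres that leave large free rank in the base region.
-/

set_option linter.unusedSectionVars false

namespace Pool.Agent.Lib.MP_49df17_al

open Matrix
open scoped Pointwise

namespace JNKr

variable {ι : Type} [Fintype ι] [DecidableEq ι] {K : AddSubgroup (ι → ℤ)} {c : Cfg ι}

theorem D_add_anti (c : Cfg ι) {S T : Set (Orb ι)} (h : T ⊆ S) : (c.add S).D ≤ (c.add T).D :=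
  Dg_anti (sides_mono (Set.union_subset_union_right _ h))

theorem D_add_le (c : Cfg ι) (S : Set (Orb ι)) : (c.add S).D ≤ c.D :=
  Dg_anti (sides_mono Set.subset_union_left)

theorem down_NK (hv : Valid c) : Down (NK K c) := fun _ _ hS hT =>
  ⟨hv.add_mono hS.1 hT, fun o ho => hS.2 o (hT ho)⟩

theorem down_NKr (hv : Valid c) (r : ℕ) : Down (NKr K c r) := fun _ _ hS hT =>
  ⟨down_NK hv _ _ hS.1 hT, hS.2.trans (rkD_mono (D_add_anti c hT))⟩

theorem exact_false {V : Type} {X : Cx V} (h : ∀ S, ¬ X S) (n : ℕ) : ExactAt X n := by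
  intro z hz
  have : z = 0 := by
    ext l
    by_contra hl
    exact h _ ((mem_Ch.1 hz.1) l (Finsupp.mem_support_iff.2 hl)).2
  rw [this]
  exact Submodule.zero_mem _

/-- The complex of a configuration with more fixed elements. -/
theorem NK_iff {A' : Set (Fr ι)} (hA : c.A ⊆ A') (hv' : Valid ⟨A', c.ρ, c.T⟩) (S : Set (Orb ι)) :
    NK K ⟨A', c.ρ, c.T⟩ S ↔ NK K c S ∧ ∀ a ∈ A', a ∈ (c.add S).D := by
  constructor
  · rintro ⟨h1, h2⟩
    refine ⟨⟨h1.mono hA le_rfl le_rfl fun t ht => (h1.adj t ht).1, fun o ho => ?_⟩, h1.dg⟩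
    obtain ⟨h3, h4, h5⟩ := h2 o ho
    exact ⟨h3.mono hA le_rfl le_rfl fun t ht => (h3.adj t ht).1, h4, h5⟩
  · rintro ⟨⟨h1, h2⟩, h3⟩
    have h4 : Valid ((⟨A', c.ρ, c.T⟩ : Cfg ι).add S) :=
      ⟨hv'.pb, h1.sys, h3, h1.fin, h1.adj, h1.ntr⟩
    refine ⟨h4, fun o ho => ⟨hv'.add_mono h4 (Set.singleton_subset_iff.2 ho), (h2 o ho).2⟩⟩

/-- A partial basis of full rank in the base group generates it. -/
theorem D_eq_closure (hadapt : S_adapt) (hv : Valid c) (h : rkD c.D ≤ c.A.ncard) :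
    c.D = Subgroup.closure c.A := by
  obtain ⟨β, hβ⟩ := hadapt ι c hv
  obtain ⟨A', h1, h2, h3, h4⟩ := hβ.exists_basis hv
  have : c.A = A' := Set.eq_of_subset_of_ncard_le h1 (by omega) h2.pb.finite
  rw [h3, this]

/-- The pieces of the filtration by rank. -/
def XL (K : AddSubgroup (ι → ℤ)) (c : Cfg ι) (m : ℕ) (L : Subgroup (Fr ι)) : Cx (Orb ι) := fun S =>
  (∃ S0, NK K c S0 ∧ (c.add S0).D = L ∧ rkD L = c.A.ncard + m) ∧ NK K c S ∧ L ≤ (c.add S).D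

theorem XL_cases (hadapt : S_adapt) (hv : Valid c) {m : ℕ} (hm : c.A.ncard + m < rkD c.D)
    (L : Subgroup (Fr ι)) : (∀ S, ¬ XL K c m L S) ∨
    ∃ A', Valid ⟨A', c.ρ, c.T⟩ ∧ A'.ncard = c.A.ncard + m ∧ L = Subgroup.closure A' ∧
      (∃ o, Adm K ⟨A', c.ρ, c.T⟩ o) ∧ ∀ S, XL K c m L S ↔ NK K ⟨A', c.ρ, c.T⟩ S := by
  by_cases h : ∃ S0, NK K c S0 ∧ (c.add S0).D = L ∧ rkD L = c.A.ncard + m
  swap
  · exact Or.inl fun S hS => h hS.1
  right
  obtain ⟨S0, h0, h1, h2⟩ := id h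
  obtain ⟨β, hβ⟩ := hadapt ι _ h0.1
  obtain ⟨A', a1, a2, a3, a4⟩ := hβ.exists_basis h0.1
  have hv' : Valid (⟨A', c.ρ, c.T⟩ : Cfg ι) :=
    a2.mono le_rfl Set.subset_union_left le_rfl fun t ht => (hv.adj t ht).1
  have hL : L = Subgroup.closure A' := by rw [← h1, a3]
  have key : ∀ S, XL K c m L S ↔ NK K ⟨A', c.ρ, c.T⟩ S := fun S => by
    rw [NK_iff (c := c) a1 hv', XL, and_iff_right h, hL, Subgroup.closure_le]
    rfl
  refine ⟨A', hv', by rw [a4, h1, h2], hL, ?_, key⟩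
  rcases S0.eq_empty_or_nonempty with rfl | ⟨o, ho⟩
  · rw [Cfg.add_empty] at h1
    rw [h1] at hm
    omega
  · exact ⟨o, ((key S0).1 ⟨h, h0, h1.ge⟩).2 o ho⟩

/-- One step of the filtration by rank. -/
theorem step (hE : S_E) (hadapt : S_adapt) (hNK : S_NK) (hv : Valid c) (hL : ¬ L1 K c) {m : ℕ}
    (hm : c.A.ncard + m < rkD c.D) (j : ℕ) :
    ((∀ A', Valid ⟨A', c.ρ, c.T⟩ → A'.ncard = c.A.ncard + m → (∃ o, Adm K ⟨A', c.ρ, c.T⟩ o) →
        ExactAt (NKr K ⟨A', c.ρ, c.T⟩ 1) j) →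
      Zc (NKr K c (m + 1)) j ⊓ Bc (NKr K c m) j ≤ Bc (NKr K c (m + 1)) j) ∧
    ((∀ i, i + 1 = j → ∀ A', Valid ⟨A', c.ρ, c.T⟩ → A'.ncard = c.A.ncard + m →
        (∃ o, Adm K ⟨A', c.ρ, c.T⟩ o) → ExactAt (NKr K ⟨A', c.ρ, c.T⟩ 1) i) →
      Zc (NKr K c m) j ≤ Zc (NKr K c (m + 1)) j ⊔ Bc (NKr K c m) j) := by
  have main := hE (Orb ι) (Subgroup (Fr ι)) (NKr K c m) (NKr K c (m + 1))
    (fun S => (c.add S).D) (XL K c m) (down_NKr hv m) (down_NKr hv (m + 1))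
    (fun L S T hS hT => ⟨hS.1, down_NK hv _ _ hS.2.1 hT, hS.2.2.trans (D_add_anti c hT)⟩)
    (fun S hS => ⟨hS.1, by have := hS.2; omega⟩)
    (fun L S hS => ⟨hS.2.1, by
      obtain ⟨⟨S0, -, -, h⟩, -, h'⟩ := hS
      have := rkD_mono h'
      omega⟩)
    (fun S _ hS hS' => ⟨⟨S, hS.1, rfl, by
      have h1 := hS.2
      have h2 : ¬ c.A.ncard + (m + 1) ≤ rkD (c.add S).D := fun h => hS' ⟨hS.1, h⟩
      omega⟩, hS.1, le_rfl⟩)
    (fun L S _ hS => by
      by_cases h : c.A.ncard + (m + 1) ≤ rkD (c.add S).D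
      · exact Or.inl ⟨hS.2.1, h⟩
      right
      rcases XL_cases (K := K) hadapt hv hm L with h0 | ⟨A', a1, a2, a3, -, a5⟩
      · exact absurd hS (h0 S)
      have h1 := ((a5 S).1 hS).1
      have h2 : ((⟨A', c.ρ, c.T⟩ : Cfg ι).add S).D = (c.add S).D := rfl
      have h3 := D_eq_closure hadapt h1 (by
        rw [h2]
        change _ ≤ A'.ncard
        omega)
      rw [a3, ← h2, h3]
      rfl) j
  have ex : ∀ i, (∀ A', Valid ⟨A', c.ρ, c.T⟩ → A'.ncard = c.A.ncard + m →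
      (∃ o, Adm K ⟨A', c.ρ, c.T⟩ o) → ExactAt (NKr K ⟨A', c.ρ, c.T⟩ 1) i) →
      ∀ L, ExactAt (fun S => XL K c m L S ∧ NKr K c (m + 1) S) i := by
    intro i h L
    rcases XL_cases (K := K) hadapt hv hm L with h0 | ⟨A', a1, a2, -, a4, a5⟩
    · exact exact_false (fun S hS => h0 S hS.1) i
    refine (h A' a1 a2 a4).congr fun S _ => ?_
    have h2 : ((⟨A', c.ρ, c.T⟩ : Cfg ι).add S).D = (c.add S).D := rfl
    constructor
    · rintro ⟨h3, h4⟩
      have h5 := (a5 S).2 h3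
      refine ⟨h5, h5.2.1, ?_⟩
      rw [h2] at h4
      change A'.ncard + 1 ≤ _ at h4
      omega
    · rintro ⟨h3, -, h4⟩
      refine ⟨(a5 S).1 h3, ?_⟩
      rw [h2]
      change A'.ncard + 1 ≤ _
      omega
  refine ⟨fun h => main.1 (ex j h), fun h => main.2 (fun L => ?_) fun L i hi => ex i (h i hi) L⟩
  rcases XL_cases (K := K) hadapt hv hm L with h0 | ⟨A', a1, -, -, a4, a5⟩
  · exact exact_false h0 j
  exact (hNK ι K _ a1 hL a4 j).congr fun S _ => (a5 S).symm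

theorem Bx_mono {Gd : Set (Fr ι)} {S T : Set (Orb ι)} (h : T ⊆ S) {s t : Set (Fr ι)} (h' : t ⊆ s)
    (hb : Bx Gd (c.add S) s) : Bx Gd (c.add T) t :=
  ⟨fun b hb' => ⟨D_add_anti c h (hb.1 b (h' hb')).1, (hb.1 b (h' hb')).2⟩,
    hb.2.1.mono_right h', hb.2.2.mono (Set.union_subset_union_right _ h')⟩

theorem valid_addA (hv : Valid c) {Gd s : Set (Fr ι)} (hb : Bx Gd c s) : Valid (c.addA s) :=
  hv.addA_iff.2 ⟨hb.2.2, fun b h => (hb.1 b h).1⟩

theorem NK_addA (hv : Valid c) {Gd s : Set (Fr ι)} (hb : Bx Gd c s) (S : Set (Orb ι)) :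
    NK K (c.addA s) S ↔ NK K c S ∧ ∀ a ∈ c.A ∪ s, a ∈ (c.add S).D :=
  NK_iff (A' := c.A ∪ s) Set.subset_union_left (valid_addA hv hb) S

/-- Cycles that leave large rank bound in the complex that leaves rank one. -/
theorem top (hgen : S_gen) (hlive : S_live) (hNK : S_NK) (hv : Valid c) (hL : ¬ L1 K c)
    (ho : ∃ o, Adm K c o) {j m : ℕ}
    (hB : ∀ (ψ : ι → ℤ) (c' : Cfg ι), Valid c' → c'.A.ncard + m ≤ rkD c'.D →
      Acyc (Bx (G0 ψ) c') j) : Zc (NKr K c m) j ≤ Bc (NKr K c 1) j := by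
  obtain ⟨o, ho⟩ := ho
  obtain ⟨P, hP, -⟩ := id ho.2.2
  have col : ∀ τ n, ExactAt (fun σ => Bx (G0 (cls P)) c τ ∧ NK K (c.addA τ) σ) n := by
    intro τ n
    by_cases hb : Bx (G0 (cls P)) c τ
    · exact (hNK ι K _ (valid_addA hv hb) hL (hlive ι K c o P τ hv hL ho hP hb) n).congr
        fun S _ => (and_iff_right hb).symm
    · exact exact_false (fun S hS => hb hS.1) n
  have main := hgen (Orb ι) (Fr ι)
    (fun S s => NKr K c m S ∧ Bx (G0 (cls P)) (c.add S) s)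
    (fun S s => Bx (G0 (cls P)) c s ∧ NK K (c.addA s) S) j
    (fun σ σ' τ τ' h h1 h2 => ⟨down_NKr hv m _ _ h.1 h1, Bx_mono h1 h2 h.2⟩)
    (fun σ σ' τ τ' h h1 h2 => by
      have hb : Bx (G0 (cls P)) c τ' := by
        have := Bx_mono (c := c) (S := ∅) (T := ∅) le_rfl h2 (by rw [Cfg.add_empty]; exact h.1)
        rwa [Cfg.add_empty] at this
      have h3 := (NK_addA hv h.1 σ).1 h.2
      exact ⟨hb, (NK_addA hv hb σ').2 ⟨down_NK hv _ _ h3.1 h1, fun a ha =>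
        D_add_anti c h1 (h3.2 a (Set.union_subset_union_right _ h2 ha))⟩⟩)
    (fun σ τ _ _ h => by
      have hb : Bx (G0 (cls P)) c τ := by
        have := Bx_mono (Set.empty_subset σ) le_rfl h.2
        rwa [Cfg.add_empty] at this
      refine ⟨hb, (NK_addA hv hb σ).2 ⟨h.1.1, ?_⟩⟩
      rintro a (ha | ha)
      · exact h.1.1.1.dg a ha
      · exact (h.2.1 a ha).1)
    (fun σ _ _ h => (hB (cls P) (c.add σ) h.1.1.1 h.1.2).congr fun s _ =>
      (and_iff_right h.1).symm)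
    (fun τ _ _ _ _ n _ => col τ n)
  refine le_trans (Zc_mono fun l hl => ?_) (main.trans (iSup_le fun w => ?_))
  · exact ⟨hl, fun b hb => hb.elim, Set.disjoint_empty _, by
      rw [Set.union_empty]; exact hl.1.1.pb⟩
  · refine le_trans (col {w} j) (Bc_mono fun l hl => ?_)
    have h3 := (NK_addA hv hl.1 _).1 hl.2
    refine ⟨h3.1, ?_⟩
    have h4 := hl.1.2.2.ncard_le_rkD h3.2
    rwa [Set.ncard_union_eq hl.1.2.1 hv.pb.finite (Set.finite_singleton w), Set.ncard_singleton]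
      at h4

/-- Exactness in one degree with margin `N`. -/
def Ex (j r N : ℕ) : Prop := ∀ (ι : Type) [Fintype ι] [DecidableEq ι]
  (K : AddSubgroup (ι → ℤ)) (c : Cfg ι), Valid c → ¬ L1 K c → (∃ o, Adm K c o) →
  c.A.ncard + N ≤ rkD c.D → ExactAt (NKr K c r) j

theorem ex_one_aux (hE : S_E) (hgen : S_gen) (hadapt : S_adapt) (hB0 : S_B0) (hlive : S_live)
    (hNK : S_NK) (j N : ℕ) (ih : ∀ i, i + 1 = j → Ex i 1 N) : ∃ N', Ex j 1 N' := by
  obtain ⟨m0, hm0⟩ := hB0 j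
  refine ⟨m0 + 1 + N, fun ι _ _ K c hv hL ho hN => ?_⟩
  have up : ∀ m, m ≤ m0 →
      Zc (NKr K c 1) j ≤ Zc (NKr K c (m + 1)) j ⊔ Bc (NKr K c 1) j := by
    intro m
    induction m with
    | zero => exact fun _ => le_sup_left
    | succ m ihm =>
      intro hm
      refine (ihm (by omega)).trans (sup_le ?_ le_sup_right)
      refine ((step hE hadapt hNK hv hL (m := m + 1) (by omega) j).2
        fun i hi A' a1 a2 a3 => ih i hi ι K _ a1 hL a3 ?_).trans (sup_le_sup_left ?_ _)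
      · change A'.ncard + N ≤ rkD c.D
        omega
      · exact Bc_mono fun l hl => ⟨hl.1, by have := hl.2; omega⟩
  refine (up m0 le_rfl).trans (sup_le ?_ le_rfl)
  exact top hgen hlive hNK hv hL ho fun ψ c' h1 h2 => hm0 ι ψ c' h1 (by omega)

theorem ex_one (hE : S_E) (hgen : S_gen) (hadapt : S_adapt) (hB0 : S_B0) (hlive : S_live)
    (hNK : S_NK) (j : ℕ) : ∃ N, Ex j 1 N := by
  induction j with
  | zero => exact ex_one_aux hE hgen hadapt hB0 hlive hNK 0 0 fun i hi => by omega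
  | succ j ih =>
    obtain ⟨N, hN⟩ := ih
    exact ex_one_aux hE hgen hadapt hB0 hlive hNK (j + 1) N fun i hi => by
      obtain rfl : i = j := by omega
      exact hN

theorem ex_all (hE : S_E) (hgen : S_gen) (hadapt : S_adapt) (hB0 : S_B0) (hlive : S_live)
    (hNK : S_NK) (j r : ℕ) : ∃ N, Ex j r N := by
  obtain ⟨N1, h1⟩ := ex_one hE hgen hadapt hB0 hlive hNK j
  induction r with
  | zero =>
    refine ⟨0, fun ι _ _ K c hv hL ho _ => (hNK ι K c hv hL ho j).congr fun S _ => ?_⟩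
    exact ⟨fun h => ⟨h, h.1.pb.ncard_le_rkD h.1.dg⟩, fun h => h.1⟩
  | succ r ih =>
    obtain ⟨N, hN⟩ := ih
    refine ⟨N + r + 1 + N1, fun ι _ _ K c hv hL ho hr => ?_⟩
    refine le_trans (le_inf le_rfl ?_) ((step hE hadapt hNK hv hL (m := r) (by omega) j).1
      fun A' a1 a2 a3 => h1 ι K _ a1 hL a3 ?_)
    · exact le_trans (Zc_mono fun l hl => ⟨hl.1, by have := hl.2; omega⟩)
        (hN ι K c hv hL ho (by omega))
    · change A'.ncard + N1 ≤ rkD c.D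
      omega

end JNKr

theorem p_NKr (hE : S_E) (hgen : S_gen) (hadapt : S_adapt) (hB0 : S_B0) (hlive : S_live)
    (hNK : S_NK) : S_NKr := by
  intro j r
  induction j with
  | zero =>
    obtain ⟨N, hN⟩ := JNKr.ex_all hE hgen hadapt hB0 hlive hNK 0 r
    refine ⟨N, fun ι _ _ K c hv hL ho h n hn => ?_⟩
    obtain rfl : n = 0 := by omega
    exact hN ι K c hv hL ho h
  | succ j ih =>
    obtain ⟨N, hN⟩ := JNKr.ex_all hE hgen hadapt hB0 hlive hNK (j + 1) r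
    obtain ⟨N', hN'⟩ := ih
    refine ⟨N + N', fun ι _ _ K c hv hL ho h n hn => ?_⟩
    rcases Nat.lt_or_ge n (j + 1) with h1 | h1
    · exact hN' ι K c hv hL ho (by omega) n (by omega)
    · obtain rfl : n = j + 1 := by omega
      exact hN ι K c hv hL ho (by omega)

end Pool.Agent.Lib.MP_49df17_al
end

-- part Pool.Agent.Lib.MP_49df17_al.Slide
section

/-!
Slides of tethered sides and basic facts on complexes of tethers.
-/

set_option linter.unusedSectionVars false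

namespace Pool.Agent.Lib.MP_49df17_al

open Matrix
open scoped Pointwise

namespace JSlide

variable {ι : Type} [Fintype ι] [DecidableEq ι]

open Classical in
/-- The indicator of `t` with values `y`, `1`. -/
noncomputable def sind (t : Set (Fr ι)) (y g : Fr ι) : Fr ι := if g ∈ t then y else 1

/-- The image of a short element under the slide. -/
noncomputable def sF (t : Set (Fr ι)) (y g : Fr ι) : Fr ι := sind t y g * g * (sind t y g⁻¹)⁻¹

theorem sind_congr {t : Set (Fr ι)} {y g g' : Fr ι} (h : g ∈ t ↔ g' ∈ t) :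
    sind t y g = sind t y g' := by
  classical
  exact if_congr h rfl rfl

theorem sind_not {t : Set (Fr ι)} {y g : Fr ι} (h : g ∉ t) : sind t y g = 1 := if_neg h

theorem sind_mem (t : Set (Fr ι)) {y : Fr ι} (g : Fr ι) {H : Subgroup (Fr ι)} (h : y ∈ H) :
    sind t y g ∈ H := by
  unfold sind
  split_ifs
  exacts [h, H.one_mem]

theorem sF_inv (t : Set (Fr ι)) (y g : Fr ι) : sF t y g⁻¹ = (sF t y g)⁻¹ := by
  simp [sF, mul_assoc]

theorem notMem_of_sep {P : Set (Fr ι)} {g : Fr ι} (h1 : 1 ∉ P) (h : g ∈ Dg (orb P)) : g ∉ P :=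
  fun hg => h1 ((h P (mem_orb_self P) 1).2 (by rwa [one_mul]))

theorem sF_eq {t : Set (Fr ι)} (y : Fr ι) {g : Fr ι} (h1 : 1 ∉ t) (h : g ∈ Dg (orb t)) :
    sF t y g = g := by
  rw [sF, sind_not (notMem_of_sep h1 h), sind_not (notMem_of_sep h1 (inv_mem h)), one_mul, inv_one,
    mul_one]

variable {β τ : Au ι} {D : Set (ι × Bool)} {y : Fr ι}

theorem tau_sl (hτ : ∀ s, τ (letter β s) = sF (ideal β D) y (letter β s)) (h : ι × Bool) :
    τ (sl β h) = sF (ideal β D) y (sl β h) := by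
  obtain ⟨s, _ | _⟩ := h
  · rw [sl_false, map_inv, hτ, sF_inv]
  · rw [sl_true, hτ]

theorem tau_ideal (hτ : ∀ s, τ (letter β s) = sF (ideal β D) y (letter β s))
    {D' : Set (ι × Bool)} (hy : y ∈ Dg (orb (ideal β D'))) {e : Fr ι}
    (he : e ∈ Dg (orb (ideal β D'))) (h : ∀ k ∈ D', sind (ideal β D) y (sl β k) = e) :
    τ • ideal β D' = e • ideal β D' := by
  rw [ideal_aut]
  symm
  refine eq_ideal_of_sep _ ?_ fun s k => ?_
  · rw [mem_smul_fr, mul_one]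
    exact notMem_of_sep (one_notMem_ideal β D') (inv_mem he)
  rw [letter_trans, hτ, sep_smul, mem_smul_fr, sF,
    sep_mul_right (mem_Dg_orb.1 (inv_mem (sind_mem _ _ hy))),
    sep_mul_left (mem_Dg_orb.1 (sind_mem _ _ hy)), mem_sep_ideal_letter]
  refine or_congr (and_congr_left fun hs => ?_) (and_congr_left fun hs => ?_)
  · have := h _ hs
    rw [sl_true] at this
    rw [this, mul_assoc, inv_mul_eq_one, eq_comm, mul_eq_right]
  · have := h _ hs
    rw [sl_false] at this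
    rw [this, mul_assoc, inv_mul_eq_iff_eq_mul, ← eq_mul_inv_iff_mul_eq]
    simp [mul_assoc]

theorem short_sl (h : ι × Bool) : sep (ideal β D) (sl β h) ⊆ {1, (sl β h)⁻¹} := fun k hk => by
  rcases (mem_sep_ideal β).1 hk with ⟨rfl, -⟩ | ⟨rfl, -⟩ <;> simp

theorem tau_short (hτ : ∀ s, τ (letter β s) = sF (ideal β D) y (letter β s)) (g : Fr ι) :
    sep (ideal β D) g ⊆ {1, g⁻¹} → τ g = sF (ideal β D) y g := by
  induction g using hl_induction β with
  | h1 => exact fun _ => by simp [sF]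
  | h2 h g hg ih =>
    intro hs
    rcases eq_or_ne g 1 with rfl | g1
    · rw [mul_one, tau_sl hτ]
    have m1 : sl β h * g ∈ hl β h := (sl_mul_mem_hl β).2 hg
    have e1 : sl β h ∈ ideal β D ↔ sl β h * g ∈ ideal β D := by
      rw [mem_ideal_of_hl β m1, sl_mem_ideal]
    have e2 : (sl β h)⁻¹ ∈ ideal β D ↔ g ∈ ideal β D := by
      by_contra hc
      have : (sl β h)⁻¹ ∈ sep (ideal β D) (sl β h * g) := by
        simpa only [sep, Set.mem_ofPred_eq, inv_mul_cancel_left] using hc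
      rcases hs this with h1 | h1
      · exact sl_ne_one β h (inv_eq_one.1 h1)
      · exact g1 (by simpa using h1)
    have e3 : (sl β h * g)⁻¹ ∈ ideal β D ↔ g⁻¹ ∈ ideal β D := by
      by_contra hc
      have : (sl β h * g)⁻¹ ∈ sep (ideal β D) (sl β h) := by
        simpa only [sep, Set.mem_ofPred_eq, _root_.mul_inv_rev, inv_mul_cancel_right] using hc
      rcases short_sl h this with h1 | h1
      · exact one_notMem_hl β h (inv_eq_one.1 h1 ▸ m1)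
      · exact g1 (by simpa using h1)
    have hg' : sep (ideal β D) g ⊆ {1, g⁻¹} := fun k hk => by
      have k1 : k ≠ sl β h := by
        rintro rfl
        exact hk e1
      have k2 := @mem_sep_mul _ (ideal β D) (sl β h) g (k * (sl β h)⁻¹)
      rw [inv_mul_cancel_right] at k2
      by_cases k3 : k * (sl β h)⁻¹ ∈ sep (ideal β D) (sl β h)
      · rcases short_sl h k3 with h1 | h1
        · exact absurd (mul_inv_eq_one.1 h1) k1
        · exact Or.inl (by simpa using h1)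
      · rcases hs (k2.2 fun h => k3 (h.2 hk)) with h1 | h1
        · exact absurd (mul_inv_eq_one.1 h1) k1
        · exact Or.inr (by simpa using h1)
    rw [map_mul, tau_sl hτ, ih hg', sF, sF, sF, sind_congr e1, sind_congr e2, sind_congr e3]
    simp [mul_assoc]

theorem mem_Dg_side {c : Cfg ι} {g : Fr ι} (hg : g ∈ c.D) {X : Set (Fr ι)}
    (hX : X ∈ sides c.ρ) : g ∈ Dg (orb X) :=
  mem_Dg_orb.2 (mem_Dg_sep.1 hg X hX)

/-! Tethers -/

variable {c : Cfg ι} {X0 t0 : Set (Fr ι)} {U : Orb ι}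

theorem exists_smul (h : ∀ t ∈ U, Adj c.ρ t ∧ Tr t X0) (h0 : t0 ∈ U) {t : Set (Fr ι)}
    (ht : t ∈ U) : t = t0 ∨ ∃ g ∈ dif t0 U, t = g • t0 := by
  obtain ⟨g, rfl⟩ := (h t ht).2.trans (h t0 h0).2.symm
  rcases eq_or_ne g 1 with rfl | hg
  · exact Or.inl (one_smul _ _)
  · exact Or.inr ⟨g, ⟨hg, ht⟩, rfl⟩

theorem base (h : ∀ t ∈ U, Adj c.ρ t ∧ Tr t X0) (h0 : t0 ∈ U) (hd : Disjoint c.A (dif t0 U))
    (hp : PB (c.A ∪ dif t0 U)) : At c X0 U := by
  refine ⟨h, fun t1 h1 => ?_⟩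
  obtain rfl | ⟨g, hg, rfl⟩ := exists_smul h h0 h1
  · exact ⟨hd, hp⟩
  obtain ⟨p1, d1, -⟩ := PB.nielsen (A := insert g c.A) (B := dif t0 U \ {g})
    (hp.mono (by
      rintro x ((rfl | hx) | hx)
      exacts [Or.inr hg, Or.inl hx, Or.inr hx.1]))
    (Set.disjoint_left.2 (by
      rintro x (rfl | hx) hx'
      exacts [hx'.2 rfl, Set.disjoint_left.1 hd hx hx'.1])) (· * g⁻¹)
    fun b _ => ⟨1, one_mem _, g⁻¹, inv_mem (Subgroup.subset_closure (Or.inl rfl)),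
      Or.inl (by rw [one_mul])⟩
  obtain ⟨p2, d2, -⟩ := PB.nielsen (A := c.A ∪ (· * g⁻¹) '' (dif t0 U \ {g})) (B := {g})
    (p1.mono (by
      rintro x ((hx | hx) | hx)
      exacts [Or.inl (Or.inr hx), Or.inr hx, Or.inl (Or.inl hx)]))
    (Set.disjoint_singleton_right.2 (by
      rintro (hx | hx)
      exacts [Set.disjoint_left.1 hd hx hg, Set.disjoint_left.1 d1 (Or.inl rfl) hx])) (·⁻¹)
    fun b _ => ⟨1, one_mem _, 1, one_mem _, Or.inr (by rw [one_mul, mul_one])⟩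
  have hs : ∀ x ∈ dif (g • t0) U, x ∈ (· * g⁻¹) '' (dif t0 U \ {g}) ∨ x ∈ (·⁻¹) '' {g} := by
    rintro x ⟨x1, x2⟩
    rw [smul_smul] at x2
    by_cases x3 : x * g = 1
    · exact Or.inr ⟨g, rfl, (eq_inv_of_mul_eq_one_left x3).symm⟩
    · exact Or.inl ⟨x * g, ⟨⟨x3, x2⟩, fun e => x1 (mul_eq_right.1 e)⟩, mul_inv_cancel_right x g⟩
  refine ⟨Set.disjoint_left.2 fun x hx hx' => ?_, p2.mono ?_⟩
  · rcases hs x hx' with h2 | h2
    exacts [Set.disjoint_left.1 d1 (Or.inr hx) h2, Set.disjoint_left.1 d2 (Or.inl hx) h2]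
  · rintro x (hx | hx)
    · exact Or.inl (Or.inl hx)
    · rcases hs x hx with h2 | h2
      exacts [Or.inl (Or.inr h2), Or.inr h2]

theorem valid_ext (hv : Valid c) (h : At c X0 U) (h0 : t0 ∈ U) (hT : ∀ t ∈ c.T, ¬ Tr X0 t) :
    Valid (c.ext t0 U) where
  pb := (h.2 t0 h0).2
  sys := hv.sys
  dg := by
    rintro a (ha | ha)
    exacts [hv.dg a ha, (hv.sys.adj_smul_iff (h.1 t0 h0).1).1 (h.1 _ ha.2).1]
  fin := hv.fin.insert _
  adj := by
    rintro t (rfl | ht)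
    exacts [(h.1 t h0).1, hv.adj t ht]
  ntr := by
    rintro t (rfl | ht) t' (rfl | ht') e
    exacts [rfl, (hT t' ht' ((h.1 t h0).2.symm.trans e)).elim,
      (hT t ht ((h.1 t' h0).2.symm.trans e.symm)).elim, hv.ntr t ht t' ht' e]

theorem card_eq (hv : Valid c) (h : At c X0 U) (h0 : t0 ∈ U) :
    U.Finite ∧ (dif t0 U).ncard + 1 = U.ncard := by
  have hf : (dif t0 U).Finite := (h.2 t0 h0).2.finite.subset Set.subset_union_right
  have hs : IsSph t0 := hv.sys.isSph (h.1 t0 h0).1.1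
  have e : U = insert t0 ((· • t0) '' dif t0 U) := by
    ext t
    refine ⟨fun ht => ?_, ?_⟩
    · obtain rfl | ⟨g, hg, rfl⟩ := exists_smul h.1 h0 ht
      exacts [Or.inl rfl, Or.inr ⟨g, hg, rfl⟩]
    · rintro (rfl | ⟨g, hg, rfl⟩)
      exacts [h0, hg.2]
  refine ⟨e ▸ (hf.image _).insert _, ?_⟩
  conv_rhs => rw [e]
  have hn : t0 ∉ (· • t0) '' dif t0 U := fun ⟨g, hg, e⟩ => hg.1 (hs.eq_one e)
  rw [Set.ncard_insert_of_notMem hn (hf.image _),
    Set.ncard_image_of_injective _ fun g g' e => hs.smul_inj e]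

theorem shift (hv : Valid c) (h : At c X0 U) (hy : y ∈ c.A) (n : Set (Fr ι) → ℤ) :
    At c X0 ((fun t => y ^ n t • t) '' U) := by
  have hA : ∀ m : ℤ, y ^ m ∈ Subgroup.closure c.A := fun m =>
    zpow_mem (Subgroup.subset_closure hy) m
  constructor
  · rintro _ ⟨t, ht, rfl⟩
    exact ⟨(hv.sys.adj_smul_iff (h.1 t ht).1).2 (zpow_mem (hv.dg y hy) _),
      Tr.trans ⟨_, rfl⟩ (h.1 t ht).2⟩
  rintro _ ⟨t0, h0, rfl⟩
  have hs : IsSph t0 := hv.sys.isSph (h.1 t0 h0).1.1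
  obtain ⟨p1, d1, -⟩ := (h.2 t0 h0).2.nielsen (h.2 t0 h0).1
    (fun b => y ^ n (b • t0) * b * (y ^ n t0)⁻¹)
    fun b _ => ⟨_, hA _, _, inv_mem (hA _), Or.inl rfl⟩
  have hsub : dif (y ^ n t0 • t0) ((fun t => y ^ n t • t) '' U) ⊆
      (fun b => y ^ n (b • t0) * b * (y ^ n t0)⁻¹) '' dif t0 U := by
    rintro g ⟨g1, t, ht, e⟩
    obtain rfl | ⟨b, hb, rfl⟩ := exists_smul h.1 h0 ht
    · exact absurd ((hs.of_mem_orb (smul_mem_orb _ (mem_orb_self _))).eq_one e.symm) g1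
    · simp only [smul_smul] at e
      exact ⟨b, hb, mul_inv_eq_of_eq_mul (hs.smul_inj e)⟩
  exact ⟨d1.mono_right hsub, p1.mono (Set.union_subset_union_right _ hsub)⟩

theorem aut {γ : Au ι} (hγ : γ ∈ Stab c) (hX : Tr (γ • X0) X0) (h : At c X0 U) :
    At c X0 (γ • U) := by
  obtain ⟨e1, e2, -⟩ := Stab.smul_eq hγ
  constructor
  · rintro _ ⟨t, ht, rfl⟩
    exact ⟨e2 ▸ (adj_aut γ).2 (h.1 t ht).1, ((tr_aut γ).2 (h.1 t ht).2).trans hX⟩
  rintro _ ⟨t0, h0, rfl⟩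
  have hsub : dif (γ • t0) (γ • U) ⊆ γ • dif t0 U := by
    rintro g ⟨g1, g2⟩
    obtain ⟨g, rfl⟩ := γ.surjective g
    rw [← au_smul_smul, Set.smul_mem_smul_set_iff] at g2
    exact ⟨g, ⟨fun e => g1 (by rw [e, map_one]), g2⟩, rfl⟩
  have p := (h.2 t0 h0).2.aut γ
  have d := (Set.disjoint_smul_set (a := γ)).2 (h.2 t0 h0).1
  rw [Set.smul_set_union, e1] at p
  rw [e1] at d
  exact ⟨d.mono_right hsub, p.mono (Set.union_subset_union_right _ hsub)⟩

end JSlide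

open JSlide

theorem p_slide (hA : S_adapt) : S_slide := by
  intro ι _ _ c y t hv hy ht hT
  obtain ⟨β, hβ⟩ := hA ι ⟨c.A, c.ρ, insert t c.T⟩
    { pb := hv.pb
      sys := hv.sys
      dg := hv.dg
      fin := hv.fin.insert _
      adj := by
        rintro t' (rfl | h)
        exacts [ht, hv.adj t' h]
      ntr := by
        rintro a (rfl | ha) b (rfl | hb) e
        exacts [rfl, (hT b hb e).elim, (hT a ha e.symm).elim, hv.ntr a ha b hb e] }
  obtain ⟨D, rfl⟩ := hβ.tethers t (Or.inl rfl)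
  obtain ⟨s0, rfl⟩ := hβ.letters hy
  set y := letter β s0 with hy0
  have hD : ∀ a ∈ c.A, a ∈ Dg (orb (ideal β D)) := fun a ha =>
    mem_Dg_side (hv.dg a ha) ht.1
  have hcl : y ∈ Subgroup.closure (letter β '' {s0}) := Subgroup.subset_closure ⟨s0, rfl, rfl⟩
  obtain ⟨τ, h1, h2⟩ := exists_aut_nielsen β {s0} (fun s => sF (ideal β D) y (letter β s))
    fun s _ => ⟨_, sind_mem _ _ hcl, _, inv_mem (sind_mem _ _ hcl), true, by rw [sl_true, sF]⟩
  have hτ : ∀ s, τ (letter β s) = sF (ideal β D) y (letter β s) := fun s => by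
    by_cases h : s ∈ ({s0} : Set ι)
    · rw [h1 s h, sF_eq _ ht.2.1 (h ▸ hD y hy)]
    · exact h2 s h
  have hsub : ∀ D', ideal β D' ∈ sides c.ρ → D' ⊆ D → τ • ideal β D' = y • ideal β D' :=
    fun D' h h' => tau_ideal hτ (mem_Dg_side (hv.dg y hy) h)
      (mem_Dg_side (hv.dg y hy) h) fun k hk => if_pos ((sl_mem_ideal β).2 (h' hk))
  have hdis : ∀ D', ideal β D' ∈ sides c.ρ → Disjoint D' D → τ • ideal β D' = ideal β D' :=
    fun D' h h' => (tau_ideal hτ (mem_Dg_side (hv.dg y hy) h) (one_mem _) fun k hk =>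
      sind_not fun e => Set.disjoint_left.1 h' hk ((sl_mem_ideal β).1 e)).trans (one_smul _ _)
  refine ⟨τ, ⟨fun a ha => ?_, fun o ho => ?_, fun t' ht' => ?_⟩, ?_, ?_, hsub D ht.1 subset_rfl,
    fun g hg => ?_, fun γ g1 g2 => ?_⟩
  · obtain ⟨s, rfl⟩ := hβ.letters ha
    rw [hτ, sF_eq _ ht.2.1 (hD _ ha)]
  · obtain ⟨D', h⟩ := hβ.ideals o ho
    have h' : ideal β D' ∈ sides c.ρ := mem_sides.2 ⟨o, ho, h⟩
    rw [hv.sys.eq_orb ho h, au_smul_orb]
    rcases ht.2.2 _ h' (one_notMem_ideal β D') with e | e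
    · rw [hsub D' h' ((ideal_subset_iff β).1 e), orb_eq_of_mem (smul_mem_orb _ (mem_orb_self _))]
    · rw [hdis D' h' ((ideal_disjoint_iff β).1 e)]
  · obtain ⟨D', rfl⟩ := hβ.tethers t' (Or.inr ht')
    rcases (hv.adj _ ht').eq_or_disjoint ht with e | e
    · exact (hT _ ht' (e ▸ Tr.refl _)).elim
    · exact hdis D' (hv.adj _ ht').1 ((ideal_disjoint_iff β).1 e)
  · refine funext fun i => eq_of_dot_letter β fun s => ?_
    change (abM τ *ᵥ abv (letter β s)) i =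
      ((1 + vecMulVec (abv y) (cls (ideal β D))) *ᵥ abv (letter β s)) i
    rw [abM_mulVec, hτ, add_mulVec, one_mulVec, vecMulVec_mulVec, cls_dot (ai_ideal β D),
      pair_ideal_letter, sF, abv_mul, abv_mul, abv_inv, sind, sind, ← sl_false, ← sl_true,
      sl_mem_ideal, sl_mem_ideal]
    split_ifs <;> simp [abv_one, add_comm, sub_eq_add_neg]
  · rw [cls_dot (ai_ideal β D), pair_of_sep_empty (mem_Dg_orb.1 (hD y hy))]
  · rw [tau_short hτ g hg, sF, sind, sind]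
    split_ifs <;> simp
  · have hm : ∀ x, γ x ∈ ideal β D ↔ x ∈ ideal β D := fun x => by
      conv_lhs => rw [← g2]
      exact Set.smul_mem_smul_set_iff (a := γ)
    have hi : ∀ x, γ (sind (ideal β D) y x) = sind (ideal β D) y (γ x) := fun x => by
      by_cases h : x ∈ ideal β D
      · rw [sind, sind, if_pos h, if_pos ((hm x).2 h), g1]
      · rw [sind_not h, sind_not (mt (hm x).1 h), map_one]
    refine MulEquiv.toMonoidHom_injective (MonoidHom.eq_of_eqOn_dense (closure_letter β) ?_)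
    rintro _ ⟨s, rfl⟩
    change γ (τ (letter β s)) = τ (γ (letter β s))
    rw [hτ, tau_short hτ, sF, sF, map_mul, map_mul, map_inv, hi, hi, map_inv]
    intro k hk
    rw [← g2, sep_aut] at hk
    obtain ⟨k, hk, rfl⟩ := hk
    rcases short_sl (s, true) (sl_true β s ▸ hk) with rfl | rfl
    · exact Or.inl (map_one γ)
    · exact Or.inr (by rw [sl_true]; exact map_inv γ _)

theorem p_Atb : S_Atb := by
  intro ι _ _ c X0
  have hdown : Down (At c X0) := fun S T h hT => by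
    refine ⟨fun t ht => h.1 t (hT ht), fun t ht => ?_⟩
    have hs : dif t T ⊆ dif t S := fun g hg => ⟨hg.1, hT hg.2⟩
    exact ⟨(h.2 t (hT ht)).1.mono_right hs,
      (h.2 t (hT ht)).2.mono (Set.union_subset_union_right _ hs)⟩
  refine ⟨hdown, ?_, fun X1 hX => ?_, fun hv => ⟨fun U t0 => base, fun U t0 h h0 => ?_,
    fun U y hy h => ⟨fun t ht t' ht' e => ?_, shift hv h hy⟩, fun γ hγ hX U => aut hγ hX⟩⟩
  · rintro y _ T ⟨U, h, rfl⟩ hT
    obtain ⟨U', h1, h2⟩ := Set.subset_image_iff.1 hT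
    exact ⟨U', hdown _ _ h h1, h2.symm⟩
  · ext U
    exact and_congr_left fun _ => forall₂_congr fun t _ => and_congr_right fun _ =>
      ⟨fun h => h.trans hX, fun h => h.trans hX.symm⟩
  · refine ⟨(card_eq hv h h0).1, (card_eq hv h h0).2, fun hT => ⟨valid_ext hv h h0 hT, fun S =>
      ⟨fun hS => ⟨hS.mono Set.subset_union_left subset_rfl (Set.subset_insert _ _)
        fun t ht => (hS.adj t (Or.inr ht)).1, fun t ht => ⟨?_, (h.1 t ht).2⟩, h.2⟩,
        fun hS => valid_ext hS.1 hS.2 h0 hT⟩⟩⟩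
    have a0 := hS.adj t0 (Or.inl rfl)
    obtain rfl | ⟨g, hg, rfl⟩ := exists_smul h.1 h0 ht
    exacts [a0, (hS.sys.adj_smul_iff a0).2 (hS.dg g (Or.inr hg))]
  · obtain ⟨i, rfl⟩ : t' ∈ yo y t := e ▸ ⟨0, by simp⟩
    by_contra hne
    have h1 : y ^ i ∈ dif t U := ⟨fun e => hne (by rw [e, one_smul]), ht'⟩
    refine PB.notMem_closure ((h.2 t ht).2.mono ?_) (Set.disjoint_right.1 (h.2 t ht).1 h1)
      (zpow_mem (Subgroup.subset_closure hy) i)
    rintro x (rfl | hx)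
    exacts [Or.inr h1, Or.inl hx]

end Pool.Agent.Lib.MP_49df17_al
end

-- part Pool.Agent.Lib.MP_49df17_al.XT
section

/-!
The complexes of independent spheres with tethers are acyclic in a range.
-/

set_option linter.unusedSectionVars false

namespace Pool.Agent.Lib.MP_49df17_al

open Matrix
open scoped Pointwise

namespace JXT

/-- Spheres with lists of tethers. -/
abbrev Vx (ι : Type) : Type := Orb ι × List (Set (Fr ι))

section Basic

variable {ι : Type}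

theorem addT_addT (c : Cfg ι) (S S' : Set (Vx ι)) :
    (c.addT S).addT S' = c.addT (S ∪ S') := by
  simp only [Cfg.addT, Set.image_union, Set.biUnion_union, Set.union_assoc]

theorem addT_empty (c : Cfg ι) : c.addT ∅ = c := by
  simp [Cfg.addT]

theorem mem_addT_T {c : Cfg ι} {S : Set (Vx ι)} {t : Set (Fr ι)} :
    t ∈ (c.addT S).T ↔ t ∈ c.T ∨ ∃ v ∈ S, t ∈ v.2 := by
  simp [Cfg.addT]

theorem addT_ρ (c : Cfg ι) (S : Set (Vx ι)) : (c.addT S).ρ = c.ρ ∪ Prod.fst '' S := rfl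

theorem ext_addT (c : Cfg ι) (t0 : Set (Fr ι)) (U : Orb ι) (S : Set (Vx ι)) :
    (c.ext t0 U).addT S = (c.addT S).ext t0 U := by
  simp only [Cfg.addT, Cfg.ext, Set.insert_union]

theorem valid_addT_mono {c : Cfg ι} (hc : Valid c) {S S' : Set (Vx ι)} (h : Valid (c.addT S))
    (h1 : Prod.fst '' S' ⊆ Prod.fst '' S)
    (h2 : ∀ v ∈ S', ∀ t ∈ v.2, (∃ w ∈ S, t ∈ w.2) ∧ t ∈ v.1) : Valid (c.addT S') := by
  refine h.mono subset_rfl (Set.union_subset_union_right _ h1) (fun t ht => ?_) fun t ht => ?_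
  · rcases mem_addT_T.1 ht with ht | ⟨v, hv, ht⟩
    · exact mem_addT_T.2 (Or.inl ht)
    · exact mem_addT_T.2 (Or.inr (h2 v hv t ht).1)
  · rcases mem_addT_T.1 ht with ht | ⟨v, hv, ht⟩
    · exact sides_mono Set.subset_union_left (hc.adj t ht).1
    · exact mem_sides.2 ⟨v.1, Or.inr ⟨v, hv, rfl⟩, (h2 v hv t ht).2⟩

theorem down_XT {c : Cfg ι} (hc : Valid c) (ε : ℕ) : Down (XT ε c) := by
  rintro S T ⟨h1, h2, h3, h4⟩ hT
  exact ⟨fun v hv => h1 v (hT hv), h2.mono hT,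
    valid_addT_mono hc h3 (Set.image_mono hT)
      fun v hv t ht => ⟨⟨v, hT hv, ht⟩, (h1 v (hT hv)).2.2 t ht⟩,
    h4.mono le_rfl (Set.image_mono hT)⟩

theorem XT_empty {c : Cfg ι} (hc : Valid c) (ε : ℕ) : XT ε c ∅ :=
  ⟨by simp, by simp, by rwa [addT_empty], by simp [Indep]⟩

/-- Forget the first tether of a long vertex. -/
def pr (e : ℕ) (v : Vx ι) : Vx ι := if v.2.length = e + 1 then (v.1, v.2.tail) else v

theorem pr_fst (e : ℕ) (v : Vx ι) : (pr e v).1 = v.1 := by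
  unfold pr; split_ifs <;> rfl

theorem pr_of_ne {e : ℕ} {v : Vx ι} (h : v.2.length ≠ e + 1) : pr e v = v := if_neg h

theorem pr_length {e : ℕ} {v : Vx ι} (h : v.2.length = e ∨ v.2.length = e + 1) :
    (pr e v).2.length = e := by
  unfold pr
  split_ifs with h1
  · simp [h1]
  · omega

theorem pr_sublist (e : ℕ) (v : Vx ι) : (pr e v).2.Sublist v.2 := by
  unfold pr
  split_ifs
  · exact List.tail_sublist _
  · exact List.Sublist.refl _

theorem fst_pr (e : ℕ) (S : Set (Vx ι)) : Prod.fst '' (pr e '' S) = Prod.fst '' S := by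
  rw [Set.image_image]
  simp only [pr_fst]

/-- The mixed complex. -/
structure Mx (e : ℕ) (c : Cfg ι) (S : Set (Vx ι)) : Prop where
  shape : ∀ v ∈ S, (v.2.length = e ∨ v.2.length = e + 1) ∧ v.2.Nodup ∧ ∀ t ∈ v.2, t ∈ v.1
  inj : ∀ v ∈ S, ∀ w ∈ S, v.1 = w.1 → pr e v = pr e w
  injl : ∀ v ∈ S, ∀ w ∈ S, v.2.length = e + 1 → w.2.length = e + 1 → v.1 = w.1 → v = w
  valid : Valid (c.addT S)
  indep : Indep 2 (spn 2 c.ρ) (Prod.fst '' S)

theorem down_Mx {c : Cfg ι} (hc : Valid c) (e : ℕ) : Down (Mx e c) := fun _ _ h hT =>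
  ⟨fun v hv => h.shape v (hT hv), fun v hv w hw => h.inj v (hT hv) w (hT hw),
    fun v hv w hw => h.injl v (hT hv) w (hT hw),
    valid_addT_mono hc h.valid (Set.image_mono hT)
      fun v hv t ht => ⟨⟨v, hT hv, ht⟩, (h.shape v (hT hv)).2.2 t ht⟩,
    h.indep.mono le_rfl (Set.image_mono hT)⟩

theorem Mx.of_short {e : ℕ} {c : Cfg ι} {S : Set (Vx ι)} (h : XT e c S) : Mx e c S := by
  obtain ⟨h1, h2, h3, h4⟩ := h
  exact ⟨fun v hv => ⟨Or.inl (h1 v hv).1, (h1 v hv).2⟩, fun v hv w hw e => by rw [h2 hv hw e],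
    fun v hv w hw _ _ e => h2 hv hw e, h3, h4⟩

theorem Mx.of_long {e : ℕ} {c : Cfg ι} {S : Set (Vx ι)} (h : XT (e + 1) c S) : Mx e c S := by
  obtain ⟨h1, h2, h3, h4⟩ := h
  exact ⟨fun v hv => ⟨Or.inr (h1 v hv).1, (h1 v hv).2⟩, fun v hv w hw e => by rw [h2 hv hw e],
    fun v hv w hw _ _ e => h2 hv hw e, h3, h4⟩

theorem Mx.to_long {e : ℕ} {c : Cfg ι} {S : Set (Vx ι)} (h : Mx e c S)
    (hl : ∀ v ∈ S, v.2.length = e + 1) : XT (e + 1) c S :=
  ⟨fun v hv => ⟨hl v hv, (h.shape v hv).2⟩,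
    fun v hv w hw e => h.injl v hv w hw (hl v hv) (hl w hw) e, h.valid, h.indep⟩

theorem Mx.union_pr {e : ℕ} {c : Cfg ι} (hc : Valid c) {S : Set (Vx ι)} (h : Mx e c S) :
    Mx e c (S ∪ pr e '' S) := by
  have hp : ∀ v ∈ S, pr e (pr e v) = pr e v := fun v hv =>
    pr_of_ne (by rw [pr_length (h.shape v hv).1]; omega)
  have hs : ∀ v ∈ S ∪ pr e '' S, ∃ u ∈ S, v.1 = u.1 ∧ pr e v = pr e u ∧ v.2.Sublist u.2 ∧
      (v.2.length = e ∨ v = u) := by
    rintro v (hv | ⟨u, hu, rfl⟩)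
    · exact ⟨v, hv, rfl, rfl, List.Sublist.refl _, Or.inr rfl⟩
    · exact ⟨u, hu, pr_fst e u, hp u hu, pr_sublist e u, Or.inl (pr_length (h.shape u hu).1)⟩
  have hf : Prod.fst '' (S ∪ pr e '' S) = Prod.fst '' S := by
    rw [Set.image_union, fst_pr, Set.union_self]
  have hsh : ∀ v ∈ S ∪ pr e '' S,
      (v.2.length = e ∨ v.2.length = e + 1) ∧ v.2.Nodup ∧ ∀ t ∈ v.2, t ∈ v.1 := by
    intro v hv
    obtain ⟨u, hu, e1, -, e3, e4⟩ := hs v hv
    refine ⟨?_, (h.shape u hu).2.1.sublist e3, fun t ht => ?_⟩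
    · rcases e4 with e4 | rfl
      · exact Or.inl e4
      · exact (h.shape v hu).1
    · rw [e1]; exact (h.shape u hu).2.2 t (e3.subset ht)
  refine ⟨hsh, fun v hv w hw e0 => ?_, fun v hv w hw l1 l2 e0 => ?_, ?_, ?_⟩
  · obtain ⟨u, hu, e1, e2, -, -⟩ := hs v hv
    obtain ⟨u', hu', e1', e2', -, -⟩ := hs w hw
    rw [e2, e2']
    exact h.inj u hu u' hu' (by rw [← e1, ← e1', e0])
  · obtain ⟨u, hu, -, -, -, e4⟩ := hs v hv
    obtain ⟨u', hu', -, -, -, e4'⟩ := hs w hw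
    obtain rfl : v = u := e4.resolve_left (by omega)
    obtain rfl : w = u' := e4'.resolve_left (by omega)
    exact h.injl v hu w hu' l1 l2 e0
  · refine valid_addT_mono hc h.valid hf.subset fun v hv t ht => ⟨?_, (hsh v hv).2.2 t ht⟩
    obtain ⟨u, hu, -, -, e3, -⟩ := hs v hv
    exact ⟨u, hu, e3.subset ht⟩
  · rw [hf]; exact h.indep

theorem Mx.to_short {e : ℕ} {c : Cfg ι} (hc : Valid c) {S : Set (Vx ι)} (h : Mx e c S) :
    XT e c (pr e '' S) := by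
  have h' : Mx e c (pr e '' S) := down_Mx hc e _ _ (h.union_pr hc) Set.subset_union_right
  refine ⟨?_, ?_, h'.valid, h'.indep⟩
  · rintro v hv
    refine ⟨?_, (h'.shape v hv).2⟩
    obtain ⟨u, hu, rfl⟩ := hv
    exact pr_length (h.shape u hu).1
  · rintro _ ⟨u, hu, rfl⟩ _ ⟨u', hu', rfl⟩ e0
    exact h.inj u hu u' hu' (by simpa only [pr_fst] using e0)

theorem mapL_id {V : Type} (z : List V →₀ ℚ) : mapL id z = z := by simp [mapL]

/-- The mixed complex is exact where the complex with fewer tethers is. -/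
theorem exact_Mx {e : ℕ} {c : Cfg ι} (hc : Valid c) {n : ℕ} (h : ExactAt (XT e c) n) :
    ExactAt (Mx e c) n := by
  intro z hz
  have h0 : bd z = 0 := (mem_Zc.1 hz).2
  have h1 : mapL (pr e) z ∈ Zc (XT e c) n :=
    mem_Zc.2 ⟨mapL_mem_Ch (fun l hl => Mx.to_short hc hl) hz.1, by rw [bd_mapL, h0, map_zero]⟩
  have h2 : mapL (pr e) z ∈ Bc (Mx e c) n := Bc_mono (fun l => Mx.of_short) (h h1)
  have h3 := mapL_sub_mapL_mem_Bc (down_Mx hc e) (pr e) id (n := n) (z := z)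
    (fun l hl => ⟨(hz.1 hl).1, by
      rw [Set.image_id, Set.union_comm]; exact Mx.union_pr hc (hz.1 hl).2⟩) h0
  rw [mapL_id] at h3
  simpa using Submodule.add_mem _ h3 h2

theorem indep_addT {c : Cfg ι} (hi : Indep 2 ⊥ c.ρ) {S : Set (Vx ι)}
    (h : Indep 2 (spn 2 c.ρ) (Prod.fst '' S)) :
    Indep 2 ⊥ (c.addT S).ρ ∧ Disjoint c.ρ (Prod.fst '' S) :=
  indep_union.2 ⟨hi, by rwa [bot_sup_eq]⟩

/-- The link of a mixed simplex on the long vertices over new spheres. -/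
theorem link_iff {e : ℕ} {c : Cfg ι} {s : Set (Vx ι)} (hs : Mx e c s) (τ : Set (Vx ι)) :
    ((∀ v ∈ τ, v.1 ∉ Prod.fst '' s) ∧ (∀ v ∈ τ, v.2.length = e + 1) ∧ Mx e c (s ∪ τ)) ↔
      XT (e + 1) (c.addT s) τ := by
  constructor
  · rintro ⟨h1, h2, h3⟩
    refine ⟨fun v hv => ⟨h2 v hv, (h3.shape v (Or.inr hv)).2⟩,
      fun v hv w hw e0 => h3.injl v (Or.inr hv) w (Or.inr hw) (h2 v hv) (h2 w hw) e0,
      by rw [addT_addT]; exact h3.valid, ?_⟩
    rw [addT_ρ, spn_union]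
    refine (indep_union.1 ⟨by rw [← Set.image_union]; exact h3.indep, ?_⟩).2
    rw [Set.disjoint_right]
    rintro _ ⟨v, hv, rfl⟩
    exact h1 v hv
  · rintro ⟨h1, h2, h3, h4⟩
    rw [addT_ρ, spn_union] at h4
    obtain ⟨h5, h6⟩ := indep_union.2 ⟨hs.indep, h4⟩
    have h7 : ∀ v ∈ τ, v.1 ∉ Prod.fst '' s := fun v hv =>
      Set.disjoint_right.1 h6 ⟨v, hv, rfl⟩
    refine ⟨h7, fun v hv => (h1 v hv).1, ?_, ?_, ?_, by rwa [addT_addT] at h3,
      by rwa [Set.image_union]⟩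
    · rintro v (hv | hv)
      · exact hs.shape v hv
      · exact ⟨Or.inr (h1 v hv).1, (h1 v hv).2⟩
    · rintro v (hv | hv) w (hw | hw) e0
      · exact hs.inj v hv w hw e0
      · exact absurd ⟨v, hv, e0⟩ (h7 w hw)
      · exact absurd ⟨w, hw, e0.symm⟩ (h7 v hv)
      · rw [h2 hv hw e0]
    · rintro v (hv | hv) w (hw | hw) l1 l2 e0
      · exact hs.injl v hv w hw l1 l2 e0
      · exact absurd ⟨v, hv, e0⟩ (h7 w hw)
      · exact absurd ⟨w, hw, e0.symm⟩ (h7 v hv)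
      · exact h2 hv hw e0

theorem ncard_addT (c : Cfg ι) {s : Set (Vx ι)} (hs : s.Finite) :
    (c.addT s).ρ.ncard ≤ c.ρ.ncard + s.ncard :=
  (Set.ncard_union_le _ _).trans (Nat.add_le_add_left (Set.ncard_image_le hs) _)

/-- A side that is not a translate of the tether of a vertex with at most one tether. -/
theorem exists_side {ρ : Set (Orb ι)} (hs : Sys ρ) {v : Vx ι} (hv : v.1 ∈ ρ)
    (hl : v.2.length ≤ 1) (hm : ∀ t ∈ v.2, t ∈ v.1) : ∃ X ∈ v.1, ∀ t ∈ v.2, ¬ Tr X t := by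
  obtain ⟨o, L⟩ := v
  match L, hl, hm with
  | [], _, _ => exact ⟨rep o, hs.rep_mem hv, by simp⟩
  | [t], _, hm =>
    have ht : t ∈ o := hm t (by simp)
    refine ⟨tᶜ, ?_, ?_⟩
    · rw [hs.eq_orb hv ht]
      exact compl_mem_orb (mem_orb_self t)
    · intro t' ht'
      obtain rfl : t' = t := by simpa using ht'
      rintro ⟨g, hg⟩
      exact (hs.isSph (mem_sides.2 ⟨o, hv, ht⟩)).not_tr_compl hg.symm
  | _ :: _ :: _, hl, _ => simp at hl

theorem mem_of_tr {ρ : Set (Orb ι)} (hs : Sys ρ) {o : Orb ι} (ho : o ∈ ρ) {X t : Set (Fr ι)}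
    (hX : X ∈ o) (h : Tr t X) : t ∈ o := by
  rw [hs.eq_orb ho hX]
  exact mem_orb_iff_tr.2 (Or.inl h)

theorem eq_of_mem {ρ : Set (Orb ι)} (hs : Sys ρ) {o o' : Orb ι} (ho : o ∈ ρ) (ho' : o' ∈ ρ)
    {t : Set (Fr ι)} (h : t ∈ o) (h' : t ∈ o') : o = o' :=
  (hs.eq_orb ho h).trans (hs.eq_orb ho' h').symm

/-- The chosen side is not tethered. -/
theorem not_tr {e : ℕ} {c : Cfg ι} (hc : Valid c) {s : Set (Vx ι)} (hs : Mx e c s)
    {v : Vx ι} (hv : v ∈ s) (hu : ∀ w ∈ s, w.1 = v.1 → w = v) {X : Set (Fr ι)} (hX : X ∈ v.1)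
    (hL : ∀ t ∈ v.2, ¬ Tr X t) : ∀ t ∈ (c.addT s).T, ¬ Tr X t := by
  intro t ht htr
  have hsys : Sys (c.addT s).ρ := hs.valid.sys
  have hvρ : v.1 ∈ (c.addT s).ρ := Or.inr ⟨v, hv, rfl⟩
  have h1 : t ∈ v.1 := mem_of_tr hsys hvρ hX htr.symm
  rcases mem_addT_T.1 ht with ht | ⟨w, hw, ht⟩
  · obtain ⟨o, ho, hto⟩ := mem_sides.1 (hc.adj t ht).1
    have e0 : v.1 = o := eq_of_mem hsys hvρ (Or.inl ho) h1 hto
    exact hs.indep v.1 ⟨v, hv, rfl⟩ (Submodule.mem_sup_left (vo_mem_spn 2 (e0 ▸ ho)))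
  · have e0 : w.1 = v.1 :=
      eq_of_mem hsys (Or.inr ⟨w, hw, rfl⟩) hvρ ((hs.shape w hw).2.2 t ht) h1
    rw [hu w hw e0] at ht
    exact hL t ht htr

theorem at_empty (c : Cfg ι) (X : Set (Fr ι)) : At c X ∅ := ⟨by simp, by simp⟩

theorem at_mono {c c' : Cfg ι} {X : Set (Fr ι)} {U U' : Orb ι} (h : At c X U) (hA : c'.A = c.A)
    (hρ : c'.ρ ⊆ c.ρ) (hU : U' ⊆ U) (hX : ∀ t, Tr t X → t ∈ sides c'.ρ) : At c' X U' := by
  have hd : ∀ t0, dif t0 U' ⊆ dif t0 U := fun t0 g hg => ⟨hg.1, hU hg.2⟩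
  refine ⟨fun t ht => ⟨(h.1 t (hU ht)).1.of_mono hρ (hX t (h.1 t (hU ht)).2), (h.1 t (hU ht)).2⟩,
    fun t0 ht0 => ?_⟩
  rw [hA]
  exact ⟨(h.2 t0 (hU ht0)).1.mono_right (hd t0),
    (h.2 t0 (hU ht0)).2.mono (Set.union_subset_union_right _ (hd t0))⟩

end Basic

section Main

variable {ι : Type} [Fintype ι] [DecidableEq ι]

/-- For an independent system every side has an adjacent translate, and the rank is known. -/
theorem adj_rank (had : S_adapt) {c : Cfg ι} (hc : Valid c) (hi : Indep 2 ⊥ c.ρ) :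
    (∀ X ∈ sides c.ρ, ∃ X1, Tr X1 X ∧ Adj c.ρ X1) ∧ rkD c.D + c.ρ.ncard = Fintype.card ι := by
  obtain ⟨β, hβ⟩ := had ι c hc
  have hi' : Indep 2 (Ann 2 (Dg (sides (∅ : Set (Orb ι))))) c.ρ := by
    rwa [sides_empty, Dg_empty, Ann_top]
  obtain ⟨-, h1, -, h2, -⟩ := hβ.indep hc.sys (Set.empty_union _).symm hi'
  rw [sides_empty, Dg_empty, rkD_top] at h2
  refine ⟨fun X hX => ?_, h2⟩
  obtain ⟨o, ho, hXo⟩ := mem_sides.1 hX
  obtain ⟨s, rfl, -⟩ := h1 o ho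
  obtain ⟨g, b, rfl⟩ := (mem_orb_hl β).1 hXo
  refine ⟨hl β (s, b), Tr.symm ⟨g, rfl⟩, adj_hl_of_basis (fun o ho => ?_) ?_⟩
  · obtain ⟨s, e, -⟩ := h1 o ho
    exact ⟨s, e⟩
  · exact mem_sides.2 ⟨_, ho, hl_mem_orb β s b true⟩

/-- Exactness below `j` with margin `N`. -/
def Below (ι : Type) [Fintype ι] [DecidableEq ι] (ε j N : ℕ) : Prop :=
  ∀ c : Cfg ι, Valid c → Indep 2 ⊥ c.ρ → c.A.ncard + c.ρ.ncard + N ≤ Fintype.card ι →
    ∀ m < j, ExactAt (XT ε c) m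

/-- Cycles away from a short simplex bound in its link. -/
theorem cycle_bounds (hgen : S_gen) (had : S_adapt) (hAtb : S_Atb) {e j N N' n : ℕ} (he : e ≤ 1)
    (hn : n ≤ j) (ih : Below ι (e + 1) j N)
    (hAt : ∀ (c : Cfg ι) (X0 : Set (Fr ι)), Valid c → Adj c.ρ X0 → (∀ t ∈ c.T, ¬ Tr X0 t) →
      c.A.ncard + N' ≤ rkD c.D → Acyc (At c X0) j)
    {c : Cfg ι} (hc : Valid c) (hi : Indep 2 ⊥ c.ρ) {σ : Set (Vx ι)} (hfin : σ.Finite)
    (hne : σ.Nonempty) (hσ : XT e c σ)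
    (hcard : c.A.ncard + c.ρ.ncard + σ.ncard + j + N + N' ≤ Fintype.card ι) :
    Zc (XT (e + 1) (c.addT σ)) n ≤
      Bc (fun τ => (∀ v ∈ τ, v.2.length = e + 1) ∧ Mx e c (σ ∪ τ)) n := by
  obtain ⟨v0, hv0⟩ := hne
  have hM : Mx e c σ := Mx.of_short hσ
  have hc' : Valid (c.addT σ) := hM.valid
  have hi' : Indep 2 ⊥ (c.addT σ).ρ := (indep_addT hi hM.indep).1
  have hv0ρ : v0.1 ∈ (c.addT σ).ρ := Or.inr ⟨v0, hv0, rfl⟩
  obtain ⟨X0, hX0, hL⟩ := exists_side hc'.sys hv0ρ (by rw [(hσ.1 v0 hv0).1]; exact he)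
    (hσ.1 v0 hv0).2.2
  have htr : ∀ t, Tr t X0 → t ∈ v0.1 := fun t ht => mem_of_tr hc'.sys hv0ρ hX0 ht
  have hρ' := ncard_addT c hfin
  have hnt : ∀ τ, XT (e + 1) (c.addT σ) τ → ∀ t ∈ ((c.addT σ).addT τ).T, ¬ Tr X0 t := by
    intro τ hτ
    obtain ⟨h1, -, h3⟩ := (link_iff hM τ).2 hτ
    rw [addT_addT]
    refine not_tr hc h3 (Or.inl hv0) ?_ hX0 hL
    rintro w (hw | hw) e0
    · exact hσ.2.1 hw hv0 e0
    · exact absurd ⟨v0, hv0, e0.symm⟩ (h1 w hw)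
  have hD : Down2 fun (τ : Set (Vx ι)) (U : Orb ι) =>
      XT (e + 1) (c.addT σ) τ ∧ At ((c.addT σ).addT τ) X0 U := by
    rintro τ τ' U U' ⟨h1, h2⟩ hτ hU
    refine ⟨down_XT hc' _ _ _ h1 hτ, at_mono h2 rfl
      (Set.union_subset_union_right _ (Set.image_mono hτ)) hU fun t ht => ?_⟩
    exact mem_sides.2 ⟨v0.1, Or.inl hv0ρ, htr t ht⟩
  have key := hgen (Vx ι) (Set (Fr ι)) _ _ n hD hD (fun _ _ _ _ h => h) ?_ ?_
  · refine le_trans (Zc_mono fun l hl => ⟨hl, at_empty _ _⟩) (key.trans (iSup_le fun t => ?_))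
    refine Zc_le_Bc_of_cone (v0.1, t :: v0.2) ?_ n
    rintro τ - ⟨hτ, hA⟩
    obtain ⟨h1, h2, h3⟩ := (link_iff hM τ).2 hτ
    have ht : Tr t X0 := (hA.1 t rfl).2
    have hlen : (t :: v0.2).length = e + 1 := by rw [List.length_cons, (hσ.1 v0 hv0).1]
    have hpr : pr e ((v0.1, t :: v0.2) : Vx ι) = pr e v0 := by
      rw [pr_of_ne (v := v0) (by rw [(hσ.1 v0 hv0).1]; omega), pr, if_pos hlen]; rfl
    have hf : Prod.fst '' (σ ∪ insert (v0.1, t :: v0.2) τ) = Prod.fst '' (σ ∪ τ) := by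
      rw [Set.union_insert, Set.image_insert_eq]
      exact Set.insert_eq_of_mem ⟨v0, Or.inl hv0, rfl⟩
    have hval : Valid (((c.addT σ).addT τ).ext t {t}) :=
      (((hAtb ι _ X0).2.2.2 hτ.2.2.1).2.1 {t} t hA rfl).2.2 (hnt τ hτ) |>.1
    have hrep : ∀ v ∈ σ ∪ insert (v0.1, t :: v0.2) τ,
        ∃ u ∈ σ ∪ τ, v.1 = u.1 ∧ pr e v = pr e u := by
      rintro v (hv | rfl | hv)
      · exact ⟨v, Or.inl hv, rfl, rfl⟩
      · exact ⟨v0, Or.inl hv0, rfl, hpr⟩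
      · exact ⟨v, Or.inr hv, rfl, rfl⟩
    refine ⟨?_, ?_, ?_, ?_, ?_, ?_⟩
    · rintro v (rfl | hv)
      · exact hlen
      · exact h2 v hv
    · rintro v (hv | rfl | hv)
      · exact hM.shape v hv
      · refine ⟨Or.inr hlen, List.nodup_cons.2 ⟨fun h => hL t h ht.symm, (hσ.1 v0 hv0).2.1⟩, ?_⟩
        intro t' ht'
        rcases List.mem_cons.1 ht' with rfl | ht'
        · exact htr _ ht
        · exact (hσ.1 v0 hv0).2.2 t' ht'
      · exact h3.shape v (Or.inr hv)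
    · intro v hv w hw e0
      obtain ⟨u, hu, e1, e2⟩ := hrep v hv
      obtain ⟨u', hu', e1', e2'⟩ := hrep w hw
      rw [e2, e2']
      exact h3.inj u hu u' hu' (by rw [← e1, ← e1', e0])
    · rintro v (hv | rfl | hv) w (hw | rfl | hw) l1 l2 e0
      · exact hσ.2.1 hv hw e0
      · rw [(hσ.1 v hv).1] at l1; omega
      · rw [(hσ.1 v hv).1] at l1; omega
      · rw [(hσ.1 w hw).1] at l2; omega
      · rfl
      · exact absurd ⟨v0, hv0, e0⟩ (h1 w hw)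
      · rw [(hσ.1 w hw).1] at l2; omega
      · exact absurd ⟨v0, hv0, e0.symm⟩ (h1 v hv)
      · exact hτ.2.1 hv hw e0
    · rw [addT_addT] at hval
      have hρ : (c.addT (σ ∪ insert (v0.1, t :: v0.2) τ)).ρ =
          ((c.addT (σ ∪ τ)).ext t {t}).ρ := by
        rw [addT_ρ, hf]; rfl
      have hT : (c.addT (σ ∪ insert (v0.1, t :: v0.2) τ)).T ⊆
          ((c.addT (σ ∪ τ)).ext t {t}).T := by
        intro t' ht'
        change t' ∈ insert t (c.addT (σ ∪ τ)).T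
        rcases mem_addT_T.1 ht' with ht' | ⟨v, hv | rfl | hv, ht'⟩
        · exact Or.inr (mem_addT_T.2 (Or.inl ht'))
        · exact Or.inr (mem_addT_T.2 (Or.inr ⟨v, Or.inl hv, ht'⟩))
        · rcases List.mem_cons.1 ht' with rfl | ht'
          · exact Or.inl rfl
          · exact Or.inr (mem_addT_T.2 (Or.inr ⟨v0, Or.inl hv0, ht'⟩))
        · exact Or.inr (mem_addT_T.2 (Or.inr ⟨v, Or.inr hv, ht'⟩))
      exact hval.mono Set.subset_union_left hρ.subset hT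
        fun t' ht' => by rw [hρ]; exact (hval.adj t' (hT ht')).1
    · rw [hf]; exact h3.indep
  · rintro τ hτf hτn ⟨hτ, -⟩
    have hc'' : Valid ((c.addT σ).addT τ) := hτ.2.2.1
    obtain ⟨ha, hr⟩ := adj_rank had hc'' (indep_addT hi' hτ.2.2.2).1
    obtain ⟨X1, h1, h2⟩ := ha X0 (mem_sides.2 ⟨v0.1, Or.inl hv0ρ, hX0⟩)
    have hρ'' := ncard_addT (c.addT σ) hτf
    have hA := hAt _ X1 hc'' h2 (fun t ht h => hnt τ hτ t ht (h1.symm.trans h))
      (by change c.A.ncard + N' ≤ _; omega)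
    rw [(hAtb ι _ X0).2.2.1 X1 h1] at hA
    exact (hA.mono hn).congr fun U _ => ⟨fun h => ⟨hτ, h⟩, fun h => h.2⟩
  · rintro U hUf ⟨t0, ht0⟩ hUn ⟨-, hA⟩ m hm
    rw [addT_empty] at hA
    obtain ⟨-, hcd, hx⟩ := ((hAtb ι _ X0).2.2.2 hc').2.1 U t0 hA ht0
    have hnt0 := hnt ∅ (XT_empty hc' _)
    rw [addT_empty] at hnt0
    obtain ⟨hx1, hx2⟩ := hx hnt0
    have hcardA : ((c.addT σ).ext t0 U).A.ncard ≤ c.A.ncard + (dif t0 U).ncard :=
      Set.ncard_union_le _ _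
    have hE := ih ((c.addT σ).ext t0 U) hx1 hi'
      (by change _ + (c.addT σ).ρ.ncard + N ≤ _; omega) m (by omega)
    refine hE.congr fun τ _ => ⟨?_, ?_⟩
    · rintro ⟨h1, h2, h3, h4⟩
      have h5 : Valid (((c.addT σ).ext t0 U).add (Prod.fst '' τ)) :=
        h3.mono subset_rfl subset_rfl Set.subset_union_left
          fun t ht => (h3.adj t (Or.inl ht)).1
      rw [ext_addT] at h3
      exact ⟨⟨h1, h2, h3.mono Set.subset_union_left subset_rfl (Set.subset_insert _ _)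
        fun t ht => (h3.adj t (Or.inr ht)).1, h4⟩, ((hx2 _).1 h5).2⟩
    · rintro ⟨hτ, hA'⟩
      refine ⟨hτ.1, hτ.2.1, ?_, hτ.2.2.2⟩
      rw [ext_addT]
      exact ((((hAtb ι _ X0).2.2.2 hτ.2.2.1).2.1 U t0 hA' ht0).2.2 (hnt τ hτ)).1

/-- The link of a short simplex on the long vertices is exact. -/
theorem exact_link (hfull : S_full) (hgen : S_gen) (had : S_adapt) (hAtb : S_Atb)
    {e j N N' n : ℕ} (he : e ≤ 1) (hn : n ≤ j) (ih : Below ι (e + 1) j N)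
    (hAt : ∀ (c : Cfg ι) (X0 : Set (Fr ι)), Valid c → Adj c.ρ X0 → (∀ t ∈ c.T, ¬ Tr X0 t) →
      c.A.ncard + N' ≤ rkD c.D → Acyc (At c X0) j)
    {c : Cfg ι} (hc : Valid c) (hi : Indep 2 ⊥ c.ρ) {σ : Set (Vx ι)} (hfin : σ.Finite)
    (hne : σ.Nonempty) (hσ : XT e c σ)
    (hcard : c.A.ncard + c.ρ.ncard + σ.ncard + j + N + N' ≤ Fintype.card ι) :
    ExactAt (fun τ => (∀ v ∈ τ, v.2.length = e + 1) ∧ Mx e c (σ ∪ τ)) n := by
  have hM : Mx e c σ := Mx.of_short hσ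
  have hD : Down fun τ : Set (Vx ι) => (∀ v ∈ τ, v.2.length = e + 1) ∧ Mx e c (σ ∪ τ) :=
    fun S T h hT => ⟨fun v hv => h.1 v (hT hv),
      down_Mx hc e _ _ h.2 (Set.union_subset_union_right _ hT)⟩
  have key := (hfull (Vx ι) _ {v | v.1 ∈ Prod.fst '' σ} hD n).2 ?_
  · refine key.trans (sup_le (le_trans (Zc_mono fun l hl => ?_)
      (cycle_bounds hgen had hAtb he hn ih hAt hc hi hfin hne hσ hcard)) le_rfl)
    obtain ⟨h1, h2⟩ := hl
    rw [Set.empty_union] at h2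
    exact (link_iff hM _).1 ⟨h1, h2⟩
  · rintro σ' hf' hne' hsub ⟨hl', hM'⟩ hn'
    have hpos : 0 < σ'.ncard := (Set.ncard_pos hf').2 hne'
    have hf : Prod.fst '' (σ ∪ σ') = Prod.fst '' σ := by
      rw [Set.image_union]
      refine Set.union_eq_self_of_subset_right ?_
      rintro _ ⟨v, hv, rfl⟩
      exact hsub hv
    have hρ : (c.addT (σ ∪ σ')).ρ.ncard ≤ c.ρ.ncard + σ.ncard := by
      rw [addT_ρ, hf]; exact ncard_addT c hfin
    have hE := ih (c.addT (σ ∪ σ')) hM'.valid (indep_addT hi hM'.indep).1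
      (by change c.A.ncard + _ + N ≤ _; omega) (n - σ'.ncard) (by omega)
    refine hE.congr fun τ _ => ?_
    rw [← link_iff hM' τ, hf, Set.union_assoc]
    refine ⟨fun h => ⟨h.1, ?_, h.2.2⟩, fun h => ⟨h.1, fun v hv => h.2.1 v (Or.inr hv), h.2.2⟩⟩
    rintro v (hv | hv)
    · exact hl' v hv
    · exact h.2.1 v hv

/-- The induction step on the degree. -/
theorem exact_step (hfull : S_full) (hgen : S_gen) (had : S_adapt) (hAtb : S_Atb)
    {e j N N' : ℕ} (he : e ≤ 1) (ih : Below ι (e + 1) j N)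
    (hAt : ∀ (c : Cfg ι) (X0 : Set (Fr ι)), Valid c → Adj c.ρ X0 → (∀ t ∈ c.T, ¬ Tr X0 t) →
      c.A.ncard + N' ≤ rkD c.D → Acyc (At c X0) j)
    {c : Cfg ι} (hc : Valid c) (hi : Indep 2 ⊥ c.ρ) (hE : ExactAt (XT e c) j)
    (hcard : c.A.ncard + c.ρ.ncard + (j + 1) + j + N + N' ≤ Fintype.card ι) :
    ExactAt (XT (e + 1) c) j := by
  have hiff : ∀ S, XT (e + 1) c S ↔ FLk (Mx e c) {v | v.2.length ≠ e + 1} ∅ S := fun S => by
    rw [FLk, Set.empty_union]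
    exact ⟨fun h => ⟨fun v hv h' => h' (h.1 v hv).1, Mx.of_long h⟩,
      fun h => h.2.to_long fun v hv => not_not.1 (h.1 v hv)⟩
  have key := (hfull (Vx ι) (Mx e c) {v | v.2.length ≠ e + 1} (down_Mx hc e) j).1 ?_
  · intro z hz
    refine Bc_mono (fun l => (hiff _).2) (key ⟨Zc_mono (fun l => (hiff _).1) hz, ?_⟩)
    exact exact_Mx hc hE (Zc_mono (fun l => Mx.of_long) hz)
  · intro σ hf hne hsub hM hn
    have hpos : 0 < σ.ncard := (Set.ncard_pos hf).2 hne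
    have hσ : XT e c σ := by
      have := hM.to_short hc
      rwa [Set.image_congr (fun v hv => pr_of_ne (hsub hv)), Set.image_id'] at this
    have := exact_link hfull hgen had hAtb he (n := j + 1 - σ.ncard) (by omega) ih hAt hc hi hf
      hne hσ (by omega)
    exact this.congr fun τ _ => ⟨fun h => ⟨fun v hv h' => h' (h.1 v hv), h.2⟩,
      fun h => ⟨fun v hv => not_not.1 (h.1 v hv), h.2⟩⟩

end Main

end JXT

open JXT

theorem p_XT0 (hY : S_Y) : S_XT 0 := by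
  intro j
  obtain ⟨N, hN⟩ := hY j
  refine ⟨N, fun ι _ _ c hc _ hcard n hn => ?_⟩
  have hr := finrank_spn_le 2 (⊥ : Submodule (ZMod 2) (ι → ZMod 2)) hc.sys.1
  rw [finrank_bot] at hr
  have hA := hN ι 2 ⊥ c hc (by omega) n hn
  refine hA.retract (fun o => ((o, []) : Vx ι)) Prod.fst ?_ ?_ ?_
  · rintro S - ⟨h1, h2⟩
    have hf : Prod.fst '' ((fun o => ((o, []) : Vx ι)) '' S) = S := by
      rw [Set.image_image]; simp
    refine ⟨?_, ?_, ?_, ?_⟩
    · rintro _ ⟨o, -, rfl⟩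
      simp
    · rintro _ ⟨o, -, rfl⟩ _ ⟨o', -, rfl⟩ e
      exact Prod.ext e rfl
    · refine h1.mono subset_rfl (by rw [addT_ρ, hf]; rfl) (fun t ht => ?_) fun t ht => ?_
      · rcases mem_addT_T.1 ht with ht | ⟨_, ⟨o, -, rfl⟩, ht⟩
        · exact ht
        · simp at ht
      · rcases mem_addT_T.1 ht with ht | ⟨_, ⟨o, -, rfl⟩, ht⟩
        · exact sides_mono Set.subset_union_left (hc.adj t ht).1
        · simp at ht
    · rwa [hf, ← bot_sup_eq (spn 2 c.ρ)]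
  · rintro S - ⟨-, -, h3, h4⟩
    exact ⟨h3.mono subset_rfl subset_rfl Set.subset_union_left
      fun t ht => (h3.adj t (Or.inl ht)).1, by rwa [bot_sup_eq]⟩
  · rintro S ⟨h1, -⟩ w hw
    exact Prod.ext rfl (List.length_eq_zero_iff.1 (h1 w hw).1).symm

theorem p_XTs (hfull : S_full) (hgen : S_gen) (had : S_adapt) (hAtb : S_Atb) (hAt : S_At)
    (e : ℕ) (he : e ≤ 1) (h : S_XT e) : S_XT (e + 1) := by
  have main : ∀ j, ∃ N, ∀ (ι : Type) [Fintype ι] [DecidableEq ι], Below ι (e + 1) j N := by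
    intro j
    induction j with
    | zero => exact ⟨0, fun ι _ _ c _ _ _ m hm => by omega⟩
    | succ j ih =>
      obtain ⟨N, hN⟩ := ih
      obtain ⟨N1, hN1⟩ := hAt j
      obtain ⟨N2, hN2⟩ := h j
      refine ⟨j + 1 + j + N + N1 + N2, fun ι _ _ c hc hi hcard m hm => ?_⟩
      rcases Nat.lt_succ_iff_lt_or_eq.1 hm with hm | rfl
      · exact hN ι c hc hi (by omega) m hm
      · exact exact_step hfull hgen had hAtb he (hN ι)
          (fun c X0 h1 h2 h3 h4 => (hN1 ι c X0 h1 h2 h3 h4).1) hc hi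
          (hN2 ι c hc hi (by omega) m le_rfl) (by omega)
  intro j
  obtain ⟨N, hN⟩ := main (j + 1)
  exact ⟨N, fun ι _ _ c hc hi hcard n hn => hN ι c hc hi hcard n (by omega)⟩

end Pool.Agent.Lib.MP_49df17_al
end
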