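import Pool.Agent.Lib.MP_49df17_al.Core

-- part Pool.Agent.Lib.MP_49df17_al.W
section

/-!
The homology groups of the IA-groups form a functor on split injections, and elementary matrices
act unipotently on its values in large rank.
-/

set_option linter.unusedSectionVars false

namespace Pool.Agent.Lib.MP_49df17_al

open Matrix
open scoped Pointwise

namespace JW

section Sum

variable {A B C D E F : Type}

/-- The free product of two homomorphisms of free groups. -/
def sumH (α : Fr A →* Fr B) (β : Fr C →* Fr D) : Fr (A ⊕ C) →* Fr (B ⊕ D) :=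
  FreeGroup.lift (Sum.elim (fun a => FreeGroup.map Sum.inl (α (FreeGroup.of a)))
    fun c => FreeGroup.map Sum.inr (β (FreeGroup.of c)))

theorem sumH_inl (α : Fr A →* Fr B) (β : Fr C →* Fr D) (g : Fr A) :
    sumH α β (FreeGroup.map Sum.inl g) = FreeGroup.map Sum.inl (α g) := by
  have : (sumH α β).comp (FreeGroup.map Sum.inl) = (FreeGroup.map Sum.inl).comp α := by
    ext a; simp [sumH]
  exact DFunLike.congr_fun this g

theorem sumH_inr (α : Fr A →* Fr B) (β : Fr C →* Fr D) (g : Fr C) :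
    sumH α β (FreeGroup.map Sum.inr g) = FreeGroup.map Sum.inr (β g) := by
  have : (sumH α β).comp (FreeGroup.map Sum.inr) = (FreeGroup.map Sum.inr).comp β := by
    ext a; simp [sumH]
  exact DFunLike.congr_fun this g

theorem hom_ext_sum {G : Type} [Group G] {f g : Fr (A ⊕ C) →* G}
    (h1 : ∀ a, f (FreeGroup.map Sum.inl (FreeGroup.of a)) =
      g (FreeGroup.map Sum.inl (FreeGroup.of a)))
    (h2 : ∀ c, f (FreeGroup.map Sum.inr (FreeGroup.of c)) =
      g (FreeGroup.map Sum.inr (FreeGroup.of c))) : f = g := by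
  ext (a | c)
  · simpa using h1 a
  · simpa using h2 c

theorem sumH_comp {A' C' : Type} (α : Fr A →* Fr B) (β : Fr C →* Fr D) (α' : Fr A' →* Fr A)
    (β' : Fr C' →* Fr C) : (sumH α β).comp (sumH α' β') = sumH (α.comp α') (β.comp β') :=
  hom_ext_sum (fun a => by simp only [MonoidHom.comp_apply, sumH_inl])
    (fun c => by simp only [MonoidHom.comp_apply, sumH_inr])

theorem sumH_id : sumH (MonoidHom.id (Fr A)) (MonoidHom.id (Fr C)) = MonoidHom.id _ :=
  hom_ext_sum (fun a => by simp only [sumH_inl, MonoidHom.id_apply])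
    (fun c => by simp only [sumH_inr, MonoidHom.id_apply])

/-- The free product of two isomorphisms of free groups. -/
def sumE (α : Fr A ≃* Fr B) (β : Fr C ≃* Fr D) : Fr (A ⊕ C) ≃* Fr (B ⊕ D) :=
  MonoidHom.toMulEquiv (sumH α.toMonoidHom β.toMonoidHom)
    (sumH α.symm.toMonoidHom β.symm.toMonoidHom)
    (by rw [sumH_comp, ← sumH_id]; congr 1 <;> (ext; simp))
    (by rw [sumH_comp, ← sumH_id]; congr 1 <;> (ext; simp))

theorem sumE_inl (α : Fr A ≃* Fr B) (β : Fr C ≃* Fr D) (g : Fr A) :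
    sumE α β (FreeGroup.map Sum.inl g) = FreeGroup.map Sum.inl (α g) := sumH_inl _ _ g

theorem sumE_inr (α : Fr A ≃* Fr B) (β : Fr C ≃* Fr D) (g : Fr C) :
    sumE α β (FreeGroup.map Sum.inr g) = FreeGroup.map Sum.inr (β g) := sumH_inr _ _ g

theorem sumE_symm (α : Fr A ≃* Fr B) (β : Fr C ≃* Fr D) :
    (sumE α β).symm = sumE α.symm β.symm := rfl

theorem extA_map_inr (φ : Au A) (g : Fr C) :
    extA C φ (FreeGroup.map Sum.inr g) = FreeGroup.map Sum.inr g := by
  have : (extA C φ).toMonoidHom.comp (FreeGroup.map Sum.inr) = FreeGroup.map Sum.inr := by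
    ext c; simp [extA_inr]
  exact DFunLike.congr_fun this g

/-- The free product intertwines the extensions by the identity. -/
theorem sumE_extA (α : Fr A ≃* Fr B) (β : Fr C ≃* Fr D) (φ : Au A) (ψ : Au B)
    (h : ∀ g, α (φ g) = ψ (α g)) (g : Fr (A ⊕ C)) :
    sumE α β (extA C φ g) = extA D ψ (sumE α β g) := by
  have : (sumE α β).toMonoidHom.comp (extA C φ).toMonoidHom =
      (extA D ψ).toMonoidHom.comp (sumE α β).toMonoidHom :=
    hom_ext_sum
      (fun a => by
        simp only [MonoidHom.comp_apply, MulEquiv.coe_toMonoidHom, extA_map, sumE_inl, h])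
      (fun c => by
        simp only [MonoidHom.comp_apply, MulEquiv.coe_toMonoidHom, extA_map_inr, sumE_inr])
  exact DFunLike.congr_fun this g

/-- Rebracketing intertwines the extensions by the identity. -/
theorem assoc_extA (φ : Au A) (g : Fr (A ⊕ (C ⊕ D))) :
    FreeGroup.freeGroupCongr (Equiv.sumAssoc A C D).symm (extA (C ⊕ D) φ g) =
      extA D (extA C φ) (FreeGroup.freeGroupCongr (Equiv.sumAssoc A C D).symm g) := by
  have key : ∀ x : Fr A, FreeGroup.freeGroupCongr (Equiv.sumAssoc A C D).symm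
      (FreeGroup.map Sum.inl x) = FreeGroup.map Sum.inl (FreeGroup.map Sum.inl x) := by
    intro x
    simp only [FreeGroup.freeGroupCongr_apply, FreeGroup.map.comp]
    rfl
  have : (FreeGroup.freeGroupCongr (Equiv.sumAssoc A C D).symm).toMonoidHom.comp
      (extA (C ⊕ D) φ).toMonoidHom = (extA D (extA C φ)).toMonoidHom.comp
      (FreeGroup.freeGroupCongr (Equiv.sumAssoc A C D).symm).toMonoidHom := by
    refine hom_ext_sum (fun a => ?_) (fun c => ?_)
    · simp only [MonoidHom.comp_apply, MulEquiv.coe_toMonoidHom, extA_map, key]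
    · simp only [MonoidHom.comp_apply, MulEquiv.coe_toMonoidHom, extA_map_inr]
      rcases c with c | d
      · have h1 := extA_map D (extA C φ) (FreeGroup.of (Sum.inr c))
        rw [extA_inr] at h1
        simpa using h1.symm
      · have h1 := extA_inr D (extA C φ) d
        simpa using h1.symm
  exact DFunLike.congr_fun this g

/-- Deleting an empty set of letters. -/
theorem empty_extA (φ : Au A) (g : Fr (A ⊕ Empty)) :
    FreeGroup.freeGroupCongr (Equiv.sumEmpty A Empty) (extA Empty φ g) =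
      φ (FreeGroup.freeGroupCongr (Equiv.sumEmpty A Empty) g) := by
  have key : ∀ x : Fr A, FreeGroup.freeGroupCongr (Equiv.sumEmpty A Empty)
      (FreeGroup.map Sum.inl x) = x := by
    intro x
    simp only [FreeGroup.freeGroupCongr_apply, FreeGroup.map.comp]
    exact FreeGroup.map.id' x
  have : (FreeGroup.freeGroupCongr (Equiv.sumEmpty A Empty)).toMonoidHom.comp
      (extA Empty φ).toMonoidHom = φ.toMonoidHom.comp
      (FreeGroup.freeGroupCongr (Equiv.sumEmpty A Empty)).toMonoidHom := by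
    refine hom_ext_sum (fun a => ?_) (fun c => c.elim)
    simp only [MonoidHom.comp_apply, MulEquiv.coe_toMonoidHom, extA_map, key]
  exact DFunLike.congr_fun this g

end Sum

section Mat

variable {A B C D : Type} [Fintype A] [DecidableEq A] [Fintype B] [DecidableEq B]
  [Fintype C] [DecidableEq C] [Fintype D] [DecidableEq D]

theorem abv_map_inr (g : Fr C) : abv (FreeGroup.map (Sum.inr : C → A ⊕ C) g) =
    Sum.elim (0 : A → ℤ) (abv g) := by
  induction g using FreeGroup.induction_on with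
  | C1 => ext (a | a) <;> simp [abv_one]
  | of s => ext (a | a) <;> simp [abv_of, Pi.single_apply]
  | inv_of s ih => rw [map_inv, abv_inv, ih, abv_inv]; ext (a | a) <;> simp
  | mul a b iha ihb => rw [map_mul, abv_mul, iha, ihb, abv_mul]; ext (a | a) <;> simp

theorem abMat_sumE (α : Fr A ≃* Fr B) (β : Fr C ≃* Fr D) :
    abMat (sumE α β) = fromBlocks (abMat α) 0 0 (abMat β) := by
  ext a (b | b)
  · have h := sumE_inl α β (FreeGroup.of b)
    rw [FreeGroup.map.of] at h
    rcases a with a | a <;> simp [abMat, h, abv_map_inl]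
  · have h := sumE_inr α β (FreeGroup.of b)
    rw [FreeGroup.map.of] at h
    rcases a with a | a <;> simp [abMat, h, abv_map_inr]

theorem abMat_congr (e : A ≃ B) :
    abMat (FreeGroup.freeGroupCongr e) = Matrix.of fun y x => if e x = y then 1 else 0 := by
  ext b a
  simp [abMat, abv_of, Pi.single_apply, eq_comm]

end Mat

theorem comp_assoc {W X Y Z : Ob} (h : Mor Y Z) (g : Mor X Y) (f : Mor W X) :
    (h.comp g).comp f = h.comp (g.comp f) := by
  apply Mor.ext <;> simp [Mor.comp, Matrix.mul_assoc]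

theorem comp_id {X Y : Ob} (f : Mor X Y) : f.comp (Mor.id X) = f := by
  apply Mor.ext <;> simp [Mor.comp, Mor.id]

theorem emb_comp {X Y Z : Ob} (e : Y.ι ↪ Z.ι) (e' : X.ι ↪ Y.ι) :
    (Mor.emb e).comp (Mor.emb e') = Mor.emb (e'.trans e) := by
  apply Mor.ext
  · ext a b
    simp [Mor.comp, Mor.emb, Matrix.mul_apply]
  · ext a b
    simp only [Mor.comp, Mor.emb, Matrix.mul_apply, of_apply, ite_mul, one_mul, zero_mul,
      Finset.sum_ite_eq, Finset.mem_univ, if_true]
    rfl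

theorem isoMor_trans {X Y Z : Ob} (Φ : Fr X.ι ≃* Fr Y.ι) (Ψ : Fr Y.ι ≃* Fr Z.ι) :
    isoMor (Φ.trans Ψ) = (isoMor Ψ).comp (isoMor Φ) := by
  apply Mor.ext
  · exact abMat_trans Φ Ψ
  · exact abMat_trans Ψ.symm Φ.symm

theorem isoMor_sumE {X Y X' Y' : Ob} (α : Fr X.ι ≃* Fr Y.ι) (β : Fr X'.ι ≃* Fr Y'.ι) :
    isoMor (X := X.sum X') (Y := Y.sum Y') (sumE α β) = (isoMor α).sum (isoMor β) := by
  apply Mor.ext
  · exact abMat_sumE α β
  · exact abMat_sumE α.symm β.symm

theorem isoMor_congr {X Y : Ob} (e : X.ι ≃ Y.ι) :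
    isoMor (FreeGroup.freeGroupCongr e) = Mor.emb e.toEmbedding := by
  apply Mor.ext
  · exact abMat_congr e
  · change abMat (FreeGroup.freeGroupCongr e.symm) = _
    rw [abMat_congr]
    ext a b
    simp only [Mor.emb, of_apply, Equiv.symm_apply_eq, Equiv.coe_toEmbedding]
    exact if_congr eq_comm rfl rfl

theorem isoMor_aut {X : Ob} (φ : Au X.ι) : isoMor φ = Mor.ofGL (abGL X.ι φ) := by
  apply Mor.ext
  · rfl
  · change abMat φ.symm = ((abGL X.ι φ)⁻¹).val
    rw [← map_inv]; rfl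

/-- Every morphism comes from a splitting of the free group. -/
theorem exists_lift (hl : S_Zlift) (he : S_Zext) {X Y : Ob} (m : Mor Y X) :
    ∃ (T : Ob) (Φ : Fr (Y.ι ⊕ T.ι) ≃* Fr X.ι), morOf (T := T) Φ = m := by
  obtain ⟨T, g, hg, -, rfl⟩ := he Y X m
  obtain ⟨Φ, hΦ⟩ := hl.2 (Y.sum T) X g hg
  refine ⟨T, Φ, ?_⟩
  have : isoMor (X := Y.sum T) Φ = g := by
    apply Mor.ext
    · exact hΦ
    · change abMat Φ.symm = g.r
      calc abMat Φ.symm = abMat Φ.symm * (g.i * g.r) := by rw [hg, Matrix.mul_one]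
        _ = g.r := by rw [← Matrix.mul_assoc, ← hΦ, abMat_symm_mul, Matrix.one_mul]
  rw [morOf, this]

/-- Conjugate homomorphisms induce the same map up to the action. -/
theorem Hmap_conj (hH : S_Heq) {Γ Γ' : Type} [Group Γ] [Group Γ'] {J : Subgroup Γ}
    {J' : Subgroup Γ'} [hn : J'.Normal] (s s' : Γ →* Γ') (hs : ∀ j ∈ J, s j ∈ J')
    (hs' : ∀ j ∈ J, s' j ∈ J') (θ : Γ') (h : ∀ x, s' x = θ * s x * θ⁻¹) (q : ℕ) (x : Hq J q) :
    Hmap s' hs' q x = Hrep J' q θ (Hmap s hs q x) := by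
  have h1 : ∀ j ∈ J, ∃ j' ∈ J', ∀ y, ((θ * ·) ∘ s) (j * y) = j' * ((θ * ·) ∘ s) y :=
    fun j hj => ⟨s' j, hs' j hj, fun y => by
      simp only [Function.comp_apply, map_mul, h]; group⟩
  have h2 := hH Γ Γ' J J' s' ((θ * ·) ∘ s) (fun j hj => ⟨s' j, hs' j hj, fun y => map_mul s' j y⟩)
    h1 (fun j hj => ⟨s' j, hs' j hj, fun y => map_mul s' j y, fun y => by
      simp only [Function.comp_apply, map_mul, h]; group⟩) q
  unfold Hmap
  rw [h2]
  exact (Hlift_comp s (θ * ·) _
    (fun j hj => ⟨θ * j * θ⁻¹, hn.conj_mem j hj θ, fun x => by group⟩) h1 q x).symm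

theorem Hmap_comp {Γ Γ' Γ'' : Type} [Group Γ] [Group Γ'] [Group Γ''] {J : Subgroup Γ}
    {J' : Subgroup Γ'} {J'' : Subgroup Γ''} (s : Γ →* Γ') (t : Γ' →* Γ'') (u : Γ →* Γ'')
    (hs : ∀ j ∈ J, s j ∈ J') (ht : ∀ j ∈ J', t j ∈ J'') (hu : ∀ j ∈ J, u j ∈ J'')
    (h : (u : Γ → Γ'') = t ∘ s) (q : ℕ) (x : Hq J q) :
    Hmap u hu q x = Hmap t ht q (Hmap s hs q x) := by
  obtain rfl : u = t.comp s := DFunLike.coe_injective h
  exact (Hlift_comp s t _ _ (fun j hj => ⟨t (s j), ht _ (hs j hj), fun y => by simp⟩) q x).symm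

theorem blocks_of {Y T T' : Ob} (M : Matrix (Y.ι ⊕ T'.ι) (Y.ι ⊕ T.ι) ℤ)
    (h1 : M * (Mor.inl Y T).i = (Mor.inl Y T').i) (h2 : (Mor.inl Y T').r * M = (Mor.inl Y T).r) :
    M = fromBlocks 1 0 0 M.toBlocks₂₂ := by
  ext (a | a) (b | b)
  · have := congrFun (congrFun h1 (Sum.inl a)) b
    simpa [Mor.inl, Mor.emb, Matrix.mul_apply, Matrix.one_apply, eq_comm] using this
  · have := congrFun (congrFun h2 a) (Sum.inr b)
    simpa [Mor.inl, Mor.emb, Matrix.mul_apply] using this
  · have := congrFun (congrFun h1 (Sum.inr a)) b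
    simpa [Mor.inl, Mor.emb, Matrix.mul_apply] using this
  · simp [toBlocks₂₂]

/-- The map on homology depends only on the morphism of lattices. -/
theorem indep (hH : S_Heq) (hl : S_Zlift) {X Y T T' : Ob} (Φ : Fr (Y.ι ⊕ T.ι) ≃* Fr X.ι)
    (Φ' : Fr (Y.ι ⊕ T'.ι) ≃* Fr X.ι) (h : morOf (T := T) Φ = morOf (T := T') Φ') (q : ℕ) :
    Hmap (stabHom Φ') (stabHom_IA Φ') q = Hmap (stabHom Φ) (stabHom_IA Φ) q := by
  have hi : abMat Φ * (Mor.inl Y T).i = abMat Φ' * (Mor.inl Y T').i := congrArg Mor.i h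
  have hr : (Mor.inl Y T).r * abMat Φ.symm = (Mor.inl Y T').r * abMat Φ'.symm := congrArg Mor.r h
  have hM := blocks_of (abMat Φ'.symm * abMat Φ)
    (by rw [Matrix.mul_assoc, hi, ← Matrix.mul_assoc, abMat_symm_mul, Matrix.one_mul])
    (by rw [← Matrix.mul_assoc, ← hr, Matrix.mul_assoc, abMat_symm_mul, Matrix.mul_one])
  have hN := blocks_of (abMat Φ.symm * abMat Φ')
    (by rw [Matrix.mul_assoc, ← hi, ← Matrix.mul_assoc, abMat_symm_mul, Matrix.one_mul])
    (by rw [← Matrix.mul_assoc, hr, Matrix.mul_assoc, abMat_symm_mul, Matrix.mul_one])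
  set k := (abMat Φ'.symm * abMat Φ).toBlocks₂₂
  set k' := (abMat Φ.symm * abMat Φ').toBlocks₂₂
  have e1 : abMat Φ'.symm * abMat Φ * (abMat Φ.symm * abMat Φ') = 1 := by
    rw [Matrix.mul_assoc, ← Matrix.mul_assoc (abMat Φ), abMat_mul_symm, Matrix.one_mul,
      abMat_symm_mul]
  have e2 : abMat Φ.symm * abMat Φ' * (abMat Φ'.symm * abMat Φ) = 1 := by
    rw [Matrix.mul_assoc, ← Matrix.mul_assoc (abMat Φ'), abMat_mul_symm, Matrix.one_mul,
      abMat_symm_mul]
  rw [hM, hN, fromBlocks_multiply, ← fromBlocks_one] at e1 e2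
  have f1 : k * k' = 1 := by simpa using (fromBlocks_inj.1 e1).2.2.2
  have f2 : k' * k = 1 := by simpa using (fromBlocks_inj.1 e2).2.2.2
  obtain ⟨η, hη⟩ := hl.2 T T' ⟨k, k', f2⟩ f1
  let Ψ : Fr (Y.ι ⊕ T.ι) ≃* Fr (Y.ι ⊕ T'.ι) := sumE (MulEquiv.refl _) η
  let θ : Au X.ι := Φ.symm.trans (Ψ.trans Φ')
  have hΨ : abMat Ψ = abMat Φ'.symm * abMat Φ := by
    rw [hM, abMat_sumE, hη]
    congr 1
    exact abM_one
  have hθ : θ ∈ IA X.ι := by
    rw [mem_IA, ← abMat_eq_abM, abMat_trans, abMat_trans, hΨ, ← Matrix.mul_assoc,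
      abMat_mul_symm, Matrix.one_mul, abMat_mul_symm]
  refine LinearMap.ext fun x => ?_
  rw [Hmap_conj hH (stabHom Φ) (stabHom Φ') (stabHom_IA Φ) (stabHom_IA Φ') θ (fun φ => ?_) q x,
    Hrep_of_mem _ _ hθ]
  rw [eq_mul_inv_iff_mul_eq]
  refine MulEquiv.ext fun g => ?_
  change Φ' (extA T'.ι φ (Φ'.symm (Φ' (Ψ (Φ.symm g))))) =
    Φ' (Ψ (Φ.symm (Φ (extA T.ι φ (Φ.symm g)))))
  rw [MulEquiv.symm_apply_apply, MulEquiv.symm_apply_apply]
  exact congrArg Φ' (sumE_extA (MulEquiv.refl _) η φ φ (fun _ => rfl) _).symm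

/-- The splitting with no extra letter given by an automorphism. -/
def autSplit {X : Ob} (φ : Au X.ι) : Fr (X.ι ⊕ (Ob.of Empty).ι) ≃* Fr X.ι :=
  (FreeGroup.freeGroupCongr (Equiv.sumEmpty X.ι Empty)).trans φ

theorem morOf_autSplit {X : Ob} (φ : Au X.ι) :
    morOf (T := Ob.of Empty) (autSplit φ) = Mor.ofGL (abGL X.ι φ) := by
  have h1 := isoMor_trans (X := X.sum (Ob.of Empty))
    (FreeGroup.freeGroupCongr (Equiv.sumEmpty X.ι Empty)) φ
  have h2 := isoMor_congr (X := X.sum (Ob.of Empty)) (Y := X) (Equiv.sumEmpty X.ι Empty)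
  have h3 : (Mor.emb (X := X.sum (Ob.of Empty)) (Y := X)
      (Equiv.sumEmpty X.ι Empty).toEmbedding).comp (Mor.inl X (Ob.of Empty)) = Mor.id X := by
    rw [Mor.inl, emb_comp]
    apply Mor.ext
    · ext a b; simp [Mor.emb, Mor.id, Matrix.one_apply, eq_comm]
    · ext a b
      simp only [Mor.emb, Mor.id, Matrix.one_apply, of_apply]
      exact if_congr Iff.rfl rfl rfl
  rw [morOf, autSplit, h1, h2, comp_assoc, h3, comp_id, isoMor_aut]

theorem Hmap_autSplit (hH : S_Heq) {X : Ob} (φ : Au X.ι) (q : ℕ) (x : Hq (IA X.ι) q) :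
    Hmap (stabHom (autSplit φ)) (stabHom_IA _) q x = Hrep (IA X.ι) q φ x := by
  rw [Hmap_conj hH (MonoidHom.id _) (stabHom (autSplit φ)) (fun _ h => h) (stabHom_IA _) φ
    (fun ψ => ?_) q x]
  · exact congrArg _ (Hlift_id _ q x)
  · rw [eq_mul_inv_iff_mul_eq]
    refine MulEquiv.ext fun g => ?_
    obtain ⟨u, rfl⟩ := (FreeGroup.freeGroupCongr (Equiv.sumEmpty X.ι Empty)).surjective g
    change autSplit φ (extA Empty ψ ((autSplit φ).symm (autSplit φ u))) = φ (ψ _)
    rw [MulEquiv.symm_apply_apply, ← empty_extA]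
    rfl

/-- The composite of two splittings. -/
def compSplit {X Y Z S T : Ob} (Φ : Fr (Y.ι ⊕ T.ι) ≃* Fr Z.ι) (Ψ : Fr (X.ι ⊕ S.ι) ≃* Fr Y.ι) :
    Fr (X.ι ⊕ (S.sum T).ι) ≃* Fr Z.ι :=
  (FreeGroup.freeGroupCongr (Equiv.sumAssoc X.ι S.ι T.ι).symm).trans
    ((sumE Ψ (MulEquiv.refl (Fr T.ι))).trans Φ)

theorem morOf_compSplit {X Y Z S T : Ob} (Φ : Fr (Y.ι ⊕ T.ι) ≃* Fr Z.ι)
    (Ψ : Fr (X.ι ⊕ S.ι) ≃* Fr Y.ι) :
    morOf (T := S.sum T) (compSplit Φ Ψ) = (morOf (T := T) Φ).comp (morOf (T := S) Ψ) := by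
  have h1 := isoMor_trans (X := X.sum (S.sum T)) (Y := (X.sum S).sum T) (Z := Z)
    (FreeGroup.freeGroupCongr (Equiv.sumAssoc X.ι S.ι T.ι).symm)
    ((sumE Ψ (MulEquiv.refl (Fr T.ι))).trans Φ)
  have h2 := isoMor_trans (X := (X.sum S).sum T) (Y := Y.sum T) (Z := Z)
    (sumE Ψ (MulEquiv.refl (Fr T.ι))) Φ
  have h3 := isoMor_sumE (X := X.sum S) (Y := Y) (X' := T) (Y' := T) Ψ (MulEquiv.refl (Fr T.ι))
  have h4 := isoMor_congr (X := X.sum (S.sum T)) (Y := (X.sum S).sum T)
    (Equiv.sumAssoc X.ι S.ι T.ι).symm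
  have h5 : (Mor.emb (X := X.sum (S.sum T)) (Y := (X.sum S).sum T)
      (Equiv.sumAssoc X.ι S.ι T.ι).symm.toEmbedding).comp (Mor.inl X (S.sum T)) =
      (Mor.inl (X.sum S) T).comp (Mor.inl X S) := by
    rw [Mor.inl, Mor.inl, Mor.inl, emb_comp, emb_comp]
    rfl
  rw [morOf, morOf, morOf, compSplit, h1, h2, h3, h4, comp_assoc, h5, comp_assoc,
    ← comp_assoc _ (Mor.inl (X.sum S) T), Mor.sum_comp_inl, comp_assoc, comp_assoc]

theorem stabHom_compSplit {X Y Z S T : Ob} (Φ : Fr (Y.ι ⊕ T.ι) ≃* Fr Z.ι)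
    (Ψ : Fr (X.ι ⊕ S.ι) ≃* Fr Y.ι) (φ : Au X.ι) :
    stabHom (compSplit Φ Ψ) φ = stabHom Φ (stabHom Ψ φ) := by
  refine MulEquiv.ext fun g => ?_
  obtain ⟨u, rfl⟩ := (compSplit Φ Ψ).surjective g
  rw [stabHom_apply, MulEquiv.symm_apply_apply, stabHom_apply]
  change Φ (sumE Ψ (MulEquiv.refl (Fr T.ι))
      (FreeGroup.freeGroupCongr (Equiv.sumAssoc X.ι S.ι T.ι).symm (extA (S.ι ⊕ T.ι) φ u))) =
    Φ (extA T.ι (stabHom Ψ φ) (Φ.symm (Φ (sumE Ψ (MulEquiv.refl (Fr T.ι))
      (FreeGroup.freeGroupCongr (Equiv.sumAssoc X.ι S.ι T.ι).symm u)))))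
  rw [MulEquiv.symm_apply_apply, assoc_extA,
    sumE_extA Ψ _ (extA S.ι φ) (stabHom Ψ φ) fun g => by
      rw [stabHom_apply, MulEquiv.symm_apply_apply]]

/-- The vectors on which an operator is locally unipotent. -/
def luSub {M : Type} [AddCommGroup M] [Module ℚ M] (E : Module.End ℚ M) : Submodule ℚ M where
  carrier := {v | LU E v}
  zero_mem' := ⟨0, map_zero _⟩
  add_mem' := by
    rintro v w ⟨m, hm⟩ ⟨n, hn⟩
    refine ⟨m + n, ?_⟩
    rw [map_add]
    conv_lhs => rw [add_comm m n, pow_add, Module.End.mul_apply, hm, map_zero, zero_add,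
      ← pow_add, add_comm n m, pow_add, Module.End.mul_apply, hn, map_zero]
  smul_mem' := by
    rintro r v ⟨m, hm⟩
    exact ⟨m, by rw [map_smul, hm, smul_zero]⟩

theorem lu_of_equiv {M M' : Type} [AddCommGroup M] [Module ℚ M] [AddCommGroup M'] [Module ℚ M']
    (e : M ≃ₗ[ℚ] M') (E : Module.End ℚ M) (E' : Module.End ℚ M') (h : ∀ x, e (E x) = E' (e x))
    (v : M) (hv : LU E' (e v)) : LU E v := by
  have key : ∀ (m : ℕ) (x : M), e (((E - 1) ^ m) x) = ((E' - 1) ^ m) (e x) := by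
    intro m
    induction m with
    | zero => simp
    | succ m ih =>
      intro x
      rw [pow_succ, pow_succ, Module.End.mul_apply, Module.End.mul_apply, ih]
      simp [h]
  obtain ⟨m, hm⟩ := hv
  exact ⟨m, e.injective (by rw [key, hm, map_zero])⟩

theorem ncard_insert_range_le {α : Type} {n : ℕ} (a : α) (f : Fin n → α) :
    (insert a (Set.range f)).ncard ≤ n + 1 := by
  refine (Set.ncard_insert_le _ _).trans (Nat.succ_le_succ ?_)
  rw [← Set.image_univ]
  exact (Set.ncard_image_le Set.finite_univ).trans (by simp [Set.ncard_univ])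

end JW

open JW

theorem p_W (hH : S_Heq) (hl : S_Zlift) (he : S_Zext) : S_W := by
  intro q
  choose T Φ hΦ using fun (X Y : Ob) (m : Mor Y X) => exists_lift hl he m
  have key : ∀ (X Y S : Ob) (Ψ : Fr (Y.ι ⊕ S.ι) ≃* Fr X.ι) (m : Mor Y X),
      morOf (T := S) Ψ = m → Hmap (stabHom (Φ X Y m)) (stabHom_IA _) q =
        Hmap (stabHom Ψ) (stabHom_IA Ψ) q := fun X Y S Ψ m h =>
    indep hH hl Ψ (Φ X Y m) (h.trans (hΦ X Y m).symm) q
  have kaut : ∀ (X : Ob) (φ : Au X.ι) (x : Hq (IA X.ι) q),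
      Hmap (stabHom (Φ X X (Mor.ofGL (abGL X.ι φ)))) (stabHom_IA _) q x =
        Hrep (IA X.ι) q φ x := fun X φ x => by
    rw [key X X _ _ _ (morOf_autSplit φ), Hmap_autSplit hH]
  refine ⟨⟨fun X => ModuleCat.of ℚ (Hq (IA X.ι) q),
    fun {Y X} m => Hmap (stabHom (Φ X Y m)) (stabHom_IA _) q, fun X => ?_, fun {X Y Z} g f => ?_⟩,
    fun X => LinearEquiv.refl ℚ _, fun X Y S Ψ x => ?_, fun X φ x => kaut X φ x⟩
  · refine LinearMap.ext fun x => ?_
    have h1 : Mor.ofGL (abGL X.ι 1) = Mor.id X := by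
      rw [map_one]; ext <;> simp [Mor.ofGL, Mor.id]
    have h2 := kaut X 1 x
    rw [h1, map_one] at h2
    exact h2
  · rw [key Z X _ (compSplit (Φ Z Y g) (Φ Y X f)) (g.comp f)
      (by rw [morOf_compSplit, hΦ, hΦ])]
    refine LinearMap.ext fun x => ?_
    have h1 : (stabHom (compSplit (Φ Z Y g) (Φ Y X f)) : Au X.ι → Au Z.ι) =
        stabHom (Φ Z Y g) ∘ stabHom (Φ Y X f) := funext fun φ => stabHom_compSplit _ _ φ
    exact Hmap_comp _ _ _ (stabHom_IA _) (stabHom_IA _) (stabHom_IA _) h1 q x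
  · exact DFunLike.congr_fun (key X Y S Ψ _ rfl) x

theorem p_Unip (hu : S_uni) (hb : S_bridge) (hO : S_O) (hZ : S_Z1) (hZl : S_Zlift) :
    S_Unip := by
  intro q A e hW n0 hgen
  obtain ⟨N, hN⟩ := hu q
  refine ⟨N + 2 * n0 + 3, fun X hX a b v => ?_⟩
  by_cases hab : a = b
  · refine ⟨1, ?_⟩
    have : elem a b = 1 := by rw [elem, dif_pos hab]
    rw [this, map_one]; simp
  obtain ⟨γ, hγ⟩ := hZl.1 X.ι (elem a b)
  have hcl : HasCl (Pi.single a 1) (Pi.single b 1) γ := by
    have h1 : abM γ = (elem a b).val := by rw [← hγ]; rfl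
    rw [HasCl, h1, elem, dif_neg hab]
    change 1 + single a b 1 = _
    congr 1
    ext i j
    simp [vecMulVec_apply, Pi.single_apply, Matrix.single_apply, ite_and, eq_comm]
    split_ifs <;> simp_all
  have htop : (⊤ : Submodule ℚ (A.obj X)) ≤ luSub (A.rep X (elem a b)) := by
    rw [← hgen X (by omega)]
    refine iSup_le fun f => ?_
    obtain ⟨m, hm1, hm2⟩ := hZ X (insert (Pi.single a 1) (Set.range fun y i => f.i i y))
      (insert (Pi.single b 1) (Set.range fun y i => f.r y i)) 1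
      ((Set.finite_range _).insert _) ((Set.finite_range _).insert _) (by
        have h1 := ncard_insert_range_le (Pi.single a 1 : X.ι → ℤ) fun (y : Fin n0) i => f.i i y
        have h2 := ncard_insert_range_le (Pi.single b 1 : X.ι → ℤ) fun (y : Fin n0) i => f.r y i
        exact (Nat.add_le_add_right (Nat.add_le_add h1 h2) 1).trans (by omega))
    let h : Hz X.ι := (fun i => m.i i (0 : Fin 1), fun i => m.r (0 : Fin 1) i)
    have hwz : WZ X.ι (vs [h]) := by
      intro p hp p' hp'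
      obtain rfl : p = h := by simpa [vs] using hp
      obtain rfl : p' = h := by simpa [vs] using hp'
      refine ⟨fun _ => ?_, fun hne => absurd rfl hne⟩
      have := congrFun (congrFun m.ri (0 : Fin 1)) (0 : Fin 1)
      simpa [Matrix.mul_apply, dotProduct] using this
    obtain ⟨l', hl', hcz⟩ := (hO X.ι).2.2.2.2.2.2 [h] hwz
    obtain ⟨w, rfl, hw⟩ : ∃ w, l' = [w] ∧ cz w = h := by
      rcases l' with _ | ⟨w, _ | ⟨w', l''⟩⟩
      · simp at hcz
      · exact ⟨w, rfl, by simpa using hcz⟩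
      · simp at hcz
    obtain ⟨β, hβ⟩ := id hl'
    obtain ⟨s, rfl⟩ := hβ (show w ∈ vs [w] by simp [vs])
    have hav : f.Avoids (cz '' vs [hv β s]) := by
      rintro _ ⟨w, hw', rfl⟩
      obtain rfl : w = hv β s := by simpa [vs] using hw'
      rw [hw]
      refine ⟨funext fun y => ?_, funext fun y => ?_⟩
      · exact congrFun (hm2 _ (Or.inr ⟨y, rfl⟩)) (0 : Fin 1)
      · exact congrFun (hm1 _ (Or.inr ⟨y, rfl⟩)) (0 : Fin 1)
    intro x hx
    have hx' : x ∈ A.sub X (cz '' vs [hv β s]) :=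
      Submodule.mem_iSup_of_mem (Ob.std n0) (Submodule.mem_iSup_of_mem f
        (Submodule.mem_iSup_of_mem hav hx))
    have hbr := (hb q A e hW X [hv β s] hl').1
    have hx'' : e X x ∈ LinearMap.range
        (Hinc (J := IA X.ι ⊓ MulAction.stabilizer (Au X.ι) [hv β s]) inf_le_left q) := by
      rw [← hbr]; exact ⟨x, hx', rfl⟩
    obtain ⟨y, hy⟩ := hx''
    have h1 : abv (letter β s) = h.1 := congrArg Prod.fst hw
    have h2 : cls (hl β (s, true)) = h.2 := congrArg Prod.snd hw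
    have hLU := hN X.ι (by unfold Ob.card at hX; omega) β s γ _ _ hcl
      (by simp [hab])
      (by rw [h1]; exact congrFun (hm2 _ (Or.inl rfl)) (0 : Fin 1))
      (by rw [h2]; exact congrFun (hm1 _ (Or.inl rfl)) (0 : Fin 1)) y
    rw [hy] at hLU
    exact lu_of_equiv (e X) _ _ (fun z => by rw [← hγ]; exact hW.2 X γ z) x hLU
  exact htop Submodule.mem_top

end Pool.Agent.Lib.MP_49df17_al
end

-- part Pool.Agent.Lib.MP_49df17_al.Za
section

/-!
Generators of `GL(ι, ℤ)`, lifting to free groups, complements of split injections.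
-/

namespace Pool.Agent.Lib.MP_49df17_al

open Matrix

namespace JZa

section Gen

variable {ι : Type} [Fintype ι] [DecidableEq ι]

theorem elem_act {a b : ι} (h : a ≠ b) (v : ι → ℤ) :
    (elem a b).val *ᵥ v = v + v b • Pi.single a 1 := by
  rw [elem, dif_neg h]
  ext x
  simp [add_mulVec, single_mulVec_eq]

theorem elem_inv_act {a b : ι} (h : a ≠ b) (v : ι → ℤ) :
    (elem a b)⁻¹.val *ᵥ v = v - v b • Pi.single a 1 := by
  rw [elem, dif_neg h]
  ext x
  simp [sub_mulVec, single_mulVec_eq]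

theorem sgn_act (a : ι) (v : ι → ℤ) :
    (sgn a).val *ᵥ v = fun x => if x = a then -v x else v x := by
  ext x
  simp [sgn, mulVec_diagonal]

/-- The subgroup generated by the elementary matrices and one sign. -/
def gen (c : ι) : Subgroup (GL ι ℤ) := Subgroup.closure ({g | ∃ a b, g = elem a b} ∪ {sgn c})

theorem elem_mem (c a b : ι) : elem a b ∈ gen c := Subgroup.subset_closure (Or.inl ⟨a, b, rfl⟩)

theorem sgn_mem (c a : ι) : sgn a ∈ gen c := by
  have hc : sgn c ∈ gen c := Subgroup.subset_closure (Or.inr rfl)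
  by_cases h : a = c
  · exact h ▸ hc
  have hw : elem a c * (elem c a)⁻¹ * elem a c ∈ gen c :=
    mul_mem (mul_mem (elem_mem c a c) (inv_mem (elem_mem c c a))) (elem_mem c a c)
  have e : sgn a = (elem a c * (elem c a)⁻¹ * elem a c) * (elem a c * (elem c a)⁻¹ * elem a c) *
      sgn c := by
    refine Units.ext (ext_iff_mulVec.2 fun v => ?_)
    simp only [Units.val_mul, ← mulVec_mulVec, elem_act h, elem_inv_act (Ne.symm h), sgn_act]
    ext x
    by_cases h1 : x = a
    · subst h1; simp [h, Ne.symm h]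
    · by_cases h2 : x = c
      · subst h2; simp [h, h1]
      · simp [h1, h2]
  rw [e]
  exact mul_mem (mul_mem hw hw) hc

/-- A vector is moved to another one while the basis vectors in `s` stay fixed. -/
def Mv (c : ι) (s : Finset ι) (v w : ι → ℤ) : Prop :=
  ∃ h ∈ gen c, (∀ b ∈ s, h.val *ᵥ Pi.single b 1 = Pi.single b 1) ∧ h.val *ᵥ v = w

variable {c : ι} {s : Finset ι}

theorem Mv.trans {u v w : ι → ℤ} (h : Mv c s u v) (h' : Mv c s v w) : Mv c s u w := by
  obtain ⟨g, h1, h2, h3⟩ := h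
  obtain ⟨g', h1', h2', h3'⟩ := h'
  refine ⟨g' * g, mul_mem h1' h1, fun b hb => ?_, ?_⟩
  · rw [Units.val_mul, ← mulVec_mulVec, h2 b hb, h2' b hb]
  · rw [Units.val_mul, ← mulVec_mulVec, h3, h3']

theorem Mv.refl (v : ι → ℤ) : Mv c s v v := ⟨1, one_mem _, fun _ _ => one_mulVec _, one_mulVec _⟩

theorem mv_step {a b : ι} (h : a ≠ b) (hb : b ∉ s) {ε : ℤ} (hε : ε = 1 ∨ ε = -1) (v : ι → ℤ) :
    Mv c s v (v + (ε * v b) • Pi.single a 1) := by
  have h0 : ∀ x ∈ s, (Pi.single x 1 : ι → ℤ) b = 0 := fun x hx =>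
    Pi.single_eq_of_ne (by rintro rfl; exact hb hx) _
  rcases hε with rfl | rfl
  · exact ⟨elem a b, elem_mem c a b, fun x hx => by rw [elem_act h, h0 x hx]; simp,
      by rw [elem_act h, one_mul]⟩
  · exact ⟨(elem a b)⁻¹, inv_mem (elem_mem c a b),
      fun x hx => by rw [elem_inv_act h, h0 x hx]; simp,
      by rw [elem_inv_act h, neg_one_mul, neg_smul, sub_eq_add_neg]⟩

theorem mv_unit {b t : ι} (hb : b ∉ s) (ht : t ∉ s) {ε : ℤ} (hε : ε = 1 ∨ ε = -1) :
    Mv c s (Pi.single b ε) (Pi.single t 1) := by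
  by_cases h : t = b
  · subst h
    rcases hε with rfl | rfl
    · exact Mv.refl _
    · refine ⟨sgn t, sgn_mem c t, fun x hx => ?_, ?_⟩
      · have : x ≠ t := fun e => ht (e ▸ hx)
        rw [sgn_act]
        ext y
        by_cases h1 : y = t
        · subst h1; simp [this.symm]
        · simp [h1]
      · rw [sgn_act]
        ext y
        by_cases h1 : y = t
        · subst h1; simp
        · simp [h1]
  · have h1 := mv_step (c := c) h hb hε (Pi.single b ε)
    have h2 := mv_step (c := c) (Ne.symm h) ht (ε := -ε) (by omega)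
      (Pi.single b ε + (ε * (Pi.single b ε : ι → ℤ) b) • Pi.single t 1)
    have h3 : ε * ε = 1 := by rcases hε with rfl | rfl <;> rfl
    convert h1.trans h2 using 1
    ext y
    by_cases h4 : y = t
    · subst h4; simp [h, h3]
    · by_cases h5 : y = b
      · subst h5; simp [h, h3, h4]
      · simp [h4, h5]

theorem mv_prim {t : ι} (ht : t ∉ s) (n : ℕ) : ∀ v ψ : ι → ℤ, ∑ a, (v a).natAbs = n →
    (∀ a ∈ s, ψ a = 0) → ψ ⬝ᵥ v = 1 → Mv c s v (Pi.single t 1) := by
  induction n using Nat.strong_induction_on with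
  | _ n ih =>
    intro v ψ hn hψ h1
    by_cases h : ∃ a b, a ≠ b ∧ b ∉ s ∧ v b ≠ 0 ∧ (v b).natAbs ≤ (v a).natAbs
    · obtain ⟨a, b, hab, hb, h0, hle⟩ := h
      obtain ⟨ε, hε, hlt⟩ : ∃ ε : ℤ, (ε = 1 ∨ ε = -1) ∧ (v a + ε * v b).natAbs < (v a).natAbs := by
        by_cases h2 : (v a + 1 * v b).natAbs < (v a).natAbs
        · exact ⟨1, Or.inl rfl, h2⟩
        · exact ⟨-1, Or.inr rfl, by omega⟩
      refine (mv_step hab hb hε v).trans (ih _ ?_ _ (ψ - (ε * ψ a) • Pi.single b 1) rfl ?_ ?_)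
      · rw [← hn]
        refine Finset.sum_lt_sum (fun x _ => ?_) ⟨a, Finset.mem_univ a, by simpa using hlt⟩
        by_cases hx : x = a
        · subst hx; simpa using hlt.le
        · simp [hx]
      · intro x hx
        have : x ≠ b := fun e => hb (e ▸ hx)
        simp [hψ x hx, this]
      · rw [dotProduct_add, dotProduct_smul, dotProduct_single, sub_dotProduct, h1, smul_dotProduct,
          single_dotProduct, Pi.sub_apply, Pi.smul_apply, Pi.single_eq_of_ne hab]
        simp only [smul_eq_mul]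
        ring
    · push Not at h
      obtain ⟨b, hb⟩ : ∃ b, ψ b * v b ≠ 0 := by
        by_contra h2
        push Not at h2
        rw [dotProduct, Finset.sum_eq_zero fun x _ => h2 x] at h1
        exact zero_ne_one h1
      have hbs : b ∉ s := fun h2 => hb (by rw [hψ b h2, zero_mul])
      have hvb : v b ≠ 0 := right_ne_zero_of_mul hb
      have h2 : ψ b * v b = 1 := by
        rw [← h1, dotProduct, Finset.sum_eq_single b _ (fun h => absurd (Finset.mem_univ b) h)]
        intro x _ hx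
        by_contra h3
        have := h x b hx hbs hvb
        have := h b x (Ne.symm hx) (fun h4 => h3 (by rw [hψ x h4, zero_mul]))
          (right_ne_zero_of_mul h3)
        omega
      have h3 : v b = 1 ∨ v b = -1 := Int.eq_one_or_neg_one_of_mul_eq_one (mul_comm (ψ b) _ ▸ h2)
      have h4 : v = Pi.single b (v b) := by
        ext x
        by_cases hx : x = b
        · subst hx; simp
        · have := h x b hx hbs hvb
          rw [Pi.single_eq_of_ne hx]
          omega
      rw [h4]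
      exact mv_unit hbs ht h3

theorem exists_cols (c : ι) (g : GL ι ℤ) (s : Finset ι) :
    ∃ h ∈ gen c, ∀ b ∈ s, (h * g).val *ᵥ Pi.single b 1 = Pi.single b 1 := by
  induction s using Finset.induction_on with
  | empty => exact ⟨1, one_mem _, by simp⟩
  | insert t s ht ih =>
    obtain ⟨h, h1, h2⟩ := ih
    have h3 : ∀ v, (h * g)⁻¹.val *ᵥ ((h * g).val *ᵥ v) = v := fun v => by
      rw [mulVec_mulVec, Units.inv_mul, one_mulVec]
    obtain ⟨h', h4, h5, h6⟩ := mv_prim (c := c) ht _ ((h * g).val *ᵥ Pi.single t 1)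
      ((h * g)⁻¹.val t) rfl (fun a ha => by
        have := congrFun (h3 (Pi.single a 1)) t
        have hta : t ≠ a := by rintro rfl; exact ht ha
        rw [h2 a ha, mulVec_single_one, Pi.single_eq_of_ne hta] at this
        exact this) (by
        have := congrFun (h3 (Pi.single t 1)) t
        rw [Pi.single_eq_same] at this
        exact this)
    refine ⟨h' * h, mul_mem h4 h1, fun b hb => ?_⟩
    rw [mul_assoc, Units.val_mul, ← mulVec_mulVec]
    rcases Finset.mem_insert.1 hb with rfl | hb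
    · exact h6
    · rw [h2 b hb, h5 b hb]

theorem gen_eq_top (c : ι) : gen c = ⊤ := by
  refine eq_top_iff.2 fun g _ => ?_
  obtain ⟨h, h1, h2⟩ := exists_cols c g Finset.univ
  have h3 : h * g = 1 := Units.ext (by
    ext a b
    have := congrFun (h2 b (Finset.mem_univ b)) a
    rw [mulVec_single_one] at this
    rw [Units.val_one, one_apply, ← Pi.single_apply]
    exact this)
  rw [eq_inv_of_mul_eq_one_right h3]
  exact inv_mem h1

/-- The automorphism that multiplies one generator by another one. -/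
def autE {a b : ι} (h : a ≠ b) : MulAut (FreeGroup ι) :=
  MonoidHom.toMulEquiv
    (FreeGroup.lift fun x => if x = b then FreeGroup.of a * FreeGroup.of b else FreeGroup.of x)
    (FreeGroup.lift fun x => if x = b then (FreeGroup.of a)⁻¹ * FreeGroup.of b else FreeGroup.of x)
    (FreeGroup.ext_hom _ _ fun x => by by_cases hx : x = b <;> simp [hx, h])
    (FreeGroup.ext_hom _ _ fun x => by by_cases hx : x = b <;> simp [hx, h])

/-- The automorphism that inverts one generator. -/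
def autS (c : ι) : MulAut (FreeGroup ι) :=
  MonoidHom.toMulEquiv
    (FreeGroup.lift fun x => if x = c then (FreeGroup.of c)⁻¹ else FreeGroup.of x)
    (FreeGroup.lift fun x => if x = c then (FreeGroup.of c)⁻¹ else FreeGroup.of x)
    (FreeGroup.ext_hom _ _ fun x => by by_cases hx : x = c <;> simp [hx])
    (FreeGroup.ext_hom _ _ fun x => by by_cases hx : x = c <;> simp [hx])

theorem abGL_autE {a b : ι} (h : a ≠ b) : abGL ι (autE h) = elem a b := by
  refine Units.ext (ext_of_mulVec_single fun x => ?_)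
  rw [elem_act h, ← abv_of]
  refine (abM_mulVec _ _).trans ?_
  by_cases hx : x = b
  · subst hx
    simp [autE, abv_mul, abv_of, add_comm]
  · simp [autE, hx, abv_of, Ne.symm hx]

theorem abGL_autS (c : ι) : abGL ι (autS c) = sgn c := by
  refine Units.ext (ext_of_mulVec_single fun x => ?_)
  rw [sgn_act, ← abv_of]
  refine (abM_mulVec _ _).trans ?_
  ext y
  by_cases hx : x = c
  · subst hx
    by_cases hy : y = x <;> simp [autS, abv_inv, abv_of, hy]
  · by_cases hy : y = c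
    · subst hy; simp [autS, hx, abv_of, Ne.symm hx]
    · simp [autS, hx, hy]

theorem abGL_surj : Function.Surjective (abGL ι) := by
  intro g
  rcases isEmpty_or_nonempty ι with h | ⟨⟨c⟩⟩
  · exact ⟨1, Subsingleton.elim _ _⟩
  have : gen c ≤ (abGL ι).range := by
    refine (Subgroup.closure_le _).2 ?_
    rintro _ (⟨a, b, rfl⟩ | rfl)
    · by_cases h : a = b
      · exact ⟨1, by rw [map_one, elem, dif_pos h]⟩
      · exact ⟨autE h, abGL_autE h⟩
    · exact ⟨autS c, abGL_autS c⟩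
  exact this (gen_eq_top c ▸ Subgroup.mem_top g)

end Gen

theorem card_eq {X Y : Ob} (m : Mor X Y) (h : m.i * m.r = 1) : X.card = Y.card := by
  have := trace_mul_comm m.i m.r
  rw [h, m.ri, trace_one, trace_one] at this
  exact (Nat.cast_injective this).symm

end JZa

open JZa

theorem p_Zgen : S_Zgen := fun _ _ _ c => gen_eq_top c

theorem p_Zlift : S_Zlift := by
  refine ⟨fun _ _ _ => abGL_surj, fun X Y m h => ?_⟩
  obtain ⟨e⟩ : Nonempty (X.ι ≃ Y.ι) := Fintype.card_eq.1 (card_eq m h)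
  obtain ⟨φ, hφ⟩ := abGL_surj (ι := Y.ι) ⟨m.i.submatrix id e.symm, m.r.submatrix e.symm id,
    by rw [submatrix_mul_equiv, h, submatrix_id_id],
    by rw [← submatrix_mul _ _ _ _ _ Function.bijective_id, m.ri, submatrix_one_equiv]⟩
  refine ⟨(FreeGroup.freeGroupCongr e).trans φ, ?_⟩
  ext i j
  have h' : abM φ = m.i.submatrix id e.symm := congrArg (fun g : GL Y.ι ℤ => g.val) hφ
  have := congrFun (congrFun h' i) (e j)
  simp only [submatrix_apply, id, Equiv.symm_apply_apply] at this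
  rw [← this]
  simp only [abMat, of_apply, MulEquiv.trans_apply, FreeGroup.freeGroupCongr_apply,
    FreeGroup.map.of]
  rfl

theorem p_Zext : S_Zext := by
  intro X Y m
  let K := LinearMap.ker (toLin' m.r)
  let b := Module.finBasis ℤ K
  have hri : ∀ v, m.r *ᵥ (m.i *ᵥ v) = v := fun v => by rw [mulVec_mulVec, m.ri, one_mulVec]
  let p : (Y.ι → ℤ) →ₗ[ℤ] K := LinearMap.codRestrict K (LinearMap.id - toLin' m.i ∘ₗ toLin' m.r)
    fun v => by simp [K, mulVec_sub, hri, -mulVec_mulVec]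
  have hp : ∀ v, (p v : Y.ι → ℤ) = v - m.i *ᵥ (m.r *ᵥ v) := fun v => rfl
  obtain ⟨B, hB⟩ : ∃ B : Matrix Y.ι (Fin (Module.finrank ℤ K)) ℤ,
      ∀ w, B *ᵥ w = (b.equivFun.symm w : K) :=
    ⟨LinearMap.toMatrix' (K.subtype ∘ₗ b.equivFun.symm.toLinearMap), fun w => by
      rw [← toLin'_apply, toLin'_toMatrix']; rfl⟩
  obtain ⟨C, hC⟩ : ∃ C : Matrix (Fin (Module.finrank ℤ K)) Y.ι ℤ,
      ∀ v, C *ᵥ v = b.equivFun (p v) :=
    ⟨LinearMap.toMatrix' (b.equivFun.toLinearMap ∘ₗ p), fun w => by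
      rw [← toLin'_apply, toLin'_toMatrix']; rfl⟩
  have h0 : ∀ k : K, m.r *ᵥ (k : Y.ι → ℤ) = 0 := fun k => k.2
  have h1 : m.r * B = 0 := ext_iff_mulVec.2 fun w => by
    rw [← mulVec_mulVec, hB, h0, zero_mulVec]
  have h2 : C * m.i = 0 := ext_iff_mulVec.2 fun w => by
    rw [← mulVec_mulVec, hC, zero_mulVec, show p (m.i *ᵥ w) = 0 from
      Subtype.ext (by rw [hp, hri, sub_self]; rfl), map_zero]
  have h3 : C * B = 1 := ext_iff_mulVec.2 fun w => by
    rw [← mulVec_mulVec, hB, hC, one_mulVec, show p (b.equivFun.symm w : K) = b.equivFun.symm w from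
      Subtype.ext (by rw [hp, h0, mulVec_zero, sub_zero]), LinearEquiv.apply_symm_apply]
  have h4 : m.i * m.r + B * C = 1 := ext_iff_mulVec.2 fun v => by
    rw [add_mulVec, ← mulVec_mulVec, ← mulVec_mulVec, hB, hC, LinearEquiv.symm_apply_apply, hp,
      one_mulVec, add_sub_cancel]
  let g : Mor (X.sum (Ob.std (Module.finrank ℤ K))) Y := ⟨fromCols m.i B, fromRows m.r C, by
    rw [fromRows_mul_fromCols, m.ri, h1, h2, h3, fromBlocks_one]⟩
  have h5 : g.i * g.r = 1 := (fromCols_mul_fromRows _ _ _ _).trans h4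
  refine ⟨_, g, h5, (Ob.card_sum _ _).symm.trans (card_eq g h5), ?_⟩
  apply Mor.ext
  · ext y x
    simp [g, Mor.comp, Mor.inl, Mor.emb, Matrix.mul_apply]
  · ext x y
    simp [g, Mor.comp, Mor.inl, Mor.emb, Matrix.mul_apply]

end Pool.Agent.Lib.MP_49df17_al
end
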