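import Pool.Agent.Lib.MP_49df17_al.Core

/-!
Lattice lemmas: morphisms that avoid finitely many vectors and covectors, complements of
simplices of handles, and generation degrees of shifts.
-/

namespace Pool.Agent.Lib.MP_49df17_al

open Matrix

namespace Zb

theorem comp_assoc {W X Y Z : Ob} (h : Mor Y Z) (g : Mor X Y) (f : Mor W X) :
    (h.comp g).comp f = h.comp (g.comp f) := by
  apply Mor.ext <;> simp [Mor.comp, Matrix.mul_assoc]

theorem comp_id {X Y : Ob} (f : Mor X Y) : f.comp (Mor.id X) = f := by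
  apply Mor.ext <;> simp [Mor.comp, Mor.id]

theorem emb_comp {X Y Z : Ob} (e : X.ι ↪ Y.ι) (e' : Y.ι ↪ Z.ι) :
    (Mor.emb e').comp (Mor.emb e) = Mor.emb (e.trans e') := by
  apply Mor.ext
  · ext a b
    simp [Mor.comp, Mor.emb, Matrix.mul_apply]
  · ext a b
    simp only [Mor.comp, Mor.emb, Matrix.mul_apply, Matrix.of_apply, ite_mul, one_mul, zero_mul,
      Finset.sum_ite_eq, Finset.mem_univ, if_true, Function.Embedding.trans_apply]

theorem emb_refl (X : Ob) : Mor.emb (Function.Embedding.refl X.ι) = Mor.id X := by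
  apply Mor.ext
  · ext a b
    simp [Mor.emb, Mor.id, Matrix.one_apply, eq_comm]
  · ext a b
    simp [Mor.emb, Mor.id, Matrix.one_apply]

/-- The transpose of a morphism. -/
def tr {X Y : Ob} (f : Mor X Y) : Mor X Y :=
  ⟨f.rᵀ, f.iᵀ, by rw [← Matrix.transpose_mul, f.ri, Matrix.transpose_one]⟩

/-- The inclusion of the second summand. -/
def inr (X T : Ob) : Mor T (X.sum T) := Mor.emb ⟨Sum.inr, Sum.inr_injective⟩

theorem inl_add_inr (X T : Ob) :
    (Mor.inl X T).i * (Mor.inl X T).r + (inr X T).i * (inr X T).r = 1 := by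
  ext (a | a) (b | b) <;>
    simp [Mor.inl, inr, Mor.emb, Matrix.mul_apply, Matrix.one_apply, eq_comm]

theorem card_le {X Y : Ob} (f : Mor X Y) : X.card ≤ Y.card := by
  have hinj : Function.Injective (Matrix.toLin' f.i) := by
    intro v w h
    have h2 := congrArg (fun u => f.r *ᵥ u) h
    simpa [Matrix.mulVec_mulVec, f.ri] using h2
  have := LinearMap.finrank_le_finrank_of_injective hinj
  simpa [Ob.card] using this

theorem range_comp_le (A : VIC) {X Y Z : Ob} (g : Mor Y Z) (f : Mor X Y) :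
    LinearMap.range (A.map (g.comp f)) ≤ LinearMap.range (A.map g) := by
  rw [A.map_comp]
  exact LinearMap.range_comp_le_range _ _

theorem range_le_std (A : VIC) {X Y : Ob} {n : ℕ} (h : Y.card = n) (f : Mor Y X) :
    LinearMap.range (A.map f) ≤ ⨆ g : Mor (Ob.std n) X, LinearMap.range (A.map g) := by
  let e : Y.ι ≃ Fin n := Fintype.equivFinOfCardEq h
  have h1 : (Mor.emb (X := Ob.std n) (Y := Y) e.symm.toEmbedding).comp
      (Mor.emb (X := Y) (Y := Ob.std n) e.toEmbedding) = Mor.id Y := by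
    rw [emb_comp, ← emb_refl]
    congr 1
    ext a
    simp
  have h2 : f = (f.comp (Mor.emb (X := Ob.std n) (Y := Y) e.symm.toEmbedding)).comp
      (Mor.emb (X := Y) (Y := Ob.std n) e.toEmbedding) := by
    rw [comp_assoc, h1, comp_id]
  rw [h2]
  exact (range_comp_le A _ _).trans
    (le_iSup (fun g : Mor (Ob.std n) X => LinearMap.range (A.map g)) _)

/-- A morphism factors through another one when its matrices are fixed by the projection. -/
theorem factor {X Y Z : Ob} (F : Mor Y X) (f : Mor Z X) (h1 : F.i * F.r * f.i = f.i)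
    (h2 : f.r * (F.i * F.r) = f.r) : ∃ h : Mor Z Y, f = F.comp h := by
  refine ⟨⟨F.r * f.i, f.r * F.i, ?_⟩, ?_⟩
  · rw [Matrix.mul_assoc, ← Matrix.mul_assoc F.i, h1, f.ri]
  · apply Mor.ext
    · simp only [Mor.comp]
      rw [← Matrix.mul_assoc, h1]
    · simp only [Mor.comp]
      rw [Matrix.mul_assoc, h2]

/-- The kernel of a map of lattices contains a summand of the expected rank. -/
theorem exists_ker (X : Ob) (J : Type) [Fintype J] (φ : (X.ι → ℤ) →ₗ[ℤ] (J → ℤ)) (k : ℕ)
    (hk : Fintype.card J + k ≤ X.card) :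
    ∃ m : Mor (Ob.std k) X, ∀ v, φ (m.i *ᵥ v) = 0 := by
  obtain ⟨s, hs⟩ := φ.rangeRestrict.exists_rightInverse_of_surjective φ.range_rangeRestrict
  have hs' : ∀ y, φ (s y) = y := fun y => by
    have := congrArg Subtype.val (LinearMap.congr_fun hs y)
    simpa using this
  let K := LinearMap.ker φ
  let p : (X.ι → ℤ) →ₗ[ℤ] K :=
    LinearMap.codRestrict K (LinearMap.id - s ∘ₗ φ.rangeRestrict) (fun v => by
      simp [K, hs'])
  have hp : ∀ y : K, p y = y := fun y => by
    apply Subtype.ext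
    have h0 : φ.rangeRestrict y = 0 := Subtype.ext y.2
    simp [p, h0]
  have hr1 := K.finrank_quotient_add_finrank
  rw [LinearEquiv.finrank_eq φ.quotKerEquivRange] at hr1
  have hr2 : Module.finrank ℤ (LinearMap.range φ) ≤ Fintype.card J := by
    simpa using Submodule.finrank_le (LinearMap.range φ)
  have hr3 : Module.finrank ℤ (X.ι → ℤ) = X.card := by simp [Ob.card]
  have hkn : k ≤ Module.finrank ℤ K := by omega
  let b := Module.finBasis ℤ K
  let m0 : Mor (Ob.std (Module.finrank ℤ K)) X :=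
    ⟨LinearMap.toMatrix' (K.subtype ∘ₗ b.equivFun.symm.toLinearMap),
      LinearMap.toMatrix' (b.equivFun.toLinearMap ∘ₗ p), by
        rw [← LinearMap.toMatrix'_comp, ← LinearMap.toMatrix'_id]
        congr 1
        apply LinearMap.ext
        intro v
        simp only [LinearMap.comp_apply, Submodule.subtype_apply, hp, LinearMap.id_apply,
          LinearEquiv.coe_coe, LinearEquiv.apply_symm_apply]⟩
  refine ⟨m0.comp (Mor.emb (X := Ob.std k) (Y := Ob.std _) (Fin.castLEEmb hkn)), fun v => ?_⟩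
  simp only [Mor.comp, ← Matrix.mulVec_mulVec, m0, LinearMap.toMatrix'_mulVec]
  exact (b.equivFun.symm _).2

theorem exists_cov (X : Ob) (J : Type) [Fintype J] (ψ : J → X.ι → ℤ) (k : ℕ)
    (hk : Fintype.card J + k ≤ X.card) :
    ∃ m : Mor (Ob.std k) X, ∀ j, ψ j ᵥ* m.i = 0 := by
  obtain ⟨m, hm⟩ := exists_ker X J (Matrix.toLin' (Matrix.of ψ)) k hk
  refine ⟨m, fun j => ?_⟩
  funext a
  have h := congrFun (hm (Pi.single a 1)) j
  simpa [Matrix.mulVec, Matrix.vecMul, dotProduct, Pi.single_apply] using h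

theorem exists_vec (X : Ob) (J : Type) [Fintype J] (c : J → X.ι → ℤ) (k : ℕ)
    (hk : Fintype.card J + k ≤ X.card) :
    ∃ m : Mor (Ob.std k) X, ∀ j, m.r *ᵥ c j = 0 := by
  obtain ⟨m, hm⟩ := exists_cov X J c k hk
  exact ⟨tr m, fun j => by simpa [tr, Matrix.mulVec_transpose] using hm j⟩

theorem exists_both (X : Ob) (I J : Type) [Fintype I] [Fintype J] (c : I → X.ι → ℤ)
    (ψ : J → X.ι → ℤ) (k : ℕ) (hk : Fintype.card I + Fintype.card J + k ≤ X.card) :
    ∃ m : Mor (Ob.std k) X, (∀ i, m.r *ᵥ c i = 0) ∧ ∀ j, ψ j ᵥ* m.i = 0 := by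
  obtain ⟨m1, h1⟩ := exists_cov X J ψ (Fintype.card I + k) (by omega)
  obtain ⟨m2, h2⟩ := exists_vec (Ob.std (Fintype.card I + k)) I (fun i => m1.r *ᵥ c i) k
    (by simp)
  refine ⟨m1.comp m2, fun i => ?_, fun j => ?_⟩
  · simp only [Mor.comp, ← Matrix.mulVec_mulVec]
    exact h2 i
  · simp only [Mor.comp, ← Matrix.vecMul_vecMul, h1 j, Matrix.zero_vecMul]

/-- The projection attached to a full morphism. -/
theorem full_proj {X Y : Ob} {S : Set (Hz X.ι)} (hS : S.Finite) (hW : WZ X.ι S) {m : Mor Y X}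
    (hm : m.Full S) (v : X.ι → ℤ) :
    m.i *ᵥ (m.r *ᵥ v) = v - ∑ p ∈ hS.toFinset, (p.2 ⬝ᵥ v) • p.1 := by
  classical
  have h1 : m.r *ᵥ (v - ∑ p ∈ hS.toFinset, (p.2 ⬝ᵥ v) • p.1) = m.r *ᵥ v := by
    rw [Matrix.mulVec_sub, Matrix.mulVec_sum, Finset.sum_eq_zero, sub_zero]
    intro p hp
    rw [Matrix.mulVec_smul, (hm.1 p (hS.mem_toFinset.1 hp)).1, smul_zero]
  rw [← h1]
  apply hm.2
  intro q hq
  rw [dotProduct_sub, dotProduct_sum, Finset.sum_eq_single q]
  · rw [dotProduct_smul, (hW q hq q hq).1 rfl]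
    simp
  · intro p hp hpq
    rw [dotProduct_smul, (hW q hq p (hS.mem_toFinset.1 hp)).2 (Ne.symm hpq), smul_zero]
  · intro h
    exact absurd (hS.mem_toFinset.2 hq) h

theorem full_factor {X Y Y' : Ob} {S : Set (Hz X.ι)} (hS : S.Finite) (hW : WZ X.ι S)
    {m : Mor Y X} (hm : m.Full S) {m' : Mor Y' X} (hm' : m'.Avoids S) :
    ∃ f : Mor Y' Y, m' = m.comp f := by
  apply factor
  · apply Matrix.ext_of_mulVec_single
    intro a
    rw [← Matrix.mulVec_mulVec, ← Matrix.mulVec_mulVec]
    apply hm.2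
    intro p hp
    rw [Matrix.dotProduct_mulVec, (hm' p hp).2, zero_dotProduct]
  · apply Matrix.ext_of_mulVec_single
    intro a
    rw [← Matrix.mulVec_mulVec, ← Matrix.mulVec_mulVec, full_proj hS hW hm, Matrix.mulVec_sub,
      Matrix.mulVec_sum, Finset.sum_eq_zero, sub_zero]
    intro p hp
    rw [Matrix.mulVec_smul, (hm' p (hS.mem_toFinset.1 hp)).1, smul_zero]

theorem full_of_iso {X Y T : Ob} (g : Mor (Y.sum T) X) (hg : g.i * g.r = 1) :
    (g.comp (Mor.inl Y T)).Full (Set.range fun t => g.hz (Sum.inr t)) := by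
  refine ⟨?_, fun v hv => ?_⟩
  · rintro _ ⟨t, rfl⟩
    constructor
    · funext y
      have h := congrFun (congrFun g.ri (Sum.inl y)) (Sum.inr t)
      simp only [Mor.comp, ← Matrix.mulVec_mulVec]
      simpa [Mor.inl, Mor.emb, Mor.hz, Matrix.mulVec, dotProduct, Matrix.mul_apply] using h
    · funext y
      have h := congrFun (congrFun g.ri (Sum.inr t)) (Sum.inl y)
      simp only [Mor.comp, ← Matrix.vecMul_vecMul]
      simpa [Mor.inl, Mor.emb, Mor.hz, Matrix.vecMul, dotProduct, Matrix.mul_apply] using h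
  · have h0 : (inr Y T).r *ᵥ (g.r *ᵥ v) = 0 := by
      funext t
      have h := hv _ ⟨t, rfl⟩
      simpa [inr, Mor.emb, Mor.hz, Matrix.mulVec, dotProduct] using h
    have h1 : (Mor.inl Y T).i *ᵥ ((Mor.inl Y T).r *ᵥ (g.r *ᵥ v)) = g.r *ᵥ v := by
      have h2 := congrArg (fun M => M *ᵥ (g.r *ᵥ v)) (inl_add_inr Y T)
      simpa only [Matrix.add_mulVec, ← Matrix.mulVec_mulVec, h0, Matrix.mulVec_zero, add_zero,
        Matrix.one_mulVec] using h2
    simp only [Mor.comp, ← Matrix.mulVec_mulVec]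
    rw [h1, Matrix.mulVec_mulVec, hg, Matrix.one_mulVec]

theorem exists_iso (hZ : S_Zext) {X : Ob} {S : Set (Hz X.ι)} (hS : S.Finite) (hW : WZ X.ι S) :
    ∃ (Y T : Ob) (g : Mor (Y.sum T) X), g.i * g.r = 1 ∧ T.card = S.ncard ∧
      Y.card + T.card = X.card ∧ S = Set.range fun t => g.hz (Sum.inr t) := by
  classical
  let _ : Fintype S := hS.fintype
  let m : Mor (Ob.of S) X :=
    ⟨Matrix.of fun a t => t.1.1 a, Matrix.of fun t a => t.1.2 a, by
      ext t t'
      have h := hW t.1 t.2 t'.1 t'.2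
      by_cases htt : t = t'
      · subst htt
        simpa [Matrix.mul_apply, dotProduct] using h.1 rfl
      · have h2 := h.2 (fun e => htt (Subtype.ext e))
        simpa [Matrix.mul_apply, dotProduct, Matrix.one_apply, htt] using h2⟩
  obtain ⟨U, g, hg, hc, hm⟩ := hZ _ _ m
  let e : U.ι ⊕ S ≃ S ⊕ U.ι := Equiv.sumComm _ _
  refine ⟨U, Ob.of S, ⟨g.i.submatrix id e, g.r.submatrix e id, ?_⟩, ?_, ?_, by omega, ?_⟩
  · rw [← Matrix.submatrix_mul _ _ _ _ _ Function.bijective_id, g.ri, Matrix.submatrix_one_equiv]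
  · simp only
    rw [Matrix.submatrix_mul_equiv, hg]
    rfl
  · exact Set.fintypeCard_eq_ncard S
  · have hi : ∀ a (t : S), g.i a (Sum.inl t) = t.1.1 a := fun a t => by
      have h := congrFun (congrFun (congrArg Mor.i hm) a) t
      simpa [m, Mor.comp, Mor.inl, Mor.emb, Matrix.mul_apply] using h.symm
    have hr : ∀ a (t : S), g.r (Sum.inl t) a = t.1.2 a := fun a t => by
      have h := congrFun (congrFun (congrArg Mor.r hm) t) a
      simpa [m, Mor.comp, Mor.inl, Mor.emb, Matrix.mul_apply] using h.symm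
    have hz : ∀ t : S, ((fun a => g.i a (Sum.inl t)), (fun a => g.r (Sum.inl t) a)) = t.1 :=
      fun t => Prod.ext (funext fun a => hi a t) (funext fun a => hr a t)
    ext p
    constructor
    · intro hp
      exact ⟨⟨p, hp⟩, hz ⟨p, hp⟩⟩
    · rintro ⟨t, rfl⟩
      have h : (t : S).1 ∈ S := (t : S).2
      rw [← hz t] at h
      exact h

end Zb

open Zb

theorem p_Z1 : S_Z1 := by
  intro X A Ψ k hA hΨ hk
  let _ : Fintype A := hA.fintype
  let _ : Fintype Ψ := hΨ.fintype
  have h1 : Fintype.card A = A.ncard := Set.fintypeCard_eq_ncard A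
  have h2 : Fintype.card Ψ = Ψ.ncard := Set.fintypeCard_eq_ncard Ψ
  obtain ⟨m, hm1, hm2⟩ := exists_both X A Ψ (fun a => a.1) (fun a => a.1) k (by omega)
  exact ⟨m, fun a ha => hm1 ⟨a, ha⟩, fun a ha => hm2 ⟨a, ha⟩⟩

theorem p_Zfull (hZ : S_Zext) : S_Zfull := by
  intro X S hS hW
  refine ⟨exists_iso hZ hS hW, ?_, ?_⟩
  · rintro Y T g hg rfl
    exact full_of_iso g hg
  · intro Y m hm
    refine ⟨?_, fun Y' m' hm' => full_factor hS hW hm hm', fun A => ?_⟩
    · obtain ⟨Y0, T, g, hg, hT, hc, hr⟩ := exists_iso hZ hS hW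
      have hf : (g.comp (Mor.inl Y0 T)).Full S := by
        rw [hr]
        exact full_of_iso g hg
      obtain ⟨f, -⟩ := full_factor hS hW hm hf.1
      obtain ⟨f', -⟩ := full_factor hS hW hf hm.1
      have h1 := card_le f
      have h2 := card_le f'
      omega
    · apply le_antisymm
      · refine iSup_le fun Y' => iSup_le fun m' => iSup_le fun hm' => ?_
        obtain ⟨f, rfl⟩ := full_factor hS hW hm hm'
        exact range_comp_le A _ _
      · exact le_iSup_of_le Y (le_iSup_of_le m (le_iSup_of_le hm.1 le_rfl))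

theorem p_Gen0 (hZ : S_Zext) : S_Gen0 := by
  intro A n0 hA
  constructor
  · intro n1 h01 X hX
    rw [eq_top_iff, ← hA X (h01.trans hX)]
    refine iSup_le fun f => ?_
    obtain ⟨T, g, -, hc, hf⟩ := hZ _ _ f
    have hle : Fintype.card (Fin (n1 - n0)) ≤ Fintype.card T.ι := by
      have : Fintype.card T.ι = T.card := rfl
      simp only [Ob.card_std] at hc
      simp only [Fintype.card_fin]
      omega
    obtain ⟨e⟩ := Function.Embedding.nonempty_of_card_le hle
    have h1 := Mor.sum_comp_inl (Mor.id (Ob.std n0)) (Mor.emb (X := Ob.std (n1 - n0)) (Y := T) e)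
    rw [comp_id] at h1
    rw [hf, ← h1, ← comp_assoc]
    refine (range_comp_le A _ _).trans (range_le_std A ?_ _)
    simp only [Ob.card_sum, Ob.card_std]
    omega
  · intro T X hX
    rw [eq_top_iff]
    have hA' := hA (X.sum T) (by simp only [Ob.card_sum]; omega)
    refine le_trans (le_of_eq hA'.symm) (iSup_le fun f => ?_)
    obtain ⟨m, hm1, hm2⟩ := exists_both X (Fin n0) (Fin n0) (fun j a => f.i (Sum.inl a) j)
      (fun j a => f.r j (Sum.inl a)) (X.card - 2 * n0) (by simp only [Fintype.card_fin]; omega)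
    obtain ⟨U, g, hg, hc, hm⟩ := hZ _ _ m
    have hU : U.card = 2 * n0 := by
      simp only [Ob.card_std] at hc
      omega
    let f' : Mor U X := g.comp (inr _ U)
    have hP : f'.i * f'.r = 1 - m.i * m.r := by
      rw [eq_sub_iff_add_eq', hm, ← hg]
      have h := congrArg (fun M => g.i * M * g.r) (inl_add_inr (Ob.std (X.card - 2 * n0)) U)
      simpa only [f', Mor.comp, Matrix.mul_add, Matrix.add_mul, Matrix.mul_assoc,
        Matrix.mul_one, Matrix.one_mul] using h
    have hC : m.r * f.i.toRows₁ = 0 := by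
      ext y j
      exact congrFun (hm1 j) y
    have hR : f.r.toCols₁ * m.i = 0 := by
      ext j y
      exact congrFun (hm2 j) y
    have hF : (f'.sum (Mor.id T)).i * (f'.sum (Mor.id T)).r =
        fromBlocks (1 - m.i * m.r) 0 0 1 := by
      simp [Mor.sum, Mor.id, fromBlocks_multiply, hP]
    obtain ⟨h, hh⟩ := factor (f'.sum (Mor.id T)) f
      (by
        rw [hF]
        conv_lhs => rw [← fromRows_toRows f.i]
        conv_rhs => rw [← fromRows_toRows f.i]
        rw [fromBlocks_mul_fromRows]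
        simp [Matrix.sub_mul, Matrix.mul_assoc, hC])
      (by
        rw [hF]
        conv_lhs => rw [← fromCols_toCols f.r]
        conv_rhs => rw [← fromCols_toCols f.r]
        rw [fromCols_mul_fromBlocks]
        simp [Matrix.mul_sub, ← Matrix.mul_assoc, hR])
    rw [hh]
    exact (range_comp_le A _ _).trans (range_le_std (A.shift T) hU f')

end Pool.Agent.Lib.MP_49df17_al
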