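import Pool.Agent.Lib.MP_49df17_al.Adapt
import Pool.Agent.Lib.MP_49df17_al.Flow

import Pool.Agent.Lib.MP_49df17_al.Core

import Pool.Agent.Lib.MP_49df17_al.Deg
import Pool.Agent.Lib.MP_49df17_al.FIN

import Pool.Agent.Lib.MP_49df17_al.FP2


import Pool.Agent.Lib.MP_49df17_al.H1
import Pool.Agent.Lib.MP_49df17_al.G3




import Pool.Agent.Lib.MP_49df17_al.Nv1
import Pool.Agent.Lib.MP_49df17_al.NK



import Pool.Agent.Lib.MP_49df17_al.XT

import Pool.Agent.Lib.MP_49df17_al.Q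

import Pool.Agent.Lib.MP_49df17_al.R2

import Pool.Agent.Lib.MP_49df17_al.V1
import Pool.Agent.Lib.MP_49df17_al.SF



import Pool.Agent.Lib.MP_49df17_al.Za


import Pool.Agent.Lib.MP_49df17_al.Zb

/-!
Assembly of all the steps.
-/

namespace Pool.Agent.Lib.MP_49df17_al

theorem a_Heq : S_Heq := p_Heq
theorem a_Zlift : S_Zlift := p_Zlift
theorem a_Zext : S_Zext := p_Zext
theorem a_W : S_W := p_W a_Heq a_Zlift a_Zext
theorem a_rows : S_rows := p_rows
theorem a_cols : S_cols := p_cols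
theorem a_adapt : S_adapt := p_adapt
theorem a_bad : S_bad := p_bad
theorem a_flow : S_flow := p_flow
theorem a_Nf : S_Nf := p_Nf a_flow a_adapt
theorem a_Y : S_Y := p_Y a_bad a_Nf
theorem a_full : S_full := p_full
theorem a_gen : S_gen := p_gen
theorem a_Atb : S_Atb := p_Atb
theorem a_dual : S_dual := p_dual
theorem a_At : S_At := p_At a_gen a_Y a_adapt a_dual a_Atb
theorem a_XT2 : S_XT 2 :=
  p_XTs a_full a_gen a_adapt a_Atb a_At 1 le_rfl
    (p_XTs a_full a_gen a_adapt a_Atb a_At 0 zero_le_one (p_XT0 a_Y))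
theorem a_HX : S_HX := p_HX a_adapt a_XT2
theorem a_Zfull : S_Zfull := p_Zfull a_Zext
theorem a_O : S_O := p_O a_Zlift a_Zfull
theorem a_Hbij : S_Hbij := p_Hbij
theorem a_bridge : S_bridge := p_bridge a_Zfull a_Hbij
theorem a_genC : S_genC := p_genC
theorem a_Z1 : S_Z1 := p_Z1
theorem a_log : S_log := p_log
theorem a_isSl : S_isSl := p_isSl
theorem a_pbw : S_pbw := p_pbw
theorem a_slg : S_slg := p_slg
theorem a_emb : S_emb := p_emb
theorem a_Zgen : S_Zgen := p_Zgen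
theorem a_Q : S_Q := p_Q a_log a_isSl a_pbw a_slg a_emb a_Zext a_Zgen
theorem a_hw : S_hw := p_hw a_slg a_pbw
theorem a_Deg : S_Deg := p_Deg a_Q a_hw a_slg a_isSl a_emb
theorem a_Gen0 : S_Gen0 := p_Gen0 a_Zext
theorem a_delta : S_delta := p_delta a_Q a_hw a_slg a_isSl a_emb a_Gen0 a_log
theorem a_stab : S_stab := p_stab a_emb a_Q
theorem a_Rinj : S_Rinj := p_Rinj a_Zext a_isSl a_hw a_emb a_stab
theorem a_V1 : S_V1 := p_V1 a_genC a_Z1 a_Zfull a_Deg a_delta a_Rinj
theorem a_Gen : S_Gen := p_Gen a_rows a_cols a_HX a_O a_bridge a_V1 a_Rinj a_Zfull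
theorem a_alg : S_alg := p_alg
theorem a_TorsLU : S_TorsLU := p_TorsLU
theorem a_PI : S_PI := p_PI
theorem a_good : S_good := p_good a_flow
theorem a_TA : S_TA := p_TA
theorem a_center : S_center := p_center
theorem a_slide : S_slide := p_slide a_adapt
theorem a_x0 : S_x0 := p_x0 a_adapt a_Atb
theorem a_Dc : S_Dc := p_Dc a_flow a_adapt
theorem a_DcT : S_DcT := p_DcT a_TA a_center a_slide a_Dc
theorem a_G2a : S_G2a := p_G2a a_TA a_center a_slide a_Atb a_At a_x0 a_DcT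
theorem a_E : S_E := p_E
theorem a_B : S_B := p_B a_gen a_Y a_adapt a_dual
theorem a_B0 : S_B0 := p_B0 a_full a_B
theorem a_live : S_live := p_live a_flow a_adapt
theorem a_NK : S_NK := p_NK a_flow a_adapt
theorem a_NKr : S_NKr := p_NKr a_E a_gen a_adapt a_B0 a_live a_NK
theorem a_G2b : S_G2b := p_G2b a_TA a_NKr
theorem a_star : S_star := p_star a_G2a a_G2b
theorem a_ii : S_ii := p_ii a_PI a_good a_star
theorem a_iis : S_iis := p_iis a_PI a_TA a_slide a_B a_star
theorem a_uni : S_uni := p_uni a_alg a_TorsLU a_ii a_iis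
theorem a_Unip : S_Unip := p_Unip a_uni a_bridge a_O a_Z1 a_Zlift
theorem a_Kx : S_Kx := p_Kx a_flow a_adapt
theorem a_FP23 : S_FP23 := p_FP23
theorem a_FPg : S_FPg := p_FPg a_FP23
theorem a_colinj : S_colinj := p_colinj
theorem a_FIN : S_FIN := p_FIN a_FP23 a_FPg a_rows a_cols a_colinj
theorem a_Brown : S_Brown := p_Brown a_FP23 a_FPg
theorem a_Nv1 : S_Nv1 := p_Nv1 a_E
theorem a_Nv2 : S_Nv2 := p_Nv2
theorem a_FPGL : S_FPGL := p_FPGL a_Brown a_FPg a_Nv1 a_Nv2
theorem a_fin : S_fin := p_fin a_Kx a_FIN a_FPGL a_FPg a_Zlift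
theorem a_locfin : S_locfin := p_locfin a_Zgen a_log a_isSl
theorem a_struct : S_struct := p_struct a_pbw a_slg a_hw
theorem a_model : S_model := p_model a_log a_isSl a_hw a_struct
theorem a_SFdual : S_SFdual := p_SFdual a_stab a_Q a_struct a_model a_hw a_slg a_isSl a_log a_emb a_Zgen
theorem a_coh : S_coh := p_coh a_Heq a_Hbij

theorem all_SF (i : ℕ) : SF i :=
  main_of a_W a_Gen a_Unip a_fin a_locfin a_Gen0 a_SFdual a_coh i

end Pool.Agent.Lib.MP_49df17_al
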