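import Pool.Agent.Lib.MP_49df17_al.Core

-- part Pool.Agent.Lib.MP_49df17_al.Nv2
section

/-!
Finitely many orbits of lists of nearly minimal vectors, and the finiteness properties of the
general linear group over the integers.
-/

namespace Pool.Agent.Lib.MP_49df17_al

open Matrix
open scoped Pointwise

namespace JNv2

section PID

variable {R : Type} [CommRing R] [IsDomain R] [IsPrincipalIdealRing R]
variable {M : Type} [AddCommGroup M] [Module R M]

/-- Saturated submodules. -/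
def Sat (W : Submodule R M) : Prop := ∀ (c : R) (u : M), c ≠ 0 → c • u ∈ W → u ∈ W

omit [IsPrincipalIdealRing R] in
theorem Sat.tf {W : Submodule R M} (h : Sat W) : Module.IsTorsionFree R (M ⧸ W) :=
  Module.IsTorsionFree.of_smul_eq_zero fun c x hx => by
    induction x using Submodule.Quotient.induction_on with
    | H u =>
      by_cases hc : c = 0
      · exact Or.inl hc
      · refine Or.inr ((Submodule.Quotient.mk_eq_zero W).2 (h c u hc ?_))
        rw [← Submodule.Quotient.mk_smul] at hx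
        exact (Submodule.Quotient.mk_eq_zero W).1 hx

theorem Sat.free [Module.Finite R M] {W : Submodule R M} (h : Sat W) : Module.Free R (M ⧸ W) :=
  haveI := h.tf
  inferInstance

theorem Sat.sec [Module.Finite R M] {W : Submodule R M} (h : Sat W) :
    ∃ σ : (M ⧸ W) →ₗ[R] M, ∀ x, W.mkQ (σ x) = x := by
  have := h.free
  obtain ⟨σ, hσ⟩ := W.mkQ.exists_rightInverse_of_surjective W.range_mkQ
  exact ⟨σ, fun x => LinearMap.congr_fun hσ x⟩

theorem Sat.compl [Module.Finite R M] {W : Submodule R M} (h : Sat W) : ∃ C, IsCompl W C := by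
  obtain ⟨σ, hσ⟩ := h.sec
  have hm : ∀ x : M, (LinearMap.id - σ.comp W.mkQ : M →ₗ[R] M) x ∈ W := fun x => by
    rw [← Submodule.Quotient.mk_eq_zero, ← Submodule.mkQ_apply]
    simp only [LinearMap.sub_apply, LinearMap.id_apply, LinearMap.comp_apply, map_sub, hσ, sub_self]
  refine ⟨_, LinearMap.isCompl_of_proj (f := LinearMap.codRestrict W _ hm) fun x => ?_⟩
  apply Subtype.ext
  have : W.mkQ (x : M) = 0 := (Submodule.Quotient.mk_eq_zero W).2 x.2
  simp only [LinearMap.codRestrict_apply, LinearMap.sub_apply, LinearMap.id_apply,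
    LinearMap.comp_apply, this, map_zero, sub_zero]

/-- Two saturated embeddings differ by an automorphism. -/
theorem extend [Module.Finite R M] {G : Type} [AddCommGroup G] [Module R G] (p q : G →ₗ[R] M)
    (hp : Function.Injective p) (hq : Function.Injective q) (sp : Sat (LinearMap.range p))
    (sq : Sat (LinearMap.range q)) : ∃ g : M ≃ₗ[R] M, ∀ x, g (p x) = q x := by
  obtain ⟨C, hC⟩ := sp.compl
  obtain ⟨C', hC'⟩ := sq.compl
  have := sp.free
  have := sq.free
  let φ : LinearMap.range p ≃ₗ[R] LinearMap.range q :=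
    (LinearEquiv.ofInjective p hp).symm.trans (LinearEquiv.ofInjective q hq)
  have e1 := (LinearMap.range p).finrank_quotient_add_finrank
  have e2 := (LinearMap.range q).finrank_quotient_add_finrank
  have e3 := φ.finrank_eq
  let ψ0 : (M ⧸ LinearMap.range p) ≃ₗ[R] (M ⧸ LinearMap.range q) :=
    LinearEquiv.ofFinrankEq _ _ (by omega)
  let ψ : C ≃ₗ[R] C' := (Submodule.quotientEquivOfIsCompl _ _ hC).symm.trans
    (ψ0.trans (Submodule.quotientEquivOfIsCompl _ _ hC'))
  refine ⟨(Submodule.prodEquivOfIsCompl _ _ hC).symm.trans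
    ((φ.prodCongr ψ).trans (Submodule.prodEquivOfIsCompl _ _ hC')), fun x => ?_⟩
  have e4 : p x = ((LinearEquiv.ofInjective p hp x : LinearMap.range p) : M) := rfl
  rw [e4, LinearEquiv.trans_apply, Submodule.prodEquivOfIsCompl_symm_apply_left]
  simp [φ]

/-- The pointwise stabiliser of a submodule. -/
def Fix (W : Submodule R M) : Subgroup (M ≃ₗ[R] M) where
  carrier := {g | ∀ w ∈ W, g w = w}
  one_mem' := fun _ _ => rfl
  mul_mem' := fun {a b} ha hb w hw => by
    change a (b w) = w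
    rw [hb w hw, ha w hw]
  inv_mem' := fun {a} ha w hw => by
    change a.symm w = w
    rw [LinearEquiv.symm_apply_eq, ha w hw]

omit [IsDomain R] [IsPrincipalIdealRing R] in
theorem Fix_map {W : Submodule R M} (g : Fix W) : W.map (g.1 : M →ₗ[R] M) = W := by
  ext w
  constructor
  · rintro ⟨x, hx, rfl⟩
    have := g.2 x hx
    change g.1 x ∈ W
    rwa [this]
  · exact fun hw => ⟨w, hw, g.2 w hw⟩

/-- The action on the quotient. -/
def quo (W : Submodule R M) : Fix W →* ((M ⧸ W) ≃ₗ[R] (M ⧸ W)) where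
  toFun g := Submodule.Quotient.equiv W W g.1 (Fix_map g)
  map_one' := LinearEquiv.ext fun x => by
    induction x using Submodule.Quotient.induction_on with
    | H u => rfl
  map_mul' a b := LinearEquiv.ext fun x => by
    induction x using Submodule.Quotient.induction_on with
    | H u => rfl

omit [IsDomain R] [IsPrincipalIdealRing R] in
theorem quo_mk (W : Submodule R M) (g : Fix W) (u : M) : quo W g (W.mkQ u) = W.mkQ (g.1 u) := rfl

theorem quo_surj [Module.Finite R M] {W : Submodule R M} (h : Sat W) :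
    Function.Surjective (quo W) := by
  obtain ⟨σ, hσ⟩ := h.sec
  intro f
  let a : ((M ⧸ W) ≃ₗ[R] (M ⧸ W)) → M →ₗ[R] M := fun f =>
    LinearMap.id + σ.comp (((f : (M ⧸ W) →ₗ[R] (M ⧸ W)) - LinearMap.id).comp W.mkQ)
  have ha : ∀ f u, a f u = u + σ (f (W.mkQ u) - W.mkQ u) := fun _ _ => rfl
  have hπ : ∀ f u, W.mkQ (a f u) = f (W.mkQ u) := fun f u => by
    rw [ha, map_add, hσ]; abel
  have hinv : ∀ f : (M ⧸ W) ≃ₗ[R] (M ⧸ W), (a f).comp (a f.symm) = LinearMap.id := fun f =>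
    LinearMap.ext fun u => by
      rw [LinearMap.comp_apply, ha f, hπ, ha, LinearEquiv.apply_symm_apply, map_sub, map_sub,
        LinearMap.id_apply]
      abel
  refine ⟨⟨LinearEquiv.ofLinearMap (a f) (a f.symm) (hinv f) (hinv f.symm), fun w hw => ?_⟩,
    LinearEquiv.ext fun x => ?_⟩
  · change a f w = w
    have : W.mkQ w = 0 := (Submodule.Quotient.mk_eq_zero W).2 hw
    rw [ha, this]; simp
  · induction x using Submodule.Quotient.induction_on with
    | H u => exact hπ f u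

/-- The linear map `1 + β`. -/
def shL (W : Submodule R M) (β : (M ⧸ W) →ₗ[R] W) : M →ₗ[R] M :=
  LinearMap.id + W.subtype.comp (β.comp W.mkQ)

omit [IsDomain R] [IsPrincipalIdealRing R] in
theorem shL_apply (W : Submodule R M) (β : (M ⧸ W) →ₗ[R] W) (u : M) :
    shL W β u = u + β (W.mkQ u) := rfl

omit [IsDomain R] [IsPrincipalIdealRing R] in
theorem mkQ_shL (W : Submodule R M) (β : (M ⧸ W) →ₗ[R] W) (u : M) :
    W.mkQ (shL W β u) = W.mkQ u := by
  have : W.mkQ (β (W.mkQ u) : M) = 0 := (Submodule.Quotient.mk_eq_zero W).2 (β _).2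
  rw [shL_apply, map_add, this, add_zero]

omit [IsDomain R] [IsPrincipalIdealRing R] in
theorem shL_shL (W : Submodule R M) (β β' : (M ⧸ W) →ₗ[R] W) (u : M) :
    shL W β (shL W β' u) = shL W (β + β') u := by
  rw [shL_apply, mkQ_shL, shL_apply, shL_apply, LinearMap.add_apply, Submodule.coe_add]
  abel

omit [IsDomain R] [IsPrincipalIdealRing R] in
theorem shL_zero (W : Submodule R M) (u : M) : shL W 0 u = u := by simp [shL_apply]

/-- The shears as a homomorphism to the kernel of the action on the quotient. -/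
def sh (W : Submodule R M) : Multiplicative ((M ⧸ W) →ₗ[R] W) →* (quo W).ker where
  toFun β := ⟨⟨LinearEquiv.ofLinearMap (shL W β.toAdd) (shL W (-β.toAdd))
      (LinearMap.ext fun u => by
        rw [LinearMap.comp_apply, shL_shL, add_neg_cancel, shL_zero, LinearMap.id_apply])
      (LinearMap.ext fun u => by
        rw [LinearMap.comp_apply, shL_shL, neg_add_cancel, shL_zero, LinearMap.id_apply]),
      fun w hw => by
        change shL W β.toAdd w = w
        have : W.mkQ w = 0 := (Submodule.Quotient.mk_eq_zero W).2 hw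
        rw [shL_apply, this]; simp⟩,
    LinearEquiv.ext fun x => by
      induction x using Submodule.Quotient.induction_on with
      | H u => exact mkQ_shL W β.toAdd u⟩
  map_one' := Subtype.ext (Subtype.ext (LinearEquiv.ext fun u => shL_zero W u))
  map_mul' a b :=
    Subtype.ext (Subtype.ext (LinearEquiv.ext fun u => (shL_shL W a.toAdd b.toAdd u).symm))

omit [IsDomain R] [IsPrincipalIdealRing R] in
theorem sh_surj (W : Submodule R M) : Function.Surjective (sh W) := by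
  rintro ⟨g, hg⟩
  have hm : ∀ u : M, ((g.1 : M →ₗ[R] M) - LinearMap.id : M →ₗ[R] M) u ∈ W := fun u => by
    have h1 : quo W g (W.mkQ u) = W.mkQ u := by rw [MonoidHom.mem_ker.1 hg]; rfl
    rw [quo_mk] at h1
    exact (Submodule.Quotient.eq W).1 h1
  refine ⟨Multiplicative.ofAdd (W.liftQ (LinearMap.codRestrict W _ hm) fun w hw => ?_),
    Subtype.ext (Subtype.ext (LinearEquiv.ext fun u => ?_))⟩
  · apply Subtype.ext
    change g.1 w - w = 0
    rw [g.2 w hw, sub_self]
  · change u + (g.1 u - u) = g.1 u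
    abel

end PID

theorem addFG {A : Type} [AddCommGroup A] [inst : Module ℤ A] (h : Module.Finite ℤ A) :
    AddGroup.FG A := by
  obtain rfl : inst = AddCommGroup.toIntModule A := Subsingleton.elim _ _
  exact Module.Finite.iff_addGroup_fg.1 h

/-- Matrices as linear automorphisms. -/
def toE (ι : Type) [Fintype ι] [DecidableEq ι] : GL ι ℤ ≃* ((ι → ℤ) ≃ₗ[ℤ] (ι → ℤ)) :=
  Matrix.GeneralLinearGroup.toLin.trans (LinearMap.GeneralLinearGroup.generalLinearEquiv ℤ _)

theorem toE_apply {ι : Type} [Fintype ι] [DecidableEq ι] (g : GL ι ℤ) (v : ι → ℤ) :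
    toE ι g v = g • v := rfl

theorem fp_fix (hg : S_FPg) (m : ℕ) {R : Type} [CommRing R] [IsDomain R] [IsPrincipalIdealRing R]
    {M : Type} [AddCommGroup M] [Module R M] [Module.Finite R M] {W : Submodule R M} (h : Sat W)
    (hfg : AddGroup.FG ((M ⧸ W) →ₗ[R] W))
    (ih : FPg (GL (Fin (Module.finrank R (M ⧸ W))) R) m) : FPg (Fix W) m := by
  have := h.free
  refine hg.2.2.1 _ _ (quo W) m (quo_surj h) ?_ ?_
  · refine hg.2.2.2.2.2 _ m (Group.fg_of_surjective (sh_surj W)) fun a b => ?_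
    obtain ⟨a, rfl⟩ := sh_surj W a
    obtain ⟨b, rfl⟩ := sh_surj W b
    rw [← map_mul, ← map_mul, mul_comm]
  · exact hg.2.2.2.1 _ _ m ((Matrix.GeneralLinearGroup.toLin' (Module.finBasis R (M ⧸ W))).trans
      (LinearMap.GeneralLinearGroup.generalLinearEquiv R _)) ih

theorem fp_stab (hg : S_FPg) (m : ℕ) (ι : Type) [Fintype ι] [DecidableEq ι]
    (ih : ∀ k < Fintype.card ι, FPg (GL (Fin k) ℤ) m) (l : List (ι → ℤ)) {v : ι → ℤ} (hv : v ∈ l)
    (h0 : v ≠ 0) : FPg (MulAction.stabilizer (GL ι ℤ) l) m := by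
  let W : Submodule ℤ (ι → ℤ) :=
    { carrier := {u | ∀ g ∈ MulAction.stabilizer (GL ι ℤ) l, toE ι g u = u}
      add_mem' := fun {a b} ha hb g hg => by rw [map_add, ha g hg, hb g hg]
      zero_mem' := fun g _ => map_zero _
      smul_mem' := fun c a ha g hg => by rw [map_smul, ha g hg] }
  have hl : ∀ x ∈ l, x ∈ W := fun x hx g hg => by
    have e : l.map (g • ·) = l.map id := by rw [List.map_id]; exact hg
    exact List.map_inj_left.1 e x hx
  have hs : Sat W := fun c u hc hu g hg => by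
    have := hu g hg
    rw [map_smul] at this
    exact smul_right_injective _ hc this
  have hmap : (MulAction.stabilizer (GL ι ℤ) l).map (toE ι : GL ι ℤ →* _) = Fix W := by
    ext f
    constructor
    · rintro ⟨g, hg, rfl⟩ w hw
      exact hw g hg
    · intro hf
      refine ⟨(toE ι).symm f, ?_, (toE ι).apply_symm_apply f⟩
      change l.map _ = l
      conv_rhs => rw [← List.map_id l]
      refine List.map_congr_left fun x hx => ?_
      rw [← toE_apply, MulEquiv.apply_symm_apply]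
      exact hf x (hl x hx)
  have := hs.free
  have hlt : Module.finrank ℤ ((ι → ℤ) ⧸ W) < Fintype.card ι := by
    have e1 := W.finrank_quotient_add_finrank
    have : Nontrivial W := ⟨⟨⟨v, hl v hv⟩, 0, fun e => h0 (congrArg Subtype.val e)⟩⟩
    have e2 : 0 < Module.finrank ℤ W := Module.finrank_pos
    rw [Module.finrank_fintype_fun_eq_card] at e1
    omega
  have := fp_fix hg m hs (addFG inferInstance) (ih _ hlt)
  exact hg.2.2.2.1 _ _ m
    (((toE ι).subgroupMap _).trans (MulEquiv.subgroupCongr hmap)).symm this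

/-- Simultaneous approximation. -/
theorem dirichlet {κ : Type} [Fintype κ] (K : ℕ) (hK : 0 < K) (t : κ → ℚ) :
    ∃ c : ℕ, 0 < c ∧ c ≤ K ^ Fintype.card κ ∧ ∃ m : κ → ℤ, ∀ j, |c * t j - m j| < 1 / K := by
  classical
  have hK' : (0 : ℚ) < K := by exact_mod_cast hK
  let a : ℕ → κ → ℤ := fun c j => ⌊(K : ℚ) * Int.fract (c * t j)⌋
  have hc : (Fintype.piFinset fun _ : κ => Finset.Ico (0 : ℤ) K).card <
      (Finset.range (K ^ Fintype.card κ + 1)).card := by
    simp [Fintype.card_piFinset]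
  have key : ∀ x y : ℕ, x < y → y ≤ K ^ Fintype.card κ → a x = a y →
      ∃ c : ℕ, 0 < c ∧ c ≤ K ^ Fintype.card κ ∧ ∃ m : κ → ℤ, ∀ j, |c * t j - m j| < 1 / K := by
    intro x y hxy hy e
    refine ⟨y - x, by omega, by omega, fun j => ⌊(y : ℚ) * t j⌋ - ⌊(x : ℚ) * t j⌋, fun j => ?_⟩
    have h1 := Int.abs_sub_lt_one_of_floor_eq_floor (congrFun e j).symm
    rw [← mul_sub, abs_mul, abs_of_pos hK'] at h1
    rw [lt_div_iff₀ hK', mul_comm]
    have h2 : ((y - x : ℕ) : ℚ) * t j - ((⌊(y : ℚ) * t j⌋ - ⌊(x : ℚ) * t j⌋ : ℤ) : ℚ) =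
        Int.fract ((y : ℚ) * t j) - Int.fract ((x : ℚ) * t j) := by
      rw [Nat.cast_sub hxy.le, Int.fract, Int.fract]; push_cast; ring
    rwa [h2]
  obtain ⟨x, hx, y, hy, hne, e⟩ := Finset.exists_ne_map_eq_of_card_lt_of_maps_to hc (f := a)
    (fun c _ => by
      refine Finset.mem_coe.2 (Fintype.mem_piFinset.2 fun j => Finset.mem_Ico.2 ⟨?_, ?_⟩)
      · exact Int.floor_nonneg.2 (mul_nonneg hK'.le (Int.fract_nonneg _))
      · rw [Int.floor_lt]
        have := Int.fract_lt_one ((c : ℚ) * t j)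
        push_cast
        nlinarith)
  rw [Finset.mem_range] at hx hy
  rcases lt_or_gt_of_ne hne with h | h
  · exact key x y h (by omega) e
  · exact key y x h (by omega) e.symm

variable {ι : Type} {s : ℕ}

/-- Integral vectors as rational vectors. -/
def cst {ι : Type} : (ι → ℤ) →+ (ι → ℚ) where
  toFun u a := u a
  map_zero' := by ext; simp
  map_add' _ _ := by ext; simp

theorem cst_apply (u : ι → ℤ) (a : ι) : cst u a = u a := rfl

theorem cst_smul (c : ℤ) (u : ι → ℤ) : cst (c • u) = (c : ℚ) • cst u := by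
  ext; simp [cst_apply]

theorem cst_inj {u u' : ι → ℤ} (h : cst u = cst u') : u = u' := by
  ext a
  have := congrFun h a
  rw [cst_apply, cst_apply] at this
  exact_mod_cast this

/-- Rational combinations of a family of integral vectors. -/
noncomputable def Φ (v : Fin s → ι → ℤ) : (Fin s → ℚ) →ₗ[ℚ] (ι → ℚ) :=
  Fintype.linearCombination ℚ fun j => cst (v j)

theorem Φ_apply (v : Fin s → ι → ℤ) (t : Fin s → ℚ) : Φ v t = ∑ j, t j • cst (v j) :=
  Fintype.linearCombination_apply _ _ _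

theorem Φ_cst (v : Fin s → ι → ℤ) (m : Fin s → ℤ) : Φ v (cst m) = cst (∑ j, m j • v j) := by
  rw [Φ_apply, map_sum]
  exact Finset.sum_congr rfl fun j _ => by rw [cst_smul, cst_apply]

/-- Short combinations that are integral vanish. -/
def Short (K : ℕ) (v : Fin s → ι → ℤ) : Prop :=
  ∀ t : Fin s → ℚ, (∀ j, |t j| < 1 / K) → ∀ u, Φ v t = cst u → Φ v t = 0

theorem q_sum [Fintype ι] {Q : Matrix ι ι ℚ} (hQ : ∀ v : ι → ℚ, 0 ≤ v ⬝ᵥ Q *ᵥ v) {κ : Type}
    (S : Finset κ) (x : κ → ι → ℚ) {ε : ℚ} (hε : 0 ≤ ε) (h : ∀ j ∈ S, x j ⬝ᵥ Q *ᵥ x j ≤ ε) :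
    (∑ j ∈ S, x j) ⬝ᵥ Q *ᵥ (∑ j ∈ S, x j) ≤ 4 ^ S.card * ε := by
  classical
  induction S using Finset.induction_on with
  | empty => simpa using hε
  | insert a S ha ih =>
    rw [Finset.sum_insert ha, Finset.card_insert_of_notMem ha]
    have h1 := ih fun j hj => h j (Finset.mem_insert_of_mem hj)
    have h2 := h a (Finset.mem_insert_self _ _)
    have h3 := hQ (x a - ∑ j ∈ S, x j)
    have h4 : (1 : ℚ) ≤ 4 ^ S.card := one_le_pow₀ (by norm_num)
    generalize ∑ j ∈ S, x j = y at *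
    simp only [mulVec_add, mulVec_sub, add_dotProduct, dotProduct_add, sub_dotProduct,
      dotProduct_sub] at h3 ⊢
    rw [pow_succ]
    nlinarith

theorem short_of_Nv [Fintype ι] (v : Fin s → ι → ℤ) (h : Nv ι (vs (List.ofFn v))) :
    Short (2 ^ (s + 1)) v := by
  obtain ⟨Q, ⟨hQ, -⟩, hv⟩ := h
  intro t ht u hu
  by_contra h0
  have hu0 : u ≠ 0 := fun e => h0 (by rw [hu, e, map_zero])
  have hq : ∀ w : ι → ℤ, qf Q w = cst w ⬝ᵥ Q *ᵥ cst w := fun _ => rfl
  have hj : ∀ j, qf Q (v j) < 2 * qf Q u := fun j =>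
    (hv (v j) (by simp [List.mem_ofFn])).2 u hu0
  have hpos : 0 < qf Q u := by
    rcases Nat.eq_zero_or_pos s with rfl | hs
    · exact absurd (by simp [Φ_apply]) h0
    · have h1 := hj ⟨0, hs⟩
      have h2 : 0 ≤ qf Q (v ⟨0, hs⟩) := hQ _
      linarith
  have hK : (0 : ℚ) < 2 ^ (s + 1) := by positivity
  have key := q_sum hQ Finset.univ (fun j => t j • cst (v j))
    (ε := (1 / 2 ^ (s + 1)) ^ 2 * (2 * qf Q u)) (by positivity) (fun j _ => by
      have h1 : t j ^ 2 ≤ (1 / 2 ^ (s + 1)) ^ 2 := by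
        have := ht j
        push_cast at this
        exact sq_le_sq' (abs_lt.1 this).1.le (abs_lt.1 this).2.le
      have h2 : 0 ≤ qf Q (v j) := hQ _
      have h3 := hj j
      rw [mulVec_smul, smul_dotProduct, dotProduct_smul, ← hq, smul_eq_mul, smul_eq_mul,
        ← mul_assoc, ← sq]
      exact mul_le_mul h1 h3.le h2 (by positivity))
  rw [← Φ_apply, hu, ← hq, Finset.card_univ, Fintype.card_fin] at key
  have e : (4 : ℚ) ^ s * ((1 / 2 ^ (s + 1)) ^ 2 * (2 * qf Q u)) = qf Q u / 2 := by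
    have : (4 : ℚ) ^ s = (2 ^ s) ^ 2 := by rw [← pow_mul, mul_comm, pow_mul]; norm_num
    rw [this, pow_succ]
    field_simp
    ring
  rw [e] at key
  linarith

theorem ker_le {K : ℕ} (hK : 0 < K) {v v' : Fin s → ι → ℤ} (hv : Short K v)
    (hd : ∀ m : Fin s → ℤ, (∀ j, |m j| ≤ (K ^ s : ℕ) + 1) → Φ v (cst m) = 0 → Φ v' (cst m) = 0)
    (t : Fin s → ℚ) (ht : Φ v t = 0) : Φ v' t = 0 := by
  classical
  have hK1 : (1 : ℚ) / K ≤ 1 := by
    rw [div_le_one (by exact_mod_cast hK)]; exact_mod_cast hK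
  induction hn : (Finset.univ.filter fun j => t j ≠ 0).card using Nat.strong_induction_on
    generalizing t with
  | _ n ih =>
    by_cases h0 : t = 0
    · rw [h0, map_zero]
    obtain ⟨j1, hj1⟩ := Function.ne_iff.1 h0
    obtain ⟨j0, -, hj0⟩ := Finset.exists_max_image Finset.univ (fun j => |t j|)
      ⟨j1, Finset.mem_univ _⟩
    have ht0 : t j0 ≠ 0 := fun e => hj1 (by
      have := hj0 j1 (Finset.mem_univ _)
      rw [e, abs_zero] at this
      exact abs_nonpos_iff.1 this)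
    obtain ⟨c, hc, hcN, m, hm⟩ := dirichlet K hK fun j => t j / t j0
    rw [Fintype.card_fin] at hcN
    have hc' : (c : ℚ) ≠ 0 := by exact_mod_cast hc.ne'
    have hm0 : m j0 = c := by
      have h1 := (hm j0).trans_le hK1
      rw [div_self ht0, mul_one] at h1
      have h2 : |(c : ℤ) - m j0| < 1 := by exact_mod_cast h1
      have := Int.abs_lt_one_iff.1 h2
      omega
    have hmz : ∀ j, t j = 0 → m j = 0 := fun j hj => by
      have h1 := (hm j).trans_le hK1
      rw [hj, zero_div, mul_zero, zero_sub, abs_neg] at h1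
      exact Int.abs_lt_one_iff.1 (by exact_mod_cast h1)
    have hmb : ∀ j, |m j| ≤ (K ^ s : ℕ) + 1 := fun j => by
      have h1 := (hm j).trans_le hK1
      have h2 : |t j / t j0| ≤ 1 := by
        rw [abs_div, div_le_one (abs_pos.2 ht0)]; exact hj0 j (Finset.mem_univ _)
      have h3 : |(c : ℚ) * (t j / t j0)| ≤ c := by
        rw [abs_mul, Nat.abs_cast]; exact mul_le_of_le_one_right (Nat.cast_nonneg _) h2
      have h4 : (c : ℚ) ≤ (K ^ s : ℕ) := by exact_mod_cast hcN
      have h5 : |(m j : ℚ)| ≤ (K ^ s : ℕ) + 1 := by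
        rw [abs_le] at h3 ⊢
        rw [abs_lt] at h1
        constructor <;> linarith [h1.1, h1.2, h3.1, h3.2]
      exact_mod_cast h5
    have e1 : Φ v ((c / t j0 : ℚ) • t - cst m) = cst (-∑ j, m j • v j) := by
      rw [map_sub, map_smul, ht, smul_zero, zero_sub, Φ_cst, map_neg]
    have e2 : Φ v ((c / t j0 : ℚ) • t - cst m) = 0 := hv _ (fun j => by
      have := hm j
      rwa [← mul_div_assoc, mul_div_right_comm] at this) _ e1
    rw [map_sub, map_smul, ht, smul_zero, zero_sub, neg_eq_zero] at e2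
    have e3 := hd m hmb e2
    have e4 := ih _ ?_ (t - (t j0 / c : ℚ) • cst m) (by rw [map_sub, map_smul, ht, e2]; simp) rfl
    · rwa [map_sub, map_smul, e3, smul_zero, sub_zero] at e4
    · rw [← hn]
      refine Finset.card_lt_card ⟨fun j hj => ?_, fun hsub => ?_⟩
      · simp only [Finset.mem_filter, Finset.mem_univ, true_and] at hj ⊢
        intro e
        exact hj (by simp [cst_apply, e, hmz j e])
      · have := hsub (Finset.mem_filter.2 ⟨Finset.mem_univ j0, ht0⟩)
        refine (Finset.mem_filter.1 this).2 ?_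
        simp only [Pi.sub_apply, Pi.smul_apply, cst_apply, hm0, smul_eq_mul, Int.cast_natCast]
        field_simp
        ring

theorem int_le {K : ℕ} (hK : 0 < K) {v v' : Fin s → ι → ℤ} (hv : Short K v)
    (hk : ∀ t, Φ v t = 0 → Φ v' t = 0)
    (hd : ∀ m : Fin s → ℤ, (∀ j, |m j| ≤ (K ^ s).factorial) →
      (∃ u, Φ v ((1 / (K ^ s).factorial : ℚ) • cst m) = cst u) →
      ∃ u, Φ v' ((1 / (K ^ s).factorial : ℚ) • cst m) = cst u)
    (t : Fin s → ℚ) (u : ι → ℤ) (ht : Φ v t = cst u) : ∃ u', Φ v' t = cst u' := by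
  obtain ⟨c, hc, hcN, m, hm⟩ := dirichlet K hK t
  rw [Fintype.card_fin] at hcN
  obtain ⟨d, hd'⟩ := Nat.dvd_factorial hc hcN
  have hD : 0 < (K ^ s).factorial := Nat.factorial_pos _
  generalize (K ^ s).factorial = D at *
  have hc' : (c : ℚ) ≠ 0 := by exact_mod_cast hc.ne'
  have hD' : (D : ℚ) ≠ 0 := by exact_mod_cast hD.ne'
  have hD2 : (0 : ℤ) < D := by exact_mod_cast hD
  have e1 : Φ v ((c : ℚ) • t - cst m) = cst ((c : ℤ) • u - ∑ j, m j • v j) := by
    rw [map_sub, map_smul, ht, Φ_cst, map_sub, cst_smul, Int.cast_natCast]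
  have e2 : Φ v ((c : ℚ) • t - cst m) = 0 := hv _ (fun j => hm j) _ e1
  let r : Fin s → ℤ := fun j => (d * m j) % D
  let q : Fin s → ℤ := fun j => (d * m j) / D
  have et : t = (1 / c : ℚ) • ((c : ℚ) • t - cst m) + cst q + (1 / D : ℚ) • cst r := by
    ext j
    have h1 : ((d * m j : ℤ) : ℚ) = ((r j + D * q j : ℤ) : ℚ) := by
      rw [Int.emod_add_mul_ediv]
    have h2 : (D : ℚ) = c * d := by exact_mod_cast hd'
    push_cast at h1
    simp only [Pi.add_apply, Pi.smul_apply, Pi.sub_apply, cst_apply, smul_eq_mul]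
    have h3 : (r j : ℚ) = d * m j - D * q j := by linarith
    have hd0 : (d : ℚ) ≠ 0 := fun e => hD' (by rw [h2, e, mul_zero])
    rw [h3, h2]
    field_simp
    ring
  obtain ⟨u', hu'⟩ := hd r (fun j => by
    rw [abs_of_nonneg (Int.emod_nonneg _ hD2.ne')]
    exact (Int.emod_lt_of_pos _ hD2).le) ⟨u - ∑ j, q j • v j, by
      rw [map_sub, ← ht, ← Φ_cst]
      conv_rhs => rw [et]
      rw [map_add, map_add, map_smul (Φ v) (1 / c : ℚ), e2]
      simp⟩
  refine ⟨∑ j, q j • v' j + u', ?_⟩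
  rw [et, map_add, map_add, map_smul (Φ v') (1 / c : ℚ), hk _ e2, hu', Φ_cst, map_add]
  simp

theorem exists_equiv [Fintype ι] {v v' : Fin s → ι → ℤ} (h1 : ∀ t, Φ v t = 0 → Φ v' t = 0)
    (h2 : ∀ t, Φ v' t = 0 → Φ v t = 0) (h3 : ∀ t u, Φ v t = cst u → ∃ u', Φ v' t = cst u')
    (h4 : ∀ t u, Φ v' t = cst u → ∃ u', Φ v t = cst u') :
    ∃ g : (ι → ℤ) ≃ₗ[ℤ] (ι → ℤ), ∀ j, g (v j) = v' j := by
  classical
  let G : Submodule ℤ ((ι → ℤ) × (ι → ℤ)) :=
    { carrier := {x | ∃ t, Φ v t = cst x.1 ∧ Φ v' t = cst x.2}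
      add_mem' := fun ⟨t, a, b⟩ ⟨t', a', b'⟩ =>
        ⟨t + t', by rw [map_add, a, a', Prod.fst_add, map_add],
          by rw [map_add, b, b', Prod.snd_add, map_add]⟩
      zero_mem' := ⟨0, by simp, by simp⟩
      smul_mem' := fun c x ⟨t, a, b⟩ =>
        ⟨(c : ℚ) • t, by rw [map_smul, a, Prod.smul_fst, cst_smul],
          by rw [map_smul, b, Prod.smul_snd, cst_smul]⟩ }
  have hsc : ∀ (w : Fin s → ι → ℤ) (t : Fin s → ℚ) (c : ℤ) (u : ι → ℤ), c ≠ 0 →
      Φ w t = cst (c • u) → Φ w ((c : ℚ)⁻¹ • t) = cst u := fun w t c u hc e => by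
    rw [map_smul, e, cst_smul, smul_smul, inv_mul_cancel₀ (by exact_mod_cast hc), one_smul]
  obtain ⟨g, hg⟩ := extend ((LinearMap.fst ℤ _ _).comp G.subtype)
    ((LinearMap.snd ℤ _ _).comp G.subtype)
    ((injective_iff_map_eq_zero _).2 fun ⟨x, t, a, b⟩ hx => by
      have hx' : x.1 = 0 := hx
      rw [hx', map_zero] at a
      rw [h1 t a, ← map_zero cst] at b
      exact Subtype.ext (Prod.ext hx' (cst_inj b).symm))
    ((injective_iff_map_eq_zero _).2 fun ⟨x, t, a, b⟩ hx => by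
      have hx' : x.2 = 0 := hx
      rw [hx', map_zero] at b
      rw [h2 t b, ← map_zero cst] at a
      exact Subtype.ext (Prod.ext (cst_inj a).symm hx'))
    (fun c u hc ⟨⟨x, t, a, _⟩, e⟩ => by
      have e' : x.1 = c • u := e
      have h5 := hsc v t c u hc (by rw [a, e'])
      obtain ⟨u', hu'⟩ := h3 _ _ h5
      exact ⟨⟨(u, u'), _, h5, hu'⟩, rfl⟩)
    (fun c u hc ⟨⟨x, t, _, b⟩, e⟩ => by
      have e' : x.2 = c • u := e
      have h5 := hsc v' t c u hc (by rw [b, e'])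
      obtain ⟨u', hu'⟩ := h4 _ _ h5
      exact ⟨⟨(u', u), _, hu', h5⟩, rfl⟩)
  refine ⟨g, fun j => hg ⟨(v j, v' j), Pi.single j 1, ?_, ?_⟩⟩ <;>
    exact (Fintype.linearCombination_apply_single _ _ _ _).trans (one_smul _ _)

theorem finite_orbits {α β : Type} [Finite β] (P : α → Prop) (f : α → β) :
    ∃ L : Finset α, (∀ a ∈ L, P a) ∧ ∀ a, P a → ∃ a' ∈ L, f a = f a' := by
  classical
  have hc : ∀ b : β, ∃ L : Finset α, (∀ a ∈ L, P a) ∧ ∀ a, P a → f a = b → ∃ a' ∈ L, f a' = b := by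
    intro b
    by_cases h : ∃ a, P a ∧ f a = b
    · obtain ⟨a, ha, e⟩ := h
      exact ⟨{a}, by simpa using ha, fun _ _ _ => ⟨a, by simp, e⟩⟩
    · exact ⟨∅, by simp, fun a ha e => absurd ⟨a, ha, e⟩ h⟩
  choose L h1 h2 using hc
  cases nonempty_fintype β
  refine ⟨Finset.univ.biUnion L, fun a ha => ?_, fun a ha => ?_⟩
  · obtain ⟨b, -, hb⟩ := Finset.mem_biUnion.1 ha
    exact h1 b a hb
  · obtain ⟨a', h3, h4⟩ := h2 _ a ha rfl
    exact ⟨a', Finset.mem_biUnion.2 ⟨_, Finset.mem_univ _, h3⟩, h4.symm⟩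

end JNv2

open JNv2

theorem p_Nv2 : S_Nv2 := by
  classical
  intro ι _ _ s
  let K : ℕ := 2 ^ (s + 1)
  have hK : 0 < K := by positivity
  let B : ℤ := (K ^ s).factorial + ((K ^ s : ℕ) + 1)
  let Box : Finset (Fin s → ℤ) := Fintype.piFinset fun _ => Finset.Icc (-B) B
  let f : (Fin s → ι → ℤ) → Box → Prop × Prop := fun v m =>
    (Φ v (cst m.1) = 0, ∃ u, Φ v ((1 / (K ^ s).factorial : ℚ) • cst m.1) = cst u)
  obtain ⟨L, hL, h⟩ := finite_orbits (Short K) f
  refine ⟨L.image List.ofFn, fun l hl hN => ?_⟩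
  obtain ⟨v, rfl⟩ : ∃ v : Fin s → ι → ℤ, List.ofFn v = l := by
    subst hl; exact ⟨l.get, List.ofFn_get l⟩
  have hv : Short K v := short_of_Nv v hN
  obtain ⟨v', hv', e⟩ := h v hv
  have hb : ∀ m : Fin s → ℤ, (∀ j, |m j| ≤ B) → m ∈ Box := fun m hm =>
    Fintype.mem_piFinset.2 fun j => Finset.mem_Icc.2 (abs_le.1 (hm j))
  have k1 : ∀ w w', Short K w → f w = f w' → ∀ t, Φ w t = 0 → Φ w' t = 0 := fun w w' hw e =>
    ker_le hK hw fun m hm => by
      have hm' := hb m fun j => (hm j).trans (by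
        have : (0 : ℤ) ≤ (K ^ s).factorial := Int.natCast_nonneg _
        simp only [B]; linarith)
      exact (congrArg Prod.fst (congrFun e ⟨m, hm'⟩)).mp
  have k2 : ∀ w w', Short K w → f w = f w' → ∀ t u, Φ w t = cst u → ∃ u', Φ w' t = cst u' :=
    fun w w' hw e => int_le hK hw (k1 w w' hw e) fun m hm => by
      have hm' := hb m fun j => (hm j).trans (by
        have : (0 : ℤ) ≤ (K ^ s : ℕ) := Int.natCast_nonneg _
        simp only [B]; linarith)
      exact (congrArg Prod.snd (congrFun e ⟨m, hm'⟩)).mp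
  obtain ⟨g, hg⟩ := exists_equiv (k1 v v' hv e) (k1 v' v (hL _ hv') e.symm) (k2 v v' hv e)
    (k2 v' v (hL _ hv') e.symm)
  refine ⟨(toE ι).symm g, Finset.mem_image.2 ⟨v', hv', ?_⟩⟩
  rw [smul_list, List.map_ofFn]
  congr 1
  funext j
  rw [Function.comp_apply, ← toE_apply, MulEquiv.apply_symm_apply, hg]

theorem p_FPGL (hB : S_Brown) (hg : S_FPg) (h1 : S_Nv1) (h2 : S_Nv2) : S_FPGL := by
  intro ι _ _ m
  induction hn : Fintype.card ι using Nat.strong_induction_on generalizing ι with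
  | _ n ih =>
    rcases isEmpty_or_nonempty ι with hι | hι
    · have : Finite (GL ι ℤ) := Finite.of_subsingleton
      exact hg.2.2.2.2.1 _ m
    obtain ⟨a1, a2, a3, a4⟩ := h1 ι
    refine hB (GL ι ℤ) (ι → ℤ) (Nv ι) m a1 a2 a3 (fun k _ => a4 k) (h2 ι) fun l hl hN => ?_
    obtain ⟨v, hv⟩ := List.exists_mem_of_ne_nil l hl
    obtain ⟨Q, -, hQ⟩ := hN
    exact fp_stab hg m ι (fun k hk => ih k (hn ▸ hk) (Fin k) (Fintype.card_fin k)) l hv (hQ v hv).1

end Pool.Agent.Lib.MP_49df17_al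
end

-- part Pool.Agent.Lib.MP_49df17_al.Q
section

/-!
Lowering operators generate everything from the outer coordinates.
-/

namespace Pool.Agent.Lib.MP_49df17_al

open Matrix

namespace JQ

theorem exists_fl {ι : Type} [Fintype ι] (ord : ι → ℕ) (hord : Function.Injective ord) (n0 : ℕ)
    (h : 2 * n0 ≤ Fintype.card ι) :
    ∃ f l : Fin n0 → ι, Function.Injective f ∧ Function.Injective l ∧ (∀ x y, l x ≠ f y) ∧
      (∀ x, ¬ Mid n0 ord (f x)) ∧ (∀ x, ¬ Mid n0 ord (l x)) ∧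
      ∀ m, m ∉ Set.range f → m ∉ Set.range l → ∀ x, ord (f x) < ord m ∧ ord m < ord (l x) := by
  let _ : LinearOrder ι := LinearOrder.lift' ord hord
  let σ := monoEquivOfFin ι (rfl : Fintype.card ι = Fintype.card ι)
  have hσ : ∀ i j, ord (σ i) < ord (σ j) ↔ i < j := fun i j => σ.lt_iff_lt
  let f : Fin n0 → ι := fun x => σ ⟨x, by omega⟩
  let l : Fin n0 → ι := fun x => σ ⟨Fintype.card ι - 1 - x, by omega⟩
  have key : ∀ (g : Fin n0 → ι) (x : Fin n0) (S : Set ι), S ⊆ g '' {y | y ≠ x} → ¬ n0 ≤ S.ncard := by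
    intro g x S hS
    have h1 := Set.ncard_le_ncard hS
    have h2 := Set.ncard_image_le (f := g) (s := {y | y ≠ x})
    have h3 : ({y | y ≠ x} : Set (Fin n0)).ncard < Nat.card (Fin n0) :=
      Set.ncard_lt_card fun hh => (Set.eq_univ_iff_forall.1 hh x) rfl
    rw [Nat.card_eq_fintype_card, Fintype.card_fin] at h3
    omega
  refine ⟨f, l, fun x y hxy => ?_, fun x y hxy => ?_, fun x y hxy => ?_, fun x hx => ?_,
    fun x hx => ?_, fun m h1 h2 x => ?_⟩
  · have := congrArg Fin.val (σ.injective hxy)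
    exact Fin.ext this
  · have := congrArg Fin.val (σ.injective hxy)
    simp only at this
    exact Fin.ext (by omega)
  · have := congrArg Fin.val (σ.injective hxy)
    simp only at this
    omega
  · refine key f x _ (fun b hb => ?_) hx.1
    obtain ⟨i, rfl⟩ := σ.surjective b
    have h1 : (i : ℕ) < x := (hσ _ _).1 hb
    exact ⟨⟨i, by omega⟩, fun hh => by have := congrArg Fin.val hh; simp only at this; omega, rfl⟩
  · refine key l x _ (fun b hb => ?_) hx.2
    obtain ⟨i, rfl⟩ := σ.surjective b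
    have h1 : Fintype.card ι - 1 - x < (i : ℕ) := (hσ _ _).1 hb
    have h2 := i.2
    refine ⟨⟨Fintype.card ι - 1 - i, by omega⟩,
      fun hh => by have := congrArg Fin.val hh; simp only at this; omega, ?_⟩
    exact congrArg σ (Fin.ext (by simp only; omega))
  · obtain ⟨i, rfl⟩ := σ.surjective m
    have h3 := i.2
    have h4 : n0 ≤ i := by
      by_contra hh
      exact h1 ⟨⟨i, by omega⟩, rfl⟩
    have h5 : (i : ℕ) + n0 < Fintype.card ι := by
      by_contra hh
      exact h2 ⟨⟨Fintype.card ι - 1 - i, by omega⟩, congrArg σ (Fin.ext (by simp only; omega))⟩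
    have h6 := x.2
    exact ⟨(hσ _ _).2 (show (x : ℕ) < i by omega),
      (hσ _ _).2 (show (i : ℕ) < Fintype.card ι - 1 - x by omega)⟩

/-- The coordinate embedding along `f` with the retraction twisted along `l`. -/
def tw {Z X : Ob} (f l : Z.ι → X.ι) (hf : Function.Injective f) (hfl : ∀ x y, l x ≠ f y) :
    Mor Z X :=
  ⟨Matrix.of fun y x => if f x = y then 1 else 0,
    Matrix.of fun x y => (if f x = y then 1 else 0) + (if l x = y then 1 else 0), by
    ext a b
    simp [Matrix.mul_apply, Matrix.one_apply, hf.eq_iff, hfl]⟩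

theorem emb_tw {Z Y X : Ob} (e : Y.ι ↪ X.ι) (f l : Z.ι → Y.ι) (hf : Function.Injective f)
    (hfl : ∀ x y, l x ≠ f y) (f' l' : Z.ι → X.ι) (hf' : Function.Injective f')
    (hfl' : ∀ x y, l' x ≠ f' y) (h1 : ∀ x, e (f x) = f' x) (h2 : ∀ x, e (l x) = l' x) :
    (Mor.emb e).comp (tw f l hf hfl) = tw f' l' hf' hfl' := by
  apply Mor.ext
  · ext a b
    simp [Mor.comp, Mor.emb, tw, Matrix.mul_apply, h1]
  · ext a b
    simp only [Mor.comp, Mor.emb, tw, Matrix.mul_apply, Matrix.of_apply, add_mul,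
      Finset.sum_add_distrib, ite_mul, one_mul, zero_mul, Finset.sum_ite_eq, Finset.mem_univ,
      if_true, h1, h2]

theorem emb_comp {Z Y X : Ob} (e : Y.ι ↪ X.ι) (e' : Z.ι ↪ Y.ι) :
    (Mor.emb e).comp (Mor.emb e') = Mor.emb (e'.trans e) := by
  apply Mor.ext
  · ext a b
    simp [Mor.comp, Mor.emb, Matrix.mul_apply]
  · ext a b
    simp only [Mor.comp, Mor.emb, Matrix.mul_apply, Matrix.of_apply, ite_mul, one_mul, zero_mul,
      Finset.sum_ite_eq, Finset.mem_univ, if_true, Function.Embedding.trans_apply]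

theorem exists_GL (hext : S_Zext) {Z X : Ob} (m m' : Mor Z X) :
    ∃ g : GL X.ι ℤ, m = (Mor.ofGL g).comp m' := by
  obtain ⟨T, g, hg, hc, rfl⟩ := hext Z X m
  obtain ⟨T', g', hg', hc', rfl⟩ := hext Z X m'
  have τ : T'.ι ≃ T.ι := Fintype.equivOfCardEq (by unfold Ob.card at hc hc'; omega)
  let P : Mor (Z.sum T') (Z.sum T) := Mor.emb (Equiv.sumCongr (Equiv.refl Z.ι) τ).toEmbedding
  have hP : P.i * P.r = 1 := by
    ext a b
    obtain ⟨a, rfl⟩ := (Equiv.sumCongr (Equiv.refl Z.ι) τ).surjective a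
    simp only [P, Mor.emb, Matrix.mul_apply, Matrix.of_apply, Equiv.coe_toEmbedding,
      EmbeddingLike.apply_eq_iff_eq, ite_mul, one_mul, zero_mul, Finset.sum_ite_eq',
      Finset.mem_univ, if_true, Matrix.one_apply]
  have h0 : P.comp (Mor.inl Z T') = Mor.inl Z T := emb_comp _ _
  have h1 : P.i * (Mor.inl Z T').i = (Mor.inl Z T).i := congrArg Mor.i h0
  have h2 : (Mor.inl Z T').r * P.r = (Mor.inl Z T).r := congrArg Mor.r h0
  refine ⟨⟨g.i * P.i * g'.r, g'.i * P.r * g.r, ?_, ?_⟩, Mor.ext ?_ ?_⟩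
  · calc g.i * P.i * g'.r * (g'.i * P.r * g.r)
        = g.i * (P.i * ((g'.r * g'.i) * P.r)) * g.r := by simp only [Matrix.mul_assoc]
      _ = 1 := by rw [g'.ri, Matrix.one_mul, hP, Matrix.mul_one, hg]
  · calc g'.i * P.r * g.r * (g.i * P.i * g'.r)
        = g'.i * (P.r * ((g.r * g.i) * P.i)) * g'.r := by simp only [Matrix.mul_assoc]
      _ = 1 := by rw [g.ri, Matrix.one_mul, P.ri, Matrix.mul_one, hg']
  · change g.i * (Mor.inl Z T).i = g.i * P.i * g'.r * (g'.i * (Mor.inl Z T').i)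
    rw [← h1]
    calc _ = g.i * (P.i * ((g'.r * g'.i) * (Mor.inl Z T').i)) := by rw [g'.ri, Matrix.one_mul]
      _ = _ := by simp only [Matrix.mul_assoc]
  · change (Mor.inl Z T).r * g.r = (Mor.inl Z T').r * g'.r * (g'.i * P.r * g.r)
    rw [← h2]
    calc _ = (Mor.inl Z T').r * (g'.r * g'.i) * P.r * g.r := by rw [g'.ri, Matrix.mul_one]
      _ = _ := by simp only [Matrix.mul_assoc]

theorem rep_map (A : VIC) {Z X : Ob} (g : GL X.ι ℤ) (m : Mor Z X) (x : A.obj Z) :
    A.rep X g (A.map m x) = A.map ((Mor.ofGL g).comp m) x := by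
  rw [A.map_comp]; rfl

theorem fix (A : VIC) {Z X : Ob} (g : GL X.ι ℤ) (m : Mor Z X) (h1 : g.val * m.i = m.i)
    (h2 : m.r * (g⁻¹).val = m.r) (x : A.obj Z) : A.rep X g (A.map m x) = A.map m x := by
  rw [rep_map, show (Mor.ofGL g).comp m = m from Mor.ext h1 h2]

section El

variable {ι : Type} [Fintype ι] [DecidableEq ι]

theorem elem_val {a b : ι} (h : a ≠ b) : (elem a b).val = 1 + single a b 1 := by
  simp [elem, h]

theorem elem_inv_val {a b : ι} (h : a ≠ b) : ((elem a b)⁻¹).val = 1 - single a b 1 := by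
  simp [elem, h]

theorem sgn_val (c : ι) : (sgn c).val = 1 - (single c c 1 + single c c 1) := by
  ext a b
  simp only [sgn, diagonal_apply, Matrix.sub_apply, Matrix.add_apply, Matrix.one_apply,
    single_apply]
  by_cases h1 : a = b
  · subst h1
    by_cases h2 : a = c
    · simp [h2]
    · simp [h2, Ne.symm h2]
  · rw [if_neg h1, if_neg h1, if_neg fun h : c = a ∧ c = b => h1 (h.1.symm.trans h.2)]
    simp

theorem sgn_inv (c : ι) : (sgn c)⁻¹ = sgn c := Units.ext rfl

theorem single_mul_zero {κ : Type} (a b : ι) (N : Matrix ι κ ℤ) (h : ∀ x, N b x = 0) :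
    single a b (1 : ℤ) * N = 0 := by
  ext y x
  by_cases hy : y = a
  · rw [hy, single_mul_apply_same, h, mul_zero, Matrix.zero_apply]
  · rw [single_mul_apply_of_ne _ _ _ _ _ hy, Matrix.zero_apply]

theorem mul_single_zero {κ : Type} (a b : ι) (N : Matrix κ ι ℤ) (h : ∀ x, N x a = 0) :
    N * single a b (1 : ℤ) = 0 := by
  ext x y
  by_cases hy : y = b
  · rw [hy, mul_single_apply_same, h, zero_mul, Matrix.zero_apply]
  · rw [mul_single_apply_of_ne _ _ _ _ _ hy, Matrix.zero_apply]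

theorem mul_single_eq {κ : Type} (a a' b : ι) (N : Matrix κ ι ℤ) (h : ∀ x, N x a = N x a') :
    N * single a b (1 : ℤ) = N * single a' b (1 : ℤ) := by
  ext x y
  by_cases hy : y = b
  · rw [hy, mul_single_apply_same, mul_single_apply_same, h]
  · rw [mul_single_apply_of_ne _ _ _ _ _ hy, mul_single_apply_of_ne _ _ _ _ _ hy]

variable {M : Type} [AddCommGroup M] [Module ℚ M]

theorem inv_log (hlog : S_log) {ρ : Representation ℚ (GL ι ℤ) M} (hU : Unip ρ) (a b : ι) :
    (∀ v, LU (ρ (elem a b)⁻¹) v) ∧ ulog (ρ (elem a b)⁻¹) = -Xop ρ a b :=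
  ((hlog M).1 _ (hU a b)).2.2.2.2.2 _ (by rw [← map_mul, mul_inv_cancel, map_one])
    (by rw [← map_mul, inv_mul_cancel, map_one])

theorem elem_stable (hlog : S_log) {ρ : Representation ℚ (GL ι ℤ) M} (hU : Unip ρ)
    {U : Submodule ℚ M} (h : Stable (Xop ρ) U) (a b : ι) :
    (∀ v ∈ U, ρ (elem a b) v ∈ U) ∧ ∀ v ∈ U, ρ (elem a b)⁻¹ v ∈ U :=
  ⟨(((hlog M).1 _ (hU a b)).2.2.1 U).2 (h a b),
    (((hlog M).1 _ (inv_log hlog hU a b).1).2.2.1 U).2 fun v hv => by
      rw [(inv_log hlog hU a b).2]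
      exact U.neg_mem (h a b v hv)⟩

theorem gen_stable (hlog : S_log) (hsl : S_isSl) (hgen : S_Zgen)
    {ρ : Representation ℚ (GL ι ℤ) M} (hU : Unip ρ) (W : Submodule ℚ M) (c : ι)
    (hc : ∀ v ∈ W, ρ (sgn c) v ∈ genBy (allX (Xop ρ)) W) (g : GL ι ℤ) :
    ∀ v ∈ genBy (allX (Xop ρ)) W, ρ g v ∈ genBy (allX (Xop ρ)) W := by
  have hst : Stable (Xop ρ) (genBy (allX (Xop ρ)) W) := fun a b v hv =>
    genBy_stable (show _ ∈ allX (Xop ρ) from ⟨a, b, rfl⟩) hv
  have hs : ∀ v ∈ genBy (allX (Xop ρ)) W, ρ (sgn c) v ∈ genBy (allX (Xop ρ)) W := by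
    refine genBy_le (U := (genBy (allX (Xop ρ)) W).comap (ρ (sgn c))) hc ?_
    rintro _ ⟨a, b, rfl⟩ v hv
    have h1 := LinearMap.congr_fun ((hsl ι M ρ hU).2.1 a b c) v
    rw [Module.End.mul_apply] at h1
    rw [Submodule.mem_comap, h1, LinearMap.smul_apply, Module.End.mul_apply]
    exact Submodule.smul_mem _ _ (hst a b _ hv)
  have hg : g ∈ Subgroup.closure ({g | ∃ a b, g = elem a b} ∪ {sgn c}) := by
    rw [hgen ι c]; trivial
  induction hg using Subgroup.closure_induction'' with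
  | mem x hx =>
    rcases hx with ⟨a, b, rfl⟩ | rfl
    · exact (elem_stable hlog hU hst a b).1
    · exact hs
  | inv_mem x hx =>
    rcases hx with ⟨a, b, rfl⟩ | rfl
    · exact (elem_stable hlog hU hst a b).2
    · rw [sgn_inv]; exact hs
  | one => intro v hv; simpa using hv
  | mul x y _ _ hx hy =>
    intro v hv
    rw [map_mul, Module.End.mul_apply]
    exact hx _ (hy _ hv)

end El

section Tw

variable {Z X : Ob} {f l : Z.ι → X.ι} (hf : Function.Injective f) (hfl : ∀ x y, l x ≠ f y)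

theorem single_i (a : X.ι) {b : X.ι} (hb : b ∉ Set.range f) :
    single a b (1 : ℤ) * (tw f l hf hfl).i = 0 :=
  single_mul_zero a b _ fun x => if_neg fun h => hb ⟨x, h⟩

theorem r_single {a : X.ι} (b : X.ι) (h1 : a ∉ Set.range f) (h2 : a ∉ Set.range l) :
    (tw f l hf hfl).r * single a b (1 : ℤ) = 0 :=
  mul_single_zero a b _ fun x => by
    change (if f x = a then (1 : ℤ) else 0) + (if l x = a then 1 else 0) = 0
    rw [if_neg fun h => h1 ⟨x, h⟩, if_neg fun h => h2 ⟨x, h⟩, add_zero]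

theorem r_single_eq (hl : Function.Injective l) (j : Z.ι) (b : X.ι) :
    (tw f l hf hfl).r * single (l j) b (1 : ℤ) = (tw f l hf hfl).r * single (f j) b (1 : ℤ) :=
  mul_single_eq _ _ b _ fun x => by
    change (if f x = l j then (1 : ℤ) else 0) + (if l x = l j then 1 else 0) =
      (if f x = f j then 1 else 0) + (if l x = f j then 1 else 0)
    rw [if_neg (hfl j x).symm, if_neg (hfl x j)]
    simp [hf.eq_iff, hl.eq_iff]

theorem fix_mid (A : VIC) {a b : X.ι} (hab : a ≠ b) (h1 : a ∉ Set.range f) (h2 : a ∉ Set.range l)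
    (hb : b ∉ Set.range f) (x : A.obj Z) :
    A.rep X (elem a b) (A.map (tw f l hf hfl) x) = A.map (tw f l hf hfl) x :=
  fix A _ _ (by rw [elem_val hab, Matrix.add_mul, single_i hf hfl a hb, add_zero, Matrix.one_mul])
    (by rw [elem_inv_val hab, Matrix.mul_sub, r_single hf hfl b h1 h2, sub_zero, Matrix.mul_one]) x

theorem fix_pair (A : VIC) (hl : Function.Injective l) (j : Z.ι) {m : X.ι} (h1 : m ∉ Set.range f)
    (h2 : m ∉ Set.range l) (x : A.obj Z) :
    A.rep X (elem (l j) m * (elem (f j) m)⁻¹) (A.map (tw f l hf hfl) x) =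
      A.map (tw f l hf hfl) x := by
  have e1 : f j ≠ m := fun h => h1 ⟨j, h⟩
  have e2 : l j ≠ m := fun h => h2 ⟨j, h⟩
  refine fix A _ _ ?_ ?_ x
  · rw [Units.val_mul, elem_val e2, elem_inv_val e1, Matrix.mul_assoc, Matrix.sub_mul,
      single_i hf hfl _ h1, sub_zero, Matrix.one_mul, Matrix.add_mul, single_i hf hfl _ h1,
      add_zero, Matrix.one_mul]
  · rw [_root_.mul_inv_rev, inv_inv, Units.val_mul, elem_val e1, elem_inv_val e2, add_mul, mul_sub,
      mul_sub, single_mul_single_of_ne _ _ _ _ e2.symm, Matrix.mul_add, Matrix.mul_sub,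
      Matrix.mul_sub]
    simp [r_single_eq hf hfl hl j m]

theorem sgn_tw (hl : Function.Injective l) (j : Z.ι) :
    (Mor.ofGL (sgn (l j))).comp (tw f l hf hfl) =
      (Mor.ofGL (elem (f j) (l j) * elem (f j) (l j))).comp (tw f l hf hfl) := by
  have e1 : f j ≠ l j := (hfl j j).symm
  have e2 : l j ∉ Set.range f := fun ⟨y, h⟩ => hfl j y h.symm
  apply Mor.ext
  · change (sgn (l j)).val * _ = (elem (f j) (l j) * elem (f j) (l j)).val * _
    rw [Units.val_mul, elem_val e1, sgn_val, Matrix.mul_assoc]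
    simp [Matrix.add_mul, Matrix.sub_mul, single_i hf hfl _ e2]
  · change _ * ((sgn (l j))⁻¹).val = _ * ((elem (f j) (l j) * elem (f j) (l j))⁻¹).val
    rw [sgn_inv, _root_.mul_inv_rev, Units.val_mul, elem_inv_val e1, sgn_val, sub_mul, mul_sub,
      mul_sub, single_mul_single_of_ne _ _ _ _ e1.symm]
    simp only [Matrix.mul_sub, Matrix.mul_add, r_single_eq hf hfl hl j, Matrix.mul_one,
      Matrix.one_mul, Matrix.mul_zero]
    abel

end Tw

theorem gen_top (hlog : S_log) (hsl : S_isSl) (hext : S_Zext) (hgen : S_Zgen) {A : VIC} {n0 : ℕ}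
    {X : Ob} (hG : GenIn A n0) (hU : Unip (A.rep X)) (h3 : 3 ≤ X.card) (hn : n0 ≤ X.card)
    {f l : Fin n0 → X.ι} (hf : Function.Injective f) (hl : Function.Injective l)
    (hfl : ∀ x y, l x ≠ f y) :
    genBy (allX (Xop (A.rep X)))
      (LinearMap.range (A.map (tw (Z := Ob.std n0) f l hf hfl))) = ⊤ := by
  set m := tw (Z := Ob.std n0) f l hf hfl with hm
  have hst : Stable (Xop (A.rep X)) (genBy (allX (Xop (A.rep X))) (LinearMap.range (A.map m))) :=
    fun a b v hv => genBy_stable (show _ ∈ allX (Xop (A.rep X)) from ⟨a, b, rfl⟩) hv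
  obtain ⟨c, hc⟩ : ∃ c, ∀ v ∈ LinearMap.range (A.map m), A.rep X (sgn c) v ∈
      genBy (allX (Xop (A.rep X))) (LinearMap.range (A.map m)) := by
    rcases Nat.eq_zero_or_pos n0 with h0 | h0
    · obtain ⟨c⟩ : Nonempty X.ι := Fintype.card_pos_iff.1 (by unfold Ob.card at h3; omega)
      refine ⟨c, ?_⟩
      rintro _ ⟨x, rfl⟩
      rw [fix A _ m (by ext a b; exact absurd b.2 (by omega))
        (by ext a b; exact absurd a.2 (by omega))]
      exact le_genBy _ _ ⟨x, rfl⟩
    · refine ⟨l ⟨0, h0⟩, ?_⟩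
      rintro _ ⟨x, rfl⟩
      rw [rep_map, hm, sgn_tw (Z := Ob.std n0) hf hfl hl, ← rep_map, map_mul, Module.End.mul_apply]
      exact (elem_stable hlog hU hst _ _).1 _
        ((elem_stable hlog hU hst _ _).1 _ (le_genBy _ _ ⟨x, rfl⟩))
  rw [eq_top_iff, ← hG X hn]
  refine iSup_le fun m' => ?_
  rintro _ ⟨x, rfl⟩
  obtain ⟨g, rfl⟩ := exists_GL hext m' m
  rw [← rep_map]
  exact gen_stable hlog hsl hgen hU _ c hc g _ (le_genBy _ _ ⟨x, rfl⟩)

end JQ

open JQ in
theorem p_Q (hlog : S_log) (hsl : S_isSl) (hpbw : S_pbw) (hslg : S_slg) (hemb : S_emb)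
    (hext : S_Zext) (hgen : S_Zgen) : S_Q := by
  intro A n0 X Y ord e hG hU h3 hn hord he
  obtain ⟨f, l, hf, hl, hfl, hf1, hl1, hmid⟩ := exists_fl ord hord n0 hn
  choose f' hf' using fun x => he _ (hf1 x)
  choose l' hl' using fun x => he _ (hl1 x)
  have hS := (hsl X.ι _ (A.rep X) hU).1
  obtain ⟨g1, g2, -, -, -, g6, -⟩ := hslg X.ι _ (Xop (A.rep X)) hS h3
  have hR := (hemb A X Y e hU).2.2.2.1
  have htop := gen_top hlog hsl hext hgen hG hU h3 (by omega) hf hl hfl
  set Xo := Xop (A.rep X) with hXo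
  set R := LinearMap.range (A.map (Mor.emb e))
  set W := LinearMap.range (A.map (tw (Z := Ob.std n0) f l hf hfl)) with hW
  have hWR : W ≤ R := by
    rintro _ ⟨x, rfl⟩
    have i1 : Function.Injective f' := fun x y h => hf (by rw [← hf', ← hf', h])
    have i2 : ∀ x y, l' x ≠ f' y := fun x y h => hfl x y (by rw [← hf', ← hl', h])
    rw [← emb_tw (Z := Ob.std n0) e f' l' i1 i2 f l hf hfl hf' hl', A.map_comp]
    exact ⟨_, rfl⟩
  let b : Set (Module.End ℚ (A.obj X)) := {x | x ∈ slg Xo ∧ ∀ v ∈ R, x v ∈ R}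
  let k : Set (Module.End ℚ (A.obj X)) := {x | x ∈ slg Xo ∧ ∀ v ∈ W, x v = 0}
  have hX : ∀ a c, Xo a c ∈ slg Xo := fun a c => Submodule.subset_span (Or.inl ⟨a, c, rfl⟩)
  have hH : ∀ a c, Hop Xo a c ∈ slg Xo := fun a c => Submodule.subset_span (Or.inr ⟨a, c, rfl⟩)
  have hk : ∀ x ∈ k, ∀ y ∈ k, x * y - y * x ∈ k := fun x hx y hy =>
    ⟨g1 x hx.1 y hy.1, fun v hv => by
      simp only [LinearMap.sub_apply, Module.End.mul_apply, hx.2 v hv, hy.2 v hv, map_zero,
        sub_zero]⟩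
  have k1 : ∀ a c, a ∉ Set.range f → a ∉ Set.range l → c ∉ Set.range f → Xo a c ∈ k := by
    intro a c h1 h2 h4
    refine ⟨hX a c, ?_⟩
    rintro _ ⟨x, rfl⟩
    by_cases hac : a = c
    · rw [hac, hS.diag]; rfl
    · exact (((hlog _).1 _ (hU a c)).2.1 _).1 (fix_mid (Z := Ob.std n0) hf hfl A hac h1 h2 h4 x)
  have k2 : ∀ j m, m ∉ Set.range f → m ∉ Set.range l → Xo (l j) m - Xo (f j) m ∈ k := by
    intro j m h1 h2
    refine ⟨sub_mem (hX _ _) (hX _ _), ?_⟩
    rintro _ ⟨x, rfl⟩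
    have e1 : f j ≠ m := fun h => h1 ⟨j, h⟩
    have e2 : l j ≠ m := fun h => h2 ⟨j, h⟩
    have hcm : elem (l j) m * elem (f j) m = elem (f j) m * elem (l j) m := by
      apply Units.ext
      rw [Units.val_mul, Units.val_mul, elem_val e1, elem_val e2]
      simp only [add_mul, mul_add, single_mul_single_of_ne _ _ _ _ e1.symm,
        single_mul_single_of_ne _ _ _ _ e2.symm, one_mul, mul_one, add_zero]
      abel
    obtain ⟨u1, u2⟩ := ((hlog _).1 _ (hU (l j) m)).2.2.2.2.1 _ (inv_log hlog hU (f j) m).1 (by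
      rw [← map_mul, ← map_mul, (Commute.inv_right hcm).eq])
    have h5 := fix_pair (Z := Ob.std n0) hf hfl A hl j h1 h2 x
    rw [map_mul] at h5
    have h6 := (((hlog _).1 _ u1).2.1 _).1 h5
    rw [u2, (inv_log hlog hU (f j) m).2, ← sub_eq_add_neg] at h6
    exact h6
  have hb1 : ∀ a c, a ∈ Set.range e → c ∈ Set.range e → Xo a c ∈ b ∧ Hop Xo a c ∈ b := by
    rintro _ _ ⟨a, rfl⟩ ⟨c, rfl⟩
    exact ⟨⟨hX _ _, hR a c⟩, hH _ _, fun v hv => sub_mem (hR a c _ (hR c a v hv))
      (hR c a _ (hR a c v hv))⟩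
  have hfe : ∀ j, f j ∈ Set.range e := fun j => ⟨_, hf' j⟩
  have hle : ∀ j, l j ∈ Set.range e := fun j => ⟨_, hl' j⟩
  set S := Submodule.span ℚ (lowX Xo ord ∪ b ∪ k) with hSd
  have sa : ∀ a c, ord c < ord a → Xo a c ∈ S := fun a c h =>
    Submodule.subset_span (Or.inl (Or.inl ⟨a, c, h, rfl⟩))
  have sb : ∀ x ∈ b, x ∈ S := fun x h => Submodule.subset_span (Or.inl (Or.inr h))
  have sk : ∀ x ∈ k, x ∈ S := fun x h => Submodule.subset_span (Or.inr h)
  have cases3 : ∀ a, (∃ j, a = f j ∨ a = l j) ∨ (a ∉ Set.range f ∧ a ∉ Set.range l) := by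
    intro a
    by_cases h1 : a ∈ Set.range f
    · obtain ⟨j, rfl⟩ := h1
      exact Or.inl ⟨j, Or.inl rfl⟩
    · by_cases h2 : a ∈ Set.range l
      · obtain ⟨j, rfl⟩ := h2
        exact Or.inl ⟨j, Or.inr rfl⟩
      · exact Or.inr ⟨h1, h2⟩
  have out : ∀ a j, a = f j ∨ a = l j → a ∈ Set.range e := by
    rintro a j (rfl | rfl)
    exacts [hfe j, hle j]
  have lnf : ∀ j, l j ∉ Set.range f := fun j ⟨y, h⟩ => hfl j y h.symm
  have sH : ∀ a j m, a ∈ Set.range e → m ∉ Set.range f → m ∉ Set.range l → Hop Xo a (l j) ∈ S ∧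
      Hop Xo (l j) m ∈ S := by
    intro a j m ha h1 h2
    refine ⟨sb _ (hb1 _ _ ha (hle j)).2, ?_⟩
    have h4 := sk _ (hk _ (k2 j m h1 h2) _ (k1 m (l j) h1 h2 (lnf j)))
    have h5 := hS.rel (f j) m (l j) (fun h => h1 ⟨j, h⟩) (fun h => h2 ⟨j, h.symm⟩) (hfl j j).symm
    have h6 : Hop Xo (l j) m = ((Xo (l j) m - Xo (f j) m) * Xo m (l j) -
        Xo m (l j) * (Xo (l j) m - Xo (f j) m)) + Xo (f j) (l j) := by
      rw [← h5, Hop, sub_mul, mul_sub]
      abel
    rw [h6]
    exact add_mem h4 (sb _ (hb1 _ _ (hfe j) (hle j)).1)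
  have hspan : slg Xo ≤ S := by
    refine Submodule.span_le.2 ?_
    rintro _ (⟨a, c, rfl⟩ | ⟨a, c, rfl⟩)
    · rcases cases3 a with ⟨j, ha⟩ | ⟨h1, h2⟩
      · rcases cases3 c with ⟨j', hc⟩ | ⟨h4, h5⟩
        · exact sb _ (hb1 _ _ (out a j ha) (out c j' hc)).1
        · have h6 := sa (l j) c (hmid c h4 h5 j).2
          rcases ha with rfl | rfl
          · have h7 := sub_mem h6 (sk _ (k2 j c h4 h5))
            rwa [sub_sub_cancel] at h7
          · exact h6
      · by_cases hc : c ∈ Set.range f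
        · obtain ⟨j, rfl⟩ := hc
          exact sa _ _ (hmid a h1 h2 j).1
        · exact sk _ (k1 a c h1 h2 hc)
    · have mix : ∀ a j m, a = f j ∨ a = l j → m ∉ Set.range f → m ∉ Set.range l →
          Hop Xo a m ∈ S := fun a j m ha h1 h2 => by
        rw [← g2 a (l j) m]
        exact add_mem (sH a j m (out a j ha) h1 h2).1 (sH a j m (out a j ha) h1 h2).2
      rcases cases3 a with ⟨j, ha⟩ | ⟨h1, h2⟩
      · rcases cases3 c with ⟨j', hc⟩ | ⟨h4, h5⟩
        · exact sb _ (hb1 _ _ (out a j ha) (out c j' hc)).2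
        · exact mix a j c ha h4 h5
      · rcases cases3 c with ⟨j', hc⟩ | ⟨h4, h5⟩
        · have h6 : Hop Xo a c = -Hop Xo c a := (neg_sub _ _).symm
          rw [SetLike.mem_coe, h6]
          exact neg_mem (mix c j' a hc h1 h2)
        · exact sk _ (hk _ (k1 a c h1 h2 h4) _ (k1 c a h4 h5 h1))
  have hmain := hpbw _ (slg Xo) (lowX Xo ord) b k W g1 (by
      rintro x ((⟨a, c, -, rfl⟩ | h) | h)
      exacts [hX a c, h.1, h.1]) hspan (fun x hx v hv => by rw [hx.2 v hv]; exact zero_mem _)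
  rw [g6, htop] at hmain
  refine top_le_iff.1 (hmain.trans (genBy_le ((genBy_le hWR fun x hx => hx.2).trans
    (le_genBy _ _)) fun x hx v hv => genBy_stable hx hv))

end Pool.Agent.Lib.MP_49df17_al
end
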